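import Pool.Agent.Y879.GL.QuadU
import Pool.Agent.Y879.GL.HerPoly

set_option autoImplicit false

/-!
# Single polynomials, uniformly in the coefficients: spacings and regular points
-/

namespace Pool.Agent.R490.Sg

open Polynomial Finset Filter
open Pool.Agent.W123.RP Pool.Agent.H373R2.T7 Pool.Agent.W123.RU Pool.Agent.W123.RU.Poly
open Pool.Agent.TH464.PW Pool.Agent.TH464.PO Pool.Agent.Y879.GL

/-- `f m` has no prime factor `≤ y` -/
def Ro (f : ℤ → ℤ) (y m : ℕ) : Prop := ∀ p : ℕ, p.Prime → p ≤ y → ¬ (p : ℤ) ∣ f (m : ℤ)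

open Classical in
/-- the density of the condition `Ro` -/
noncomputable def De (f : ℤ → ℤ) (y : ℕ) : ℝ := ∏ p ∈ (Finset.range (y + 1)).filter Nat.Prime,
    (1 - (((Finset.range p).filter (fun m : ℕ => (p : ℤ) ∣ f (m : ℤ))).card : ℝ) / p)

/-- the density of the integers without prime factor `≤ y` -/
noncomputable def D1 (y : ℕ) : ℝ := ∏ p ∈ (Finset.range (y + 1)).filter Nat.Prime, (1 - 1 / (p : ℝ))

lemma pz_eq (y : ℕ) : pz y = (Finset.range (y + 1)).filter Nat.Prime := by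
  unfold pz
  ext p
  simp only [mem_filter, mem_Icc, mem_range]
  constructor
  · rintro ⟨h1, h2⟩
    exact ⟨by omega, h2⟩
  · rintro ⟨h1, h2⟩
    exact ⟨⟨h2.one_lt.le, by omega⟩, h2⟩

lemma Vz_D1 (y : ℕ) : Vz y = D1 y := by
  unfold Vz D1
  rw [pz_eq]

/-- the system consisting of one polynomial -/
noncomputable def one (F : ℤ[X]) : Fin 1 → ℤ[X] := fun _ => F

lemma one_Q (F : ℤ[X]) (f : ℤ → ℤ) (hf : ∀ x, F.eval x = f x) (p m : ℕ) :
    Q (one F) p m ↔ (p : ℤ) ∣ f (m : ℤ) := by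
  unfold Q one
  rw [exists_const, hf]

open Classical in
lemma one_V (F : ℤ[X]) (f : ℤ → ℤ) (hf : ∀ x, F.eval x = f x) (y : ℕ) : Vq (Q (one F)) y = De f y := by
  unfold Vq De
  rw [pz_eq]
  apply Finset.prod_congr rfl
  intro p _
  unfold nuB
  simp only [one_Q F f hf]

lemma one_Sf (F : ℤ[X]) (f : ℤ → ℤ) (hf : ∀ x, F.eval x = f x) (y m : ℕ) :
    Sf (Q (one F)) y m ↔ Ro f y m := by
  unfold Sf Ro
  constructor
  · intro h p hp hpy hd
    exact h p (mem_pz.2 ⟨hpy, hp⟩) ((one_Q F f hf p m).2 hd)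
  · intro h p hp hd
    exact h p (mem_pz.1 hp).2 (mem_pz.1 hp).1 ((one_Q F f hf p m).1 hd)

/-- the polynomials to which the theorems apply -/
structure Good (D : ℕ) (H : ℤ) (F : ℤ[X]) (f : ℤ → ℤ) : Prop where
  ev : ∀ x, F.eval x = f x
  irr : Irreducible F
  deg : F.natDegree ≠ 0
  degD : F.natDegree ≤ D
  hgt : ∀ n, |F.coeff n| ≤ H
  adm : ∀ p : ℕ, p.Prime → ∃ m : ℕ, ¬ (p : ℤ) ∣ f (m : ℤ)

lemma Good.us {D A : ℕ} {X : ℕ} (hX : 1 ≤ X) {F : ℤ[X]} {f : ℤ → ℤ} (h : Good D ((X : ℤ) ^ A) F f) (U : ℝ) :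
    US 1 D ((X : ℝ) ^ ((A : ℝ) + 1)) U (one F) := by
  have hX1 : (1 : ℝ) ≤ X := by exact_mod_cast hX
  apply us_single F h.irr h.deg D h.degD
  · intro n
    have h4 := h.hgt n
    have h5 : |((F.coeff n : ℤ) : ℝ)| ≤ (X : ℝ) ^ A := by exact_mod_cast h4
    refine h5.trans ?_
    rw [← Real.rpow_natCast]
    exact Real.rpow_le_rpow_of_exponent_le hX1 (by linarith)
  · intro p hp
    obtain ⟨m, hm⟩ := h.adm p hp
    refine ⟨m, ?_⟩
    rw [h.ev]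
    exact hm

open Classical in
/-- the number of the `n` in `(u, u + Y]` with `Ro f y n` for which fewer than `k` of the `T` integers before
`n` have this property -/
noncomputable def Dk (f : ℤ → ℤ) (y k T u Y : ℕ) : ℕ :=
  ((Ioc u (u + Y)).filter (fun n => Ro f y n ∧ ((Ico (n - T) n).filter (fun m => Ro f y m)).card < k)).card

open Classical in
lemma Dk_eq (F : ℤ[X]) (f : ℤ → ℤ) (hf : ∀ x, F.eval x = f x) (y k T u Y : ℕ) :
    Pk (Sf (Q (one F)) y) k T u Y = Dk f y k T u Y := by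
  have e : Sf (Q (one F)) y = fun m => Ro f y m := by
    funext m
    exact propext (one_Sf F f hf y m)
  unfold Pk Dk
  rw [e]

open Classical in
/-- **The spacing laws, uniformly in the polynomial.** -/
theorem gapS (D A : ℕ) (θ : ℝ) (hθ : 0 < θ) (k0 : ℕ) (x0 ε : ℝ) (hε : 0 < ε) :
    ∃ r0 : ℕ, ∀ r : ℕ, r0 ≤ r → ∀ B : ℝ, ∀ᶠ X : ℕ in atTop, ∀ (F : ℤ[X]) (f : ℤ → ℤ),
      Good D ((X : ℤ) ^ A) F f → ∀ y : ℕ, y = ⌊(X : ℝ) ^ (1 / (r : ℝ))⌋₊ → De f y ≤ B * D1 y →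
      ∀ u Y : ℕ, (X : ℝ) ^ θ ≤ Y → ∀ k T : ℕ, (k ≤ k0 ∨ T * De f y ≤ x0) →
        |(Dk f y k T u Y : ℝ) - Y * De f y *
          ∑ j ∈ range k, Real.exp (-(T * De f y)) * (T * De f y) ^ j / j.factorial| ≤
          ε * (Y * De f y) := by
  obtain ⟨r0, h0⟩ := gap_polys 1 D ((A : ℝ) + 1) 1 θ (by positivity) one_pos hθ k0 x0 ε hε
  refine ⟨max r0 2, ?_⟩
  intro r hr B
  have hr2 : 2 ≤ r := (le_max_right _ _).trans hr
  obtain ⟨C, hC, hVz⟩ := Vz_up r hr2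
  filter_upwards [h0 r ((le_max_left _ _).trans hr) (|B| * C), hVz, eventually_ge_atTop 1] with X h1 h2 h3
  intro F f hF y hy hV u Y hY k T hT
  rw [← hy] at h1 h2
  have e1 := one_V F f hF.ev y
  have h4 := h1 (one F) (hF.us h3 _) (by
    rw [e1]
    refine hV.trans ?_
    rw [← Vz_D1]
    calc B * Vz y ≤ |B| * Vz y := mul_le_mul_of_nonneg_right (le_abs_self B) h2.1
      _ ≤ |B| * (C / Real.log X) := mul_le_mul_of_nonneg_left h2.2 (abs_nonneg B)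
      _ = |B| * C / Real.log X := by ring) u Y hY k T (by rw [e1]; exact hT)
  rw [Dk_eq F f hF.ev, e1] at h4
  exact h4

open Classical in
/-- The number of elements of `S` in `(a, b]`. -/
noncomputable def cnt (S : Set ℕ) (a b : ℕ) : ℕ := ((Finset.Ioc a b).filter (fun m => m ∈ S)).card

/-- All intervals `(m - s, m + t]` with `s, t ≤ Y` of length at least `L / c` contain the right order
of elements of `S`. -/
def RightOrder (S : Set ℕ) (L c : ℝ) (Y m : ℕ) : Prop :=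
  ∀ s t : ℕ, s ≤ Y → t ≤ Y → L ≤ c * (s + t) →
    c * (s + t) / L ≤ cnt S (m - s) (m + t) ∧ (cnt S (m - s) (m + t) : ℝ) ≤ (s + t) / (c * L)

/-- Up to `δ`, `S` has a constant density on both sides of `m` up to the distance `2 ^ j`. -/
def ConstantDensity (S : Set ℕ) (L c δ : ℝ) (m j : ℕ) : Prop :=
  ∃ lam : ℝ, c ≤ lam ∧ lam ≤ 1 / c ∧ ∀ s t : ℕ, s ≤ 2 ^ j → t ≤ 2 ^ j →
    |(cnt S (m - s) (m + t) : ℝ) - lam * (s + t) / L| ≤ δ * 2 ^ j / L

open Classical in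
/-- the number of the scales `L ≤ 2 ^ j ≤ Y` without this property -/
noncomputable def badScales (S : Set ℕ) (L c δ : ℝ) (Y m : ℕ) : ℕ :=
  ((Finset.range (Nat.log 2 Y + 1)).filter (fun j => L ≤ (2 : ℝ) ^ j ∧ ¬ ConstantDensity S L c δ m j)).card

/-- The elements of `S` that are not regular points of `S`. -/
def Irregular (S : Set ℕ) (L c δ : ℝ) (B Y : ℕ) : Set ℕ :=
  {m | m ∈ S ∧ ¬ (RightOrder S L c Y m ∧ badScales S L c δ Y m ≤ B)}

open Classical in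
/-- **Regular points, uniformly in the polynomial.** -/
theorem regS (D A : ℕ) (θ : ℝ) (hθ : 0 < θ) :
    ∃ r0 : ℕ, 2 ≤ r0 ∧ ∀ r : ℕ, r0 ≤ r → ∀ B ε : ℝ, 0 < B → 0 < ε → ∃ c : ℝ, 0 < c ∧
      ∀ δ : ℝ, 0 < δ → ∃ M : ℕ, ∀ᶠ X : ℕ in atTop, ∀ (F : ℤ[X]) (f : ℤ → ℤ),
      Good D ((X : ℤ) ^ A) F f → ∀ y : ℕ, y = ⌊(X : ℝ) ^ (1 / (r : ℝ))⌋₊ → De f y ≤ B * D1 y →
      ∀ u Y : ℕ, (X : ℝ) ^ θ ≤ Y → Y ≤ X → Y ≤ u → ∀ S : Set ℕ, (∀ m ∈ S, Ro f y m) →
        (cnt (Irregular S (1 / De f y) c δ M Y) u (u + Y) : ℝ) ≤ ε * (Y * De f y) := by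
  obtain ⟨r0, hr0, h0⟩ := hered_polys 1 D 0 ((A : ℝ) + 1) 1 θ (by positivity) one_pos hθ
  refine ⟨r0, hr0, ?_⟩
  intro r hr B ε hB hε
  obtain ⟨C, hC, hVz⟩ := Vz_up r (hr0.trans hr)
  obtain ⟨cc, hcc, h1⟩ := h0 r hr (B * C) (by positivity) ε hε
  refine ⟨cc, hcc, ?_⟩
  intro δ hδ
  obtain ⟨M, h2⟩ := h1 δ hδ
  refine ⟨M, ?_⟩
  filter_upwards [h2, hVz, eventually_ge_atTop 1] with X h3 h4 h5
  intro F f hF y hy hV u Y hY hYX hYu S hS
  rw [← hy] at h3 h4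
  have e1 := one_V F f hF.ev y
  have h6 := h3 (one F) (hF.us h5 0) ∅ (by simp) (by
    intro i j t ht _ _
    exact no_self F hF.deg t (by exact_mod_cast (by omega : t ≠ 0))) (by
    rw [e1]
    refine hV.trans ?_
    rw [← Vz_D1]
    calc B * Vz y ≤ B * (C / Real.log X) := mul_le_mul_of_nonneg_left h4.2 hB.le
      _ = B * C / Real.log X := by ring) u Y hY hYX hYu S (fun m hm => (one_Sf F f hF.ev y m).2 (hS m hm))
  rw [e1] at h6
  exact h6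

end Pool.Agent.R490.Sg
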