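import Pool.Agent.Y879.PR.Full
import Pool.Agent.R490.Single

set_option autoImplicit false

/-!
# Rough values at prime arguments, uniformly in the polynomial
-/

namespace Pool.Agent.R490.PA

open Polynomial Finset Filter
open Pool.Agent.W123.RP Pool.Agent.H373R2.T7 Pool.Agent.W123.RU Pool.Agent.W123.RU.Poly
open Pool.Agent.TH464.PW Pool.Agent.TH464.PO Pool.Agent.Y879.GL Pool.Agent.Y879.PR
open Pool.Agent.R490.Sg (Ro D1 pz_eq Vz_D1)

/-- `m` and `f m` have no prime factor `≤ y` -/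
def Ro2 (f : ℤ → ℤ) (y m : ℕ) : Prop :=
  ∀ p : ℕ, p.Prime → p ≤ y → ¬ p ∣ m ∧ ¬ (p : ℤ) ∣ f (m : ℤ)

open Classical in
/-- the density of the condition `Ro2` -/
noncomputable def D2 (f : ℤ → ℤ) (y : ℕ) : ℝ := ∏ p ∈ (Finset.range (y + 1)).filter Nat.Prime,
    (1 - (((Finset.range p).filter (fun m : ℕ => p ∣ m ∨ (p : ℤ) ∣ f (m : ℤ))).card : ℝ) / p)

open Classical in
/-- the relative density for prime arguments -/
noncomputable def Wr (f : ℤ → ℤ) (y : ℕ) : ℝ := ∏ p ∈ (Finset.range (y + 1)).filter Nat.Prime,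
    (1 - (((Finset.range p).filter (fun m : ℕ => p ∣ m ∨ (p : ℤ) ∣ f (m : ℤ))).card : ℝ) / p) /
      (1 - 1 / (p : ℝ))

/-- the system -/
noncomputable def two (F : ℤ[X]) : Fin 2 → ℤ[X] := ![X, F]

lemma two_Q (F : ℤ[X]) (f : ℤ → ℤ) (hf : ∀ x, F.eval x = f x) (p m : ℕ) :
    Q (two F) p m ↔ p ∣ m ∨ (p : ℤ) ∣ f (m : ℤ) := by
  unfold Q two
  rw [Fin.exists_fin_two]
  simp only [Matrix.cons_val_zero, Matrix.cons_val_one, eval_X, hf, Int.natCast_dvd_natCast]

open Classical in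
lemma two_V (F : ℤ[X]) (f : ℤ → ℤ) (hf : ∀ x, F.eval x = f x) (y : ℕ) : Vq (Q (two F)) y = D2 f y := by
  unfold Vq D2
  rw [pz_eq]
  apply Finset.prod_congr rfl
  intro p _
  unfold nuB
  simp only [two_Q F f hf]

lemma W_eq (f : ℤ → ℤ) (y : ℕ) : D2 f y / D1 y = Wr f y := by
  unfold D2 D1 Wr
  rw [← Finset.prod_div_distrib]

lemma two_Sf (F : ℤ[X]) (f : ℤ → ℤ) (hf : ∀ x, F.eval x = f x) (y m : ℕ) :
    Sf (Q (two F)) y m ↔ Ro2 f y m := by
  unfold Sf Ro2
  constructor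
  · intro h p hp hpy
    have h1 := h p (mem_pz.2 ⟨hpy, hp⟩)
    rw [two_Q F f hf, not_or] at h1
    exact h1
  · intro h p hp
    have h1 := h p (mem_pz.1 hp).2 (mem_pz.1 hp).1
    rw [two_Q F f hf, not_or]
    exact h1

/-- the polynomials to which the theorem applies -/
structure Good (D : ℕ) (H : ℤ) (F : ℤ[X]) (f : ℤ → ℤ) : Prop where
  ev : ∀ x, F.eval x = f x
  irr : Irreducible F
  deg : 2 ≤ F.natDegree
  degD : F.natDegree ≤ D
  hgt : ∀ n, |F.coeff n| ≤ H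
  adm : ∀ p : ℕ, p.Prime → ∃ m : ℕ, ¬ p ∣ m ∧ ¬ (p : ℤ) ∣ f (m : ℤ)

lemma deg_assoc {f g : ℤ[X]} (h : Associated f g) : f.natDegree = g.natDegree := by
  rcases assoc_cases h with h1 | h1
  · rw [h1]
  · rw [h1, natDegree_neg]

lemma deg_sh (f : ℤ[X]) (t : ℤ) : (f.comp (X + C t)).natDegree = f.natDegree := by
  rw [natDegree_comp, natDegree_X_add_C, mul_one]

lemma Good.us {D A : ℕ} (hD : 2 ≤ D) {N : ℕ} (hN : 1 ≤ N) {F : ℤ[X]} {f : ℤ → ℤ}
    (h : Good D ((N : ℤ) ^ A) F f) (U : ℝ) : US 2 D ((N : ℝ) ^ ((A : ℝ) + 1)) U (two F) := by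
  have hN1 : (1 : ℝ) ≤ N := by exact_mod_cast hN
  have hN2 : (1 : ℝ) ≤ (N : ℝ) ^ ((A : ℝ) + 1) := Real.one_le_rpow hN1 (by positivity)
  refine ⟨?_, ?_, ?_, ?_, ?_, ?_⟩
  · intro i
    fin_cases i
    · exact Polynomial.irreducible_X
    · exact h.irr
  · intro i
    fin_cases i
    · simp [two]
    · have := h.deg
      simp only [two]
      show F.natDegree ≠ 0
      omega
  · intro i
    fin_cases i
    · simp only [two]
      show (X : ℤ[X]).natDegree ≤ D
      rw [natDegree_X]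
      omega
    · exact h.degD
  · intro i n
    fin_cases i
    · show |(((X : ℤ[X]).coeff n : ℤ) : ℝ)| ≤ _
      rw [coeff_X]
      split_ifs
      · simpa using hN2
      · simp only [Int.cast_zero, abs_zero]
        linarith
    · show |((F.coeff n : ℤ) : ℝ)| ≤ _
      have h4 := h.hgt n
      have h5 : |((F.coeff n : ℤ) : ℝ)| ≤ (N : ℝ) ^ A := by exact_mod_cast h4
      refine h5.trans ?_
      rw [← Real.rpow_natCast]
      exact Real.rpow_le_rpow_of_exponent_le hN1 (by linarith)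
  · intro p hp
    obtain ⟨m, h1, h2⟩ := h.adm p hp
    refine ⟨m, ?_⟩
    intro i
    fin_cases i
    · show ¬ (p : ℤ) ∣ (X : ℤ[X]).eval (m : ℤ)
      rw [eval_X]
      exact_mod_cast h1
    · show ¬ (p : ℤ) ∣ F.eval (m : ℤ)
      rw [h.ev]
      exact h2
  · intro i j t ht _
    have ht0 : (t : ℤ) ≠ 0 := by exact_mod_cast (by omega : t ≠ 0)
    have hdeg := h.deg
    fin_cases i <;> fin_cases j
    · exact no_self X (by rw [natDegree_X]; norm_num) t ht0
    · show ¬ Associated (X : ℤ[X]) (F.comp (X + C (t : ℤ)))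
      intro hc
      have := deg_assoc hc
      rw [deg_sh, natDegree_X] at this
      omega
    · show ¬ Associated F ((X : ℤ[X]).comp (X + C (t : ℤ)))
      intro hc
      have := deg_assoc hc
      rw [deg_sh, natDegree_X] at this
      omega
    · exact no_self F (by omega) t ht0

open Classical in
/-- the primes `n > y` in `(u, u + Y]` for which `f n` has no prime factor `≤ y` -/
noncomputable def Pr (f : ℤ → ℤ) (y u Y : ℕ) : Finset ℕ :=
  (Ioc u (u + Y)).filter (fun n => n.Prime ∧ y < n ∧ Ro f y n)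

open Classical in
/-- the number of the `m` in `(n, n + T]` for which `m` and `f m` have no prime factor `≤ y` -/
noncomputable def Nx (f : ℤ → ℤ) (y T n : ℕ) : ℕ := ((Ioc n (n + T)).filter (fun m => Ro2 f y m)).card

lemma prime_Ro2 (f : ℤ → ℤ) (y n : ℕ) (hn : n.Prime) : Ro2 f y n ↔ y < n ∧ Ro f y n := by
  unfold Ro2 Ro
  constructor
  · intro h
    refine ⟨?_, fun p hp hpy => (h p hp hpy).2⟩
    by_contra hcon
    exact (h n hn (by omega)).1 dvd_rfl
  · rintro ⟨h1, h2⟩ p hp hpy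
    refine ⟨?_, h2 p hp hpy⟩
    intro hd
    rcases (Nat.dvd_prime hn).1 hd with h3 | h3
    · exact hp.one_lt.ne' h3
    · omega

open Classical in
/-- **Rough values at prime arguments.** -/
theorem primeS (D A : ℕ) (hD : 2 ≤ D) (θ δ : ℝ) (hθ : 0 < θ) (hδ : 0 < δ) (hδ1 : δ ≤ 1)
    (x0 ε : ℝ) (hε : 0 < ε) (hε1 : ε ≤ 1) :
    ∃ r0 : ℕ, 2 ≤ r0 ∧ ∀ r : ℕ, r0 ≤ r → ∀ᶠ N : ℕ in atTop, ∀ (F : ℤ[X]) (f : ℤ → ℤ),
      Good D ((N : ℤ) ^ A) F f → ∀ y : ℕ, y = ⌊(N : ℝ) ^ (1 / (r : ℝ))⌋₊ →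
      0 < Wr f y ∧ ∀ X : ℕ, (N : ℝ) ^ θ ≤ X → ∀ u Y : ℕ, δ * X ≤ Y → u + Y ≤ X →
      |((Pr f y u Y).card : ℝ) * Real.log X - Y * Wr f y| ≤ ε * (Y * Wr f y) ∧
      ∀ T : ℕ, T * D2 f y ≤ x0 → ∀ J : Finset ℕ,
      |(((Pr f y u Y).filter (fun n => Nx f y T n ∈ J)).card : ℝ) - (Pr f y u Y).card *
          ∑ j ∈ J, Real.exp (-(T * D2 f y)) * (T * D2 f y) ^ j / j.factorial| ≤
        ε * (Pr f y u Y).card := by
  obtain ⟨r0, hr0, h0⟩ := prime_full 1 2 D squarefree_one ((A : ℝ) + 1) 1 θ δ (by positivity) one_pos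
    hθ hδ hδ1 x0 ε hε hε1
  refine ⟨r0, hr0, ?_⟩
  intro r hr
  obtain ⟨C, hC, hVz⟩ := Vz_up r (hr0.trans hr)
  filter_upwards [h0 r hr C, hVz, eventually_ge_atTop 1] with N h1 h2 h3
  intro F f hF y hy
  rw [← hy] at h1 h2
  have e1 := two_V F f hF.ev y
  have hWpos : 0 < Wr f y := by
    rw [← W_eq, ← e1, ← Vz_D1]
    apply div_pos
    · exact Vq_pos _ (fun p hp => us_adm (hF.us hD h3 1) p hp) y
    · exact Pool.Agent.Y879.PR.Vz_pos y
  refine ⟨hWpos, ?_⟩
  intro X hX u Y hY huY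
  have hle : Vq (Q (two F)) y ≤ C / Real.log N := by
    refine le_trans ?_ h2.2
    have e3 : Vz y = Vq (fun p m => p ∣ m) y := by
      unfold Vz Vq
      apply Finset.prod_congr rfl
      intro p hp
      have hpp := (mem_pz.1 hp).2
      have : nuB (fun p m => p ∣ m) p = 1 := by
        unfold nuB
        rw [Finset.card_eq_one]
        refine ⟨0, ?_⟩
        ext m
        rw [mem_singleton]
        constructor
        · intro h5
          have h6 := (@Finset.mem_filter _ _ (fun a => Classical.propDecidable _) _ _).1 h5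
          exact Nat.eq_zero_of_dvd_of_lt h6.2 (mem_range.1 h6.1)
        · rintro rfl
          exact (@Finset.mem_filter _ _ (fun a => Classical.propDecidable _) _ _).2
            ⟨mem_range.2 hpp.pos, dvd_zero _⟩
      rw [this]
      push_cast
      rfl
    rw [e3]
    apply Vq_anti
    intro p m _ hpm
    rw [two_Q F f hF.ev]
    exact Or.inl hpm
  have hN0 : (0 : ℝ) ≤ N := Nat.cast_nonneg N
  have h4 := h1 (two F) 0 (hF.us hD h3 _) (Nat.coprime_one_left 0) (fun p n hp hp1 => by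
      exact absurd (Nat.dvd_one.1 hp1) hp.one_lt.ne') ⟨0, fun n => by simp [two]⟩ hle
      (by push_cast; positivity) X hX u Y hY huY
  rw [e1, Vz_D1, W_eq] at h4
  have eOm : Om 1 0 (Q (two F)) y u Y = Pr f y u Y := by
    unfold Om Pr
    apply Finset.filter_congr
    intro n _
    rw [one_mul, add_zero]
    constructor
    · rintro ⟨h5, h6⟩
      rw [two_Sf F f hF.ev, prime_Ro2 f y n h5] at h6
      exact ⟨h5, h6⟩
    · rintro ⟨h5, h6⟩
      rw [two_Sf F f hF.ev, prime_Ro2 f y n h5]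
      exact ⟨h5, h6⟩
  rw [eOm] at h4
  refine ⟨h4.1, ?_⟩
  intro T hT J
  have h5 := h4.2 T hT J
  have eW : ∀ n, Wc (Sf (Q (two F)) y) n T = Nx f y T n := by
    intro n
    unfold Wc Nx
    congr 1
    apply Finset.filter_congr
    intro m _
    exact two_Sf F f hF.ev y m
  simp only [eW] at h5
  exact h5

end Pool.Agent.R490.PA
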