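import Pool.Agent.R490.Pow

set_option autoImplicit false

/-!
# Admissibility of some tuples
-/

namespace Pool.Agent.R490.Tu

lemma adm_tw (p : ℕ) (hp : p.Prime) : ∃ m : ℕ, ∀ h ∈ ({0, 2} : Finset ℕ), ¬ p ∣ m + h := by
  by_cases h3 : p ≤ 3
  · refine ⟨5, ?_⟩
    have := hp.two_le
    interval_cases p <;> decide
  · refine ⟨1, ?_⟩
    intro h hh hd
    simp only [Finset.mem_insert, Finset.mem_singleton] at hh
    have hle := Nat.le_of_dvd (by omega) hd
    rcases hh with rfl | rfl <;> omega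

lemma adm_qu (p : ℕ) (hp : p.Prime) : ∃ m : ℕ, ∀ h ∈ ({0, 2, 6, 8} : Finset ℕ), ¬ p ∣ m + h := by
  by_cases h3 : p ≤ 9
  · refine ⟨11, ?_⟩
    have := hp.two_le
    interval_cases p <;> first | decide | exact absurd hp (by norm_num)
  · refine ⟨1, ?_⟩
    intro h hh hd
    simp only [Finset.mem_insert, Finset.mem_singleton] at hh
    have hle := Nat.le_of_dvd (by omega) hd
    rcases hh with rfl | rfl | rfl | rfl <;> omega

lemma adm_ta (p : ℕ) (hp : p.Prime) : ∃ m : ℕ, ∀ h ∈ ({0, 2, 6} : Finset ℕ), ¬ p ∣ m + h := by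
  obtain ⟨m, hm⟩ := adm_qu p hp
  refine ⟨m, fun h hh => hm h ?_⟩
  simp only [Finset.mem_insert, Finset.mem_singleton] at hh ⊢
  tauto

lemma adm_tb (p : ℕ) (hp : p.Prime) : ∃ m : ℕ, ∀ h ∈ ({0, 4, 6} : Finset ℕ), ¬ p ∣ m + h := by
  by_cases h3 : p ≤ 9
  · refine ⟨13, ?_⟩
    have := hp.two_le
    interval_cases p <;> first | decide | exact absurd hp (by norm_num)
  · refine ⟨1, ?_⟩
    intro h hh hd
    simp only [Finset.mem_insert, Finset.mem_singleton] at hh
    have hle := Nat.le_of_dvd (by omega) hd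
    rcases hh with rfl | rfl | rfl <;> omega

end Pool.Agent.R490.Tu
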