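import Pool.Agent.Y879.AP.Phi
import Pool.Agent.Y879.AP.Pair2

set_option autoImplicit false

/-!
# Almost primes over the reduced residue classes of every modulus
-/

namespace Pool.Agent.R490.Cls

open Finset Filter
open Pool.Agent.W123.RP Pool.Agent.H373R2.T7 Pool.Agent.W123.RU Pool.Agent.TH464.PO Pool.Agent.TH464.PW
open Pool.Agent.Y879.AP

/-- the density: the product of `1 - 1 / p` over the primes `p ≤ y` not dividing `q` -/
noncomputable def V (q y : ℕ) : ℝ :=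
  ∏ p ∈ (Finset.range (y + 1)).filter (fun p => p.Prime ∧ ¬ p ∣ q), (1 - 1 / (p : ℝ))

open Classical in
/-- the number of the `1 ≤ h ≤ T` for which `n + q h` has no prime factor `≤ y` -/
noncomputable def cnt (q y T n : ℕ) : ℕ :=
  ((Icc 1 T).filter (fun h => ∀ p : ℕ, p.Prime → p ≤ y → ¬ p ∣ n + q * h)).card

lemma V_eq (q y : ℕ) : Vq (Qn Ql q) y = V q y := by
  classical
  unfold Vq V
  have e : (Finset.range (y + 1)).filter (fun p => p.Prime ∧ ¬ p ∣ q) = (pz y).filter (fun p => ¬ p ∣ q) := by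
    ext p
    simp only [mem_filter, mem_range, mem_pz]
    constructor
    · rintro ⟨h1, h2, h3⟩
      exact ⟨⟨by omega, h2⟩, h3⟩
    · rintro ⟨⟨h1, h2⟩, h3⟩
      exact ⟨by omega, h2, h3⟩
  rw [e, Finset.prod_filter]
  apply Finset.prod_congr rfl
  intro p hp
  have hpp := (mem_pz.1 hp).2
  by_cases h : p ∣ q
  · rw [if_neg (not_not.2 h), nuB_Qn_dvd _ _ _ h]
    simp
  · rw [if_pos h, nuB_Qn_not _ _ _ h, nuB_Ql p hpp]
    push_cast
    rfl

lemma cnt_eq (q y T n : ℕ) : Wr q y T n = cnt q y T n := by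
  classical
  unfold Wr cnt
  congr 1
  apply Finset.filter_congr
  intro h _
  constructor
  · intro h1 p hp hpy
    exact h1 p (mem_pz.2 ⟨hpy, hp⟩)
  · intro h1 p hp
    exact h1 p (mem_pz.1 hp).2 (mem_pz.1 hp).1

open Classical in
/-- **The Poisson law for almost primes over the reduced residue classes of every modulus.** -/
theorem law (θ x0 ε : ℝ) (hθ : 0 < θ) (hε : 0 < ε) :
    ∃ r0 : ℕ, 2 ≤ r0 ∧ ∀ r : ℕ, r0 ≤ r → ∀ᶠ q : ℕ in atTop, ∀ y : ℕ, y = ⌊(q : ℝ) ^ (1 / (r : ℝ))⌋₊ →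
      ∀ Z Y : ℕ, (q : ℝ) ^ θ ≤ Y → ∀ T : ℕ, T * V q y ≤ x0 → ∀ J : Finset ℕ,
        |(((Ioc Z (Z + Y)).filter (fun n => n.Coprime q ∧ cnt q y T n ∈ J)).card : ℝ) -
          Y * ((q.totient : ℝ) / q) * ∑ j ∈ J, Real.exp (-(T * V q y)) * (T * V q y) ^ j / j.factorial| ≤
          ε * (Y * ((q.totient : ℝ) / q)) := by
  obtain ⟨r0, hr0, h0⟩ := phi_law θ x0 ε hθ hε
  refine ⟨r0, hr0, fun r hr => ?_⟩
  filter_upwards [h0 r hr] with q hq
  intro y hy Z Y hY T hT J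
  have h1 := hq Z Y hY T (by rw [← hy, V_eq]; exact hT) J
  rw [← hy, V_eq] at h1
  simp only [cnt_eq] at h1
  exact h1

end Pool.Agent.R490.Cls
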