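import Pool.Agent.R490.LZ

set_option autoImplicit false

/-!
# The forms `n` and `a n + 1`
-/

namespace Pool.Agent.R490.Bc

open Polynomial Finset Filter
open Pool.Agent.R490.Sg (D1 cnt RightOrder ConstantDensity badScales Irregular)

/-- admissible sets -/
def Adm (T : Finset ℕ) : Prop := ∀ p : ℕ, p.Prime → ¬ ∀ n : ℕ, 1 ≤ n → p ∣ n * ∏ a ∈ T, (a * n + 1)

/-- neither `n` nor any `a n + 1` has a prime factor `≤ y` -/
def Ro (T : Finset ℕ) (y n : ℕ) : Prop := ∀ p : ℕ, p.Prime → p ≤ y → ¬ p ∣ n ∧ ∀ a ∈ T, ¬ p ∣ a * n + 1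

/-- the number of the forbidden classes -/
def w (T : Finset ℕ) (p : ℕ) : ℕ := ((Finset.range p).filter (fun n => p ∣ n * ∏ a ∈ T, (a * n + 1))).card

/-- the density -/
noncomputable def V (T : Finset ℕ) (y : ℕ) : ℝ :=
  ∏ p ∈ (Finset.range (y + 1)).filter Nat.Prime, (1 - (w T p : ℝ) / p)

/-- the density relative to the primes -/
noncomputable def W (T : Finset ℕ) (y : ℕ) : ℝ :=
  ∏ p ∈ (Finset.range (y + 1)).filter Nat.Prime, (1 - (w T p : ℝ) / p) / (1 - 1 / (p : ℝ))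

/-- the forms -/
def fo (T : Finset ℕ) : Finset (ℤ × ℤ) := insert ((1 : ℤ), (0 : ℤ)) (T.image (fun a : ℕ => ((a : ℤ), (1 : ℤ))))

lemma fo_card (T : Finset ℕ) : (fo T).card = T.card + 1 := by
  unfold fo
  rw [Finset.card_insert_of_notMem, Finset.card_image_of_injective]
  · intro a b h
    have h1 : (a : ℤ) = b := (Prod.ext_iff.1 h).1
    exact_mod_cast h1
  · rw [Finset.mem_image]
    rintro ⟨a, _, h⟩
    exact one_ne_zero (Prod.ext_iff.1 h).2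

lemma fo_ex (T : Finset ℕ) (p m : ℕ) :
    (∃ l ∈ fo T, (p : ℤ) ∣ l.1 * m + l.2) ↔ (p ∣ m ∨ ∃ a ∈ T, p ∣ a * m + 1) := by
  unfold fo
  constructor
  · rintro ⟨l, hl, hd⟩
    rcases Finset.mem_insert.1 hl with rfl | hl
    · left
      simp only [one_mul, add_zero] at hd
      exact_mod_cast hd
    · right
      obtain ⟨a, ha, rfl⟩ := Finset.mem_image.1 hl
      have hd' : (p : ℤ) ∣ (a : ℤ) * m + 1 := hd
      exact ⟨a, ha, by exact_mod_cast hd'⟩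
  · rintro (h | ⟨a, ha, h⟩)
    · refine ⟨_, Finset.mem_insert_self _ _, ?_⟩
      simp only [one_mul, add_zero]
      exact_mod_cast h
    · refine ⟨_, Finset.mem_insert_of_mem (Finset.mem_image_of_mem _ ha), ?_⟩
      have h1 : (p : ℤ) ∣ (a : ℤ) * m + 1 := by exact_mod_cast h
      exact h1

lemma dvd_iff (T : Finset ℕ) (p m : ℕ) (hp : p.Prime) :
    p ∣ m * ∏ a ∈ T, (a * m + 1) ↔ (p ∣ m ∨ ∃ a ∈ T, p ∣ a * m + 1) := by
  rw [hp.dvd_mul, Prime.dvd_finsetProd_iff hp.prime]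

open Classical in
lemma w_eq (T : Finset ℕ) (p : ℕ) (hp : p.Prime) :
    ((Finset.range p).filter (fun m : ℕ => ∃ l ∈ fo T, (p : ℤ) ∣ l.1 * m + l.2)).card = w T p := by
  unfold w
  congr 1
  ext m
  simp only [Finset.mem_filter]
  rw [fo_ex, dvd_iff T p m hp]

lemma V_eq (T : Finset ℕ) (y : ℕ) : LZ.De (fo T) y = V T y := by
  unfold LZ.De V
  apply Finset.prod_congr rfl
  intro p hp
  rw [w_eq T p (Finset.mem_filter.1 hp).2]

lemma W_eq (T : Finset ℕ) (y : ℕ) : LZ.Wr (fo T) y = W T y := by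
  unfold LZ.Wr W
  apply Finset.prod_congr rfl
  intro p hp
  rw [w_eq T p (Finset.mem_filter.1 hp).2]

lemma ro_iff (T : Finset ℕ) (y m : ℕ) : LZ.Ro (fo T) y m ↔ Ro T y m := by
  unfold LZ.Ro Ro
  constructor
  · intro h p hp hpy
    have h1 : ¬ ∃ l ∈ fo T, (p : ℤ) ∣ l.1 * m + l.2 := by
      rintro ⟨l, hl, hd⟩
      exact h p hp hpy l hl hd
    rw [fo_ex] at h1
    push Not at h1
    exact h1
  · intro h p hp hpy l hl hd
    have h1 := (fo_ex T p m).1 ⟨l, hl, hd⟩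
    rcases h1 with h1 | ⟨a, ha, h1⟩
    · exact (h p hp hpy).1 h1
    · exact (h p hp hpy).2 a ha h1

lemma fo_good (N : ℕ) (T : Finset ℕ) (hN1 : 1 ≤ N) (hT : ∀ a ∈ T, 1 ≤ a ∧ a ≤ N) (hA : Adm T) :
    LZ.Good N (fo T) where
  one := fun l hl => by
    rcases Finset.mem_insert.1 hl with rfl | hl
    · exact le_rfl
    · obtain ⟨a, ha, rfl⟩ := Finset.mem_image.1 hl
      have h1 : (1 : ℤ) ≤ a := by exact_mod_cast (hT a ha).1
      exact h1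
  bda := fun l hl => by
    rcases Finset.mem_insert.1 hl with rfl | hl
    · have h1 : (1 : ℤ) ≤ N := by exact_mod_cast hN1
      exact h1
    · obtain ⟨a, ha, rfl⟩ := Finset.mem_image.1 hl
      have h1 : (a : ℤ) ≤ N := by exact_mod_cast (hT a ha).2
      exact h1
  bdb := fun l hl => by
    rcases Finset.mem_insert.1 hl with rfl | hl
    · simp
    · obtain ⟨a, ha, rfl⟩ := Finset.mem_image.1 hl
      simp only [abs_one]
      exact_mod_cast hN1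
  adm := fun p hp => by
    have h1 := hA p hp
    push Not at h1
    obtain ⟨n, hn, hd⟩ := h1
    refine ⟨n, fun l hl hd2 => hd ?_⟩
    rw [dvd_iff T p n hp, ← fo_ex]
    exact ⟨l, hl, hd2⟩

lemma fo_noT (T : Finset ℕ) (hT : ∀ a ∈ T, 1 ≤ a) (hA : Adm T) (U : ℝ) : LZ.NoT (fo T) U := by
  have h1T : 1 ∉ T := by
    intro h1
    apply hA 2 Nat.prime_two
    intro n _
    rw [← Finset.mul_prod_erase T _ h1, ← mul_assoc]
    apply Dvd.dvd.mul_right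
    rw [one_mul]
    rcases Nat.even_or_odd n with h | h
    · exact Dvd.dvd.mul_right h.two_dvd _
    · exact Dvd.dvd.mul_left (h.add_one).two_dvd _
  intro l hl l' hl' t ht _ h1 h2
  have ht' : (1 : ℤ) ≤ t := by exact_mod_cast ht
  rcases Finset.mem_insert.1 hl with rfl | hl
  · rcases Finset.mem_insert.1 hl' with rfl | hl'
    · simp only [one_mul, zero_add] at h2
      omega
    · obtain ⟨a, ha, rfl⟩ := Finset.mem_image.1 hl'
      simp only at h1 h2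
      rw [← h1] at h2
      omega
  · obtain ⟨a, ha, rfl⟩ := Finset.mem_image.1 hl
    rcases Finset.mem_insert.1 hl' with rfl | hl'
    · simp only at h1
      exact h1T (by
        have : a = 1 := by exact_mod_cast h1
        rwa [this] at ha)
    · obtain ⟨b, hb, rfl⟩ := Finset.mem_image.1 hl'
      simp only at h1 h2
      have hb1 : (1 : ℤ) ≤ b := by exact_mod_cast hT b hb
      have : (b : ℤ) * t = 0 := by linarith
      rcases mul_eq_zero.1 this with h | h <;> omega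

open Classical in
/-- the counting function of the spacings -/
noncomputable def Dk (T : Finset ℕ) (y k B u Y : ℕ) : ℕ :=
  ((Ioc u (u + Y)).filter (fun n => Ro T y n ∧ ((Ico (n - B) n).filter (fun m => Ro T y m)).card < k)).card

open Classical in
/-- the primes `n` with `Ro T y n` -/
noncomputable def Pr (T : Finset ℕ) (y u Y : ℕ) : Finset ℕ :=
  (Ioc u (u + Y)).filter (fun n => n.Prime ∧ Ro T y n)

open Classical in
/-- the number of the following `m` with `Ro T y m` -/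
noncomputable def Nx (T : Finset ℕ) (y B n : ℕ) : ℕ := ((Ioc n (n + B)).filter (fun m => Ro T y m)).card

open Classical in
theorem bgap (s A : ℕ) (hs : 1 ≤ s) (θ : ℝ) (hθ : 0 < θ) (k0 : ℕ) (x0 ε : ℝ) (hε : 0 < ε) :
    ∃ r0 : ℕ, ∀ r : ℕ, r0 ≤ r → ∀ᶠ X : ℕ in atTop, ∀ y : ℕ, y = ⌊(X : ℝ) ^ (1 / (r : ℝ))⌋₊ →
      ∀ T : Finset ℕ, T.card = s → (∀ a ∈ T, 1 ≤ a ∧ a ≤ X ^ A) → Adm T →
      ∀ u Y : ℕ, (X : ℝ) ^ θ ≤ Y → ∀ k B : ℕ, (k ≤ k0 ∨ B * V T y ≤ x0) →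
        |(Dk T y k B u Y : ℝ) - Y * V T y *
            ∑ j ∈ range k, Real.exp (-(B * V T y)) * (B * V T y) ^ j / j.factorial| ≤
          ε * (Y * V T y) := by
  obtain ⟨r0, h0⟩ := LZ.gapL (s + 1) A (by omega) 1 θ one_pos hθ k0 x0 ε hε
  refine ⟨r0, fun r hr => ?_⟩
  filter_upwards [h0 r hr, eventually_ge_atTop 1] with X hX hX1
  intro y hy T hT hTX hA u Y hY k B hB
  have h1 := hX (fo T) (by rw [fo_card, hT]) (fo_good _ T (Nat.one_le_pow _ _ hX1) hTX hA)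
    (fo_noT T (fun a ha => (hTX a ha).1) hA _) y hy u Y hY k B (by rw [V_eq]; exact hB)
  rw [V_eq] at h1
  have eD : LZ.Dk (fo T) y k B u Y = Dk T y k B u Y := by
    unfold LZ.Dk Dk
    simp only [ro_iff]
  rw [eD] at h1
  exact h1

open Classical in
theorem breg (s A : ℕ) (hs : 1 ≤ s) (θ : ℝ) (hθ : 0 < θ) :
    ∃ r0 : ℕ, 2 ≤ r0 ∧ ∀ r : ℕ, r0 ≤ r → ∀ ε : ℝ, 0 < ε → ∃ c : ℝ, 0 < c ∧
      ∀ δ : ℝ, 0 < δ → ∃ M : ℕ, ∀ᶠ X : ℕ in atTop, ∀ y : ℕ, y = ⌊(X : ℝ) ^ (1 / (r : ℝ))⌋₊ →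
      ∀ T : Finset ℕ, T.card = s → (∀ a ∈ T, 1 ≤ a ∧ a ≤ X ^ A) → Adm T →
      ∀ u Y : ℕ, (X : ℝ) ^ θ ≤ Y → Y ≤ X → Y ≤ u → ∀ S : Set ℕ, (∀ m ∈ S, Ro T y m) →
        (cnt (Irregular S (1 / V T y) c δ M Y) u (u + Y) : ℝ) ≤ ε * (Y * V T y) := by
  obtain ⟨r0, hr0, h0⟩ := LZ.regL (s + 1) A (by omega) θ hθ
  refine ⟨r0, hr0, fun r hr ε hε => ?_⟩
  obtain ⟨c, hc, h1⟩ := h0 r hr ε hε
  refine ⟨c, hc, fun δ hδ => ?_⟩
  obtain ⟨M, h2⟩ := h1 δ hδ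
  refine ⟨M, ?_⟩
  filter_upwards [h2, eventually_ge_atTop 1] with X hX hX1
  intro y hy T hT hTX hA u Y hY hYX hYu S hS
  have h3 := hX (fo T) (by rw [fo_card, hT]) (fo_good _ T (Nat.one_le_pow _ _ hX1) hTX hA)
    y hy u Y hY hYX hYu S (fun m hm => (ro_iff T y m).2 (hS m hm))
  rw [V_eq] at h3
  exact h3

open Classical in
theorem bprime (s A : ℕ) (hs : 1 ≤ s) (θ δ : ℝ) (hθ : 0 < θ) (hδ : 0 < δ) (hδ1 : δ ≤ 1)
    (x0 ε : ℝ) (hε : 0 < ε) (hε1 : ε ≤ 1) :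
    ∃ r0 : ℕ, 2 ≤ r0 ∧ ∀ r : ℕ, r0 ≤ r → ∀ᶠ N : ℕ in atTop, ∀ y : ℕ, y = ⌊(N : ℝ) ^ (1 / (r : ℝ))⌋₊ →
      ∀ T : Finset ℕ, T.card = s → (∀ a ∈ T, 1 ≤ a ∧ a ≤ N ^ A) → Adm T →
      0 < W T y ∧ ∀ X : ℕ, (N : ℝ) ^ θ ≤ X → ∀ u Y : ℕ, δ * X ≤ Y → u + Y ≤ X →
      |((Pr T y u Y).card : ℝ) * Real.log X - Y * W T y| ≤ ε * (Y * W T y) ∧
      ∀ B : ℕ, B * V T y ≤ x0 → ∀ J : Finset ℕ,
      |(((Pr T y u Y).filter (fun n => Nx T y B n ∈ J)).card : ℝ) - (Pr T y u Y).card *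
          ∑ j ∈ J, Real.exp (-(B * V T y)) * (B * V T y) ^ j / j.factorial| ≤
        ε * (Pr T y u Y).card := by
  obtain ⟨r0, hr0, h0⟩ := LZ.primeL 1 (s + 1) A squarefree_one (by omega) 1 θ δ one_pos hθ hδ hδ1 x0 ε hε hε1
  refine ⟨r0, hr0, fun r hr => ?_⟩
  filter_upwards [h0 r hr, eventually_ge_atTop 1] with N hN hN1
  intro y hy T hT hTX hA
  have h1 := hN (fo T) 0 (by rw [fo_card, hT]) (by
      unfold fo
      exact Finset.mem_insert_self _ _) (by push_cast; positivity)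
    (fun p hp h1 => absurd (Nat.dvd_one.1 h1) hp.one_lt.ne')
    (fo_good _ T (Nat.one_le_pow _ _ hN1) hTX hA) (fo_noT T (fun a ha => (hTX a ha).1) hA _) y hy
  have eP : ∀ u Y, LZ.Pr 1 0 (fo T) y u Y = Pr T y u Y := by
    intro u Y
    unfold LZ.Pr Pr
    simp only [ro_iff, one_mul, add_zero]
  have eN : ∀ B n, LZ.Nx (fo T) y B n = Nx T y B n := by
    intro B n
    unfold LZ.Nx Nx
    simp only [ro_iff]
  rw [W_eq, V_eq] at h1
  simp only [eP, eN] at h1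
  exact h1

/-- `m` is a term of an `l`-term arithmetic progression with difference at most `D`, all terms of which
are elements of `A` in `(X, Z]`. -/
def InP (A : Set ℕ) (l : ℕ) (D : ℝ) (X Z m : ℕ) : Prop :=
  ∃ s d : ℕ, 1 ≤ d ∧ (d : ℝ) ≤ D ∧ (∀ i < l, s + i * d ∈ A ∧ X < s + i * d ∧ s + i * d ≤ Z) ∧
    ∃ i < l, m = s + i * d

open Classical in
theorem bnar (T : Finset ℕ) (hT1 : ∀ a ∈ T, 1 ≤ a) (hA : Adm T) (θ : ℝ) (hθ : 0 < θ)
    (r : ℕ) (hr : 2 ≤ r) (l : ℕ) (hl : 2 ≤ l) (ε : ℝ) (hε : 0 < ε) :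
    ∃ B : ℕ, ∀ᶠ X : ℕ in atTop, ∀ Y : ℕ, (X : ℝ) ^ θ ≤ Y → Y ≤ X →
      ∀ S : Set ℕ, (∀ m ∈ S, ∀ p : ℕ, p.Prime → (p ∣ m ∨ ∃ a ∈ T, p ∣ a * m + 1) →
        (m : ℝ) ^ (1 / (r : ℝ)) < (p : ℝ)) →
        (((Ioc X (X + Y)).filter (fun m : ℕ =>
          m ∈ S ∧ ¬ InP S l (Real.log X ^ B) X (X + Y) m)).card : ℝ) ≤
        ε * (Y / Real.log X ^ (T.card + 1)) := by
  have hne : (fo T).Nonempty := ⟨_, Finset.mem_insert_self _ _⟩
  obtain ⟨B, hB⟩ := LZ.narL (fo_good (1 + ∑ a ∈ T, a) T (by omega) (fun a ha => ⟨hT1 a ha, by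
      have h2 : a ≤ ∑ a ∈ T, a := Finset.single_le_sum (f := fun r => r) (fun _ _ => Nat.zero_le _) ha
      omega⟩) hA) hne θ hθ r hr l hl ε hε
  refine ⟨B, ?_⟩
  filter_upwards [hB] with X hX Y hXY hYX S hS
  have h1 := hX Y hXY hYX S (fun m hm l hl p hp hd => hS m hm p hp ((fo_ex T p m).1 ⟨l, hl, hd⟩))
  rw [fo_card] at h1
  refine le_trans (le_of_eq ?_) h1
  congr 2
  apply filter_congr
  intro m _
  unfold InP Pool.Agent.R490.Tu.InP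
  simp only [Order.lt_add_one_iff]

end Pool.Agent.R490.Bc
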