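import Pool.Agent.R490.LZR

set_option autoImplicit false

/-!
# Cunningham chains of the second kind: the forms `2 ^ j (n - 1) + 1`
-/

namespace Pool.Agent.R490.Cc

open Finset Filter
open Pool.Agent.R490.LZ (Good NoT)
open Pool.Agent.R490.LZR (Rep)

/-- the forms `2 ^ j (n - 1) + 1`, `j < k` -/
def cc (k : ℕ) : Finset (ℤ × ℤ) := (range k).image (fun j => ((2 : ℤ) ^ j, 1 - (2 : ℤ) ^ j))

lemma mem_cc {k : ℕ} {l : ℤ × ℤ} : l ∈ cc k ↔ ∃ j < k, l = ((2 : ℤ) ^ j, 1 - (2 : ℤ) ^ j) := by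
  unfold cc
  rw [mem_image]
  constructor
  · rintro ⟨j, hj, rfl⟩
    exact ⟨j, mem_range.1 hj, rfl⟩
  · rintro ⟨j, hj, rfl⟩
    exact ⟨j, mem_range.2 hj, rfl⟩

lemma cc_card (k : ℕ) : (cc k).card = k := by
  unfold cc
  rw [Finset.card_image_of_injective, card_range]
  intro i j h
  have h1 : (2 : ℤ) ^ i = 2 ^ j := congrArg Prod.fst h
  exact Int.pow_right_injective (by norm_num) h1

lemma cc_rep (k : ℕ) (g : ℕ → ℕ → Prop)
    (hg : ∀ p m : ℕ, g p m ↔ ∃ j < k, (p : ℤ) ∣ 2 ^ j * ((m : ℤ) - 1) + 1) : Rep (cc k) g := by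
  intro p m
  rw [hg]
  constructor
  · rintro ⟨l, hl, hd⟩
    obtain ⟨j, hj, rfl⟩ := mem_cc.1 hl
    refine ⟨j, hj, ?_⟩
    have e : (2 : ℤ) ^ j * ((m : ℤ) - 1) + 1 = 2 ^ j * m + (1 - 2 ^ j) := by ring
    rw [e]
    exact hd
  · rintro ⟨j, hj, hd⟩
    refine ⟨_, mem_cc.2 ⟨j, hj, rfl⟩, ?_⟩
    have e : (2 : ℤ) ^ j * ((m : ℤ) - 1) + 1 = 2 ^ j * m + (1 - 2 ^ j) := by ring
    rw [e] at hd
    exact hd

lemma cc_good (k : ℕ) : Good (2 ^ k) (cc k) := by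
  have hle : ∀ j < k, (2 : ℤ) ^ j ≤ ((2 ^ k : ℕ) : ℤ) := by
    intro j hj
    push_cast
    exact pow_le_pow_right₀ (by norm_num) hj.le
  have h1 : ∀ j, (1 : ℤ) ≤ 2 ^ j := fun j => one_le_pow₀ (by norm_num)
  refine ⟨?_, ?_, ?_, ?_⟩
  · intro l hl
    obtain ⟨j, hj, rfl⟩ := mem_cc.1 hl
    exact h1 j
  · intro l hl
    obtain ⟨j, hj, rfl⟩ := mem_cc.1 hl
    exact hle j hj
  · intro l hl
    obtain ⟨j, hj, rfl⟩ := mem_cc.1 hl
    have h2 := hle j hj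
    have h3 := h1 j
    simp only
    rw [abs_le]
    constructor <;> linarith
  · intro p hp
    refine ⟨1, ?_⟩
    intro l hl hd
    obtain ⟨j, hj, rfl⟩ := mem_cc.1 hl
    simp only at hd
    have e : (2 : ℤ) ^ j * ((1 : ℕ) : ℤ) + (1 - 2 ^ j) = 1 := by
      push_cast
      ring
    rw [e] at hd
    exact hp.one_lt.ne' (Nat.dvd_one.1 (by exact_mod_cast hd))

lemma cc_noT (k : ℕ) (U : ℝ) : NoT (cc k) U := by
  intro l hl l' hl' t ht _ h h2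
  obtain ⟨i, hi, rfl⟩ := mem_cc.1 hl
  obtain ⟨j, hj, rfl⟩ := mem_cc.1 hl'
  simp only at h h2
  have h1 : (1 : ℤ) ≤ 2 ^ j := one_le_pow₀ (by norm_num)
  have ht1 : (1 : ℤ) ≤ t := by exact_mod_cast ht
  rw [h] at h2
  nlinarith

/-- the bound by a fixed height -/
lemma up {H A : ℕ} {L : Finset (ℤ × ℤ)} (h : Good H L) {X : ℕ} (hX : H ≤ X ^ A) : Good (X ^ A) L :=
  ⟨h.one, fun l hl => (h.bda l hl).trans (by exact_mod_cast hX),
    fun l hl => (h.bdb l hl).trans (by exact_mod_cast hX), h.adm⟩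

end Pool.Agent.R490.Cc
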