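import Pool.Agent.W123.RU.Poly
import Pool.Agent.TH464.PO.Poly

/-! The polynomials `X ^ 3 + k`, `k` not a cube. -/

set_option autoImplicit false

namespace Pool.Agent.R490.Cub

open Polynomial
open Pool.Agent.W123.RU Pool.Agent.TH464.PO

/-- the polynomial `X ^ 3 + k` -/
noncomputable def cub (k : ℤ) : ℤ[X] := X ^ 3 + C k

lemma cub_eval (k x : ℤ) : (cub k).eval x = x ^ 3 + k := by simp [cub]

lemma cub_deg (k : ℤ) : (cub k).natDegree = 3 := by
  unfold cub
  exact natDegree_X_pow_add_C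

lemma cub_monic (k : ℤ) : (cub k).Monic := monic_X_pow_add_C k (by norm_num)

lemma cub_irr (k : ℤ) (hk : ¬ ∃ c : ℤ, c ^ 3 = k) : Irreducible (cub k) := by
  rw [(cub_monic k).irreducible_iff_roots_eq_zero_of_degree_le_three (by rw [cub_deg]; norm_num)
    (by rw [cub_deg])]
  rw [Multiset.eq_zero_iff_forall_notMem]
  intro a ha
  have h := (mem_roots'.1 ha).2
  rw [IsRoot, cub_eval] at h
  exact hk ⟨-a, by rw [Odd.neg_pow (by decide)]; omega⟩

theorem cub_sys (k : ℤ) (hk : ¬ ∃ c : ℤ, c ^ 3 = k) : Poly.Sys (fun _ : Fin 1 => cub k) where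
  irr := fun _ => cub_irr k hk
  deg := fun _ => by rw [cub_deg]; norm_num
  lead := fun _ => by rw [(cub_monic k).leadingCoeff]; norm_num
  inj := fun _ _ _ => Subsingleton.elim _ _
  adm := fun p hp => by
    by_cases h : (p : ℤ) ∣ k
    · refine ⟨1, fun _ h2 => ?_⟩
      rw [cub_eval] at h2
      have h3 : (p : ℤ) ∣ 1 := by
        have := dvd_sub h2 h
        simpa using this
      exact hp.one_lt.ne' (Nat.dvd_one.1 (by exact_mod_cast h3))
    · refine ⟨0, fun _ h2 => ?_⟩
      rw [cub_eval] at h2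
      exact h (by simpa using h2)

theorem cub_noTr (k : ℤ) : NoTr (fun _ : Fin 1 => cub k) :=
  noTr_single (cub k) (by rw [cub_deg]; norm_num)

end Pool.Agent.R490.Cub
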