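import Pool.Agent.R490.Prog
import Pool.Agent.R490.PrimeArg
import Pool.Agent.Y677.RSZ.Fin

set_option autoImplicit false

/-!
# Systems of polynomials, uniformly in the coefficients: spacings, regular points, the law after primes
-/

namespace Pool.Agent.R490.Gn

open Polynomial Finset Filter
open Pool.Agent.W123.RP Pool.Agent.H373R2.T7 Pool.Agent.W123.RU Pool.Agent.W123.RU.Poly
open Pool.Agent.TH464.PW Pool.Agent.TH464.PO Pool.Agent.Y879.GL Pool.Agent.Y879.PR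
open Pool.Agent.R490.Sg (D1 pz_eq Vz_D1 cnt RightOrder ConstantDensity badScales Irregular)
open Pool.Agent.R490.Pg (Ro De Dk)

/-- `g` describes the zeros of the product of the polynomials -/
def Re {k : ℕ} (F : Fin k → ℤ[X]) (g : ℕ → ℕ → Prop) : Prop := ∀ p m : ℕ, Q F p m ↔ g p m

lemma re_Sf {k : ℕ} {F : Fin k → ℤ[X]} {g : ℕ → ℕ → Prop} (h : Re F g) (y m : ℕ) :
    Sf (Q F) y m ↔ Ro g y m := by
  unfold Sf Ro
  constructor
  · intro h1 p hp hpy hg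
    exact h1 p (mem_pz.2 ⟨hpy, hp⟩) ((h p m).2 hg)
  · intro h1 p hp hd
    exact h1 p (mem_pz.1 hp).2 (mem_pz.1 hp).1 ((h p m).1 hd)

open Classical in
lemma re_V {k : ℕ} {F : Fin k → ℤ[X]} {g : ℕ → ℕ → Prop} (h : Re F g) (y : ℕ) :
    Vq (Q F) y = De g y := by
  unfold Vq De
  rw [pz_eq]
  apply Finset.prod_congr rfl
  intro p _
  unfold nuB
  congr 4
  apply Finset.filter_congr
  intro m _
  exact h p m

open Classical in
lemma re_Dk {k : ℕ} {F : Fin k → ℤ[X]} {g : ℕ → ℕ → Prop} (h : Re F g) (y l T u Y : ℕ) :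
    Pk (Sf (Q F) y) l T u Y = Dk g y l T u Y := by
  have e : Sf (Q F) y = fun m => Ro g y m := by
    funext m
    exact propext (re_Sf h y m)
  unfold Pk Dk
  rw [e]

/-- the systems to which the theorems apply -/
structure Ok (k D : ℕ) (H : ℤ) (F : Fin k → ℤ[X]) : Prop where
  irr : ∀ i, Irreducible (F i)
  deg : ∀ i, (F i).natDegree ≠ 0
  degD : ∀ i, (F i).natDegree ≤ D
  hgt : ∀ i n, |(F i).coeff n| ≤ H
  adm : ∀ p : ℕ, p.Prime → ∃ m : ℕ, ∀ i, ¬ (p : ℤ) ∣ (F i).eval (m : ℤ)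
  tr : ∀ i j, ∀ t : ℕ, 1 ≤ t → ¬ Associated (F i) ((F j).comp (X + C (t : ℤ)))

lemma Ok.us {k D A : ℕ} {X : ℕ} (hX : 1 ≤ X) {F : Fin k → ℤ[X]} (h : Ok k D ((X : ℤ) ^ A) F) (U : ℝ) :
    US k D ((X : ℝ) ^ ((A : ℝ) + 1)) U F := by
  have hX1 : (1 : ℝ) ≤ X := by exact_mod_cast hX
  refine ⟨h.irr, h.deg, h.degD, ?_, h.adm, fun i j t ht _ => h.tr i j t ht⟩
  intro i n
  have h4 := h.hgt i n
  have h5 : |(((F i).coeff n : ℤ) : ℝ)| ≤ (X : ℝ) ^ A := by exact_mod_cast h4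
  refine h5.trans ?_
  rw [← Real.rpow_natCast]
  exact Real.rpow_le_rpow_of_exponent_le hX1 (by linarith)

open Classical in
/-- **The spacing laws, uniformly in the system.** -/
theorem gapG (k D A : ℕ) (θ : ℝ) (hθ : 0 < θ) (k0 : ℕ) (x0 ε : ℝ) (hε : 0 < ε) :
    ∃ r0 : ℕ, ∀ r : ℕ, r0 ≤ r → ∀ B : ℝ, ∀ᶠ X : ℕ in atTop, ∀ (F : Fin k → ℤ[X]) (g : ℕ → ℕ → Prop),
      Ok k D ((X : ℤ) ^ A) F → Re F g → ∀ y : ℕ, y = ⌊(X : ℝ) ^ (1 / (r : ℝ))⌋₊ → De g y ≤ B * D1 y →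
      ∀ u Y : ℕ, (X : ℝ) ^ θ ≤ Y → ∀ l T : ℕ, (l ≤ k0 ∨ T * De g y ≤ x0) →
        |(Dk g y l T u Y : ℝ) - Y * De g y *
          ∑ j ∈ range l, Real.exp (-(T * De g y)) * (T * De g y) ^ j / j.factorial| ≤
          ε * (Y * De g y) := by
  obtain ⟨r0, h0⟩ := gap_polys k D ((A : ℝ) + 1) 1 θ (by positivity) one_pos hθ k0 x0 ε hε
  refine ⟨max r0 2, ?_⟩
  intro r hr B
  have hr2 : 2 ≤ r := (le_max_right _ _).trans hr
  obtain ⟨C, hC, hVz⟩ := Vz_up r hr2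
  filter_upwards [h0 r ((le_max_left _ _).trans hr) (|B| * C), hVz, eventually_ge_atTop 1] with X h1 h2 h3
  intro F g hF hR y hy hV u Y hY l T hT
  rw [← hy] at h1 h2
  have e1 := re_V hR y
  have h4 := h1 F (hF.us h3 _) (by
    rw [e1]
    refine hV.trans ?_
    rw [← Vz_D1]
    calc B * Vz y ≤ |B| * Vz y := mul_le_mul_of_nonneg_right (le_abs_self B) h2.1
      _ ≤ |B| * (C / Real.log X) := mul_le_mul_of_nonneg_left h2.2 (abs_nonneg B)
      _ = |B| * C / Real.log X := by ring) u Y hY l T (by rw [e1]; exact hT)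
  rw [re_Dk hR, e1] at h4
  exact h4

open Classical in
/-- **Regular points, uniformly in the system.** -/
theorem regG (k D A : ℕ) (θ : ℝ) (hθ : 0 < θ) :
    ∃ r0 : ℕ, 2 ≤ r0 ∧ ∀ r : ℕ, r0 ≤ r → ∀ B ε : ℝ, 0 < B → 0 < ε → ∃ c : ℝ, 0 < c ∧
      ∀ δ : ℝ, 0 < δ → ∃ M : ℕ, ∀ᶠ X : ℕ in atTop, ∀ (F : Fin k → ℤ[X]) (g : ℕ → ℕ → Prop),
      Ok k D ((X : ℤ) ^ A) F → Re F g → ∀ y : ℕ, y = ⌊(X : ℝ) ^ (1 / (r : ℝ))⌋₊ → De g y ≤ B * D1 y →
      ∀ u Y : ℕ, (X : ℝ) ^ θ ≤ Y → Y ≤ X → Y ≤ u → ∀ S : Set ℕ, (∀ m ∈ S, Ro g y m) →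
        (cnt (Irregular S (1 / De g y) c δ M Y) u (u + Y) : ℝ) ≤ ε * (Y * De g y) := by
  obtain ⟨r0, hr0, h0⟩ := hered_polys k D 0 ((A : ℝ) + 1) 1 θ (by positivity) one_pos hθ
  refine ⟨r0, hr0, ?_⟩
  intro r hr B ε hB hε
  obtain ⟨C, hC, hVz⟩ := Vz_up r (hr0.trans hr)
  obtain ⟨cc, hcc, h1⟩ := h0 r hr (B * C) (by positivity) ε hε
  refine ⟨cc, hcc, ?_⟩
  intro δ hδ
  obtain ⟨M, h2⟩ := h1 δ hδ
  refine ⟨M, ?_⟩
  filter_upwards [h2, hVz, eventually_ge_atTop 1] with X h3 h4 h5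
  intro F g hF hR y hy hV u Y hY hYX hYu S hS
  rw [← hy] at h3 h4
  have e1 := re_V hR y
  have h6 := h3 F (hF.us h5 0) ∅ (by simp) (by
    intro i j t ht _ _
    exact hF.tr i j t ht) (by
    rw [e1]
    refine hV.trans ?_
    rw [← Vz_D1]
    calc B * Vz y ≤ B * (C / Real.log X) := mul_le_mul_of_nonneg_left h4.2 hB.le
      _ = B * C / Real.log X := by ring) u Y hY hYX hYu S (fun m hm => (re_Sf hR y m).2 (hS m hm))
  rw [e1] at h6
  exact h6

lemma exists_root (a b p : ℕ) (hpp : p.Prime) (h : ¬ p ∣ a) : ∃ m : ℕ, m < p ∧ p ∣ a * m + b := by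
  have hco : Nat.Coprime a p := ((Nat.Prime.coprime_iff_not_dvd hpp).2 h).symm
  obtain ⟨c, -, hc⟩ := Nat.exists_mul_mod_eq_one_of_coprime hco hpp.one_lt
  have hb : b ≤ p * b := Nat.le_mul_of_pos_left b hpp.pos
  have h5 : (a * (c * (p * b - b)) + b : ℕ) ≡ 1 * (p * b - b) + b [MOD p] := by
    apply Nat.ModEq.add_right
    rw [← mul_assoc]
    apply Nat.ModEq.mul_right
    unfold Nat.ModEq
    rw [hc, Nat.mod_eq_of_lt hpp.one_lt]
  have h6 : 1 * (p * b - b) + b = p * b := by omega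
  rw [h6] at h5
  have hm : p ∣ a * (c * (p * b - b)) + b :=
    Nat.modEq_zero_iff_dvd.1 (h5.trans (Nat.modEq_zero_iff_dvd.2 (dvd_mul_right p b)))
  refine ⟨(c * (p * b - b)) % p, Nat.mod_lt _ hpp.pos, ?_⟩
  have h7 : a * ((c * (p * b - b)) % p) + b ≡ a * (c * (p * b - b)) + b [MOD p] :=
    Nat.ModEq.add_right _ (Nat.ModEq.mul_left _ (Nat.mod_modEq _ p))
  exact Nat.modEq_zero_iff_dvd.1 (h7.trans (Nat.modEq_zero_iff_dvd.2 hm))

open Classical in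
/-- the density is at most a constant times that of the integers without small prime factors -/
lemma De_le (g : ℕ → ℕ → Prop) (a b : ℕ) (ha : 1 ≤ a) (h : ∀ p m : ℕ, p.Prime → p ∣ a * m + b → g p m)
    (y : ℕ) : De g y ≤ 2 ^ a * D1 y := by
  have h1 : De g y ≤ ∏ p ∈ (Finset.range (y + 1)).filter Nat.Prime,
      ((if p ∣ a then (2 : ℝ) else 1) * (1 - 1 / (p : ℝ))) := by
    unfold De
    apply Finset.prod_le_prod
    · intro p hp
      have hpp := (mem_filter.1 hp).2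
      have hp0 : (0 : ℝ) < p := by exact_mod_cast hpp.pos
      rw [sub_nonneg, div_le_one hp0]
      have h1 := Finset.card_filter_le (Finset.range p) (fun m : ℕ => g p m)
      rw [Finset.card_range] at h1
      exact_mod_cast h1
    · intro p hp
      have hpp := (mem_filter.1 hp).2
      have hp0 : (0 : ℝ) < p := by exact_mod_cast hpp.pos
      have hp2 : (2 : ℝ) ≤ p := by exact_mod_cast hpp.two_le
      have h5 : 1 / (p : ℝ) ≤ 1 / 2 := one_div_le_one_div_of_le (by norm_num) hp2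
      have h6 : (0 : ℝ) ≤ (((Finset.range p).filter (fun m : ℕ => g p m)).card : ℝ) / p := by positivity
      split_ifs with h8
      · linarith
      · have h1 : 1 ≤ ((Finset.range p).filter (fun m : ℕ => g p m)).card := by
          rw [Nat.one_le_iff_ne_zero, Finset.card_ne_zero]
          obtain ⟨m, hm, hd⟩ := exists_root a b p hpp h8
          refine ⟨m, ?_⟩
          rw [mem_filter, mem_range]
          exact ⟨hm, h p m hpp hd⟩
        have h2 : (1 : ℝ) ≤ (((Finset.range p).filter (fun m : ℕ => g p m)).card : ℝ) := by exact_mod_cast h1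
        have h3 : 1 / (p : ℝ) ≤ (((Finset.range p).filter (fun m : ℕ => g p m)).card : ℝ) / p := by
          gcongr
        linarith
  refine h1.trans ?_
  rw [Finset.prod_mul_distrib]
  have h0 : 0 ≤ D1 y := by
    rw [← Vz_D1]
    exact (Pool.Agent.Y879.PR.Vz_pos y).le
  refine mul_le_mul_of_nonneg_right ?_ h0
  rw [Finset.prod_ite, Finset.prod_const_one, mul_one, Finset.prod_const]
  apply pow_le_pow_right₀ (by norm_num)
  have h9 : (((Finset.range (y + 1)).filter Nat.Prime).filter (fun p => p ∣ a)) ⊆ Finset.Icc 1 a := by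
    intro p hp
    rw [mem_filter, mem_filter] at hp
    rw [Finset.mem_Icc]
    exact ⟨hp.1.2.one_lt.le, Nat.le_of_dvd ha hp.2⟩
  have := Finset.card_le_card h9
  rwa [Nat.card_Icc, Nat.add_sub_cancel] at this

/-- the relative density -/
noncomputable def Wr (g : ℕ → ℕ → Prop) (y : ℕ) : ℝ := De g y / D1 y

open Classical in
/-- the `n` in `(u, u + Y]` with `a n + b` prime which are sifted by `g` -/
noncomputable def Pb (a b : ℕ) (g : ℕ → ℕ → Prop) (y u Y : ℕ) : Finset ℕ :=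
  (Ioc u (u + Y)).filter (fun n => (a * n + b).Prime ∧ Ro g y n)

open Classical in
/-- the number of the `m` in `(n, n + T]` sifted by `g` -/
noncomputable def Nx (g : ℕ → ℕ → Prop) (y T n : ℕ) : ℕ := ((Ioc n (n + T)).filter (fun m => Ro g y m)).card

open Classical in
/-- **The law after primes, uniformly in the system.** -/
theorem primeG (a k D A : ℕ) (ha : Squarefree a) (θ δ : ℝ) (hθ : 0 < θ) (hδ : 0 < δ) (hδ1 : δ ≤ 1)
    (x0 ε : ℝ) (hε : 0 < ε) (hε1 : ε ≤ 1) :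
    ∃ r0 : ℕ, 2 ≤ r0 ∧ ∀ r : ℕ, r0 ≤ r → ∀ B : ℝ, ∀ᶠ N : ℕ in atTop,
      ∀ (F : Fin k → ℤ[X]) (g : ℕ → ℕ → Prop) (b : ℕ),
      Ok k D ((N : ℤ) ^ A) F → Re F g → Nat.Coprime a b →
      (∀ p n : ℕ, p.Prime → p ∣ a → ¬ g p n) →
      (∃ i, ∀ n : ℕ, (F i).eval (n : ℤ) = a * n + b) → (b : ℝ) ≤ (N : ℝ) ^ (θ / 4) →
      ∀ y : ℕ, y = ⌊(N : ℝ) ^ (1 / (r : ℝ))⌋₊ → De g y ≤ B * D1 y →
      0 < Wr g y ∧ ∀ X : ℕ, (N : ℝ) ^ θ ≤ X → ∀ u Y : ℕ, δ * X ≤ Y → u + Y ≤ X →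
      |((Pb a b g y u Y).card : ℝ) * Real.log X - Y * Wr g y| ≤ ε * (Y * Wr g y) ∧
      ∀ T : ℕ, T * De g y ≤ x0 → ∀ J : Finset ℕ,
      |(((Pb a b g y u Y).filter (fun n => Nx g y T n ∈ J)).card : ℝ) - (Pb a b g y u Y).card *
          ∑ j ∈ J, Real.exp (-(T * De g y)) * (T * De g y) ^ j / j.factorial| ≤
        ε * (Pb a b g y u Y).card := by
  obtain ⟨r0, hr0, h0⟩ := prime_full a k D ha ((A : ℝ) + 1) 1 θ δ (by positivity) one_pos
    hθ hδ hδ1 x0 ε hε hε1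
  refine ⟨r0, hr0, ?_⟩
  intro r hr B
  obtain ⟨C, hC, hVz⟩ := Vz_up r (hr0.trans hr)
  filter_upwards [h0 r hr (|B| * C), hVz, eventually_ge_atTop 1] with N h1 h2 h3
  intro F g b hF hR hab hnon hbase hb y hy hV
  rw [← hy] at h1 h2
  have e1 := re_V hR y
  have hWpos : 0 < Wr g y := by
    unfold Wr
    rw [← e1, ← Vz_D1]
    apply div_pos
    · exact Vq_pos _ (fun p hp => us_adm (hF.us h3 1) p hp) y
    · exact Pool.Agent.Y879.PR.Vz_pos y
  refine ⟨hWpos, ?_⟩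
  intro X hX u Y hY huY
  have hle : Vq (Q F) y ≤ |B| * C / Real.log N := by
    rw [e1]
    refine hV.trans ?_
    rw [← Vz_D1]
    calc B * Vz y ≤ |B| * Vz y := mul_le_mul_of_nonneg_right (le_abs_self B) h2.1
      _ ≤ |B| * (C / Real.log N) := mul_le_mul_of_nonneg_left h2.2 (abs_nonneg B)
      _ = |B| * C / Real.log N := by ring
  have h4 := h1 F b (hF.us h3 _) hab (fun p n hp hp1 hq => hnon p n hp hp1 ((hR p n).1 hq)) hbase hle hb
    X hX u Y hY huY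
  rw [e1, Vz_D1] at h4
  have eOm : Om a b (Q F) y u Y = Pb a b g y u Y := by
    unfold Om Pb
    apply Finset.filter_congr
    intro n _
    rw [re_Sf hR]
  rw [eOm] at h4
  refine ⟨h4.1, ?_⟩
  intro T hT J
  have h5 := h4.2 T hT J
  have eW : ∀ n, Wc (Sf (Q F) y) n T = Nx g y T n := by
    intro n
    unfold Wc Nx
    congr 1
    apply Finset.filter_congr
    intro m _
    exact re_Sf hR y m
  simp only [eW] at h5
  exact h5

end Pool.Agent.R490.Gn
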