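import Pool.Agent.R490.LGe
import Pool.Agent.TH862.PrimeBd
import Pool.Agent.H442R2.EHI.PntErr
import Pool.Agent.H343R2.EH.Primes
import Pool.Agent.H343R2.EH.Psi
import Pool.Agent.H357R2.SI.Common

set_option autoImplicit false

/-!
# Forms indexed by the primes: the sum of the pair densities
-/

namespace Pool.Agent.R490.GPa

open Finset Filter
open Pool.Agent.W123.RP Pool.Agent.H373R2.T7 Pool.Agent.W123.RU Pool.Agent.TH464.PO Pool.Agent.TH464.PW
open Pool.Agent.Y879.AP Pool.Agent.R490.P3b Pool.Agent.R490.LFa Pool.Agent.R490.LFb Pool.Agent.R490.LFc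
open Pool.Agent.R490.LGa Pool.Agent.R490.LGb
open Pool.Agent.R490.LGe

/-- the `j`-th prime -/
noncomputable def pn (j : ℕ) : ℕ := Nat.nth Nat.Prime (j - 1)

lemma pn_prime (j : ℕ) : (pn j).Prime := Nat.prime_nth_prime _

lemma pn_inj {j j' : ℕ} (hj : 1 ≤ j) (hj' : 1 ≤ j') (h : pn j = pn j') : j = j' := by
  have := Nat.nth_injective Nat.infinite_setOfPred_prime h
  omega

lemma pn_le (j : ℕ) (hj : 1 ≤ j) : pn j ≤ (j + 1) ^ 4 := by
  have h := Pool.Agent.TH862.EA.nth_prime_le (j - 1)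
  have e : j - 1 + 1 = j := by omega
  rw [e] at h
  unfold pn
  refine h.trans ?_
  have h1 : 4 ≤ (j + 1) ^ 2 := by nlinarith
  calc 4 * j ^ 2 ≤ (j + 1) ^ 2 * (j + 1) ^ 2 := Nat.mul_le_mul h1 (Nat.pow_le_pow_left (by omega) 2)
    _ = (j + 1) ^ 4 := by ring

/-- the primes up to `P` -/
def Pr (P : ℕ) : Finset ℕ := (Icc 1 P).filter Nat.Prime

lemma mem_Pr {P p : ℕ} : p ∈ Pr P ↔ p ≤ P ∧ p.Prime := by
  unfold Pr
  rw [mem_filter, mem_Icc]
  constructor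
  · rintro ⟨⟨_, h1⟩, h2⟩
    exact ⟨h1, h2⟩
  · rintro ⟨h1, h2⟩
    exact ⟨⟨h2.pos, h1⟩, h2⟩

/-- the first `K` primes -/
lemma image_pn (K : ℕ) (hK : 1 ≤ K) : (Icc 1 K).image pn = Pr (pn K) := by
  ext p
  rw [mem_image, mem_Pr]
  constructor
  · rintro ⟨j, hj, rfl⟩
    rw [mem_Icc] at hj
    refine ⟨?_, pn_prime j⟩
    exact Nat.nth_monotone Nat.infinite_setOfPred_prime (by omega)
  · rintro ⟨h1, h2⟩
    refine ⟨Nat.count Nat.Prime p + 1, ?_, ?_⟩
    · rw [mem_Icc]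
      refine ⟨by omega, ?_⟩
      have h3 : Nat.count Nat.Prime p ≤ Nat.count Nat.Prime (pn K) := Nat.count_monotone _ h1
      have h4 : Nat.count Nat.Prime (pn K) = K - 1 := Nat.count_nth_of_infinite Nat.infinite_setOfPred_prime _
      omega
    · unfold pn
      rw [Nat.add_sub_cancel]
      exact Nat.nth_count h2

lemma sum_pn (K : ℕ) (hK : 1 ≤ K) (f : ℕ → ℝ) : ∑ j ∈ Icc 1 K, f (pn j) = ∑ p ∈ Pr (pn K), f p := by
  rw [← image_pn K hK, sum_image]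
  intro a ha b hb h
  rw [mem_coe, mem_Icc] at ha hb
  exact pn_inj ha.1 hb.1 h

lemma card_Pr (K : ℕ) (hK : 1 ≤ K) : (Pr (pn K)).card = K := by
  rw [← image_pn K hK, card_image_of_injOn, Nat.card_Icc, Nat.add_sub_cancel]
  intro a ha b hb h
  rw [mem_coe, mem_Icc] at ha hb
  exact pn_inj ha.1 hb.1 h

lemma pn_ge (K : ℕ) (hK : 1 ≤ K) : K ≤ pn K := by
  have h1 := card_Pr K hK
  have h2 : (Pr (pn K)).card ≤ (Icc 1 (pn K)).card := card_le_card (filter_subset _ _)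
  rw [Nat.card_Icc, Nat.add_sub_cancel] at h2
  omega

open Classical in
/-- pairs of primes with a given difference -/
theorem pairs_le : ∃ (C : ℝ) (P0 : ℕ), 0 < C ∧ ∀ P : ℕ, P0 ≤ P → ∃ y : ℕ, ∀ d : ℕ, 1 ≤ d →
    (((Pr P).filter (fun p => (p + d).Prime)).card : ℝ) ≤ C * (P / Real.log P ^ 2) * tw 0 y d := by
  obtain ⟨C0, x0, hC0, H⟩ := cnt_pairF
  obtain ⟨cz, Cv, hcz, hCv, hV⟩ := Vz_bounds
  obtain ⟨r, hr⟩ : ∃ r : ℕ, r = 16 * (C0 * C0) := ⟨_, rfl⟩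
  have hr16 : 16 ≤ r := by
    have := Nat.mul_le_mul hC0 hC0
    omega
  have hr2 : 2 ≤ r := by omega
  have hr0 : (0 : ℝ) < r := by exact_mod_cast (by omega : 0 < r)
  have ev1 := Pool.Agent.Y879.GL.level_ok r hr2
  have ev2 := Pool.Agent.R490.Mean.y_ge r hr2 (x0 + 2)
  have ev3 := logpow_rpow 2 2 (1 / 2) (by norm_num) (by norm_num)
  obtain ⟨P0, hP0⟩ := eventually_atTop.1 ((ev1.and (ev2.and ev3)).and (eventually_ge_atTop 2))
  refine ⟨2 * (4 * r ^ 2 * Cv ^ 2) + 1, P0, by positivity, ?_⟩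
  intro P hP
  obtain ⟨⟨⟨g1, g2, g3, g4, g5⟩, hy, h3⟩, hP2⟩ := hP0 P hP
  obtain ⟨y, hyd⟩ : ∃ y, y = ⌊(P : ℝ) ^ (1 / (r : ℝ))⌋₊ := ⟨_, rfl⟩
  rw [← hyd] at g1 g2 g3 g4 hy
  refine ⟨y, ?_⟩
  intro d hd
  have hPr : (0 : ℝ) < P := by exact_mod_cast (by omega : 0 < P)
  have hP1 : (1 : ℝ) ≤ P := by exact_mod_cast (by omega : 1 ≤ P)
  have hlog : 0 < Real.log P := by linarith
  have hyP : y ^ (16 * (C0 * C0)) ≤ P := by
    have a1 : (y : ℝ) ≤ (P : ℝ) ^ (1 / (r : ℝ)) := by rw [hyd]; exact Nat.floor_le (by positivity)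
    have a2 : (y : ℝ) ^ r ≤ P := by
      calc (y : ℝ) ^ r ≤ ((P : ℝ) ^ (1 / (r : ℝ))) ^ r := pow_le_pow_left₀ (Nat.cast_nonneg _) a1 r
        _ = P := by
            rw [← Real.rpow_natCast, ← Real.rpow_mul hPr.le, one_div_mul_cancel hr0.ne', Real.rpow_one]
    rw [← hr]
    exact_mod_cast a2
  obtain ⟨α, hα⟩ : ∃ α : ℕ → ℕ, α = fun _ => 1 := ⟨_, rfl⟩
  obtain ⟨β, hβ⟩ : ∃ β : ℕ → ℕ, β = fun j => j * d := ⟨_, rfl⟩
  have h1 := H C0 le_rfl P y (by omega) hyP α β 0 1 0 P (by rw [hα]; exact Nat.coprime_one_left _)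
    (by rw [hα]; exact Nat.coprime_one_left _) ∅ ∅ (by simp) (by simp) (disjoint_empty_left _)
  rw [wt_empty, mul_one, mul_one] at h1
  have h2 := (abs_le.1 h1).2
  have hV2 : Vq (QP α β 0 1) y ≤ VW 0 y ^ 2 * (tw 0 y 1 * tw 0 y 1 * tw 0 y d) := by
    apply V2_le
    · intro p _ _ h
      rw [hα] at h
      exact h
    · intro p _ _ h
      rw [hα] at h
      exact h
    · intro p _ _ h
      rw [hα, hβ] at h
      push_cast at h
      have e : (1 : ℤ) * (1 * (d : ℤ)) - 1 * (0 * (d : ℤ)) = d := by ring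
      rw [e] at h
      exact_mod_cast h
  have htw1 : tw 0 y 1 = 1 := by
    unfold tw
    apply prod_eq_one
    intro p hp
    rw [if_neg]
    rintro ⟨_, h⟩
    exact (mem_pz.1 hp).2.one_lt.ne' (Nat.dvd_one.1 h)
  have hVW : VW 0 y = Vz y := by
    unfold VW Vz
    apply prod_congr rfl
    intro p hp
    rw [if_pos (mem_pz.1 hp).2.pos]
  rw [htw1, one_mul, one_mul, hVW] at hV2
  have hVz0 : 0 ≤ Vz y := by
    unfold Vz
    exact prod_nonneg fun p hp => (one_sub_pos (mem_pz.1 hp).2).1.le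
  have hVz : Vz y ≤ 2 * r * Cv / Real.log P := by
    refine (hV y (by omega)).2.trans ?_
    rw [div_le_div_iff₀ (by linarith) hlog]
    have b1 : Real.log P ≤ Real.log y * (2 * r) := by
      rw [div_le_iff₀ (by positivity)] at g2
      exact g2
    nlinarith [mul_le_mul_of_nonneg_left b1 hCv.le]
  have htw := one_le_tw 0 y d
  have hVV : Vq (QP α β 0 1) y ≤ 4 * r ^ 2 * Cv ^ 2 / Real.log P ^ 2 * tw 0 y d := by
    refine hV2.trans ?_
    apply mul_le_mul_of_nonneg_right _ (by linarith)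
    calc Vz y ^ 2 ≤ (2 * r * Cv / Real.log P) ^ 2 := pow_le_pow_left₀ hVz0 hVz 2
      _ = _ := by rw [div_pow]; ring
  have hcard : (((Pr P).filter (fun p => (p + d).Prime)).card : ℝ) ≤ NF α β y 0 1 0 P ∅ ∅ + y := by
    have hsub : (Pr P).filter (fun p => (p + d).Prime) ⊆
        (Ioc 0 (0 + P)).filter (fun m : ℕ => Sf (QP α β 0 1) y m ∧
          (∏ p ∈ (∅ : Finset ℕ), p ∣ α 0 * m + β 0) ∧ (∏ p ∈ (∅ : Finset ℕ), p ∣ α 1 * m + β 1)) ∪ Icc 1 y := by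
      intro p hp
      rw [mem_filter, mem_Pr] at hp
      obtain ⟨⟨a1, a2⟩, a3⟩ := hp
      rw [mem_union]
      by_cases hpy : p ≤ y
      · right
        rw [mem_Icc]
        exact ⟨a2.pos, hpy⟩
      · left
        rw [mem_filter, mem_Ioc]
        refine ⟨⟨a2.pos, by omega⟩, ?_, by simp, by simp⟩
        intro l hl hq
        have hl' := mem_pz.1 hl
        rcases hq with hq | hq
        · unfold QF at hq
          rw [hα, hβ] at hq
          have e : 1 * p + 0 * d = p := by ring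
          simp only [e] at hq
          have := (Nat.prime_dvd_prime_iff_eq hl'.2 a2).1 hq
          omega
        · unfold QF at hq
          rw [hα, hβ] at hq
          have e : 1 * p + 1 * d = p + d := by ring
          simp only [e] at hq
          have := (Nat.prime_dvd_prime_iff_eq hl'.2 a3).1 hq
          omega
    have h4 := (card_le_card hsub).trans (card_union_le _ _)
    rw [Nat.card_Icc, Nat.add_sub_cancel] at h4
    unfold NF
    exact_mod_cast h4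
  have hb : (1 / 2 : ℝ) ^ C0 ≤ 1 := pow_le_one₀ (by norm_num) (by norm_num)
  have hq0 : 0 ≤ (P : ℝ) * Vq (QP α β 0 1) y := mul_nonneg hPr.le (Vq_nonneg _ _)
  have h5 : (1 / 2 : ℝ) ^ C0 * ((P : ℝ) * Vq (QP α β 0 1) y) ≤ (P : ℝ) * Vq (QP α β 0 1) y :=
    mul_le_of_le_one_left hq0 hb
  have h6 : (P : ℝ) * Vq (QP α β 0 1) y ≤ P * (4 * r ^ 2 * Cv ^ 2 / Real.log P ^ 2 * tw 0 y d) :=
    mul_le_mul_of_nonneg_left hVV hPr.le
  have hs : √(P : ℝ) = (P : ℝ) ^ (1 / 2 : ℝ) := Real.sqrt_eq_rpow _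
  have h7 : (y : ℝ) ≤ √(P : ℝ) := by
    rw [hs]
    calc (y : ℝ) ≤ (P : ℝ) ^ (1 / (r : ℝ)) := by rw [hyd]; exact Nat.floor_le (by positivity)
      _ ≤ (P : ℝ) ^ (1 / 2 : ℝ) := by
          apply Real.rpow_le_rpow_of_exponent_le hP1
          apply one_div_le_one_div_of_le (by norm_num)
          exact_mod_cast hr2
  have h8 : 2 * √(P : ℝ) ≤ P / Real.log P ^ 2 := by
    rw [le_div_iff₀ (by positivity)]
    rw [← hs] at h3
    have e : √(P : ℝ) * √(P : ℝ) = P := Real.mul_self_sqrt hPr.le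
    calc 2 * √(P : ℝ) * Real.log P ^ 2 = √(P : ℝ) * (2 * Real.log P ^ 2) := by ring
      _ ≤ √(P : ℝ) * √(P : ℝ) := mul_le_mul_of_nonneg_left h3 (Real.sqrt_nonneg _)
      _ = P := e
  have h9 : P / Real.log P ^ 2 ≤ P / Real.log P ^ 2 * tw 0 y d := le_mul_of_one_le_right (by positivity) htw
  have e10 : (2 * (4 * (r : ℝ) ^ 2 * Cv ^ 2) + 1) * (P / Real.log P ^ 2) * tw 0 y d =
      2 * (P * (4 * r ^ 2 * Cv ^ 2 / Real.log P ^ 2 * tw 0 y d)) + P / Real.log P ^ 2 * tw 0 y d := by ring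
  rw [e10]
  linarith

end Pool.Agent.R490.GPa
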