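import Pool.Agent.R490.GPa

set_option autoImplicit false

/-!
# Forms indexed by the primes: the average of the excess
-/

namespace Pool.Agent.R490.GPb

open Finset Filter
open Pool.Agent.W123.RP Pool.Agent.H373R2.T7 Pool.Agent.W123.RU Pool.Agent.TH464.PO Pool.Agent.TH464.PW
open Pool.Agent.Y879.AP Pool.Agent.R490.P3b Pool.Agent.R490.LFa Pool.Agent.R490.LFb Pool.Agent.R490.LFc
open Pool.Agent.R490.LGa Pool.Agent.R490.LGb
open Pool.Agent.R490.LGe Pool.Agent.R490.GPa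

/-- the small primes -/
lemma tw_zero_le (y d : ℕ) : tw 0 y d ≤ (Vz 14)⁻¹ * tw 14 y d := by
  classical
  have h1 : tw 0 y d ≤ (∏ p ∈ pz y, (if p ≤ 14 then (1 - 1 / (p : ℝ))⁻¹ else 1)) * tw 14 y d := by
    unfold tw
    rw [← prod_mul_distrib]
    apply Finset.prod_le_prod
    · intro p hp
      have := one_le_inv' (mem_pz.1 hp).2
      split_ifs <;> linarith
    · intro p hp
      have h1 := one_le_inv' (mem_pz.1 hp).2
      by_cases hd : p ∣ d
      · rw [if_pos ⟨(mem_pz.1 hp).2.pos, hd⟩]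
        by_cases h14 : p ≤ 14
        · rw [if_pos h14, if_neg (by omega), mul_one]
        · rw [if_neg h14, if_pos ⟨by omega, hd⟩, one_mul]
      · have e1 : (if 0 < p ∧ p ∣ d then (1 - 1 / (p : ℝ))⁻¹ else 1) = 1 := if_neg (fun h => hd h.2)
        have e2 : (if 14 < p ∧ p ∣ d then (1 - 1 / (p : ℝ))⁻¹ else 1) = 1 := if_neg (fun h => hd h.2)
        rw [e1, e2, mul_one]
        split_ifs
        · exact h1
        · exact le_rfl
  refine h1.trans ?_
  apply mul_le_mul_of_nonneg_right _ (tw_pos _ _ _).le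
  unfold Vz
  rw [← prod_filter, ← prod_inv_distrib]
  have hsub : (pz y).filter (fun p => p ≤ 14) ⊆ pz 14 := by
    intro p hp
    rw [mem_filter] at hp
    exact mem_pz.2 ⟨hp.2, (mem_pz.1 hp.1).2⟩
  rw [← prod_sdiff hsub]
  apply le_mul_of_one_le_left
  · apply prod_nonneg
    intro p hp
    have := one_le_inv' (mem_pz.1 (hsub hp)).2
    linarith
  · have h : ∏ p ∈ pz 14 \ (pz y).filter (fun p => p ≤ 14), (1 : ℝ) ≤
        ∏ p ∈ pz 14 \ (pz y).filter (fun p => p ≤ 14), (1 - 1 / (p : ℝ))⁻¹ := by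
      apply Finset.prod_le_prod (fun _ _ => zero_le_one)
      intro p hp
      exact one_le_inv' (mem_pz.1 (mem_sdiff.1 hp).1).2
    rwa [prod_const_one] at h

/-- the product of the two averages -/
lemma sum_mixed : ∃ C : ℝ, 0 < C ∧ ∀ w Y y P : ℕ, 14 ≤ w →
    ∑ d ∈ Icc 1 P, (tw w Y d - 1) * tw 0 y d ≤ C * (P / √(w : ℝ)) := by
  obtain ⟨c, hc⟩ : ∃ c : ℝ, c = (Vz 14)⁻¹ := ⟨_, rfl⟩
  have hc0 : 0 < c := by
    rw [hc]
    apply inv_pos.2
    unfold Vz
    exact prod_pos fun p hp => (one_sub_pos (mem_pz.1 hp).2).1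
  refine ⟨14 + 3 * c ^ 2, by positivity, ?_⟩
  intro w Y y P hw
  have hw0 : (0 : ℝ) < w := by exact_mod_cast (by omega : 0 < w)
  obtain ⟨s, hs⟩ : ∃ s : ℝ, s = √(w : ℝ) := ⟨_, rfl⟩
  have hs0 : 0 < s := by rw [hs]; exact Real.sqrt_pos.2 hw0
  have hss : s * s = w := by rw [hs]; exact Real.mul_self_sqrt hw0.le
  rw [← hs]
  have h1 : ∀ d, (tw w Y d - 1) * tw 0 y d ≤ s / 2 * (tw w Y d ^ 3 - 1) + c ^ 2 / (2 * s) * tw 14 y d ^ 3 := by
    intro d
    obtain ⟨a, ha⟩ : ∃ a, a = tw w Y d := ⟨_, rfl⟩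
    obtain ⟨b, hb⟩ : ∃ b, b = tw 14 y d := ⟨_, rfl⟩
    have ha1 : 1 ≤ a := by rw [ha]; exact one_le_tw _ _ _
    have hb1 : 1 ≤ b := by rw [hb]; exact one_le_tw _ _ _
    have h2 := tw_zero_le y d
    rw [← hc, ← hb] at h2
    rw [← ha, ← hb]
    have h3 : (a - 1) * tw 0 y d ≤ (a - 1) * (c * b) := mul_le_mul_of_nonneg_left h2 (by linarith)
    have h4 : (a - 1) * (c * b) ≤ s / 2 * (a - 1) ^ 2 + c ^ 2 / (2 * s) * b ^ 2 := by
      have e : s / 2 * (a - 1) ^ 2 + c ^ 2 / (2 * s) * b ^ 2 - (a - 1) * (c * b) =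
          (s * (a - 1) - c * b) ^ 2 / (2 * s) := by
        field_simp
        ring
      have : 0 ≤ (s * (a - 1) - c * b) ^ 2 / (2 * s) := by positivity
      linarith
    have h5 : (a - 1) ^ 2 ≤ a ^ 3 - 1 := by nlinarith [mul_nonneg (sub_nonneg.2 ha1) (by positivity : 0 ≤ a ^ 2 + 2)]
    have h6 : b ^ 2 ≤ b ^ 3 := pow_le_pow_right₀ hb1 (by norm_num)
    have h7 : s / 2 * (a - 1) ^ 2 ≤ s / 2 * (a ^ 3 - 1) := mul_le_mul_of_nonneg_left h5 (by positivity)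
    have h8 : c ^ 2 / (2 * s) * b ^ 2 ≤ c ^ 2 / (2 * s) * b ^ 3 := mul_le_mul_of_nonneg_left h6 (by positivity)
    linarith
  refine (sum_le_sum fun d _ => h1 d).trans ?_
  rw [sum_add_distrib, ← mul_sum, ← mul_sum]
  have h2 := sum_ex w Y P hw
  have h3 := sum_cube 14 y P le_rfl
  have h4 : s / 2 * ∑ d ∈ Icc 1 P, (tw w Y d ^ 3 - 1) ≤ s / 2 * (28 * P / w) :=
    mul_le_mul_of_nonneg_left h2 (by positivity)
  have h5 : c ^ 2 / (2 * s) * ∑ d ∈ Icc 1 P, tw 14 y d ^ 3 ≤ c ^ 2 / (2 * s) * (P * (1 + 28 / ((14 : ℕ) : ℝ))) :=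
    mul_le_mul_of_nonneg_left h3 (by positivity)
  have e1 : s / 2 * (28 * (P : ℝ) / w) = 14 * (P / s) := by
    rw [← hss]
    field_simp
    ring
  have e2 : c ^ 2 / (2 * s) * ((P : ℝ) * (1 + 28 / ((14 : ℕ) : ℝ))) = 3 / 2 * c ^ 2 * (P / s) := by
    push_cast
    field_simp
    ring
  rw [e1] at h4
  rw [e2] at h5
  have h6 : 0 ≤ (P : ℝ) / s := by positivity
  have h7 : 0 ≤ c ^ 2 * ((P : ℝ) / s) := by positivity
  have e3 : (14 + 3 * c ^ 2) * ((P : ℝ) / s) = 14 * (P / s) + 3 * (c ^ 2 * (P / s)) := by ring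
  rw [e3]
  linarith

/-- the sum over the larger primes -/
lemma sum_above (F : ℕ → ℝ) (hF : ∀ d, 0 ≤ F d) (P p : ℕ) :
    ∑ p' ∈ Pr P, (if p < p' then F (p' - p) else 0) ≤ ∑ d ∈ Icc 1 P, (if (p + d).Prime then F d else 0) := by
  classical
  rw [← sum_filter, ← sum_filter]
  rw [← sum_image (f := F) (g := fun p' => p' - p) (s := (Pr P).filter (fun p' => p < p'))]
  · apply sum_le_sum_of_subset_of_nonneg
    · intro d hd
      rw [mem_image] at hd
      obtain ⟨p', hp', rfl⟩ := hd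
      rw [mem_filter, mem_Pr] at hp'
      rw [mem_filter, mem_Icc]
      have e : p + (p' - p) = p' := by omega
      rw [e]
      exact ⟨by omega, hp'.1.2⟩
    · intro d _ _
      exact hF d
  · intro a ha b hb hab
    rw [mem_coe, mem_filter] at ha hb
    simp only at hab
    omega

/-- the double sum over the primes -/
lemma sum_pairs (F : ℕ → ℝ) (hF : ∀ d, 0 ≤ F d) (P : ℕ) :
    ∑ p ∈ Pr P, ∑ p' ∈ Pr P, (if p = p' then 0 else F ((p : ℤ) - p').natAbs) ≤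
      2 * ∑ d ∈ Icc 1 P, F d * (((Pr P).filter (fun p => (p + d).Prime)).card : ℝ) := by
  classical
  obtain ⟨S, hS⟩ : ∃ S : ℝ, S = ∑ p ∈ Pr P, ∑ p' ∈ Pr P, (if p < p' then F (p' - p) else 0) := ⟨_, rfl⟩
  have h1 : ∑ p ∈ Pr P, ∑ p' ∈ Pr P, (if p = p' then 0 else F ((p : ℤ) - p').natAbs) = S + S := by
    have e1 : S = ∑ p ∈ Pr P, ∑ p' ∈ Pr P, (if p' < p then F (p - p') else 0) := by
      rw [hS, sum_comm]
    nth_rw 2 [e1]
    rw [hS, ← sum_add_distrib]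
    apply sum_congr rfl
    intro p _
    rw [← sum_add_distrib]
    apply sum_congr rfl
    intro p' _
    rcases lt_trichotomy p p' with h | h | h
    · rw [if_neg h.ne, if_pos h, if_neg (by omega), add_zero]
      congr 1
      omega
    · rw [if_pos h, if_neg (by omega), if_neg (by omega), add_zero]
    · rw [if_neg h.ne', if_neg (by omega), if_pos h, zero_add]
      congr 1
      omega
  have h2 : S ≤ ∑ d ∈ Icc 1 P, F d * (((Pr P).filter (fun p => (p + d).Prime)).card : ℝ) := by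
    rw [hS]
    refine (sum_le_sum fun p _ => sum_above F hF P p).trans ?_
    rw [sum_comm]
    apply sum_le_sum
    intro d _
    rw [← sum_filter, sum_const, nsmul_eq_mul, mul_comm]
  rw [h1]
  linarith

/-- the differences of the first primes, on average -/
theorem exc_pn : ∃ (C : ℝ) (K0 : ℕ), 0 < C ∧ ∀ K : ℕ, K0 ≤ K → ∀ w Y : ℕ, 14 ≤ w →
    ∑ j ∈ Icc 1 K, ∑ j' ∈ Icc 1 K, (if j = j' then 0 else tw w Y ((pn j : ℤ) - pn j').natAbs - 1) ≤
      C * (K : ℝ) ^ 2 / √(w : ℝ) := by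
  obtain ⟨C1, P0, hC1, h1⟩ := pairs_le
  obtain ⟨C2, hC2, h2⟩ := sum_mixed
  obtain ⟨X0, hX0, h3⟩ := Pool.Agent.H357R2.SI.pnt (1 / 2) (by norm_num)
  refine ⟨8 * (C1 * C2), P0 + X0 + 3, by positivity, ?_⟩
  intro K hK w Y hw
  have hK1 : 1 ≤ K := by omega
  obtain ⟨P, hP⟩ : ∃ P, P = pn K := ⟨_, rfl⟩
  have hPK : K ≤ P := by rw [hP]; exact pn_ge K hK1
  obtain ⟨y, hy⟩ := h1 P (by omega)
  have hw0 : (0 : ℝ) < w := by exact_mod_cast (by omega : 0 < w)
  have hs0 : 0 < √(w : ℝ) := Real.sqrt_pos.2 hw0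
  have hP0 : (0 : ℝ) < P := by exact_mod_cast (by omega : 0 < P)
  have hlog : 0 < Real.log P := Real.log_pos (by exact_mod_cast (by omega : 1 < P))
  have hF : ∀ d, 0 ≤ tw w Y d - 1 := fun d => by linarith [one_le_tw w Y d]
  have e1 : ∑ j ∈ Icc 1 K, ∑ j' ∈ Icc 1 K, (if j = j' then 0 else tw w Y ((pn j : ℤ) - pn j').natAbs - 1) =
      ∑ p ∈ Pr P, ∑ p' ∈ Pr P, (if p = p' then 0 else tw w Y ((p : ℤ) - p').natAbs - 1) := by
    rw [hP, ← sum_pn K hK1 (fun p => ∑ p' ∈ Pr (pn K), (if p = p' then 0 else tw w Y ((p : ℤ) - p').natAbs - 1))]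
    apply sum_congr rfl
    intro j hj
    rw [← sum_pn K hK1 (fun p' => (if pn j = p' then 0 else tw w Y ((pn j : ℤ) - p').natAbs - 1))]
    apply sum_congr rfl
    intro j' hj'
    rw [mem_Icc] at hj hj'
    by_cases h : j = j'
    · rw [if_pos h, if_pos (by rw [h])]
    · rw [if_neg h, if_neg (fun h' => h (pn_inj hj.1 hj'.1 h'))]
  rw [e1]
  refine (sum_pairs (fun d => tw w Y d - 1) hF P).trans ?_
  have h4 : ∑ d ∈ Icc 1 P, (tw w Y d - 1) * (((Pr P).filter (fun p => (p + d).Prime)).card : ℝ) ≤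
      C1 * (P / Real.log P ^ 2) * (C2 * (P / √(w : ℝ))) := by
    calc _ ≤ ∑ d ∈ Icc 1 P, C1 * (P / Real.log P ^ 2) * ((tw w Y d - 1) * tw 0 y d) := by
          apply sum_le_sum
          intro d hd
          rw [mem_Icc] at hd
          have := mul_le_mul_of_nonneg_left (hy d hd.1) (hF d)
          refine this.trans (le_of_eq ?_)
          ring
      _ = C1 * (P / Real.log P ^ 2) * ∑ d ∈ Icc 1 P, (tw w Y d - 1) * tw 0 y d := by rw [mul_sum]
      _ ≤ _ := mul_le_mul_of_nonneg_left (h2 w Y y P hw) (by positivity)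
  have h5 : (P : ℝ) / Real.log P ≤ 2 * K := by
    have a1 := (h3 P (by omega)).1
    have a2 : Nat.primeCounting P = K := by
      rw [hP]
      unfold pn
      have : Nat.primeCounting (Nat.nth Nat.Prime (K - 1)) = Nat.count Nat.Prime (Nat.nth Nat.Prime (K - 1) + 1) := rfl
      rw [this, Nat.count_succ, if_pos (Nat.prime_nth_prime _),
        Nat.count_nth_of_infinite Nat.infinite_setOfPred_prime]
      omega
    rw [a2] at a1
    have e : (1 - 1 / 2) * (P : ℝ) / Real.log P = (P / Real.log P) / 2 := by ring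
    rw [e] at a1
    linarith
  have h6 : (P : ℝ) / Real.log P ^ 2 * (P / √(w : ℝ)) ≤ 4 * (K : ℝ) ^ 2 / √(w : ℝ) := by
    have e : (P : ℝ) / Real.log P ^ 2 * (P / √(w : ℝ)) = (P / Real.log P) ^ 2 / √(w : ℝ) := by
      rw [div_pow]
      ring
    rw [e]
    apply div_le_div_of_nonneg_right _ hs0.le
    calc ((P : ℝ) / Real.log P) ^ 2 ≤ (2 * K) ^ 2 := pow_le_pow_left₀ (by positivity) h5 2
      _ = 4 * (K : ℝ) ^ 2 := by ring
  have e7 : C1 * (P / Real.log P ^ 2) * (C2 * (P / √(w : ℝ))) =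
      C1 * C2 * ((P : ℝ) / Real.log P ^ 2 * (P / √(w : ℝ))) := by ring
  rw [e7] at h4
  have h8 : C1 * C2 * ((P : ℝ) / Real.log P ^ 2 * (P / √(w : ℝ))) ≤ C1 * C2 * (4 * (K : ℝ) ^ 2 / √(w : ℝ)) :=
    mul_le_mul_of_nonneg_left h6 (by positivity)
  have e9 : 8 * (C1 * C2) * (K : ℝ) ^ 2 / √(w : ℝ) = 2 * (C1 * C2 * (4 * (K : ℝ) ^ 2 / √(w : ℝ))) := by ring
  rw [e9]
  linarith

end Pool.Agent.R490.GPb
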