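import Pool.Agent.R490.P3l

set_option autoImplicit false

/-!
# Almost primes in almost all classes of every modulus: the count of the almost primes
-/

namespace Pool.Agent.R490.P3m

open Finset Filter
open Pool.Agent.W123.RP Pool.Agent.H373R2.T7 Pool.Agent.W123.RU Pool.Agent.TH464.PO Pool.Agent.TH464.PW
open Pool.Agent.Y879.AP Pool.Agent.R490.Cls Pool.Agent.R490.Mean
open Pool.Agent.R490.P3g Pool.Agent.R490.P3j Pool.Agent.R490.P3l

/-- the parameters of the sieve -/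
lemma params (θ : ℝ) (R : ℕ) (hθ : 0 < θ) (hR : 1 / 8 + 25 / (12 * θ) < R) :
    ∃ τ S : ℝ, 4 / 9 * θ ≤ τ ∧ 2 * τ < θ ∧ 1 < S ∧ 9 / 8 + S / (24 / 25 * τ) ≤ R + 1 := by
  obtain ⟨K, hK⟩ : ∃ K : ℝ, K = 25 / (12 * θ) := ⟨_, rfl⟩
  have hK0 : 0 < K := by rw [hK]; positivity
  obtain ⟨δ, hδ⟩ : ∃ δ : ℝ, δ = R + 1 - 9 / 8 - K := ⟨_, rfl⟩
  have hδ0 : 0 < δ := by rw [hδ, hK]; linarith
  obtain ⟨s, hs⟩ : ∃ s : ℝ, s = min (δ / (2 * K + δ)) (1 / 9) := ⟨_, rfl⟩
  have hs0 : 0 < s := by rw [hs]; exact lt_min (by positivity) (by norm_num)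
  have hs1 : s ≤ 1 / 9 := by rw [hs]; exact min_le_right _ _
  have hs2 : s * (2 * K + δ) ≤ δ := by
    have : s ≤ δ / (2 * K + δ) := by rw [hs]; exact min_le_left _ _
    rwa [le_div_iff₀ (by positivity)] at this
  refine ⟨θ / 2 * (1 - s), 1 + s, by nlinarith, by nlinarith, by linarith, ?_⟩
  have h1 : (1 + s) / (24 / 25 * (θ / 2 * (1 - s))) = K * (1 + s) / (1 - s) := by
    rw [hK]
    have : 1 - s ≠ 0 := by linarith
    field_simp
    ring
  rw [h1]
  have h2 : K * (1 + s) / (1 - s) ≤ K + δ := by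
    rw [div_le_iff₀ (by linarith)]
    nlinarith
  linarith

/-- the mean tends to infinity -/
lemma mean_big (r : ℕ) (hr : 2 ≤ r) (M : ℝ) : ∀ᶠ q : ℕ in atTop,
    M ≤ (q.totient : ℝ) / q * Real.log q := by
  obtain ⟨c, C, hc, hC, hV⟩ := Vz_bounds
  obtain ⟨KV, hKV, hVn⟩ := Vn_small r hr
  have hlog : Tendsto (fun q : ℕ => Real.log (q : ℝ)) atTop atTop :=
    Real.tendsto_log_atTop.comp tendsto_natCast_atTop_atTop
  have hsqlog : Tendsto (fun q : ℕ => √(Real.log (q : ℝ))) atTop atTop :=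
    Real.tendsto_sqrt_atTop.comp hlog
  filter_upwards [hVn, Pool.Agent.Y879.GL.level_ok r hr, hsqlog.eventually_ge_atTop (2 * KV * M / c),
    large_part r hr (1 / 2) (by norm_num), eventually_ge_atTop 2] with q h1 h2 h3 h4 h5
  obtain ⟨g1, g2, g3, g4, g5⟩ := h2
  obtain ⟨y, hy⟩ : ∃ y, y = ⌊(q : ℝ) ^ (1 / (r : ℝ))⌋₊ := ⟨_, rfl⟩
  rw [← hy] at h1 h4 g1 g2 g3 g4
  have hlq : 0 < Real.log q := by linarith
  have hsq : 0 < √(Real.log q) := Real.sqrt_pos.2 hlq
  have hss : √(Real.log q) * √(Real.log q) = Real.log q := Real.mul_self_sqrt hlq.le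
  obtain ⟨hVn0, hVd0, -, -⟩ := dens q y c hc (by linarith) g3 (hV y (by omega)).1
  rw [phi_eq q y (by omega)]
  have a1 : c / Real.log q ≤ Vq (Qd Ql q) y * Vq (Qn Ql q) y := by
    rw [Vd_mul_Vn, Vq_Ql]
    refine le_trans ?_ (hV y (by omega)).1
    exact div_le_div_of_nonneg_left hc.le (by linarith) g3
  have a2 : c / Real.log q ≤ Vq (Qd Ql q) y * (KV / √(Real.log q)) :=
    a1.trans (mul_le_mul_of_nonneg_left h1 hVd0.le)
  have a3 : c * √(Real.log q) ≤ Vq (Qd Ql q) y * Real.log q * KV := by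
    rw [div_le_iff₀ hlq] at a2
    have e1 : Vq (Qd Ql q) y * (KV / √(Real.log q)) * Real.log q = Vq (Qd Ql q) y * KV * √(Real.log q) := by
      field_simp
      rw [sq, hss]
    rw [e1] at a2
    calc c * √(Real.log q) ≤ Vq (Qd Ql q) y * KV * √(Real.log q) * √(Real.log q) :=
          mul_le_mul_of_nonneg_right a2 hsq.le
      _ = Vq (Qd Ql q) y * KV * (√(Real.log q) * √(Real.log q)) := by ring
      _ = _ := by rw [hss]; ring
  have a4 : (1 : ℝ) / 2 ≤ ∏ p ∈ q.primeFactors.filter (fun p => y < p), (1 - 1 / (p : ℝ)) := by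
    linarith [h4.1]
  have a5 : 2 * KV * M ≤ √(Real.log q) * c := by
    rwa [div_le_iff₀ hc] at h3
  have a6 : 2 * M ≤ Vq (Qd Ql q) y * Real.log q := by
    have : KV * (2 * M) ≤ KV * (Vq (Qd Ql q) y * Real.log q) := by linarith
    exact le_of_mul_le_mul_left this hKV
  have a7 : Vq (Qd Ql q) y * Real.log q * (1 / 2) ≤ Vq (Qd Ql q) y * Real.log q *
      ∏ p ∈ q.primeFactors.filter (fun p => y < p), (1 - 1 / (p : ℝ)) :=
    mul_le_mul_of_nonneg_left a4 (by positivity)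
  calc M ≤ Vq (Qd Ql q) y * Real.log q * (1 / 2) := by linarith
    _ ≤ _ := a7
    _ = _ := by ring

open Classical in
/-- the number of the `2 ≤ N ≤ X`, `N ≡ b` modulo `q`, with at most `R` prime factors, all `≥ w` -/
noncomputable def count (q R b : ℕ) (w X : ℝ) : ℕ :=
  ((Icc 2 ⌊X⌋₊).filter (fun N => N ≡ b [MOD q] ∧ N.primeFactorsList.length ≤ R ∧
    ∀ p : ℕ, p.Prime → p ∣ N → w ≤ p)).card

open Classical in
/-- **Almost primes in almost all classes of every modulus.** -/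
theorem final (θ ε : ℝ) (R : ℕ) (hθ : 0 < θ) (hθ1 : θ ≤ 1) (hR : 1 / 8 + 25 / (12 * θ) < R) (hε : 0 < ε) :
    ∃ c Λ : ℝ, 0 < c ∧ 0 < Λ ∧ ∀ lam : ℝ, Λ ≤ lam → ∀ᶠ q : ℕ in atTop, ∀ Z L : ℕ,
      (q : ℝ) ^ θ ≤ L → Z + L ≤ q →
      (((Ioc Z (Z + L)).filter (fun b => b.Coprime q ∧
        (count q R b ((q : ℝ) ^ (θ / 9)) (lam * (q.totient * Real.log q)) : ℝ) < c * lam)).card : ℝ) ≤
        ε * (L * ((q.totient : ℝ) / q)) := by
  obtain ⟨τ, S, h1, h2, h3, h4⟩ := params θ R hθ hR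
  have hτ : 0 < τ := by linarith
  obtain ⟨ε', hε'⟩ : ∃ ε' : ℝ, ε' = min ε 1 := ⟨_, rfl⟩
  have hε'0 : 0 < ε' := by rw [hε']; exact lt_min hε one_pos
  have hε'1 : ε' ≤ 1 := by rw [hε']; exact min_le_right _ _
  have hε'ε : ε' ≤ ε := by rw [hε']; exact min_le_left _ _
  have hJ := Pool.Agent.Y882.KW.cond_A τ (8 / 9) hτ (by norm_num) (by norm_num)
  obtain ⟨r, x1, κ0, hr2, hx1, hκ0, hmain⟩ := mainT θ τ (τ / 4) (24 / 25 * τ) (8 / 9) S R (by positivity)
    (by linarith) (by linarith) (by linarith) (by linarith) (by norm_num) hJ h2 hθ1 h3 (by norm_num at h4 ⊢; exact h4) ε'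
    hε'0 hε'1
  obtain ⟨c, C, hc, hC, hV⟩ := Vz_bounds
  have hr0 : (0 : ℝ) < r := by exact_mod_cast (by omega : 0 < r)
  refine ⟨κ0 * c / 16, 4 * x1 / c, by positivity, by positivity, ?_⟩
  intro lam hlam
  have hlam0 : 0 < lam := lt_of_lt_of_le (by positivity) hlam
  have hlx : x1 ≤ lam * c / 4 := by
    rw [div_le_iff₀ hc] at hlam
    linarith
  obtain ⟨X2, hX2⟩ : ∃ X2 : ℝ, X2 = max x1 (2 * r * C * lam) := ⟨_, rfl⟩
  filter_upwards [hmain X2 (by rw [hX2]; exact le_max_left _ _), Pool.Agent.Y879.GL.level_ok r hr2,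
    mean_big r hr2 (4 / lam), large_part r hr2 (1 / 2) (by norm_num), eventually_ge_atTop 2] with
    q hq hlev hbig hlarge hq2
  obtain ⟨g1, g2, g3, g4, g5⟩ := hlev
  obtain ⟨y, hy⟩ : ∃ y, y = ⌊(q : ℝ) ^ (1 / (r : ℝ))⌋₊ := ⟨_, rfl⟩
  rw [← hy] at hq g1 g2 g3 g4 hlarge
  intro Z L hqL hZL
  have hq0 : (0 : ℝ) < q := by exact_mod_cast (by omega : 0 < q)
  have hlq : 0 < Real.log q := by linarith
  obtain ⟨hVn0, hVd0, -, -⟩ := dens q y c hc (by linarith) g3 (hV y (by omega)).1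
  have hVV : Vq (Qd Ql q) y * Vq (Qn Ql q) y = Vz y := by rw [Vd_mul_Vn, Vq_Ql]
  obtain ⟨m, hm⟩ : ∃ m : ℝ, m = (q.totient : ℝ) / q * Real.log q := ⟨_, rfl⟩
  rw [← hm] at hbig
  have hlm : 4 ≤ lam * m := by
    rw [div_le_iff₀ hlam0] at hbig
    linarith
  obtain ⟨T, hT⟩ : ∃ T : ℕ, T = ⌊lam * m⌋₊ - 1 := ⟨_, rfl⟩
  have hfl : 4 ≤ ⌊lam * m⌋₊ := Nat.le_floor (by exact_mod_cast hlm)
  have hT1 : (T : ℝ) + 1 = ⌊lam * m⌋₊ := by
    rw [hT, Nat.cast_sub (by omega)]
    simp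
  have hT2 : (T : ℝ) + 1 ≤ lam * m := by rw [hT1]; exact Nat.floor_le (by linarith)
  have hT3 : lam * m / 2 ≤ T := by
    have := Nat.lt_floor_add_one (lam * m)
    linarith
  -- the size of `T V`
  have hE := hlarge.1
  have hE2 := hlarge.2
  obtain ⟨E, hEd⟩ : ∃ E, E = ∏ p ∈ q.primeFactors.filter (fun p => y < p), (1 - 1 / (p : ℝ)) := ⟨_, rfl⟩
  rw [← hEd] at hE hE2
  have hphi : (q.totient : ℝ) / q = Vq (Qd Ql q) y * E := by rw [hEd]; exact phi_eq q y (by omega)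
  have hmV : m * Vq (Qn Ql q) y = Vz y * Real.log q * E := by
    rw [hm, hphi, ← hVV]
    ring
  have hly : 0 < Real.log y := by linarith
  obtain ⟨hV1, hV2⟩ := hV y (by omega)
  have hVz1 : c ≤ Vz y * Real.log q := by
    rw [div_le_iff₀ hly] at hV1
    have : Vz y * Real.log y ≤ Vz y * Real.log q := by
      apply mul_le_mul_of_nonneg_left g3
      rw [← hVV]
      positivity
    linarith
  have hVz2 : Vz y * Real.log q ≤ 2 * r * C := by
    rw [le_div_iff₀ hly] at hV2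
    rw [div_le_iff₀ (by positivity)] at g2
    have hVz0 : 0 ≤ Vz y := by rw [← hVV]; positivity
    calc Vz y * Real.log q ≤ Vz y * (Real.log y * (2 * r)) := mul_le_mul_of_nonneg_left g2 hVz0
      _ = 2 * r * (Vz y * Real.log y) := by ring
      _ ≤ 2 * r * C := mul_le_mul_of_nonneg_left hV2 (by positivity)
  have hTV1 : lam * c / 4 ≤ T * V q y := by
    rw [← V_eq]
    have a1 : lam * m / 2 * Vq (Qn Ql q) y ≤ T * Vq (Qn Ql q) y := mul_le_mul_of_nonneg_right hT3 hVn0.le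
    have a2 : lam * m / 2 * Vq (Qn Ql q) y = lam / 2 * (Vz y * Real.log q * E) := by rw [← hmV]; ring
    have a3 : c * (1 / 2) ≤ Vz y * Real.log q * E := mul_le_mul hVz1 (by linarith) (by norm_num) (by linarith)
    have a4 : lam / 2 * (c * (1 / 2)) ≤ lam / 2 * (Vz y * Real.log q * E) :=
      mul_le_mul_of_nonneg_left a3 (by positivity)
    linarith
  have hTV2 : T * V q y ≤ X2 := by
    rw [← V_eq, hX2]
    refine le_trans ?_ (le_max_right _ _)
    have a1 : T * Vq (Qn Ql q) y ≤ lam * m * Vq (Qn Ql q) y := mul_le_mul_of_nonneg_right (by linarith) hVn0.le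
    have a2 : lam * m * Vq (Qn Ql q) y = lam * (Vz y * Real.log q * E) := by rw [← hmV]; ring
    have a3 : Vz y * Real.log q * E ≤ 2 * r * C * 1 := mul_le_mul hVz2 hE2 (by linarith) (by positivity)
    have a4 : lam * (Vz y * Real.log q * E) ≤ lam * (2 * r * C * 1) := mul_le_mul_of_nonneg_left a3 hlam0.le
    linarith
  have hfin := hq Z L hqL hZL T (hlx.trans hTV1) hTV2
  refine le_trans ?_ (hfin.trans (mul_le_mul_of_nonneg_right hε'ε (by positivity)))
  have hsub : (Ioc Z (Z + L)).filter (fun b => b.Coprime q ∧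
        (count q R b ((q : ℝ) ^ (θ / 9)) (lam * (q.totient * Real.log q)) : ℝ) < κ0 * c / 16 * lam) ⊆
      Bad q R T Z L (τ / 4) (κ0 * (T * V q y / 4)) := by
    intro b hb
    rw [mem_filter] at hb
    obtain ⟨hb1, hb2, hb3⟩ := hb
    unfold Bad
    rw [mem_filter]
    refine ⟨hb1, hb2, ?_⟩
    have h5 : κ0 * c / 16 * lam ≤ κ0 * (T * V q y / 4) := by
      have := mul_le_mul_of_nonneg_left hTV1 hκ0.le
      linarith
    refine lt_of_le_of_lt ?_ (hb3.trans_le h5)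
    have h6 : (Good q R T b (τ / 4)).card ≤
        count q R b ((q : ℝ) ^ (θ / 9)) (lam * (q.totient * Real.log q)) := by
      unfold count
      apply card_le_card_of_injOn (fun h => b + q * h)
      · intro h hh
        unfold Good at hh
        rw [mem_coe, mem_filter, mem_Icc] at hh
        rw [mem_Ioc] at hb1
        obtain ⟨⟨k1, k2⟩, k3, k4⟩ := hh
        rw [mem_coe, mem_filter, mem_Icc]
        have k5 : q * 1 ≤ q * h := Nat.mul_le_mul_left q k1
        refine ⟨⟨by show 2 ≤ b + q * h; omega, ?_⟩, ?_, k3, ?_⟩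
        · apply Nat.le_floor
          have k6 : b + q * h ≤ q * (T + 1) := by
            have : q * h ≤ q * T := Nat.mul_le_mul_left q k2
            rw [mul_add, mul_one]
            omega
          have k7 : ((b + q * h : ℕ) : ℝ) ≤ q * ((T : ℝ) + 1) := by exact_mod_cast k6
          refine k7.trans ?_
          calc (q : ℝ) * ((T : ℝ) + 1) ≤ q * (lam * m) := mul_le_mul_of_nonneg_left hT2 hq0.le
            _ = lam * (q.totient * Real.log q) := by
                rw [hm]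
                field_simp
        · show b + q * h ≡ b [MOD q]
          have : b + q * h ≡ b + 0 [MOD q] := (Nat.modEq_zero_iff_dvd.2 (dvd_mul_right q h)).add_left b
          simpa using this
        · intro p hp hd
          refine le_trans ?_ (k4 p hp hd)
          apply Real.rpow_le_rpow_of_exponent_le
          · exact_mod_cast (by omega : 1 ≤ q)
          · linarith
      · intro a _ a' _ haa
        simp only at haa
        have : q * a = q * a' := by omega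
        exact Nat.eq_of_mul_eq_mul_left (by omega) this
    exact_mod_cast h6
  exact_mod_cast card_le_card hsub

end Pool.Agent.R490.P3m
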