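import Pool.Agent.R490.LGa
import Pool.Agent.R490.P3m

set_option autoImplicit false

/-!
# Families of linear forms: splitting into classes
-/

namespace Pool.Agent.R490.LGb

open Finset Filter
open Pool.Agent.W123.RP Pool.Agent.H373R2.T7 Pool.Agent.W123.RU Pool.Agent.TH464.PO Pool.Agent.TH464.PW
open Pool.Agent.Y879.AP Pool.Agent.R490.LFa Pool.Agent.R490.LFb Pool.Agent.R490.LFc Pool.Agent.R490.LFd
open Pool.Agent.R490.LFe Pool.Agent.R490.LGa

/-- the resultant -/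
def Rs (A : ℕ → ℕ) (B : ℕ → ℤ) (j j' : ℕ) : ℤ := (A j : ℤ) * B j' - (A j' : ℤ) * B j

/-- the hypotheses on the forms `A_j n + B_j` -/
structure Dat (A : ℕ → ℕ) (B : ℕ → ℤ) (D0 w1 : ℕ) : Prop where
  posA : ∀ j, 1 ≤ j → 1 ≤ A j
  szA : ∀ j, 1 ≤ j → A j ≤ (j + 1) ^ D0
  szB : ∀ j, 1 ≤ j → (B j).natAbs ≤ (j + 1) ^ D0
  cop : ∀ j, 1 ≤ j → ∀ p : ℕ, p.Prime → w1 < p → p ∣ A j → ¬ (p : ℤ) ∣ B j
  res : ∀ j j', 1 ≤ j → 1 ≤ j' → j ≠ j' → Rs A B j j' ≠ 0

/-- the primorial -/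
noncomputable def Wp (w : ℕ) : ℕ := ∏ p ∈ pz w, p

/-- the leading coefficients in a class -/
noncomputable def al (A : ℕ → ℕ) (w j : ℕ) : ℕ := A j * Wp w

/-- the constant coefficients in a class -/
noncomputable def be (A : ℕ → ℕ) (B : ℕ → ℤ) (n0 j : ℕ) : ℕ := ((A j : ℤ) * n0 + B j).toNat

open Classical in
/-- the forms without a small fixed divisor -/
noncomputable def Jn (A : ℕ → ℕ) (B : ℕ → ℤ) (w K n : ℕ) : Finset ℕ :=
  (Icc 1 K).filter (fun j => ∀ p : ℕ, p.Prime → p ≤ w → ¬ (p : ℤ) ∣ (A j : ℤ) * n + B j)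

lemma Wp_pos (w : ℕ) : 1 ≤ Wp w := Nat.pos_of_ne_zero (prod_ne_zero_iff.2 fun _ hp => (mem_pz.1 hp).2.ne_zero)

lemma dvd_Wp {w p : ℕ} (hp : p.Prime) (h : p ≤ w) : p ∣ Wp w := dvd_prod_of_mem (fun p => p) (mem_pz.2 ⟨h, hp⟩)

lemma not_dvd_Wp {w p : ℕ} (hp : p.Prime) (h : w < p) : ¬ p ∣ Wp w := by
  intro hd
  obtain ⟨p', hp', hd'⟩ := (Prime.dvd_finset_prod_iff hp.prime _).1 hd
  have h1 := mem_pz.1 hp'
  have := (Nat.prime_dvd_prime_iff_eq hp h1.2).1 hd'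
  omega

lemma Jn_congr (A : ℕ → ℕ) (B : ℕ → ℤ) (w K n n' : ℕ) (h : n ≡ n' [MOD Wp w]) : Jn A B w K n = Jn A B w K n' := by
  classical
  unfold Jn
  apply filter_congr
  intro j _
  apply forall_congr'
  intro p
  apply imp_congr_right
  intro hp
  apply imp_congr_right
  intro hw
  apply not_congr
  have h1 : (n : ℤ) ≡ n' [ZMOD p] := (Int.natCast_modEq_iff.2 (h.of_dvd (dvd_Wp hp hw)))
  have h2 : (A j : ℤ) * n + B j ≡ (A j : ℤ) * n' + B j [ZMOD p] := (h1.mul_left _).add_right _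
  exact h2.dvd_iff

variable {A : ℕ → ℕ} {B : ℕ → ℤ} {D0 w1 : ℕ}

lemma be_cast (h : Dat A B D0 w1) (K n0 j : ℕ) (hj : j ∈ Icc 1 K) (hn : (K + 1) ^ D0 + 2 ≤ n0) :
    ((be A B n0 j : ℕ) : ℤ) = (A j : ℤ) * n0 + B j ∧ 2 ≤ be A B n0 j := by
  rw [mem_Icc] at hj
  have h1 := h.posA j hj.1
  have h2 := h.szB j hj.1
  have h3 : (j + 1) ^ D0 ≤ (K + 1) ^ D0 := Nat.pow_le_pow_left (by omega) _
  have h4 : n0 ≤ A j * n0 := Nat.le_mul_of_pos_left _ h1
  have h5 : (2 : ℤ) ≤ (A j : ℤ) * n0 + B j := by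
    have a1 : (n0 : ℤ) ≤ (A j : ℤ) * n0 := by exact_mod_cast h4
    have a2 : -((B j).natAbs : ℤ) ≤ B j := by
      rw [Int.natCast_natAbs]
      exact neg_abs_le _
    have a3 : ((B j).natAbs : ℤ) + 2 ≤ n0 := by exact_mod_cast (by omega : (B j).natAbs + 2 ≤ n0)
    linarith
  have h6 : ((be A B n0 j : ℕ) : ℤ) = (A j : ℤ) * n0 + B j := by
    unfold be
    exact Int.toNat_of_nonneg (by linarith)
  refine ⟨h6, ?_⟩
  have : (2 : ℤ) ≤ (be A B n0 j : ℕ) := by rw [h6]; exact h5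
  exact_mod_cast this

lemma res_eq (h : Dat A B D0 w1) (w K n0 j j' : ℕ) (hj : j ∈ Icc 1 K) (hj' : j' ∈ Icc 1 K)
    (hn : (K + 1) ^ D0 + 2 ≤ n0) :
    (al A w j : ℤ) * be A B n0 j' - (al A w j' : ℤ) * be A B n0 j = Wp w * Rs A B j j' := by
  rw [(be_cast h K n0 j hj hn).1, (be_cast h K n0 j' hj' hn).1]
  unfold al Rs
  push_cast
  ring

lemma Rs_le (h : Dat A B D0 w1) (K j j' : ℕ) (hj : j ∈ Icc 1 K) (hj' : j' ∈ Icc 1 K) :
    (Rs A B j j').natAbs ≤ 2 * (K + 1) ^ (2 * D0) := by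
  rw [mem_Icc] at hj hj'
  have hb : ∀ i, 1 ≤ i → i ≤ K → A i ≤ (K + 1) ^ D0 ∧ (B i).natAbs ≤ (K + 1) ^ D0 := by
    intro i h1 h2
    have h3 : (i + 1) ^ D0 ≤ (K + 1) ^ D0 := Nat.pow_le_pow_left (by omega) _
    exact ⟨(h.szA i h1).trans h3, (h.szB i h1).trans h3⟩
  obtain ⟨a1, a2⟩ := hb j hj.1 hj.2
  obtain ⟨b1, b2⟩ := hb j' hj'.1 hj'.2
  unfold Rs
  refine (Int.natAbs_sub_le _ _).trans ?_
  rw [Int.natAbs_mul, Int.natAbs_mul, Int.natAbs_natCast, Int.natAbs_natCast]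
  have e : (K + 1) ^ (2 * D0) = (K + 1) ^ D0 * (K + 1) ^ D0 := by rw [two_mul, pow_add]
  rw [e]
  have c1 := Nat.mul_le_mul a1 b2
  have c2 := Nat.mul_le_mul b1 a2
  omega

/-- the family of a class -/
lemma fam_cls (h : Dat A B D0 w1) (w K n0 y : ℕ) (hw1 : w1 ≤ w) (hn : (K + 1) ^ D0 + 2 ≤ n0) (hwy : w ≤ y)
    (hK : 2 * (K + 1) ^ (2 * D0) ≤ y) : Fam (al A w) (be A B n0) (Jn A B w K n0) y := by
  classical
  have hsub : Jn A B w K n0 ⊆ Icc 1 K := filter_subset _ _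
  have hJ : ∀ j ∈ Jn A B w K n0, ∀ p : ℕ, p.Prime → p ≤ w → ¬ p ∣ be A B n0 j := by
    intro j hj p hp hpw hd
    have h1 := (mem_filter.1 hj).2 p hp hpw
    apply h1
    rw [← (be_cast h K n0 j (hsub hj) hn).1]
    exact_mod_cast hd
  refine ⟨?_, ?_, ?_⟩
  · intro j hj
    rw [Nat.coprime_iff_gcd_eq_one]
    by_contra hne
    obtain ⟨p, hp, hpd⟩ := Nat.exists_prime_and_dvd hne
    have h1 : p ∣ A j * Wp w := hpd.trans (Nat.gcd_dvd_left _ _)
    have h2 : p ∣ be A B n0 j := hpd.trans (Nat.gcd_dvd_right _ _)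
    by_cases hpw : p ≤ w
    · exact hJ j hj p hp hpw h2
    · rcases (Nat.Prime.dvd_mul hp).1 h1 with h3 | h3
      · have h4 : (p : ℤ) ∣ (A j : ℤ) * n0 + B j := by
          rw [← (be_cast h K n0 j (hsub hj) hn).1]
          exact_mod_cast h2
        have h5 : (p : ℤ) ∣ (A j : ℤ) * n0 := (Int.natCast_dvd_natCast.2 h3).mul_right _
        have h6 : (p : ℤ) ∣ B j := (dvd_add_right h5).1 h4
        exact h.cop j (mem_Icc.1 (hsub hj)).1 p hp (by omega) h3 h6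
      · exact not_dvd_Wp (w := w) hp (by omega) h3
  · intro j hj p hp hyp hd
    have hj1 := mem_Icc.1 (hsub hj)
    rcases (Nat.Prime.dvd_mul hp).1 hd with h3 | h3
    · have h4 := Nat.le_of_dvd (h.posA j hj1.1) h3
      have h5 := h.szA j hj1.1
      have h6 : (j + 1) ^ D0 ≤ (K + 1) ^ D0 := Nat.pow_le_pow_left (by omega) _
      have h7 : (K + 1) ^ D0 ≤ (K + 1) ^ (2 * D0) := Nat.pow_le_pow_right (by omega) (by omega)
      omega
    · exact not_dvd_Wp (w := w) hp (by omega) h3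
  · intro j hj j' hj' hne p hp hyp hd
    rw [res_eq h w K n0 j j' (hsub hj) (hsub hj') hn] at hd
    rcases (Nat.prime_iff_prime_int.1 hp).dvd_or_dvd hd with h3 | h3
    · exact not_dvd_Wp (w := w) hp (by omega) (by exact_mod_cast h3)
    · have h4 : p ∣ (Rs A B j j').natAbs := Int.natCast_dvd.1 h3
      have h5 : (Rs A B j j').natAbs ≠ 0 := Int.natAbs_ne_zero.2
        (h.res j j' (mem_Icc.1 (hsub hj)).1 (mem_Icc.1 (hsub hj')).1 hne)
      have h6 := Nat.le_of_dvd (Nat.pos_of_ne_zero h5) h4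
      have h7 := Rs_le h K j j' (hsub hj) (hsub hj')
      omega

/-- the sum of the densities -/
lemma V1S_cls (h : Dat A B D0 w1) (w K n0 y : ℕ) (hF : Fam (al A w) (be A B n0) (Jn A B w K n0) y)
    (hn : (K + 1) ^ D0 + 2 ≤ n0) :
    VW w y * (Jn A B w K n0).card ≤ V1S (al A w) (be A B n0) (Jn A B w K n0) y := by
  classical
  have hsub : Jn A B w K n0 ⊆ Icc 1 K := filter_subset _ _
  unfold V1S
  have h1 : ∑ j ∈ Jn A B w K n0, VW w y ≤ ∑ j ∈ Jn A B w K n0, Vq (QF (al A w) (be A B n0) j) y := by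
    apply sum_le_sum
    intro j hj
    apply V1_ge _ _ _ _ _ (hF.cop j hj)
    intro p hp hpw m hd
    have h2 : p ∣ al A w j * m := ((dvd_Wp hp hpw).mul_left _).mul_right _
    have h3 : p ∣ be A B n0 j := (Nat.dvd_add_right h2).1 hd
    apply (mem_filter.1 hj).2 p hp hpw
    rw [← (be_cast h K n0 j (hsub hj) hn).1]
    exact_mod_cast h3
  rw [sum_const, nsmul_eq_mul, mul_comm] at h1
  exact h1

/-- the excess of a pair -/
noncomputable def exc (A : ℕ → ℕ) (B : ℕ → ℤ) (w y j j' : ℕ) : ℝ :=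
  if j = j' then 0 else tw w y (A j) * tw w y (A j') * tw w y (Rs A B j j').natAbs - 1

lemma exc_nonneg (A : ℕ → ℕ) (B : ℕ → ℤ) (w y j j' : ℕ) : 0 ≤ exc A B w y j j' := by
  unfold exc
  split_ifs
  · exact le_rfl
  · have h1 := one_le_tw w y (A j)
    have h2 := one_le_tw w y (A j')
    have h3 := one_le_tw w y (Rs A B j j').natAbs
    have h4 : 1 ≤ tw w y (A j) * tw w y (A j') := one_le_mul_of_one_le_of_one_le h1 h2
    have h5 := one_le_mul_of_one_le_of_one_le h4 h3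
    linarith

/-- the sum of the pair densities -/
lemma V2S_cls (h : Dat A B D0 w1) (w K n0 y : ℕ) (hn : (K + 1) ^ D0 + 2 ≤ n0) :
    V2S (al A w) (be A B n0) (Jn A B w K n0) y ≤
      VW w y ^ 2 * (((Jn A B w K n0).card : ℝ) ^ 2 + ∑ j ∈ Icc 1 K, ∑ j' ∈ Icc 1 K, exc A B w y j j') := by
  classical
  have hsub : Jn A B w K n0 ⊆ Icc 1 K := filter_subset _ _
  have hVW := (VW_pos w y).le
  have h1 : V2S (al A w) (be A B n0) (Jn A B w K n0) y ≤ ∑ j ∈ Jn A B w K n0, ∑ j' ∈ Jn A B w K n0,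
      VW w y ^ 2 * (1 + exc A B w y j j') := by
    unfold V2S
    apply sum_le_sum
    intro j hj
    apply sum_le_sum
    intro j' hj'
    unfold exc
    split_ifs with hne
    · have : 0 ≤ VW w y ^ 2 := sq_nonneg _
      linarith
    · have e : 1 + (tw w y (A j) * tw w y (A j') * tw w y (Rs A B j j').natAbs - 1) =
        tw w y (A j) * tw w y (A j') * tw w y (Rs A B j j').natAbs := by ring
      rw [e]
      apply V2_le
      · intro p hp hw hd
        rcases (Nat.Prime.dvd_mul hp).1 hd with h3 | h3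
        · exact h3
        · exact absurd h3 (not_dvd_Wp hp hw)
      · intro p hp hw hd
        rcases (Nat.Prime.dvd_mul hp).1 hd with h3 | h3
        · exact h3
        · exact absurd h3 (not_dvd_Wp hp hw)
      · intro p hp hw hd
        rw [res_eq h w K n0 j j' (hsub hj) (hsub hj') hn] at hd
        rcases (Nat.prime_iff_prime_int.1 hp).dvd_or_dvd hd with h3 | h3
        · exact absurd (by exact_mod_cast h3) (not_dvd_Wp hp hw)
        · exact Int.natCast_dvd.1 h3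
  refine h1.trans ?_
  simp only [← mul_sum]
  apply mul_le_mul_of_nonneg_left _ (sq_nonneg _)
  simp only [sum_add_distrib, sum_const, nsmul_eq_mul, mul_one]
  have h2 : ∑ j ∈ Jn A B w K n0, ∑ j' ∈ Jn A B w K n0, exc A B w y j j' ≤
      ∑ j ∈ Icc 1 K, ∑ j' ∈ Icc 1 K, exc A B w y j j' := by
    calc _ ≤ ∑ j ∈ Jn A B w K n0, ∑ j' ∈ Icc 1 K, exc A B w y j j' :=
          sum_le_sum fun j _ => sum_le_sum_of_subset_of_nonneg hsub (fun j' _ _ => exc_nonneg _ _ _ _ _ _)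
      _ ≤ _ := sum_le_sum_of_subset_of_nonneg hsub (fun j _ _ => sum_nonneg fun j' _ => exc_nonneg _ _ _ _ _ _)
  have e : ((Jn A B w K n0).card : ℝ) * (Jn A B w K n0).card = ((Jn A B w K n0).card : ℝ) ^ 2 := by ring
  rw [e]
  linarith

open Classical in
/-- the number of the almost primes -/
noncomputable def cnt (A : ℕ → ℕ) (B : ℕ → ℤ) (R K n : ℕ) (v : ℝ) : ℕ :=
  ((Icc 1 K).filter (fun j => 2 ≤ (A j : ℤ) * n + B j ∧ ((A j : ℤ) * n + B j).toNat.primeFactorsList.length ≤ R ∧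
    ∀ p : ℕ, p.Prime → (p : ℤ) ∣ (A j : ℤ) * n + B j → v ≤ p)).card

open Classical in
/-- the exceptional `n` of a class -/
lemma cls_card (h : Dat A B D0 w1) (w K n0 q R Z L : ℕ) (ζ t t' v : ℝ) (hn : (K + 1) ^ D0 + 2 ≤ n0)
    (ht : t ≤ t') (hv : v ≤ (q : ℝ) ^ ζ) :
    ((Ioc Z (Z + L)).filter (fun n => n ≡ n0 [MOD Wp w] ∧ n0 < n ∧ (cnt A B R K n v : ℝ) < t)).card ≤
      (BadF (al A w) (be A B n0) (Jn A B w K n0) q R ((Z - n0) / Wp w) (L / Wp w + 1) ζ t').card := by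
  have hW := Wp_pos w
  apply card_le_card_of_injOn (fun n => (n - n0) / Wp w)
  · intro n hn'
    rw [mem_coe, mem_filter, mem_Ioc] at hn'
    obtain ⟨⟨h1, h2⟩, h3, h4, h5⟩ := hn'
    obtain ⟨m, hm⟩ : ∃ m, n = n0 + Wp w * m := by
      have : Wp w ∣ n - n0 := (Nat.modEq_iff_dvd' h4.le).1 h3.symm
      obtain ⟨m, hm⟩ := this
      exact ⟨m, by omega⟩
    have hm2 : (n - n0) / Wp w = m := by
      rw [hm, Nat.add_sub_cancel_left, Nat.mul_div_cancel_left _ hW]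
    have hm1 : 1 ≤ m := by
      by_contra hc
      have : m = 0 := by omega
      subst this
      omega
    show (n - n0) / Wp w ∈ _
    rw [hm2]
    unfold BadF
    rw [mem_coe, mem_filter, mem_Ioc]
    refine ⟨⟨?_, ?_⟩, ?_⟩
    · rw [Nat.div_lt_iff_lt_mul hW, mul_comm]
      rcases Nat.eq_zero_or_pos (Z - n0) with h6 | h6
      · rw [h6]
        exact Nat.mul_pos hW hm1
      · omega
    · rw [← hm2]
      have h6 : n - n0 ≤ (Z - n0) + L := by omega
      have h7 := Nat.div_le_div_right (c := Wp w) h6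
      refine h7.trans ?_
      have h8 : Z - n0 = Wp w * ((Z - n0) / Wp w) + (Z - n0) % Wp w := (Nat.div_add_mod _ _).symm
      have h9 : L = Wp w * (L / Wp w) + L % Wp w := (Nat.div_add_mod _ _).symm
      have h10 := Nat.mod_lt (Z - n0) hW
      have h11 := Nat.mod_lt L hW
      rw [← Nat.lt_add_one_iff, Nat.div_lt_iff_lt_mul hW]
      have e : ((Z - n0) / Wp w + (L / Wp w + 1) + 1) * Wp w =
        Wp w * ((Z - n0) / Wp w) + Wp w * (L / Wp w) + Wp w + Wp w := by ring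
      rw [e]
      omega
    · refine lt_of_le_of_lt ?_ (h5.trans_le ht)
      have h6 : (GoodF (al A w) (be A B n0) (Jn A B w K n0) q R m ζ).card ≤ cnt A B R K n v := by
        unfold GoodF cnt
        apply card_le_card
        intro j hj
        rw [mem_filter] at hj ⊢
        obtain ⟨g1, g2, g3⟩ := hj
        have hjK : j ∈ Icc 1 K := filter_subset _ _ g1
        obtain ⟨b1, b2⟩ := be_cast h K n0 j hjK hn
        have e1 : (A j : ℤ) * n + B j = ((al A w j * m + be A B n0 j : ℕ) : ℤ) := by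
          push_cast
          rw [b1, hm]
          unfold al
          push_cast
          ring
        rw [e1]
        refine ⟨hjK, ?_, ?_, ?_⟩
        · exact_mod_cast (by omega : 2 ≤ al A w j * m + be A B n0 j)
        · rw [Int.toNat_natCast]
          exact g2
        · intro p hp hd
          exact hv.trans (g3 p hp (by exact_mod_cast hd))
      exact_mod_cast h6
  · intro a ha b hb hab
    rw [mem_coe, mem_filter] at ha hb
    simp only at hab
    obtain ⟨-, a1, a2, -⟩ := ha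
    obtain ⟨-, b1, b2, -⟩ := hb
    obtain ⟨ma, hma⟩ := (Nat.modEq_iff_dvd' a2.le).1 a1.symm
    obtain ⟨mb, hmb⟩ := (Nat.modEq_iff_dvd' b2.le).1 b1.symm
    rw [hma, hmb, Nat.mul_div_cancel_left _ hW, Nat.mul_div_cancel_left _ hW] at hab
    rw [hab] at hma
    omega

end Pool.Agent.R490.LGb
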