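import Pool.Agent.R490.LPc
import Pool.Agent.R490.LGb

set_option autoImplicit false

/-!
# Families of linear forms over a sifted base: the densities
-/

namespace Pool.Agent.R490.LPf

open Finset Filter
open Pool.Agent.W123.RP Pool.Agent.H373R2.T7 Pool.Agent.W123.RU Pool.Agent.TH464.PO Pool.Agent.TH464.PW
open Pool.Agent.Y879.AP Pool.Agent.R490.LFa Pool.Agent.R490.LFb Pool.Agent.R490.LFc
open Pool.Agent.R490.LGa Pool.Agent.R490.LPa Pool.Agent.R490.LPc

/-- the condition of the base -/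
def Qc (W n0 p m : ℕ) : Prop := p ∣ W * m + n0

lemma Qc_eq (W n0 : ℕ) : Qc W n0 = QF (fun _ => W) (fun _ => n0) 0 := rfl

lemma perB_Qc (W n0 : ℕ) (h : W.Coprime n0) : PerB (Qc W n0) 1 := by
  rw [Qc_eq]
  exact perB_QF (fun _ => W) (fun _ => n0) 0 h

lemma sum_le_prod (S : Finset ℕ) (f : ℕ → ℝ) (h0 : ∀ p ∈ S, 0 ≤ f p) (h1 : ∀ p ∈ S, f p ≤ 1) :
    1 - ∑ p ∈ S, f p ≤ ∏ p ∈ S, (1 - f p) := by
  classical
  induction S using Finset.induction_on with
  | empty => simp
  | insert a S ha ih =>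
    rw [sum_insert ha, prod_insert ha]
    have i1 := ih (fun p hp => h0 p (mem_insert_of_mem hp)) (fun p hp => h1 p (mem_insert_of_mem hp))
    have i2 := h0 a (mem_insert_self a S)
    have i3 := h1 a (mem_insert_self a S)
    have i4 : 0 ≤ ∑ p ∈ S, f p := sum_nonneg fun p hp => h0 p (mem_insert_of_mem hp)
    calc 1 - (f a + ∑ p ∈ S, f p) ≤ (1 - f a) * (1 - ∑ p ∈ S, f p) := by nlinarith
      _ ≤ (1 - f a) * ∏ p ∈ S, (1 - f p) := mul_le_mul_of_nonneg_left i1 (by linarith)

/-- the product of `1 - 4/p²` -/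
lemma prod_sq (w y : ℕ) (hw : 2 ≤ w) :
    1 - 4 / (w : ℝ) ≤ ∏ p ∈ pz y, (if w < p then 1 - 4 / (p : ℝ) ^ 2 else 1) := by
  classical
  have e1 : ∏ p ∈ pz y, (if w < p then 1 - 4 / (p : ℝ) ^ 2 else 1) =
      ∏ p ∈ (pz y).filter (fun p => w < p), (1 - 4 / (p : ℝ) ^ 2) := by rw [prod_filter]
  rw [e1]
  refine le_trans ?_ (sum_le_prod _ (fun p => 4 / (p : ℝ) ^ 2) (fun p _ => by positivity) ?_)
  · have h5 : ∑ p ∈ (pz y).filter (fun p => w < p), 4 / (p : ℝ) ^ 2 ≤
        ∑ p ∈ Ioc w (max w y), 4 / (p : ℝ) ^ 2 := by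
      apply sum_le_sum_of_subset_of_nonneg
      · intro p hp
        rw [mem_filter] at hp
        rw [mem_Ioc]
        exact ⟨hp.2, (mem_pz.1 hp.1).1.trans (le_max_right _ _)⟩
      · intro p _ _
        positivity
    have e2 : ∑ p ∈ Ioc w (max w y), 4 / (p : ℝ) ^ 2 = 4 * ∑ p ∈ Ioc w (max w y), ((p : ℝ) ^ 2)⁻¹ := by
      rw [mul_sum]
      rfl
    rw [e2] at h5
    have h9 := sum_Ioc_inv_sq_le_sub (α := ℝ) (k := w) (n := max w y) (by omega) (le_max_left _ _)
    have h10 : (0 : ℝ) ≤ ((max w y : ℕ) : ℝ)⁻¹ := by positivity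
    rw [div_eq_mul_inv 4 (w : ℝ)]
    linarith
  · intro p hp
    rw [mem_filter] at hp
    have hp2 : (2 : ℝ) ≤ p := by exact_mod_cast (mem_pz.1 hp.1).2.two_le
    rw [div_le_one (by positivity)]
    nlinarith

lemma dens_base (W n0 w y : ℕ) (hcop : W.Coprime n0) (hW : ∀ p : ℕ, p.Prime → w < p → ¬ p ∣ W)
    (h0 : ∀ p : ℕ, p.Prime → p ≤ w → ∀ m, ¬ p ∣ W * m + n0) : Vq (Qc W n0) y = VW w y := by
  unfold Vq VW
  apply prod_congr rfl
  intro p hp
  have hpp := (mem_pz.1 hp).2
  rw [Qc_eq]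
  split_ifs with hw
  · have h1 : nuB (QF (fun _ => W) (fun _ => n0) 0) p = 1 := by
      apply le_antisymm (nuB_QF_le _ _ _ p hpp hcop)
      classical
      unfold nuB
      rw [Nat.succ_le_iff, card_pos]
      obtain ⟨r, hr, hr2⟩ := exists_root W n0 p hpp (hW p hpp hw)
      exact ⟨r, mem_filter.2 ⟨mem_range.2 hr, hr2⟩⟩
    rw [h1, Nat.cast_one]
  · rw [nuB_QF_zero _ _ _ p (h0 p hpp (by omega))]
    simp

/-- the density of the base and one form -/
lemma V1B_ge (W n0 : ℕ) (α β : ℕ → ℕ) (w y j : ℕ) (hw2 : 2 ≤ w) (hcop0 : W.Coprime n0)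
    (hcop : (α j).Coprime (β j))
    (h0 : ∀ p : ℕ, p.Prime → p ≤ w → ∀ m, ¬ p ∣ W * m + n0)
    (h1 : ∀ p : ℕ, p.Prime → p ≤ w → ∀ m, ¬ p ∣ α j * m + β j) :
    VW w y ^ 2 * (1 - 4 / (w : ℝ)) ≤ Vq (QB (Qc W n0) α β j) y := by
  classical
  have hper : PerB (QB (Qc W n0) α β j) 2 :=
    perB_QBP_aux (Qc W n0) (QF α β j) _ (fun _ _ => Iff.rfl) 1 1 (perB_Qc W n0 hcop0) (perB_QF α β j hcop)
  have h2 := mul_le_mul_of_nonneg_left (prod_sq w y hw2) (sq_nonneg (VW w y))
  refine h2.trans ?_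
  unfold VW Vq
  rw [← prod_pow, ← prod_mul_distrib]
  apply Finset.prod_le_prod
  · intro p hp
    have hp2 : (2 : ℝ) ≤ p := by exact_mod_cast (mem_pz.1 hp).2.two_le
    apply mul_nonneg (sq_nonneg _)
    split_ifs
    · rw [sub_nonneg, div_le_one (by positivity)]
      nlinarith
    · exact zero_le_one
  · intro p hp
    have hpp := (mem_pz.1 hp).2
    have hp2 : (2 : ℝ) ≤ p := by exact_mod_cast hpp.two_le
    have hp0 : (0 : ℝ) < p := by linarith
    split_ifs with hw
    · have g1 : (nuB (QB (Qc W n0) α β j) p : ℝ) ≤ 2 := by exact_mod_cast hper.few p hpp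
      have g2 : (nuB (QB (Qc W n0) α β j) p : ℝ) / p ≤ 2 / p := div_le_div_of_nonneg_right g1 hp0.le
      have g3 : (1 - 1 / (p : ℝ)) ^ 2 * (1 - 4 / (p : ℝ) ^ 2) ≤ 1 - 2 / p := by
        have e : (1 - 2 / (p : ℝ)) - (1 - 1 / (p : ℝ)) ^ 2 * (1 - 4 / (p : ℝ) ^ 2) =
          (3 * (p : ℝ) ^ 2 - 8 * p + 4) / (p : ℝ) ^ 4 := by
          field_simp
          ring
        have : 0 ≤ (3 * (p : ℝ) ^ 2 - 8 * p + 4) / (p : ℝ) ^ 4 := by
          apply div_nonneg _ (by positivity)
          nlinarith [mul_nonneg (sub_nonneg.2 hp2) (by linarith : (0 : ℝ) ≤ 3 * p - 2)]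
        linarith
      linarith
    · have g1 : nuB (QB (Qc W n0) α β j) p = 0 := by
        unfold nuB
        rw [card_eq_zero, filter_eq_empty_iff]
        intro m _ hm
        rcases hm with hm | hm
        · exact h0 p hpp (by omega) m hm
        · exact h1 p hpp (by omega) m hm
      rw [g1]
      norm_num

/-- Bernoulli -/
lemma bern (x t : ℝ) (hx : x = 1 - t) (h0 : 0 ≤ t) (h1 : t ≤ 1 / 2) : 1 - 2 * t ≤ x ^ 2 ∧ 1 - 3 * t ≤ x ^ 3 := by
  subst hx
  constructor
  · nlinarith [sq_nonneg t]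
  · nlinarith [mul_nonneg (mul_nonneg h0 h0) (by linarith : (0 : ℝ) ≤ 3 - t)]

/-- the density of the base and two forms -/
lemma V2B_le (W n0 : ℕ) (α β : ℕ → ℕ) (w y j j' a a' b b' R : ℕ) (hW : ∀ p : ℕ, p.Prime → w < p → ¬ p ∣ W)
    (h1 : ∀ p : ℕ, p.Prime → w < p → p ∣ α j → p ∣ a) (h2 : ∀ p : ℕ, p.Prime → w < p → p ∣ α j' → p ∣ a')
    (g1 : ∀ p : ℕ, p.Prime → w < p → ∀ m, p ∣ W * m + n0 → p ∣ α j * m + β j → p ∣ b)
    (g2 : ∀ p : ℕ, p.Prime → w < p → ∀ m, p ∣ W * m + n0 → p ∣ α j' * m + β j' → p ∣ b')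
    (h3 : ∀ p : ℕ, p.Prime → w < p → (p : ℤ) ∣ (α j : ℤ) * β j' - (α j' : ℤ) * β j → p ∣ R) :
    Vq (QBP (Qc W n0) α β j j') y ≤
      VW w y ^ 3 * (tw w y a * tw w y b * (tw w y a' * tw w y b') * tw w y R) := by
  classical
  have e1 : VW w y ^ 3 * (tw w y a * tw w y b * (tw w y a' * tw w y b') * tw w y R) =
      ∏ p ∈ pz y, ((if w < p then 1 - 1 / (p : ℝ) else 1) ^ 3 *
        ((if w < p ∧ p ∣ a then (1 - 1 / (p : ℝ))⁻¹ else 1) * (if w < p ∧ p ∣ b then (1 - 1 / (p : ℝ))⁻¹ else 1) *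
          ((if w < p ∧ p ∣ a' then (1 - 1 / (p : ℝ))⁻¹ else 1) *
            (if w < p ∧ p ∣ b' then (1 - 1 / (p : ℝ))⁻¹ else 1)) *
          (if w < p ∧ p ∣ R then (1 - 1 / (p : ℝ))⁻¹ else 1))) := by
    unfold VW tw
    rw [prod_mul_distrib, prod_mul_distrib, prod_mul_distrib, prod_mul_distrib, prod_mul_distrib, prod_pow]
  rw [e1]
  unfold Vq
  apply Finset.prod_le_prod
  · intro p hp
    have hpp := (mem_pz.1 hp).2
    have hp0 : (0 : ℝ) < p := by exact_mod_cast hpp.pos
    have g1 : nuB (QBP (Qc W n0) α β j j') p ≤ p := by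
      unfold nuB
      exact (card_filter_le _ _).trans (by rw [card_range])
    have g2 : (nuB (QBP (Qc W n0) α β j j') p : ℝ) / p ≤ 1 := by
      rw [div_le_one hp0]
      exact_mod_cast g1
    linarith
  · intro p hp
    have hpp := (mem_pz.1 hp).2
    have hp0 : (0 : ℝ) < p := by exact_mod_cast hpp.pos
    obtain ⟨hx0, hx1⟩ := one_sub_pos hpp
    have hinv := one_le_inv' hpp
    have hp2 : (2 : ℝ) ≤ p := by exact_mod_cast hpp.two_le
    have ht0 : (0 : ℝ) ≤ 1 / p := by positivity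
    have ht1 : 1 / (p : ℝ) ≤ 1 / 2 := one_div_le_one_div_of_le (by norm_num) hp2
    obtain ⟨x, hx⟩ : ∃ x : ℝ, x = 1 - 1 / (p : ℝ) := ⟨_, rfl⟩
    obtain ⟨hb2, hb3⟩ := bern x (1 / (p : ℝ)) hx ht0 ht1
    rw [← hx] at hx0 hx1 hinv ⊢
    obtain ⟨ν, hν⟩ : ∃ ν : ℕ, ν = nuB (QBP (Qc W n0) α β j j') p := ⟨_, rfl⟩
    rw [← hν]
    have hxx : x * x⁻¹ = 1 := mul_inv_cancel₀ hx0.ne'
    have one_le : ∀ (P : Prop) [Decidable P], (1 : ℝ) ≤ (if P then x⁻¹ else 1) := by
      intro P _
      split_ifs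
      · exact hinv
      · exact le_rfl
    by_cases hw : w < p
    · rw [if_pos hw]
      obtain ⟨r0, hr0, hr0'⟩ := exists_root W n0 p hpp (hW p hpp hw)
      obtain ⟨f1, hf1⟩ : ∃ f1 : ℝ, f1 = (if w < p ∧ p ∣ a then x⁻¹ else 1) := ⟨_, rfl⟩
      obtain ⟨f2, hf2⟩ : ∃ f2 : ℝ, f2 = (if w < p ∧ p ∣ b then x⁻¹ else 1) := ⟨_, rfl⟩
      obtain ⟨f3, hf3⟩ : ∃ f3 : ℝ, f3 = (if w < p ∧ p ∣ a' then x⁻¹ else 1) := ⟨_, rfl⟩
      obtain ⟨f4, hf4⟩ : ∃ f4 : ℝ, f4 = (if w < p ∧ p ∣ b' then x⁻¹ else 1) := ⟨_, rfl⟩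
      obtain ⟨f5, hf5⟩ : ∃ f5 : ℝ, f5 = (if w < p ∧ p ∣ R then x⁻¹ else 1) := ⟨_, rfl⟩
      have k1 : 1 ≤ f1 := by rw [hf1]; exact one_le _
      have k2 : 1 ≤ f2 := by rw [hf2]; exact one_le _
      have k3 : 1 ≤ f3 := by rw [hf3]; exact one_le _
      have k4 : 1 ≤ f4 := by rw [hf4]; exact one_le _
      have k5 : 1 ≤ f5 := by rw [hf5]; exact one_le _
      rw [← hf1, ← hf2, ← hf3, ← hf4, ← hf5]
      have k12 : 1 ≤ f1 * f2 := one_le_mul_of_one_le_of_one_le k1 k2
      have k34 : 1 ≤ f3 * f4 := one_le_mul_of_one_le_of_one_le k3 k4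
      have hν1 : 1 ≤ ν := by
        rw [hν]
        unfold nuB
        rw [Nat.succ_le_iff, card_pos]
        exact ⟨r0, mem_filter.2 ⟨mem_range.2 hr0, Or.inl hr0'⟩⟩
      have two : ∀ r, r < p → r0 ≠ r → QBP (Qc W n0) α β j j' p r → 2 ≤ ν := by
        intro r hr hne hq
        rw [hν]
        unfold nuB
        have h1 : ({r0, r} : Finset ℕ) ⊆ (range p).filter (fun m => QBP (Qc W n0) α β j j' p m) := by
          intro m hm
          rw [mem_insert, mem_singleton] at hm
          rcases hm with rfl | rfl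
          · exact mem_filter.2 ⟨mem_range.2 hr0, Or.inl hr0'⟩
          · exact mem_filter.2 ⟨mem_range.2 hr, hq⟩
        have h2 := card_le_card h1
        rw [card_pair hne] at h2
        exact h2
      -- the roots of the forms
      by_cases c1 : ¬ p ∣ a ∧ ¬ p ∣ b
      · obtain ⟨r1, hr1, hr1'⟩ := exists_root (α j) (β j) p hpp (fun h => c1.1 (h1 p hpp hw h))
        have hne1 : r0 ≠ r1 := by
          rintro rfl
          exact c1.2 (g1 p hpp hw r0 hr0' hr1')
        have hν2 : 2 ≤ ν := two r1 hr1 hne1 (Or.inr (Or.inl hr1'))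
        by_cases c2 : ¬ p ∣ a' ∧ ¬ p ∣ b'
        · by_cases c3 : p ∣ R
          · -- two roots, one factor
            have e5 : f5 = x⁻¹ := by rw [hf5, if_pos ⟨hw, c3⟩]
            have m1 : (2 : ℝ) / p ≤ (ν : ℝ) / p := div_le_div_of_nonneg_right (by exact_mod_cast hν2) hp0.le
            have m2 : x ^ 3 * (1 * 1 * f5) ≤ x ^ 3 * (f1 * f2 * (f3 * f4) * f5) := by
              apply mul_le_mul_of_nonneg_left _ (by positivity)
              apply mul_le_mul_of_nonneg_right _ (by linarith)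
              exact mul_le_mul k12 k34 (by norm_num) (by linarith)
            have m3 : x ^ 3 * (1 * 1 * f5) = x ^ 2 := by
              rw [e5]
              calc x ^ 3 * (1 * 1 * x⁻¹) = x ^ 2 * (x * x⁻¹) := by ring
                _ = x ^ 2 := by rw [hxx, mul_one]
            have e6 : 2 * (1 / (p : ℝ)) = 2 / p := by ring
            rw [e6] at hb2
            linarith
          · -- three roots
            obtain ⟨r2, hr2, hr2'⟩ := exists_root (α j') (β j') p hpp (fun h => c2.1 (h2 p hpp hw h))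
            have hne2 : r0 ≠ r2 := by
              rintro rfl
              exact c2.2 (g2 p hpp hw r0 hr0' hr2')
            have hne3 : r1 ≠ r2 := by
              rintro rfl
              exact c3 (h3 p hpp hw (common_dvd α β j j' r1 p hr1' hr2'))
            have hν3 : 3 ≤ ν := by
              rw [hν]
              unfold nuB
              have q1 : ({r0, r1, r2} : Finset ℕ) ⊆
                  (range p).filter (fun m => QBP (Qc W n0) α β j j' p m) := by
                intro m hm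
                rw [mem_insert, mem_insert, mem_singleton] at hm
                rcases hm with rfl | rfl | rfl
                · exact mem_filter.2 ⟨mem_range.2 hr0, Or.inl hr0'⟩
                · exact mem_filter.2 ⟨mem_range.2 hr1, Or.inr (Or.inl hr1')⟩
                · exact mem_filter.2 ⟨mem_range.2 hr2, Or.inr (Or.inr hr2')⟩
              have q2 := card_le_card q1
              have q3 : ({r0, r1, r2} : Finset ℕ).card = 3 := card_eq_three.2 ⟨r0, r1, r2, hne1, hne2, hne3, rfl⟩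
              rw [q3] at q2
              exact q2
            have m1 : (3 : ℝ) / p ≤ (ν : ℝ) / p := div_le_div_of_nonneg_right (by exact_mod_cast hν3) hp0.le
            have m2 : x ^ 3 * 1 ≤ x ^ 3 * (f1 * f2 * (f3 * f4) * f5) := by
              apply mul_le_mul_of_nonneg_left _ (by positivity)
              exact one_le_mul_of_one_le_of_one_le (one_le_mul_of_one_le_of_one_le k12 k34) k5
            have e6 : 3 * (1 / (p : ℝ)) = 3 / p := by ring
            rw [e6] at hb3
            linarith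
        · -- two roots, one factor
          have k34' : x⁻¹ ≤ f3 * f4 := by
            rw [not_and_or, not_not, not_not] at c2
            rcases c2 with c2 | c2
            · have : f3 = x⁻¹ := by rw [hf3, if_pos ⟨hw, c2⟩]
              rw [this]
              exact le_mul_of_one_le_right (by linarith) k4
            · have : f4 = x⁻¹ := by rw [hf4, if_pos ⟨hw, c2⟩]
              rw [this]
              exact le_mul_of_one_le_left (by linarith) k3
          have m1 : (2 : ℝ) / p ≤ (ν : ℝ) / p := div_le_div_of_nonneg_right (by exact_mod_cast hν2) hp0.le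
          have m2 : x ^ 3 * (1 * x⁻¹ * 1) ≤ x ^ 3 * (f1 * f2 * (f3 * f4) * f5) := by
            apply mul_le_mul_of_nonneg_left _ (by positivity)
            apply mul_le_mul _ k5 (by norm_num) (by positivity)
            exact mul_le_mul k12 k34' (by linarith) (by linarith)
          have m3 : x ^ 3 * (1 * x⁻¹ * 1) = x ^ 2 := by
            calc x ^ 3 * (1 * x⁻¹ * 1) = x ^ 2 * (x * x⁻¹) := by ring
              _ = x ^ 2 := by rw [hxx, mul_one]
          have e6 : 2 * (1 / (p : ℝ)) = 2 / p := by ring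
          rw [e6] at hb2
          linarith
      · have k12' : x⁻¹ ≤ f1 * f2 := by
          rw [not_and_or, not_not, not_not] at c1
          rcases c1 with c1 | c1
          · have : f1 = x⁻¹ := by rw [hf1, if_pos ⟨hw, c1⟩]
            rw [this]
            exact le_mul_of_one_le_right (by linarith) k2
          · have : f2 = x⁻¹ := by rw [hf2, if_pos ⟨hw, c1⟩]
            rw [this]
            exact le_mul_of_one_le_left (by linarith) k1
        by_cases c2 : ¬ p ∣ a' ∧ ¬ p ∣ b'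
        · obtain ⟨r2, hr2, hr2'⟩ := exists_root (α j') (β j') p hpp (fun h => c2.1 (h2 p hpp hw h))
          have hne2 : r0 ≠ r2 := by
            rintro rfl
            exact c2.2 (g2 p hpp hw r0 hr0' hr2')
          have hν2 : 2 ≤ ν := two r2 hr2 hne2 (Or.inr (Or.inr hr2'))
          have m1 : (2 : ℝ) / p ≤ (ν : ℝ) / p := div_le_div_of_nonneg_right (by exact_mod_cast hν2) hp0.le
          have m2 : x ^ 3 * (x⁻¹ * 1 * 1) ≤ x ^ 3 * (f1 * f2 * (f3 * f4) * f5) := by
            apply mul_le_mul_of_nonneg_left _ (by positivity)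
            apply mul_le_mul _ k5 (by norm_num) (by positivity)
            exact mul_le_mul k12' k34 (by norm_num) (by linarith)
          have m3 : x ^ 3 * (x⁻¹ * 1 * 1) = x ^ 2 := by
            calc x ^ 3 * (x⁻¹ * 1 * 1) = x ^ 2 * (x * x⁻¹) := by ring
              _ = x ^ 2 := by rw [hxx, mul_one]
          have e6 : 2 * (1 / (p : ℝ)) = 2 / p := by ring
          rw [e6] at hb2
          linarith
        · -- one root, two factors
          have k34' : x⁻¹ ≤ f3 * f4 := by
            rw [not_and_or, not_not, not_not] at c2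
            rcases c2 with c2 | c2
            · have : f3 = x⁻¹ := by rw [hf3, if_pos ⟨hw, c2⟩]
              rw [this]
              exact le_mul_of_one_le_right (by linarith) k4
            · have : f4 = x⁻¹ := by rw [hf4, if_pos ⟨hw, c2⟩]
              rw [this]
              exact le_mul_of_one_le_left (by linarith) k3
          have m1 : (1 : ℝ) / p ≤ (ν : ℝ) / p := div_le_div_of_nonneg_right (by exact_mod_cast hν1) hp0.le
          have m2 : x ^ 3 * (x⁻¹ * x⁻¹ * 1) ≤ x ^ 3 * (f1 * f2 * (f3 * f4) * f5) := by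
            apply mul_le_mul_of_nonneg_left _ (by positivity)
            apply mul_le_mul _ k5 (by norm_num) (by positivity)
            exact mul_le_mul k12' k34' (by linarith) (by linarith)
          have m3 : x ^ 3 * (x⁻¹ * x⁻¹ * 1) = x := by
            calc x ^ 3 * (x⁻¹ * x⁻¹ * 1) = x * (x * x⁻¹) * (x * x⁻¹) := by ring
              _ = x := by rw [hxx, mul_one, mul_one]
          linarith
    · rw [if_neg hw, if_neg (fun h => hw h.1), if_neg (fun h => hw h.1), if_neg (fun h => hw h.1),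
        if_neg (fun h => hw h.1), if_neg (fun h => hw h.1)]
      have : (0 : ℝ) ≤ (ν : ℝ) / p := by positivity
      norm_num
      exact this

end Pool.Agent.R490.LPf
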