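import Pool.Agent.R490.GPa
import Pool.Agent.R490.LPf

set_option autoImplicit false

/-!
# Forms indexed by the primes: the primes in the classes of a fixed modulus
-/

namespace Pool.Agent.R490.GPc

open Finset Filter
open Pool.Agent.W123.RP Pool.Agent.H373R2.T7 Pool.Agent.W123.RU Pool.Agent.TH464.PO Pool.Agent.TH464.PW
open Pool.Agent.Y879.AP Pool.Agent.R490.P3b Pool.Agent.R490.LFa Pool.Agent.R490.LFb Pool.Agent.R490.LFc
open Pool.Agent.R490.LGa Pool.Agent.R490.LGb Pool.Agent.R490.LPf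
open Pool.Agent.R490.LGe Pool.Agent.R490.GPa

lemma evN (P : ℝ → Prop) (h : ∀ᶠ x : ℝ in Filter.atTop, P x) : ∃ N₀ : ℕ, ∀ N : ℕ, N₀ ≤ N → P N := by
  obtain ⟨x0, hx0⟩ := Filter.eventually_atTop.1 h
  exact ⟨⌈x0⌉₊, fun N hN => hx0 N ((Nat.le_ceil _).trans (by exact_mod_cast hN))⟩

lemma ev_pow (k : ℕ) (c : ℝ) (s : ℝ) (hs : 0 < s) : ∀ᶠ x : ℝ in Filter.atTop, c * Real.log x ^ k ≤ x ^ s := by
  have h1 : (fun x : ℝ => Real.log x ^ (k : ℝ)) =o[Filter.atTop] fun x : ℝ => x ^ s :=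
    isLittleO_log_rpow_rpow_atTop (k : ℝ) hs
  have h3 := (h1.const_mul_left c).def (c := 1) one_pos
  filter_upwards [h3, Filter.eventually_ge_atTop (1 : ℝ)] with x hx hx1
  rw [one_mul, Real.norm_of_nonneg (Real.rpow_nonneg (by linarith) _), Real.rpow_natCast] at hx
  exact (le_abs_self _).trans hx

/-- Siegel-Walfisz for the number of primes in a progression -/
lemma sw_pi (U K : ℕ) : ∃ y0 : ℕ, ∀ y : ℕ, y0 ≤ y → ∀ q : ℕ, 1 ≤ q → (q : ℝ) ≤ Real.log y ^ K →
    ∀ c : ℕ, c < q → c.Coprime q →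
    |H343E.piAP y q c - H343E.pi1 y / (Nat.totient q : ℝ)| ≤ y / Real.log y ^ U := by
  obtain ⟨B, X0, h0⟩ := H343E.primes_of U (H343E.unsmoothed (U + 2))
  obtain ⟨x1, h1⟩ := evN _ (ev_pow (2 * K + B) 1 1 one_pos)
  obtain ⟨x2, h2⟩ := evN _ (Real.tendsto_log_atTop.eventually_ge_atTop 1)
  refine ⟨max (max X0 x1) (max x2 1), fun y hy q hq hqy c hc hcop => ?_⟩
  have hy0 : X0 ≤ y := le_trans (le_trans (le_max_left _ _) (le_max_left _ _)) hy
  have hy1 : x1 ≤ y := le_trans (le_trans (le_max_right _ _) (le_max_left _ _)) hy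
  have hy2 : x2 ≤ y := le_trans (le_trans (le_max_left _ _) (le_max_right _ _)) hy
  have hy3 : 1 ≤ y := le_trans (le_trans (le_max_right _ _) (le_max_right _ _)) hy
  have hyR : (1 : ℝ) ≤ y := by exact_mod_cast hy3
  have hL := h2 y hy2
  have hL0 : 0 < Real.log y := by linarith
  have hA := h1 y hy1
  rw [one_mul, pow_add, pow_mul', Real.rpow_one] at hA
  have hq1 : (1 : ℝ) ≤ q := by exact_mod_cast hq
  have hD2 : (q : ℝ) ^ 2 ≤ 1 * y / Real.log y ^ B := by
    rw [le_div_iff₀ (by positivity), one_mul]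
    refine le_trans ?_ hA
    gcongr
  have hD1 : (q : ℝ) ≤ y / Real.log y ^ B := by
    rw [one_mul] at hD2
    refine le_trans ?_ hD2
    nlinarith
  have h4 := h0 y hy0 1 le_rfl q hD1 hD2 (fun q' => if q' = q then {c} else ∅)
    ⟨fun q' a ha => by
      split_ifs at ha with hh
      · rw [mem_singleton] at ha
        rw [ha, hh]
        exact ⟨hc, hcop⟩
      · simp at ha, fun q' => by
      split_ifs <;> simp⟩
  rw [one_mul] at h4
  refine le_trans ?_ h4
  have h5 := single_le_sum (f := fun q' => ∑ a ∈ (if q' = q then ({c} : Finset ℕ) else ∅),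
    |H343E.piAP y q' a - H343E.pi1 y / (Nat.totient q' : ℝ)|)
    (s := Icc 1 q) (fun i _ => sum_nonneg (fun _ _ => abs_nonneg _)) (mem_Icc.2 ⟨hq, le_rfl⟩)
  refine le_trans (le_of_eq ?_) h5
  simp

open Classical in
/-- the primes of a class of a fixed modulus -/
lemma fixed_mod (W : ℕ) (ε : ℝ) (hε : 0 < ε) : ∃ K0 : ℕ, ∀ K : ℕ, K0 ≤ K → ∀ D : ℕ, 1 ≤ D → D ≤ W →
    ∀ n : ℕ, n.Coprime D →
    |(((Pr (pn K)).filter (fun p => p ≡ n [MOD D])).card : ℝ) - K / (Nat.totient D : ℝ)| ≤ ε * K := by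
  obtain ⟨y0, h0⟩ := sw_pi 2 1
  obtain ⟨x1, h1⟩ := evN _ (Real.tendsto_log_atTop.eventually_ge_atTop (max (W : ℝ) (max 1 (2 / ε))))
  obtain ⟨X0, hX0, h3⟩ := Pool.Agent.H357R2.SI.pnt (1 / 2) (by norm_num)
  refine ⟨y0 + x1 + X0 + 3, ?_⟩
  intro K hK D hD hDW n hn
  have hK1 : 1 ≤ K := by omega
  obtain ⟨P, hP⟩ : ∃ P, P = pn K := ⟨_, rfl⟩
  have hPK : K ≤ P := by rw [hP]; exact pn_ge K hK1
  have hlog := h1 P (by omega)
  have hW : (W : ℝ) ≤ Real.log P := (le_max_left _ _).trans hlog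
  have hl1 : 1 ≤ Real.log P := (le_max_left _ _).trans ((le_max_right _ _).trans hlog)
  have hlε : 2 / ε ≤ Real.log P := (le_max_right _ _).trans ((le_max_right _ _).trans hlog)
  have hP0 : (0 : ℝ) < P := by exact_mod_cast (by omega : 0 < P)
  have h2 := h0 P (by omega) D hD (by
    rw [pow_one]
    have : (D : ℝ) ≤ W := by exact_mod_cast hDW
    linarith) (n % D) (Nat.mod_lt _ (by omega)) (by
      have := hn
      rw [Nat.coprime_iff_gcd_eq_one] at this ⊢
      rw [← Nat.gcd_rec, Nat.gcd_comm]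
      exact this)
  have e1 : H343E.pi1 P = K := by
    unfold H343E.pi1
    have : (Icc 1 P).filter (fun p => p.Prime) = Pr P := rfl
    rw [this, hP, card_Pr K hK1]
  have e2 : H343E.piAP P D (n % D) = (((Pr P).filter (fun p => p ≡ n [MOD D])).card : ℝ) := by
    unfold H343E.piAP Pr
    rw [filter_filter]
    congr 2
    apply filter_congr
    intro p _
    constructor
    · rintro ⟨a1, a2⟩
      exact ⟨a1, a2.trans (Nat.mod_modEq n D)⟩
    · rintro ⟨a1, a2⟩
      exact ⟨a1, a2.trans (Nat.mod_modEq n D).symm⟩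
  rw [e1, e2] at h2
  rw [← hP]
  refine h2.trans ?_
  have h5 : (P : ℝ) / Real.log P ≤ 2 * K := by
    have a1 := (h3 P (by omega)).1
    have a2 : Nat.primeCounting P = K := by
      rw [hP]
      unfold pn
      have : Nat.primeCounting (Nat.nth Nat.Prime (K - 1)) = Nat.count Nat.Prime (Nat.nth Nat.Prime (K - 1) + 1) := rfl
      rw [this, Nat.count_succ, if_pos (Nat.prime_nth_prime _),
        Nat.count_nth_of_infinite Nat.infinite_setOfPred_prime]
      omega
    rw [a2] at a1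
    have e : (1 - 1 / 2) * (P : ℝ) / Real.log P = (P / Real.log P) / 2 := by ring
    rw [e] at a1
    linarith
  have hl0 : 0 < Real.log P := by linarith
  have e3 : (P : ℝ) / Real.log P ^ 2 = (P / Real.log P) / Real.log P := by
    rw [sq, div_div]
  rw [e3, div_le_iff₀ hl0]
  have h6 : 2 ≤ ε * Real.log P := by
    rw [div_le_iff₀ hε] at hlε
    linarith
  have hK0 : (0 : ℝ) ≤ K := Nat.cast_nonneg _
  nlinarith [mul_le_mul_of_nonneg_right h6 hK0]

/-- the totient of a product of primes -/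
lemma totient_prod (U : Finset ℕ) (hU : ∀ p ∈ U, p.Prime) :
    ((Nat.totient (∏ p ∈ U, p) : ℕ) : ℝ) = ∏ p ∈ U, ((p : ℝ) - 1) := by
  classical
  induction U using Finset.induction_on with
  | empty => simp
  | insert a U ha ih =>
    have hap := hU a (mem_insert_self a U)
    have hU' : ∀ p ∈ U, p.Prime := fun p hp => hU p (mem_insert_of_mem hp)
    rw [prod_insert ha, prod_insert ha, Nat.totient_mul, Nat.totient_prime hap]
    · push_cast
      rw [ih hU', Nat.cast_sub hap.one_lt.le, Nat.cast_one]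
    · apply Nat.Coprime.prod_right
      intro p hp
      rw [Nat.coprime_primes hap (hU' p hp)]
      rintro rfl
      exact ha hp

open Classical in
/-- the primes `p` with `n - b p` without small prime factors, from below; `S` the relevant primes -/
lemma low_S (S : Finset ℕ) (hS : ∀ l ∈ S, l.Prime) (T : Finset ℕ) (n : ℕ → ℕ) (K ε : ℝ)
    (h : ∀ U ⊆ S, |((T.filter (fun p => ∀ l ∈ U, p ≡ n l [MOD l])).card : ℝ) -
      K / (∏ l ∈ U, ((l : ℝ) - 1))| ≤ ε) :
    K * ∏ l ∈ S, (1 - 1 / ((l : ℝ) - 1)) - 2 ^ S.card * ε ≤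
      ((T.filter (fun p => ∀ l ∈ S, ¬ p ≡ n l [MOD l])).card : ℝ) := by
  have h1 : ((T.filter (fun p => ∀ l ∈ S, ¬ p ≡ n l [MOD l])).card : ℝ) =
      ∑ U ∈ S.powerset, (-1) ^ U.card * ((T.filter (fun p => ∀ l ∈ U, p ≡ n l [MOD l])).card : ℝ) := by
    have e1 : ∀ p, (if (∀ l ∈ S, ¬ p ≡ n l [MOD l]) then (1 : ℝ) else 0) =
        ∑ U ∈ S.powerset, (-1) ^ U.card * (if (∀ l ∈ U, p ≡ n l [MOD l]) then (1 : ℝ) else 0) := by
      intro p
      have e2 : (if (∀ l ∈ S, ¬ p ≡ n l [MOD l]) then (1 : ℝ) else 0) =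
          ∏ l ∈ S, (1 + -(if p ≡ n l [MOD l] then (1 : ℝ) else 0)) := by
        split_ifs with hh
        · symm
          apply prod_eq_one
          intro l hl
          rw [if_neg (hh l hl)]
          simp
        · push Not at hh
          obtain ⟨l, hl, hl2⟩ := hh
          symm
          apply prod_eq_zero hl
          rw [if_pos hl2]
          norm_num
      rw [e2, prod_one_add]
      apply sum_congr rfl
      intro U _
      rw [prod_neg]
      congr 1
      by_cases hh : ∀ l ∈ U, p ≡ n l [MOD l]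
      · rw [if_pos hh]
        exact prod_eq_one fun l hl => if_pos (hh l hl)
      · rw [if_neg hh]
        push Not at hh
        obtain ⟨l, hl, hl2⟩ := hh
        exact prod_eq_zero hl (if_neg hl2)
    rw [card_filter]
    push_cast
    rw [sum_congr rfl (fun p _ => e1 p), sum_comm]
    apply sum_congr rfl
    intro U _
    rw [← mul_sum, card_filter]
    push_cast
    rfl
  have h2 : K * ∏ l ∈ S, (1 - 1 / ((l : ℝ) - 1)) =
      ∑ U ∈ S.powerset, (-1) ^ U.card * (K / (∏ l ∈ U, ((l : ℝ) - 1))) := by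
    have e2 : ∏ l ∈ S, (1 - 1 / ((l : ℝ) - 1)) = ∏ l ∈ S, (1 + -(1 / ((l : ℝ) - 1))) := by
      apply prod_congr rfl
      intro l _
      ring
    rw [e2, prod_one_add, mul_sum]
    apply sum_congr rfl
    intro U _
    rw [prod_neg]
    have e3 : ∏ l ∈ U, (1 / ((l : ℝ) - 1)) = (∏ l ∈ U, ((l : ℝ) - 1))⁻¹ := by
      rw [← prod_inv_distrib]
      apply prod_congr rfl
      intro l _
      rw [one_div]
    rw [e3]
    ring
  rw [h1, h2]
  have h3 : |∑ U ∈ S.powerset, (-1) ^ U.card * ((T.filter (fun p => ∀ l ∈ U, p ≡ n l [MOD l])).card : ℝ) -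
      ∑ U ∈ S.powerset, (-1) ^ U.card * (K / (∏ l ∈ U, ((l : ℝ) - 1)))| ≤ 2 ^ S.card * ε := by
    rw [← sum_sub_distrib]
    refine (abs_sum_le_sum_abs _ _).trans ?_
    have h4 : ∀ U ∈ S.powerset, |(-1) ^ U.card * ((T.filter (fun p => ∀ l ∈ U, p ≡ n l [MOD l])).card : ℝ) -
        (-1) ^ U.card * (K / (∏ l ∈ U, ((l : ℝ) - 1)))| ≤ ε := by
      intro U hU
      rw [← mul_sub, abs_mul, abs_pow, abs_neg, abs_one, one_pow, one_mul]
      exact h U (mem_powerset.1 hU)
    refine (sum_le_card_nsmul _ _ _ h4).trans ?_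
    rw [nsmul_eq_mul, card_powerset]
    push_cast
    exact le_rfl
  have h5 := (abs_le.1 h3).1
  linarith

/-- the main term -/
lemma main_low (S : Finset ℕ) (w : ℕ) (hS : S ⊆ pz w) (h2 : 2 ∉ S) :
    Vz w / 4 ≤ ∏ l ∈ S, (1 - 1 / ((l : ℝ) - 1)) := by
  classical
  have hl3 : ∀ l ∈ S, (3 : ℝ) ≤ l := by
    intro l hl
    have hp := (mem_pz.1 (hS hl)).2
    have : l ≠ 2 := by
      rintro rfl
      exact h2 hl
    have h3 : 3 ≤ l := by
      have := hp.two_le
      omega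
    exact_mod_cast h3
  have e1 : ∏ l ∈ S, (1 - 1 / ((l : ℝ) - 1)) =
      (∏ l ∈ S, (1 - 1 / (l : ℝ))) * ∏ l ∈ S, (1 - (fun l : ℕ => 1 / ((l : ℝ) - 1) ^ 2) l) := by
    rw [← prod_mul_distrib]
    apply prod_congr rfl
    intro l hl
    have := hl3 l hl
    have a1 : (l : ℝ) - 1 ≠ 0 := by linarith
    have a2 : (l : ℝ) ≠ 0 := by linarith
    field_simp
    ring
  rw [e1]
  have h3 : Vz w ≤ ∏ l ∈ S, (1 - 1 / (l : ℝ)) := by
    unfold Vz
    rw [← prod_sdiff hS]
    apply mul_le_of_le_one_left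
    · exact prod_nonneg fun p hp => (one_sub_pos (mem_pz.1 (hS hp)).2).1.le
    · exact prod_le_one (fun p hp => (one_sub_pos (mem_pz.1 (mem_sdiff.1 hp).1).2).1.le)
        (fun p hp => (one_sub_pos (mem_pz.1 (mem_sdiff.1 hp).1).2).2)
  have h4 : (1 / 4 : ℝ) ≤ ∏ l ∈ S, (1 - (fun l : ℕ => 1 / ((l : ℝ) - 1) ^ 2) l) := by
    refine le_trans ?_ (sum_le_prod S (fun l : ℕ => 1 / ((l : ℝ) - 1) ^ 2) (fun l _ => by positivity) ?_)
    · have h5 : ∑ l ∈ S, (fun l : ℕ => 1 / ((l : ℝ) - 1) ^ 2) l ≤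
          ∑ k ∈ Ioc 1 (max 1 w), ((k : ℝ) ^ 2)⁻¹ := by
        have e2 : ∀ l ∈ S, (fun l : ℕ => 1 / ((l : ℝ) - 1) ^ 2) l = (fun k : ℕ => ((k : ℝ) ^ 2)⁻¹) (l - 1) := by
          intro l hl
          have := (mem_pz.1 (hS hl)).2.one_lt
          show 1 / ((l : ℝ) - 1) ^ 2 = (((l - 1 : ℕ) : ℝ) ^ 2)⁻¹
          rw [Nat.cast_sub this.le, Nat.cast_one, one_div]
        rw [sum_congr rfl e2, ← sum_image (f := fun k : ℕ => ((k : ℝ) ^ 2)⁻¹) (g := fun l => l - 1) (s := S)]
        · apply sum_le_sum_of_subset_of_nonneg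
          · intro k hk
            rw [mem_image] at hk
            obtain ⟨l, hl, rfl⟩ := hk
            have a1 := mem_pz.1 (hS hl)
            have a2 := hl3 l hl
            have a3 : 3 ≤ l := by exact_mod_cast a2
            rw [mem_Ioc]
            have a4 : l ≤ max 1 w := a1.1.trans (le_max_right _ _)
            omega
          · intro k _ _
            positivity
        · intro a ha b hb hab
          have a1 := (mem_pz.1 (hS ha)).2.one_lt
          have a2 := (mem_pz.1 (hS hb)).2.one_lt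
          simp only at hab
          omega
      have h6 : ∑ k ∈ Ioc 1 (max 1 w), ((k : ℝ) ^ 2)⁻¹ ≤ 3 / 4 := by
        rcases Nat.lt_or_ge (max 1 w) 2 with h7 | h7
        · have : Ioc 1 (max 1 w) = ∅ := by
            rw [Ioc_eq_empty_iff]
            omega
          rw [this, sum_empty]
          norm_num
        · have e3 : Ioc 1 (max 1 w) = insert 2 (Ioc 2 (max 1 w)) := by
            ext k
            simp only [mem_Ioc, mem_insert]
            omega
          rw [e3, sum_insert (by simp)]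
          have h9 := sum_Ioc_inv_sq_le_sub (α := ℝ) (k := 2) (n := max 1 w) (by norm_num) h7
          have h10 : (0 : ℝ) ≤ ((max 1 w : ℕ) : ℝ)⁻¹ := by positivity
          have h11 : ((2 : ℕ) : ℝ)⁻¹ = 1 / 2 := by norm_num
          have h12 : (((2 : ℕ) : ℝ) ^ 2)⁻¹ = 1 / 4 := by norm_num
          rw [h11] at h9
          rw [h12]
          linarith
      linarith
    · intro l hl
      have := hl3 l hl
      show 1 / ((l : ℝ) - 1) ^ 2 ≤ 1
      rw [div_le_one (by nlinarith)]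
      nlinarith
  have hV0 : 0 ≤ Vz w := by
    unfold Vz
    exact prod_nonneg fun p hp => (one_sub_pos (mem_pz.1 hp).2).1.le
  calc Vz w / 4 = Vz w * (1 / 4) := by ring
    _ ≤ _ := mul_le_mul h3 h4 (by norm_num) (hV0.trans h3)

end Pool.Agent.R490.GPc
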