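import Pool.Agent.R490.GPb
import Pool.Agent.R490.GPc
import Pool.Agent.R490.LGd

set_option autoImplicit false

/-!
# The forms `n + b p` with `p` a small prime: almost primes for almost all `n`
-/

namespace Pool.Agent.R490.GPd

open Finset Filter
open Pool.Agent.W123.RP Pool.Agent.H373R2.T7 Pool.Agent.W123.RU Pool.Agent.TH464.PO Pool.Agent.TH464.PW
open Pool.Agent.Y879.AP Pool.Agent.R490.P3b Pool.Agent.R490.LGa Pool.Agent.R490.LGb Pool.Agent.R490.LGd
open Pool.Agent.R490.GPa Pool.Agent.R490.GPb Pool.Agent.R490.GPc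

/-- the classes of the first primes -/
lemma crt (U : Finset ℕ) (hU : ∀ l ∈ U, l.Prime) (r : ℕ → ℕ) (hr : ∀ l ∈ U, ¬ l ∣ r l) :
    ∃ N : ℕ, N.Coprime (∏ l ∈ U, l) ∧ ∀ p : ℕ, (∀ l ∈ U, p ≡ r l [MOD l]) ↔ p ≡ N [MOD ∏ l ∈ U, l] := by
  classical
  induction U using Finset.induction_on with
  | empty =>
    refine ⟨1, by simp, fun p => ?_⟩
    rw [prod_empty]
    exact ⟨fun _ => Nat.modEq_one, fun _ l hl => absurd hl (notMem_empty l)⟩
  | insert a U ha ih =>
    have hap := hU a (mem_insert_self a U)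
    obtain ⟨N', h1, h2⟩ := ih (fun l hl => hU l (mem_insert_of_mem hl)) (fun l hl => hr l (mem_insert_of_mem hl))
    have hco : a.Coprime (∏ l ∈ U, l) := by
      apply Nat.Coprime.prod_right
      intro l hl
      rw [Nat.coprime_primes hap (hU l (mem_insert_of_mem hl))]
      rintro rfl
      exact ha hl
    obtain ⟨N, hN1, hN2⟩ := Nat.chineseRemainder hco (r a) N'
    refine ⟨N, ?_, fun p => ?_⟩
    · rw [prod_insert ha]
      apply Nat.Coprime.mul_right
      · rw [Nat.coprime_comm, hap.coprime_iff_not_dvd]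
        intro hd
        exact hr a (mem_insert_self a U) ((hN1.dvd_iff dvd_rfl).1 hd)
      · unfold Nat.Coprime
        rw [hN2.gcd_eq]
        exact h1
    · rw [prod_insert ha, ← Nat.modEq_and_modEq_iff_modEq_mul hco]
      constructor
      · intro h
        refine ⟨(h a (mem_insert_self a U)).trans hN1.symm, ?_⟩
        exact ((h2 p).1 (fun l hl => h l (mem_insert_of_mem hl))).trans hN2.symm
      · rintro ⟨h3, h4⟩ l hl
        rcases mem_insert.1 hl with rfl | hl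
        · exact h3.trans hN1
        · exact (h2 p).2 (h4.trans hN2) l hl

/-- the root of `n + b x` -/
lemma rootZ (b : ℤ) (n l : ℕ) (hl : l.Prime) (hb : ¬ l ∣ b.natAbs) :
    ∃ r : ℕ, ∀ p : ℕ, (l : ℤ) ∣ ((1 : ℕ) : ℤ) * n + b * p ↔ p ≡ r [MOD l] := by
  have hb' : IsCoprime (l : ℤ) b := by
    rw [Int.isCoprime_iff_gcd_eq_one, Int.gcd_eq_natAbs, Int.natAbs_natCast]
    exact (Nat.Prime.coprime_iff_not_dvd hl).2 hb
  obtain ⟨u, v, huv⟩ := hb'
  have hl0 : (0 : ℤ) < l := by exact_mod_cast hl.pos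
  obtain ⟨r, hr⟩ : ∃ r : ℕ, r = ((-(n : ℤ) * v) % l).toNat := ⟨_, rfl⟩
  have hr1 : (r : ℤ) = (-(n : ℤ) * v) % l := by
    rw [hr]
    exact Int.toNat_of_nonneg (Int.emod_nonneg _ hl0.ne')
  have hr2 : (r : ℤ) ≡ -(n : ℤ) * v [ZMOD l] := by
    rw [hr1]
    exact Int.mod_modEq _ _
  have hbv : b * v ≡ 1 [ZMOD l] := by
    rw [Int.modEq_iff_dvd]
    exact ⟨u, by linarith⟩
  refine ⟨r, fun p => ?_⟩
  have h1 : b * r ≡ -(n : ℤ) [ZMOD l] := by
    calc b * r ≡ b * (-(n : ℤ) * v) [ZMOD l] := hr2.mul_left b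
      _ ≡ -(n : ℤ) * (b * v) [ZMOD l] := by
          have : b * (-(n : ℤ) * v) = -(n : ℤ) * (b * v) := by ring
          rw [this]
      _ ≡ -(n : ℤ) * 1 [ZMOD l] := hbv.mul_left _
      _ ≡ -(n : ℤ) [ZMOD l] := by rw [mul_one]
  rw [← Int.natCast_modEq_iff]
  constructor
  · intro h
    have h2 : b * p ≡ b * r [ZMOD l] := by
      refine Int.ModEq.trans ?_ h1.symm
      rw [Int.modEq_iff_dvd]
      have : -(n : ℤ) - b * p = -(((1 : ℕ) : ℤ) * n + b * p) := by push_cast; ring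
      rw [this]
      exact (dvd_neg).2 h
    rw [Int.modEq_iff_dvd] at h2 ⊢
    have h3 : (l : ℤ) ∣ b * ((r : ℤ) - p) := by
      have : b * (r : ℤ) - b * p = b * ((r : ℤ) - p) := by ring
      rwa [this] at h2
    exact (IsCoprime.dvd_of_dvd_mul_left ⟨u, v, huv⟩ h3)
  · intro h
    have h2 : b * p ≡ -(n : ℤ) [ZMOD l] := (h.mul_left b).trans h1
    rw [Int.modEq_iff_dvd] at h2
    have : ((1 : ℕ) : ℤ) * n + b * p = -(-(n : ℤ) - b * p) := by push_cast; ring
    rw [this]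
    exact (dvd_neg).2 h2

/-- the admissible `n` -/
def AdmG (b : ℤ) (n : ℕ) : Prop := n.Coprime b.natAbs ∧ ¬ (2 : ℤ) ∣ n + b

lemma datG (b : ℤ) (hb : b ≠ 0) : Dat (fun _ => 1) (fun j => b * pn j) (b.natAbs + 4) b.natAbs := by
  refine ⟨fun j _ => le_rfl, ?_, ?_, ?_, ?_⟩
  · intro j _
    exact Nat.one_le_pow _ _ (by omega)
  · intro j hj
    show (b * (pn j : ℤ)).natAbs ≤ (j + 1) ^ (b.natAbs + 4)
    rw [Int.natAbs_mul, Int.natAbs_natCast, pow_add]
    apply Nat.mul_le_mul _ (pn_le j hj)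
    have h1 : b.natAbs < 2 ^ b.natAbs := Nat.lt_two_pow_self
    have h2 : 2 ^ b.natAbs ≤ (j + 1) ^ b.natAbs := Nat.pow_le_pow_left (by omega) _
    omega
  · intro j _ p hp _ hd
    exact absurd (Nat.dvd_one.1 hd) hp.one_lt.ne'
  · intro j j' h1 h2 hne
    unfold Rs
    intro h
    have e : b * ((pn j' : ℤ) - pn j) = 0 := by
      push_cast at h
      linarith
    rcases mul_eq_zero.1 e with h3 | h3
    · exact hb h3
    · have h4 : pn j = pn j' := by
        have : (pn j : ℤ) = pn j' := by linarith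
        exact_mod_cast this
      exact hne (pn_inj h1 h2 h4)

lemma excG (b : ℤ) (hb : b ≠ 0) (w K y : ℕ) (hw : 14 ≤ w) (hbw : b.natAbs ≤ w) :
    ∑ j ∈ Icc 1 K, ∑ j' ∈ Icc 1 K, exc (fun _ => 1) (fun j => b * pn j) w y j j' ≤
      ∑ j ∈ Icc 1 K, ∑ j' ∈ Icc 1 K, (if j = j' then 0 else tw w y ((pn j : ℤ) - pn j').natAbs - 1) := by
  apply sum_le_sum
  intro j _
  apply sum_le_sum
  intro j' _
  unfold exc
  split_ifs with hne
  · exact le_rfl
  · have e : (Rs (fun _ => 1) (fun j => b * (pn j : ℤ)) j j').natAbs =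
        ((pn j : ℤ) - pn j').natAbs * b.natAbs := by
      unfold Rs
      rw [← Int.natAbs_mul, ← Int.natAbs_neg]
      congr 1
      push_cast
      ring
    rw [e]
    have a0 : tw w y 1 = 1 := tw_small w y 1 le_rfl (by omega)
    have a1 := tw_mul_le w y ((pn j : ℤ) - pn j').natAbs b.natAbs
    rw [tw_small w y b.natAbs (Nat.pos_of_ne_zero (Int.natAbs_ne_zero.2 hb)) hbw, mul_one] at a1
    rw [a0]
    linarith

open Classical in
/-- the forms without a small fixed divisor -/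
lemma jn_low (b : ℤ) (w : ℕ) : ∃ K0 : ℕ, ∀ K : ℕ, K0 ≤ K → ∀ n : ℕ, AdmG b n →
    Vz w / 8 * K ≤ ((Jn (fun _ => 1) (fun j => b * pn j) w K n).card : ℝ) := by
  have hVz0 : 0 < Vz w := by
    unfold Vz
    exact prod_pos fun p hp => (one_sub_pos (mem_pz.1 hp).2).1
  obtain ⟨K1, h1⟩ := fixed_mod (Wp w) (Vz w / (16 * 2 ^ w)) (by positivity)
  refine ⟨max (max K1 1) ⌈16 * w / Vz w⌉₊, ?_⟩
  intro K hK n hn
  have hKK1 : K1 ≤ K := (le_max_left _ _).trans ((le_max_left _ _).trans hK)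
  have hK1 : 1 ≤ K := (le_max_right _ _).trans ((le_max_left _ _).trans hK)
  have hKw : 16 * (w : ℝ) / Vz w ≤ K := by
    have a1 : ⌈16 * (w : ℝ) / Vz w⌉₊ ≤ K := (le_max_right _ _).trans hK
    exact (Nat.le_ceil _).trans (by exact_mod_cast a1)
  obtain ⟨S, hS⟩ : ∃ S, S = (pz w).filter (fun l => ¬ l ∣ n ∧ ¬ l ∣ b.natAbs) := ⟨_, rfl⟩
  have hSp : ∀ l ∈ S, l.Prime ∧ l ≤ w ∧ ¬ l ∣ n ∧ ¬ l ∣ b.natAbs := by
    intro l hl
    rw [hS, mem_filter] at hl
    have := mem_pz.1 hl.1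
    exact ⟨this.2, this.1, hl.2.1, hl.2.2⟩
  have h2S : 2 ∉ S := by
    intro h2
    obtain ⟨-, -, h3, h4⟩ := hSp 2 h2
    apply hn.2
    omega
  have hroot : ∀ l : ℕ, ∃ r : ℕ, l ∈ S → ∀ p : ℕ, (l : ℤ) ∣ ((1 : ℕ) : ℤ) * n + b * p ↔ p ≡ r [MOD l] := by
    intro l
    by_cases hl : l ∈ S
    · obtain ⟨r, hr⟩ := rootZ b n l (hSp l hl).1 (hSp l hl).2.2.2
      exact ⟨r, fun _ => hr⟩
    · exact ⟨0, fun h => absurd h hl⟩
  choose r hr using hroot
  have hr2 : ∀ l ∈ S, ¬ l ∣ r l := by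
    intro l hl hd
    have h3 := (hr l hl 0).2 ((Nat.modEq_zero_iff_dvd.2 hd).symm)
    rw [Nat.cast_zero, mul_zero, add_zero, Nat.cast_one, one_mul] at h3
    exact (hSp l hl).2.2.1 (by exact_mod_cast h3)
  have hU : ∀ U ⊆ S, |(((Pr (pn K)).filter (fun p => ∀ l ∈ U, p ≡ r l [MOD l])).card : ℝ) -
      K / (∏ l ∈ U, ((l : ℝ) - 1))| ≤ Vz w / (16 * 2 ^ w) * K := by
    intro U hUS
    have hUp : ∀ l ∈ U, l.Prime := fun l hl => (hSp l (hUS hl)).1
    obtain ⟨N, hN1, hN2⟩ := crt U hUp r (fun l hl => hr2 l (hUS hl))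
    have hD1 : 1 ≤ ∏ l ∈ U, l := Nat.pos_of_ne_zero (prod_ne_zero_iff.2 fun l hl => (hUp l hl).ne_zero)
    have hDW : ∏ l ∈ U, l ≤ Wp w := by
      unfold Wp
      apply Nat.le_of_dvd (Wp_pos w)
      apply prod_dvd_prod_of_subset
      intro l hl
      exact mem_pz.2 ⟨(hSp l (hUS hl)).2.1, hUp l hl⟩
    have h3 := h1 K hKK1 (∏ l ∈ U, l) hD1 hDW N hN1
    rw [Pool.Agent.R490.GPc.totient_prod U hUp] at h3
    have e : (Pr (pn K)).filter (fun p => ∀ l ∈ U, p ≡ r l [MOD l]) =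
        (Pr (pn K)).filter (fun p => p ≡ N [MOD ∏ l ∈ U, l]) := by
      apply filter_congr
      intro p _
      exact hN2 p
    rw [e]
    exact h3
  have h4 := low_S S (fun l hl => (hSp l hl).1) (Pr (pn K)) r K (Vz w / (16 * 2 ^ w) * K) hU
  have h5 := main_low S w (by rw [hS]; exact filter_subset _ _) h2S
  have hK0 : (0 : ℝ) ≤ K := Nat.cast_nonneg _
  have hcardS : S.card ≤ w := by
    calc S.card ≤ (pz w).card := card_le_card (by rw [hS]; exact filter_subset _ _)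
      _ ≤ (Icc 1 w).card := by
          apply card_le_card
          intro l hl
          have := mem_pz.1 hl
          rw [mem_Icc]
          exact ⟨this.2.one_lt.le, this.1⟩
      _ = w := by rw [Nat.card_Icc, Nat.add_sub_cancel]
  have h6 : (2 : ℝ) ^ S.card * (Vz w / (16 * 2 ^ w) * K) ≤ Vz w / 16 * K := by
    have a1 : (2 : ℝ) ^ S.card ≤ 2 ^ w := pow_le_pow_right₀ (by norm_num) hcardS
    calc (2 : ℝ) ^ S.card * (Vz w / (16 * 2 ^ w) * K) ≤ 2 ^ w * (Vz w / (16 * 2 ^ w) * K) :=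
          mul_le_mul_of_nonneg_right a1 (by positivity)
      _ = Vz w / 16 * K := by
          field_simp
  have h7 : Vz w / 4 * K ≤ K * ∏ l ∈ S, (1 - 1 / ((l : ℝ) - 1)) := by
    rw [mul_comm]
    exact mul_le_mul_of_nonneg_left h5 hK0
  have h8 : (w : ℝ) ≤ Vz w / 16 * K := by
    rw [div_le_iff₀ hVz0] at hKw
    linarith
  -- comparison with `Jn`
  have h9 : ((Pr (pn K)).filter (fun p => ∀ l ∈ S, ¬ p ≡ r l [MOD l])).card ≤
      (Jn (fun _ => 1) (fun j => b * pn j) w K n).card + w := by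
    have hsub : (Pr (pn K)).filter (fun p => ∀ l ∈ S, ¬ p ≡ r l [MOD l]) ⊆
        (Jn (fun _ => 1) (fun j => b * pn j) w K n).image pn ∪ Icc 1 w := by
      intro p hp
      rw [mem_filter] at hp
      obtain ⟨hp1, hp2⟩ := hp
      have hpp := (mem_Pr.1 hp1).2
      rw [mem_union]
      rcases Nat.lt_or_ge w p with hwp | hwp
      · left
        rw [← image_pn K hK1, mem_image] at hp1
        obtain ⟨j, hj, rfl⟩ := hp1
        rw [mem_image]
        refine ⟨j, ?_, rfl⟩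
        unfold Jn
        rw [mem_filter]
        refine ⟨hj, ?_⟩
        intro l hl hlw hd
        by_cases hln : l ∣ n
        · have h10 : (l : ℤ) ∣ b * pn j := by
            have a1 : (l : ℤ) ∣ ((1 : ℕ) : ℤ) * n := Dvd.dvd.mul_left (by exact_mod_cast hln) _
            exact (dvd_add_right a1).1 hd
          rcases (Nat.prime_iff_prime_int.1 hl).dvd_or_dvd h10 with h11 | h11
          · have h12 : l ∣ b.natAbs := Int.natCast_dvd.1 h11
            have h13 := Nat.dvd_gcd hln h12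
            rw [show n.gcd b.natAbs = 1 from hn.1] at h13
            exact hl.one_lt.ne' (Nat.dvd_one.1 h13)
          · have h12 : l ∣ pn j := by exact_mod_cast h11
            have h13 := (Nat.prime_dvd_prime_iff_eq hl hpp).1 h12
            omega
        · by_cases hlb : l ∣ b.natAbs
          · have h10 : (l : ℤ) ∣ ((1 : ℕ) : ℤ) * n := by
              have a1 : (l : ℤ) ∣ b * pn j := Dvd.dvd.mul_right (Int.natCast_dvd.2 hlb) _
              exact (dvd_add_left a1).1 hd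
            rw [Nat.cast_one, one_mul] at h10
            exact hln (by exact_mod_cast h10)
          · have hlS : l ∈ S := by
              rw [hS, mem_filter]
              exact ⟨mem_pz.2 ⟨hlw, hl⟩, hln, hlb⟩
            exact hp2 l hlS ((hr l hlS (pn j)).1 hd)
      · right
        rw [mem_Icc]
        exact ⟨hpp.one_lt.le, hwp⟩
    refine (card_le_card hsub).trans ((card_union_le _ _).trans ?_)
    rw [Nat.card_Icc, Nat.add_sub_cancel]
    exact Nat.add_le_add_right card_image_le w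
  have h10 : (((Pr (pn K)).filter (fun p => ∀ l ∈ S, ¬ p ≡ r l [MOD l])).card : ℝ) ≤
      ((Jn (fun _ => 1) (fun j => b * pn j) w K n).card : ℝ) + w := by exact_mod_cast h9
  linarith

open Classical in
/-- **Almost all admissible `n` are `P_k - b p` with a tiny prime `p`.** -/
theorem mainG (b : ℤ) (hb : b ≠ 0) (θ ε : ℝ) (k : ℕ) (hθ : 0 < θ) (hθ1 : θ ≤ 1)
    (hk : 1 / 8 + 25 / (12 * θ) < k) (hε : 0 < ε) :
    ∃ κ Λ : ℝ, 0 < κ ∧ 0 < Λ ∧ ∀ l : ℝ, Λ ≤ l → ∀ᶠ X : ℕ in atTop, ∀ Z L : ℕ,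
      (X : ℝ) ^ θ ≤ L → Z + L ≤ X →
      (((Ioc Z (Z + L)).filter (fun n => AdmG b n ∧
        (cnt (fun _ => 1) (fun j => b * pn j) k ⌊l * Real.log X⌋₊ n ((X : ℝ) ^ (θ / 10)) : ℝ) < κ * l)).card : ℝ) ≤
        ε * L := by
  refine mainH (datG b hb) (AdmG b) ?_ θ ε k hθ hθ1 hk hε
  intro η hη
  obtain ⟨C, K1, hC, hex⟩ := exc_pn
  obtain ⟨cz, C', hcz, hC', hV⟩ := Vz_bounds
  have ev := logpow_rpow 2 (64 * C / (η * cz ^ 2)) (1 / 2) (by positivity) (by norm_num)
  obtain ⟨w, hw1, hw2⟩ := (ev.and (eventually_ge_atTop (b.natAbs + 14))).exists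
  have hw0 : (0 : ℝ) < w := by exact_mod_cast (by omega : 0 < w)
  have hlw : 0 < Real.log w := Real.log_pos (by exact_mod_cast (by omega : 1 < w))
  have hVz : cz / Real.log w ≤ Vz w := (hV w (by omega)).1
  have hVz0 : 0 < Vz w := lt_of_lt_of_le (by positivity) hVz
  obtain ⟨K2, hlow⟩ := jn_low b w
  refine ⟨w, K1 + K2, Vz w / 8, by omega, by positivity, ?_⟩
  intro K hK
  constructor
  · intro y
    refine (excG b hb w K y (by omega) (by omega)).trans ((hex K (by omega) w y (by omega)).trans ?_)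
    have hs0 : 0 < √(w : ℝ) := Real.sqrt_pos.2 hw0
    rw [← Real.sqrt_eq_rpow] at hw1
    have a1 : (cz / Real.log w) ^ 2 ≤ Vz w ^ 2 := pow_le_pow_left₀ (by positivity) hVz 2
    have a2 : C / √(w : ℝ) ≤ η * (Vz w / 8) ^ 2 := by
      rw [div_le_iff₀ hs0]
      rw [div_mul_eq_mul_div, div_le_iff₀ (by positivity)] at hw1
      have a3 : cz ^ 2 ≤ Vz w ^ 2 * Real.log w ^ 2 := by
        rw [div_pow, div_le_iff₀ (by positivity)] at a1
        exact a1
      have a4 : 64 * C * Real.log w ^ 2 ≤ √(w : ℝ) * (η * (Vz w ^ 2 * Real.log w ^ 2)) := by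
        refine hw1.trans ?_
        apply mul_le_mul_of_nonneg_left _ hs0.le
        exact mul_le_mul_of_nonneg_left a3 hη.le
      have a5 : √(w : ℝ) * (η * (Vz w ^ 2 * Real.log w ^ 2)) =
          64 * (η * (Vz w / 8) ^ 2 * √(w : ℝ)) * Real.log w ^ 2 := by ring
      rw [a5] at a4
      have a6 : 0 < Real.log w ^ 2 := by positivity
      have a7 := le_of_mul_le_mul_right a4 a6
      linarith
    calc C * (K : ℝ) ^ 2 / √(w : ℝ) = C / √(w : ℝ) * (K : ℝ) ^ 2 := by ring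
      _ ≤ η * (Vz w / 8) ^ 2 * (K : ℝ) ^ 2 := mul_le_mul_of_nonneg_right a2 (sq_nonneg _)
      _ = η * (Vz w / 8 * K) ^ 2 := by ring
  · intro n hn
    exact hlow K (by omega) n hn

end Pool.Agent.R490.GPd
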