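import Pool.Agent.R490.LPi

set_option autoImplicit false

/-!
# The forms `n + b j`: almost primes near almost all primes
-/

namespace Pool.Agent.R490.GPe

open Finset Filter
open Pool.Agent.W123.RP Pool.Agent.H373R2.T7 Pool.Agent.W123.RU Pool.Agent.TH464.PO Pool.Agent.TH464.PW
open Pool.Agent.Y879.AP Pool.Agent.R490.P3b Pool.Agent.R490.P3i Pool.Agent.R490.LGa Pool.Agent.R490.LGb
open Pool.Agent.R490.LGd Pool.Agent.R490.LGe
open Pool.Agent.R490.LPg Pool.Agent.R490.LPh Pool.Agent.R490.LPi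

lemma datS (b : ℤ) (hb : b ≠ 0) : Dat (fun _ => 1) (fun j => b * (j : ℤ)) (b.natAbs + 1) 0 := by
  refine ⟨fun j _ => le_rfl, ?_, ?_, ?_, ?_⟩
  · intro j _
    exact Nat.one_le_pow _ _ (by omega)
  · intro j hj
    show (b * (j : ℤ)).natAbs ≤ (j + 1) ^ (b.natAbs + 1)
    rw [Int.natAbs_mul, Int.natAbs_natCast, pow_succ]
    apply Nat.mul_le_mul _ (by omega)
    have h1 : b.natAbs < 2 ^ b.natAbs := Nat.lt_two_pow_self
    have h2 : 2 ^ b.natAbs ≤ (j + 1) ^ b.natAbs := Nat.pow_le_pow_left (by omega) _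
    omega
  · intro j _ p hp _ hd
    exact absurd (Nat.dvd_one.1 hd) hp.one_lt.ne'
  · intro j j' _ _ hne
    unfold Rs
    intro h
    have e : b * ((j' : ℤ) - j) = 0 := by
      push_cast at h
      linarith
    rcases mul_eq_zero.1 e with h3 | h3
    · exact hb h3
    · exact hne (by omega)

lemma excS (b : ℤ) (hb : b ≠ 0) (w K y : ℕ) (hw : 14 ≤ w) (hbw : b.natAbs ≤ w) :
    ∑ j ∈ Icc 1 K, ∑ j' ∈ Icc 1 K, excB (fun _ => 1) (fun j => b * (j : ℤ)) w y j j' ≤ 38 * (K : ℝ) ^ 2 / w := by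
  have hw0 : (0 : ℝ) < w := by exact_mod_cast (by omega : 0 < w)
  obtain ⟨G, hG⟩ : ∃ G, G = ∑ n ∈ Icc 1 K, (tw w y n ^ 3 - 1) := ⟨_, rfl⟩
  have hG1 : G ≤ 28 * K / w := by rw [hG]; exact sum_ex w y K hw
  have ht1 : tw w y 1 = 1 := tw_small w y 1 le_rfl (by omega)
  have htb : tw w y b.natAbs = 1 := tw_small w y _ (Nat.pos_of_ne_zero (Int.natAbs_ne_zero.2 hb)) hbw
  have h1 : ∀ j ∈ Icc 1 K, ∀ j' ∈ Icc 1 K, excB (fun _ => 1) (fun j => b * (j : ℤ)) w y j j' ≤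
      ((tw w y j ^ 3 - 1) + (tw w y j' ^ 3 - 1) +
        (if j = j' then 0 else (tw w y ((j : ℤ) - j').natAbs ^ 3 - 1))) / 3 := by
    intro j _ j' _
    unfold excB
    split_ifs with hne
    · have a1 := cube_ge w y j
      have a2 := cube_ge w y j'
      linarith
    · have e : (Rs (fun _ => 1) (fun j => b * (j : ℤ)) j j').natAbs = ((j : ℤ) - j').natAbs * b.natAbs := by
        unfold Rs
        rw [← Int.natAbs_mul, ← Int.natAbs_neg]
        congr 1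
        push_cast
        ring
      have hB : ∀ i : ℕ, tw w y (b * (i : ℤ)).natAbs ≤ tw w y i := by
        intro i
        rw [Int.natAbs_mul, Int.natAbs_natCast]
        have := tw_mul_le w y b.natAbs i
        rwa [htb, one_mul] at this
      rw [e]
      have a1 : tw w y (((j : ℤ) - j').natAbs * b.natAbs) ≤ tw w y ((j : ℤ) - j').natAbs := by
        have := tw_mul_le w y ((j : ℤ) - j').natAbs b.natAbs
        rwa [htb, mul_one] at this
      have a4 : tw w y 1 * tw w y (b * (j : ℤ)).natAbs * (tw w y 1 * tw w y (b * (j' : ℤ)).natAbs) *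
          tw w y (((j : ℤ) - j').natAbs * b.natAbs) ≤
          tw w y j * tw w y j' * tw w y ((j : ℤ) - j').natAbs := by
        rw [ht1, one_mul, one_mul]
        apply mul_le_mul _ a1 (tw_pos _ _ _).le (mul_pos (tw_pos _ _ _) (tw_pos _ _ _)).le
        exact mul_le_mul (hB j) (hB j') (tw_pos _ _ _).le (tw_pos _ _ _).le
      have a5 := amgm3 _ _ _ (one_le_tw w y j) (one_le_tw w y j') (one_le_tw w y ((j : ℤ) - j').natAbs)
      linarith
  have h2 : ∀ j ∈ Icc 1 K, ∑ j' ∈ Icc 1 K, excB (fun _ => 1) (fun j => b * (j : ℤ)) w y j j' ≤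
      (K * (tw w y j ^ 3 - 1) + G + 2 * G) / 3 := by
    intro j hj
    refine (sum_le_sum (h1 j hj)).trans ?_
    rw [← sum_div, sum_add_distrib, sum_add_distrib, sum_const, nsmul_eq_mul, Nat.card_Icc, Nat.add_sub_cancel,
      ← hG]
    have h3 := sum_diff (fun n => tw w y n ^ 3 - 1) (cube_ge w y) K j hj
    rw [← hG] at h3
    linarith
  refine (sum_le_sum h2).trans ?_
  rw [← sum_div, sum_add_distrib, sum_add_distrib, sum_const, sum_const, nsmul_eq_mul, nsmul_eq_mul, ← mul_sum,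
    Nat.card_Icc, Nat.add_sub_cancel, ← hG]
  have h3 : (K : ℝ) * G ≤ K * (28 * K / w) := mul_le_mul_of_nonneg_left hG1 (Nat.cast_nonneg _)
  have e1 : (K : ℝ) * (28 * K / w) = 28 * ((K : ℝ) ^ 2 / w) := by ring
  have e2 : 38 * (K : ℝ) ^ 2 / w = 38 * ((K : ℝ) ^ 2 / w) := by ring
  rw [e1] at h3
  rw [e2]
  have h4 : 0 ≤ (K : ℝ) ^ 2 / w := by positivity
  linarith

/-- the admissible `n` -/
def AdmS (b : ℤ) (n : ℕ) : Prop := n.Coprime b.natAbs

lemma fewS (b : ℤ) (n : ℕ) (hn : AdmS b n) (p : ℕ) (hp : p.Prime) :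
    nuB (fun p j => (p : ℤ) ∣ ((1 : ℕ) : ℤ) * n + b * (j : ℤ)) p ≤ 1 := by
  unfold nuB
  rw [card_le_one]
  intro u hu v hv
  simp only [mem_filter, mem_range] at hu hv
  have h1 : (p : ℤ) ∣ b * ((u : ℤ) - v) := by
    have := dvd_sub hu.2 hv.2
    have e : ((1 : ℕ) : ℤ) * n + b * (u : ℤ) - (((1 : ℕ) : ℤ) * n + b * (v : ℤ)) = b * ((u : ℤ) - v) := by
      ring
    rwa [e] at this
  rcases (Nat.prime_iff_prime_int.1 hp).dvd_or_dvd h1 with h2 | h2
  · exfalso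
    have h3 : (p : ℤ) ∣ ((1 : ℕ) : ℤ) * n := by
      have a1 : (p : ℤ) ∣ b * (u : ℤ) := h2.mul_right _
      exact (dvd_add_left a1).1 hu.2
    rw [Nat.cast_one, one_mul] at h3
    have h4 : p ∣ n := by exact_mod_cast h3
    have h5 : p ∣ b.natAbs := Int.natCast_dvd.1 h2
    have h6 := Nat.dvd_gcd h4 h5
    rw [show n.gcd b.natAbs = 1 from hn] at h6
    exact hp.one_lt.ne' (Nat.dvd_one.1 h6)
  · obtain ⟨t, ht⟩ := h2
    have h3 : ((u : ℤ) - v).natAbs < p := by omega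
    have h4 : (u : ℤ) - v = 0 := Int.eq_zero_of_dvd_of_natAbs_lt_natAbs ⟨t, ht⟩ (by simpa using h3)
    omega

lemma perS (b : ℤ) (n : ℕ) (hn : AdmS b n) :
    PerB (fun p j => (p : ℤ) ∣ ((1 : ℕ) : ℤ) * n + b * (j : ℤ)) 1 := by
  refine ⟨fun p j => ?_, fun p hp => fewS b n hn p hp⟩
  have h1 : (j : ℤ) ≡ ((j % p : ℕ) : ℤ) [ZMOD p] := Int.natCast_modEq_iff.2 (Nat.mod_modEq j p).symm
  have h2 : ((1 : ℕ) : ℤ) * n + b * (j : ℤ) ≡ ((1 : ℕ) : ℤ) * n + b * ((j % p : ℕ) : ℤ) [ZMOD p] :=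
    (h1.mul_left b).add_left _
  exact h2.dvd_iff

open Classical in
/-- **The integers `p + b j` for almost all primes `p`.** -/
theorem mainS (b : ℤ) (hb : b ≠ 0) (θ ε : ℝ) (k : ℕ) (hθ : 0 < θ)
    (hθ1 : θ ≤ 1) (hk : 1 / 8 + 25 / (12 * θ) < k) (hε : 0 < ε) :
    ∃ κ Λ : ℝ, 0 < κ ∧ 0 < Λ ∧ ∀ l : ℝ, Λ ≤ l → ∀ᶠ X : ℕ in atTop, ∀ Z L : ℕ,
      (X : ℝ) ^ θ ≤ L → Z + L ≤ X →
      (((Ioc Z (Z + L)).filter (fun n => n.Prime ∧ AdmS b n ∧
        (cnt (fun _ => 1) (fun j => b * (j : ℤ)) k ⌊l * Real.log X⌋₊ n ((X : ℝ) ^ (θ / 10)) : ℝ) < κ * l)).card :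
          ℝ) ≤ ε * L / Real.log X :=
  mainP (datS b hb) (AdmS b)
    (avg_ofB 1 le_rfl (fun _ => 1) (fun j => b * (j : ℤ)) (AdmS b) (b.natAbs) 38
      (fun w K y hw hbw => excS b hb w K y hw hbw) (fun n hn => perS b n hn)
      (fun n hn p hp => (fewS b n hn p hp).trans_lt hp.one_lt)) θ ε k hθ hθ1 hk hε

end Pool.Agent.R490.GPe
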