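import Pool.Agent.R490.LGf

set_option autoImplicit false

/-!
# The forms `n + σ (a j² + b j) + c`: values of quadratic polynomials at the smallest arguments
-/

namespace Pool.Agent.R490.GPf

open Finset Filter
open Pool.Agent.W123.RP Pool.Agent.H373R2.T7 Pool.Agent.W123.RU Pool.Agent.TH464.PO Pool.Agent.TH464.PW
open Pool.Agent.Y879.AP Pool.Agent.R490.P3b Pool.Agent.R490.LGa Pool.Agent.R490.LGb Pool.Agent.R490.LGd
open Pool.Agent.R490.LGe Pool.Agent.R490.LGf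

/-- the constant coefficients -/
def Bq (a b : ℕ) (σ c : ℤ) (j : ℕ) : ℤ := σ * ((a : ℤ) * (j : ℤ) ^ 2 + b * j) + c

lemma Bq_sub (a b : ℕ) (σ c : ℤ) (j j' : ℕ) :
    Bq a b σ c j - Bq a b σ c j' = σ * (((j : ℤ) - j') * ((a * (j + j') + b : ℕ) : ℤ)) := by
  unfold Bq
  push_cast
  ring

lemma Bq_mod (a b : ℕ) (σ c : ℤ) (j p : ℕ) : Bq a b σ c j ≡ Bq a b σ c (j % p) [ZMOD p] := by
  have h1 : (j : ℤ) ≡ ((j % p : ℕ) : ℤ) [ZMOD p] := Int.natCast_modEq_iff.2 (Nat.mod_modEq j p).symm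
  unfold Bq
  exact ((((h1.pow 2).mul_left (a : ℤ)).add (h1.mul_left (b : ℤ))).mul_left σ).add_right c

lemma datF (a b : ℕ) (σ c : ℤ) (ha : 1 ≤ a) (hσ : σ.natAbs = 1) :
    Dat (fun _ => 1) (Bq a b σ c) (a + b + c.natAbs + 2) 0 := by
  refine ⟨fun j _ => le_rfl, ?_, ?_, ?_, ?_⟩
  · intro j _
    exact Nat.one_le_pow _ _ (by omega)
  · intro j hj
    have h1 : (Bq a b σ c j).natAbs ≤ (a * j ^ 2 + b * j) + c.natAbs := by
      unfold Bq
      refine (Int.natAbs_add_le _ _).trans ?_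
      rw [Int.natAbs_mul, hσ, one_mul]
      have e : ((a : ℤ) * (j : ℤ) ^ 2 + b * j).natAbs = a * j ^ 2 + b * j := by
        have : (a : ℤ) * (j : ℤ) ^ 2 + b * j = ((a * j ^ 2 + b * j : ℕ) : ℤ) := by push_cast; ring
        rw [this, Int.natAbs_natCast]
      rw [e]
    refine h1.trans ?_
    have h2 : a + b + c.natAbs < 2 ^ (a + b + c.natAbs) := Nat.lt_two_pow_self
    have h3 : 2 ^ (a + b + c.natAbs) ≤ (j + 1) ^ (a + b + c.natAbs) := Nat.pow_le_pow_left (by omega) _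
    have h4 : a * j ^ 2 + b * j + c.natAbs ≤ (a + b + c.natAbs) * (j + 1) ^ 2 := by
      have a1 : j ^ 2 ≤ (j + 1) ^ 2 := Nat.pow_le_pow_left (by omega) 2
      have a2 : j ≤ (j + 1) ^ 2 := by nlinarith
      have a3 : 1 ≤ (j + 1) ^ 2 := Nat.one_le_pow _ _ (by omega)
      have b1 := Nat.mul_le_mul_left a a1
      have b2 := Nat.mul_le_mul_left b a2
      have b3 := Nat.mul_le_mul_left c.natAbs a3
      rw [add_mul, add_mul]
      omega
    refine h4.trans ?_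
    rw [pow_add]
    exact Nat.mul_le_mul_right _ (by omega)
  · intro j _ p hp _ hd
    exact absurd (Nat.dvd_one.1 hd) hp.one_lt.ne'
  · intro j j' h1 h2 hne
    unfold Rs
    intro h
    have e : Bq a b σ c j' - Bq a b σ c j = 0 := by
      push_cast at h
      linarith
    rw [Bq_sub] at e
    rcases mul_eq_zero.1 e with h3 | h3
    · rw [h3] at hσ
      simp at hσ
    · rcases mul_eq_zero.1 h3 with h4 | h4
      · exact hne (by omega)
      · have h5 : a * (j' + j) + b = 0 := by exact_mod_cast h4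
        have h6 : 0 < a * (j' + j) := Nat.mul_pos ha (by omega)
        omega

lemma excF (a b : ℕ) (σ c : ℤ) (ha : 1 ≤ a) (hσ : σ.natAbs = 1) (w K y : ℕ) (hw : 14 ≤ w) :
    ∑ j ∈ Icc 1 K, ∑ j' ∈ Icc 1 K, exc (fun _ => 1) (Bq a b σ c) w y j j' ≤
      (10 * (2 * a + b + 2) : ℝ) * (K : ℝ) ^ 2 / w := by
  have hw0 : (0 : ℝ) < w := by exact_mod_cast (by omega : 0 < w)
  obtain ⟨G, hG⟩ : ∃ G, G = ∑ n ∈ Icc 1 K, (tw w y n ^ 3 - 1) := ⟨_, rfl⟩
  have hG1 : G ≤ 28 * K / w := by rw [hG]; exact sum_ex w y K hw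
  obtain ⟨N, hN⟩ : ∃ N : ℕ, N = (2 * a + b) * K := ⟨_, rfl⟩
  obtain ⟨G2, hG2⟩ : ∃ G2, G2 = ∑ n ∈ Icc 1 N, (tw w y n ^ 3 - 1) := ⟨_, rfl⟩
  have hG21 : G2 ≤ 28 * (N : ℝ) / w := by rw [hG2]; exact sum_ex w y N hw
  have h1 : ∀ j ∈ Icc 1 K, ∀ j' ∈ Icc 1 K, exc (fun _ => 1) (Bq a b σ c) w y j j' ≤
      ((tw w y (a * (j + j') + b) ^ 3 - 1) +
        (if j = j' then 0 else (tw w y ((j : ℤ) - j').natAbs ^ 3 - 1))) / 3 := by
    intro j _ j' _
    unfold exc
    split_ifs with hne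
    · have a1 := cube_ge w y (a * (j + j') + b)
      linarith
    · have e : (Rs (fun _ => 1) (Bq a b σ c) j j').natAbs = ((j : ℤ) - j').natAbs * (a * (j + j') + b) := by
        unfold Rs
        have e1 : (((fun _ => 1 : ℕ → ℕ) j : ℕ) : ℤ) * Bq a b σ c j' -
            (((fun _ => 1 : ℕ → ℕ) j' : ℕ) : ℤ) * Bq a b σ c j = -(Bq a b σ c j - Bq a b σ c j') := by
          push_cast
          ring
        rw [e1, Int.natAbs_neg, Bq_sub, Int.natAbs_mul, hσ, one_mul, Int.natAbs_mul, Int.natAbs_natCast]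
      rw [e]
      have a0 : tw w y 1 = 1 := tw_small w y 1 le_rfl (by omega)
      have a1 := tw_mul_le w y ((j : ℤ) - j').natAbs (a * (j + j') + b)
      have a3 := amgm3 1 _ _ le_rfl (one_le_tw w y ((j : ℤ) - j').natAbs) (one_le_tw w y (a * (j + j') + b))
      rw [a0]
      linarith
  have h2 : ∀ j ∈ Icc 1 K, ∑ j' ∈ Icc 1 K, exc (fun _ => 1) (Bq a b σ c) w y j j' ≤
      (G2 + 2 * G) / 3 := by
    intro j hj
    refine (sum_le_sum (h1 j hj)).trans ?_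
    rw [← sum_div, sum_add_distrib]
    have h3 := sum_diff (fun n => tw w y n ^ 3 - 1) (cube_ge w y) K j hj
    rw [← hG] at h3
    have h4 : ∑ j' ∈ Icc 1 K, (tw w y (a * (j + j') + b) ^ 3 - 1) ≤ G2 := by
      rw [hG2, ← sum_image (f := fun n => tw w y n ^ 3 - 1) (g := fun j' => a * (j + j') + b) (s := Icc 1 K)]
      · apply sum_le_sum_of_subset_of_nonneg
        · intro h hh
          rw [mem_image] at hh
          obtain ⟨j', hj', rfl⟩ := hh
          rw [mem_Icc] at hj' hj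
          rw [mem_Icc, hN]
          constructor
          · have : 0 < a * (j + j') := Nat.mul_pos ha (by omega)
            omega
          · have a1 : a * (j + j') ≤ a * (2 * K) := Nat.mul_le_mul_left _ (by omega)
            have a2 : b ≤ b * K := Nat.le_mul_of_pos_right _ (by omega)
            calc a * (j + j') + b ≤ a * (2 * K) + b * K := by omega
              _ = (2 * a + b) * K := by ring
        · intro n _ _
          exact cube_ge w y n
      · intro u _ v _ huv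
        simp only at huv
        have h5 : a * (j + u) = a * (j + v) := by omega
        have h6 := Nat.eq_of_mul_eq_mul_left ha h5
        omega
    linarith
  refine (sum_le_sum h2).trans ?_
  rw [sum_const, nsmul_eq_mul, Nat.card_Icc, Nat.add_sub_cancel]
  have h3 : (K : ℝ) * ((G2 + 2 * G) / 3) ≤ K * ((28 * (N : ℝ) / w + 2 * (28 * K / w)) / 3) := by
    apply mul_le_mul_of_nonneg_left _ (Nat.cast_nonneg _)
    linarith
  refine h3.trans ?_
  rw [hN]
  push_cast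
  have e1 : (K : ℝ) * ((28 * ((2 * (a : ℝ) + b) * K) / w + 2 * (28 * K / w)) / 3) =
      28 / 3 * (2 * (a : ℝ) + b + 2) * ((K : ℝ) ^ 2 / w) := by ring
  have e2 : (10 * (2 * (a : ℝ) + b + 2)) * (K : ℝ) ^ 2 / w = 10 * (2 * (a : ℝ) + b + 2) * ((K : ℝ) ^ 2 / w) := by ring
  rw [e1, e2]
  apply mul_le_mul_of_nonneg_right _ (by positivity)
  have : (0 : ℝ) ≤ 2 * (a : ℝ) + b + 2 := by positivity
  linarith

/-- the admissible `n` -/
def AdmF (a b : ℕ) (c : ℤ) (n : ℕ) : Prop :=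
  (∀ p : ℕ, p.Prime → p ∣ a → p ∣ b → ¬ (p : ℤ) ∣ n + c) ∧ ¬ (2 ∣ a + b ∧ (2 : ℤ) ∣ n + c)

lemma two_roots (a b : ℕ) (σ c : ℤ) (hσ : σ.natAbs = 1) (n p : ℕ) (hp : p.Prime) (u v : ℕ)
    (hu : u < p) (hv : v < p) (huv : u ≠ v) (h1 : (p : ℤ) ∣ ((1 : ℕ) : ℤ) * n + Bq a b σ c u)
    (h2 : (p : ℤ) ∣ ((1 : ℕ) : ℤ) * n + Bq a b σ c v) : p ∣ a * (u + v) + b := by
  have h3 : (p : ℤ) ∣ σ * (((u : ℤ) - v) * ((a * (u + v) + b : ℕ) : ℤ)) := by
    have := dvd_sub h1 h2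
    have e : ((1 : ℕ) : ℤ) * n + Bq a b σ c u - (((1 : ℕ) : ℤ) * n + Bq a b σ c v) =
      Bq a b σ c u - Bq a b σ c v := by ring
    rwa [e, Bq_sub] at this
  have hpz := Nat.prime_iff_prime_int.1 hp
  rcases hpz.dvd_or_dvd h3 with h4 | h4
  · exfalso
    have h5 : p ∣ σ.natAbs := Int.natCast_dvd.1 h4
    rw [hσ] at h5
    exact hp.one_lt.ne' (Nat.dvd_one.1 h5)
  · rcases hpz.dvd_or_dvd h4 with h5 | h5
    · exfalso
      have h6 : ((u : ℤ) - v).natAbs < p := by omega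
      have h7 : (u : ℤ) - v = 0 := Int.eq_zero_of_dvd_of_natAbs_lt_natAbs h5 (by simpa using h6)
      omega
    · exact_mod_cast h5

lemma fewF_aux (a b : ℕ) (σ c : ℤ) (hσ : σ.natAbs = 1) (n : ℕ) (hn : AdmF a b c n) (p : ℕ) (hp : p.Prime)
    (S : Finset ℕ) (hS : ∀ j ∈ S, j < p ∧ (p : ℤ) ∣ ((1 : ℕ) : ℤ) * n + Bq a b σ c j) :
    S.card ≤ 2 ∧ S.card < p := by
  have h2 : S.card ≤ 2 := by
    by_contra hc
    push Not at hc
    obtain ⟨u, hu, v, hv, t, ht, huv, hut, hvt⟩ := Finset.two_lt_card.1 hc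
    have e1 := two_roots a b σ c hσ n p hp u v (hS u hu).1 (hS v hv).1 huv (hS u hu).2 (hS v hv).2
    have e2 := two_roots a b σ c hσ n p hp u t (hS u hu).1 (hS t ht).1 hut (hS u hu).2 (hS t ht).2
    have e3 : (p : ℤ) ∣ (a : ℤ) * ((v : ℤ) - t) := by
      have := dvd_sub (Int.natCast_dvd_natCast.2 e1) (Int.natCast_dvd_natCast.2 e2)
      have e : ((a * (u + v) + b : ℕ) : ℤ) - ((a * (u + t) + b : ℕ) : ℤ) = (a : ℤ) * ((v : ℤ) - t) := by
        push_cast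
        ring
      rwa [e] at this
    rcases (Nat.prime_iff_prime_int.1 hp).dvd_or_dvd e3 with h4 | h4
    · have h5 : p ∣ a := by exact_mod_cast h4
      have h6 : p ∣ b := (Nat.dvd_add_right (Dvd.dvd.mul_right h5 _)).1 e1
      apply hn.1 p hp h5 h6
      have h7 := (hS u hu).2
      have h8 : ((1 : ℕ) : ℤ) * n + Bq a b σ c u = (n + c) + σ * ((a : ℤ) * (u : ℤ) ^ 2 + b * u) := by
        unfold Bq
        push_cast
        ring
      rw [h8] at h7
      have h9 : (p : ℤ) ∣ σ * ((a : ℤ) * (u : ℤ) ^ 2 + b * u) := by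
        apply Dvd.dvd.mul_left
        apply dvd_add
        · exact Dvd.dvd.mul_right h4 _
        · exact Dvd.dvd.mul_right (by exact_mod_cast h6) _
      exact (dvd_add_left h9).1 h7
    · have h5 : ((v : ℤ) - t).natAbs < p := by
        have := (hS v hv).1
        have := (hS t ht).1
        omega
      have h7 : (v : ℤ) - t = 0 := Int.eq_zero_of_dvd_of_natAbs_lt_natAbs h4 (by simpa using h5)
      omega
  refine ⟨h2, ?_⟩
  rcases Nat.lt_or_ge 2 p with h3 | h3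
  · omega
  · have hp2 : p = 2 := le_antisymm h3 hp.two_le
    subst hp2
    by_contra hc
    push Not at hc
    have h4 : S ⊆ range 2 := fun j hj => mem_range.2 (hS j hj).1
    have h5 : S = range 2 := eq_of_subset_of_card_le h4 (by rw [card_range]; exact hc)
    have m0 := (hS 0 (by rw [h5]; simp)).2
    have m1 := (hS 1 (by rw [h5]; simp)).2
    unfold Bq at m0 m1
    simp only [Nat.cast_zero, Nat.cast_one, Nat.cast_ofNat] at m0 m1
    apply hn.2
    have hσ' : σ = 1 ∨ σ = -1 := Int.natAbs_eq_natAbs_iff.1 (by simpa using hσ)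
    constructor
    · rcases hσ' with h | h <;> subst h <;> omega
    · rcases hσ' with h | h <;> subst h <;> omega

lemma fewF (a b : ℕ) (σ c : ℤ) (hσ : σ.natAbs = 1) (n : ℕ) (hn : AdmF a b c n) (p : ℕ) (hp : p.Prime) :
    nuB (fun p j => (p : ℤ) ∣ ((1 : ℕ) : ℤ) * n + Bq a b σ c j) p ≤ 2 ∧
    nuB (fun p j => (p : ℤ) ∣ ((1 : ℕ) : ℤ) * n + Bq a b σ c j) p < p := by
  unfold nuB
  apply fewF_aux a b σ c hσ n hn p hp
  intro j hj
  simp only [mem_filter, mem_range] at hj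
  exact hj

lemma perF (a b : ℕ) (σ c : ℤ) (hσ : σ.natAbs = 1) (n : ℕ) (hn : AdmF a b c n) :
    PerB (fun p j => (p : ℤ) ∣ ((1 : ℕ) : ℤ) * n + Bq a b σ c j) 2 := by
  refine ⟨fun p j => ?_, fun p hp => (fewF a b σ c hσ n hn p hp).1⟩
  exact ((Bq_mod a b σ c j p).add_left _).dvd_iff

open Classical in
/-- **Quadratic polynomials at the smallest arguments, for almost all constant terms.** -/
theorem mainF2 (a b : ℕ) (σ c : ℤ) (ha : 1 ≤ a) (hσ : σ.natAbs = 1) (θ ε : ℝ) (k : ℕ) (hθ : 0 < θ) (hθ1 : θ ≤ 1)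
    (hk : 1 / 8 + 25 / (12 * θ) < k) (hε : 0 < ε) :
    ∃ κ Λ : ℝ, 0 < κ ∧ 0 < Λ ∧ ∀ l : ℝ, Λ ≤ l → ∀ᶠ X : ℕ in atTop, ∀ Z L : ℕ,
      (X : ℝ) ^ θ ≤ L → Z + L ≤ X →
      (((Ioc Z (Z + L)).filter (fun n => AdmF a b c n ∧
        (cnt (fun _ => 1) (Bq a b σ c) k ⌊l * Real.log X⌋₊ n ((X : ℝ) ^ (θ / 10)) : ℝ) < κ * l)).card : ℝ) ≤
        ε * L :=
  mainH (datF a b σ c ha hσ) (AdmF a b c)
    (avg_of 2 (by norm_num) (fun _ => 1) (Bq a b σ c) (AdmF a b c) 0 (10 * (2 * a + b + 2))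
      (fun w K y hw _ => excF a b σ c ha hσ w K y hw) (fun n hn => perF a b σ c hσ n hn)
      (fun n hn p hp => (fewF a b σ c hσ n hn p hp).2)) θ ε k hθ hθ1 hk hε

end Pool.Agent.R490.GPf
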