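import Pool.Agent.R490.LGf
import Pool.Agent.R490.LPf
import Pool.Agent.Y879.GL.UnifPoly

set_option autoImplicit false

/-!
# Values of polynomials: the divisor sums
-/

namespace Pool.Agent.R490.GPg

open Finset Filter Polynomial
open Pool.Agent.W123.RP Pool.Agent.H373R2.T7 Pool.Agent.W123.RU Pool.Agent.TH464.PO Pool.Agent.TH464.PW
open Pool.Agent.Y879.AP Pool.Agent.R490.P3b Pool.Agent.R490.LGa Pool.Agent.R490.LGb Pool.Agent.R490.LGd
open Pool.Agent.R490.LGe Pool.Agent.R490.LPf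

/-- the primes in `(w, M]` -/
noncomputable def Pw (w M : ℕ) : Finset ℕ := (pz M).filter (fun p => w < p)

lemma mem_Pw {w M p : ℕ} : p ∈ Pw w M ↔ w < p ∧ p ≤ M ∧ p.Prime := by
  unfold Pw
  rw [mem_filter, mem_pz]
  tauto

lemma one_le_prod' (S : Finset ℕ) (F : ℕ → ℝ) (h : ∀ p ∈ S, 1 ≤ F p) : 1 ≤ ∏ p ∈ S, F p := by
  calc (1 : ℝ) = ∏ _p ∈ S, (1 : ℝ) := by rw [prod_const_one]
    _ ≤ _ := Finset.prod_le_prod (fun _ _ => zero_le_one) h

lemma prod_mono (S S' : Finset ℕ) (hS : S ⊆ S') (F : ℕ → ℝ) (h : ∀ p ∈ S', 1 ≤ F p) :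
    ∏ p ∈ S, F p ≤ ∏ p ∈ S', F p := by
  rw [← prod_sdiff hS]
  apply le_mul_of_one_le_left
  · exact (zero_le_one.trans (one_le_prod' S F (fun p hp => h p (hS hp))))
  · exact one_le_prod' _ F (fun p hp => h p (mem_sdiff.1 hp).1)

open Classical in
lemma tw3_le (w y M n : ℕ) (hn : 1 ≤ n) (hnM : n ≤ M) :
    tw w y n ^ 3 ≤ ∏ p ∈ Pw w M, (1 + if p ∣ n then (14 : ℝ) / p else 0) := by
  unfold tw
  rw [← prod_pow]
  calc ∏ p ∈ pz y, (if w < p ∧ p ∣ n then (1 - 1 / (p : ℝ))⁻¹ else 1) ^ 3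
      ≤ ∏ p ∈ pz y, (if w < p ∧ p ∣ n then (1 + 14 / (p : ℝ)) else 1) := by
        apply Finset.prod_le_prod
        · intro p hp
          have := one_le_inv' (mem_pz.1 hp).2
          split_ifs <;> positivity
        · intro p hp
          split_ifs
          · exact cube_inv (mem_pz.1 hp).2
          · norm_num
    _ = ∏ p ∈ (pz y).filter (fun p => w < p ∧ p ∣ n), (1 + 14 / (p : ℝ)) := (prod_filter _ _).symm
    _ ≤ ∏ p ∈ (Pw w M).filter (fun p => p ∣ n), (1 + 14 / (p : ℝ)) := by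
        apply prod_mono
        · intro p hp
          rw [mem_filter] at hp ⊢
          have hpp := (mem_pz.1 hp.1).2
          exact ⟨mem_Pw.2 ⟨hp.2.1, (Nat.le_of_dvd hn hp.2.2).trans hnM, hpp⟩, hp.2.2⟩
        · intro p _
          have : (0 : ℝ) ≤ 14 / (p : ℝ) := by positivity
          linarith
    _ = _ := by
        rw [prod_filter]
        apply prod_congr rfl
        intro p _
        split_ifs <;> simp

open Classical in
lemma expand (P : Finset ℕ) (c : ℕ → ℝ) (n : ℕ) :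
    ∏ p ∈ P, (1 + if p ∣ n then c p else 0) =
      ∑ T ∈ P.powerset, (∏ p ∈ T, c p) * (if ∀ p ∈ T, p ∣ n then 1 else 0) := by
  rw [prod_one_add]
  apply sum_congr rfl
  intro T _
  by_cases hh : ∀ p ∈ T, p ∣ n
  · rw [if_pos hh, mul_one]
    exact prod_congr rfl fun p hp => if_pos (hh p hp)
  · rw [if_neg hh, mul_zero]
    push Not at hh
    obtain ⟨p, hp, hp2⟩ := hh
    exact prod_eq_zero hp (if_neg hp2)

open Classical in
lemma sum_tw3 (w y M K D : ℕ) (J : Finset ℕ) (g : ℕ → ℕ) (hg : ∀ j ∈ J, 1 ≤ g j ∧ g j ≤ M)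
    (hc : ∀ T ⊆ Pw w M, ((J.filter (fun j => ∀ p ∈ T, p ∣ g j)).card : ℝ) ≤
      (D : ℝ) ^ T.card * (K / (∏ p ∈ T, (p : ℝ)) + 1)) :
    ∑ j ∈ J, (tw w y (g j) ^ 3 - 1) ≤
      K * (∏ p ∈ Pw w M, (1 + 14 * D / (p : ℝ) ^ 2) - 1) + ∏ p ∈ Pw w M, (1 + 14 * D / (p : ℝ)) := by
  have hE : ∅ ∈ (Pw w M).powerset := empty_mem_powerset _
  have h1 : ∀ j ∈ J, tw w y (g j) ^ 3 - 1 ≤
      ∑ T ∈ (Pw w M).powerset.erase ∅, (∏ p ∈ T, (14 : ℝ) / p) * (if ∀ p ∈ T, p ∣ g j then 1 else 0) := by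
    intro j hj
    have a1 := tw3_le w y M (g j) (hg j hj).1 (hg j hj).2
    rw [expand, ← add_sum_erase _ _ hE] at a1
    simp only [prod_empty, notMem_empty, false_imp_iff, implies_true, if_true, mul_one] at a1
    linarith
  refine (sum_le_sum h1).trans ?_
  rw [sum_comm]
  have h2 : ∀ T ∈ (Pw w M).powerset.erase ∅,
      ∑ j ∈ J, (∏ p ∈ T, (14 : ℝ) / p) * (if ∀ p ∈ T, p ∣ g j then 1 else 0) ≤
        K * (∏ p ∈ T, (14 * D / (p : ℝ) ^ 2)) + ∏ p ∈ T, (14 * D / (p : ℝ)) := by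
    intro T hT
    rw [mem_erase, mem_powerset] at hT
    rw [← mul_sum]
    have e1 : ∑ j ∈ J, (if ∀ p ∈ T, p ∣ g j then (1 : ℝ) else 0) =
        ((J.filter (fun j => ∀ p ∈ T, p ∣ g j)).card : ℝ) := by
      rw [card_filter]
      push_cast
      rfl
    rw [e1]
    have a1 := mul_le_mul_of_nonneg_left (hc T hT.2)
      (prod_nonneg (s := T) (f := fun p : ℕ => (14 : ℝ) / p) fun p _ => by positivity)
    refine a1.trans (le_of_eq ?_)
    have e2 : ∏ p ∈ T, (14 * D / (p : ℝ)) = (∏ p ∈ T, (14 : ℝ) / p) * (D : ℝ) ^ T.card := by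
      rw [← prod_const, ← prod_mul_distrib]
      apply prod_congr rfl
      intro p _
      ring
    have e3 : ∏ p ∈ T, (14 * D / (p : ℝ) ^ 2) = (∏ p ∈ T, (14 * D / (p : ℝ))) / ∏ p ∈ T, (p : ℝ) := by
      rw [← prod_div_distrib]
      apply prod_congr rfl
      intro p _
      rw [sq, div_div]
    rw [e3, e2]
    ring
  refine (sum_le_sum h2).trans ?_
  rw [sum_add_distrib, ← mul_sum]
  have e1 : ∑ T ∈ (Pw w M).powerset.erase ∅, ∏ p ∈ T, (14 * D / (p : ℝ) ^ 2) =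
      ∏ p ∈ Pw w M, (1 + 14 * D / (p : ℝ) ^ 2) - 1 := by
    rw [prod_one_add, ← add_sum_erase _ _ hE, prod_empty]
    ring
  have e2 : ∑ T ∈ (Pw w M).powerset.erase ∅, ∏ p ∈ T, (14 * D / (p : ℝ)) =
      ∏ p ∈ Pw w M, (1 + 14 * D / (p : ℝ)) - 1 := by
    rw [prod_one_add, ← add_sum_erase _ _ hE, prod_empty]
    ring
  rw [e1, e2]
  linarith

lemma prod_sq' (w M D : ℕ) (hw : 1 ≤ w) (hD : 14 * D ≤ w) :
    ∏ p ∈ Pw w M, (1 + 14 * D / (p : ℝ) ^ 2) - 1 ≤ 28 * D / (w : ℝ) := by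
  have hw0 : (0 : ℝ) < w := by exact_mod_cast hw
  have h1 : ∏ p ∈ Pw w M, (1 + 14 * D / (p : ℝ) ^ 2) ≤ Real.exp (∑ p ∈ Pw w M, 14 * D / (p : ℝ) ^ 2) := by
    rw [Real.exp_sum]
    apply Finset.prod_le_prod
    · intro p _
      positivity
    · intro p _
      rw [add_comm]
      exact Real.add_one_le_exp _
  have h2 : ∑ p ∈ Pw w M, 14 * D / (p : ℝ) ^ 2 ≤ 14 * D / (w : ℝ) := by
    rcases Nat.lt_or_ge M w with hMw | hMw
    · have : Pw w M = ∅ := by
        rw [eq_empty_iff_forall_notMem]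
        intro p hp
        have := mem_Pw.1 hp
        omega
      rw [this, sum_empty]
      positivity
    · have e : ∑ p ∈ Pw w M, 14 * D / (p : ℝ) ^ 2 = 14 * D * ∑ p ∈ Pw w M, ((p : ℝ) ^ 2)⁻¹ := by
        rw [mul_sum]
        apply sum_congr rfl
        intro p _
        rw [div_eq_mul_inv]
      rw [e, div_eq_mul_inv]
      apply mul_le_mul_of_nonneg_left _ (by positivity)
      calc ∑ p ∈ Pw w M, ((p : ℝ) ^ 2)⁻¹ ≤ ∑ p ∈ Ioc w M, ((p : ℝ) ^ 2)⁻¹ := by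
            apply sum_le_sum_of_subset_of_nonneg
            · intro p hp
              have := mem_Pw.1 hp
              rw [mem_Ioc]
              exact ⟨this.1, this.2.1⟩
            · intro p _ _
              positivity
        _ ≤ (w : ℝ)⁻¹ - (M : ℝ)⁻¹ := sum_Ioc_inv_sq_le_sub (by omega) hMw
        _ ≤ (w : ℝ)⁻¹ := by
            have : (0 : ℝ) ≤ (M : ℝ)⁻¹ := by positivity
            linarith
  have h3 : (0 : ℝ) ≤ 14 * D / (w : ℝ) := by positivity
  have h4 : 14 * D / (w : ℝ) ≤ 1 := by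
    rw [div_le_one hw0]
    exact_mod_cast hD
  have h5 := Real.abs_exp_sub_one_le (x := 14 * D / (w : ℝ)) (by rw [abs_of_nonneg h3]; exact h4)
  rw [abs_of_nonneg h3] at h5
  have h6 := (abs_le.1 h5).2
  have h7 : Real.exp (∑ p ∈ Pw w M, 14 * D / (p : ℝ) ^ 2) ≤ Real.exp (14 * D / (w : ℝ)) := Real.exp_le_exp.2 h2
  have e : 28 * D / (w : ℝ) = 2 * (14 * D / (w : ℝ)) := by ring
  rw [e]
  linarith

lemma prod_one' (w M D : ℕ) : ∏ p ∈ Pw w M, (1 + 14 * D / (p : ℝ)) ≤ ((Vz M)⁻¹) ^ (14 * D) := by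
  have h1 : ∏ p ∈ Pw w M, (1 + 14 * D / (p : ℝ)) ≤ ∏ p ∈ pz M, (1 + 14 * D / (p : ℝ)) := by
    apply prod_mono
    · exact filter_subset _ _
    · intro p _
      have : (0 : ℝ) ≤ 14 * D / (p : ℝ) := by positivity
      linarith
  refine h1.trans ?_
  unfold Vz
  rw [← prod_inv_distrib, ← prod_pow]
  apply Finset.prod_le_prod
  · intro p _
    positivity
  · intro p hp
    have hp0 : (0 : ℝ) < p := by exact_mod_cast (mem_pz.1 hp).2.pos
    have a1 : 1 + 14 * D / (p : ℝ) ≤ (1 + 1 / (p : ℝ)) ^ (14 * D) := by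
      have := one_add_mul_le_pow (a := 1 / (p : ℝ)) (by
        have : (0 : ℝ) ≤ 1 / (p : ℝ) := by positivity
        linarith) (14 * D)
      push_cast at this
      have e : 14 * D / (p : ℝ) = 14 * (D : ℝ) * (1 / (p : ℝ)) := by ring
      rw [e]
      exact this
    refine a1.trans ?_
    apply pow_le_pow_left₀ (by positivity)
    have h2 := (one_sub_pos (mem_pz.1 hp).2).1
    rw [← one_div, le_div_iff₀ h2]
    have e : (1 + 1 / (p : ℝ)) * (1 - 1 / (p : ℝ)) = 1 - (1 / (p : ℝ)) ^ 2 := by ring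
    rw [e]
    have := sq_nonneg (1 / (p : ℝ))
    linarith

/-- the number of roots modulo a prime -/
lemma rho_lead (f : ℤ[X]) (p : ℕ) (hp : p.Prime) (hl : ¬ (p : ℤ) ∣ f.leadingCoeff) :
    Pool.Agent.H474R2.PG.rho f p ≤ f.natDegree := by
  have : Fact p.Prime := ⟨hp⟩
  set g : (ZMod p)[X] := f.map (Int.castRingHom (ZMod p)) with hg
  have hg0 : g ≠ 0 := by
    intro h
    have h3 : g.coeff f.natDegree = 0 := by rw [h, coeff_zero]
    rw [hg, coeff_map, eq_intCast] at h3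
    exact hl ((ZMod.intCast_zmod_eq_zero_iff_dvd _ _).1 h3)
  have hdeg : g.natDegree ≤ f.natDegree := natDegree_map_le
  unfold Pool.Agent.H474R2.PG.rho
  classical
  calc ((Finset.range p).filter (fun a : ℕ => (p : ℤ) ∣ f.eval (a : ℤ))).card
      ≤ g.roots.toFinset.card := by
        apply Finset.card_le_card_of_injOn (fun a : ℕ => (a : ZMod p))
        · intro a ha
          rw [Finset.mem_coe, Finset.mem_filter] at ha
          rw [Finset.mem_coe, Multiset.mem_toFinset, mem_roots hg0, IsRoot.def, hg]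
          have h4 : eval ((a : ℤ) : ZMod p) (f.map (Int.castRingHom (ZMod p))) =
              ((f.eval (a : ℤ) : ℤ) : ZMod p) := by
            have := eval_map_apply (Int.castRingHom (ZMod p)) (p := f) (a : ℤ)
            simpa using this
          have h5 : ((f.eval (a : ℤ) : ℤ) : ZMod p) = 0 :=
            (ZMod.intCast_zmod_eq_zero_iff_dvd _ _).2 ha.2
          rw [← h5, ← h4]
          congr 1
          push_cast
          rfl
        · intro a ha b hb hab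
          rw [Finset.mem_coe, Finset.mem_filter, Finset.mem_range] at ha hb
          have h1 : (a : ZMod p) = b := hab
          rw [ZMod.natCast_eq_natCast_iff'] at h1
          rwa [Nat.mod_eq_of_lt ha.1, Nat.mod_eq_of_lt hb.1] at h1
    _ ≤ Multiset.card g.roots := Multiset.toFinset_card_le _
    _ ≤ g.natDegree := card_roots' g
    _ ≤ f.natDegree := hdeg

open Classical in
/-- the arguments with all values divisible -/
lemma cnt_poly (f : ℤ[X]) (K : ℕ) (T : Finset ℕ) (hT : ∀ p ∈ T, p.Prime ∧ f.leadingCoeff.natAbs < p)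
    (hf : f ≠ 0) : (((Icc 1 K).filter (fun j : ℕ => ∀ p ∈ T, (p : ℤ) ∣ f.eval (j : ℤ))).card : ℝ) ≤
      (f.natDegree : ℝ) ^ T.card * (K / (∏ p ∈ T, (p : ℝ)) + 1) := by
  have h3 := count_sys (fun p a => (p : ℤ) ∣ f.eval (a : ℤ)) K T (fun p hp => (hT p hp).1) 1 le_rfl
    (fun p hp hd => (hT p hp).1.one_lt.ne' (Nat.dvd_one.1 hd)) 0
  have e1 : (Icc 1 K).filter (fun n => n ≡ 0 [MOD 1] ∧ ∀ p ∈ T, (p : ℤ) ∣ f.eval ((n % p : ℕ) : ℤ)) =
      (Icc 1 K).filter (fun j : ℕ => ∀ p ∈ T, (p : ℤ) ∣ f.eval (j : ℤ)) := by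
    apply filter_congr
    intro n _
    constructor
    · rintro ⟨_, h⟩ p hp
      exact (Pool.Agent.W123.RU.Poly.per1 f p n).2 (h p hp)
    · intro h
      exact ⟨Nat.modEq_one, fun p hp => (Pool.Agent.W123.RU.Poly.per1 f p n).1 (h p hp)⟩
  rw [e1, Nat.cast_one, div_one] at h3
  have hν : ∀ p ∈ T, (((range p).filter (fun a : ℕ => (p : ℤ) ∣ f.eval (a : ℤ))).card : ℝ) ≤ f.natDegree := by
    intro p hp
    have := rho_lead f p (hT p hp).1 (by
      intro hd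
      have h5 : p ∣ f.leadingCoeff.natAbs := Int.natCast_dvd.1 hd
      have h6 := Nat.le_of_dvd (Nat.pos_of_ne_zero (Int.natAbs_ne_zero.2 (leadingCoeff_ne_zero.2 hf))) h5
      have := (hT p hp).2
      omega)
    unfold Pool.Agent.H474R2.PG.rho at this
    exact_mod_cast this
  have h4 : ∏ p ∈ T, (((range p).filter (fun a : ℕ => (p : ℤ) ∣ f.eval (a : ℤ))).card : ℝ) ≤
      (f.natDegree : ℝ) ^ T.card := by
    rw [← prod_const]
    exact Finset.prod_le_prod (fun _ _ => Nat.cast_nonneg _) hν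
  have h5 : ∏ p ∈ T, ((((range p).filter (fun a : ℕ => (p : ℤ) ∣ f.eval (a : ℤ))).card : ℝ) / p) ≤
      (f.natDegree : ℝ) ^ T.card / ∏ p ∈ T, (p : ℝ) := by
    rw [prod_div_distrib]
    exact div_le_div_of_nonneg_right h4 (prod_nonneg fun _ _ => Nat.cast_nonneg _)
  have h6 := (abs_le.1 h3).2
  have h7 : (K : ℝ) * ∏ p ∈ T, ((((range p).filter (fun a : ℕ => (p : ℤ) ∣ f.eval (a : ℤ))).card : ℝ) / p) ≤
      K * ((f.natDegree : ℝ) ^ T.card / ∏ p ∈ T, (p : ℝ)) := mul_le_mul_of_nonneg_left h5 (Nat.cast_nonneg _)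
  have e : (f.natDegree : ℝ) ^ T.card * (K / (∏ p ∈ T, (p : ℝ)) + 1) =
      K * ((f.natDegree : ℝ) ^ T.card / ∏ p ∈ T, (p : ℝ)) + (f.natDegree : ℝ) ^ T.card := by ring
  rw [e]
  linarith

/-- the size of the values -/
lemma size_poly (f : ℤ[X]) : ∃ D1 : ℕ, ∀ j : ℕ, 1 ≤ j → (f.eval (j : ℤ)).natAbs ≤ (j + 1) ^ D1 := by
  obtain ⟨S, hS⟩ : ∃ S : ℕ, S = ∑ i ∈ range (f.natDegree + 1), (f.coeff i).natAbs := ⟨_, rfl⟩
  refine ⟨S + f.natDegree, fun j hj => ?_⟩
  rw [eval_eq_sum_range]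
  refine (Int.natAbs_sum_le _ _).trans ?_
  have h1 : ∀ i ∈ range (f.natDegree + 1), (f.coeff i * (j : ℤ) ^ i).natAbs ≤
      (f.coeff i).natAbs * (j + 1) ^ f.natDegree := by
    intro i hi
    rw [Int.natAbs_mul, Int.natAbs_pow, Int.natAbs_natCast]
    apply Nat.mul_le_mul_left
    rw [mem_range] at hi
    calc j ^ i ≤ (j + 1) ^ i := Nat.pow_le_pow_left (by omega) _
      _ ≤ (j + 1) ^ f.natDegree := Nat.pow_le_pow_right (by omega) (by omega)
  refine (sum_le_sum h1).trans ?_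
  rw [← sum_mul, ← hS, pow_add]
  apply Nat.mul_le_mul_right
  have h2 : S < 2 ^ S := Nat.lt_two_pow_self
  have h3 : 2 ^ S ≤ (j + 1) ^ S := Nat.pow_le_pow_left (by omega) _
  omega

end Pool.Agent.R490.GPg
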