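import Pool.Agent.R490.GPg

set_option autoImplicit false

/-!
# The forms `n + f(j)` for a polynomial `f`: almost primes at the smallest arguments for almost all `n`
-/

namespace Pool.Agent.R490.GPh

open Finset Filter Polynomial
open Pool.Agent.W123.RP Pool.Agent.H373R2.T7 Pool.Agent.W123.RU Pool.Agent.TH464.PO Pool.Agent.TH464.PW
open Pool.Agent.Y879.AP Pool.Agent.R490.P3b Pool.Agent.R490.LGa Pool.Agent.R490.LGb Pool.Agent.R490.LGd
open Pool.Agent.R490.LGe Pool.Agent.R490.GPg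

/-- distinct values at the positive integers -/
def Inj (f : ℤ[X]) : Prop := ∀ i j : ℕ, 1 ≤ i → 1 ≤ j → i ≠ j → f.eval (i : ℤ) ≠ f.eval (j : ℤ)

lemma datP (f : ℤ[X]) (hinj : Inj f) (D1 : ℕ)
    (hsz : ∀ j : ℕ, 1 ≤ j → (f.eval (j : ℤ)).natAbs ≤ (j + 1) ^ D1) :
    Dat (fun _ => 1) (fun j => f.eval (j : ℤ)) D1 0 := by
  refine ⟨fun j _ => le_rfl, ?_, hsz, ?_, ?_⟩
  · intro j _
    exact Nat.one_le_pow _ _ (by omega)
  · intro j _ p hp _ hd
    exact absurd (Nat.dvd_one.1 hd) hp.one_lt.ne'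
  · intro j j' h1 h2 hne
    unfold Rs
    intro h
    apply hinj j' j h2 h1 (Ne.symm hne)
    push_cast at h
    linarith

lemma lead_add (f : ℤ[X]) (hD : 0 < f.natDegree) (v : ℤ) :
    (f + C v).natDegree = f.natDegree ∧ (f + C v).leadingCoeff = f.leadingCoeff := by
  have h1 : (f + C v).natDegree = f.natDegree := natDegree_add_C
  refine ⟨h1, ?_⟩
  unfold leadingCoeff
  rw [h1, coeff_add, coeff_C, if_neg (by omega), add_zero]

open Classical in
lemma row (f : ℤ[X]) (hD : 0 < f.natDegree) (hinj : Inj f) (D1 w y K j : ℕ) (hw : 14 ≤ w)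
    (hl : f.leadingCoeff.natAbs ≤ w) (hDw : 14 * f.natDegree ≤ w)
    (hsz : ∀ j : ℕ, 1 ≤ j → (f.eval (j : ℤ)).natAbs ≤ (j + 1) ^ D1) (hj : j ∈ Icc 1 K) :
    ∑ j' ∈ Icc 1 K, (if j = j' then 0 else tw w y (f.eval (j : ℤ) - f.eval (j' : ℤ)).natAbs ^ 3 - 1) ≤
      K * (28 * f.natDegree / (w : ℝ)) + ((Vz (2 * (K + 1) ^ D1))⁻¹) ^ (14 * f.natDegree) := by
  have e1 : ∑ j' ∈ Icc 1 K, (if j = j' then 0 else
      tw w y (f.eval (j : ℤ) - f.eval (j' : ℤ)).natAbs ^ 3 - 1) =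
      ∑ j' ∈ (Icc 1 K).erase j, (tw w y (f.eval (j : ℤ) - f.eval (j' : ℤ)).natAbs ^ 3 - 1) := by
    rw [← add_sum_erase _ _ hj, if_pos rfl, zero_add]
    apply sum_congr rfl
    intro j' hj'
    rw [mem_erase] at hj'
    rw [if_neg (Ne.symm hj'.1)]
  rw [e1]
  obtain ⟨M, hM⟩ : ∃ M, M = 2 * (K + 1) ^ D1 := ⟨_, rfl⟩
  rw [← hM]
  have hj1 := mem_Icc.1 hj
  obtain ⟨F, hF⟩ : ∃ F, F = f + C (-f.eval (j : ℤ)) := ⟨_, rfl⟩
  have hFd := lead_add f hD (-f.eval (j : ℤ))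
  rw [← hF] at hFd
  have hF0 : F ≠ 0 := by
    intro h
    rw [h, natDegree_zero] at hFd
    omega
  have h1 := sum_tw3 w y M K f.natDegree ((Icc 1 K).erase j)
    (fun j' => (f.eval (j : ℤ) - f.eval (j' : ℤ)).natAbs) (by
      intro j' hj'
      rw [mem_erase, mem_Icc] at hj'
      constructor
      · apply Nat.pos_of_ne_zero
        rw [Int.natAbs_ne_zero]
        exact sub_ne_zero.2 (hinj j j' hj1.1 hj'.2.1 (Ne.symm hj'.1))
      · refine (Int.natAbs_sub_le _ _).trans ?_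
        have a1 := hsz j hj1.1
        have a2 := hsz j' hj'.2.1
        have a3 : (j + 1) ^ D1 ≤ (K + 1) ^ D1 := Nat.pow_le_pow_left (by omega) _
        have a4 : (j' + 1) ^ D1 ≤ (K + 1) ^ D1 := Nat.pow_le_pow_left (by omega) _
        omega) (by
      intro T hT
      have h2 := cnt_poly F K T (fun p hp => by
        have := mem_Pw.1 (hT hp)
        rw [hFd.2]
        exact ⟨this.2.2, by omega⟩) hF0
      rw [hFd.1] at h2
      refine le_trans ?_ h2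
      have h3 : (((Icc 1 K).erase j).filter (fun j' : ℕ => ∀ p ∈ T, p ∣ (f.eval (j : ℤ) - f.eval (j' : ℤ)).natAbs)).card ≤
          ((Icc 1 K).filter (fun j : ℕ => ∀ p ∈ T, (p : ℤ) ∣ F.eval (j : ℤ))).card := by
        apply card_le_card
        intro j' hj'
        rw [mem_filter, mem_erase] at hj'
        rw [mem_filter]
        refine ⟨hj'.1.2, fun p hp => ?_⟩
        have h4 : (p : ℤ) ∣ f.eval (j : ℤ) - f.eval (j' : ℤ) := Int.natCast_dvd.2 (hj'.2 p hp)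
        have e : F.eval (j' : ℤ) = -(f.eval (j : ℤ) - f.eval (j' : ℤ)) := by
          rw [hF, eval_add, eval_C]
          ring
        rw [e]
        exact (dvd_neg).2 h4
      exact_mod_cast h3)
  refine h1.trans ?_
  have h2 := prod_sq' w M f.natDegree (by omega) hDw
  have h3 := prod_one' w M f.natDegree
  have h4 : (K : ℝ) * (∏ p ∈ Pw w M, (1 + 14 * f.natDegree / (p : ℝ) ^ 2) - 1) ≤ K * (28 * f.natDegree / (w : ℝ)) :=
    mul_le_mul_of_nonneg_left h2 (Nat.cast_nonneg _)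
  linarith

lemma log_ev (D1 E w : ℕ) (hw : 1 ≤ w) : ∃ K1 : ℕ, ∀ K : ℕ, K1 ≤ K →
    ((Vz (2 * (K + 1) ^ D1))⁻¹) ^ E ≤ K / (w : ℝ) := by
  obtain ⟨cz, Cz, hcz, hCz, hV⟩ := Vz_bounds
  have hw0 : (0 : ℝ) < w := by exact_mod_cast hw
  have ev := logpow_rpow E (w * ((2 * D1 + 1) / cz) ^ E) 1 (by positivity) one_pos
  obtain ⟨K1, hK1⟩ := eventually_atTop.1 ev
  refine ⟨max K1 3, fun K hK => ?_⟩
  have h1 := hK1 K ((le_max_left _ _).trans hK)
  have hK3 : 3 ≤ K := (le_max_right _ _).trans hK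
  have hKr : (3 : ℝ) ≤ K := by exact_mod_cast hK3
  rw [Real.rpow_one] at h1
  obtain ⟨M, hM⟩ : ∃ M, M = 2 * (K + 1) ^ D1 := ⟨_, rfl⟩
  rw [← hM]
  have hM2 : 2 ≤ M := by
    have : 1 ≤ (K + 1) ^ D1 := Nat.one_le_pow _ _ (by omega)
    omega
  have hVM := (hV M hM2).1
  have hM2r : (2 : ℝ) ≤ M := by exact_mod_cast hM2
  have hlM : 0 < Real.log M := Real.log_pos (by linarith)
  have hVM0 : 0 < Vz M := lt_of_lt_of_le (by positivity) hVM
  have hlog : Real.log M ≤ (2 * D1 + 1) * Real.log K := by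
    have e : Real.log M = Real.log 2 + D1 * Real.log (K + 1) := by
      rw [hM]
      push_cast
      rw [Real.log_mul (by norm_num) (by positivity), Real.log_pow]
    have a1 : Real.log (K + 1) ≤ 2 * Real.log K := by
      rw [show (2 : ℝ) * Real.log K = Real.log ((K : ℝ) ^ 2) by rw [Real.log_pow]; norm_num]
      apply Real.log_le_log (by positivity)
      nlinarith
    have a2 : Real.log 2 ≤ Real.log K := Real.log_le_log (by norm_num) (by linarith)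
    rw [e]
    have a3 : (D1 : ℝ) * Real.log (K + 1) ≤ D1 * (2 * Real.log K) := mul_le_mul_of_nonneg_left a1 (Nat.cast_nonneg _)
    linarith
  have h2 : (Vz M)⁻¹ ≤ (2 * D1 + 1) / cz * Real.log K := by
    rw [inv_le_comm₀ hVM0 (by
      have : 0 < Real.log K := Real.log_pos (by linarith)
      positivity)]
    refine le_trans ?_ hVM
    rw [inv_eq_one_div, div_le_div_iff₀ (by
      have : 0 < Real.log K := Real.log_pos (by linarith)
      positivity) hlM, one_mul]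
    have e : cz * ((2 * D1 + 1) / cz * Real.log K) = (2 * D1 + 1) * Real.log K := by
      field_simp
    rw [e]
    exact hlog
  have h3 : ((Vz M)⁻¹) ^ E ≤ ((2 * D1 + 1) / cz * Real.log K) ^ E := pow_le_pow_left₀ (by positivity) h2 E
  refine h3.trans ?_
  rw [le_div_iff₀ hw0, mul_pow]
  calc ((2 * (D1 : ℝ) + 1) / cz) ^ E * Real.log K ^ E * w = w * ((2 * D1 + 1) / cz) ^ E * Real.log K ^ E := by ring
    _ ≤ K := h1

/-- the excess on average -/
lemma excP (f : ℤ[X]) (hD : 0 < f.natDegree) (hinj : Inj f) (w : ℕ) (hw : 14 ≤ w)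
    (hl : f.leadingCoeff.natAbs + 14 * f.natDegree ≤ w) : ∃ K1 : ℕ, ∀ K : ℕ, K1 ≤ K → ∀ y : ℕ,
    ∑ j ∈ Icc 1 K, ∑ j' ∈ Icc 1 K, exc (fun _ => 1) (fun j => f.eval (j : ℤ)) w y j j' ≤
      (28 * f.natDegree + 1) * (K : ℝ) ^ 2 / w := by
  classical
  obtain ⟨D1, hsz⟩ := size_poly f
  obtain ⟨K1, h1⟩ := log_ev D1 (14 * f.natDegree) w (by omega)
  refine ⟨K1, fun K hK y => ?_⟩
  have h2 := h1 K hK
  have h3 : ∀ j ∈ Icc 1 K, ∑ j' ∈ Icc 1 K, exc (fun _ => 1) (fun j => f.eval (j : ℤ)) w y j j' ≤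
      K * ((28 * f.natDegree + 1) / (w : ℝ)) := by
    intro j hj
    have h4 := row f hD hinj D1 w y K j hw (by omega) (by omega) hsz hj
    have h5 : ∑ j' ∈ Icc 1 K, exc (fun _ => 1) (fun j => f.eval (j : ℤ)) w y j j' ≤
        ∑ j' ∈ Icc 1 K, (if j = j' then 0 else tw w y (f.eval (j : ℤ) - f.eval (j' : ℤ)).natAbs ^ 3 - 1) := by
      apply sum_le_sum
      intro j' _
      unfold exc
      split_ifs with hne
      · exact le_rfl
      · have e : (Rs (fun _ => 1) (fun j => f.eval (j : ℤ)) j j').natAbs =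
            (f.eval (j : ℤ) - f.eval (j' : ℤ)).natAbs := by
          unfold Rs
          rw [← Int.natAbs_neg]
          congr 1
          push_cast
          ring
        rw [e]
        have a0 : tw w y 1 = 1 := tw_small w y 1 le_rfl (by omega)
        have a1 := one_le_tw w y (f.eval (j : ℤ) - f.eval (j' : ℤ)).natAbs
        have a2 : tw w y (f.eval (j : ℤ) - f.eval (j' : ℤ)).natAbs ≤
            tw w y (f.eval (j : ℤ) - f.eval (j' : ℤ)).natAbs ^ 3 := le_self_pow₀ a1 (by norm_num)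
        rw [a0]
        linarith
    have e : (K : ℝ) * ((28 * f.natDegree + 1) / (w : ℝ)) =
        K * (28 * f.natDegree / (w : ℝ)) + K / (w : ℝ) := by ring
    rw [e]
    linarith
  refine (sum_le_sum h3).trans (le_of_eq ?_)
  rw [sum_const, nsmul_eq_mul, Nat.card_Icc, Nat.add_sub_cancel]
  ring

/-- the average hypothesis -/
theorem avg_of2 (c : ℕ) (hc : 1 ≤ c) (A : ℕ → ℕ) (B : ℕ → ℤ) (Adm : ℕ → Prop) (w1 : ℕ) (Cx : ℝ)
    (hexc : ∀ w : ℕ, 14 ≤ w → w1 ≤ w → ∃ K1 : ℕ, ∀ K : ℕ, K1 ≤ K → ∀ y : ℕ,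
      ∑ j ∈ Icc 1 K, ∑ j' ∈ Icc 1 K, exc A B w y j j' ≤ Cx * (K : ℝ) ^ 2 / w)
    (hper : ∀ n, Adm n → PerB (fun p j => (p : ℤ) ∣ (A j : ℤ) * n + B j) c)
    (hadm : ∀ n, Adm n → ∀ p : ℕ, p.Prime → nuB (fun p j => (p : ℤ) ∣ (A j : ℤ) * n + B j) p < p) (w2 : ℕ) (η : ℝ)
    (hη : 0 < η) : ∃ (w K0 : ℕ) (δ : ℝ), w2 ≤ w ∧ 0 < δ ∧ ∀ K : ℕ, K0 ≤ K →
      (∀ y : ℕ, ∑ j ∈ Icc 1 K, ∑ j' ∈ Icc 1 K, exc A B w y j j' ≤ η * (δ * K) ^ 2) ∧
      (∀ n : ℕ, Adm n → δ * K ≤ (Jn A B w K n).card) := by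
  classical
  obtain ⟨x0, H⟩ := cnt_low c hc
  obtain ⟨κ, hκ, hlow⟩ := vq_low c
  obtain ⟨cz, C, hcz, hC, hV⟩ := Vz_bounds
  have ev := logpow_rpow (2 * c) ((|Cx| + 1) * 16 / (η * κ ^ 2 * cz ^ (2 * c))) 1 (by positivity) one_pos
  obtain ⟨w, hw1, hw2⟩ := (ev.and (eventually_ge_atTop (x0 + w1 + w2 + 14))).exists
  have hw0 : (0 : ℝ) < w := by exact_mod_cast (by omega : 0 < w)
  have hlw : 0 < Real.log w := Real.log_pos (by exact_mod_cast (by omega : 1 < w))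
  have hVz : cz / Real.log w ≤ Vz w := (hV w (by omega)).1
  have hVz0 : 0 < Vz w := lt_of_lt_of_le (by positivity) hVz
  obtain ⟨v, hv⟩ : ∃ v : ℝ, v = κ * Vz w ^ c := ⟨_, rfl⟩
  have hv0 : 0 < v := by rw [hv]; positivity
  obtain ⟨K0, hK0⟩ := H w (by omega) v hv0
  obtain ⟨K1, hK1⟩ := hexc w (by omega) (by omega)
  refine ⟨w, K0 + K1, v / 4, by omega, by positivity, ?_⟩
  intro K hK
  constructor
  · intro y
    refine (hK1 K (by omega) y).trans ?_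
    have a1 : (cz / Real.log w) ^ c ≤ Vz w ^ c := pow_le_pow_left₀ (by positivity) hVz c
    have a2 : κ * (cz / Real.log w) ^ c ≤ v := by
      rw [hv]
      exact mul_le_mul_of_nonneg_left a1 hκ.le
    have a3 : (κ * (cz / Real.log w) ^ c) ^ 2 ≤ v ^ 2 := pow_le_pow_left₀ (by positivity) a2 2
    have a4 : (κ * (cz / Real.log w) ^ c) ^ 2 = κ ^ 2 * cz ^ (2 * c) / Real.log w ^ (2 * c) := by
      rw [mul_pow, ← pow_mul, div_pow, mul_comm c 2]
      ring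
    rw [a4] at a3
    rw [Real.rpow_one] at hw1
    have a5 : Cx / w ≤ η * (v / 4) ^ 2 := by
      have b1 : (|Cx| + 1) * 16 * Real.log w ^ (2 * c) ≤ w * (η * κ ^ 2 * cz ^ (2 * c)) := by
        rw [div_mul_eq_mul_div, div_le_iff₀ (by positivity)] at hw1
        exact hw1
      have b2 : (|Cx| + 1) * 16 / w ≤ η * (κ ^ 2 * cz ^ (2 * c) / Real.log w ^ (2 * c)) := by
        rw [div_le_iff₀ hw0]
        have e : η * (κ ^ 2 * cz ^ (2 * c) / Real.log w ^ (2 * c)) * w =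
          w * (η * κ ^ 2 * cz ^ (2 * c)) / Real.log w ^ (2 * c) := by ring
        rw [e, le_div_iff₀ (by positivity)]
        exact b1
      have b3 := b2.trans (mul_le_mul_of_nonneg_left a3 hη.le)
      have b4 : Cx / w ≤ (|Cx| + 1) / w := div_le_div_of_nonneg_right (by linarith [le_abs_self Cx]) hw0.le
      have b5 : (|Cx| + 1) * 16 / w = 16 * ((|Cx| + 1) / w) := by ring
      rw [b5] at b3
      nlinarith
    calc Cx * (K : ℝ) ^ 2 / w = Cx / w * (K : ℝ) ^ 2 := by ring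
      _ ≤ η * (v / 4) ^ 2 * (K : ℝ) ^ 2 := mul_le_mul_of_nonneg_right a5 (sq_nonneg _)
      _ = η * (v / 4 * K) ^ 2 := by ring
  · intro n hn
    have h1 := hK0 K (by omega) (fun p j => (p : ℤ) ∣ (A j : ℤ) * n + B j) (hper n hn)
      (by rw [hv]; exact hlow _ (hper n hn) (hadm n hn) w)
    refine h1.trans ?_
    have h2 : ((Ioc 0 K).filter (fun j => Sf (fun p j => (p : ℤ) ∣ (A j : ℤ) * n + B j) w j)).card ≤
        (Jn A B w K n).card := by
      apply card_le_card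
      intro j hj
      unfold Jn
      rw [mem_filter, mem_Ioc] at hj
      rw [mem_filter, mem_Icc]
      refine ⟨by omega, ?_⟩
      intro p hp hpw
      exact hj.2 p (mem_pz.2 ⟨hpw, hp⟩)
    exact_mod_cast h2

/-- the admissible `n` -/
def AdmP (f : ℤ[X]) (n : ℕ) : Prop := ∀ p : ℕ, p.Prime → ∃ j : ℕ, ¬ (p : ℤ) ∣ (n : ℤ) + f.eval (j : ℤ)

lemma perQ' (f : ℤ[X]) (n p j : ℕ) : (p : ℤ) ∣ ((1 : ℕ) : ℤ) * n + f.eval (j : ℤ) ↔
    (p : ℤ) ∣ ((1 : ℕ) : ℤ) * n + f.eval ((j % p : ℕ) : ℤ) := by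
  have h := Pool.Agent.W123.RU.Poly.per1 (f + C (n : ℤ)) p j
  rw [eval_add, eval_add, eval_C, eval_C] at h
  have e1 : ∀ x : ℤ, ((1 : ℕ) : ℤ) * n + x = x + n := fun x => by push_cast; ring
  rw [e1, e1]
  exact h

lemma fewP (f : ℤ[X]) (hD : 0 < f.natDegree) (n p : ℕ) (hp : p.Prime) :
    nuB (fun p j => (p : ℤ) ∣ ((1 : ℕ) : ℤ) * n + f.eval (j : ℤ)) p ≤ f.natDegree + f.leadingCoeff.natAbs := by
  classical
  by_cases hl : (p : ℤ) ∣ f.leadingCoeff
  · have h1 := nuB_le (fun p j => (p : ℤ) ∣ ((1 : ℕ) : ℤ) * n + f.eval (j : ℤ)) p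
    have h2 : p ∣ f.leadingCoeff.natAbs := Int.natCast_dvd.1 hl
    have hf : f ≠ 0 := by
      intro h
      rw [h, natDegree_zero] at hD
      exact lt_irrefl _ hD
    have h3 := Nat.le_of_dvd (Nat.pos_of_ne_zero (Int.natAbs_ne_zero.2 (leadingCoeff_ne_zero.2 hf))) h2
    omega
  · have hF := lead_add f hD (n : ℤ)
    have h1 := rho_lead (f + C (n : ℤ)) p hp (by rw [hF.2]; exact hl)
    rw [hF.1] at h1
    have h2 : nuB (fun p j => (p : ℤ) ∣ ((1 : ℕ) : ℤ) * n + f.eval (j : ℤ)) p ≤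
        Pool.Agent.H474R2.PG.rho (f + C (n : ℤ)) p := by
      unfold nuB Pool.Agent.H474R2.PG.rho
      apply card_le_card
      intro r hr
      simp only [mem_filter] at hr ⊢
      refine ⟨hr.1, ?_⟩
      rw [eval_add, eval_C]
      have e : ((1 : ℕ) : ℤ) * n + f.eval (r : ℤ) = f.eval (r : ℤ) + n := by push_cast; ring
      rw [← e]
      exact hr.2
    omega

lemma perP (f : ℤ[X]) (hD : 0 < f.natDegree) (n : ℕ) :
    PerB (fun p j => (p : ℤ) ∣ ((1 : ℕ) : ℤ) * n + f.eval (j : ℤ)) (f.natDegree + f.leadingCoeff.natAbs) :=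
  ⟨fun p j => perQ' f n p j, fun p hp => fewP f hD n p hp⟩

lemma nuB_lt (Q : ℕ → ℕ → Prop) (p r : ℕ) (hr : r < p) (hn : ¬ Q p r) : nuB Q p < p := by
  classical
  unfold nuB
  refine lt_of_lt_of_eq (card_lt_card ?_) (card_range p)
  exact (ssubset_iff_of_subset (filter_subset _ _)).2 ⟨r, mem_range.2 hr, fun h => hn (mem_filter.1 h).2⟩

lemma admP (f : ℤ[X]) (n : ℕ) (hn : AdmP f n) (p : ℕ) (hp : p.Prime) :
    nuB (fun p j => (p : ℤ) ∣ ((1 : ℕ) : ℤ) * n + f.eval (j : ℤ)) p < p := by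
  obtain ⟨j, hj⟩ := hn p hp
  apply nuB_lt _ p (j % p) (Nat.mod_lt _ hp.pos)
  intro h
  have h2 := (perQ' f n p j).2 h
  rw [Nat.cast_one, one_mul] at h2
  exact hj h2

open Classical in
/-- **Values of polynomials at the smallest arguments, for almost all constant terms.** -/
theorem mainPoly (f : ℤ[X]) (hD : 0 < f.natDegree) (hinj : Inj f) (θ ε : ℝ) (k : ℕ) (hθ : 0 < θ) (hθ1 : θ ≤ 1)
    (hk : 1 / 8 + 25 / (12 * θ) < k) (hε : 0 < ε) :
    ∃ κ Λ : ℝ, 0 < κ ∧ 0 < Λ ∧ ∀ l : ℝ, Λ ≤ l → ∀ᶠ X : ℕ in atTop, ∀ Z L : ℕ,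
      (X : ℝ) ^ θ ≤ L → Z + L ≤ X →
      (((Ioc Z (Z + L)).filter (fun n => AdmP f n ∧
        (cnt (fun _ => 1) (fun j => f.eval (j : ℤ)) k ⌊l * Real.log X⌋₊ n ((X : ℝ) ^ (θ / 10)) : ℝ) < κ * l)).card :
          ℝ) ≤ ε * L := by
  obtain ⟨D1, hsz⟩ := size_poly f
  refine mainH (datP f hinj D1 hsz) (AdmP f) ?_ θ ε k hθ hθ1 hk hε
  intro η hη
  exact avg_of2 (f.natDegree + f.leadingCoeff.natAbs) (by omega) (fun _ => 1) (fun j => f.eval (j : ℤ)) (AdmP f)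
    (f.leadingCoeff.natAbs + 14 * f.natDegree) (28 * f.natDegree + 1)
    (fun w hw hl => excP f hD hinj w hw hl) (fun n _ => perP f hD n) (fun n hn p hp => admP f n hn p hp) 0 η hη

end Pool.Agent.R490.GPh
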