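import Pool.Agent.R490.GPh

set_option autoImplicit false

/-!
# The forms `j n + (σ - j²)`: the numbers `a b + σ` with `a + b = n`
-/

namespace Pool.Agent.R490.GPi

open Finset Filter Polynomial
open Pool.Agent.W123.RP Pool.Agent.H373R2.T7 Pool.Agent.W123.RU Pool.Agent.TH464.PO Pool.Agent.TH464.PW
open Pool.Agent.Y879.AP Pool.Agent.R490.P3b Pool.Agent.R490.LGa Pool.Agent.R490.LGb Pool.Agent.R490.LGd
open Pool.Agent.R490.LGe Pool.Agent.R490.GPg Pool.Agent.R490.GPh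

/-- the leading coefficients -/
def Am : ℕ → ℕ := fun j => j

/-- the constant terms -/
def Bm (s : ℤ) : ℕ → ℤ := fun j => s - (j : ℤ) ^ 2

lemma not_dvd_unit (s : ℤ) (hs : s = 1 ∨ s = -1) (p : ℕ) (hp : p.Prime) : ¬ (p : ℤ) ∣ s := by
  intro h
  have h1 : p ∣ s.natAbs := Int.natCast_dvd.1 h
  have h2 : s.natAbs = 1 := by omega
  rw [h2] at h1
  exact hp.one_lt.ne' (Nat.dvd_one.1 h1)

lemma Rs_eq (s : ℤ) (j j' : ℕ) : Rs Am (Bm s) j j' = ((j : ℤ) - j') * ((j : ℤ) * j' + s) := by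
  unfold Rs Am Bm
  ring

lemma ne_zero (s : ℤ) (hs : s = 1 ∨ s = -1) (j j' : ℕ) (h1 : 1 ≤ j) (h2 : 1 ≤ j') (hne : j ≠ j') :
    (j : ℤ) * j' + s ≠ 0 := by
  have h3 : (2 : ℤ) ≤ (j : ℤ) * j' := by
    have h4 : 2 ≤ j * j' := by
      rcases Nat.lt_or_ge j j' with h | h
      · calc 2 ≤ 1 * j' := by omega
          _ ≤ j * j' := Nat.mul_le_mul_right _ h1
      · calc 2 ≤ j * 1 := by omega
          _ ≤ j * j' := Nat.mul_le_mul_left _ h2
    exact_mod_cast h4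
  rcases hs with h | h <;> rw [h] <;> intro h5 <;> linarith

lemma datM (s : ℤ) (hs : s = 1 ∨ s = -1) : Dat Am (Bm s) 2 0 := by
  refine ⟨fun j hj => hj, ?_, ?_, ?_, ?_⟩
  · intro j _
    show j ≤ (j + 1) ^ 2
    nlinarith
  · intro j hj
    unfold Bm
    refine (Int.natAbs_sub_le _ _).trans ?_
    have h1 : s.natAbs = 1 := by omega
    rw [h1, Int.natAbs_pow, Int.natAbs_natCast]
    nlinarith
  · intro j _ p hp _ hd h
    unfold Am at hd
    unfold Bm at h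
    apply not_dvd_unit s hs p hp
    have h1 : (p : ℤ) ∣ (j : ℤ) ^ 2 := Dvd.dvd.pow (by exact_mod_cast hd) (by norm_num)
    have h2 := dvd_add h h1
    rwa [sub_add_cancel] at h2
  · intro j j' h1 h2 hne
    rw [Rs_eq]
    apply mul_ne_zero _ (ne_zero s hs j j' h1 h2 hne)
    intro h
    exact hne (by omega)

open Classical in
/-- the arguments with all values divisible -/
lemma cnt_poly' (f : ℤ[X]) (K : ℕ) (T : Finset ℕ) (hT : ∀ p ∈ T, p.Prime ∧ ¬ (p : ℤ) ∣ f.leadingCoeff) :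
    (((Icc 1 K).filter (fun j : ℕ => ∀ p ∈ T, (p : ℤ) ∣ f.eval (j : ℤ))).card : ℝ) ≤
      (f.natDegree : ℝ) ^ T.card * (K / (∏ p ∈ T, (p : ℝ)) + 1) := by
  have h3 := count_sys (fun p a => (p : ℤ) ∣ f.eval (a : ℤ)) K T (fun p hp => (hT p hp).1) 1 le_rfl
    (fun p hp hd => (hT p hp).1.one_lt.ne' (Nat.dvd_one.1 hd)) 0
  have e1 : (Icc 1 K).filter (fun n => n ≡ 0 [MOD 1] ∧ ∀ p ∈ T, (p : ℤ) ∣ f.eval ((n % p : ℕ) : ℤ)) =
      (Icc 1 K).filter (fun j : ℕ => ∀ p ∈ T, (p : ℤ) ∣ f.eval (j : ℤ)) := by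
    apply filter_congr
    intro n _
    constructor
    · rintro ⟨_, h⟩ p hp
      exact (Pool.Agent.W123.RU.Poly.per1 f p n).2 (h p hp)
    · intro h
      exact ⟨Nat.modEq_one, fun p hp => (Pool.Agent.W123.RU.Poly.per1 f p n).1 (h p hp)⟩
  rw [e1, Nat.cast_one, div_one] at h3
  have hν : ∀ p ∈ T, (((range p).filter (fun a : ℕ => (p : ℤ) ∣ f.eval (a : ℤ))).card : ℝ) ≤ f.natDegree := by
    intro p hp
    have := rho_lead f p (hT p hp).1 (hT p hp).2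
    unfold Pool.Agent.H474R2.PG.rho at this
    exact_mod_cast this
  have h4 : ∏ p ∈ T, (((range p).filter (fun a : ℕ => (p : ℤ) ∣ f.eval (a : ℤ))).card : ℝ) ≤
      (f.natDegree : ℝ) ^ T.card := by
    rw [← prod_const]
    exact Finset.prod_le_prod (fun _ _ => Nat.cast_nonneg _) hν
  have h5 : ∏ p ∈ T, ((((range p).filter (fun a : ℕ => (p : ℤ) ∣ f.eval (a : ℤ))).card : ℝ) / p) ≤
      (f.natDegree : ℝ) ^ T.card / ∏ p ∈ T, (p : ℝ) := by
    rw [prod_div_distrib]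
    exact div_le_div_of_nonneg_right h4 (prod_nonneg fun _ _ => Nat.cast_nonneg _)
  have h6 := (abs_le.1 h3).2
  have h7 : (K : ℝ) * ∏ p ∈ T, ((((range p).filter (fun a : ℕ => (p : ℤ) ∣ f.eval (a : ℤ))).card : ℝ) / p) ≤
      K * ((f.natDegree : ℝ) ^ T.card / ∏ p ∈ T, (p : ℝ)) := mul_le_mul_of_nonneg_left h5 (Nat.cast_nonneg _)
  have e : (f.natDegree : ℝ) ^ T.card * (K / (∏ p ∈ T, (p : ℝ)) + 1) =
      K * ((f.natDegree : ℝ) ^ T.card / ∏ p ∈ T, (p : ℝ)) + (f.natDegree : ℝ) ^ T.card := by ring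
  rw [e]
  linarith

open Classical in
lemma rowM (s : ℤ) (hs : s = 1 ∨ s = -1) (w y K j : ℕ) (hw : 14 ≤ w) (hj : j ∈ Icc 1 K) :
    ∑ j' ∈ Icc 1 K, (if j = j' then 0 else tw w y ((j : ℤ) * j' + s).natAbs ^ 3 - 1) ≤
      K * (28 / (w : ℝ)) + ((Vz (2 * (K + 1) ^ 2))⁻¹) ^ 14 := by
  have e1 : ∑ j' ∈ Icc 1 K, (if j = j' then 0 else tw w y ((j : ℤ) * j' + s).natAbs ^ 3 - 1) =
      ∑ j' ∈ (Icc 1 K).erase j, (tw w y ((j : ℤ) * j' + s).natAbs ^ 3 - 1) := by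
    rw [← add_sum_erase _ _ hj, if_pos rfl, zero_add]
    apply sum_congr rfl
    intro j' hj'
    rw [mem_erase] at hj'
    rw [if_neg (Ne.symm hj'.1)]
  rw [e1]
  obtain ⟨M, hM⟩ : ∃ M, M = 2 * (K + 1) ^ 2 := ⟨_, rfl⟩
  rw [← hM]
  have hj1 := mem_Icc.1 hj
  have hj0 : (j : ℤ) ≠ 0 := by exact_mod_cast (by omega : j ≠ 0)
  obtain ⟨F, hF⟩ : ∃ F : ℤ[X], F = C (j : ℤ) * X + C s := ⟨_, rfl⟩
  have hFd : F.natDegree = 1 := by rw [hF]; exact natDegree_linear hj0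
  have hFl : F.leadingCoeff = j := by rw [hF]; exact leadingCoeff_linear hj0
  have hFe : ∀ x : ℤ, F.eval x = j * x + s := by
    intro x
    rw [hF, eval_add, eval_mul, eval_C, eval_X, eval_C]
  have h1 := sum_tw3 w y M K 1 ((Icc 1 K).erase j)
    (fun j' => ((j : ℤ) * j' + s).natAbs) (by
      intro j' hj'
      rw [mem_erase, mem_Icc] at hj'
      constructor
      · apply Nat.pos_of_ne_zero
        rw [Int.natAbs_ne_zero]
        exact ne_zero s hs j j' hj1.1 hj'.2.1 (Ne.symm hj'.1)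
      · refine (Int.natAbs_add_le _ _).trans ?_
        have a1 : s.natAbs = 1 := by omega
        rw [a1, Int.natAbs_mul, Int.natAbs_natCast, Int.natAbs_natCast, hM]
        have a2 : j * j' ≤ K * K := Nat.mul_le_mul hj1.2 hj'.2.2
        nlinarith) (by
      intro T hT
      by_cases hc : ∃ p ∈ T, (p : ℤ) ∣ (j : ℤ)
      · obtain ⟨p, hp, hpj⟩ := hc
        have e0 : ((Icc 1 K).erase j).filter (fun j' : ℕ => ∀ p ∈ T, p ∣ ((j : ℤ) * j' + s).natAbs) = ∅ := by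
          rw [filter_eq_empty_iff]
          intro j' _ h
          have h2 : (p : ℤ) ∣ (j : ℤ) * j' + s := Int.natCast_dvd.2 (h p hp)
          have h3 : (p : ℤ) ∣ s := (dvd_add_right (hpj.mul_right _)).1 h2
          exact not_dvd_unit s hs p (mem_Pw.1 (hT hp)).2.2 h3
        have e0' : ((((Icc 1 K).erase j).filter (fun j' : ℕ => ∀ p ∈ T, p ∣ ((j : ℤ) * j' + s).natAbs)).card : ℝ) = 0 := by
          rw [e0, card_empty, Nat.cast_zero]
        rw [e0']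
        have : (0 : ℝ) ≤ ∏ p ∈ T, (p : ℝ) := prod_nonneg fun _ _ => Nat.cast_nonneg _
        positivity
      · push Not at hc
        have h2 := cnt_poly' F K T (fun p hp => by
          rw [hFl]
          exact ⟨(mem_Pw.1 (hT hp)).2.2, hc p hp⟩)
        rw [hFd] at h2
        refine le_trans ?_ h2
        have h3 : (((Icc 1 K).erase j).filter (fun j' : ℕ => ∀ p ∈ T, p ∣ ((j : ℤ) * j' + s).natAbs)).card ≤
            ((Icc 1 K).filter (fun j : ℕ => ∀ p ∈ T, (p : ℤ) ∣ F.eval (j : ℤ))).card := by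
          apply card_le_card
          intro j' hj'
          rw [mem_filter, mem_erase] at hj'
          rw [mem_filter]
          refine ⟨hj'.1.2, fun p hp => ?_⟩
          rw [hFe]
          exact Int.natCast_dvd.2 (hj'.2 p hp)
        exact_mod_cast h3)
  refine h1.trans ?_
  have h2 := prod_sq' w M 1 (by omega) (by omega)
  have h3 := prod_one' w M 1
  have h4 := mul_le_mul_of_nonneg_left h2 (Nat.cast_nonneg (α := ℝ) K)
  norm_num at h2 h3 h4 ⊢
  linarith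

/-- the excess on average -/
lemma excM (s : ℤ) (hs : s = 1 ∨ s = -1) (w : ℕ) (hw : 14 ≤ w) : ∃ K1 : ℕ, ∀ K : ℕ, K1 ≤ K → ∀ y : ℕ,
    ∑ j ∈ Icc 1 K, ∑ j' ∈ Icc 1 K, exc Am (Bm s) w y j j' ≤ 66 * (K : ℝ) ^ 2 / w := by
  classical
  obtain ⟨K1, h1⟩ := log_ev 2 14 w (by omega)
  refine ⟨K1, fun K hK y => ?_⟩
  have h2 := h1 K hK
  have hw0 : (0 : ℝ) < w := by exact_mod_cast (by omega : 0 < w)
  have hw14 : (14 : ℝ) ≤ w := by exact_mod_cast hw
  obtain ⟨x, hx⟩ : ∃ x : ℝ, x = (K : ℝ) / w := ⟨_, rfl⟩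
  rw [← hx] at h2
  have hx0 : 0 ≤ x := by rw [hx]; positivity
  have hK0 : (0 : ℝ) ≤ K := Nat.cast_nonneg _
  have hx14 : 14 * x ≤ K := by
    have : x * w = K := by rw [hx]; field_simp
    nlinarith
  obtain ⟨u, hu⟩ : ∃ u : ℕ → ℝ, u = fun n => tw w y n ^ 3 - 1 := ⟨_, rfl⟩
  have hu0 : ∀ n, 0 ≤ u n := fun n => by rw [hu]; exact cube_ge w y n
  obtain ⟨G, hG⟩ : ∃ G, G = ∑ n ∈ Icc 1 K, u n := ⟨_, rfl⟩
  have hG0 : 0 ≤ G := by rw [hG]; exact sum_nonneg fun n _ => hu0 n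
  have hG1 : G ≤ 28 * x := by
    have := sum_ex w y K hw
    rw [hG, hu, hx]
    refine this.trans (le_of_eq (by ring))
  have hrow : ∀ j ∈ Icc 1 K, ∑ j' ∈ Icc 1 K, (if j = j' then 0 else u ((j : ℤ) * j' + s).natAbs) ≤ 29 * x := by
    intro j hj
    have h4 := rowM s hs w y K j hw hj
    have e : (K : ℝ) * (28 / (w : ℝ)) = 28 * x := by rw [hx]; ring
    rw [e] at h4
    rw [hu]
    linarith
  have hcell : ∀ j ∈ Icc 1 K, ∀ j' ∈ Icc 1 K, exc Am (Bm s) w y j j' ≤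
      ((u j + u j' + u j * u j') + (if j = j' then 0 else u ((j : ℤ) - j').natAbs) +
        (if j = j' then 0 else u ((j : ℤ) * j' + s).natAbs)) / 3 := by
    intro j _ j' _
    unfold exc
    have a1 := hu0 j
    have a2 := hu0 j'
    have a3 := mul_nonneg a1 a2
    split_ifs with hne
    · linarith
    · rw [Rs_eq, Int.natAbs_mul]
      have b1 := tw_mul_le w y ((j : ℤ) - j').natAbs ((j : ℤ) * j' + s).natAbs
      have b2 : 1 ≤ tw w y j * tw w y j' := one_le_mul_of_one_le_of_one_le (one_le_tw w y j) (one_le_tw w y j')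
      have b3 := amgm3 _ _ _ b2 (one_le_tw w y ((j : ℤ) - j').natAbs) (one_le_tw w y ((j : ℤ) * j' + s).natAbs)
      have b4 := mul_le_mul_of_nonneg_left b1 (zero_le_one.trans b2)
      have e1 : tw w y (Am j) * tw w y (Am j') = tw w y j * tw w y j' := rfl
      rw [e1]
      have e2 : (tw w y j * tw w y j') ^ 3 - 1 = u j + u j' + u j * u j' := by
        rw [hu]
        ring
      rw [e2] at b3
      have e3 : u ((j : ℤ) - j').natAbs = tw w y ((j : ℤ) - j').natAbs ^ 3 - 1 := by rw [hu]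
      have e4 : u ((j : ℤ) * j' + s).natAbs = tw w y ((j : ℤ) * j' + s).natAbs ^ 3 - 1 := by rw [hu]
      rw [e3, e4]
      linarith
  have h3 : ∀ j ∈ Icc 1 K, ∑ j' ∈ Icc 1 K, exc Am (Bm s) w y j j' ≤
      (K * u j + G + u j * G + 2 * G + 29 * x) / 3 := by
    intro j hj
    refine (sum_le_sum (hcell j hj)).trans ?_
    rw [← sum_div, sum_add_distrib, sum_add_distrib, sum_add_distrib, sum_add_distrib, sum_const, nsmul_eq_mul,
      ← mul_sum, Nat.card_Icc, Nat.add_sub_cancel, ← hG]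
    have b1 := hrow j hj
    have b2 := sum_diff u hu0 K j hj
    rw [← hG] at b2
    linarith
  refine (sum_le_sum h3).trans ?_
  rw [← sum_div, sum_add_distrib, sum_add_distrib, sum_add_distrib, sum_add_distrib, ← mul_sum, ← sum_mul, sum_const,
    sum_const, sum_const, nsmul_eq_mul, nsmul_eq_mul, nsmul_eq_mul, Nat.card_Icc, Nat.add_sub_cancel, ← hG]
  have e5 : 66 * (K : ℝ) ^ 2 / w = 66 * (K * x) := by rw [hx]; ring
  rw [e5]
  have c1 : (K : ℝ) * G ≤ K * (28 * x) := mul_le_mul_of_nonneg_left hG1 hK0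
  have c2 : G * G ≤ 28 * x * (28 * x) := mul_le_mul hG1 hG1 hG0 (by positivity)
  have c3 : 14 * x * x ≤ K * x := mul_le_mul_of_nonneg_right hx14 hx0
  nlinarith [mul_nonneg hK0 hx0]

lemma perM (s : ℤ) (hs : s = 1 ∨ s = -1) (n : ℕ) : PerB (fun p j => (p : ℤ) ∣ (Am j : ℤ) * n + Bm s j) 2 := by
  classical
  obtain ⟨F, hF⟩ : ∃ F : ℤ[X], F = C 1 * X ^ 2 + C (-(n : ℤ)) * X + C (-s) := ⟨_, rfl⟩
  have hFd : F.natDegree = 2 := by rw [hF]; exact natDegree_quadratic one_ne_zero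
  have hFl : F.leadingCoeff = 1 := by rw [hF]; exact leadingCoeff_quadratic one_ne_zero
  have hFe : ∀ j : ℕ, (Am j : ℤ) * n + Bm s j = -F.eval (j : ℤ) := by
    intro j
    rw [hF]
    simp only [eval_add, eval_mul, eval_C, eval_X, eval_pow]
    unfold Am Bm
    ring
  refine ⟨fun p j => ?_, fun p hp => ?_⟩
  · show (p : ℤ) ∣ (Am j : ℤ) * n + Bm s j ↔ (p : ℤ) ∣ (Am (j % p) : ℤ) * n + Bm s (j % p)
    rw [hFe, hFe, dvd_neg, dvd_neg]
    exact Pool.Agent.W123.RU.Poly.per1 F p j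
  · have h1 := rho_lead F p hp (by
      rw [hFl]
      exact not_dvd_unit 1 (Or.inl rfl) p hp)
    rw [hFd] at h1
    refine le_trans ?_ h1
    unfold nuB Pool.Agent.H474R2.PG.rho
    apply card_le_card
    intro r hr
    simp only [mem_filter] at hr ⊢
    refine ⟨hr.1, ?_⟩
    have h2 := hr.2
    rw [hFe, dvd_neg] at h2
    exact h2

/-- no condition on `n` -/
def AdmAll (n : ℕ) : Prop := 0 ≤ n

open Classical in
/-- **The numbers `a b + σ` with `a + b = n` at the smallest `a`, for almost all `n`.** -/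
theorem mainM (s : ℤ) (hs : s = 1 ∨ s = -1) (θ ε : ℝ) (k : ℕ) (hθ : 0 < θ) (hθ1 : θ ≤ 1)
    (hk : 1 / 8 + 25 / (12 * θ) < k) (hε : 0 < ε) :
    ∃ κ Λ : ℝ, 0 < κ ∧ 0 < Λ ∧ ∀ l : ℝ, Λ ≤ l → ∀ᶠ X : ℕ in atTop, ∀ Z L : ℕ,
      (X : ℝ) ^ θ ≤ L → Z + L ≤ X →
      (((Ioc Z (Z + L)).filter (fun n => AdmAll n ∧
        (cnt Am (Bm s) k ⌊l * Real.log X⌋₊ n ((X : ℝ) ^ (θ / 10)) : ℝ) < κ * l)).card : ℝ) ≤ ε * L := by
  refine mainH (datM s hs) AdmAll ?_ θ ε k hθ hθ1 hk hε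
  intro η hη
  exact avg_of2 2 (by norm_num) Am (Bm s) AdmAll 14 66
    (fun w hw _ => excM s hs w hw) (fun n _ => perM s hs n) (fun n _ p hp => by
      apply nuB_lt _ p 0 hp.pos
      intro h
      apply not_dvd_unit s hs p hp
      unfold Am Bm at h
      simpa using h) 0 η hη

end Pool.Agent.R490.GPi
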