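import Pool.Agent.R490.GPi

set_option autoImplicit false

/-!
# The forms `(j² + 1) n - j`
-/

namespace Pool.Agent.R490.GPj

open Finset Filter Polynomial
open Pool.Agent.W123.RP Pool.Agent.H373R2.T7 Pool.Agent.W123.RU Pool.Agent.TH464.PO Pool.Agent.TH464.PW
open Pool.Agent.Y879.AP Pool.Agent.R490.P3b Pool.Agent.R490.LGa Pool.Agent.R490.LGb Pool.Agent.R490.LGd
open Pool.Agent.R490.LGe Pool.Agent.R490.GPg Pool.Agent.R490.GPh Pool.Agent.R490.GPi

/-- the leading coefficients -/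
def An : ℕ → ℕ := fun j => j ^ 2 + 1

/-- the constant terms -/
def Bn : ℕ → ℤ := fun j => -(j : ℤ)

lemma Rs_eq' (j j' : ℕ) : Rs An Bn j j' = -(((j : ℤ) - j') * ((j : ℤ) * j' + -1)) := by
  unfold Rs An Bn
  push_cast
  ring

lemma datN : Dat An Bn 2 0 := by
  refine ⟨fun j _ => Nat.le_add_left _ _, ?_, ?_, ?_, ?_⟩
  · intro j _
    show j ^ 2 + 1 ≤ (j + 1) ^ 2
    nlinarith
  · intro j hj
    unfold Bn
    rw [Int.natAbs_neg, Int.natAbs_natCast]
    nlinarith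
  · intro j _ p hp _ hd h
    unfold An at hd
    unfold Bn at h
    rw [dvd_neg] at h
    have h1 : p ∣ j := by exact_mod_cast h
    have h2 : p ∣ j ^ 2 := dvd_pow h1 (by norm_num)
    have h3 := (Nat.dvd_add_right h2).1 hd
    exact hp.one_lt.ne' (Nat.dvd_one.1 h3)
  · intro j j' h1 h2 hne
    rw [Rs_eq']
    apply neg_ne_zero.2
    apply mul_ne_zero _ (ne_zero (-1) (Or.inr rfl) j j' h1 h2 hne)
    intro h
    exact hne (by omega)

open Classical in
/-- the column sums -/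
lemma col (f : ℤ[X]) (hD : 0 < f.natDegree) (hz : ∀ j : ℕ, 1 ≤ j → f.eval (j : ℤ) ≠ 0) (D1 w y K : ℕ) (hw : 14 ≤ w)
    (hl : f.leadingCoeff.natAbs ≤ w) (hDw : 14 * f.natDegree ≤ w)
    (hsz : ∀ j : ℕ, 1 ≤ j → (f.eval (j : ℤ)).natAbs ≤ (j + 1) ^ D1) :
    ∑ j ∈ Icc 1 K, (tw w y (f.eval (j : ℤ)).natAbs ^ 3 - 1) ≤
      K * (28 * f.natDegree / (w : ℝ)) + ((Vz (2 * (K + 1) ^ D1))⁻¹) ^ (14 * f.natDegree) := by
  obtain ⟨M, hM⟩ : ∃ M, M = 2 * (K + 1) ^ D1 := ⟨_, rfl⟩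
  rw [← hM]
  have hf0 : f ≠ 0 := by
    intro h
    rw [h, natDegree_zero] at hD
    exact lt_irrefl _ hD
  have h1 := sum_tw3 w y M K f.natDegree (Icc 1 K)
    (fun j => (f.eval (j : ℤ)).natAbs) (by
      intro j hj
      rw [mem_Icc] at hj
      constructor
      · exact Nat.pos_of_ne_zero (Int.natAbs_ne_zero.2 (hz j hj.1))
      · have a1 := hsz j hj.1
        have a3 : (j + 1) ^ D1 ≤ (K + 1) ^ D1 := Nat.pow_le_pow_left (by omega) _
        show (f.eval (j : ℤ)).natAbs ≤ M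
        omega) (by
      intro T hT
      have h2 := cnt_poly f K T (fun p hp => by
        have := mem_Pw.1 (hT hp)
        exact ⟨this.2.2, by omega⟩) hf0
      refine le_trans (le_of_eq ?_) h2
      congr 2
      apply filter_congr
      intro j _
      constructor
      · intro h p hp
        exact Int.natCast_dvd.2 (h p hp)
      · intro h p hp
        exact Int.natCast_dvd.1 (h p hp))
  refine h1.trans ?_
  have h2 := prod_sq' w M f.natDegree (by omega) hDw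
  have h3 := prod_one' w M f.natDegree
  have h4 : (K : ℝ) * (∏ p ∈ Pw w M, (1 + 14 * f.natDegree / (p : ℝ) ^ 2) - 1) ≤ K * (28 * f.natDegree / (w : ℝ)) :=
    mul_le_mul_of_nonneg_left h2 (Nat.cast_nonneg _)
  linarith

/-- the column sums for `j² + 1` -/
lemma colN (w y K : ℕ) (hw : 28 ≤ w) : ∑ j ∈ Icc 1 K, (tw w y (An j) ^ 3 - 1) ≤
    K * (56 / (w : ℝ)) + ((Vz (2 * (K + 1) ^ 2))⁻¹) ^ 28 := by
  obtain ⟨f, hf⟩ : ∃ f : ℤ[X], f = X ^ 2 + C 1 := ⟨_, rfl⟩
  have hd : f.natDegree = 2 := by rw [hf]; exact natDegree_X_pow_add_C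
  have hl : f.leadingCoeff = 1 := by rw [hf]; exact leadingCoeff_X_pow_add_C (by norm_num)
  have he : ∀ j : ℕ, f.eval (j : ℤ) = ((An j : ℕ) : ℤ) := by
    intro j
    rw [hf]
    unfold An
    simp only [eval_add, eval_C, eval_X, eval_pow]
    push_cast
    ring
  have h := col f (by omega) (by
    intro j _
    rw [he]
    have : 0 < An j := Nat.succ_pos _
    exact_mod_cast this.ne') 2 w y K (by omega) (by rw [hl]; show 1 ≤ w; omega) (by omega) (by
    intro j _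
    rw [he, Int.natAbs_natCast]
    unfold An
    nlinarith)
  have e : ∑ j ∈ Icc 1 K, (tw w y (f.eval (j : ℤ)).natAbs ^ 3 - 1) = ∑ j ∈ Icc 1 K, (tw w y (An j) ^ 3 - 1) := by
    apply sum_congr rfl
    intro j _
    rw [he, Int.natAbs_natCast]
  rw [e, hd] at h
  norm_num at h ⊢
  exact h

/-- the excess on average -/
lemma excN (w : ℕ) (hw : 28 ≤ w) : ∃ K1 : ℕ, ∀ K : ℕ, K1 ≤ K → ∀ y : ℕ,
    ∑ j ∈ Icc 1 K, ∑ j' ∈ Icc 1 K, exc An Bn w y j j' ≤ 145 * (K : ℝ) ^ 2 / w := by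
  classical
  obtain ⟨K1, h1⟩ := log_ev 2 14 w (by omega)
  obtain ⟨K2, h2'⟩ := log_ev 2 28 w (by omega)
  refine ⟨max K1 K2, fun K hK y => ?_⟩
  have h2 := h1 K ((le_max_left _ _).trans hK)
  have h2' := h2' K ((le_max_right _ _).trans hK)
  have hw0 : (0 : ℝ) < w := by exact_mod_cast (by omega : 0 < w)
  have hw14 : (14 : ℝ) ≤ w := by exact_mod_cast (by omega : 14 ≤ w)
  obtain ⟨x, hx⟩ : ∃ x : ℝ, x = (K : ℝ) / w := ⟨_, rfl⟩
  rw [← hx] at h2 h2'
  have hx0 : 0 ≤ x := by rw [hx]; positivity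
  have hK0 : (0 : ℝ) ≤ K := Nat.cast_nonneg _
  have hx14 : 14 * x ≤ K := by
    have : x * w = K := by rw [hx]; field_simp
    nlinarith
  obtain ⟨u, hu⟩ : ∃ u : ℕ → ℝ, u = fun n => tw w y n ^ 3 - 1 := ⟨_, rfl⟩
  have hu0 : ∀ n, 0 ≤ u n := fun n => by rw [hu]; exact cube_ge w y n
  obtain ⟨G, hG⟩ : ∃ G, G = ∑ n ∈ Icc 1 K, u n := ⟨_, rfl⟩
  have hG1 : G ≤ 28 * x := by
    have := sum_ex w y K (by omega)
    rw [hG, hu, hx]
    refine this.trans (le_of_eq (by ring))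
  obtain ⟨H, hH⟩ : ∃ H, H = ∑ n ∈ Icc 1 K, u (An n) := ⟨_, rfl⟩
  have hH0 : 0 ≤ H := by rw [hH]; exact sum_nonneg fun n _ => hu0 _
  have hH1 : H ≤ 57 * x := by
    have := colN w y K hw
    have e : (K : ℝ) * (56 / (w : ℝ)) = 56 * x := by rw [hx]; ring
    rw [e] at this
    rw [hH, hu]
    linarith
  have hrow : ∀ j ∈ Icc 1 K, ∑ j' ∈ Icc 1 K, (if j = j' then 0 else u ((j : ℤ) * j' + -1).natAbs) ≤ 29 * x := by
    intro j hj
    have h4 := rowM (-1) (Or.inr rfl) w y K j (by omega) hj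
    have e : (K : ℝ) * (28 / (w : ℝ)) = 28 * x := by rw [hx]; ring
    rw [e] at h4
    rw [hu]
    linarith
  have hcell : ∀ j ∈ Icc 1 K, ∀ j' ∈ Icc 1 K, exc An Bn w y j j' ≤
      ((u (An j) + u (An j') + u (An j) * u (An j')) + (if j = j' then 0 else u ((j : ℤ) - j').natAbs) +
        (if j = j' then 0 else u ((j : ℤ) * j' + -1).natAbs)) / 3 := by
    intro j _ j' _
    unfold exc
    have a1 := hu0 (An j)
    have a2 := hu0 (An j')
    have a3 := mul_nonneg a1 a2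
    split_ifs with hne
    · linarith
    · rw [Rs_eq', Int.natAbs_neg, Int.natAbs_mul]
      have b1 := tw_mul_le w y ((j : ℤ) - j').natAbs ((j : ℤ) * j' + -1).natAbs
      have b2 : 1 ≤ tw w y (An j) * tw w y (An j') :=
        one_le_mul_of_one_le_of_one_le (one_le_tw w y _) (one_le_tw w y _)
      have b3 := amgm3 _ _ _ b2 (one_le_tw w y ((j : ℤ) - j').natAbs) (one_le_tw w y ((j : ℤ) * j' + -1).natAbs)
      have b4 := mul_le_mul_of_nonneg_left b1 (zero_le_one.trans b2)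
      have e2 : (tw w y (An j) * tw w y (An j')) ^ 3 - 1 = u (An j) + u (An j') + u (An j) * u (An j') := by
        rw [hu]
        ring
      rw [e2] at b3
      have e3 : u ((j : ℤ) - j').natAbs = tw w y ((j : ℤ) - j').natAbs ^ 3 - 1 := by rw [hu]
      have e4 : u ((j : ℤ) * j' + -1).natAbs = tw w y ((j : ℤ) * j' + -1).natAbs ^ 3 - 1 := by rw [hu]
      rw [e3, e4]
      linarith
  have h3 : ∀ j ∈ Icc 1 K, ∑ j' ∈ Icc 1 K, exc An Bn w y j j' ≤
      (K * u (An j) + H + u (An j) * H + 2 * G + 29 * x) / 3 := by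
    intro j hj
    refine (sum_le_sum (hcell j hj)).trans ?_
    rw [← sum_div, sum_add_distrib, sum_add_distrib, sum_add_distrib, sum_add_distrib, sum_const, nsmul_eq_mul,
      ← mul_sum, Nat.card_Icc, Nat.add_sub_cancel, ← hH]
    have b1 := hrow j hj
    have b2 := sum_diff u hu0 K j hj
    rw [← hG] at b2
    linarith
  refine (sum_le_sum h3).trans ?_
  rw [← sum_div, sum_add_distrib, sum_add_distrib, sum_add_distrib, sum_add_distrib, ← mul_sum, ← sum_mul, sum_const,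
    sum_const, sum_const, nsmul_eq_mul, nsmul_eq_mul, nsmul_eq_mul, Nat.card_Icc, Nat.add_sub_cancel, ← hH]
  have e5 : 145 * (K : ℝ) ^ 2 / w = 145 * (K * x) := by rw [hx]; ring
  rw [e5]
  have c1 : (K : ℝ) * G ≤ K * (28 * x) := mul_le_mul_of_nonneg_left hG1 hK0
  have c1' : (K : ℝ) * H ≤ K * (57 * x) := mul_le_mul_of_nonneg_left hH1 hK0
  have c2 : H * H ≤ 57 * x * (57 * x) := mul_le_mul hH1 hH1 hH0 (by positivity)
  have c3 : 14 * x * x ≤ K * x := mul_le_mul_of_nonneg_right hx14 hx0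
  nlinarith [mul_nonneg hK0 hx0]

/-- positive `n` -/
def AdmN (n : ℕ) : Prop := 1 ≤ n

lemma fewN (n : ℕ) (hn : 1 ≤ n) (p : ℕ) (hp : p.Prime) : nuB (fun p j => (p : ℤ) ∣ (An j : ℤ) * n + Bn j) p ≤ 2 := by
  classical
  obtain ⟨F, hF⟩ : ∃ F : ℤ[X], F = C (n : ℤ) * X ^ 2 + C (-1) * X + C (n : ℤ) := ⟨_, rfl⟩
  have hn0 : (n : ℤ) ≠ 0 := by exact_mod_cast (by omega : n ≠ 0)
  have hFd : F.natDegree = 2 := by rw [hF]; exact natDegree_quadratic hn0
  have hFl : F.leadingCoeff = n := by rw [hF]; exact leadingCoeff_quadratic hn0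
  have hFe : ∀ j : ℕ, (An j : ℤ) * n + Bn j = F.eval (j : ℤ) := by
    intro j
    rw [hF]
    simp only [eval_add, eval_mul, eval_C, eval_X, eval_pow]
    unfold An Bn
    push_cast
    ring
  by_cases hpn : (p : ℤ) ∣ (n : ℤ)
  · have h1 : nuB (fun p j => (p : ℤ) ∣ (An j : ℤ) * n + Bn j) p ≤ 1 := by
      unfold nuB
      rw [card_le_one]
      intro a ha b hb
      simp only [mem_filter, mem_range] at ha hb
      have key : ∀ r : ℕ, r < p → (p : ℤ) ∣ (An r : ℤ) * n + Bn r → r = 0 := by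
        intro r hr h
        have h2 : (p : ℤ) ∣ Bn r := (dvd_add_right (hpn.mul_left _)).1 h
        unfold Bn at h2
        rw [dvd_neg] at h2
        have h3 : p ∣ r := by exact_mod_cast h2
        exact Nat.eq_zero_of_dvd_of_lt h3 hr
      rw [key a ha.1 ha.2, key b hb.1 hb.2]
    omega
  · have h1 := rho_lead F p hp (by rw [hFl]; exact hpn)
    rw [hFd] at h1
    refine le_trans ?_ h1
    unfold nuB Pool.Agent.H474R2.PG.rho
    apply card_le_card
    intro r hr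
    simp only [mem_filter] at hr ⊢
    refine ⟨hr.1, ?_⟩
    have h2 := hr.2
    rw [hFe] at h2
    exact h2

lemma perN (n : ℕ) (hn : 1 ≤ n) : PerB (fun p j => (p : ℤ) ∣ (An j : ℤ) * n + Bn j) 2 := by
  obtain ⟨F, hF⟩ : ∃ F : ℤ[X], F = C (n : ℤ) * X ^ 2 + C (-1) * X + C (n : ℤ) := ⟨_, rfl⟩
  have hFe : ∀ j : ℕ, (An j : ℤ) * n + Bn j = F.eval (j : ℤ) := by
    intro j
    rw [hF]
    simp only [eval_add, eval_mul, eval_C, eval_X, eval_pow]
    unfold An Bn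
    push_cast
    ring
  refine ⟨fun p j => ?_, fun p hp => fewN n hn p hp⟩
  show (p : ℤ) ∣ (An j : ℤ) * n + Bn j ↔ (p : ℤ) ∣ (An (j % p) : ℤ) * n + Bn (j % p)
  rw [hFe, hFe]
  exact Pool.Agent.W123.RU.Poly.per1 F p j

open Classical in
/-- **The numbers `n x² + (n - x)` at the smallest `x`, for almost all `n`.** -/
theorem mainN (θ ε : ℝ) (k : ℕ) (hθ : 0 < θ) (hθ1 : θ ≤ 1)
    (hk : 1 / 8 + 25 / (12 * θ) < k) (hε : 0 < ε) :
    ∃ κ Λ : ℝ, 0 < κ ∧ 0 < Λ ∧ ∀ l : ℝ, Λ ≤ l → ∀ᶠ X : ℕ in atTop, ∀ Z L : ℕ,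
      (X : ℝ) ^ θ ≤ L → Z + L ≤ X →
      (((Ioc Z (Z + L)).filter (fun n => AdmN n ∧
        (cnt An Bn k ⌊l * Real.log X⌋₊ n ((X : ℝ) ^ (θ / 10)) : ℝ) < κ * l)).card : ℝ) ≤ ε * L := by
  refine mainH datN AdmN ?_ θ ε k hθ hθ1 hk hε
  intro η hη
  exact avg_of2 2 (by norm_num) An Bn AdmN 28 145
    (fun w _ hw => excN w hw) (fun n hn => perN n hn) (fun n hn p hp => by
      rcases Nat.lt_or_ge 2 p with h2 | h2
      · exact (fewN n hn p hp).trans_lt h2
      · have hp2 : p = 2 := le_antisymm h2 hp.two_le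
        subst hp2
        apply nuB_lt _ 2 1 (by norm_num)
        intro h
        unfold An Bn at h
        push_cast at h
        omega) 0 η hη

end Pool.Agent.R490.GPj
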