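import Pool.Agent.R490.Single
import Pool.Agent.R490.Cub

set_option autoImplicit false

/-!
# Instances of the uniform theorems: hypotheses for quadratic and cubic polynomials
-/

namespace Pool.Agent.R490.Sg

open Polynomial Finset Filter
open Pool.Agent.TH464.PW Pool.Agent.Y879.GL Pool.Agent.R490.Cub

lemma good_quad (a b c H : ℤ) (ha : 0 < a)
    (hg : ∀ p : ℕ, p.Prime → ¬ ((p : ℤ) ∣ a ∧ (p : ℤ) ∣ b ∧ (p : ℤ) ∣ c))
    (hpar : ¬ (Even (a + b) ∧ Even c)) (hD : ¬ IsSquare (b ^ 2 - 4 * a * c))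
    (haH : |a| ≤ H) (hbH : |b| ≤ H) (hcH : |c| ≤ H) :
    Good 2 H (quad a b c) (fun x => a * x ^ 2 + b * x + c) where
  ev := fun x => quad_eval a b c x
  irr := quad_irr a b c ha.ne' hg hD
  deg := by rw [quad_deg a b c ha.ne']; norm_num
  degD := by rw [quad_deg a b c ha.ne']
  hgt := fun n => quad_coeff a b c n H haH hbH hcH
  adm := fun p hp => by
    obtain ⟨m, hm⟩ := quad_adm a b c hg hpar p hp
    refine ⟨m, ?_⟩
    rw [quad_eval] at hm
    exact hm

lemma good_cub (k H : ℤ) (hk : ¬ ∃ c : ℤ, c ^ 3 = k) (hH : 1 ≤ H) (hkH : |k| ≤ H) :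
    Good 3 H (cub k) (fun x => x ^ 3 + k) where
  ev := fun x => cub_eval k x
  irr := cub_irr k hk
  deg := by rw [cub_deg]; norm_num
  degD := by rw [cub_deg]
  hgt := fun n => by
    have e : (cub k).coeff n = if n = 3 then 1 else if n = 0 then k else 0 := by
      unfold cub
      simp only [coeff_add, coeff_X_pow, coeff_C]
      rcases n with _ | _ | _ | _ | n
      · simp
      · simp
      · simp
      · simp
      · simp
    rw [e]
    split_ifs
    · simpa using hH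
    · exact hkH
    · simp only [abs_zero]
      linarith
  adm := fun p hp => by
    obtain ⟨m, hm⟩ := (cub_sys k hk).adm p hp
    refine ⟨m, ?_⟩
    have := hm 0
    rw [cub_eval] at this
    exact this

/-- the progression `(q x + a) ^ 2 + 1` -/
lemma good_prog (q a : ℕ) (H : ℤ) (hq : 1 ≤ q) (hco : Nat.Coprime q (a ^ 2 + 1))
    (h1 : ((q ^ 2 : ℕ) : ℤ) ≤ H) (h2 : ((2 * q * a : ℕ) : ℤ) ≤ H) (h3 : ((a ^ 2 + 1 : ℕ) : ℤ) ≤ H) :
    Good 2 H (quad ((q : ℤ) ^ 2) (2 * q * a) ((a : ℤ) ^ 2 + 1)) (fun x => ((q : ℤ) * x + a) ^ 2 + 1) := by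
  have hq0 : (0 : ℤ) < q := by exact_mod_cast hq
  have hnd : ∀ p : ℕ, p.Prime → (p : ℤ) ∣ (q : ℤ) → ¬ (p : ℤ) ∣ (a : ℤ) ^ 2 + 1 := by
    intro p hp hd1 hd2
    have hd1' : p ∣ q := by exact_mod_cast hd1
    have hd2' : p ∣ a ^ 2 + 1 := by exact_mod_cast hd2
    have h3 := Nat.dvd_gcd hd1' hd2'
    rw [hco] at h3
    exact hp.one_lt.ne' (Nat.dvd_one.1 h3)
  have h := good_quad ((q : ℤ) ^ 2) (2 * q * a) ((a : ℤ) ^ 2 + 1) H (by positivity) (by
    rintro p hp ⟨hd, -, hd3⟩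
    exact hnd p hp ((Nat.prime_iff_prime_int.1 hp).dvd_of_dvd_pow hd) hd3) (by
    rintro ⟨he1, he2⟩
    have h4 := hnd 2 Nat.prime_two
    push_cast at h4
    apply h4 _ he2.two_dvd
    have h5 : Even ((q : ℤ) ^ 2) := by
      rw [Int.even_add] at he1
      exact he1.2 (by rw [mul_assoc]; exact even_two_mul _)
    rw [Int.even_pow] at h5
    exact h5.1.two_dvd) (by
    rintro ⟨r, hr⟩
    have : (2 * (q : ℤ) * a) ^ 2 - 4 * (q : ℤ) ^ 2 * ((a : ℤ) ^ 2 + 1) = - (4 * (q : ℤ) ^ 2) := by ring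
    rw [this] at hr
    nlinarith [mul_self_nonneg r, mul_pos hq0 hq0]) (by
    rw [abs_of_nonneg (by positivity)]
    exact_mod_cast h1) (by
    rw [abs_of_nonneg (by positivity)]
    exact_mod_cast h2) (by
    rw [abs_of_nonneg (by positivity)]
    exact_mod_cast h3)
  have e : (fun x : ℤ => (q : ℤ) ^ 2 * x ^ 2 + 2 * q * a * x + ((a : ℤ) ^ 2 + 1)) =
      (fun x => ((q : ℤ) * x + a) ^ 2 + 1) := by
    funext x
    ring
  rw [e] at h
  exact h

/-- the polynomials `x ^ 2 + x + A` -/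
lemma good_A (A : ℕ) (H : ℤ) (hA : Odd A) (hH : 1 ≤ H) (hAH : (A : ℤ) ≤ H) :
    Good 2 H (quad 1 1 (A : ℤ)) (fun x => x ^ 2 + x + (A : ℤ)) := by
  have hA1 : (1 : ℤ) ≤ A := by exact_mod_cast hA.pos
  have h := good_quad 1 1 (A : ℤ) H one_pos (by
    rintro p hp ⟨hd, -, -⟩
    exact hp.one_lt.ne' (Nat.dvd_one.1 (by exact_mod_cast hd))) (by
    rintro ⟨-, he⟩
    have : Even A := by exact_mod_cast he
    exact (Nat.not_even_iff_odd.2 hA) this) (by
    rintro ⟨r, hr⟩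
    nlinarith [mul_self_nonneg r]) (by simpa using hH) (by simpa using hH) (by
    rw [abs_of_nonneg (by linarith)]
    exact hAH)
  have e : (fun x : ℤ => 1 * x ^ 2 + 1 * x + (A : ℤ)) = (fun x => x ^ 2 + x + (A : ℤ)) := by
    funext x
    ring
  rw [e] at h
  exact h

end Pool.Agent.R490.Sg
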