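import Pool.Agent.R490.Inst

set_option autoImplicit false

/-!
# The polynomials `(q x + a) ^ 2 + 1`, `a ≤ q ≤ X ^ A`
-/

namespace Pool.Agent.R490.Sg

open Pool.Agent.TH464.PW

lemma good_pr (q a X A : ℕ) (hX : 2 ≤ X) (hq : 1 ≤ q) (haq : a ≤ q) (hco : Nat.Coprime q (a ^ 2 + 1))
    (hqX : q ≤ X ^ A) :
    Good 2 ((X : ℤ) ^ (2 * A + 1)) (quad ((q : ℤ) ^ 2) (2 * q * a) ((a : ℤ) ^ 2 + 1))
      (fun x => ((q : ℤ) * x + a) ^ 2 + 1) := by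
  have h1 : q ^ 2 ≤ X ^ (2 * A) := by
    rw [mul_comm 2 A, pow_mul]
    exact Nat.pow_le_pow_left hqX 2
  have h2 : 2 * q ^ 2 ≤ X ^ (2 * A + 1) := by
    have e : X ^ (2 * A + 1) = X * X ^ (2 * A) := by ring
    rw [e]
    exact Nat.mul_le_mul hX h1
  have h3 : q * a ≤ q ^ 2 := by
    rw [pow_two]
    exact Nat.mul_le_mul_left q haq
  have h4 : a ^ 2 ≤ q ^ 2 := Nat.pow_le_pow_left haq 2
  have h5 : 1 ≤ q ^ 2 := Nat.one_le_pow _ _ hq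
  refine good_prog q a _ hq hco ?_ ?_ ?_
  · exact_mod_cast (by omega : q ^ 2 ≤ X ^ (2 * A + 1))
  · have : 2 * q * a ≤ X ^ (2 * A + 1) := by
      rw [mul_assoc]
      omega
    exact_mod_cast this
  · exact_mod_cast (by omega : a ^ 2 + 1 ≤ X ^ (2 * A + 1))

end Pool.Agent.R490.Sg
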