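import Pool.Agent.R490.PrimeArg
import Pool.Agent.R490.Cub

set_option autoImplicit false

/-!
# Instances of the theorem on prime arguments
-/

namespace Pool.Agent.R490.PA

open Polynomial Finset Filter
open Pool.Agent.TH464.PW Pool.Agent.Y879.GL Pool.Agent.R490.Cub

/-- the polynomials `(h x) ^ 2 + 1`, `h` even -/
lemma good_h (h : ℕ) (H : ℤ) (hh : 1 ≤ h) (heven : Even h) (hH : ((h ^ 2 : ℕ) : ℤ) ≤ H) :
    Good 2 H (quad ((h : ℤ) ^ 2) 0 1) (fun x => ((h : ℤ) * x) ^ 2 + 1) where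
  ev := fun x => by rw [quad_eval]; ring
  irr := by
    have hh0 : (0 : ℤ) < h := by exact_mod_cast hh
    apply quad_irr _ _ _ (by positivity)
    · rintro p hp ⟨-, -, hd⟩
      exact hp.one_lt.ne' (Nat.dvd_one.1 (by exact_mod_cast hd))
    · rintro ⟨r, hr⟩
      nlinarith [mul_self_nonneg r, mul_pos hh0 hh0]
  deg := by
    have hh0 : (0 : ℤ) < h := by exact_mod_cast hh
    rw [quad_deg _ _ _ (by positivity)]
  degD := by
    have hh0 : (0 : ℤ) < h := by exact_mod_cast hh
    rw [quad_deg _ _ _ (by positivity)]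
  hgt := fun n => by
    have h1 : ((h : ℤ) ^ 2) ≤ H := by exact_mod_cast hH
    have hh0 : (0 : ℤ) < h := by exact_mod_cast hh
    have h2 : (1 : ℤ) ≤ H := by nlinarith
    apply quad_coeff
    · rw [abs_of_nonneg (by positivity)]
      exact h1
    · simp only [abs_zero]; linarith
    · simpa using h2
  adm := fun p hp => by
    by_cases h1 : (p : ℤ) ∣ (h : ℤ) ^ 2 + 1
    · have hp2 : p ≠ 2 := by
        rintro rfl
        have h2 : (2 : ℤ) ∣ (h : ℤ) ^ 2 + 1 := by exact_mod_cast h1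
        have h3 : (2 : ℤ) ∣ (h : ℤ) ^ 2 := by
          have : (2 : ℤ) ∣ h := by exact_mod_cast heven.two_dvd
          exact dvd_pow this two_ne_zero
        have h4 := (Int.dvd_add_right h3).1 h2
        norm_num at h4
      refine ⟨2, ?_, ?_⟩
      · intro h2
        exact hp2 ((Nat.prime_dvd_prime_iff_eq hp Nat.prime_two).1 h2)
      · intro h2
        have h3 : (p : ℤ) ∣ 3 := by
          have h4 := dvd_sub (dvd_mul_of_dvd_right h1 4) h2
          have e : 4 * ((h : ℤ) ^ 2 + 1) - (((h : ℤ) * ((2 : ℕ) : ℤ)) ^ 2 + 1) = 3 := by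
            push_cast
            ring
          rwa [e] at h4
        have h4 : p ∣ 3 := by exact_mod_cast h3
        have h5 : p = 3 := (Nat.prime_dvd_prime_iff_eq hp Nat.prime_three).1 h4
        subst h5
        have h6 : (h : ℤ) % 3 = 0 ∨ (h : ℤ) % 3 = 1 ∨ (h : ℤ) % 3 = 2 := by omega
        have h7 : ((h : ℤ) ^ 2 + 1) % 3 = 0 := Int.emod_eq_zero_of_dvd (by exact_mod_cast h1)
        rcases h6 with h6 | h6 | h6 <;> simp [pow_two, Int.add_emod, Int.mul_emod, h6] at h7
    · refine ⟨1, ?_, ?_⟩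
      · intro h2
        exact hp.one_lt.ne' (Nat.dvd_one.1 h2)
      · simpa using h1

/-- the polynomials `x ^ 2 + x + a`, `a` odd -/
lemma good_a (a : ℕ) (H : ℤ) (ha : Odd a) (hH : 1 ≤ H) (haH : (a : ℤ) ≤ H) :
    Good 2 H (quad 1 1 (a : ℤ)) (fun x => x ^ 2 + x + (a : ℤ)) where
  ev := fun x => by rw [quad_eval]; ring
  irr := by
    have ha1 : (1 : ℤ) ≤ a := by exact_mod_cast ha.pos
    apply quad_irr _ _ _ (by norm_num)
    · rintro p hp ⟨hd, -, -⟩
      exact hp.one_lt.ne' (Nat.dvd_one.1 (by exact_mod_cast hd))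
    · rintro ⟨r, hr⟩
      nlinarith [mul_self_nonneg r]
  deg := by rw [quad_deg _ _ _ (by norm_num)]
  degD := by rw [quad_deg _ _ _ (by norm_num)]
  hgt := fun n => by
    apply quad_coeff
    · simpa using hH
    · simpa using hH
    · rw [abs_of_nonneg (by positivity)]
      exact haH
  adm := fun p hp => by
    by_cases h1 : (p : ℤ) ∣ (1 : ℤ) ^ 2 + 1 + a
    · have hp2 : p ≠ 2 := by
        rintro rfl
        have h2 : (2 : ℤ) ∣ (1 : ℤ) ^ 2 + 1 + a := by exact_mod_cast h1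
        have h3 : (2 : ℤ) ∣ (a : ℤ) := by
          have h4 : (2 : ℤ) ∣ (1 : ℤ) ^ 2 + 1 := by norm_num
          exact (Int.dvd_add_right h4).1 h2
        have h4 : 2 ∣ a := by exact_mod_cast h3
        exact (Nat.not_even_iff_odd.2 ha) (even_iff_two_dvd.2 h4)
      refine ⟨2, ?_, ?_⟩
      · intro h2
        exact hp2 ((Nat.prime_dvd_prime_iff_eq hp Nat.prime_two).1 h2)
      · intro h2
        have h3 : (p : ℤ) ∣ 4 := by
          have h4 := dvd_sub h2 h1
          have e : (((2 : ℕ) : ℤ) ^ 2 + ((2 : ℕ) : ℤ) + (a : ℤ)) - ((1 : ℤ) ^ 2 + 1 + a) = 4 := by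
            push_cast
            ring
          rwa [e] at h4
        have h4 : p ∣ 2 ^ 2 := by exact_mod_cast h3
        exact hp2 ((Nat.prime_dvd_prime_iff_eq hp Nat.prime_two).1 (hp.dvd_of_dvd_pow h4))
    · refine ⟨1, ?_, ?_⟩
      · intro h2
        exact hp.one_lt.ne' (Nat.dvd_one.1 h2)
      · simpa using h1

/-- the polynomial `(h x) ^ 3 + c` -/
noncomputable def cubh (h : ℕ) (c : ℤ) : ℤ[X] := C ((h : ℤ) ^ 3) * X ^ 3 + C c

lemma cubh_eval (h : ℕ) (c x : ℤ) : (cubh h c).eval x = ((h : ℤ) * x) ^ 3 + c := by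
  unfold cubh
  simp
  ring

lemma cubh_coeff (h : ℕ) (c : ℤ) (n : ℕ) :
    (cubh h c).coeff n = if n = 3 then (h : ℤ) ^ 3 else if n = 0 then c else 0 := by
  unfold cubh
  simp only [coeff_add, coeff_C_mul, coeff_X_pow, coeff_C]
  rcases n with _ | _ | _ | _ | n <;> simp

lemma cubh_deg (h : ℕ) (hh : 1 ≤ h) (c : ℤ) : (cubh h c).natDegree = 3 := by
  apply natDegree_eq_of_le_of_coeff_ne_zero
  · rw [natDegree_le_iff_coeff_eq_zero]
    intro n hn
    rw [cubh_coeff, if_neg (by omega), if_neg (by omega)]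
  · rw [cubh_coeff, if_pos rfl]
    have : (0 : ℤ) < h := by exact_mod_cast hh
    positivity

lemma cube_rat (c : ℤ) (x : ℚ) (hx : x ^ 3 = c) : ∃ d : ℤ, d ^ 3 = c := by
  have h1 : IsIntegral ℤ x := by
    refine ⟨X ^ 3 - C c, monic_X_pow_sub_C c (by norm_num), ?_⟩
    rw [eval₂_sub, eval₂_X_pow, eval₂_C, hx]
    simp
  obtain ⟨d, hd⟩ := IsIntegrallyClosed.isIntegral_iff.1 h1
  refine ⟨d, ?_⟩
  have h2 : ((d : ℚ)) ^ 3 = (c : ℚ) := by
    rw [← hx, ← hd]
    simp
  exact_mod_cast h2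

lemma cubh_irr (h : ℕ) (hh : 1 ≤ h) (c : ℤ) (hco : IsCoprime (h : ℤ) c) (hc : ¬ ∃ d : ℤ, d ^ 3 = c) :
    Irreducible (cubh h c) := by
  have hh0 : (h : ℤ) ≠ 0 := by exact_mod_cast (by omega : h ≠ 0)
  have hprim : (cubh h c).IsPrimitive := by
    rw [isPrimitive_iff_isUnit_of_C_dvd]
    intro r hr
    rw [C_dvd_iff_dvd_coeff] at hr
    have h1 := hr 3
    have h2 := hr 0
    rw [cubh_coeff, if_pos rfl] at h1
    rw [cubh_coeff, if_neg (by norm_num), if_pos rfl] at h2
    exact (hco.pow_left (m := 3)).isUnit_of_dvd' h1 h2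
  rw [Polynomial.IsPrimitive.Int.irreducible_iff_irreducible_map_cast hprim]
  have hmd : ((cubh h c).map (Int.castRingHom ℚ)).natDegree = 3 := by
    rw [natDegree_map_eq_of_injective (RingHom.injective_int _), cubh_deg h hh]
  rw [Polynomial.irreducible_iff_roots_eq_zero_of_degree_le_three (by rw [hmd]; norm_num) (by rw [hmd])]
  rw [Multiset.eq_zero_iff_forall_notMem]
  intro x hx
  have h1 := (mem_roots'.1 hx).2
  rw [IsRoot, eval_map, cubh, eval₂_add, eval₂_mul, eval₂_C, eval₂_X_pow, eval₂_C] at h1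
  rw [eq_intCast, eq_intCast] at h1
  push_cast at h1
  apply hc
  apply cube_rat c (-(h * x))
  rw [Odd.neg_pow (by decide), mul_pow]
  linarith

/-- the polynomials `(h x) ^ 3 + c` -/
lemma good_c (h : ℕ) (c H : ℤ) (hh : 1 ≤ h) (hco : IsCoprime (h : ℤ) c) (heven : Even ((h : ℤ) * c))
    (hc : ¬ ∃ d : ℤ, d ^ 3 = c) (hH : ((h ^ 3 : ℕ) : ℤ) ≤ H) (hcH : |c| ≤ H) :
    Good 3 H (cubh h c) (fun x => ((h : ℤ) * x) ^ 3 + c) where
  ev := fun x => cubh_eval h c x
  irr := cubh_irr h hh c hco hc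
  deg := by rw [cubh_deg h hh]; norm_num
  degD := by rw [cubh_deg h hh]
  hgt := fun n => by
    rw [cubh_coeff]
    split_ifs
    · rw [abs_of_nonneg (by positivity)]
      exact_mod_cast hH
    · exact hcH
    · simp only [abs_zero]
      exact (abs_nonneg c).trans hcH
  adm := fun p hp => by
    have hpp : Prime (p : ℤ) := Nat.prime_iff_prime_int.1 hp
    by_cases h1 : (p : ℤ) ∣ ((h : ℤ) * 1) ^ 3 + c
    · refine ⟨p - 1, ?_, ?_⟩
      · intro h2
        have := Nat.le_of_dvd (by have := hp.two_le; omega) h2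
        have := hp.two_le
        omega
      · intro h2
        have e : ((p - 1 : ℕ) : ℤ) = (p : ℤ) - 1 := by
          rw [Nat.cast_sub hp.one_lt.le]; simp
        rw [e] at h2
        have h3 : (p : ℤ) ∣ ((h : ℤ) * ((p : ℤ) - 1)) ^ 3 + (h : ℤ) ^ 3 := by
          have : ((h : ℤ) * ((p : ℤ) - 1)) ^ 3 + (h : ℤ) ^ 3 =
            p * ((h : ℤ) ^ 3 * ((p : ℤ) ^ 2 - 3 * p + 3)) := by ring
          rw [this]
          exact dvd_mul_right _ _
        have h4 : (p : ℤ) ∣ 2 * (h : ℤ) ^ 3 := by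
          have h5 := dvd_sub (dvd_add h1 h3) h2
          have : ((h : ℤ) * 1) ^ 3 + c + (((h : ℤ) * ((p : ℤ) - 1)) ^ 3 + (h : ℤ) ^ 3) -
            (((h : ℤ) * ((p : ℤ) - 1)) ^ 3 + c) = 2 * (h : ℤ) ^ 3 := by ring
          rwa [this] at h5
        have hph : ¬ (p : ℤ) ∣ (h : ℤ) := by
          intro h5
          have h6 : (p : ℤ) ∣ c := by
            rw [mul_one] at h1
            exact (Int.dvd_add_right (dvd_pow h5 (by norm_num))).1 h1
          have h7 := hco.isUnit_of_dvd' h5 h6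
          exact hpp.not_isUnit h7
        rcases hpp.dvd_or_dvd h4 with h5 | h5
        · have h6 : p = 2 := by
            have : p ∣ 2 := by exact_mod_cast h5
            exact (Nat.prime_dvd_prime_iff_eq hp Nat.prime_two).1 this
          subst h6
          rw [mul_one] at h1
          have hho : ¬ Even (h : ℤ) := by
            intro h7
            exact hph (by exact_mod_cast h7.two_dvd)
          have h7 : Even ((h : ℤ) ^ 3 + c) := by
            rw [even_iff_two_dvd]
            exact_mod_cast h1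
          rw [Int.even_mul] at heven
          rw [Int.even_add, Int.even_pow] at h7
          tauto
        · exact hph (hpp.dvd_of_dvd_pow h5)
    · refine ⟨1, ?_, ?_⟩
      · intro h2
        exact hp.one_lt.ne' (Nat.dvd_one.1 h2)
      · exact_mod_cast h1

end Pool.Agent.R490.PA
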