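import Pool.Agent.R490.P3m

set_option autoImplicit false

/-!
# Families of linear forms: counting
-/

namespace Pool.Agent.R490.LFa

open Finset Filter
open Pool.Agent.W123.RP Pool.Agent.H373R2.T7 Pool.Agent.W123.RU Pool.Agent.TH464.PO Pool.Agent.TH464.PW
open Pool.Agent.Y879.AP Pool.Agent.R490.P3a Pool.Agent.R490.P3b Pool.Agent.R490.P3c

/-- the condition of one form -/
def QF (α β : ℕ → ℕ) (j p m : ℕ) : Prop := p ∣ α j * m + β j

/-- the condition of two forms -/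
def QP (α β : ℕ → ℕ) (j j' p m : ℕ) : Prop := QF α β j p m ∨ QF α β j' p m

lemma QF_per (α β : ℕ → ℕ) (j p n : ℕ) : QF α β j p n ↔ QF α β j p (n % p) := by
  unfold QF
  have h : α j * n + β j ≡ α j * (n % p) + β j [MOD p] :=
    ((Nat.mod_modEq n p).symm.mul_left (α j)).add_right (β j)
  exact h.dvd_iff dvd_rfl

/-- two points of a class -/
lemma QF_two (α β : ℕ → ℕ) (j p m m' : ℕ) (hp : p.Prime) (hcop : (α j).Coprime (β j))
    (h1 : QF α β j p m) (h2 : QF α β j p m') : m ≡ m' [MOD p] := by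
  unfold QF at h1 h2
  have hpα : ¬ p ∣ α j := by
    intro h
    have h3 : p ∣ β j := (Nat.dvd_add_right (h.mul_right m)).1 h1
    have := Nat.dvd_gcd h h3
    rw [hcop] at this
    exact hp.one_lt.ne' (Nat.dvd_one.1 this)
  have h3 : α j * m + β j ≡ α j * m' + β j [MOD p] :=
    ((Nat.modEq_zero_iff_dvd).2 h1).trans ((Nat.modEq_zero_iff_dvd).2 h2).symm
  have h4 : α j * m ≡ α j * m' [MOD p] := Nat.ModEq.add_right_cancel' (β j) h3
  exact Nat.ModEq.cancel_left_of_coprime (by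
    rw [Nat.coprime_iff_gcd_eq_one.symm, Nat.coprime_comm]
    exact ((Nat.Prime.coprime_iff_not_dvd hp).2 hpα).symm) h4

lemma nuB_QF_le (α β : ℕ → ℕ) (j p : ℕ) (hp : p.Prime) (hcop : (α j).Coprime (β j)) :
    nuB (QF α β j) p ≤ 1 := by
  classical
  unfold nuB
  rw [card_le_one]
  intro a ha b hb
  rw [mem_filter, mem_range] at ha hb
  have h := QF_two α β j p a b hp hcop ha.2 hb.2
  have h2 : a % p = b % p := h
  rwa [Nat.mod_eq_of_lt ha.1, Nat.mod_eq_of_lt hb.1] at h2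

lemma perB_QF (α β : ℕ → ℕ) (j : ℕ) (hcop : (α j).Coprime (β j)) : PerB (QF α β j) 1 :=
  ⟨fun p n => QF_per α β j p n, fun p hp => nuB_QF_le α β j p hp hcop⟩

lemma nuB_QP_le (α β : ℕ → ℕ) (j j' p : ℕ) : nuB (QP α β j j') p ≤ nuB (QF α β j) p + nuB (QF α β j') p := by
  classical
  unfold nuB
  refine le_trans ?_ (card_union_le _ _)
  apply card_le_card
  intro m hm
  rw [mem_filter] at hm
  rw [mem_union, mem_filter, mem_filter]
  rcases hm.2 with h | h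
  · exact Or.inl ⟨hm.1, h⟩
  · exact Or.inr ⟨hm.1, h⟩

lemma perB_QP (α β : ℕ → ℕ) (j j' : ℕ) (hcop : (α j).Coprime (β j)) (hcop' : (α j').Coprime (β j')) :
    PerB (QP α β j j') 2 := by
  refine ⟨fun p n => ?_, fun p hp => ?_⟩
  · unfold QP
    rw [QF_per α β j p n, QF_per α β j' p n]
  · have h1 := nuB_QP_le α β j j' p
    have h2 := nuB_QF_le α β j p hp hcop
    have h3 := nuB_QF_le α β j' p hp hcop'
    omega

/-- the class of the multiples -/
lemma cls (A B D : ℕ) (hD : 1 ≤ D) (hcop : A.Coprime D) : ∃ a, ∀ n, D ∣ A * n + B ↔ n ≡ a [MOD D] := by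
  rcases Nat.eq_or_lt_of_le hD with h | h
  · refine ⟨0, fun n => ?_⟩
    rw [← h]
    exact ⟨fun _ => Nat.modEq_one, fun _ => one_dvd _⟩
  · obtain ⟨u, hu⟩ := Nat.exists_mul_mod_eq_one_of_coprime hcop h
    have hu1 : A * u ≡ 1 [MOD D] := by
      show A * u % D = 1 % D
      rw [hu.2, Nat.mod_eq_of_lt h]
    obtain ⟨e, rfl⟩ : ∃ e, D = e + 1 := ⟨D - 1, by omega⟩
    refine ⟨u * (e * B), fun n => ?_⟩
    have h0 : A * (u * (e * B)) + B ≡ 0 [MOD e + 1] := by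
      have h1 : A * (u * (e * B)) + B ≡ 1 * (e * B) + B [MOD e + 1] := by
        have : A * (u * (e * B)) = (A * u) * (e * B) := by ring
        rw [this]
        exact (hu1.mul_right _).add_right _
      refine h1.trans ?_
      have : 1 * (e * B) + B = (e + 1) * B := by ring
      rw [this]
      exact (Nat.modEq_zero_iff_dvd).2 (dvd_mul_right _ _)
    constructor
    · intro h1
      have h2 : A * n + B ≡ A * (u * (e * B)) + B [MOD e + 1] :=
        ((Nat.modEq_zero_iff_dvd).2 h1).trans h0.symm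
      have h3 : A * n ≡ A * (u * (e * B)) [MOD e + 1] := Nat.ModEq.add_right_cancel' B h2
      exact Nat.ModEq.cancel_left_of_coprime (by rw [Nat.gcd_comm]; exact hcop) h3
    · intro h1
      have h2 : A * n + B ≡ A * (u * (e * B)) + B [MOD e + 1] := (h1.mul_left A).add_right B
      exact (Nat.modEq_zero_iff_dvd).1 (h2.trans h0)

open Classical in
/-- the counts -/
noncomputable def NF (α β : ℕ → ℕ) (y j j' Z L : ℕ) (U U' : Finset ℕ) : ℝ :=
  (((Ioc Z (Z + L)).filter (fun m : ℕ => Sf (QP α β j j') y m ∧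
        (∏ p ∈ U, p ∣ α j * m + β j) ∧ (∏ p ∈ U', p ∣ α j' * m + β j'))).card : ℝ)

/-- the count of pairs -/
theorem cnt_pairF : ∃ C0 x0 : ℕ, 1 ≤ C0 ∧ ∀ b : ℕ, C0 ≤ b →
    ∀ x y : ℕ, x0 ≤ y → y ^ (16 * (C0 * b)) ≤ x →
    ∀ (α β : ℕ → ℕ) (j j' Z L : ℕ), (α j).Coprime (β j) → (α j').Coprime (β j') →
      ∀ U U' : Finset ℕ, (∀ p ∈ U, p.Prime ∧ y < p ∧ ¬ p ∣ α j) →
      (∀ p ∈ U', p.Prime ∧ y < p ∧ ¬ p ∣ α j') → Disjoint U U' →
    |NF α β y j j' Z L U U' - (L : ℝ) * Vq (QP α β j j') y * (wt U * wt U')| ≤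
      (1 / 2) ^ b * ((L : ℝ) * Vq (QP α β j j') y * (wt U * wt U')) + √(x : ℝ) := by
  classical
  obtain ⟨C0, x0, hC0, H⟩ := cnt_ap 2 (by norm_num)
  refine ⟨C0, x0, hC0, ?_⟩
  intro b hb x y hy hyx α β j j' Z L hc hc' U U' hU hU' hd
  have hper := perB_QP α β j j' hc hc'
  have hcopU : ∀ (U : Finset ℕ) (A : ℕ), (∀ p ∈ U, p.Prime ∧ y < p ∧ ¬ p ∣ A) → A.Coprime (∏ p ∈ U, p) := by
    intro U A hU
    apply Nat.Coprime.prod_right
    intro p hp
    exact ((Nat.Prime.coprime_iff_not_dvd (hU p hp).1).2 (hU p hp).2.2).symm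
  have hcop : (∏ p ∈ U, p).Coprime (∏ p ∈ U', p) := by
    apply Nat.Coprime.prod_left
    intro p hp
    apply Nat.Coprime.prod_right
    intro p' hp'
    rw [Nat.coprime_primes (hU p hp).1 (hU' p' hp').1]
    rintro rfl
    exact disjoint_left.1 hd hp hp'
  have h1 : 1 ≤ ∏ p ∈ U, p := Nat.pos_of_ne_zero (prod_ne_zero_iff.2 fun p hp => (hU p hp).1.ne_zero)
  have h1' : 1 ≤ ∏ p ∈ U', p := Nat.pos_of_ne_zero (prod_ne_zero_iff.2 fun p hp => (hU' p hp).1.ne_zero)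
  obtain ⟨a1, ha1⟩ := cls (α j) (β j) _ h1 (hcopU U (α j) hU)
  obtain ⟨a2, ha2⟩ := cls (α j') (β j') _ h1' (hcopU U' (α j') hU')
  obtain ⟨a, hb1, hb2⟩ := Nat.chineseRemainder hcop a1 a2
  have ha : ∀ n, (∏ p ∈ U, p ∣ α j * n + β j ∧ ∏ p ∈ U', p ∣ α j' * n + β j') ↔
      n ≡ a [MOD (∏ p ∈ U, p) * ∏ p ∈ U', p] := by
    intro n
    rw [ha1 n, ha2 n, ← Nat.modEq_and_modEq_iff_modEq_mul hcop]
    constructor
    · rintro ⟨h1, h2⟩
      exact ⟨h1.trans hb1.symm, h2.trans hb2.symm⟩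
    · rintro ⟨h1, h2⟩
      exact ⟨h1.trans hb1, h2.trans hb2⟩
  have key := H b hb x y hy hyx (QP α β j j') hper Z L ((∏ p ∈ U, p) * ∏ p ∈ U', p) a
    (Nat.mul_pos h1 h1') (by
      intro p hp hdv
      rcases (Nat.Prime.dvd_mul (mem_pz.1 hp).2).1 hdv with h2 | h2
      · exact not_dvd_prod U y (fun p hp => ⟨(hU p hp).1, (hU p hp).2.1⟩) p hp h2
      · exact not_dvd_prod U' y (fun p hp => ⟨(hU' p hp).1, (hU' p hp).2.1⟩) p hp h2)
  have e1 : (L : ℝ) / (((∏ p ∈ U, p) * ∏ p ∈ U', p : ℕ) : ℝ) * Vq (QP α β j j') y =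
      (L : ℝ) * Vq (QP α β j j') y * (wt U * wt U') := by
    unfold wt
    push_cast
    rw [div_eq_mul_inv, mul_inv]
    ring
  rw [e1] at key
  have e2 : (Ioc Z (Z + L)).filter (fun m : ℕ => Sf (QP α β j j') y m ∧
        (∏ p ∈ U, p ∣ α j * m + β j) ∧ (∏ p ∈ U', p ∣ α j' * m + β j')) =
      (Ioc Z (Z + L)).filter (fun n : ℕ => n ≡ a [MOD (∏ p ∈ U, p) * ∏ p ∈ U', p] ∧
        Sf (QP α β j j') y n) := by
    apply Finset.filter_congr
    intro n _
    rw [← ha n]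
    tauto
  unfold NF
  rw [e2]
  exact key

/-- a common prime of two forms divides the resultant -/
lemma common_dvd (α β : ℕ → ℕ) (j j' m p : ℕ) (h1 : p ∣ α j * m + β j) (h2 : p ∣ α j' * m + β j') :
    (p : ℤ) ∣ (α j : ℤ) * β j' - (α j' : ℤ) * β j := by
  have h3 : (p : ℤ) ∣ ((α j * m + β j : ℕ) : ℤ) := by exact_mod_cast h1
  have h4 : (p : ℤ) ∣ ((α j' * m + β j' : ℕ) : ℤ) := by exact_mod_cast h2
  have h5 := dvd_sub (h4.mul_left (α j : ℤ)) (h3.mul_left (α j' : ℤ))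
  have e : (α j : ℤ) * ((α j' * m + β j' : ℕ) : ℤ) - (α j' : ℤ) * ((α j * m + β j : ℕ) : ℤ) =
      (α j : ℤ) * β j' - (α j' : ℤ) * β j := by
    push_cast
    ring
  rwa [e] at h5

end Pool.Agent.R490.LFa
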