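import Pool.Agent.R490.LFb

set_option autoImplicit false

/-!
# Families of linear forms: the variance and the squares
-/

namespace Pool.Agent.R490.LFc

open Finset Filter
open Pool.Agent.W123.RP Pool.Agent.H373R2.T7 Pool.Agent.W123.RU Pool.Agent.TH464.PO Pool.Agent.TH464.PW
open Pool.Agent.Y879.AP Pool.Agent.R490.P3a Pool.Agent.R490.P3b Pool.Agent.R490.P3c Pool.Agent.R490.P3d
open Pool.Agent.R490.P3g
open Pool.Agent.R490.LFa Pool.Agent.R490.LFb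
open Pool.Agent.W23.DC Pool.Agent.Y882 Pool.Agent.Y882.KW

/-- the sum of the densities -/
noncomputable def V1S (α β : ℕ → ℕ) (J : Finset ℕ) (y : ℕ) : ℝ := ∑ j ∈ J, Vq (QF α β j) y

lemma NF_empty (α β : ℕ → ℕ) (y j j' Z L : ℕ) :
    NF α β y j j' Z L ∅ ∅ = ∑ m ∈ Ioc Z (Z + L), rF α β y j m * rF α β y j' m := by
  classical
  unfold NF rF
  rw [card_filter]
  push_cast
  apply sum_congr rfl
  intro m _
  have h0 := sf_QP α β j j' y m
  by_cases c1 : Sf (QF α β j) y m <;> by_cases c2 : Sf (QF α β j') y m <;> simp [h0, c1, c2]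

lemma QP_self (α β : ℕ → ℕ) (j : ℕ) : QP α β j j = QF α β j := by
  funext p m
  unfold QP
  simp

lemma wt_empty : wt ∅ = 1 := by
  unfold wt
  simp

/-- the counts of pairs and of single values -/
theorem countF : ∃ C0 x0 : ℕ, 1 ≤ C0 ∧ ∀ b : ℕ, C0 ≤ b →
    ∀ x y : ℕ, x0 ≤ y → y ^ (16 * (C0 * b)) ≤ x →
    ∀ (α β : ℕ → ℕ) (J : Finset ℕ) (Z L : ℕ), Fam α β J y → ∀ j ∈ J, ∀ j' ∈ J,
      |∑ m ∈ Ioc Z (Z + L), rF α β y j m * rF α β y j' m - (L : ℝ) * Vq (QP α β j j') y| ≤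
        (1 / 2) ^ b * ((L : ℝ) * Vq (QP α β j j') y) + √(x : ℝ) := by
  obtain ⟨C0, x0, hC0, H⟩ := cnt_pairF
  refine ⟨C0, x0, hC0, ?_⟩
  intro b hb x y hy hyx α β J Z L hF j hj j' hj'
  have h1 := H b hb x y hy hyx α β j j' Z L (hF.cop j hj) (hF.cop j' hj') ∅ ∅ (by simp) (by simp)
    (disjoint_empty_left _)
  rw [NF_empty, wt_empty, mul_one, mul_one] at h1
  exact h1

lemma V1S_nonneg (α β : ℕ → ℕ) (J : Finset ℕ) (y : ℕ) : 0 ≤ V1S α β J y :=
  sum_nonneg fun _ _ => Vq_nonneg _ _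

/-- the first moment -/
lemma firstF (α β : ℕ → ℕ) (J : Finset ℕ) (y Z L : ℕ) (h s : ℝ)
    (H : ∀ j ∈ J, ∀ j' ∈ J,
      |∑ m ∈ Ioc Z (Z + L), rF α β y j m * rF α β y j' m - (L : ℝ) * Vq (QP α β j j') y| ≤
        h * ((L : ℝ) * Vq (QP α β j j') y) + s) :
    |∑ m ∈ Ioc Z (Z + L), WF α β J y m - L * V1S α β J y| ≤ h * (L * V1S α β J y) + J.card * s := by
  have e1 : ∑ m ∈ Ioc Z (Z + L), WF α β J y m - L * V1S α β J y =
      ∑ j ∈ J, (∑ m ∈ Ioc Z (Z + L), rF α β y j m * rF α β y j m - (L : ℝ) * Vq (QP α β j j) y) := by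
    unfold WF V1S
    rw [sum_comm, mul_sum, ← sum_sub_distrib]
    apply sum_congr rfl
    intro j _
    rw [QP_self]
    congr 1
    exact sum_congr rfl fun m _ => (rF_sq α β y j m).symm
  rw [e1]
  refine (abs_sum_le_sum_abs _ _).trans ?_
  refine (sum_le_sum fun j hj => H j hj j hj).trans (le_of_eq ?_)
  rw [sum_add_distrib, sum_const, nsmul_eq_mul]
  congr 1
  unfold V1S
  rw [mul_sum, mul_sum]
  exact sum_congr rfl fun j _ => by rw [QP_self]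

/-- the second moment of the count -/
lemma pairF (α β : ℕ → ℕ) (J : Finset ℕ) (y Z L : ℕ) (h s : ℝ) (hs : 0 ≤ s)
    (H : ∀ j ∈ J, ∀ j' ∈ J,
      |∑ m ∈ Ioc Z (Z + L), rF α β y j m * rF α β y j' m - (L : ℝ) * Vq (QP α β j j') y| ≤
        h * ((L : ℝ) * Vq (QP α β j j') y) + s) :
    ∑ m ∈ Ioc Z (Z + L), WF α β J y m ^ 2 ≤
      (1 + h) * (L * V2S α β J y) + ∑ m ∈ Ioc Z (Z + L), WF α β J y m + (J.card : ℝ) ^ 2 * s := by
  have e1 : ∑ m ∈ Ioc Z (Z + L), WF α β J y m ^ 2 = ∑ j ∈ J, ∑ j' ∈ J,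
      ∑ m ∈ Ioc Z (Z + L), rF α β y j m * rF α β y j' m := by
    have e2 : ∀ m, WF α β J y m ^ 2 = ∑ j ∈ J, ∑ j' ∈ J, rF α β y j m * rF α β y j' m := by
      intro m
      unfold WF
      rw [sq, sum_mul_sum]
    rw [sum_congr rfl (fun n _ => e2 n), sum_comm]
    apply sum_congr rfl
    intro j _
    rw [sum_comm]
  rw [e1]
  have h2 : ∀ j ∈ J, ∑ j' ∈ J, ∑ m ∈ Ioc Z (Z + L), rF α β y j m * rF α β y j' m ≤
      ∑ m ∈ Ioc Z (Z + L), rF α β y j m +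
      ∑ j' ∈ J, ((if j = j' then 0 else Vq (QP α β j j') y) * ((1 + h) * L) + s) := by
    intro j hj
    have e2 : ∑ m ∈ Ioc Z (Z + L), rF α β y j m =
        ∑ j' ∈ J, (if j = j' then ∑ m ∈ Ioc Z (Z + L), rF α β y j m else 0) := by
      rw [sum_ite_eq, if_pos hj]
    rw [e2, ← sum_add_distrib]
    apply sum_le_sum
    intro j' hj'
    by_cases hne : j = j'
    · subst hne
      rw [if_pos rfl, if_pos rfl, zero_mul, zero_add]
      have g1 : ∑ m ∈ Ioc Z (Z + L), rF α β y j m * rF α β y j m = ∑ m ∈ Ioc Z (Z + L), rF α β y j m :=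
        sum_congr rfl fun m _ => rF_sq α β y j m
      rw [g1]
      linarith
    · rw [if_neg hne, if_neg hne, zero_add]
      have h3 := (abs_le.1 (H j hj j' hj')).2
      have e4 : Vq (QP α β j j') y * ((1 + h) * L) =
        L * Vq (QP α β j j') y + h * (L * Vq (QP α β j j') y) := by ring
      linarith
  refine (sum_le_sum h2).trans (le_of_eq ?_)
  rw [sum_add_distrib]
  have e3 : ∑ j ∈ J, ∑ m ∈ Ioc Z (Z + L), rF α β y j m = ∑ m ∈ Ioc Z (Z + L), WF α β J y m := by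
    rw [sum_comm]
    rfl
  rw [e3]
  have e4 : ∑ j ∈ J, ∑ j' ∈ J, ((if j = j' then 0 else Vq (QP α β j j') y) * ((1 + h) * L) + s) =
      V2S α β J y * ((1 + h) * L) + (J.card : ℝ) ^ 2 * s := by
    unfold V2S
    simp only [sum_add_distrib, sum_const, nsmul_eq_mul, sum_mul]
    ring
  rw [e4]
  ring

/-- the variance -/
theorem varF (α β : ℕ → ℕ) (J : Finset ℕ) (y Z L : ℕ) (h s η x : ℝ) (hs : 0 ≤ s) (hh0 : 0 ≤ h) (hh : h ≤ η)
    (hη1 : η ≤ 1) (hx : x = V1S α β J y) (hx1 : 1 ≤ x)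
    (H : ∀ j ∈ J, ∀ j' ∈ J,
      |∑ m ∈ Ioc Z (Z + L), rF α β y j m * rF α β y j' m - (L : ℝ) * Vq (QP α β j j') y| ≤
        h * ((L : ℝ) * Vq (QP α β j j') y) + s)
    (H2 : V2S α β J y ≤ (1 + η) * x ^ 2) (hE : 4 * (J.card : ℝ) ^ 2 * s ≤ η * L) :
    ∑ m ∈ Ioc Z (Z + L), (WF α β J y m - x) ^ 2 ≤ L * (7 * η * x ^ 2 + 2 * x) ∧
      ∑ m ∈ Ioc Z (Z + L), WF α β J y m ≤ 3 * (L * x) := by
  have f1 := firstF α β J y Z L h s H
  have f2 := pairF α β J y Z L h s hs H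
  rw [← hx] at f1
  obtain ⟨A1, hA1⟩ : ∃ A1, A1 = ∑ m ∈ Ioc Z (Z + L), WF α β J y m := ⟨_, rfl⟩
  obtain ⟨n, hn⟩ : ∃ n : ℝ, n = J.card := ⟨_, rfl⟩
  have hL0 : (0 : ℝ) ≤ L := Nat.cast_nonneg _
  have hxn : x ≤ n := by
    rw [hx, hn]
    unfold V1S
    calc ∑ j ∈ J, Vq (QF α β j) y ≤ ∑ j ∈ J, (1 : ℝ) := sum_le_sum fun j _ => Vq_le_one _ _
      _ = J.card := by rw [sum_const, nsmul_eq_mul, mul_one]
  rw [← hA1] at f1 f2 ⊢
  rw [← hn] at f1 f2 hE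
  have hn1 : 1 ≤ n := hx1.trans hxn
  have e1 : ∑ m ∈ Ioc Z (Z + L), (WF α β J y m - x) ^ 2 =
      ∑ m ∈ Ioc Z (Z + L), WF α β J y m ^ 2 - 2 * x * A1 + L * x ^ 2 := by
    have e2 : ∀ m, (WF α β J y m - x) ^ 2 = WF α β J y m ^ 2 - 2 * x * WF α β J y m + x ^ 2 := by
      intro m
      ring
    simp only [e2]
    rw [sum_add_distrib, sum_sub_distrib, ← mul_sum, sum_const, nsmul_eq_mul, Nat.card_Ioc, hA1]
    congr 2
    push_cast
    have : Z + L - Z = L := by omega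
    rw [this]
  rw [e1]
  rw [abs_le] at f1
  obtain ⟨f1a, f1b⟩ := f1
  have hLx : 0 ≤ L * x := by positivity
  have hLx2 : 0 ≤ L * x ^ 2 := by positivity
  have g1 : h * (L * x) ≤ η * (L * x) := mul_le_mul_of_nonneg_right hh hLx
  have g2 : η * (L * x) ≤ L * x := mul_le_of_le_one_left hLx hη1
  have g3 : (1 + h) * (L * V2S α β J y) ≤ (1 + 3 * η) * (L * x ^ 2) := by
    have a1 : L * V2S α β J y ≤ L * ((1 + η) * x ^ 2) := mul_le_mul_of_nonneg_left H2 hL0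
    have a2 : (1 + h) * (L * V2S α β J y) ≤ (1 + η) * (L * ((1 + η) * x ^ 2)) := by
      refine (mul_le_mul_of_nonneg_left a1 (by linarith)).trans ?_
      apply mul_le_mul_of_nonneg_right (by linarith)
      have : 0 ≤ 1 + η := by linarith
      positivity
    refine a2.trans ?_
    have e3 : (1 + η) * ((L : ℝ) * ((1 + η) * x ^ 2)) = (1 + η) ^ 2 * (L * x ^ 2) := by ring
    rw [e3]
    apply mul_le_mul_of_nonneg_right _ hLx2
    nlinarith
  have g4 : -(2 * x * A1) ≤ -(2 * (L * x ^ 2)) + 2 * η * (L * x ^ 2) + 2 * (n * n * s) := by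
    have a1 : L * x - (h * (L * x) + n * s) ≤ A1 := by linarith
    have a2 : 2 * x * (L * x - (h * (L * x) + n * s)) ≤ 2 * x * A1 :=
      mul_le_mul_of_nonneg_left a1 (by linarith)
    have a3 : 2 * x * (L * x - (h * (L * x) + n * s)) =
      2 * (L * x ^ 2) - 2 * h * (L * x ^ 2) - 2 * (x * n * s) := by ring
    have a4 : x * n * s ≤ n * n * s := by
      apply mul_le_mul_of_nonneg_right _ hs
      exact mul_le_mul_of_nonneg_right hxn (by linarith)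
    have a5 : 2 * h * (L * x ^ 2) ≤ 2 * η * (L * x ^ 2) := by
      apply mul_le_mul_of_nonneg_right _ hLx2
      linarith
    linarith
  have g5 : n * s ≤ n ^ 2 * s := by
    apply mul_le_mul_of_nonneg_right _ hs
    nlinarith
  have g6 : η * L ≤ η * (L * x ^ 2) := by
    apply mul_le_mul_of_nonneg_left _ (by linarith)
    apply le_mul_of_one_le_right hL0
    nlinarith
  have g7 : η * L ≤ L * x := by
    calc η * (L : ℝ) ≤ 1 * L := mul_le_mul_of_nonneg_right hη1 hL0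
      _ = L * 1 := by ring
      _ ≤ L * x := mul_le_mul_of_nonneg_left hx1 hL0
  have g8 : n * n * s = n ^ 2 * s := by ring
  have g9 : 4 * n ^ 2 * s = 4 * (n ^ 2 * s) := by ring
  rw [g9] at hE
  rw [g8] at g4
  have g10 : 0 ≤ n ^ 2 * s := by positivity
  have hη0 : 0 ≤ η := hh0.trans hh
  have g11 : 0 ≤ η * (L * x ^ 2) := by positivity
  constructor
  · have a1 : A1 ≤ 2 * (L * x) + n ^ 2 * s := by linarith
    have e3 : L * (7 * η * x ^ 2 + 2 * x) = 7 * (η * (L * x ^ 2)) + 2 * (L * x) := by ring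
    rw [e3]
    have e4 : (1 + 3 * η) * (L * x ^ 2) = L * x ^ 2 + 3 * (η * (L * x ^ 2)) := by ring
    rw [e4] at g3
    have e5 : 2 * η * (L * x ^ 2) = 2 * (η * (L * x ^ 2)) := by ring
    rw [e5] at g4
    linarith
  · linarith

/-- the reciprocals of the squares -/
lemma inv_sq (q : ℕ) (ζ υ : ℝ) (hq : 2 ≤ q) (h4 : 4 ≤ (q : ℝ) ^ ζ) :
    ∑ p ∈ pr q ζ υ, ((p : ℝ) ^ 2)⁻¹ ≤ 2 / (q : ℝ) ^ ζ := by
  obtain ⟨k, hk⟩ : ∃ k, k = ⌊(q : ℝ) ^ ζ⌋₊ := ⟨_, rfl⟩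
  have hk1 : (q : ℝ) ^ ζ < k + 1 := by rw [hk]; exact Nat.lt_floor_add_one _
  have hk4 : 4 ≤ k := by rw [hk]; exact Nat.le_floor (by exact_mod_cast h4)
  have h7 : ∑ p ∈ pr q ζ υ, ((p : ℝ) ^ 2)⁻¹ ≤ ∑ p ∈ Ioc (k - 1) (max (k - 1) q), ((p : ℝ) ^ 2)⁻¹ := by
    apply sum_le_sum_of_subset_of_nonneg
    · intro p hp
      have hp' := mem_pr.1 hp
      rw [mem_Ioc]
      refine ⟨?_, hp'.1.2.trans (le_max_right _ _)⟩
      have e6 := (le_tt_iff hq hp'.2.1.pos _).1 hp'.2.2.1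
      have e7 := Nat.floor_le_floor e6
      rw [Nat.floor_natCast, ← hk] at e7
      omega
    · intro p _ _
      positivity
  have h8 := sum_Ioc_inv_sq_le_sub (α := ℝ) (k := k - 1) (n := max (k - 1) q) (by omega) (le_max_left _ _)
  have h9 : (0 : ℝ) ≤ ((max (k - 1) q : ℕ) : ℝ)⁻¹ := by positivity
  have h10 : ((k - 1 : ℕ) : ℝ)⁻¹ ≤ 2 / (q : ℝ) ^ ζ := by
    have e8 : ((k - 1 : ℕ) : ℝ) = (k : ℝ) - 1 := by
      rw [Nat.cast_sub (by omega)]
      simp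
    have e9 : (4 : ℝ) ≤ k := by exact_mod_cast hk4
    rw [e8, inv_eq_one_div, div_le_div_iff₀ (by linarith) (by linarith)]
    linarith
  linarith

open Classical in
/-- the points of a class -/
lemma card_cls (Z L D a : ℕ) (hD : 0 < D) :
    (((Ioc Z (Z + L)).filter (fun n => n ≡ a [MOD D])).card : ℝ) ≤ L / D + 1 := by
  have h1 := Nat.Ioc_filter_modEq_card Z (Z + L) hD a
  have h2 : ((Ioc Z (Z + L)).filter (fun n => n ≡ a [MOD D])).card =
      #{x ∈ Ioc Z (Z + L) | x ≡ a [MOD D]} := by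
    congr 1
  rw [h2]
  have h3 : ((#{x ∈ Ioc Z (Z + L) | x ≡ a [MOD D]} : ℤ) : ℚ) ≤ (L : ℚ) / D + 1 := by
    rw [h1]
    have hDq : (0 : ℚ) < D := by exact_mod_cast hD
    push_cast
    apply max_le
    · have a1 := Int.floor_le ((((Z : ℚ) + L - a) / (D : ℚ)))
      have a2 := Int.lt_floor_add_one (((Z : ℚ) - a) / (D : ℚ))
      have a3 : ((Z : ℚ) + L - a) / (D : ℚ) = ((Z : ℚ) - a) / (D : ℚ) + L / D := by
        field_simp
        ring
      rw [a3] at a1 ⊢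
      linarith
    · positivity
  have h4 : (#{x ∈ Ioc Z (Z + L) | x ≡ a [MOD D]} : ℚ) ≤ (L : ℚ) / D + 1 := by exact_mod_cast h3
  have h5 : (((#{x ∈ Ioc Z (Z + L) | x ≡ a [MOD D]} : ℚ)) : ℝ) ≤ (((L : ℚ) / D + 1 : ℚ) : ℝ) := by
    exact_mod_cast h4
  push_cast at h5
  exact h5

open Classical in
/-- few `m` have a value divisible by the square of a medium prime -/
theorem sqF (α β : ℕ → ℕ) (J : Finset ℕ) (q y Z L : ℕ) (ζ υ : ℝ) (hq : 2 ≤ q) (h4 : 4 ≤ (q : ℝ) ^ ζ)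
    (hL : (q : ℝ) ^ (2 * υ) ≤ L) (hbig : ∀ j ∈ J, ∀ p : ℕ, p.Prime → y < p → ¬ p ∣ α j) :
    (((Ioc Z (Z + L)).filter (fun m => ∃ j ∈ J, ∃ p ∈ pr q ζ υ, y < p ∧ p ^ 2 ∣ α j * m + β j)).card : ℝ) ≤
      J.card * (4 * L / (q : ℝ) ^ ζ) := by
  have hq0 : (0 : ℝ) < q := by exact_mod_cast (by omega : 0 < q)
  have h1 : (((Ioc Z (Z + L)).filter (fun m => ∃ j ∈ J, ∃ p ∈ pr q ζ υ, y < p ∧ p ^ 2 ∣ α j * m + β j)).card : ℝ) ≤
      ∑ j ∈ J, ∑ p ∈ pr q ζ υ,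
        (((Ioc Z (Z + L)).filter (fun m => y < p ∧ p ^ 2 ∣ α j * m + β j)).card : ℝ) := by
    have h2 : (Ioc Z (Z + L)).filter (fun m => ∃ j ∈ J, ∃ p ∈ pr q ζ υ, y < p ∧ p ^ 2 ∣ α j * m + β j) ⊆
        J.biUnion (fun j => (pr q ζ υ).biUnion (fun p =>
          (Ioc Z (Z + L)).filter (fun m => y < p ∧ p ^ 2 ∣ α j * m + β j))) := by
      intro n hn
      rw [mem_filter] at hn
      obtain ⟨hn, j, hj, p, hp, hd⟩ := hn
      rw [mem_biUnion]
      refine ⟨j, hj, ?_⟩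
      rw [mem_biUnion]
      exact ⟨p, hp, mem_filter.2 ⟨hn, hd⟩⟩
    have h3 := (card_le_card h2).trans card_biUnion_le
    have h4 : ∑ j ∈ J, ((pr q ζ υ).biUnion (fun p =>
          (Ioc Z (Z + L)).filter (fun m => y < p ∧ p ^ 2 ∣ α j * m + β j))).card ≤
        ∑ j ∈ J, ∑ p ∈ pr q ζ υ, ((Ioc Z (Z + L)).filter (fun m => y < p ∧ p ^ 2 ∣ α j * m + β j)).card :=
      sum_le_sum fun h _ => card_biUnion_le
    exact_mod_cast h3.trans h4
  refine h1.trans ?_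
  have h5 : ∀ j ∈ J, ∑ p ∈ pr q ζ υ,
      (((Ioc Z (Z + L)).filter (fun m => y < p ∧ p ^ 2 ∣ α j * m + β j)).card : ℝ) ≤
      4 * L / (q : ℝ) ^ ζ := by
    intro j hj
    have h6 : ∀ p ∈ pr q ζ υ, (((Ioc Z (Z + L)).filter (fun m => y < p ∧ p ^ 2 ∣ α j * m + β j)).card : ℝ) ≤
        2 * L * ((p : ℝ) ^ 2)⁻¹ := by
      intro p hp
      have hpp := (mem_pr.1 hp).2.1
      have hp0 : (0 : ℝ) < p := by exact_mod_cast hpp.pos
      by_cases hyp : y < p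
      · have hcop : (α j).Coprime (p ^ 2) :=
          (Nat.Coprime.pow_left 2 ((Nat.Prime.coprime_iff_not_dvd hpp).2 (hbig j hj p hpp hyp))).symm
        obtain ⟨a, ha⟩ := cls (α j) (β j) (p ^ 2) (Nat.pos_of_ne_zero (pow_ne_zero 2 hpp.ne_zero)) hcop
        have e1 : (Ioc Z (Z + L)).filter (fun m => y < p ∧ p ^ 2 ∣ α j * m + β j) =
            (Ioc Z (Z + L)).filter (fun m => m ≡ a [MOD p ^ 2]) := by
          apply filter_congr
          intro m _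
          rw [← ha m]
          exact ⟨fun h => h.2, fun h => ⟨hyp, h⟩⟩
        rw [e1]
        have e2 := card_cls Z L (p ^ 2) a (pow_pos hpp.pos 2)
        push_cast at e2
        have e4 : (p : ℝ) ^ 2 ≤ L := by
          refine le_trans ?_ hL
          have e5 := (Pool.Agent.Y882.tt_lt q p υ hq hpp.pos).1 (mem_pr.1 hp).2.2.2
          calc (p : ℝ) ^ 2 ≤ ((q : ℝ) ^ υ) ^ 2 := pow_le_pow_left₀ hp0.le e5.le 2
            _ = (q : ℝ) ^ (2 * υ) := by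
                rw [← Real.rpow_natCast, ← Real.rpow_mul hq0.le]
                congr 1
                push_cast
                ring
        have e5 : 1 ≤ (L : ℝ) / (p : ℝ) ^ 2 := by
          rw [le_div_iff₀ (by positivity), one_mul]
          exact e4
        calc _ ≤ (L : ℝ) / (p : ℝ) ^ 2 + 1 := e2
          _ ≤ (L : ℝ) / (p : ℝ) ^ 2 + (L : ℝ) / (p : ℝ) ^ 2 := by linarith
          _ = _ := by rw [div_eq_mul_inv]; ring
      · have e1 : (Ioc Z (Z + L)).filter (fun m => y < p ∧ p ^ 2 ∣ α j * m + β j) = ∅ := by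
          rw [filter_eq_empty_iff]
          rintro m _ ⟨h, _⟩
          exact hyp h
        rw [e1, card_empty, Nat.cast_zero]
        positivity
    refine (sum_le_sum h6).trans ?_
    rw [← mul_sum]
    have h11 := inv_sq q ζ υ hq h4
    calc 2 * (L : ℝ) * ∑ p ∈ pr q ζ υ, ((p : ℝ) ^ 2)⁻¹ ≤ 2 * L * (2 / (q : ℝ) ^ ζ) :=
          mul_le_mul_of_nonneg_left h11 (by positivity)
      _ = _ := by ring
  refine (sum_le_card_nsmul _ _ _ h5).trans ?_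
  rw [nsmul_eq_mul]

end Pool.Agent.R490.LFc
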