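import Pool.Agent.R490.P3k

set_option autoImplicit false

/-!
# Almost primes in almost all classes of every modulus: all large moduli
-/

namespace Pool.Agent.R490.P3l

open Finset Filter
open Pool.Agent.W123.RP Pool.Agent.H373R2.T7 Pool.Agent.W123.RU Pool.Agent.TH464.PO Pool.Agent.TH464.PW
open Pool.Agent.Y879.AP Pool.Agent.R490.Cls Pool.Agent.R490.Mean
open Pool.Agent.R490.P3c Pool.Agent.R490.P3d Pool.Agent.R490.P3e Pool.Agent.R490.P3f Pool.Agent.R490.P3g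
open Pool.Agent.R490.P3h Pool.Agent.R490.P3i Pool.Agent.R490.P3j Pool.Agent.R490.P3k
open Pool.Agent.W23.DC Pool.Agent.Y882 Pool.Agent.Y882.KW

/-- the constants exist -/
lemma exists_cst (θ τ ζ υ lm ε f0 c KV : ℝ) (C0 Kc K1 K2 : ℕ) (hζ : 0 < ζ) (h2 : 2 * ζ < τ) (hζυ : ζ ≤ υ)
    (hυτ : υ < τ) (hlm : 0 < lm) (hτθ : 2 * τ < θ) (hθ1 : θ ≤ 1) (hε : 0 < ε) (hε1 : ε ≤ 1) (hf0 : 0 < f0)
    (hc : 0 < c) (hKV : 0 < KV) :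
    ∃ (m r G0 : ℕ), C0 ≤ m ∧ 1 ≤ m ∧ 2 ≤ r ∧ r = G0 * m ∧ 1 ≤ G0 ∧ 16 * C0 / (θ - 2 * τ) ≤ G0 ∧
      (Kc : ℝ) ≤ θ * r ∧ (K1 : ℝ) ≤ θ * r ∧ (K2 : ℝ) ≤ θ * r ∧ 1 / (r : ℝ) ≤ ζ ∧ 1 / (r : ℝ) ≤ τ - υ ∧
      4608 * (1 + lm) ^ 2 * (G0 : ℝ) ^ 6 / f0 ^ 2 * ((m : ℝ) ^ 6 * (1 / 2) ^ m) ≤ ε / 20 := by
  have hθ0 : 0 < θ := by linarith
  obtain ⟨G0, hG0⟩ : ∃ G0 : ℕ, G0 = ⌈16 * C0 / (θ - 2 * τ)⌉₊ + 1 := ⟨_, rfl⟩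
  have hG1 : 1 ≤ G0 := by omega
  have hG2 : 16 * C0 / (θ - 2 * τ) ≤ G0 := by
    rw [hG0]
    push_cast
    linarith [Nat.le_ceil (16 * (C0 : ℝ) / (θ - 2 * τ))]
  have hG0r : (0 : ℝ) < G0 := by exact_mod_cast hG1
  obtain ⟨m, hm0, hm⟩ := choose_m (4608 * (1 + lm) ^ 2 * (G0 : ℝ) ^ 6 / f0 ^ 2) (by positivity) (ε / 20)
    (by positivity)
    (C0 + 2 + ⌈(Kc : ℝ) / θ⌉₊ + ⌈(K1 : ℝ) / θ⌉₊ + ⌈(K2 : ℝ) / θ⌉₊ + ⌈1 / ζ⌉₊ + ⌈1 / (τ - υ)⌉₊)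
  have hmr : m ≤ G0 * m := Nat.le_mul_of_pos_left m hG1
  obtain ⟨r, hrdef⟩ : ∃ r : ℕ, r = G0 * m := ⟨_, rfl⟩
  rw [← hrdef] at hmr
  have hr2 : 2 ≤ r := by omega
  have hrr : (2 : ℝ) ≤ r := by exact_mod_cast hr2
  have hr0 : (0 : ℝ) < r := by linarith
  have hKr : ∀ K : ℕ, ⌈(K : ℝ) / θ⌉₊ ≤ r → (K : ℝ) ≤ θ * r := by
    intro K hK
    have h5 : (K : ℝ) / θ ≤ r := (Nat.le_ceil _).trans (by exact_mod_cast hK)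
    rw [div_le_iff₀ hθ0] at h5
    linarith
  refine ⟨m, r, G0, by omega, by omega, hr2, hrdef, hG1, hG2, hKr Kc (by omega), hKr K1 (by omega),
    hKr K2 (by omega), ?_, ?_, hm⟩
  · have h5 : 1 / ζ ≤ r := (Nat.le_ceil _).trans (by exact_mod_cast (by omega : ⌈1 / ζ⌉₊ ≤ r))
    rw [div_le_iff₀ hζ] at h5
    rw [div_le_iff₀ hr0]
    linarith
  · have h5 : 1 / (τ - υ) ≤ r := (Nat.le_ceil _).trans (by exact_mod_cast (by omega : ⌈1 / (τ - υ)⌉₊ ≤ r))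
    rw [div_le_iff₀ (by linarith)] at h5
    rw [div_le_iff₀ hr0]
    linarith

open Classical in
/-- almost primes in almost all classes, `x1 ≤ T V ≤ 2 x1` -/
theorem mainT (θ τ ζ υ lm S : ℝ) (R : ℕ) (hζ : 0 < ζ) (h2 : 2 * ζ < τ) (h4 : τ ≤ 4 * ζ) (hζυ : ζ ≤ υ)
    (hυτ : υ < τ) (hlm : 0 < lm)
    (hJ : ∫ x in ζ..υ, (lm - lm / υ * x) / (τ - x) / x < Real.log (τ / ζ - 1) / τ)
    (hτθ : 2 * τ < θ) (hθ1 : θ ≤ 1) (hS : 1 < S) (hr : 1 / lm + S / υ ≤ R + 1) (ε : ℝ) (hε : 0 < ε)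
    (hε1 : ε ≤ 1) :
    ∃ (r : ℕ) (x1 κ0 : ℝ), 2 ≤ r ∧ 1 ≤ x1 ∧ 0 < κ0 ∧ ∀ X2 : ℝ, x1 ≤ X2 → ∀ᶠ q : ℕ in atTop, ∀ Z L : ℕ,
      (q : ℝ) ^ θ ≤ L → Z + L ≤ q →
      ∀ T : ℕ, x1 ≤ T * V q ⌊(q : ℝ) ^ (1 / (r : ℝ))⌋₊ → T * V q ⌊(q : ℝ) ^ (1 / (r : ℝ))⌋₊ ≤ X2 →
        ((Bad q R T Z L ζ (κ0 * (T * V q ⌊(q : ℝ) ^ (1 / (r : ℝ))⌋₊ / 4))).card : ℝ) ≤
          ε * (L * ((q.totient : ℝ) / q)) := by
  have hτ0 : 0 < τ := by linarith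
  have hτ1 : τ ≤ 1 := by linarith
  have hυ0 : 0 < υ := by linarith
  have hυ1 : υ ≤ 1 := by linarith
  have hθ0 : 0 < θ := by linarith
  have hlmυ : 0 ≤ lm / υ := by positivity
  obtain ⟨f0, F0, hf0, hF0, HL⟩ := lsw4 τ ζ υ lm (lm / υ) hζ h2 h4 hτ1 hζυ hυτ hlm.le hlmυ
    (by rw [div_mul_cancel₀ _ hυ0.ne']) hJ
  obtain ⟨C0, x0s, hC0, Hsec⟩ := second
  obtain ⟨η, hη⟩ : ∃ η : ℝ, η = ε / 560 := ⟨_, rfl⟩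
  have hη0 : 0 < η := by rw [hη]; positivity
  have hη1 : η ≤ 1 := by rw [hη]; linarith
  obtain ⟨Kc, yc, Hc⟩ := cardS η hη0
  obtain ⟨K1, y1, T1, H1⟩ := momS 0 η hη0 hη1
  obtain ⟨K2, y2, T2, H2⟩ := momS 1 η hη0 hη1
  obtain ⟨w3, T3, H3⟩ := sing2
  obtain ⟨c, C, hc, hC, hV⟩ := Vz_bounds
  obtain ⟨m, r, G0, hmC, hm1, hr2, hrdef, hG1, hG2, hKc, hK1, hK2, hrζ, hrτ, hm⟩ :=
    exists_cst θ τ ζ υ lm ε f0 c 1 C0 Kc K1 K2 hζ h2 hζυ hυτ hlm hτθ hθ1 hε hε1 hf0 hc one_pos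
  obtain ⟨KV, hKV, hVn⟩ := Vn_small r hr2
  obtain ⟨c1, hc1⟩ : ∃ c1 : ℝ, c1 = 1 + lm := ⟨_, rfl⟩
  obtain ⟨A, hA⟩ : ∃ A : ℝ, A = c1 * (1 + 3 * r) := ⟨_, rfl⟩
  obtain ⟨κ0, hκ0⟩ : ∃ κ0 : ℝ, κ0 = f0 / r := ⟨_, rfl⟩
  obtain ⟨R0, hR0⟩ : ∃ R0 : ℕ, R0 = 4 * r := ⟨_, rfl⟩
  obtain ⟨x1, hx1⟩ : ∃ x1 : ℝ, x1 = 960 * (A * 2 ^ R0) ^ 2 / (κ0 ^ 2 * ε) + 160 / ε + 1 := ⟨_, rfl⟩
  obtain ⟨γ, hγ⟩ : ∃ γ : ℝ, γ = θ - 2 * τ := ⟨_, rfl⟩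
  have hcst : Cst θ τ ζ υ lm ε f0 c1 A κ0 x1 η γ c KV C0 G0 m r R0 :=
    ⟨hc1, hA, hκ0, hR0, hx1, hη, hγ, hrdef, hf0, hc, hKV, hε, hε1, hlm, hζ, h2, hζυ, hυτ, hτθ, hθ1, hG1,
      by rw [hγ]; exact hG2, hm1, hr2, by rw [hc1]; exact hm, hrζ⟩
  obtain ⟨hA0, hκ00, hx11, hr0, hc10, hγ0, -, -⟩ := hcst.pos
  have hx10 : 0 < x1 := by linarith
  refine ⟨r, x1, κ0, hr2, hx11, hκ00, ?_⟩
  intro X2 hX2
  have hX20 : 0 < X2 := by linarith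
  obtain ⟨ηL, hηL, HY⟩ := HL (1 / (r : ℝ)) (by positivity) hrζ hrτ
  have hlog : Tendsto (fun q : ℕ => Real.log (q : ℝ)) atTop atTop :=
    Real.tendsto_log_atTop.comp tendsto_natCast_atTop_atTop
  have hsqlog : Tendsto (fun q : ℕ => √(Real.log (q : ℝ))) atTop atTop :=
    Real.tendsto_sqrt_atTop.comp hlog
  obtain ⟨T0, hT0⟩ : ∃ T0 : ℕ, T0 = T1 + T2 + T3 + 1 := ⟨_, rfl⟩
  obtain ⟨Yb, hYb⟩ := exists_nat_ge (640 * A ^ 2 * (9 * (r : ℝ) ^ 3) / (κ0 ^ 2 * ε))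
  have ev1 := merg r hr2 υ (min ηL 1) hυ1 (lt_min hηL one_pos)
  have ev2 := Pool.Agent.Y879.GL.level_ok r hr2
  have ev3 := y_ge r hr2 (x0s + yc + y1 + y2 + w3 + Yb + 1)
  have ev4 := hsqlog.eventually_ge_atTop (KV * T0 / x1)
  have ev5 := logpow_rpow 3 ((1 + X2) ^ 2 * (X2 / c) ^ 2 / (η * c)) (θ / 2) (by positivity)
    (by positivity)
  have ev6 := logpow_rpow 3 (16 * (X2 / c) ^ 2 * A ^ 2 / (κ0 ^ 2 * x1 ^ 2) * (20 / (ε * c))) (γ / 2)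
    (by positivity) (by positivity)
  have ev7 := logpow_rpow 2 ((X2 / c) * 4 * (20 / (ε * c))) ζ (by positivity) hζ
  have ev8 := logpow_rpow 1 4 ζ (by positivity) hζ
  have ev9 := logpow_rpow 1 (1 + X2 / c) (S - 1) (by positivity) (by linarith)
  have ev10 := logpow_rpow 1 (1 + X2 / c) (1 / (r : ℝ)) (by positivity) (by positivity)
  have ev11 := logpow_rpow 1 (1 + X2 / c) 1 (by positivity) one_pos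
  have ev12 := large_part r hr2 (1 / 2) (by norm_num)
  filter_upwards [ev1, hVn, ev2, ev3, ev4, ev5, ev6, ev7, ev8, ev9, ev10, ev11, ev12,
    eventually_ge_atTop 2] with
    q hmer hVnq hlev hyg hsq hE8 hE10 hE11 hE4 hE14 hE7 hE13 hlarge hq2
  clear ev1 ev2 ev3 ev4 ev5 ev6 ev7 ev8 ev9 ev10 ev11 ev12 hVn hlog hsqlog HL
  obtain ⟨g1, g2, g3, g4, g5⟩ := hlev
  obtain ⟨y, hy⟩ : ∃ y, y = ⌊(q : ℝ) ^ (1 / (r : ℝ))⌋₊ := ⟨_, rfl⟩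
  intro Z L hqL hZL T hT1 hT2
  have hyKc := pow_le θ Kc r q L hKc hr2 (by omega) hqL
  have hyK1 := pow_le θ K1 r q L hK1 hr2 (by omega) hqL
  have hyK2 := pow_le θ K2 r q L hK2 hr2 (by omega) hqL
  rw [← V_eq] at hT1 hT2 ⊢
  rw [← hy] at hmer hVnq g1 g2 g3 g4 hyg hlarge hT1 hT2 hyKc hyK1 hyK2 ⊢
  have hq1 : (1 : ℝ) ≤ q := by exact_mod_cast (by omega : 1 ≤ q)
  have hq0 : (0 : ℝ) < q := by linarith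
  have hL0 : (0 : ℝ) < L := lt_of_lt_of_le (by positivity) hqL
  have hy1 : 1 ≤ y := by omega
  have hyr0 : (0 : ℝ) < y := by exact_mod_cast hy1
  obtain ⟨hVn0, hVd0, hVnlow, hVdlow⟩ := dens q y c hc (by linarith) g3 (hV y (by omega)).1
  obtain ⟨hTlow, hTlog⟩ := Tbounds T T0 x1 X2 (T * Vq (Qn Ql q) y) (Vq (Qn Ql q) y) KV c (Real.log q) hx10 rfl hT1
    hT2 g5 hVnq hKV hc hsq hVnlow
  have hT1log : 1 + (T : ℝ) ≤ (1 + X2 / c) * Real.log q ^ 1 := by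
    rw [pow_one, add_mul, one_mul]
    linarith
  have hTy : T ≤ y := by
    rw [hy]
    apply Nat.le_floor
    have := hT1log.trans hE7
    linarith
  have hE13' := hT1log.trans hE13
  rw [Real.rpow_one] at hE13'
  obtain ⟨hNS, hyR0⟩ := sizes q y T Z L r S (by omega) hZL (hT1log.trans hE14) hE13' hr0 hyr0 g2
  rw [← hR0] at hyR0
  obtain ⟨B, hB⟩ : ∃ B, B = (L : ℝ) * Vq (Qd Ql q) y := ⟨_, rfl⟩
  have hB0 : 0 < B := by rw [hB]; positivity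
  have hBlow : (L : ℝ) * (c / Real.log q) ≤ B := by
    rw [hB]
    exact mul_le_mul_of_nonneg_left hVdlow hL0.le
  obtain ⟨x, hx⟩ : ∃ x, x = T * Vq (Qn Ql q) y := ⟨_, rfl⟩
  have hsing := H3 T (by omega) q y (by omega)
  rw [← hx] at hT1 hT2 hsing ⊢
  have hsL : √(L : ℝ) * √(L : ℝ) = L := Real.mul_self_sqrt hL0.le
  have hsL0 : 0 < √(L : ℝ) := Real.sqrt_pos.2 hL0
  have hsL1 : (q : ℝ) ^ (θ / 2) ≤ √(L : ℝ) := by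
    rw [Real.sqrt_eq_rpow]
    calc (q : ℝ) ^ (θ / 2) = ((q : ℝ) ^ θ) ^ (1 / 2 : ℝ) := by
          rw [← Real.rpow_mul hq0.le]
          congr 1
          ring
      _ ≤ (L : ℝ) ^ (1 / 2 : ℝ) := Real.rpow_le_rpow (by positivity) hqL (by norm_num)
  have hEB := est_E T c X2 x η B (Real.log q) (√(L : ℝ)) _ hc hη0 (hx11.trans hX2) (by linarith) hT2 g5 (Nat.cast_nonneg _)
    hTlog hsL0 (by rw [hsL]; exact hBlow) rfl (hE8.trans hsL1)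
  obtain ⟨hvar1, hvar2⟩ := moms q y T Z L K1 K2 Kc y1 y2 yc T1 T2 η B x hη0 hη1 Hc H1 H2 (by omega) (by omega)
    (by omega) hyKc hyK1 hyK2 (by omega) (by omega) (by omega) hB hx (by linarith) hEB
  obtain ⟨cU, cL, hb1, hb2, hb3, hb4⟩ := HY q hq2
  have hMerL : Mer (pr q (1 / (r : ℝ)) υ) (tt q) (gg q y) (1 / (r : ℝ)) υ ηL :=
    fun a b ha hab hb => (hmer a b ha hab hb).trans (min_le_left _ _)
  have hMer1 : Mer (pr q (1 / (r : ℝ)) υ) (tt q) (gg q y) (1 / (r : ℝ)) υ 1 :=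
    fun a b ha hab hb => (hmer a b ha hab hb).trans (min_le_right _ _)
  have hN : B ≤ 2 * (L * ((q.totient : ℝ) / q)) := by
    rw [phi_eq q y (by omega)]
    have a2 : (1 : ℝ) / 2 ≤ ∏ p ∈ q.primeFactors.filter (fun p => y < p), (1 - 1 / (p : ℝ)) := by
      linarith [hlarge.1]
    have a3 : B * (1 / 2) ≤ B * ∏ p ∈ q.primeFactors.filter (fun p => y < p), (1 - 1 / (p : ℝ)) :=
      mul_le_mul_of_nonneg_left a2 hB0.le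
    rw [hB] at a3 ⊢
    linarith
  have h4ζ : 4 ≤ (q : ℝ) ^ ζ := by
    rw [pow_one] at hE4
    linarith
  exact oneq hcst S R hr X2 hX2 q y T Z L hq2 hy hy1 le_rfl hqL hMer1 cL (fun U => (hb1 U).2)
    (fun U hU hne => hb2 U hU (Or.inr hne)) (fun N => (hb3 N).1)
    (hb4 (gg q y) (fun p _ => gg_nonneg q y p) hMerL).1 hTy hNS hyR0 B x hB hB0 hBlow hT1 g5 hTlog hvar1 hvar2
    hsing (fun P a A D hP ha hD hs => Hsec m hmC (y ^ (16 * (C0 * m))) y (by omega) hy1 le_rfl q T Z L R0 P a A D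
      hTy hP ha hD hs hyR0) Yb hYb (by exact_mod_cast (by omega : Yb ≤ y)) hE10 hE11 h4ζ _ hN

end Pool.Agent.R490.P3l
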