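import Pool.Agent.R490.LFe

set_option autoImplicit false

/-!
# Families of linear forms: the densities
-/

namespace Pool.Agent.R490.LGa

open Finset Filter
open Pool.Agent.W123.RP Pool.Agent.H373R2.T7 Pool.Agent.W123.RU Pool.Agent.TH464.PO Pool.Agent.TH464.PW
open Pool.Agent.Y879.AP Pool.Agent.R490.LFa Pool.Agent.R490.LFb Pool.Agent.R490.LFc

open Classical in
/-- the product of `(1 - 1/p)⁻¹` over the primes `w < p ≤ y` dividing `n` -/
noncomputable def tw (w y n : ℕ) : ℝ := ∏ p ∈ pz y, (if w < p ∧ p ∣ n then (1 - 1 / (p : ℝ))⁻¹ else 1)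

/-- the product of `1 - 1/p` over the primes `w < p ≤ y` -/
noncomputable def VW (w y : ℕ) : ℝ := ∏ p ∈ pz y, (if w < p then 1 - 1 / (p : ℝ) else 1)

lemma one_sub_pos {p : ℕ} (hp : p.Prime) : (0 : ℝ) < 1 - 1 / (p : ℝ) ∧ (1 : ℝ) - 1 / (p : ℝ) ≤ 1 := by
  have h2 : (2 : ℝ) ≤ p := by exact_mod_cast hp.two_le
  have h3 : 1 / (p : ℝ) ≤ 1 / 2 := one_div_le_one_div_of_le (by norm_num) h2
  have h4 : 0 ≤ 1 / (p : ℝ) := by positivity
  constructor <;> linarith

lemma one_le_inv' {p : ℕ} (hp : p.Prime) : (1 : ℝ) ≤ (1 - 1 / (p : ℝ))⁻¹ := by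
  obtain ⟨h1, h2⟩ := one_sub_pos hp
  exact (one_le_inv₀ h1).2 h2

lemma one_le_tw (w y n : ℕ) : 1 ≤ tw w y n := by
  classical
  unfold tw
  have h : ∏ p ∈ pz y, (1 : ℝ) ≤ ∏ p ∈ pz y, (if w < p ∧ p ∣ n then (1 - 1 / (p : ℝ))⁻¹ else 1) := by
    apply Finset.prod_le_prod (fun _ _ => zero_le_one)
    intro p hp
    split_ifs
    · exact one_le_inv' (mem_pz.1 hp).2
    · exact le_rfl
  rwa [prod_const_one] at h

lemma tw_pos (w y n : ℕ) : 0 < tw w y n := lt_of_lt_of_le one_pos (one_le_tw w y n)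

lemma VW_pos (w y : ℕ) : 0 < VW w y := by
  unfold VW
  apply prod_pos
  intro p hp
  split_ifs
  · exact (one_sub_pos (mem_pz.1 hp).2).1
  · exact one_pos

lemma VW_ge (w y : ℕ) : Vz y ≤ VW w y := by
  unfold Vz VW
  apply Finset.prod_le_prod
  · intro p hp
    exact (one_sub_pos (mem_pz.1 hp).2).1.le
  · intro p hp
    split_ifs
    · exact le_rfl
    · exact (one_sub_pos (mem_pz.1 hp).2).2

lemma tw_mul_le (w y a b : ℕ) : tw w y (a * b) ≤ tw w y a * tw w y b := by
  classical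
  unfold tw
  rw [← prod_mul_distrib]
  apply Finset.prod_le_prod
  · intro p hp
    split_ifs
    · exact zero_le_one.trans (one_le_inv' (mem_pz.1 hp).2)
    · exact zero_le_one
  · intro p hp
    have hpp := (mem_pz.1 hp).2
    have h1 := one_le_inv' hpp
    by_cases hw : w < p
    · by_cases ha : p ∣ a
      · have hab : p ∣ a * b := ha.mul_right b
        rw [if_pos ⟨hw, hab⟩, if_pos ⟨hw, ha⟩]
        apply le_mul_of_one_le_right (by linarith)
        split_ifs
        · exact h1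
        · exact le_rfl
      · by_cases hb : p ∣ b
        · have hab : p ∣ a * b := hb.mul_left a
          rw [if_pos ⟨hw, hab⟩, if_neg (fun h => ha h.2), if_pos ⟨hw, hb⟩, one_mul]
        · have hab : ¬ p ∣ a * b := by
            intro h
            rcases (Nat.Prime.dvd_mul hpp).1 h with h | h
            · exact ha h
            · exact hb h
          rw [if_neg (fun h => hab h.2), if_neg (fun h => ha h.2), if_neg (fun h => hb h.2), one_mul]
    · rw [if_neg (fun h => hw h.1), if_neg (fun h => hw h.1), if_neg (fun h => hw h.1), one_mul]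

lemma tw_small (w y a : ℕ) (ha : 1 ≤ a) (haw : a ≤ w) : tw w y a = 1 := by
  classical
  unfold tw
  apply prod_eq_one
  intro p _
  rw [if_neg]
  rintro ⟨h1, h2⟩
  have := Nat.le_of_dvd ha h2
  omega

lemma exists_root (a b p : ℕ) (hp : p.Prime) (h : ¬ p ∣ a) : ∃ r < p, p ∣ a * r + b := by
  obtain ⟨s, hs⟩ := cls a b p hp.pos ((Nat.Prime.coprime_iff_not_dvd hp).2 h).symm
  exact ⟨s % p, Nat.mod_lt _ hp.pos, (hs _).2 (Nat.mod_modEq s p)⟩

lemma nuB_QF_zero (α β : ℕ → ℕ) (j p : ℕ) (h : ∀ m, ¬ p ∣ α j * m + β j) : nuB (QF α β j) p = 0 := by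
  classical
  unfold nuB
  rw [card_eq_zero, filter_eq_empty_iff]
  intro m _
  exact h m

lemma nuB_QP_one (α β : ℕ → ℕ) (j j' p : ℕ) (hp : p.Prime) (h : ¬ p ∣ α j ∨ ¬ p ∣ α j') :
    1 ≤ nuB (QP α β j j') p := by
  classical
  unfold nuB
  rw [Nat.succ_le_iff, card_pos]
  rcases h with h | h
  · obtain ⟨r, hr, hr2⟩ := exists_root (α j) (β j) p hp h
    exact ⟨r, mem_filter.2 ⟨mem_range.2 hr, Or.inl hr2⟩⟩
  · obtain ⟨r, hr, hr2⟩ := exists_root (α j') (β j') p hp h
    exact ⟨r, mem_filter.2 ⟨mem_range.2 hr, Or.inr hr2⟩⟩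

lemma nuB_QP_two (α β : ℕ → ℕ) (j j' p : ℕ) (hp : p.Prime) (h : ¬ p ∣ α j) (h' : ¬ p ∣ α j')
    (hres : ¬ (p : ℤ) ∣ (α j : ℤ) * β j' - (α j' : ℤ) * β j) : 2 ≤ nuB (QP α β j j') p := by
  classical
  unfold nuB
  obtain ⟨r, hr, hr2⟩ := exists_root (α j) (β j) p hp h
  obtain ⟨s, hs, hs2⟩ := exists_root (α j') (β j') p hp h'
  have hne : r ≠ s := by
    rintro rfl
    exact hres (common_dvd α β j j' r p hr2 hs2)
  have h1 : ({r, s} : Finset ℕ) ⊆ (range p).filter (fun m => QP α β j j' p m) := by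
    intro m hm
    rw [mem_insert, mem_singleton] at hm
    rcases hm with rfl | rfl
    · exact mem_filter.2 ⟨mem_range.2 hr, Or.inl hr2⟩
    · exact mem_filter.2 ⟨mem_range.2 hs, Or.inr hs2⟩
  have h2 := card_le_card h1
  rw [card_pair hne] at h2
  exact h2

/-- the density of one form -/
lemma V1_ge (α β : ℕ → ℕ) (w y j : ℕ) (hcop : (α j).Coprime (β j))
    (h0 : ∀ p : ℕ, p.Prime → p ≤ w → ∀ m, ¬ p ∣ α j * m + β j) : VW w y ≤ Vq (QF α β j) y := by
  unfold VW Vq
  apply Finset.prod_le_prod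
  · intro p hp
    split_ifs
    · exact (one_sub_pos (mem_pz.1 hp).2).1.le
    · exact zero_le_one
  · intro p hp
    have hpp := (mem_pz.1 hp).2
    have hp0 : (0 : ℝ) < p := by exact_mod_cast hpp.pos
    split_ifs with hw
    · have h1 : (nuB (QF α β j) p : ℝ) ≤ 1 := by exact_mod_cast nuB_QF_le α β j p hpp hcop
      have h2 : (nuB (QF α β j) p : ℝ) / p ≤ 1 / p := div_le_div_of_nonneg_right h1 hp0.le
      linarith
    · rw [nuB_QF_zero α β j p (h0 p hpp (by omega))]
      simp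

/-- the density of two forms -/
lemma V2_le (α β : ℕ → ℕ) (w y j j' a a' R : ℕ)
    (h1 : ∀ p : ℕ, p.Prime → w < p → p ∣ α j → p ∣ a) (h2 : ∀ p : ℕ, p.Prime → w < p → p ∣ α j' → p ∣ a')
    (h3 : ∀ p : ℕ, p.Prime → w < p → (p : ℤ) ∣ (α j : ℤ) * β j' - (α j' : ℤ) * β j → p ∣ R) :
    Vq (QP α β j j') y ≤ VW w y ^ 2 * (tw w y a * tw w y a' * tw w y R) := by
  classical
  have e1 : VW w y ^ 2 * (tw w y a * tw w y a' * tw w y R) =
      ∏ p ∈ pz y, ((if w < p then 1 - 1 / (p : ℝ) else 1) ^ 2 *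
        ((if w < p ∧ p ∣ a then (1 - 1 / (p : ℝ))⁻¹ else 1) * (if w < p ∧ p ∣ a' then (1 - 1 / (p : ℝ))⁻¹ else 1) *
          (if w < p ∧ p ∣ R then (1 - 1 / (p : ℝ))⁻¹ else 1))) := by
    unfold VW tw
    rw [prod_mul_distrib, prod_mul_distrib, prod_mul_distrib, prod_pow]
  rw [e1]
  unfold Vq
  apply Finset.prod_le_prod
  · intro p hp
    have hpp := (mem_pz.1 hp).2
    have hp0 : (0 : ℝ) < p := by exact_mod_cast hpp.pos
    have g1 : nuB (QP α β j j') p ≤ p := by
      unfold nuB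
      exact (card_filter_le _ _).trans (by rw [card_range])
    have g2 : (nuB (QP α β j j') p : ℝ) / p ≤ 1 := by
      rw [div_le_one hp0]
      exact_mod_cast g1
    linarith
  · intro p hp
    have hpp := (mem_pz.1 hp).2
    have hp0 : (0 : ℝ) < p := by exact_mod_cast hpp.pos
    obtain ⟨hx0, hx1⟩ := one_sub_pos hpp
    have hinv := one_le_inv' hpp
    obtain ⟨x, hx⟩ : ∃ x : ℝ, x = 1 - 1 / (p : ℝ) := ⟨_, rfl⟩
    rw [← hx] at hx0 hx1 hinv ⊢
    have hν0 : (0 : ℝ) ≤ (nuB (QP α β j j') p : ℝ) / p := by positivity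
    have hxx : x * x⁻¹ = 1 := mul_inv_cancel₀ hx0.ne'
    by_cases hw : w < p
    · rw [if_pos hw]
      by_cases ha : p ∣ a
      · by_cases ha' : p ∣ a'
        · rw [if_pos ⟨hw, ha⟩, if_pos ⟨hw, ha'⟩]
          have e2 : x ^ 2 * (x⁻¹ * x⁻¹ * (if w < p ∧ p ∣ R then x⁻¹ else 1)) =
              (x * x⁻¹) * (x * x⁻¹) * (if w < p ∧ p ∣ R then x⁻¹ else 1) := by ring
          rw [e2, hxx, one_mul, one_mul]
          split_ifs <;> linarith
        · rw [if_pos ⟨hw, ha⟩, if_neg (fun h => ha' h.2), mul_one]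
          have g1 : (1 : ℝ) ≤ nuB (QP α β j j') p := by
            exact_mod_cast nuB_QP_one α β j j' p hpp (Or.inr (fun h => ha' (h2 p hpp hw h)))
          have g2 : 1 / (p : ℝ) ≤ (nuB (QP α β j j') p : ℝ) / p := div_le_div_of_nonneg_right g1 hp0.le
          have e2 : x ^ 2 * (x⁻¹ * (if w < p ∧ p ∣ R then x⁻¹ else 1)) =
              (x * x⁻¹) * (x * (if w < p ∧ p ∣ R then x⁻¹ else 1)) := by ring
          rw [e2, hxx, one_mul]
          have g3 : x ≤ x * (if w < p ∧ p ∣ R then x⁻¹ else 1) := by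
            apply le_mul_of_one_le_right hx0.le
            split_ifs
            · exact hinv
            · exact le_rfl
          linarith
      · by_cases ha' : p ∣ a'
        · rw [if_neg (fun h => ha h.2), if_pos ⟨hw, ha'⟩, one_mul]
          have g1 : (1 : ℝ) ≤ nuB (QP α β j j') p := by
            exact_mod_cast nuB_QP_one α β j j' p hpp (Or.inl (fun h => ha (h1 p hpp hw h)))
          have g2 : 1 / (p : ℝ) ≤ (nuB (QP α β j j') p : ℝ) / p := div_le_div_of_nonneg_right g1 hp0.le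
          have e2 : x ^ 2 * (x⁻¹ * (if w < p ∧ p ∣ R then x⁻¹ else 1)) =
              (x * x⁻¹) * (x * (if w < p ∧ p ∣ R then x⁻¹ else 1)) := by ring
          rw [e2, hxx, one_mul]
          have g3 : x ≤ x * (if w < p ∧ p ∣ R then x⁻¹ else 1) := by
            apply le_mul_of_one_le_right hx0.le
            split_ifs
            · exact hinv
            · exact le_rfl
          linarith
        · rw [if_neg (fun h => ha h.2), if_neg (fun h => ha' h.2), one_mul, one_mul]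
          by_cases hR : p ∣ R
          · rw [if_pos ⟨hw, hR⟩]
            have g1 : (1 : ℝ) ≤ nuB (QP α β j j') p := by
              exact_mod_cast nuB_QP_one α β j j' p hpp (Or.inl (fun h => ha (h1 p hpp hw h)))
            have g2 : 1 / (p : ℝ) ≤ (nuB (QP α β j j') p : ℝ) / p := div_le_div_of_nonneg_right g1 hp0.le
            have e2 : x ^ 2 * x⁻¹ = x * (x * x⁻¹) := by ring
            rw [e2, hxx, mul_one]
            linarith
          · rw [if_neg (fun h => hR h.2), mul_one]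
            have g1 : (2 : ℝ) ≤ nuB (QP α β j j') p := by
              exact_mod_cast nuB_QP_two α β j j' p hpp (fun h => ha (h1 p hpp hw h))
                (fun h => ha' (h2 p hpp hw h)) (fun h => hR (h3 p hpp hw h))
            have g2 : 2 / (p : ℝ) ≤ (nuB (QP α β j j') p : ℝ) / p := div_le_div_of_nonneg_right g1 hp0.le
            have e2 : x ^ 2 = 1 - 2 / p + (1 / (p : ℝ)) ^ 2 := by rw [hx]; ring
            rw [e2]
            have : 0 ≤ (1 / (p : ℝ)) ^ 2 := sq_nonneg _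
            linarith
    · rw [if_neg hw, if_neg (fun h => hw h.1), if_neg (fun h => hw h.1), if_neg (fun h => hw h.1)]
      norm_num
      exact hν0

lemma cube_inv {p : ℕ} (hp : p.Prime) : ((1 - 1 / (p : ℝ))⁻¹) ^ 3 ≤ 1 + 14 / p := by
  have h2 : (2 : ℝ) ≤ p := by exact_mod_cast hp.two_le
  have hp0 : (0 : ℝ) < p := by linarith
  obtain ⟨hx0, hx1⟩ := one_sub_pos hp
  rw [inv_pow, inv_le_iff_one_le_mul₀ (by positivity)]
  have e : (1 + 14 / (p : ℝ)) * (1 - 1 / (p : ℝ)) ^ 3 =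
    1 + (11 * (p : ℝ) ^ 3 - 39 * p ^ 2 + 41 * p - 14) / p ^ 4 := by
    field_simp
    ring
  rw [e]
  have : 0 ≤ (11 * (p : ℝ) ^ 3 - 39 * p ^ 2 + 41 * p - 14) / p ^ 4 := by
    apply div_nonneg _ (by positivity)
    nlinarith [mul_nonneg (mul_nonneg (sub_nonneg.2 h2) (sub_nonneg.2 h2)) hp0.le, mul_nonneg (sub_nonneg.2 h2) hp0.le]
  linarith

open Classical in
/-- the cubes on average -/
lemma sum_cube (w y K : ℕ) (hw : 14 ≤ w) : ∑ n ∈ Icc 1 K, tw w y n ^ 3 ≤ K * (1 + 28 / (w : ℝ)) := by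
  have hw0 : (0 : ℝ) < w := by exact_mod_cast (by omega : 0 < w)
  have h1 : ∀ n, tw w y n ^ 3 ≤ ∑ U ∈ (pz y).powerset,
      ∏ p ∈ U, ((if w < p then 14 / (p : ℝ) else 0) * (if p ∣ n then 1 else 0)) := by
    intro n
    rw [← prod_one_add]
    unfold tw
    rw [← prod_pow]
    apply Finset.prod_le_prod
    · intro p hp
      have h3 := one_le_inv' (mem_pz.1 hp).2
      split_ifs
      · exact pow_nonneg (by linarith) 3
      · norm_num
    · intro p hp
      have hpp := (mem_pz.1 hp).2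
      by_cases h4 : w < p ∧ p ∣ n
      · rw [if_pos h4, if_pos h4.1, if_pos h4.2, mul_one]
        exact cube_inv hpp
      · rw [if_neg h4, one_pow]
        have : (0 : ℝ) ≤ (if w < p then 14 / (p : ℝ) else 0) * (if p ∣ n then 1 else 0) := by
          apply mul_nonneg
          · split_ifs <;> positivity
          · split_ifs <;> norm_num
        linarith
  refine (sum_le_sum fun n _ => h1 n).trans ?_
  rw [sum_comm]
  have h2 : ∀ U ∈ (pz y).powerset, ∑ n ∈ Icc 1 K,
      ∏ p ∈ U, ((if w < p then 14 / (p : ℝ) else 0) * (if p ∣ n then 1 else 0)) ≤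
      K * ∏ p ∈ U, (if w < p then 14 / (p : ℝ) ^ 2 else 0) := by
    intro U hU
    rw [mem_powerset] at hU
    have hUp : ∀ p ∈ U, p.Prime := fun p hp => (mem_pz.1 (hU hp)).2
    have e1 : ∀ n, ∏ p ∈ U, ((if w < p then 14 / (p : ℝ) else 0) * (if p ∣ n then (1 : ℝ) else 0)) =
        (∏ p ∈ U, (if w < p then 14 / (p : ℝ) else 0)) * (if (∏ p ∈ U, p) ∣ n then 1 else 0) := by
      intro n
      rw [prod_mul_distrib, Pool.Agent.Y882.prod_ind]
      congr 1
      have h3 : (∀ p ∈ U, p ∣ n) ↔ (∏ p ∈ U, p) ∣ n := by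
        constructor
        · intro h
          exact Finset.prod_primes_dvd n (fun p hp => (hUp p hp).prime) h
        · intro h p hp
          exact (dvd_prod_of_mem (fun p => p) hp).trans h
      by_cases h4 : ∀ p ∈ U, p ∣ n
      · rw [if_pos h4, if_pos (h3.1 h4)]
      · rw [if_neg h4, if_neg (fun h => h4 (h3.2 h))]
    rw [sum_congr rfl (fun n _ => e1 n), ← mul_sum]
    have h5 : ∑ n ∈ Icc 1 K, (if (∏ p ∈ U, p) ∣ n then (1 : ℝ) else 0) ≤ K * (∏ p ∈ U, (p : ℝ))⁻¹ := by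
      rw [← sum_filter, sum_const, nsmul_eq_mul, mul_one]
      have h6 := Nat.Ioc_filter_dvd_card_eq_div K (∏ p ∈ U, p)
      have h7 : Icc 1 K = Ioc 0 K := by
        ext n
        simp only [mem_Icc, mem_Ioc]
        omega
      rw [h7, h6]
      refine Nat.cast_div_le.trans (le_of_eq ?_)
      push_cast
      rw [div_eq_mul_inv]
    have h8 : (0 : ℝ) ≤ ∏ p ∈ U, (if w < p then 14 / (p : ℝ) else 0) := by
      apply prod_nonneg
      intro p _
      split_ifs <;> positivity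
    refine (mul_le_mul_of_nonneg_left h5 h8).trans (le_of_eq ?_)
    rw [← prod_inv_distrib, show ∀ a b c : ℝ, a * (b * c) = b * (a * c) by intros; ring, ← prod_mul_distrib]
    congr 1
    apply prod_congr rfl
    intro p _
    split_ifs
    · rw [div_mul_eq_mul_div, ← div_eq_mul_inv, div_div, sq]
    · rw [zero_mul]
  refine (sum_le_sum h2).trans ?_
  rw [← mul_sum, ← prod_one_add]
  apply mul_le_mul_of_nonneg_left _ (Nat.cast_nonneg _)
  have h3 : ∏ p ∈ pz y, (1 + (if w < p then 14 / (p : ℝ) ^ 2 else 0)) ≤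
      Real.exp (∑ p ∈ pz y, (if w < p then 14 / (p : ℝ) ^ 2 else 0)) := by
    rw [Real.exp_sum]
    apply Finset.prod_le_prod
    · intro p _
      split_ifs <;> positivity
    · intro p _
      linarith [Real.add_one_le_exp (if w < p then 14 / (p : ℝ) ^ 2 else 0)]
  refine h3.trans ?_
  have h4 : ∑ p ∈ pz y, (if w < p then 14 / (p : ℝ) ^ 2 else 0) ≤ 14 / (w : ℝ) := by
    rw [← sum_filter]
    have h5 : ∑ p ∈ (pz y).filter (fun p => w < p), 14 / (p : ℝ) ^ 2 ≤
        ∑ p ∈ Ioc w (max w y), 14 / (p : ℝ) ^ 2 := by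
      apply sum_le_sum_of_subset_of_nonneg
      · intro p hp
        rw [mem_filter] at hp
        rw [mem_Ioc]
        exact ⟨hp.2, (mem_pz.1 hp.1).1.trans (le_max_right _ _)⟩
      · intro p _ _
        positivity
    refine h5.trans ?_
    have e1 : ∑ p ∈ Ioc w (max w y), 14 / (p : ℝ) ^ 2 = 14 * ∑ p ∈ Ioc w (max w y), ((p : ℝ) ^ 2)⁻¹ := by
      rw [mul_sum]
      rfl
    rw [e1]
    have h9 := sum_Ioc_inv_sq_le_sub (α := ℝ) (k := w) (n := max w y) (by omega) (le_max_left _ _)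
    have h10 : (0 : ℝ) ≤ ((max w y : ℕ) : ℝ)⁻¹ := by positivity
    rw [div_eq_mul_inv]
    linarith
  have h5 : 14 / (w : ℝ) ≤ 1 := by
    rw [div_le_one hw0]
    exact_mod_cast hw
  have h6 : (0 : ℝ) ≤ 14 / w := by positivity
  calc Real.exp (∑ p ∈ pz y, (if w < p then 14 / (p : ℝ) ^ 2 else 0)) ≤ Real.exp (14 / w) := Real.exp_le_exp.2 h4
    _ ≤ 1 + 28 / w := by
        have h7 := Real.abs_exp_sub_one_le (x := 14 / (w : ℝ)) (by rw [abs_of_nonneg h6]; exact h5)
        rw [abs_of_nonneg h6, abs_le] at h7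
        have e : (28 : ℝ) / w = 2 * (14 / w) := by ring
        rw [e]
        linarith [h7.2]

end Pool.Agent.R490.LGa
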