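import Pool.Agent.R490.LGb

set_option autoImplicit false

/-!
# Families of linear forms: the general theorem on almost primes for almost all `n`
-/

namespace Pool.Agent.R490.LGc

open Finset Filter
open Pool.Agent.W123.RP Pool.Agent.H373R2.T7 Pool.Agent.W123.RU Pool.Agent.TH464.PO Pool.Agent.TH464.PW
open Pool.Agent.Y879.AP Pool.Agent.R490.LFa Pool.Agent.R490.LFb Pool.Agent.R490.LFc Pool.Agent.R490.LFd
open Pool.Agent.R490.LFe Pool.Agent.R490.LGa Pool.Agent.R490.LGb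

/-- the base -/
def qX (D X : ℕ) : ℕ := 2 ^ Nat.log 2 (X / D)

lemma qX_pos (D X : ℕ) : 1 ≤ qX D X := Nat.one_le_two_pow

lemma qX_le (D X : ℕ) (hD : 1 ≤ D) (hX : D ≤ X) : qX D X * D ≤ X := by
  have h1 : X / D ≠ 0 := by
    have := Nat.div_pos hX hD
    omega
  have h2 := Nat.pow_log_le_self 2 h1
  exact (Nat.mul_le_mul_right D h2).trans (Nat.div_mul_le_self X D)

lemma qX_gt (D X : ℕ) (hD : 1 ≤ D) : X < 2 * qX D X * D := by
  have h1 : X / D < 2 ^ (Nat.log 2 (X / D)).succ := Nat.lt_pow_succ_log_self (by norm_num) _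
  rw [Nat.div_lt_iff_lt_mul hD] at h1
  unfold qX
  rw [Nat.succ_eq_add_one, pow_succ] at h1
  calc X < 2 ^ Nat.log 2 (X / D) * 2 * D := h1
    _ = _ := by ring

lemma qX_prime (D X p : ℕ) (hp : p.Prime) (hd : p ∣ qX D X) : p ≤ 2 :=
  Nat.le_of_dvd (by norm_num) (hp.dvd_of_dvd_pow hd)

lemma qX_ev (D : ℕ) (hD : 1 ≤ D) (ρ : ℝ) (hρ : ρ < 1) : ∀ᶠ X : ℕ in atTop,
    (X : ℝ) ^ ρ ≤ qX D X ∧ D ≤ X := by
  have h1 : Tendsto (fun X : ℕ => (X : ℝ) ^ (1 - ρ)) atTop atTop :=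
    (tendsto_rpow_atTop (by linarith)).comp tendsto_natCast_atTop_atTop
  filter_upwards [h1.eventually_ge_atTop (2 * D), eventually_ge_atTop D, eventually_ge_atTop 1] with X h2 h3 h4
  refine ⟨?_, h3⟩
  have hX0 : (0 : ℝ) < X := by exact_mod_cast h4
  have hD0 : (0 : ℝ) < D := by exact_mod_cast hD
  have h5 : (X : ℝ) < 2 * qX D X * D := by exact_mod_cast qX_gt D X hD
  have h6 : (X : ℝ) ^ ρ * (X : ℝ) ^ (1 - ρ) = X := by
    rw [← Real.rpow_add hX0, show ρ + (1 - ρ) = 1 by ring, Real.rpow_one]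
  have h7 : (X : ℝ) ^ ρ * (2 * D) ≤ X := by
    calc (X : ℝ) ^ ρ * (2 * D) ≤ (X : ℝ) ^ ρ * (X : ℝ) ^ (1 - ρ) := mul_le_mul_of_nonneg_left h2 (by positivity)
      _ = X := h6
  have h8 : (X : ℝ) ^ ρ * (2 * D) ≤ qX D X * (2 * D) := by linarith
  exact le_of_mul_le_mul_right h8 (by positivity)

variable {A : ℕ → ℕ} {B : ℕ → ℤ} {D0 w1 : ℕ}

/-- the sizes of the values -/
lemma size_cls (h : Dat A B D0 w1) (w K n0 Z L X : ℕ) (hn : (K + 1) ^ D0 + 2 ≤ n0) (hX : n0 + Wp w ≤ X)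
    (hZL : Z + L ≤ X) (j : ℕ) (hj : j ∈ Icc 1 K) (m : ℕ)
    (hm : m ∈ Ioc ((Z - n0) / Wp w) ((Z - n0) / Wp w + (L / Wp w + 1))) :
    1 ≤ al A w j * m + be A B n0 j ∧ al A w j * m + be A B n0 j ≤ 3 * (K + 1) ^ D0 * X := by
  obtain ⟨b1, b2⟩ := be_cast h K n0 j hj hn
  refine ⟨by omega, ?_⟩
  rw [mem_Ioc] at hm
  rw [mem_Icc] at hj
  have hW := Wp_pos w
  have h1 : Wp w * m ≤ (Z - n0) + L + Wp w := by
    have a1 : Wp w * m ≤ Wp w * ((Z - n0) / Wp w + (L / Wp w + 1)) := Nat.mul_le_mul_left _ hm.2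
    have a2 : Wp w * ((Z - n0) / Wp w) ≤ Z - n0 := Nat.mul_div_le _ _
    have a3 : Wp w * (L / Wp w) ≤ L := Nat.mul_div_le _ _
    have a4 : Wp w * ((Z - n0) / Wp w + (L / Wp w + 1)) =
      Wp w * ((Z - n0) / Wp w) + Wp w * (L / Wp w) + Wp w := by ring
    omega
  have h2 : n0 + Wp w * m ≤ 2 * X := by omega
  have h3 : (j + 1) ^ D0 ≤ (K + 1) ^ D0 := Nat.pow_le_pow_left (by omega) _
  have h4 := (h.szA j hj.1).trans h3
  have h5 := (h.szB j hj.1).trans h3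
  have h6 : ((al A w j * m + be A B n0 j : ℕ) : ℤ) = (A j : ℤ) * ((n0 + Wp w * m : ℕ) : ℤ) + B j := by
    push_cast
    rw [b1]
    unfold al
    push_cast
    ring
  have h7 : A j * (n0 + Wp w * m) ≤ (K + 1) ^ D0 * (2 * X) := Nat.mul_le_mul h4 h2
  have h8 : B j ≤ ((B j).natAbs : ℤ) := by
    rw [Int.natCast_natAbs]
    exact le_abs_self _
  have hX1 : 1 ≤ X := by omega
  have h9 : (B j).natAbs ≤ (K + 1) ^ D0 * X := by
    calc (B j).natAbs ≤ (K + 1) ^ D0 * 1 := by omega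
      _ ≤ (K + 1) ^ D0 * X := Nat.mul_le_mul_left _ hX1
  have h10 : ((al A w j * m + be A B n0 j : ℕ) : ℤ) ≤ ((3 * (K + 1) ^ D0 * X : ℕ) : ℤ) := by
    rw [h6]
    have a1 : (A j : ℤ) * ((n0 + Wp w * m : ℕ) : ℤ) ≤ (((K + 1) ^ D0 * (2 * X) : ℕ) : ℤ) := by exact_mod_cast h7
    have a2 : ((B j).natAbs : ℤ) ≤ (((K + 1) ^ D0 * X : ℕ) : ℤ) := by exact_mod_cast h9
    have a3 : ((3 * (K + 1) ^ D0 * X : ℕ) : ℤ) = (((K + 1) ^ D0 * (2 * X) : ℕ) : ℤ) + (((K + 1) ^ D0 * X : ℕ) : ℤ) := by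
      push_cast
      ring
    rw [a3]
    linarith
  exact_mod_cast h10

open Classical in
/-- one class -/
lemma oneClass (h : Dat A B D0 w1) (Adm : ℕ → Prop) (w K n0 q y R Z L X : ℕ) (hw1 : w1 ≤ w)
    (hn : (K + 1) ^ D0 + 2 ≤ n0) (hX : n0 + Wp w ≤ X) (hZL : Z + L ≤ X) (hwy : w ≤ y)
    (hK : 2 * (K + 1) ^ (2 * D0) ≤ y) (θ ζ S X2 x1 κ0 ε δ t v : ℝ) (hδK : 0 < δ * K)
    (hmain : ∀ Z L : ℕ, (q : ℝ) ^ θ ≤ L → ∀ (α β : ℕ → ℕ) (J : Finset ℕ), Fam α β J y →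
        (∀ j ∈ J, ∀ m ∈ Ioc Z (Z + L), 1 ≤ α j * m + β j ∧ ((α j * m + β j : ℕ) : ℝ) ≤ (q : ℝ) ^ S) →
        (J.card : ℝ) ≤ X2 * Real.log q → x1 ≤ V1S α β J y →
        V2S α β J y ≤ (1 + ε / 560) * V1S α β J y ^ 2 →
        ((BadF α β J q R Z L ζ (κ0 * (V1S α β J y / 4))).card : ℝ) ≤ ε * L)
    (hL : (q : ℝ) ^ θ ≤ ((L / Wp w + 1 : ℕ) : ℝ)) (hS : ((3 * (K + 1) ^ D0 * X : ℕ) : ℝ) ≤ (q : ℝ) ^ S)
    (hKl : (K : ℝ) ≤ X2 * Real.log q) (hx1 : x1 ≤ VW w y * (δ * K)) (hε : 0 < ε) (hκ0 : 0 < κ0)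
    (hexc : ∑ j ∈ Icc 1 K, ∑ j' ∈ Icc 1 K, exc A B w y j j' ≤ ε / 560 * (δ * K) ^ 2)
    (hcard : ∀ n : ℕ, Adm n → δ * K ≤ (Jn A B w K n).card)
    (ht : t ≤ κ0 * (VW w y * (δ * K) / 4)) (hv : v ≤ (q : ℝ) ^ ζ) :
    (((Ioc Z (Z + L)).filter (fun n => n ≡ n0 [MOD Wp w] ∧ n0 < n ∧ Adm n ∧
      (cnt A B R K n v : ℝ) < t)).card : ℝ) ≤ ε * ((L / Wp w + 1 : ℕ) : ℝ) := by
  obtain ⟨T, hT⟩ : ∃ T, T = (Ioc Z (Z + L)).filter (fun n => n ≡ n0 [MOD Wp w] ∧ n0 < n ∧ Adm n ∧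
      (cnt A B R K n v : ℝ) < t) := ⟨_, rfl⟩
  rw [← hT]
  rcases T.eq_empty_or_nonempty with hemp | ⟨n, hn'⟩
  · rw [hemp, card_empty, Nat.cast_zero]
    positivity
  rw [hT, mem_filter] at hn'
  obtain ⟨-, hnn, -, hadm, -⟩ := hn'
  have hJc : δ * K ≤ (Jn A B w K n0).card := by
    rw [← Jn_congr A B w K n n0 hnn]
    exact hcard n hadm
  have hF := fam_cls h w K n0 y hw1 hn hwy hK
  have hVW := VW_pos w y
  have hV1 := V1S_cls h w K n0 y hF hn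
  have hV2 := V2S_cls h w K n0 y hn
  obtain ⟨V1, hV1d⟩ : ∃ V1, V1 = V1S (al A w) (be A B n0) (Jn A B w K n0) y := ⟨_, rfl⟩
  obtain ⟨nJ, hnJ⟩ : ∃ nJ : ℝ, nJ = (Jn A B w K n0).card := ⟨_, rfl⟩
  have hV1x : VW w y * (δ * K) ≤ V1 := by
    rw [hV1d]
    exact (mul_le_mul_of_nonneg_left hJc hVW.le).trans hV1
  have hKc : ((Jn A B w K n0).card : ℝ) ≤ K := by
    have : (Jn A B w K n0).card ≤ (Icc 1 K).card := card_le_card (filter_subset _ _)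
    rw [Nat.card_Icc, Nat.add_sub_cancel] at this
    exact_mod_cast this
  have hbad := hmain ((Z - n0) / Wp w) (L / Wp w + 1) hL (al A w) (be A B n0) (Jn A B w K n0) hF
    (by
      intro j hj m hm
      obtain ⟨a1, a2⟩ := size_cls h w K n0 Z L X hn hX hZL j (filter_subset _ _ hj) m hm
      exact ⟨a1, le_trans (by exact_mod_cast a2) hS⟩)
    (hKc.trans hKl) (by rw [← hV1d]; exact hx1.trans hV1x)
    (by
      rw [← hV1d] at hV1 ⊢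
      rw [← hnJ] at hV1 hV2 hJc
      refine hV2.trans ?_
      have a1 : nJ ^ 2 + ∑ j ∈ Icc 1 K, ∑ j' ∈ Icc 1 K, exc A B w y j j' ≤ (1 + ε / 560) * nJ ^ 2 := by
        have a2 : (δ * K) ^ 2 ≤ nJ ^ 2 := pow_le_pow_left₀ hδK.le hJc 2
        have a3 : ε / 560 * (δ * K) ^ 2 ≤ ε / 560 * nJ ^ 2 := mul_le_mul_of_nonneg_left a2 (by positivity)
        linarith
      calc VW w y ^ 2 * (nJ ^ 2 + ∑ j ∈ Icc 1 K, ∑ j' ∈ Icc 1 K, exc A B w y j j') ≤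
          VW w y ^ 2 * ((1 + ε / 560) * nJ ^ 2) := mul_le_mul_of_nonneg_left a1 (sq_nonneg _)
        _ = (1 + ε / 560) * (VW w y * nJ) ^ 2 := by ring
        _ ≤ (1 + ε / 560) * V1 ^ 2 := by
            apply mul_le_mul_of_nonneg_left _ (by positivity)
            have : 0 ≤ nJ := by linarith
            exact pow_le_pow_left₀ (by positivity) hV1 2)
  rw [← hV1d] at hbad
  refine le_trans ?_ hbad
  have h1 := cls_card h w K n0 q R Z L ζ t (κ0 * (V1 / 4)) v hn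
    (ht.trans (by
      apply mul_le_mul_of_nonneg_left _ hκ0.le
      linarith)) hv
  have h2 : T.card ≤ ((Ioc Z (Z + L)).filter (fun n => n ≡ n0 [MOD Wp w] ∧ n0 < n ∧
      (cnt A B R K n v : ℝ) < t)).card := by
    rw [hT]
    apply card_le_card
    intro n hn
    rw [mem_filter] at hn ⊢
    exact ⟨hn.1, hn.2.1, hn.2.2.1, hn.2.2.2.2⟩
  exact_mod_cast h2.trans h1

open Classical in
/-- the sum over the classes -/
lemma all_classes (A : ℕ → ℕ) (B : ℕ → ℤ) (Adm : ℕ → Prop) (w K R Z L t0 : ℕ) (ε t v : ℝ) (hε : 0 < ε)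
    (hε1 : ε ≤ 1) (hn1 : ((Wp w * (t0 + 2) : ℕ) : ℝ) ≤ ε * L)
    (h : ∀ a < Wp w, (((Ioc Z (Z + L)).filter (fun n => n ≡ a + Wp w * t0 [MOD Wp w] ∧ a + Wp w * t0 < n ∧ Adm n ∧
      (cnt A B R K n v : ℝ) < t)).card : ℝ) ≤ ε * ((L / Wp w + 1 : ℕ) : ℝ)) :
    (((Ioc Z (Z + L)).filter (fun n => Adm n ∧ (cnt A B R K n v : ℝ) < t)).card : ℝ) ≤ 3 * ε * L := by
  have hW := Wp_pos w
  have hW0 : (0 : ℝ) < Wp w := by exact_mod_cast hW
  obtain ⟨n1, hn1d⟩ : ∃ n1, n1 = Wp w * (t0 + 2) := ⟨_, rfl⟩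
  rw [← hn1d] at hn1
  have hsub : (Ioc Z (Z + L)).filter (fun n => Adm n ∧ (cnt A B R K n v : ℝ) < t) ⊆
      Ioc 0 n1 ∪ (range (Wp w)).biUnion (fun a => (Ioc Z (Z + L)).filter (fun n =>
        n ≡ a + Wp w * t0 [MOD Wp w] ∧ a + Wp w * t0 < n ∧ Adm n ∧ (cnt A B R K n v : ℝ) < t)) := by
    intro n hn
    rw [mem_filter, mem_Ioc] at hn
    obtain ⟨⟨h1, h2⟩, h3, h4⟩ := hn
    rw [mem_union]
    by_cases hc : n ≤ n1
    · left
      rw [mem_Ioc]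
      omega
    · right
      rw [mem_biUnion]
      have hmod := Nat.mod_lt n hW
      refine ⟨n % Wp w, mem_range.2 hmod, ?_⟩
      rw [mem_filter, mem_Ioc]
      refine ⟨⟨h1, h2⟩, ?_, ?_, h3, h4⟩
      · have e1 : n % Wp w + Wp w * t0 ≡ n % Wp w + 0 [MOD Wp w] :=
          (Nat.modEq_zero_iff_dvd.2 (dvd_mul_right _ _)).add_left _
        rw [add_zero] at e1
        exact ((Nat.mod_modEq n (Wp w)).symm).trans e1.symm
      · have e1 : Wp w * (t0 + 2) = Wp w * t0 + 2 * Wp w := by ring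
        omega
  have h1 : (((Ioc Z (Z + L)).filter (fun n => Adm n ∧ (cnt A B R K n v : ℝ) < t)).card : ℝ) ≤
      n1 + ∑ a ∈ range (Wp w), ε * ((L / Wp w + 1 : ℕ) : ℝ) := by
    have a1 := (card_le_card hsub).trans ((card_union_le _ _).trans (Nat.add_le_add_left card_biUnion_le _))
    rw [Nat.card_Ioc, Nat.sub_zero] at a1
    have a2 : (((Ioc Z (Z + L)).filter (fun n => Adm n ∧ (cnt A B R K n v : ℝ) < t)).card : ℝ) ≤
        n1 + ∑ a ∈ range (Wp w), (((Ioc Z (Z + L)).filter (fun n =>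
        n ≡ a + Wp w * t0 [MOD Wp w] ∧ a + Wp w * t0 < n ∧ Adm n ∧ (cnt A B R K n v : ℝ) < t)).card : ℝ) := by
      exact_mod_cast a1
    refine a2.trans ?_
    apply add_le_add le_rfl
    exact sum_le_sum fun a ha => h a (mem_range.1 ha)
  rw [sum_const, card_range, nsmul_eq_mul] at h1
  have h2 : (Wp w : ℝ) * ((L / Wp w + 1 : ℕ) : ℝ) ≤ L + Wp w := by
    have : Wp w * (L / Wp w + 1) ≤ L + Wp w := by
      have := Nat.mul_div_le L (Wp w)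
      rw [mul_add, mul_one]
      omega
    exact_mod_cast this
  have h3 : (Wp w : ℝ) ≤ n1 := by
    rw [hn1d]
    exact_mod_cast Nat.le_mul_of_pos_right _ (by omega)
  have hL0 : (0 : ℝ) ≤ L := Nat.cast_nonneg _
  have h4 : ε * (L : ℝ) ≤ L := mul_le_of_le_one_left hL0 hε1
  have h5 : (Wp w : ℝ) * (ε * ((L / Wp w + 1 : ℕ) : ℝ)) ≤ ε * (L + L) := by
    have e : (Wp w : ℝ) * (ε * ((L / Wp w + 1 : ℕ) : ℝ)) = ε * ((Wp w : ℝ) * ((L / Wp w + 1 : ℕ) : ℝ)) := by ring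
    rw [e]
    apply mul_le_mul_of_nonneg_left _ hε.le
    linarith
  linarith

end Pool.Agent.R490.LGc
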