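import Pool.Agent.R490.LGd

set_option autoImplicit false

/-!
# Families of linear forms: the average hypothesis
-/

namespace Pool.Agent.R490.LGe

open Finset Filter
open Pool.Agent.W123.RP Pool.Agent.H373R2.T7 Pool.Agent.W123.RU Pool.Agent.TH464.PO Pool.Agent.TH464.PW
open Pool.Agent.Y879.AP Pool.Agent.R490.P3b Pool.Agent.R490.LGa Pool.Agent.R490.LGb

open Classical in
/-- the count of the sifted integers from below -/
lemma cnt_low (c : ℕ) (hc : 1 ≤ c) : ∃ x0 : ℕ, ∀ w : ℕ, x0 ≤ w → ∀ v : ℝ, 0 < v → ∃ K0 : ℕ, ∀ K : ℕ, K0 ≤ K →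
    ∀ Q : ℕ → ℕ → Prop, PerB Q c → v ≤ Vq Q w →
      v / 4 * K ≤ (((Ioc 0 K).filter (fun j => Sf Q w j)).card : ℝ) := by
  obtain ⟨C0, x0, hC0, H⟩ := cnt_ap c hc
  refine ⟨x0, ?_⟩
  intro w hw v hv
  refine ⟨max (w ^ (16 * (C0 * C0))) (⌈16 / v ^ 2⌉₊ + 1), ?_⟩
  intro K hK Q hQ hvQ
  have h1 := H C0 le_rfl K w hw ((le_max_left _ _).trans hK) Q hQ 0 K 1 0 le_rfl (by
    intro p hp hd
    have := (mem_pz.1 hp).2.one_lt
    have := Nat.le_of_dvd one_pos hd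
    omega)
  rw [Nat.cast_one, div_one, zero_add] at h1
  have e1 : (Ioc 0 K).filter (fun n : ℕ => n ≡ 0 [MOD 1] ∧ Sf Q w n) = (Ioc 0 K).filter (fun j => Sf Q w j) := by
    apply filter_congr
    intro n _
    constructor
    · exact fun h => h.2
    · exact fun h => ⟨Nat.modEq_one, h⟩
  rw [e1] at h1
  have hKr : 16 / v ^ 2 ≤ (K : ℝ) := by
    have a1 : ⌈16 / v ^ 2⌉₊ + 1 ≤ K := (le_max_right _ _).trans hK
    have a2 := Nat.le_ceil (16 / v ^ 2)
    have a3 : ((⌈16 / v ^ 2⌉₊ : ℕ) : ℝ) + 1 ≤ K := by exact_mod_cast a1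
    linarith
  have hK0 : (0 : ℝ) ≤ K := Nat.cast_nonneg _
  have hs : √(K : ℝ) ≤ v / 4 * K := by
    have a1 : 4 / v ≤ √(K : ℝ) := by
      apply Real.le_sqrt_of_sq_le
      refine le_trans (le_of_eq ?_) hKr
      field_simp
      norm_num
    have a2 : √(K : ℝ) * √(K : ℝ) = K := Real.mul_self_sqrt hK0
    have a3 : 1 ≤ v / 4 * √(K : ℝ) := by
      rw [div_le_iff₀ hv] at a1
      linarith
    calc √(K : ℝ) = 1 * √(K : ℝ) := (one_mul _).symm
      _ ≤ v / 4 * √(K : ℝ) * √(K : ℝ) := mul_le_mul_of_nonneg_right a3 (Real.sqrt_nonneg _)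
      _ = v / 4 * K := by rw [mul_assoc, a2]
  have hb : (1 / 2 : ℝ) ^ C0 ≤ 1 / 2 := by
    calc (1 / 2 : ℝ) ^ C0 ≤ (1 / 2) ^ 1 := pow_le_pow_of_le_one (by norm_num) (by norm_num) hC0
      _ = 1 / 2 := by norm_num
  have hKV : (0 : ℝ) ≤ K * Vq Q w := by
    have : 0 ≤ Vq Q w := hv.le.trans hvQ
    positivity
  have h2 : (1 / 2 : ℝ) ^ C0 * (K * Vq Q w) ≤ 1 / 2 * (K * Vq Q w) := mul_le_mul_of_nonneg_right hb hKV
  have h3 : v * K ≤ K * Vq Q w := by
    rw [mul_comm]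
    exact mul_le_mul_of_nonneg_left hvQ hK0
  have h4 := (abs_le.1 h1).1
  linarith

/-- the lower bound of the density -/
lemma vq_low (c : ℕ) : ∃ κ : ℝ, 0 < κ ∧ ∀ Q : ℕ → ℕ → Prop, PerB Q c →
    (∀ p : ℕ, p.Prime → nuB Q p < p) → ∀ w : ℕ, κ * Vz w ^ c ≤ Vq Q w := by
  refine ⟨(∏ p ∈ pz (2 * c), (p : ℝ)⁻¹) * Real.exp (-(∑' n : ℕ, 2 * (c : ℝ) ^ 2 / (n : ℝ) ^ 2)), ?_, ?_⟩
  · apply mul_pos _ (Real.exp_pos _)
    apply prod_pos
    intro p hp
    have := (mem_pz.1 hp).2.pos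
    positivity
  intro Q hQ hadm w
  refine le_trans ?_ (Pool.Agent.W123.RU.Poly.Vq_low Q c hQ hadm w)
  apply mul_le_mul_of_nonneg_left
  · have h1 : Real.exp (-(∑ p ∈ pz w, (nuB Q p : ℝ) / p)) = ∏ p ∈ pz w, Real.exp (-((nuB Q p : ℝ) / p)) := by
      rw [← sum_neg_distrib, Real.exp_sum]
    rw [h1]
    unfold Vz
    rw [← prod_pow]
    apply Finset.prod_le_prod
    · intro p hp
      exact pow_nonneg (one_sub_pos (mem_pz.1 hp).2).1.le c
    · intro p hp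
      have hpp := (mem_pz.1 hp).2
      have hp0 : (0 : ℝ) < p := by exact_mod_cast hpp.pos
      have h2 : 1 - 1 / (p : ℝ) ≤ Real.exp (-(1 / (p : ℝ))) := by
        linarith [Real.add_one_le_exp (-(1 / (p : ℝ)))]
      calc (1 - 1 / (p : ℝ)) ^ c ≤ Real.exp (-(1 / (p : ℝ))) ^ c := pow_le_pow_left₀ (one_sub_pos hpp).1.le h2 c
        _ = Real.exp (-((c : ℝ) / p)) := by
            rw [← Real.exp_nat_mul]
            congr 1
            ring
        _ ≤ Real.exp (-((nuB Q p : ℝ) / p)) := by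
            apply Real.exp_le_exp.2
            have h3 : (nuB Q p : ℝ) ≤ c := by exact_mod_cast hQ.few p hpp
            have h4 : (nuB Q p : ℝ) / p ≤ (c : ℝ) / p := div_le_div_of_nonneg_right h3 hp0.le
            linarith
  · apply mul_nonneg _ (Real.exp_pos _).le
    apply prod_nonneg
    intro p _
    positivity

/-- the average hypothesis -/
theorem avg_of (c : ℕ) (hc : 1 ≤ c) (A : ℕ → ℕ) (B : ℕ → ℤ) (Adm : ℕ → Prop) (w1 : ℕ) (Cx : ℝ)
    (hexc : ∀ w K y : ℕ, 14 ≤ w → w1 ≤ w →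
      ∑ j ∈ Icc 1 K, ∑ j' ∈ Icc 1 K, exc A B w y j j' ≤ Cx * (K : ℝ) ^ 2 / w)
    (hper : ∀ n, Adm n → PerB (fun p j => (p : ℤ) ∣ (A j : ℤ) * n + B j) c)
    (hadm : ∀ n, Adm n → ∀ p : ℕ, p.Prime → nuB (fun p j => (p : ℤ) ∣ (A j : ℤ) * n + B j) p < p) (η : ℝ)
    (hη : 0 < η) : ∃ (w K0 : ℕ) (δ : ℝ), w1 ≤ w ∧ 0 < δ ∧ ∀ K : ℕ, K0 ≤ K →
      (∀ y : ℕ, ∑ j ∈ Icc 1 K, ∑ j' ∈ Icc 1 K, exc A B w y j j' ≤ η * (δ * K) ^ 2) ∧
      (∀ n : ℕ, Adm n → δ * K ≤ (Jn A B w K n).card) := by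
  classical
  obtain ⟨x0, H⟩ := cnt_low c hc
  obtain ⟨κ, hκ, hlow⟩ := vq_low c
  obtain ⟨cz, C, hcz, hC, hV⟩ := Vz_bounds
  have ev := logpow_rpow (2 * c) ((|Cx| + 1) * 16 / (η * κ ^ 2 * cz ^ (2 * c))) 1 (by positivity) one_pos
  obtain ⟨w, hw1, hw2⟩ := (ev.and (eventually_ge_atTop (x0 + w1 + 14))).exists
  have hw0 : (0 : ℝ) < w := by exact_mod_cast (by omega : 0 < w)
  have hlw : 0 < Real.log w := Real.log_pos (by exact_mod_cast (by omega : 1 < w))
  have hVz : cz / Real.log w ≤ Vz w := (hV w (by omega)).1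
  have hVz0 : 0 < Vz w := lt_of_lt_of_le (by positivity) hVz
  obtain ⟨v, hv⟩ : ∃ v : ℝ, v = κ * Vz w ^ c := ⟨_, rfl⟩
  have hv0 : 0 < v := by rw [hv]; positivity
  obtain ⟨K0, hK0⟩ := H w (by omega) v hv0
  refine ⟨w, K0, v / 4, by omega, by positivity, ?_⟩
  intro K hK
  constructor
  · intro y
    refine (hexc w K y (by omega) (by omega)).trans ?_
    have a1 : (cz / Real.log w) ^ c ≤ Vz w ^ c := pow_le_pow_left₀ (by positivity) hVz c
    have a2 : κ * (cz / Real.log w) ^ c ≤ v := by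
      rw [hv]
      exact mul_le_mul_of_nonneg_left a1 hκ.le
    have a3 : (κ * (cz / Real.log w) ^ c) ^ 2 ≤ v ^ 2 := pow_le_pow_left₀ (by positivity) a2 2
    have a4 : (κ * (cz / Real.log w) ^ c) ^ 2 = κ ^ 2 * cz ^ (2 * c) / Real.log w ^ (2 * c) := by
      rw [mul_pow, ← pow_mul, div_pow, mul_comm c 2]
      ring
    rw [a4] at a3
    rw [Real.rpow_one] at hw1
    have a5 : Cx / w ≤ η * (v / 4) ^ 2 := by
      have b1 : (|Cx| + 1) * 16 * Real.log w ^ (2 * c) ≤ w * (η * κ ^ 2 * cz ^ (2 * c)) := by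
        rw [div_mul_eq_mul_div, div_le_iff₀ (by positivity)] at hw1
        exact hw1
      have b2 : (|Cx| + 1) * 16 / w ≤ η * (κ ^ 2 * cz ^ (2 * c) / Real.log w ^ (2 * c)) := by
        rw [div_le_iff₀ hw0]
        have e : η * (κ ^ 2 * cz ^ (2 * c) / Real.log w ^ (2 * c)) * w =
          w * (η * κ ^ 2 * cz ^ (2 * c)) / Real.log w ^ (2 * c) := by ring
        rw [e, le_div_iff₀ (by positivity)]
        exact b1
      have b3 := b2.trans (mul_le_mul_of_nonneg_left a3 hη.le)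
      have b4 : Cx / w ≤ (|Cx| + 1) / w := div_le_div_of_nonneg_right (by linarith [le_abs_self Cx]) hw0.le
      have b5 : (|Cx| + 1) * 16 / w = 16 * ((|Cx| + 1) / w) := by ring
      rw [b5] at b3
      nlinarith
    calc Cx * (K : ℝ) ^ 2 / w = Cx / w * (K : ℝ) ^ 2 := by ring
      _ ≤ η * (v / 4) ^ 2 * (K : ℝ) ^ 2 := mul_le_mul_of_nonneg_right a5 (sq_nonneg _)
      _ = η * (v / 4 * K) ^ 2 := by ring
  · intro n hn
    have h1 := hK0 K hK (fun p j => (p : ℤ) ∣ (A j : ℤ) * n + B j) (hper n hn)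
      (by rw [hv]; exact hlow _ (hper n hn) (hadm n hn) w)
    refine h1.trans ?_
    have h2 : ((Ioc 0 K).filter (fun j => Sf (fun p j => (p : ℤ) ∣ (A j : ℤ) * n + B j) w j)).card ≤
        (Jn A B w K n).card := by
      apply card_le_card
      intro j hj
      unfold Jn
      rw [mem_filter, mem_Ioc] at hj
      rw [mem_filter, mem_Icc]
      refine ⟨by omega, ?_⟩
      intro p hp hpw
      exact hj.2 p (mem_pz.2 ⟨hpw, hp⟩)
    exact_mod_cast h2

/-- the sum over the differences -/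
lemma sum_diff (f : ℕ → ℝ) (hf : ∀ n, 0 ≤ f n) (K j : ℕ) (hj : j ∈ Icc 1 K) :
    ∑ j' ∈ Icc 1 K, (if j = j' then 0 else f ((j : ℤ) - j').natAbs) ≤ 2 * ∑ h ∈ Icc 1 K, f h := by
  classical
  rw [mem_Icc] at hj
  have h1 : ∑ j' ∈ Icc 1 K, (if j = j' then 0 else f ((j : ℤ) - j').natAbs) =
      ∑ j' ∈ (Icc 1 K).filter (fun j' => j' < j), f (j - j') +
      ∑ j' ∈ (Icc 1 K).filter (fun j' => j < j'), f (j' - j) := by
    rw [sum_filter, sum_filter, ← sum_add_distrib]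
    apply sum_congr rfl
    intro j' _
    rcases lt_trichotomy j j' with h | h | h
    · rw [if_neg h.ne, if_neg (by omega), if_pos h, zero_add]
      congr 1
      omega
    · rw [if_pos h, if_neg (by omega), if_neg (by omega), add_zero]
    · rw [if_neg h.ne', if_pos h, if_neg (by omega), add_zero]
      congr 1
      omega
  have h2 : ∑ j' ∈ (Icc 1 K).filter (fun j' => j' < j), f (j - j') ≤ ∑ h ∈ Icc 1 K, f h := by
    rw [← sum_image (f := f) (g := fun j' => j - j') (s := (Icc 1 K).filter (fun j' => j' < j))]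
    · apply sum_le_sum_of_subset_of_nonneg
      · intro h hh
        rw [mem_image] at hh
        obtain ⟨j', hj', rfl⟩ := hh
        rw [mem_filter, mem_Icc] at hj'
        rw [mem_Icc]
        omega
      · intro n _ _
        exact hf n
    · intro a ha b hb hab
      rw [mem_coe, mem_filter, mem_Icc] at ha hb
      simp only at hab
      omega
  have h3 : ∑ j' ∈ (Icc 1 K).filter (fun j' => j < j'), f (j' - j) ≤ ∑ h ∈ Icc 1 K, f h := by
    rw [← sum_image (f := f) (g := fun j' => j' - j) (s := (Icc 1 K).filter (fun j' => j < j'))]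
    · apply sum_le_sum_of_subset_of_nonneg
      · intro h hh
        rw [mem_image] at hh
        obtain ⟨j', hj', rfl⟩ := hh
        rw [mem_filter, mem_Icc] at hj'
        rw [mem_Icc]
        omega
      · intro n _ _
        exact hf n
    · intro a ha b hb hab
      rw [mem_coe, mem_filter, mem_Icc] at ha hb
      simp only at hab
      omega
  rw [h1]
  linarith

lemma cube_ge (w y n : ℕ) : 0 ≤ tw w y n ^ 3 - 1 := by
  have := one_le_pow₀ (one_le_tw w y n) (n := 3)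
  linarith

lemma sum_ex (w y K : ℕ) (hw : 14 ≤ w) : ∑ n ∈ Icc 1 K, (tw w y n ^ 3 - 1) ≤ 28 * (K : ℝ) / w := by
  have h := sum_cube w y K hw
  rw [sum_sub_distrib, sum_const, nsmul_eq_mul, Nat.card_Icc, Nat.add_sub_cancel, mul_one]
  have e : (K : ℝ) * (1 + 28 / (w : ℝ)) = K + 28 * K / w := by ring
  rw [e] at h
  linarith

lemma amgm3 (a b c : ℝ) (ha : 1 ≤ a) (hb : 1 ≤ b) (hc : 1 ≤ c) :
    a * b * c - 1 ≤ ((a ^ 3 - 1) + (b ^ 3 - 1) + (c ^ 3 - 1)) / 3 := by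
  nlinarith [mul_nonneg (by linarith : 0 ≤ a + b + c) (add_nonneg (add_nonneg (sq_nonneg (a - b)) (sq_nonneg (b - c)))
    (sq_nonneg (a - c)))]

end Pool.Agent.R490.LGe
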