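import Pool.Agent.R490.LGe

set_option autoImplicit false

/-!
# Two applications: a fixed class for almost all moduli, and a square plus an almost prime
-/

namespace Pool.Agent.R490.LGf

open Finset Filter
open Pool.Agent.W123.RP Pool.Agent.H373R2.T7 Pool.Agent.W123.RU Pool.Agent.TH464.PO Pool.Agent.TH464.PW
open Pool.Agent.Y879.AP Pool.Agent.R490.P3b Pool.Agent.R490.LGa Pool.Agent.R490.LGb Pool.Agent.R490.LGd
open Pool.Agent.R490.LGe

/-! ### The forms `j n + c` -/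

lemma datA (c : ℤ) (hc : c ≠ 0) : Dat (fun j => j) (fun _ => c) (c.natAbs + 1) c.natAbs := by
  refine ⟨fun j hj => hj, ?_, ?_, ?_, ?_⟩
  · intro j _
    calc j ≤ (j + 1) ^ 1 := by rw [pow_one]; omega
      _ ≤ (j + 1) ^ (c.natAbs + 1) := Nat.pow_le_pow_right (by omega) (by omega)
  · intro j hj
    show c.natAbs ≤ (j + 1) ^ (c.natAbs + 1)
    have h1 : c.natAbs + 1 < 2 ^ (c.natAbs + 1) := Nat.lt_two_pow_self
    have h2 : 2 ^ (c.natAbs + 1) ≤ (j + 1) ^ (c.natAbs + 1) := Nat.pow_le_pow_left (by omega) _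
    omega
  · intro j _ p _ hw _ hd
    have h1 : p ∣ c.natAbs := Int.natCast_dvd.1 hd
    have h2 := Nat.le_of_dvd (Nat.pos_of_ne_zero (Int.natAbs_ne_zero.2 hc)) h1
    omega
  · intro j j' _ _ hne
    unfold Rs
    have e : (j : ℤ) * c - (j' : ℤ) * c = ((j : ℤ) - j') * c := by ring
    rw [e]
    apply mul_ne_zero _ hc
    intro h
    exact hne (by omega)

lemma excA (c : ℤ) (hc : c ≠ 0) (w K y : ℕ) (hw : 14 ≤ w) (hcw : c.natAbs ≤ w) :
    ∑ j ∈ Icc 1 K, ∑ j' ∈ Icc 1 K, exc (fun j => j) (fun _ => c) w y j j' ≤ 38 * (K : ℝ) ^ 2 / w := by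
  have hw0 : (0 : ℝ) < w := by exact_mod_cast (by omega : 0 < w)
  obtain ⟨G, hG⟩ : ∃ G, G = ∑ n ∈ Icc 1 K, (tw w y n ^ 3 - 1) := ⟨_, rfl⟩
  have hG1 : G ≤ 28 * K / w := by rw [hG]; exact sum_ex w y K hw
  have h1 : ∀ j ∈ Icc 1 K, ∀ j' ∈ Icc 1 K, exc (fun j => j) (fun _ => c) w y j j' ≤
      ((tw w y j ^ 3 - 1) + (tw w y j' ^ 3 - 1) +
        (if j = j' then 0 else (tw w y ((j : ℤ) - j').natAbs ^ 3 - 1))) / 3 := by
    intro j _ j' _
    unfold exc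
    split_ifs with hne
    · have a1 := cube_ge w y j
      have a2 := cube_ge w y j'
      linarith
    · have e : (Rs (fun j => j) (fun _ => c) j j').natAbs = ((j : ℤ) - j').natAbs * c.natAbs := by
        unfold Rs
        rw [← Int.natAbs_mul]
        congr 1
        ring
      rw [e]
      have a1 : tw w y (((j : ℤ) - j').natAbs * c.natAbs) ≤ tw w y ((j : ℤ) - j').natAbs := by
        have := tw_mul_le w y ((j : ℤ) - j').natAbs c.natAbs
        rwa [tw_small w y c.natAbs (Nat.pos_of_ne_zero (Int.natAbs_ne_zero.2 hc)) hcw, mul_one] at this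
      have a2 : tw w y j * tw w y j' * tw w y (((j : ℤ) - j').natAbs * c.natAbs) ≤
          tw w y j * tw w y j' * tw w y ((j : ℤ) - j').natAbs :=
        mul_le_mul_of_nonneg_left a1 (mul_pos (tw_pos _ _ _) (tw_pos _ _ _)).le
      have a3 := amgm3 _ _ _ (one_le_tw w y j) (one_le_tw w y j') (one_le_tw w y ((j : ℤ) - j').natAbs)
      linarith
  have h2 : ∀ j ∈ Icc 1 K, ∑ j' ∈ Icc 1 K, exc (fun j => j) (fun _ => c) w y j j' ≤
      (K * (tw w y j ^ 3 - 1) + G + 2 * G) / 3 := by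
    intro j hj
    refine (sum_le_sum (h1 j hj)).trans ?_
    rw [← sum_div, sum_add_distrib, sum_add_distrib, sum_const, nsmul_eq_mul, Nat.card_Icc, Nat.add_sub_cancel,
      ← hG]
    have h3 := sum_diff (fun n => tw w y n ^ 3 - 1) (cube_ge w y) K j hj
    rw [← hG] at h3
    linarith
  refine (sum_le_sum h2).trans ?_
  rw [← sum_div, sum_add_distrib, sum_add_distrib, sum_const, sum_const, nsmul_eq_mul, nsmul_eq_mul, ← mul_sum,
    Nat.card_Icc, Nat.add_sub_cancel, ← hG]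
  have h3 : (K : ℝ) * G ≤ K * (28 * K / w) := mul_le_mul_of_nonneg_left hG1 (Nat.cast_nonneg _)
  have e1 : (K : ℝ) * (28 * K / w) = 28 * ((K : ℝ) ^ 2 / w) := by ring
  have e2 : 38 * (K : ℝ) ^ 2 / w = 38 * ((K : ℝ) ^ 2 / w) := by ring
  rw [e1] at h3
  rw [e2]
  have h4 : 0 ≤ (K : ℝ) ^ 2 / w := by positivity
  linarith

/-- the moduli prime to `c` -/
def AdmA (c : ℤ) (n : ℕ) : Prop := n.Coprime c.natAbs

lemma fewA (c : ℤ) (n : ℕ) (hn : AdmA c n) (p : ℕ) (hp : p.Prime) :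
    nuB (fun p j => (p : ℤ) ∣ ((j : ℕ) : ℤ) * n + c) p ≤ 1 := by
  unfold nuB
  rw [card_le_one]
  intro a ha b hb
  simp only [mem_filter, mem_range] at ha hb
  have h1 : (p : ℤ) ∣ ((a : ℤ) - b) * n := by
    have := dvd_sub ha.2 hb.2
    have e : (a : ℤ) * n + c - ((b : ℤ) * n + c) = ((a : ℤ) - b) * n := by ring
    rwa [e] at this
  rcases (Nat.prime_iff_prime_int.1 hp).dvd_or_dvd h1 with h2 | h2
  · obtain ⟨t, ht⟩ := h2
    have h3 : ((a : ℤ) - b).natAbs < p := by omega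
    have h4 : (a : ℤ) - b = 0 := Int.eq_zero_of_dvd_of_natAbs_lt_natAbs ⟨t, ht⟩ (by simpa using h3)
    omega
  · exfalso
    have h3 : (p : ℤ) ∣ c := (dvd_add_right (h2.mul_left _)).1 ha.2
    have h4 : p ∣ n := by exact_mod_cast h2
    have h5 : p ∣ c.natAbs := Int.natCast_dvd.1 h3
    have h6 := Nat.dvd_gcd h4 h5
    rw [show n.gcd c.natAbs = 1 from hn] at h6
    exact hp.one_lt.ne' (Nat.dvd_one.1 h6)

lemma perA (c : ℤ) (n : ℕ) (hn : AdmA c n) :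
    PerB (fun p j => (p : ℤ) ∣ ((j : ℕ) : ℤ) * n + c) 1 := by
  refine ⟨fun p j => ?_, fun p hp => fewA c n hn p hp⟩
  have h1 : (j : ℤ) ≡ ((j % p : ℕ) : ℤ) [ZMOD p] := Int.natCast_modEq_iff.2 (Nat.mod_modEq j p).symm
  have h2 : (j : ℤ) * n + c ≡ ((j % p : ℕ) : ℤ) * n + c [ZMOD p] := (h1.mul_right _).add_right _
  exact h2.dvd_iff

open Classical in
/-- a fixed class, almost all moduli -/
theorem mainA (c : ℤ) (hc : c ≠ 0) (θ ε : ℝ) (k : ℕ) (hθ : 0 < θ) (hθ1 : θ ≤ 1) (hk : 1 / 8 + 25 / (12 * θ) < k)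
    (hε : 0 < ε) :
    ∃ κ Λ : ℝ, 0 < κ ∧ 0 < Λ ∧ ∀ l : ℝ, Λ ≤ l → ∀ᶠ X : ℕ in atTop, ∀ Z L : ℕ,
      (X : ℝ) ^ θ ≤ L → Z + L ≤ X →
      (((Ioc Z (Z + L)).filter (fun n => AdmA c n ∧
        (cnt (fun j => j) (fun _ => c) k ⌊l * Real.log X⌋₊ n ((X : ℝ) ^ (θ / 10)) : ℝ) < κ * l)).card : ℝ) ≤
        ε * L :=
  mainH (datA c hc) (AdmA c)
    (avg_of 1 le_rfl (fun j => j) (fun _ => c) (AdmA c) c.natAbs 38
      (fun w K y hw hcw => excA c hc w K y hw hcw) (fun n hn => perA c n hn)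
      (fun n hn p hp => (fewA c n hn p hp).trans_lt hp.one_lt)) θ ε k hθ hθ1 hk hε

/-! ### The forms `n - j²` -/

lemma datE : Dat (fun _ => 1) (fun j => -((j : ℤ) ^ 2)) 2 0 := by
  refine ⟨fun j _ => le_rfl, ?_, ?_, ?_, ?_⟩
  · intro j _
    exact Nat.one_le_pow _ _ (by omega)
  · intro j _
    show (-((j : ℤ) ^ 2)).natAbs ≤ (j + 1) ^ 2
    rw [Int.natAbs_neg, Int.natAbs_pow, Int.natAbs_natCast]
    exact Nat.pow_le_pow_left (by omega) 2
  · intro j _ p hp _ hd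
    exact absurd (Nat.dvd_one.1 hd) hp.one_lt.ne'
  · intro j j' h1 h2 hne
    unfold Rs
    intro h
    have e : ((j : ℤ) - j') * ((j : ℤ) + j') = 0 := by
      push_cast at h
      linarith
    rcases mul_eq_zero.1 e with h3 | h3
    · exact hne (by omega)
    · omega

lemma excE (w K y : ℕ) (hw : 14 ≤ w) :
    ∑ j ∈ Icc 1 K, ∑ j' ∈ Icc 1 K, exc (fun _ => 1) (fun j => -((j : ℤ) ^ 2)) w y j j' ≤
      38 * (K : ℝ) ^ 2 / w := by
  have hw0 : (0 : ℝ) < w := by exact_mod_cast (by omega : 0 < w)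
  obtain ⟨G, hG⟩ : ∃ G, G = ∑ n ∈ Icc 1 K, (tw w y n ^ 3 - 1) := ⟨_, rfl⟩
  have hG1 : G ≤ 28 * K / w := by rw [hG]; exact sum_ex w y K hw
  obtain ⟨G2, hG2⟩ : ∃ G2, G2 = ∑ n ∈ Icc 1 (2 * K), (tw w y n ^ 3 - 1) := ⟨_, rfl⟩
  have hG21 : G2 ≤ 28 * ((2 * K : ℕ) : ℝ) / w := by rw [hG2]; exact sum_ex w y (2 * K) hw
  have h1 : ∀ j ∈ Icc 1 K, ∀ j' ∈ Icc 1 K, exc (fun _ => 1) (fun j => -((j : ℤ) ^ 2)) w y j j' ≤
      ((tw w y (j + j') ^ 3 - 1) + (if j = j' then 0 else (tw w y ((j : ℤ) - j').natAbs ^ 3 - 1))) / 3 := by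
    intro j _ j' _
    unfold exc
    split_ifs with hne
    · have a1 := cube_ge w y (j + j')
      linarith
    · have e : (Rs (fun _ => 1) (fun j => -((j : ℤ) ^ 2)) j j').natAbs = ((j : ℤ) - j').natAbs * (j + j') := by
        unfold Rs
        have e1 : (((fun _ => 1 : ℕ → ℕ) j : ℕ) : ℤ) * (-((j' : ℤ) ^ 2)) -
            (((fun _ => 1 : ℕ → ℕ) j' : ℕ) : ℤ) * (-((j : ℤ) ^ 2)) = ((j : ℤ) - j') * ((j + j' : ℕ) : ℤ) := by
          push_cast
          ring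
        rw [e1, Int.natAbs_mul, Int.natAbs_natCast]
      rw [e]
      have a0 : tw w y 1 = 1 := tw_small w y 1 le_rfl (by omega)
      have a1 := tw_mul_le w y ((j : ℤ) - j').natAbs (j + j')
      have a3 := amgm3 1 _ _ le_rfl (one_le_tw w y ((j : ℤ) - j').natAbs) (one_le_tw w y (j + j'))
      rw [a0]
      linarith
  have h2 : ∀ j ∈ Icc 1 K, ∑ j' ∈ Icc 1 K, exc (fun _ => 1) (fun j => -((j : ℤ) ^ 2)) w y j j' ≤
      (G2 + 2 * G) / 3 := by
    intro j hj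
    refine (sum_le_sum (h1 j hj)).trans ?_
    rw [← sum_div, sum_add_distrib]
    have h3 := sum_diff (fun n => tw w y n ^ 3 - 1) (cube_ge w y) K j hj
    rw [← hG] at h3
    have h4 : ∑ j' ∈ Icc 1 K, (tw w y (j + j') ^ 3 - 1) ≤ G2 := by
      rw [hG2, ← sum_image (f := fun n => tw w y n ^ 3 - 1) (g := fun j' => j + j') (s := Icc 1 K)]
      · apply sum_le_sum_of_subset_of_nonneg
        · intro h hh
          rw [mem_image] at hh
          obtain ⟨j', hj', rfl⟩ := hh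
          rw [mem_Icc] at hj' hj
          rw [mem_Icc]
          omega
        · intro n _ _
          exact cube_ge w y n
      · intro a _ b _ hab
        simp only at hab
        omega
    linarith
  refine (sum_le_sum h2).trans ?_
  rw [sum_const, nsmul_eq_mul, Nat.card_Icc, Nat.add_sub_cancel]
  have h3 : (K : ℝ) * ((G2 + 2 * G) / 3) ≤ K * ((28 * ((2 * K : ℕ) : ℝ) / w + 2 * (28 * K / w)) / 3) := by
    apply mul_le_mul_of_nonneg_left _ (Nat.cast_nonneg _)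
    linarith
  refine h3.trans ?_
  push_cast
  have e1 : (K : ℝ) * ((28 * (2 * K) / w + 2 * (28 * K / w)) / 3) = 112 / 3 * ((K : ℝ) ^ 2 / w) := by ring
  have e2 : 38 * (K : ℝ) ^ 2 / w = 38 * ((K : ℝ) ^ 2 / w) := by ring
  rw [e1, e2]
  have h4 : 0 ≤ (K : ℝ) ^ 2 / w := by positivity
  linarith

/-- the roots of a quadratic congruence -/
lemma rootsE (n p : ℕ) (hp : p.Prime) (a b : ℕ) (ha : a < p) (hb : b < p)
    (h1 : (p : ℤ) ∣ ((1 : ℕ) : ℤ) * n + -((a : ℤ) ^ 2)) (h2 : (p : ℤ) ∣ ((1 : ℕ) : ℤ) * n + -((b : ℤ) ^ 2)) :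
    b = a ∨ b = (p - a) % p := by
  have h3 : (p : ℤ) ∣ ((b : ℤ) - a) * ((b : ℤ) + a) := by
    have := dvd_sub h1 h2
    have e : ((1 : ℕ) : ℤ) * n + -((a : ℤ) ^ 2) - (((1 : ℕ) : ℤ) * n + -((b : ℤ) ^ 2)) =
      ((b : ℤ) - a) * ((b : ℤ) + a) := by ring
    rwa [e] at this
  rcases (Nat.prime_iff_prime_int.1 hp).dvd_or_dvd h3 with h4 | h4
  · left
    have h5 : ((b : ℤ) - a).natAbs < p := by omega
    have h6 : (b : ℤ) - a = 0 := Int.eq_zero_of_dvd_of_natAbs_lt_natAbs h4 (by simpa using h5)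
    omega
  · have h5 : p ∣ b + a := by exact_mod_cast h4
    obtain ⟨t, ht⟩ := h5
    have ht2 : t < 2 := by
      by_contra hc
      have : p * 2 ≤ p * t := Nat.mul_le_mul_left p (by omega)
      omega
    interval_cases t
    · left
      omega
    · right
      rcases Nat.eq_zero_or_pos a with h6 | h6
      · omega
      · rw [Nat.mod_eq_of_lt (by omega)]
        omega

lemma fewE_aux (n p : ℕ) (hp : p.Prime) (S : Finset ℕ)
    (hS : ∀ j ∈ S, j < p ∧ (p : ℤ) ∣ ((1 : ℕ) : ℤ) * n + -((j : ℤ) ^ 2)) : S.card ≤ 2 ∧ S.card < p := by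
  rcases S.eq_empty_or_nonempty with h | ⟨a, ha⟩
  · rw [h, card_empty]
    exact ⟨by omega, hp.pos⟩
  · have ha' := hS a ha
    have hsub : S ⊆ {a, (p - a) % p} := by
      intro b hb'
      have hb := hS b hb'
      rw [mem_insert, mem_singleton]
      exact rootsE n p hp a b ha'.1 hb.1 ha'.2 hb.2
    have h1 : S.card ≤ 2 := (card_le_card hsub).trans card_le_two
    refine ⟨h1, ?_⟩
    rcases Nat.lt_or_ge 2 p with h2 | h2
    · omega
    · have hp2 : p = 2 := le_antisymm h2 hp.two_le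
      subst hp2
      have h3 : ({a, (2 - a) % 2} : Finset ℕ) = {a} := by
        have h4 : (2 - a) % 2 = a := by
          have := ha'.1
          interval_cases a <;> norm_num
        rw [h4]
        simp
      rw [h3] at hsub
      have := card_le_card hsub
      rw [card_singleton] at this
      omega

lemma fewE (n p : ℕ) (hp : p.Prime) :
    nuB (fun p j => (p : ℤ) ∣ ((1 : ℕ) : ℤ) * n + -(((j : ℕ) : ℤ) ^ 2)) p ≤ 2 ∧
    nuB (fun p j => (p : ℤ) ∣ ((1 : ℕ) : ℤ) * n + -(((j : ℕ) : ℤ) ^ 2)) p < p := by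
  have key : ∀ S : Finset ℕ, (∀ j ∈ S, j < p ∧ (p : ℤ) ∣ ((1 : ℕ) : ℤ) * n + -((j : ℤ) ^ 2)) →
      S.card ≤ 2 ∧ S.card < p := by
    intro S hS
    exact fewE_aux n p hp S hS
  unfold nuB
  apply key
  intro j hj
  simp only [mem_filter, mem_range] at hj
  exact hj

lemma perE (n : ℕ) : PerB (fun p j => (p : ℤ) ∣ ((1 : ℕ) : ℤ) * n + -(((j : ℕ) : ℤ) ^ 2)) 2 := by
  refine ⟨fun p j => ?_, fun p hp => (fewE n p hp).1⟩
  have h1 : (j : ℤ) ≡ ((j % p : ℕ) : ℤ) [ZMOD p] := Int.natCast_modEq_iff.2 (Nat.mod_modEq j p).symm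
  have h2 : ((1 : ℕ) : ℤ) * n + -((j : ℤ) ^ 2) ≡ ((1 : ℕ) : ℤ) * n + -(((j % p : ℕ) : ℤ) ^ 2) [ZMOD p] :=
    ((h1.pow 2).neg).add_left _
  exact h2.dvd_iff

/-- no condition -/
def AdmT (_ : ℕ) : Prop := True

open Classical in
/-- almost all `n` are the sum of a small square and an almost prime -/
theorem mainE (θ ε : ℝ) (k : ℕ) (hθ : 0 < θ) (hθ1 : θ ≤ 1) (hk : 1 / 8 + 25 / (12 * θ) < k)
    (hε : 0 < ε) :
    ∃ κ Λ : ℝ, 0 < κ ∧ 0 < Λ ∧ ∀ l : ℝ, Λ ≤ l → ∀ᶠ X : ℕ in atTop, ∀ Z L : ℕ,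
      (X : ℝ) ^ θ ≤ L → Z + L ≤ X →
      (((Ioc Z (Z + L)).filter (fun n => AdmT n ∧
        (cnt (fun _ => 1) (fun j => -((j : ℤ) ^ 2)) k ⌊l * Real.log X⌋₊ n ((X : ℝ) ^ (θ / 10)) : ℝ) <
          κ * l)).card : ℝ) ≤ ε * L :=
  mainH datE AdmT
    (avg_of 2 (by norm_num) (fun _ => 1) (fun j => -((j : ℤ) ^ 2)) AdmT 0 38
      (fun w K y hw _ => excE w K y hw) (fun n _ => perE n)
      (fun n _ p hp => (fewE n p hp).2)) θ ε k hθ hθ1 hk hε

end Pool.Agent.R490.LGf
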