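import Pool.Agent.R490.LFc

set_option autoImplicit false

/-!
# Families of linear forms over a sifted base: counting
-/

namespace Pool.Agent.R490.LPa

open Finset Filter
open Pool.Agent.W123.RP Pool.Agent.H373R2.T7 Pool.Agent.W123.RU Pool.Agent.TH464.PO Pool.Agent.TH464.PW
open Pool.Agent.Y879.AP Pool.Agent.R490.P3a Pool.Agent.R490.P3b Pool.Agent.R490.P3c
open Pool.Agent.R490.LFa Pool.Agent.R490.LFb Pool.Agent.R490.LFc

/-- the condition of the base and of one form -/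
def QB (Q0 : ℕ → ℕ → Prop) (α β : ℕ → ℕ) (j p m : ℕ) : Prop := Q0 p m ∨ QF α β j p m

/-- the condition of the base and of two forms -/
def QBP (Q0 : ℕ → ℕ → Prop) (α β : ℕ → ℕ) (j j' p m : ℕ) : Prop := Q0 p m ∨ QP α β j j' p m

lemma perB_QBP_aux (Q Q' Q'' : ℕ → ℕ → Prop) (hQ : ∀ p m, Q'' p m ↔ Q p m ∨ Q' p m) (c c' : ℕ) (h : PerB Q c)
    (h' : PerB Q' c') : PerB Q'' (c + c') := by
  classical
  refine ⟨fun p n => ?_, fun p hp => ?_⟩
  · rw [hQ, hQ]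
    exact or_congr (h.per p n) (h'.per p n)
  · have h1 : nuB Q'' p ≤ nuB Q p + nuB Q' p := by
      unfold nuB
      refine le_trans ?_ (card_union_le _ _)
      apply card_le_card
      intro m hm
      rw [mem_filter] at hm
      rw [mem_union, mem_filter, mem_filter]
      rcases (hQ p m).1 hm.2 with h | h
      · exact Or.inl ⟨hm.1, h⟩
      · exact Or.inr ⟨hm.1, h⟩
    have h2 := h.few p hp
    have h3 := h'.few p hp
    omega

lemma perB_QBP (Q0 : ℕ → ℕ → Prop) (h0 : PerB Q0 1) (α β : ℕ → ℕ) (j j' : ℕ) (hcop : (α j).Coprime (β j))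
    (hcop' : (α j').Coprime (β j')) : PerB (QBP Q0 α β j j') 3 :=
  perB_QBP_aux Q0 (QP α β j j') _ (fun _ _ => Iff.rfl) 1 2 h0 (perB_QP α β j j' hcop hcop')

open Classical in
/-- the counts -/
noncomputable def NB (Q0 : ℕ → ℕ → Prop) (α β : ℕ → ℕ) (y j j' Z L : ℕ) (U U' : Finset ℕ) : ℝ :=
  (((Ioc Z (Z + L)).filter (fun m : ℕ => Sf (QBP Q0 α β j j') y m ∧
        (∏ p ∈ U, p ∣ α j * m + β j) ∧ (∏ p ∈ U', p ∣ α j' * m + β j'))).card : ℝ)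

/-- the count of pairs -/
theorem cnt_pairB : ∃ C0 x0 : ℕ, 1 ≤ C0 ∧ ∀ b : ℕ, C0 ≤ b →
    ∀ x y : ℕ, x0 ≤ y → y ^ (16 * (C0 * b)) ≤ x →
    ∀ Q0 : ℕ → ℕ → Prop, PerB Q0 1 →
    ∀ (α β : ℕ → ℕ) (j j' Z L : ℕ), (α j).Coprime (β j) → (α j').Coprime (β j') →
      ∀ U U' : Finset ℕ, (∀ p ∈ U, p.Prime ∧ y < p ∧ ¬ p ∣ α j) →
      (∀ p ∈ U', p.Prime ∧ y < p ∧ ¬ p ∣ α j') → Disjoint U U' →
    |NB Q0 α β y j j' Z L U U' - (L : ℝ) * Vq (QBP Q0 α β j j') y * (wt U * wt U')| ≤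
      (1 / 2) ^ b * ((L : ℝ) * Vq (QBP Q0 α β j j') y * (wt U * wt U')) + √(x : ℝ) := by
  classical
  obtain ⟨C0, x0, hC0, H⟩ := cnt_ap 3 (by norm_num)
  refine ⟨C0, x0, hC0, ?_⟩
  intro b hb x y hy hyx Q0 hQ0 α β j j' Z L hc hc' U U' hU hU' hd
  have hper := perB_QBP Q0 hQ0 α β j j' hc hc'
  have hcopU : ∀ (U : Finset ℕ) (A : ℕ), (∀ p ∈ U, p.Prime ∧ y < p ∧ ¬ p ∣ A) → A.Coprime (∏ p ∈ U, p) := by
    intro U A hU
    apply Nat.Coprime.prod_right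
    intro p hp
    exact ((Nat.Prime.coprime_iff_not_dvd (hU p hp).1).2 (hU p hp).2.2).symm
  have hcop : (∏ p ∈ U, p).Coprime (∏ p ∈ U', p) := by
    apply Nat.Coprime.prod_left
    intro p hp
    apply Nat.Coprime.prod_right
    intro p' hp'
    rw [Nat.coprime_primes (hU p hp).1 (hU' p' hp').1]
    rintro rfl
    exact disjoint_left.1 hd hp hp'
  have h1 : 1 ≤ ∏ p ∈ U, p := Nat.pos_of_ne_zero (prod_ne_zero_iff.2 fun p hp => (hU p hp).1.ne_zero)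
  have h1' : 1 ≤ ∏ p ∈ U', p := Nat.pos_of_ne_zero (prod_ne_zero_iff.2 fun p hp => (hU' p hp).1.ne_zero)
  obtain ⟨a1, ha1⟩ := cls (α j) (β j) _ h1 (hcopU U (α j) hU)
  obtain ⟨a2, ha2⟩ := cls (α j') (β j') _ h1' (hcopU U' (α j') hU')
  obtain ⟨a, hb1, hb2⟩ := Nat.chineseRemainder hcop a1 a2
  have ha : ∀ n, (∏ p ∈ U, p ∣ α j * n + β j ∧ ∏ p ∈ U', p ∣ α j' * n + β j') ↔
      n ≡ a [MOD (∏ p ∈ U, p) * ∏ p ∈ U', p] := by
    intro n
    rw [ha1 n, ha2 n, ← Nat.modEq_and_modEq_iff_modEq_mul hcop]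
    constructor
    · rintro ⟨h1, h2⟩
      exact ⟨h1.trans hb1.symm, h2.trans hb2.symm⟩
    · rintro ⟨h1, h2⟩
      exact ⟨h1.trans hb1, h2.trans hb2⟩
  have key := H b hb x y hy hyx (QBP Q0 α β j j') hper Z L ((∏ p ∈ U, p) * ∏ p ∈ U', p) a
    (Nat.mul_pos h1 h1') (by
      intro p hp hdv
      rcases (Nat.Prime.dvd_mul (mem_pz.1 hp).2).1 hdv with h2 | h2
      · exact not_dvd_prod U y (fun p hp => ⟨(hU p hp).1, (hU p hp).2.1⟩) p hp h2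
      · exact not_dvd_prod U' y (fun p hp => ⟨(hU' p hp).1, (hU' p hp).2.1⟩) p hp h2)
  have e1 : (L : ℝ) / (((∏ p ∈ U, p) * ∏ p ∈ U', p : ℕ) : ℝ) * Vq (QBP Q0 α β j j') y =
      (L : ℝ) * Vq (QBP Q0 α β j j') y * (wt U * wt U') := by
    unfold wt
    push_cast
    rw [div_eq_mul_inv, mul_inv]
    ring
  rw [e1] at key
  have e2 : (Ioc Z (Z + L)).filter (fun m : ℕ => Sf (QBP Q0 α β j j') y m ∧
        (∏ p ∈ U, p ∣ α j * m + β j) ∧ (∏ p ∈ U', p ∣ α j' * m + β j')) =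
      (Ioc Z (Z + L)).filter (fun n : ℕ => n ≡ a [MOD (∏ p ∈ U, p) * ∏ p ∈ U', p] ∧
        Sf (QBP Q0 α β j j') y n) := by
    apply Finset.filter_congr
    intro n _
    rw [← ha n]
    tauto
  unfold NB
  rw [e2]
  exact key

open Classical in
/-- the indicator function -/
noncomputable def rB (Q0 : ℕ → ℕ → Prop) (α β : ℕ → ℕ) (y j m : ℕ) : ℝ := if Sf (QB Q0 α β j) y m then 1 else 0

/-- the weight -/
noncomputable def xB (Q0 : ℕ → ℕ → Prop) (P : Finset ℕ) (a : Finset ℕ → ℝ) (α β : ℕ → ℕ) (y j m : ℕ) : ℝ :=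
  rB Q0 α β y j m * lam P a (α j * m + β j)

/-- the total weight -/
noncomputable def XB (Q0 : ℕ → ℕ → Prop) (P : Finset ℕ) (a : Finset ℕ → ℝ) (α β : ℕ → ℕ) (J : Finset ℕ) (y m : ℕ) :
    ℝ := ∑ j ∈ J, xB Q0 P a α β y j m

/-- the number of the sifted values -/
noncomputable def WN (Q0 : ℕ → ℕ → Prop) (α β : ℕ → ℕ) (J : Finset ℕ) (y m : ℕ) : ℝ := ∑ j ∈ J, rB Q0 α β y j m

/-- the sum of the pair densities -/
noncomputable def V2B (Q0 : ℕ → ℕ → Prop) (α β : ℕ → ℕ) (J : Finset ℕ) (y : ℕ) : ℝ :=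
  ∑ j ∈ J, ∑ j' ∈ J, (if j = j' then 0 else Vq (QBP Q0 α β j j') y)

lemma sf_QBP (Q0 : ℕ → ℕ → Prop) (α β : ℕ → ℕ) (j j' y m : ℕ) :
    Sf (QBP Q0 α β j j') y m ↔ Sf (QB Q0 α β j) y m ∧ Sf (QB Q0 α β j') y m := by
  unfold Sf QBP QB QP
  constructor
  · intro h
    refine ⟨fun p hp hq => h p hp ?_, fun p hp hq => h p hp ?_⟩
    · rcases hq with hq | hq
      · exact Or.inl hq
      · exact Or.inr (Or.inl hq)
    · rcases hq with hq | hq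
      · exact Or.inl hq
      · exact Or.inr (Or.inr hq)
  · rintro ⟨h1, h2⟩ p hp hq
    rcases hq with hq | hq | hq
    · exact h1 p hp (Or.inl hq)
    · exact h1 p hp (Or.inr hq)
    · exact h2 p hp (Or.inr hq)

lemma sum_xB (Q0 : ℕ → ℕ → Prop) (P : Finset ℕ) (a : Finset ℕ → ℝ) (α β : ℕ → ℕ) (y j j' Z L : ℕ) :
    ∑ m ∈ Ioc Z (Z + L), xB Q0 P a α β y j m * xB Q0 P a α β y j' m =
      ∑ U ∈ P.powerset, ∑ U' ∈ P.powerset, a U * a U' * NB Q0 α β y j j' Z L U U' := by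
  classical
  have h1 : ∀ m, xB Q0 P a α β y j m * xB Q0 P a α β y j' m = ∑ U ∈ P.powerset, ∑ U' ∈ P.powerset,
      a U * a U' * (if Sf (QBP Q0 α β j j') y m ∧
        (∏ p ∈ U, p ∣ α j * m + β j) ∧ (∏ p ∈ U', p ∣ α j' * m + β j') then 1 else 0) := by
    intro m
    unfold xB lam rB
    rw [show ∀ u v s t : ℝ, u * v * (s * t) = (u * s) * (v * t) by intros; ring, sum_mul_sum, mul_sum]
    apply sum_congr rfl
    intro U _
    rw [mul_sum]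
    apply sum_congr rfl
    intro U' _
    have h0 := sf_QBP Q0 α β j j' y m
    by_cases c1 : Sf (QB Q0 α β j) y m <;> by_cases c2 : Sf (QB Q0 α β j') y m <;>
      by_cases c3 : (∏ p ∈ U, p ∣ α j * m + β j) <;> by_cases c4 : (∏ p ∈ U', p ∣ α j' * m + β j') <;>
      simp [h0, c1, c2, c3, c4]
  rw [sum_congr rfl (fun n _ => h1 n), sum_comm]
  apply sum_congr rfl
  intro U _
  rw [sum_comm]
  apply sum_congr rfl
  intro U' _
  rw [← mul_sum]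
  congr 1
  unfold NB
  rw [card_filter]
  push_cast
  rfl

end Pool.Agent.R490.LPa
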