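import Pool.Agent.R490.LPa

set_option autoImplicit false

/-!
# Families of linear forms over a sifted base: the second moment of the weights
-/

namespace Pool.Agent.R490.LPb

open Finset Filter
open Pool.Agent.W123.RP Pool.Agent.H373R2.T7 Pool.Agent.W123.RU Pool.Agent.TH464.PO Pool.Agent.TH464.PW
open Pool.Agent.Y879.AP Pool.Agent.R490.P3a Pool.Agent.R490.P3b Pool.Agent.R490.P3c Pool.Agent.R490.P3d
open Pool.Agent.R490.LFa Pool.Agent.R490.LFb Pool.Agent.R490.LFc Pool.Agent.R490.LPa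

/-- **The off-diagonal terms.** -/
theorem offB : ∃ C0 x0 : ℕ, 1 ≤ C0 ∧ ∀ b : ℕ, C0 ≤ b →
    ∀ x y : ℕ, x0 ≤ y → 1 ≤ y → y ^ (16 * (C0 * b)) ≤ x →
    ∀ Q0 : ℕ → ℕ → Prop, PerB Q0 1 →
    ∀ (α β : ℕ → ℕ) (Z L : ℕ) (P : Finset ℕ) (a : Finset ℕ → ℝ) (A : ℝ) (D : ℕ),
      (∀ p ∈ P, p.Prime ∧ y < p) → (∀ U, |a U| ≤ A) →
      (∀ U ⊆ P, a U ≠ 0 → ∏ p ∈ U, p ≤ D) → ∑ U ∈ P.powerset, a U * wt U = 0 →
      ∀ j j' : ℕ, (α j).Coprime (β j) → (α j').Coprime (β j') →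
      (∀ p : ℕ, p.Prime → y < p → ¬ p ∣ α j) → (∀ p : ℕ, p.Prime → y < p → ¬ p ∣ α j') →
      (∀ p : ℕ, p.Prime → y < p → ¬ (p : ℤ) ∣ (α j : ℤ) * β j' - (α j' : ℤ) * β j) →
      |∑ m ∈ Ioc Z (Z + L), xB Q0 P a α β y j m * xB Q0 P a α β y j' m| ≤
        L * Vq (QBP Q0 α β j j') y * (A ^ 2 * (Pi1 P ^ 2 * ((∑ p ∈ P, 1 / (p : ℝ)) / y)) +
          (1 / 2) ^ b * (A * Pi1 P) ^ 2) + √(x : ℝ) * (A * D) ^ 2 := by
  classical
  obtain ⟨C0, x0, hC0, H⟩ := cnt_pairB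
  refine ⟨C0, x0, hC0, ?_⟩
  intro b hb x y hy hy1 hyx Q0 hQ0 α β Z L P a A D hP hA hD hsum j j' hc hc' hαj hαj' hres
  have hPp : ∀ p ∈ P, p.Prime := fun p hp => (hP p hp).1
  have hA0 : 0 ≤ A := (abs_nonneg _).trans (hA ∅)
  rw [sum_xB]
  obtain ⟨M, hM⟩ : ∃ M : ℝ, M = L * Vq (QBP Q0 α β j j') y := ⟨_, rfl⟩
  have hM0 : 0 ≤ M := by rw [hM]; exact mul_nonneg (Nat.cast_nonneg _) (Vq_nonneg _ _)
  rw [← hM]
  have hN : ∀ U ∈ P.powerset, ∀ U' ∈ P.powerset,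
      |NB Q0 α β y j j' Z L U U' - M * (if Disjoint U U' then wt U * wt U' else 0)| ≤
        (1 / 2) ^ b * (M * (wt U * wt U')) + √(x : ℝ) := by
    intro U hU U' hU'
    have w1 := wt_pos P hPp U (mem_powerset.1 hU)
    have w2 := wt_pos P hPp U' (mem_powerset.1 hU')
    by_cases hd : Disjoint U U'
    · rw [if_pos hd]
      have h1 := H b hb x y hy hyx Q0 hQ0 α β j j' Z L hc hc' U U'
        (fun p hp => ⟨(hP p (mem_powerset.1 hU hp)).1, (hP p (mem_powerset.1 hU hp)).2,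
          hαj p (hP p (mem_powerset.1 hU hp)).1 (hP p (mem_powerset.1 hU hp)).2⟩)
        (fun p hp => ⟨(hP p (mem_powerset.1 hU' hp)).1, (hP p (mem_powerset.1 hU' hp)).2,
          hαj' p (hP p (mem_powerset.1 hU' hp)).1 (hP p (mem_powerset.1 hU' hp)).2⟩) hd
      rw [← hM] at h1
      exact h1
    · rw [if_neg hd, mul_zero, sub_zero]
      have h0 : NB Q0 α β y j j' Z L U U' = 0 := by
        unfold NB
        rw [Nat.cast_eq_zero, card_eq_zero, filter_eq_empty_iff]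
        rintro n _ ⟨_, h2, h3⟩
        rw [not_disjoint_iff] at hd
        obtain ⟨p, hp, hp'⟩ := hd
        have h4 := hP p (mem_powerset.1 hU hp)
        exact hres p h4.1 h4.2 (common_dvd α β j j' n p
          ((dvd_prod_of_mem (fun p => p) hp).trans h2) ((dvd_prod_of_mem (fun p => p) hp').trans h3))
      rw [h0, abs_zero]
      positivity
  -- the main term
  have hmain : |∑ U ∈ P.powerset, ∑ U' ∈ P.powerset, a U * a U' *
      (M * (if Disjoint U U' then wt U * wt U' else 0))| ≤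
      M * (A ^ 2 * (Pi1 P ^ 2 * ((∑ p ∈ P, 1 / (p : ℝ)) / y))) := by
    have e1 : ∑ U ∈ P.powerset, ∑ U' ∈ P.powerset, a U * a U' *
        (M * (if Disjoint U U' then wt U * wt U' else 0)) =
        M * ((∑ U ∈ P.powerset, a U * wt U) * (∑ U' ∈ P.powerset, a U' * wt U')) -
        M * ∑ U ∈ P.powerset, ∑ U' ∈ P.powerset, a U * a U' *
          (if Disjoint U U' then 0 else wt U * wt U') := by
      rw [sum_mul_sum, mul_sum, mul_sum, ← sum_sub_distrib]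
      apply sum_congr rfl
      intro U _
      rw [mul_sum, mul_sum, ← sum_sub_distrib]
      apply sum_congr rfl
      intro U' _
      split_ifs <;> ring
    rw [e1, hsum, zero_mul, mul_zero, zero_sub, abs_neg, abs_mul, abs_of_nonneg hM0]
    apply mul_le_mul_of_nonneg_left _ hM0
    have h2 : |∑ U ∈ P.powerset, ∑ U' ∈ P.powerset, a U * a U' *
          (if Disjoint U U' then 0 else wt U * wt U')| ≤
        ∑ U ∈ P.powerset, ∑ U' ∈ P.powerset, A ^ 2 * (if Disjoint U U' then 0 else wt U * wt U') := by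
      refine (abs_sum_le_sum_abs _ _).trans (sum_le_sum fun U hU => ?_)
      refine (abs_sum_le_sum_abs _ _).trans (sum_le_sum fun U' hU' => ?_)
      have w1 := wt_pos P hPp U (mem_powerset.1 hU)
      have w2 := wt_pos P hPp U' (mem_powerset.1 hU')
      rw [abs_mul]
      have h3 : |a U * a U'| ≤ A ^ 2 := by
        rw [abs_mul, sq]
        exact mul_le_mul (hA U) (hA U') (abs_nonneg _) hA0
      have h4 : 0 ≤ (if Disjoint U U' then 0 else wt U * wt U') := by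
        split_ifs <;> positivity
      rw [abs_of_nonneg h4]
      exact mul_le_mul_of_nonneg_right h3 h4
    refine h2.trans ?_
    simp only [← mul_sum]
    apply mul_le_mul_of_nonneg_left _ (sq_nonneg A)
    exact common P y hy1 hP
  -- the error
  have herr : |∑ U ∈ P.powerset, ∑ U' ∈ P.powerset, a U * a U' *
      (NB Q0 α β y j j' Z L U U' - M * (if Disjoint U U' then wt U * wt U' else 0))| ≤
      (1 / 2) ^ b * M * (A * Pi1 P) ^ 2 + √(x : ℝ) * (A * D) ^ 2 := by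
    have h2 : |∑ U ∈ P.powerset, ∑ U' ∈ P.powerset, a U * a U' *
        (NB Q0 α β y j j' Z L U U' - M * (if Disjoint U U' then wt U * wt U' else 0))| ≤
        ∑ U ∈ P.powerset, ∑ U' ∈ P.powerset, ((1 / 2) ^ b * M * ((A * wt U) * (A * wt U')) +
          √(x : ℝ) * (|a U| * |a U'|)) := by
      refine (abs_sum_le_sum_abs _ _).trans (sum_le_sum fun U hU => ?_)
      refine (abs_sum_le_sum_abs _ _).trans (sum_le_sum fun U' hU' => ?_)
      have w1 := wt_pos P hPp U (mem_powerset.1 hU)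
      have w2 := wt_pos P hPp U' (mem_powerset.1 hU')
      rw [abs_mul, abs_mul]
      have h3 : |a U| * |a U'| ≤ A * A := mul_le_mul (hA U) (hA U') (abs_nonneg _) hA0
      calc |a U| * |a U'| * |NB Q0 α β y j j' Z L U U' - M * (if Disjoint U U' then wt U * wt U' else 0)| ≤
          |a U| * |a U'| * ((1 / 2) ^ b * (M * (wt U * wt U')) + √(x : ℝ)) :=
            mul_le_mul_of_nonneg_left (hN U hU U' hU') (by positivity)
        _ = |a U| * |a U'| * ((1 / 2) ^ b * (M * (wt U * wt U'))) + √(x : ℝ) * (|a U| * |a U'|) := by ring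
        _ ≤ A * A * ((1 / 2) ^ b * (M * (wt U * wt U'))) + √(x : ℝ) * (|a U| * |a U'|) := by
            apply add_le_add _ le_rfl
            exact mul_le_mul_of_nonneg_right h3 (by positivity)
        _ = _ := by ring
    refine h2.trans ?_
    have e2 : ∑ U ∈ P.powerset, ∑ U' ∈ P.powerset, ((1 / 2) ^ b * M * ((A * wt U) * (A * wt U')) +
          √(x : ℝ) * (|a U| * |a U'|)) =
        (1 / 2) ^ b * M * ((∑ U ∈ P.powerset, A * wt U) * (∑ U ∈ P.powerset, A * wt U)) +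
          √(x : ℝ) * ((∑ U ∈ P.powerset, |a U|) * (∑ U ∈ P.powerset, |a U|)) := by
      rw [sum_mul_sum, sum_mul_sum, mul_sum, mul_sum, ← sum_add_distrib]
      apply sum_congr rfl
      intro U _
      rw [mul_sum, mul_sum, ← sum_add_distrib]
    rw [e2, ← mul_sum, ← sq, ← sq]
    apply add_le_add
    · exact le_of_eq rfl
    · apply mul_le_mul_of_nonneg_left _ (Real.sqrt_nonneg _)
      apply pow_le_pow_left₀ (sum_nonneg fun _ _ => abs_nonneg _)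
      exact sum_abs P hPp a A D hA hD
  have e3 : ∑ U ∈ P.powerset, ∑ U' ∈ P.powerset, a U * a U' * NB Q0 α β y j j' Z L U U' =
      ∑ U ∈ P.powerset, ∑ U' ∈ P.powerset, a U * a U' *
      (M * (if Disjoint U U' then wt U * wt U' else 0)) +
      ∑ U ∈ P.powerset, ∑ U' ∈ P.powerset, a U * a U' *
      (NB Q0 α β y j j' Z L U U' - M * (if Disjoint U U' then wt U * wt U' else 0)) := by
    rw [← sum_add_distrib]
    apply sum_congr rfl
    intro U _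
    rw [← sum_add_distrib]
    apply sum_congr rfl
    intro U' _
    ring
  rw [e3]
  refine (abs_add_le _ _).trans ?_
  calc _ ≤ M * (A ^ 2 * (Pi1 P ^ 2 * ((∑ p ∈ P, 1 / (p : ℝ)) / y))) +
        ((1 / 2) ^ b * M * (A * Pi1 P) ^ 2 + √(x : ℝ) * (A * D) ^ 2) := add_le_add hmain herr
    _ = _ := by ring

lemma rB_sq (Q0 : ℕ → ℕ → Prop) (α β : ℕ → ℕ) (y j m : ℕ) :
    rB Q0 α β y j m * rB Q0 α β y j m = rB Q0 α β y j m := by
  unfold rB
  split_ifs <;> simp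

lemma rB_nonneg (Q0 : ℕ → ℕ → Prop) (α β : ℕ → ℕ) (y j m : ℕ) : 0 ≤ rB Q0 α β y j m := by
  unfold rB
  split_ifs <;> norm_num

lemma diagB (Q0 : ℕ → ℕ → Prop) (P : Finset ℕ) (a : Finset ℕ → ℝ) (A : ℝ) (α β : ℕ → ℕ) (y R0 j Z L : ℕ)
    (hP : ∀ p ∈ P, p.Prime ∧ y < p) (hA : ∀ U, |a U| ≤ A)
    (hsz : ∀ m ∈ Ioc Z (Z + L), 1 ≤ α j * m + β j ∧ α j * m + β j ≤ y ^ R0) :
    ∑ m ∈ Ioc Z (Z + L), xB Q0 P a α β y j m * xB Q0 P a α β y j m ≤
      (A * 2 ^ R0) ^ 2 * ∑ m ∈ Ioc Z (Z + L), rB Q0 α β y j m := by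
  rw [mul_sum]
  apply sum_le_sum
  intro m hm
  have h3 := lam_le P a A y R0 (α j * m + β j) hP hA (hsz m hm).1 (hsz m hm).2
  have h4 : lam P a (α j * m + β j) ^ 2 ≤ (A * 2 ^ R0) ^ 2 := by
    rw [← sq_abs]
    exact pow_le_pow_left₀ (abs_nonneg _) h3 2
  unfold xB
  calc rB Q0 α β y j m * lam P a (α j * m + β j) * (rB Q0 α β y j m * lam P a (α j * m + β j)) =
      lam P a (α j * m + β j) ^ 2 * (rB Q0 α β y j m * rB Q0 α β y j m) := by ring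
    _ = lam P a (α j * m + β j) ^ 2 * rB Q0 α β y j m := by rw [rB_sq]
    _ ≤ _ := mul_le_mul_of_nonneg_right h4 (rB_nonneg _ _ _ _ _ _)

/-- **The second moment.** -/
theorem secondB : ∃ C0 x0 : ℕ, 1 ≤ C0 ∧ ∀ b : ℕ, C0 ≤ b →
    ∀ x y : ℕ, x0 ≤ y → 1 ≤ y → y ^ (16 * (C0 * b)) ≤ x →
    ∀ Q0 : ℕ → ℕ → Prop, PerB Q0 1 →
    ∀ (α β : ℕ → ℕ) (J : Finset ℕ) (Z L R0 : ℕ) (P : Finset ℕ) (a : Finset ℕ → ℝ) (A : ℝ) (D : ℕ),
      Fam α β J y → (∀ p ∈ P, p.Prime ∧ y < p) → (∀ U, |a U| ≤ A) →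
      (∀ U ⊆ P, a U ≠ 0 → ∏ p ∈ U, p ≤ D) → ∑ U ∈ P.powerset, a U * wt U = 0 →
      (∀ j ∈ J, ∀ m ∈ Ioc Z (Z + L), 1 ≤ α j * m + β j ∧ α j * m + β j ≤ y ^ R0) →
      ∑ m ∈ Ioc Z (Z + L), XB Q0 P a α β J y m ^ 2 ≤
        (A * 2 ^ R0) ^ 2 * ∑ m ∈ Ioc Z (Z + L), WN Q0 α β J y m +
        L * V2B Q0 α β J y * (A ^ 2 * (Pi1 P ^ 2 * ((∑ p ∈ P, 1 / (p : ℝ)) / y)) +
          (1 / 2) ^ b * (A * Pi1 P) ^ 2) +
        (J.card : ℝ) ^ 2 * (√(x : ℝ) * (A * D) ^ 2) := by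
  classical
  obtain ⟨C0, x0, hC0, H⟩ := offB
  refine ⟨C0, x0, hC0, ?_⟩
  intro b hb x y hy hy1 hyx Q0 hQ0 α β J Z L R0 P a A D hF hP hA hD hsum hsz
  have hA0 : 0 ≤ A := (abs_nonneg _).trans (hA ∅)
  obtain ⟨e, he⟩ : ∃ e : ℝ, e = A ^ 2 * (Pi1 P ^ 2 * ((∑ p ∈ P, 1 / (p : ℝ)) / y)) +
          (1 / 2) ^ b * (A * Pi1 P) ^ 2 := ⟨_, rfl⟩
  rw [← he]
  have h1 : ∑ m ∈ Ioc Z (Z + L), XB Q0 P a α β J y m ^ 2 = ∑ j ∈ J, ∑ j' ∈ J,
      ∑ m ∈ Ioc Z (Z + L), xB Q0 P a α β y j m * xB Q0 P a α β y j' m := by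
    have e1 : ∀ m, XB Q0 P a α β J y m ^ 2 = ∑ j ∈ J, ∑ j' ∈ J,
        xB Q0 P a α β y j m * xB Q0 P a α β y j' m := by
      intro m
      unfold XB
      rw [sq, sum_mul_sum]
    rw [sum_congr rfl (fun n _ => e1 n), sum_comm]
    apply sum_congr rfl
    intro h _
    rw [sum_comm]
  rw [h1]
  have h2 : ∀ j ∈ J, ∑ j' ∈ J, ∑ m ∈ Ioc Z (Z + L), xB Q0 P a α β y j m * xB Q0 P a α β y j' m ≤
      (A * 2 ^ R0) ^ 2 * ∑ m ∈ Ioc Z (Z + L), rB Q0 α β y j m +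
      ∑ j' ∈ J, ((if j = j' then 0 else Vq (QBP Q0 α β j j') y) * (L * e) +
        √(x : ℝ) * (A * D) ^ 2) := by
    intro j hj
    have e1 : (A * 2 ^ R0) ^ 2 * ∑ m ∈ Ioc Z (Z + L), rB Q0 α β y j m =
        ∑ j' ∈ J, (if j = j' then (A * 2 ^ R0) ^ 2 * ∑ m ∈ Ioc Z (Z + L), rB Q0 α β y j m else 0) := by
      rw [sum_ite_eq, if_pos hj]
    rw [e1, ← sum_add_distrib]
    apply sum_le_sum
    intro j' hj'
    by_cases hne : j = j'
    · subst hne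
      rw [if_pos rfl, if_pos rfl, zero_mul, zero_add]
      have g1 := diagB Q0 P a A α β y R0 j Z L hP hA (hsz j hj)
      have g2 : 0 ≤ √(x : ℝ) * (A * D) ^ 2 := by positivity
      linarith
    · rw [if_neg hne, if_neg hne, zero_add]
      have h2 := H b hb x y hy hy1 hyx Q0 hQ0 α β Z L P a A D hP hA hD hsum j j' (hF.cop j hj) (hF.cop j' hj')
        (hF.big j hj) (hF.big j' hj') (hF.res j hj j' hj' hne)
      rw [← he] at h2
      have h3 := (le_abs_self _).trans h2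
      have e4 : (L : ℝ) * Vq (QBP Q0 α β j j') y * e = Vq (QBP Q0 α β j j') y * (L * e) := by ring
      linarith
  refine (sum_le_sum h2).trans ?_
  rw [sum_add_distrib, ← mul_sum]
  have e3 : ∑ j ∈ J, ∑ m ∈ Ioc Z (Z + L), rB Q0 α β y j m = ∑ m ∈ Ioc Z (Z + L), WN Q0 α β J y m := by
    rw [sum_comm]
    rfl
  rw [e3]
  have e4 : ∑ j ∈ J, ∑ j' ∈ J, ((if j = j' then 0 else Vq (QBP Q0 α β j j') y) * (L * e) +
        √(x : ℝ) * (A * D) ^ 2) =
      V2B Q0 α β J y * (L * e) + (J.card : ℝ) ^ 2 * (√(x : ℝ) * (A * D) ^ 2) := by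
    unfold V2B
    simp only [sum_add_distrib, sum_const, nsmul_eq_mul, sum_mul]
    ring
  rw [e4]
  linarith

end Pool.Agent.R490.LPb
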