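import Pool.Agent.R490.LPa

set_option autoImplicit false

/-!
# Families of linear forms over a sifted base: the variance
-/

namespace Pool.Agent.R490.LPc

open Finset Filter
open Pool.Agent.W123.RP Pool.Agent.H373R2.T7 Pool.Agent.W123.RU Pool.Agent.TH464.PO Pool.Agent.TH464.PW
open Pool.Agent.Y879.AP Pool.Agent.R490.P3a Pool.Agent.R490.P3b Pool.Agent.R490.P3c Pool.Agent.R490.P3d
open Pool.Agent.R490.P3g
open Pool.Agent.R490.LFa Pool.Agent.R490.LFb Pool.Agent.R490.LFc Pool.Agent.R490.LPa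
open Pool.Agent.W23.DC Pool.Agent.Y882 Pool.Agent.Y882.KW

open Classical in
/-- the sifted base -/
noncomputable def SB (Q0 : ℕ → ℕ → Prop) (y Z L : ℕ) : Finset ℕ := (Ioc Z (Z + L)).filter (fun m => Sf Q0 y m)

/-- the sum of the densities -/
noncomputable def V1B (Q0 : ℕ → ℕ → Prop) (α β : ℕ → ℕ) (J : Finset ℕ) (y : ℕ) : ℝ := ∑ j ∈ J, Vq (QB Q0 α β j) y

lemma rB_sq (Q0 : ℕ → ℕ → Prop) (α β : ℕ → ℕ) (y j m : ℕ) :
    rB Q0 α β y j m * rB Q0 α β y j m = rB Q0 α β y j m := by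
  unfold rB
  split_ifs <;> simp

lemma rB_nonneg (Q0 : ℕ → ℕ → Prop) (α β : ℕ → ℕ) (y j m : ℕ) : 0 ≤ rB Q0 α β y j m := by
  unfold rB
  split_ifs <;> norm_num

lemma rB_zero (Q0 : ℕ → ℕ → Prop) (α β : ℕ → ℕ) (y j m : ℕ) (h : ¬ Sf Q0 y m) : rB Q0 α β y j m = 0 := by
  unfold rB
  rw [if_neg]
  intro h2
  apply h
  intro p hp hq
  exact h2 p hp (Or.inl hq)

lemma rB_eq (Q0 : ℕ → ℕ → Prop) (α β : ℕ → ℕ) (y j m : ℕ) (h : Sf Q0 y m) : rB Q0 α β y j m = rF α β y j m := by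
  unfold rB rF
  have : Sf (QB Q0 α β j) y m ↔ Sf (QF α β j) y m := by
    unfold Sf QB at *
    constructor
    · exact fun h2 p hp hq => h2 p hp (Or.inr hq)
    · intro h2 p hp hq
      rcases hq with hq | hq
      · exact h p hp hq
      · exact h2 p hp hq
  by_cases c : Sf (QF α β j) y m
  · rw [if_pos c, if_pos (this.2 c)]
  · rw [if_neg c, if_neg (fun h => c (this.1 h))]

lemma NB_empty (Q0 : ℕ → ℕ → Prop) (α β : ℕ → ℕ) (y j j' Z L : ℕ) :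
    NB Q0 α β y j j' Z L ∅ ∅ = ∑ m ∈ Ioc Z (Z + L), rB Q0 α β y j m * rB Q0 α β y j' m := by
  classical
  unfold NB rB
  rw [card_filter]
  push_cast
  apply sum_congr rfl
  intro m _
  have h0 := sf_QBP Q0 α β j j' y m
  by_cases c1 : Sf (QB Q0 α β j) y m <;> by_cases c2 : Sf (QB Q0 α β j') y m <;> simp [h0, c1, c2]

lemma QBP_self (Q0 : ℕ → ℕ → Prop) (α β : ℕ → ℕ) (j : ℕ) : QBP Q0 α β j j = QB Q0 α β j := by
  funext p m
  unfold QBP QB QP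
  simp

/-- the counts of pairs and of single values, and of the base -/
theorem countB : ∃ C0 x0 : ℕ, 1 ≤ C0 ∧ ∀ b : ℕ, C0 ≤ b →
    ∀ x y : ℕ, x0 ≤ y → 1 ≤ y → y ^ (16 * (C0 * b)) ≤ x →
    ∀ Q0 : ℕ → ℕ → Prop, PerB Q0 1 → ∀ (Z L : ℕ),
      |((SB Q0 y Z L).card : ℝ) - (L : ℝ) * Vq Q0 y| ≤ (1 / 2) ^ b * ((L : ℝ) * Vq Q0 y) + √(x : ℝ) ∧
      ∀ (α β : ℕ → ℕ) (J : Finset ℕ), Fam α β J y → ∀ j ∈ J, ∀ j' ∈ J,
      |∑ m ∈ Ioc Z (Z + L), rB Q0 α β y j m * rB Q0 α β y j' m - (L : ℝ) * Vq (QBP Q0 α β j j') y| ≤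
        (1 / 2) ^ b * ((L : ℝ) * Vq (QBP Q0 α β j j') y) + √(x : ℝ) := by
  classical
  obtain ⟨C0, x0, hC0, H⟩ := cnt_pairB
  obtain ⟨C1, x1, hC1, H1⟩ := cnt_ap 1 le_rfl
  refine ⟨C0 + C1, x0 + x1, by omega, ?_⟩
  intro b hb x y hy hy1 hyx Q0 hQ0 Z L
  have hp : ∀ C' ≤ C0 + C1, y ^ (16 * (C' * b)) ≤ x := by
    intro C' hC'
    refine le_trans ?_ hyx
    apply Nat.pow_le_pow_right hy1
    apply Nat.mul_le_mul_left
    exact Nat.mul_le_mul_right _ hC'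
  constructor
  · have h1 := H1 b (by omega) x y (by omega) (hp C1 (by omega)) Q0 hQ0 Z L 1 0 le_rfl (by
      intro p hp hd
      have := (mem_pz.1 hp).2.one_lt
      have := Nat.le_of_dvd one_pos hd
      omega)
    rw [Nat.cast_one, div_one] at h1
    have e1 : (Ioc Z (Z + L)).filter (fun n : ℕ => n ≡ 0 [MOD 1] ∧ Sf Q0 y n) = SB Q0 y Z L := by
      unfold SB
      apply filter_congr
      intro n _
      constructor
      · exact fun h => h.2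
      · exact fun h => ⟨Nat.modEq_one, h⟩
    rw [e1] at h1
    exact h1
  · intro α β J hF j hj j' hj'
    have h1 := H b (by omega) x y (by omega) (hp C0 (by omega)) Q0 hQ0 α β j j' Z L (hF.cop j hj) (hF.cop j' hj')
      ∅ ∅ (by simp) (by simp) (disjoint_empty_left _)
    rw [NB_empty, wt_empty, mul_one, mul_one] at h1
    exact h1

lemma Vq_mono (Q Q' : ℕ → ℕ → Prop) (h : ∀ p m, Q p m → Q' p m) (y : ℕ) : Vq Q' y ≤ Vq Q y := by
  classical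
  unfold Vq
  apply Finset.prod_le_prod
  · intro p hp
    have hp0 : (0 : ℝ) < p := by exact_mod_cast (mem_pz.1 hp).2.pos
    have g1 : nuB Q' p ≤ p := by
      unfold nuB
      exact (card_filter_le _ _).trans (by rw [card_range])
    have g2 : (nuB Q' p : ℝ) / p ≤ 1 := by
      rw [div_le_one hp0]
      exact_mod_cast g1
    linarith
  · intro p hp
    have hp0 : (0 : ℝ) < p := by exact_mod_cast (mem_pz.1 hp).2.pos
    have g1 : nuB Q p ≤ nuB Q' p := by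
      unfold nuB
      apply card_le_card
      intro m hm
      rw [mem_filter] at hm ⊢
      exact ⟨hm.1, h p m hm.2⟩
    have g2 : (nuB Q p : ℝ) / p ≤ (nuB Q' p : ℝ) / p := by
      apply div_le_div_of_nonneg_right _ hp0.le
      exact_mod_cast g1
    linarith

lemma V1B_le (Q0 : ℕ → ℕ → Prop) (α β : ℕ → ℕ) (J : Finset ℕ) (y : ℕ) : V1B Q0 α β J y ≤ J.card * Vq Q0 y := by
  unfold V1B
  refine (sum_le_sum fun j _ => Vq_mono Q0 (QB Q0 α β j) (fun p m h => Or.inl h) y).trans ?_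
  rw [sum_const, nsmul_eq_mul]

/-- the first moment -/
lemma firstB (Q0 : ℕ → ℕ → Prop) (α β : ℕ → ℕ) (J : Finset ℕ) (y Z L : ℕ) (h s : ℝ)
    (H : ∀ j ∈ J, ∀ j' ∈ J,
      |∑ m ∈ Ioc Z (Z + L), rB Q0 α β y j m * rB Q0 α β y j' m - (L : ℝ) * Vq (QBP Q0 α β j j') y| ≤
        h * ((L : ℝ) * Vq (QBP Q0 α β j j') y) + s) :
    |∑ m ∈ Ioc Z (Z + L), WN Q0 α β J y m - L * V1B Q0 α β J y| ≤ h * (L * V1B Q0 α β J y) + J.card * s := by
  have e1 : ∑ m ∈ Ioc Z (Z + L), WN Q0 α β J y m - L * V1B Q0 α β J y =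
      ∑ j ∈ J, (∑ m ∈ Ioc Z (Z + L), rB Q0 α β y j m * rB Q0 α β y j m - (L : ℝ) * Vq (QBP Q0 α β j j) y) := by
    unfold WN V1B
    rw [sum_comm, mul_sum, ← sum_sub_distrib]
    apply sum_congr rfl
    intro j _
    rw [QBP_self]
    congr 1
    exact sum_congr rfl fun m _ => (rB_sq Q0 α β y j m).symm
  rw [e1]
  refine (abs_sum_le_sum_abs _ _).trans ?_
  refine (sum_le_sum fun j hj => H j hj j hj).trans (le_of_eq ?_)
  rw [sum_add_distrib, sum_const, nsmul_eq_mul]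
  congr 1
  unfold V1B
  rw [mul_sum, mul_sum]
  exact sum_congr rfl fun j _ => by rw [QBP_self]

/-- the second moment of the count -/
lemma pairB (Q0 : ℕ → ℕ → Prop) (α β : ℕ → ℕ) (J : Finset ℕ) (y Z L : ℕ) (h s : ℝ) (hs : 0 ≤ s)
    (H : ∀ j ∈ J, ∀ j' ∈ J,
      |∑ m ∈ Ioc Z (Z + L), rB Q0 α β y j m * rB Q0 α β y j' m - (L : ℝ) * Vq (QBP Q0 α β j j') y| ≤
        h * ((L : ℝ) * Vq (QBP Q0 α β j j') y) + s) :
    ∑ m ∈ Ioc Z (Z + L), WN Q0 α β J y m ^ 2 ≤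
      (1 + h) * (L * V2B Q0 α β J y) + ∑ m ∈ Ioc Z (Z + L), WN Q0 α β J y m + (J.card : ℝ) ^ 2 * s := by
  have e1 : ∑ m ∈ Ioc Z (Z + L), WN Q0 α β J y m ^ 2 = ∑ j ∈ J, ∑ j' ∈ J,
      ∑ m ∈ Ioc Z (Z + L), rB Q0 α β y j m * rB Q0 α β y j' m := by
    have e2 : ∀ m, WN Q0 α β J y m ^ 2 = ∑ j ∈ J, ∑ j' ∈ J, rB Q0 α β y j m * rB Q0 α β y j' m := by
      intro m
      unfold WN
      rw [sq, sum_mul_sum]
    rw [sum_congr rfl (fun n _ => e2 n), sum_comm]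
    apply sum_congr rfl
    intro j _
    rw [sum_comm]
  rw [e1]
  have h2 : ∀ j ∈ J, ∑ j' ∈ J, ∑ m ∈ Ioc Z (Z + L), rB Q0 α β y j m * rB Q0 α β y j' m ≤
      ∑ m ∈ Ioc Z (Z + L), rB Q0 α β y j m +
      ∑ j' ∈ J, ((if j = j' then 0 else Vq (QBP Q0 α β j j') y) * ((1 + h) * L) + s) := by
    intro j hj
    have e2 : ∑ m ∈ Ioc Z (Z + L), rB Q0 α β y j m =
        ∑ j' ∈ J, (if j = j' then ∑ m ∈ Ioc Z (Z + L), rB Q0 α β y j m else 0) := by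
      rw [sum_ite_eq, if_pos hj]
    rw [e2, ← sum_add_distrib]
    apply sum_le_sum
    intro j' hj'
    by_cases hne : j = j'
    · subst hne
      rw [if_pos rfl, if_pos rfl, zero_mul, zero_add]
      have g1 : ∑ m ∈ Ioc Z (Z + L), rB Q0 α β y j m * rB Q0 α β y j m =
          ∑ m ∈ Ioc Z (Z + L), rB Q0 α β y j m := sum_congr rfl fun m _ => rB_sq Q0 α β y j m
      rw [g1]
      linarith
    · rw [if_neg hne, if_neg hne, zero_add]
      have h3 := (abs_le.1 (H j hj j' hj')).2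
      have e4 : Vq (QBP Q0 α β j j') y * ((1 + h) * L) =
        L * Vq (QBP Q0 α β j j') y + h * (L * Vq (QBP Q0 α β j j') y) := by ring
      linarith
  refine (sum_le_sum h2).trans (le_of_eq ?_)
  rw [sum_add_distrib]
  have e3 : ∑ j ∈ J, ∑ m ∈ Ioc Z (Z + L), rB Q0 α β y j m = ∑ m ∈ Ioc Z (Z + L), WN Q0 α β J y m := by
    rw [sum_comm]
    rfl
  rw [e3]
  have e4 : ∑ j ∈ J, ∑ j' ∈ J, ((if j = j' then 0 else Vq (QBP Q0 α β j j') y) * ((1 + h) * L) + s) =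
      V2B Q0 α β J y * ((1 + h) * L) + (J.card : ℝ) ^ 2 * s := by
    unfold V2B
    simp only [sum_add_distrib, sum_const, nsmul_eq_mul, sum_mul]
    ring
  rw [e4]
  ring

lemma WN_zero (Q0 : ℕ → ℕ → Prop) (α β : ℕ → ℕ) (J : Finset ℕ) (y m : ℕ) (h : ¬ Sf Q0 y m) :
    WN Q0 α β J y m = 0 := by
  unfold WN
  exact sum_eq_zero fun j _ => rB_zero Q0 α β y j m h

open Classical in
/-- sums over the base -/
lemma sum_SB (Q0 : ℕ → ℕ → Prop) (y Z L : ℕ) (f : ℕ → ℝ) (hf : ∀ m, ¬ Sf Q0 y m → f m = 0) :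
    ∑ m ∈ Ioc Z (Z + L), f m = ∑ m ∈ SB Q0 y Z L, f m := by
  unfold SB
  rw [sum_filter]
  apply sum_congr rfl
  intro m _
  split_ifs with h
  · rfl
  · exact hf m h

/-- the variance -/
theorem varB (Q0 : ℕ → ℕ → Prop) (α β : ℕ → ℕ) (J : Finset ℕ) (y Z L : ℕ) (h s η x V0 B : ℝ) (hs : 0 ≤ s)
    (hh0 : 0 ≤ h) (hh : h ≤ η) (hη1 : η ≤ 1) (hV0 : V0 = Vq Q0 y) (hV0p : 0 < V0) (hB : B = L * V0)
    (hx : V1B Q0 α β J y = V0 * x) (hx1 : 1 ≤ x)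
    (H0 : |((SB Q0 y Z L).card : ℝ) - (L : ℝ) * Vq Q0 y| ≤ h * ((L : ℝ) * Vq Q0 y) + s)
    (H : ∀ j ∈ J, ∀ j' ∈ J,
      |∑ m ∈ Ioc Z (Z + L), rB Q0 α β y j m * rB Q0 α β y j' m - (L : ℝ) * Vq (QBP Q0 α β j j') y| ≤
        h * ((L : ℝ) * Vq (QBP Q0 α β j j') y) + s)
    (H2 : V2B Q0 α β J y ≤ (1 + η) * (V0 * x ^ 2)) (hE : 8 * (J.card : ℝ) ^ 2 * s ≤ η * B) :
    ∑ m ∈ SB Q0 y Z L, (WN Q0 α β J y m - x) ^ 2 ≤ B * (7 * η * x ^ 2 + 2 * x) ∧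
      ∑ m ∈ Ioc Z (Z + L), WN Q0 α β J y m ≤ 3 * (B * x) := by
  have f1 := firstB Q0 α β J y Z L h s H
  have f2 := pairB Q0 α β J y Z L h s hs H
  have hxn : x ≤ J.card := by
    have a1 := V1B_le Q0 α β J y
    rw [hx, ← hV0, mul_comm] at a1
    exact le_of_mul_le_mul_right a1 hV0p
  rw [hx] at f1
  rw [← hV0, ← hB] at H0
  have e0 : (L : ℝ) * (V0 * x) = B * x := by rw [hB]; ring
  rw [e0] at f1
  obtain ⟨A1, hA1⟩ : ∃ A1, A1 = ∑ m ∈ Ioc Z (Z + L), WN Q0 α β J y m := ⟨_, rfl⟩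
  obtain ⟨n, hn⟩ : ∃ n : ℝ, n = J.card := ⟨_, rfl⟩
  obtain ⟨N, hN⟩ : ∃ N : ℝ, N = (SB Q0 y Z L).card := ⟨_, rfl⟩
  have hL0 : (0 : ℝ) ≤ L := Nat.cast_nonneg _
  have hB0 : 0 ≤ B := by rw [hB]; positivity
  rw [← hA1] at f1 f2 ⊢
  rw [← hn] at f1 f2 hE hxn
  rw [← hN] at H0
  have hn1 : 1 ≤ n := hx1.trans hxn
  have e1 : ∑ m ∈ SB Q0 y Z L, (WN Q0 α β J y m - x) ^ 2 =
      ∑ m ∈ Ioc Z (Z + L), WN Q0 α β J y m ^ 2 - 2 * x * A1 + N * x ^ 2 := by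
    have e2 : ∀ m, (WN Q0 α β J y m - x) ^ 2 = WN Q0 α β J y m ^ 2 - 2 * x * WN Q0 α β J y m + x ^ 2 := by
      intro m
      ring
    simp only [e2]
    rw [sum_add_distrib, sum_sub_distrib, ← mul_sum, sum_const, nsmul_eq_mul, hA1, hN,
      sum_SB Q0 y Z L (fun m => WN Q0 α β J y m ^ 2) (fun m hm => by
        show WN Q0 α β J y m ^ 2 = 0
        rw [WN_zero Q0 α β J y m hm]
        ring),
      sum_SB Q0 y Z L (fun m => WN Q0 α β J y m) (fun m hm => WN_zero Q0 α β J y m hm)]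
  rw [e1]
  rw [abs_le] at f1 H0
  obtain ⟨f1a, f1b⟩ := f1
  obtain ⟨-, H0b⟩ := H0
  have hBx : 0 ≤ B * x := by positivity
  have hBx2 : 0 ≤ B * x ^ 2 := by positivity
  have hη0 : 0 ≤ η := hh0.trans hh
  have g1 : h * (B * x) ≤ η * (B * x) := mul_le_mul_of_nonneg_right hh hBx
  have g2 : η * (B * x) ≤ B * x := mul_le_of_le_one_left hBx hη1
  have g3 : (1 + h) * (L * V2B Q0 α β J y) ≤ (1 + 3 * η) * (B * x ^ 2) := by
    have a1 : L * V2B Q0 α β J y ≤ L * ((1 + η) * (V0 * x ^ 2)) := mul_le_mul_of_nonneg_left H2 hL0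
    have a2 : (1 + h) * (L * V2B Q0 α β J y) ≤ (1 + η) * (L * ((1 + η) * (V0 * x ^ 2))) := by
      refine (mul_le_mul_of_nonneg_left a1 (by linarith)).trans ?_
      apply mul_le_mul_of_nonneg_right (by linarith)
      have : 0 ≤ 1 + η := by linarith
      positivity
    refine a2.trans ?_
    have e3 : (1 + η) * ((L : ℝ) * ((1 + η) * (V0 * x ^ 2))) = (1 + η) ^ 2 * (B * x ^ 2) := by rw [hB]; ring
    rw [e3]
    apply mul_le_mul_of_nonneg_right _ hBx2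
    nlinarith
  have g4 : -(2 * x * A1) ≤ -(2 * (B * x ^ 2)) + 2 * η * (B * x ^ 2) + 2 * (n * n * s) := by
    have a1 : B * x - (h * (B * x) + n * s) ≤ A1 := by linarith
    have a2 : 2 * x * (B * x - (h * (B * x) + n * s)) ≤ 2 * x * A1 :=
      mul_le_mul_of_nonneg_left a1 (by linarith)
    have a3 : 2 * x * (B * x - (h * (B * x) + n * s)) =
      2 * (B * x ^ 2) - 2 * h * (B * x ^ 2) - 2 * (x * n * s) := by ring
    have a4 : x * n * s ≤ n * n * s := by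
      apply mul_le_mul_of_nonneg_right _ hs
      exact mul_le_mul_of_nonneg_right hxn (by linarith)
    have a5 : 2 * h * (B * x ^ 2) ≤ 2 * η * (B * x ^ 2) := by
      apply mul_le_mul_of_nonneg_right _ hBx2
      linarith
    linarith
  have g5 : n * s ≤ n ^ 2 * s := by
    apply mul_le_mul_of_nonneg_right _ hs
    nlinarith
  have g5' : x ^ 2 * s ≤ n ^ 2 * s := by
    apply mul_le_mul_of_nonneg_right _ hs
    exact pow_le_pow_left₀ (by linarith) hxn 2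
  have g6 : η * B ≤ η * (B * x ^ 2) := by
    apply mul_le_mul_of_nonneg_left _ hη0
    apply le_mul_of_one_le_right hB0
    nlinarith
  have g7 : η * B ≤ B * x := by
    calc η * B ≤ 1 * B := mul_le_mul_of_nonneg_right hη1 hB0
      _ = B * 1 := by ring
      _ ≤ B * x := mul_le_mul_of_nonneg_left hx1 hB0
  have g8 : n * n * s = n ^ 2 * s := by ring
  have g9 : 8 * n ^ 2 * s = 8 * (n ^ 2 * s) := by ring
  rw [g9] at hE
  rw [g8] at g4
  have g10 : 0 ≤ n ^ 2 * s := by positivity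
  have g11 : 0 ≤ η * (B * x ^ 2) := by positivity
  have g12 : N * x ^ 2 ≤ B * x ^ 2 + η * (B * x ^ 2) + n ^ 2 * s := by
    have a1 : N ≤ B + h * B + s := by linarith
    have a2 : N * x ^ 2 ≤ (B + h * B + s) * x ^ 2 := mul_le_mul_of_nonneg_right a1 (sq_nonneg x)
    have a3 : h * (B * x ^ 2) ≤ η * (B * x ^ 2) := mul_le_mul_of_nonneg_right hh hBx2
    have a4 : (B + h * B + s) * x ^ 2 = B * x ^ 2 + h * (B * x ^ 2) + x ^ 2 * s := by ring
    linarith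
  constructor
  · have e3 : B * (7 * η * x ^ 2 + 2 * x) = 7 * (η * (B * x ^ 2)) + 2 * (B * x) := by ring
    rw [e3]
    have e4 : (1 + 3 * η) * (B * x ^ 2) = B * x ^ 2 + 3 * (η * (B * x ^ 2)) := by ring
    rw [e4] at g3
    have e5 : 2 * η * (B * x ^ 2) = 2 * (η * (B * x ^ 2)) := by ring
    rw [e5] at g4
    linarith
  · linarith

end Pool.Agent.R490.LPc
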