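import Pool.Agent.R490.LPb
import Pool.Agent.R490.LPc
import Pool.Agent.R490.LFd

set_option autoImplicit false

/-!
# Families of linear forms over a sifted base: almost all members of the base have almost prime values
-/

namespace Pool.Agent.R490.LPd

open Finset Filter
open Pool.Agent.W123.RP Pool.Agent.H373R2.T7 Pool.Agent.W123.RU Pool.Agent.TH464.PO Pool.Agent.TH464.PW
open Pool.Agent.Y879.AP Pool.Agent.R490.Mean
open Pool.Agent.R490.P3c Pool.Agent.R490.P3d Pool.Agent.R490.P3f Pool.Agent.R490.P3g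
open Pool.Agent.R490.P3h Pool.Agent.R490.P3i Pool.Agent.R490.P3k
open Pool.Agent.R490.LFa Pool.Agent.R490.LFb Pool.Agent.R490.LFc Pool.Agent.R490.LFd Pool.Agent.R490.LPa
open Pool.Agent.R490.LPc
open Pool.Agent.W23.DC Pool.Agent.Y882 Pool.Agent.Y882.KW

open Classical in
/-- the exceptional `m` of the base -/
noncomputable def BadB (Q0 : ℕ → ℕ → Prop) (α β : ℕ → ℕ) (J : Finset ℕ) (q R y Z L : ℕ) (ζ t : ℝ) : Finset ℕ :=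
  (SB Q0 y Z L).filter (fun m => ((GoodF α β J q R m ζ).card : ℝ) < t)

open Classical in
/-- the exceptional `m` are in one of three sets -/
theorem bad_subB (Q0 : ℕ → ℕ → Prop) (α β : ℕ → ℕ) (J : Finset ℕ) (q : ℕ) (hq : 2 ≤ q) (r R y Z L : ℕ)
    (hy : y = ⌊(q : ℝ) ^ (1 / (r : ℝ))⌋₊) (hqy : ∀ p : ℕ, p.Prime → p ∣ q → p ≤ y)
    (ζ υ lm S : ℝ) (hζυ : ζ ≤ υ) (hυ0 : 0 < υ)
    (hυ1 : υ ≤ 1) (hlam : 0 < lm) (hr : 1 / lm + S / υ ≤ R + 1) (c : Finset ℕ → ℝ) (κ x t : ℝ) (hκ : 0 < κ)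
    (ht : t ≤ κ * (x / 4))
    (hc : ∀ N : ℕ, VV (pr q (1 / (r : ℝ)) υ) c (fun p => if p ∣ N then 1 else 0) ≤
      WB q (1 / (r : ℝ)) ζ υ lm (lm / υ) N)
    (hS : ∀ j ∈ J, ∀ m ∈ Ioc Z (Z + L), 1 ≤ α j * m + β j ∧ ((α j * m + β j : ℕ) : ℝ) ≤ (q : ℝ) ^ S) :
    BadB Q0 α β J q R y Z L ζ t ⊆
      (Ioc Z (Z + L)).filter (fun m => ∃ j ∈ J, ∃ p ∈ pr q ζ υ, y < p ∧ p ^ 2 ∣ α j * m + β j) ∪
      ((SB Q0 y Z L).filter (fun m => WN Q0 α β J y m ≤ x / 2) ∪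
       (Ioc Z (Z + L)).filter (fun m => κ * (x / 4) ≤ |XB Q0 (PP q y (1 / (r : ℝ)) υ)
         (fun U => c U - if U = ∅ then κ else 0) α β J y m|)) := by
  intro m hm
  unfold BadB at hm
  rw [mem_filter] at hm
  obtain ⟨hn0, hbad⟩ := hm
  have hn1 : m ∈ Ioc Z (Z + L) := filter_subset _ _ hn0
  rw [mem_union, mem_union]
  by_cases hsq : ∃ j ∈ J, ∃ p ∈ pr q ζ υ, y < p ∧ p ^ 2 ∣ α j * m + β j
  · left
    exact mem_filter.2 ⟨hn1, hsq⟩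
  right
  by_cases hW : WN Q0 α β J y m ≤ x / 2
  · left
    exact mem_filter.2 ⟨hn0, hW⟩
  right
  rw [mem_filter]
  refine ⟨hn1, ?_⟩
  push Not at hW
  obtain ⟨P, hP⟩ : ∃ P, P = PP q y (1 / (r : ℝ)) υ := ⟨_, rfl⟩
  rw [← hP]
  have hlam2 : ∀ n, lam P (fun U => c U - if U = ∅ then κ else 0) n = lam P c n - κ := by
    intro n
    unfold lam
    have e1 : ∀ U ∈ P.powerset, (c U - if U = ∅ then κ else 0) * (if (∏ p ∈ U, p) ∣ n then (1 : ℝ) else 0) =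
        c U * (if (∏ p ∈ U, p) ∣ n then (1 : ℝ) else 0) - (if U = ∅ then κ else 0) := by
      intro U _
      by_cases h : U = ∅
      · subst h
        simp
      · rw [if_neg h, sub_zero, sub_zero]
    rw [sum_congr rfl e1, sum_sub_distrib, sum_ite_eq', if_pos (empty_mem_powerset P)]
  have hkey : ∀ j ∈ J, xB Q0 P (fun U => c U - if U = ∅ then κ else 0) α β y j m ≤
      (if (α j * m + β j).primeFactorsList.length ≤ R ∧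
        ∀ p : ℕ, p.Prime → p ∣ α j * m + β j → (q : ℝ) ^ ζ ≤ p then (1 : ℝ) else 0) +
      -κ * rB Q0 α β y j m := by
    intro j hj
    unfold xB
    rw [hlam2]
    by_cases hr1 : Sf (QB Q0 α β j) y m
    · have e1 : rB Q0 α β y j m = 1 := by unfold rB; rw [if_pos hr1]
      rw [e1, one_mul, mul_one]
      have hNy : ∀ p : ℕ, p.Prime → p ≤ y → ¬ p ∣ α j * m + β j := by
        intro p hp hpy hd
        exact hr1 p (mem_pz.2 ⟨hpy, hp⟩) (Or.inr hd)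
      have hNq : (α j * m + β j).Coprime q := by
        rw [Nat.coprime_iff_gcd_eq_one]
        by_contra hne
        obtain ⟨p, hp, hpd⟩ := Nat.exists_prime_and_dvd hne
        exact hNy p hp (hqy p hp (hpd.trans (Nat.gcd_dvd_right _ _))) (hpd.trans (Nat.gcd_dvd_left _ _))
      have h3 : lam P c (α j * m + β j) ≤ 1 := by
        have h4 := hc (α j * m + β j)
        rw [VV_ind q y _ _ c _ hNy hNq, ← hP] at h4
        refine h4.trans (WB_le_one q _ ζ υ lm (lm / υ) (by positivity) ?_ _)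
        rw [div_mul_cancel₀ _ hυ0.ne']
      by_cases hpos : 0 < lam P c (α j * m + β j)
      · have hdet : (α j * m + β j).primeFactorsList.length ≤ R ∧
            ∀ p : ℕ, p.Prime → p ∣ α j * m + β j → (q : ℝ) ^ ζ ≤ p := by
          have hSj := hS j hj m hn1
          apply detect q hq r R ζ υ lm S hζυ hυ0 hυ1 hlam hr c (α j * m + β j) (by omega) hSj.2
          · exact hc _
          · rw [← hy]
            exact hNy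
          · exact hNq
          · rw [← hy, ← hP]
            exact hpos
          · intro p hp hd
            refine hsq ⟨j, hj, p, hp, ?_, hd⟩
            by_contra hle
            exact hNy p (mem_pr.1 hp).2.1 (not_lt.1 hle) ((Dvd.intro_left (p ^ 1) (by ring)).trans hd)
        rw [if_pos hdet]
        linarith
      · push Not at hpos
        have h5 : (0 : ℝ) ≤ (if (α j * m + β j).primeFactorsList.length ≤ R ∧
            ∀ p : ℕ, p.Prime → p ∣ α j * m + β j → (q : ℝ) ^ ζ ≤ p then (1 : ℝ) else 0) := by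
          split_ifs <;> norm_num
        linarith
    · have e1 : rB Q0 α β y j m = 0 := by unfold rB; rw [if_neg hr1]
      rw [e1, zero_mul, mul_zero, add_zero]
      split_ifs <;> norm_num
  have h1 : XB Q0 P (fun U => c U - if U = ∅ then κ else 0) α β J y m ≤
      ((GoodF α β J q R m ζ).card : ℝ) + -κ * WN Q0 α β J y m := by
    unfold XB
    refine (sum_le_sum hkey).trans ?_
    rw [sum_add_distrib, ← mul_sum]
    unfold WN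
    apply add_le_add _ le_rfl
    unfold GoodF
    rw [card_filter]
    push_cast
    exact le_rfl
  have h2 : κ * (x / 2) ≤ κ * WN Q0 α β J y m := mul_le_mul_of_nonneg_left hW.le hκ.le
  rw [le_abs]
  right
  linarith

open Classical in
/-- the count of the exceptional `m` -/
theorem count_badB (Q0 : ℕ → ℕ → Prop) (α β : ℕ → ℕ) (J : Finset ℕ) (q : ℕ) (hq : 2 ≤ q) (r R y Z L : ℕ)
    (hy : y = ⌊(q : ℝ) ^ (1 / (r : ℝ))⌋₊) (hqy : ∀ p : ℕ, p.Prime → p ∣ q → p ≤ y)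
    (ζ υ lm S : ℝ) (hζυ : ζ ≤ υ) (hυ0 : 0 < υ)
    (hυ1 : υ ≤ 1) (hlam : 0 < lm) (hr : 1 / lm + S / υ ≤ R + 1) (c : Finset ℕ → ℝ) (κ x t : ℝ) (hκ : 0 < κ)
    (hx : 0 < x) (ht : t ≤ κ * (x / 4))
    (hc : ∀ N : ℕ, VV (pr q (1 / (r : ℝ)) υ) c (fun p => if p ∣ N then 1 else 0) ≤
      WB q (1 / (r : ℝ)) ζ υ lm (lm / υ) N)
    (hS : ∀ j ∈ J, ∀ m ∈ Ioc Z (Z + L), 1 ≤ α j * m + β j ∧ ((α j * m + β j : ℕ) : ℝ) ≤ (q : ℝ) ^ S)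
    (s1 v2 v3 : ℝ)
    (h1 : (((Ioc Z (Z + L)).filter (fun m => ∃ j ∈ J, ∃ p ∈ pr q ζ υ, y < p ∧
      p ^ 2 ∣ α j * m + β j)).card : ℝ) ≤ s1)
    (h2 : ∑ m ∈ SB Q0 y Z L, (WN Q0 α β J y m - x) ^ 2 ≤ v2)
    (h3 : ∑ m ∈ Ioc Z (Z + L), XB Q0 (PP q y (1 / (r : ℝ)) υ)
      (fun U => c U - if U = ∅ then κ else 0) α β J y m ^ 2 ≤ v3) :
    ((BadB Q0 α β J q R y Z L ζ t).card : ℝ) ≤ s1 + (v2 / (x / 2) ^ 2 + v3 / (κ * (x / 4)) ^ 2) := by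
  have hsub := bad_subB Q0 α β J q hq r R y Z L hy hqy ζ υ lm S hζυ hυ0 hυ1 hlam hr c κ x t hκ ht hc hS
  obtain ⟨a, ha⟩ : ∃ a : Finset ℕ → ℝ, a = fun U => c U - if U = ∅ then κ else 0 := ⟨_, rfl⟩
  obtain ⟨P, hP⟩ : ∃ P, P = PP q y (1 / (r : ℝ)) υ := ⟨_, rfl⟩
  rw [← hP, ← ha] at hsub h3
  have hcard : ((BadB Q0 α β J q R y Z L ζ t).card : ℝ) ≤
      (((Ioc Z (Z + L)).filter (fun m => ∃ j ∈ J, ∃ p ∈ pr q ζ υ, y < p ∧ p ^ 2 ∣ α j * m + β j)).card : ℝ) +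
      ((((SB Q0 y Z L).filter (fun m => WN Q0 α β J y m ≤ x / 2)).card : ℝ) +
       (((Ioc Z (Z + L)).filter (fun m => κ * (x / 4) ≤ |XB Q0 P a α β J y m|)).card : ℝ)) := by
    have a1 := (card_le_card hsub).trans ((card_union_le _ _).trans (Nat.add_le_add_left (card_union_le _ _) _))
    exact_mod_cast a1
  refine hcard.trans ?_
  apply add_le_add h1
  apply add_le_add
  · have a1 := cheb (SB Q0 y Z L) (fun m => WN Q0 α β J y m - x) ((x / 2) ^ 2) (by positivity)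
      (fun m => WN Q0 α β J y m ≤ x / 2) (by
        intro m _ hn
        show (x / 2) ^ 2 ≤ (WN Q0 α β J y m - x) ^ 2
        have : x / 2 ≤ x - WN Q0 α β J y m := by linarith
        calc (x / 2) ^ 2 ≤ (x - WN Q0 α β J y m) ^ 2 := pow_le_pow_left₀ (by positivity) this 2
          _ = _ := by ring)
    refine a1.trans ?_
    exact div_le_div_of_nonneg_right h2 (by positivity)
  · have a1 := cheb (Ioc Z (Z + L)) (fun m => XB Q0 P a α β J y m) ((κ * (x / 4)) ^ 2) (by positivity)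
      (fun m => κ * (x / 4) ≤ |XB Q0 P a α β J y m|) (by
        intro m _ hn
        show (κ * (x / 4)) ^ 2 ≤ XB Q0 P a α β J y m ^ 2
        rw [← sq_abs (XB Q0 P a α β J y m)]
        exact pow_le_pow_left₀ (by positivity) hn 2)
    refine a1.trans ?_
    exact div_le_div_of_nonneg_right h3 (by positivity)

open Classical in
/-- one base -/
theorem oneqB {θ τ ζ υ lm ε f0 c1 A κ0 x1 η γ c KV : ℝ} {C0 G0 m r R0 : ℕ}
    (h : Cst θ τ ζ υ lm ε f0 c1 A κ0 x1 η γ c KV C0 G0 m r R0) (S : ℝ) (R : ℕ)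
    (hr : 1 / lm + S / υ ≤ R + 1)
    (X2 : ℝ) (hX2 : x1 ≤ X2)
    (q y Z L : ℕ) (Q0 : ℕ → ℕ → Prop) (α β : ℕ → ℕ) (J : Finset ℕ) (hF : Fam α β J y)
    (hq : 2 ≤ q) (hqy : ∀ p : ℕ, p.Prime → p ∣ q → p ≤ y) (hy : y = ⌊(q : ℝ) ^ (1 / (r : ℝ))⌋₊) (hy1 : 1 ≤ y)
    (hqL : (q : ℝ) ^ θ ≤ L)
    (hMer1 : Mer (pr q (1 / (r : ℝ)) υ) (tt q) (gg q y) (1 / (r : ℝ)) υ 1)
    (cL : Finset ℕ → ℝ) (hb1 : ∀ U, |cL U| ≤ 1 + lm)
    (hb2 : ∀ U ⊆ pr q (1 / (r : ℝ)) υ, cL U ≠ 0 → ((∏ p ∈ U, p : ℕ) : ℝ) ≤ (q : ℝ) ^ τ)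
    (hb3 : ∀ N : ℕ, VV (pr q (1 / (r : ℝ)) υ) cL (fun p => if p ∣ N then 1 else 0) ≤
      WB q (1 / (r : ℝ)) ζ υ lm (lm / υ) N)
    (hb4 : 1 / (r : ℝ) * f0 ≤ VV (pr q (1 / (r : ℝ)) υ) cL (gg q y))
    (hS : ∀ j ∈ J, ∀ m ∈ Ioc Z (Z + L), 1 ≤ α j * m + β j ∧ ((α j * m + β j : ℕ) : ℝ) ≤ (q : ℝ) ^ S)
    (x V0 B : ℝ) (hV0 : 0 < V0) (hB : B = L * V0) (hBlow : L * (c / Real.log q) ≤ B)
    (hx1 : x1 ≤ x) (hlq : 1 ≤ Real.log q) (hJlog : (J.card : ℝ) ≤ X2 / c * Real.log q)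
    (hvar1 : ∑ m ∈ SB Q0 y Z L, (WN Q0 α β J y m - x) ^ 2 ≤ B * (7 * η * x ^ 2 + 2 * x))
    (hvar2 : ∑ m ∈ Ioc Z (Z + L), WN Q0 α β J y m ≤ 3 * (B * x))
    (hsing : V2B Q0 α β J y ≤ 2 * (V0 * x ^ 2))
    (Hsec : ∀ (P : Finset ℕ) (a : Finset ℕ → ℝ) (A : ℝ) (D : ℕ),
      (∀ p ∈ P, p.Prime ∧ y < p) → (∀ U, |a U| ≤ A) →
      (∀ U ⊆ P, a U ≠ 0 → ∏ p ∈ U, p ≤ D) → ∑ U ∈ P.powerset, a U * wt U = 0 →
      ∑ m ∈ Ioc Z (Z + L), XB Q0 P a α β J y m ^ 2 ≤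
        (A * 2 ^ R0) ^ 2 * ∑ m ∈ Ioc Z (Z + L), WN Q0 α β J y m +
        L * V2B Q0 α β J y * (A ^ 2 * (Pi1 P ^ 2 * ((∑ p ∈ P, 1 / (p : ℝ)) / y)) +
          (1 / 2) ^ m * (A * Pi1 P) ^ 2) +
        (J.card : ℝ) ^ 2 * (√((y ^ (16 * (C0 * m)) : ℕ) : ℝ) * (A * D) ^ 2))
    (Yb : ℝ) (hYb : 640 * A ^ 2 * (9 * (r : ℝ) ^ 3) / (κ0 ^ 2 * ε) ≤ Yb) (hYy : Yb ≤ y)
    (hE10 : 16 * (X2 / c) ^ 2 * A ^ 2 / (κ0 ^ 2 * x1 ^ 2) * (20 / (ε * c)) * Real.log q ^ 3 ≤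
      (q : ℝ) ^ (γ / 2))
    (hE11 : (X2 / c) * 4 * (20 / (ε * c)) * Real.log q ^ 2 ≤ (q : ℝ) ^ ζ)
    (h4ζ : 4 ≤ (q : ℝ) ^ ζ) :
    ((BadB Q0 α β J q R y Z L ζ (κ0 * (x / 4))).card : ℝ) ≤ ε * B := by
  obtain ⟨hA0, hκ00, hx11, hr0, hc10, hγ0, hx1a, hx1b⟩ := h.pos
  have hε := h.Fε
  have hq1 : (1 : ℝ) ≤ q := by exact_mod_cast (by omega : 1 ≤ q)
  have hq0 : (0 : ℝ) < q := by linarith
  have hx0 : 0 < x := by linarith
  have hL0 : (0 : ℝ) < L := lt_of_lt_of_le (by positivity) hqL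
  have hB0 : 0 < B := by rw [hB]; positivity
  have hτ0 : 0 < τ := by linarith [h.h2, h.Fζ]
  have hυ0 : 0 < υ := by linarith [h.hζυ, h.Fζ]
  have hυ1 : υ ≤ 1 := by linarith [h.hυτ, h.hτθ, h.hθ1]
  have hrυ : 1 / (r : ℝ) ≤ υ := h.Frζ.trans h.hζυ
  obtain ⟨κ, hκlow, haA, haD, hasum⟩ := weights q r y hq h.Fr2 τ υ lm f0 c1 hτ0 hυ1 hrυ h.Fc1 h.Flm hMer1 cL
    hb1 hb2 hb4
  rw [← h.Fκ0] at hκlow
  rw [← h.FA] at haA
  have hκp : 0 < κ := by linarith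
  obtain ⟨hs1, hPi⟩ := sumP q y r h.Fr2 υ hυ1 hrυ hMer1
  obtain ⟨a, ha⟩ : ∃ a : Finset ℕ → ℝ, a = fun U => cL U - if U = ∅ then κ else 0 := ⟨_, rfl⟩
  have haA' : ∀ U, |a U| ≤ A := by rw [ha]; exact haA
  obtain ⟨P, hP⟩ : ∃ P, P = PP q y (1 / (r : ℝ)) υ := ⟨_, rfl⟩
  rw [← hP] at hs1 hPi haD hasum
  have haD' : ∀ U ⊆ P, a U ≠ 0 → ∏ p ∈ U, p ≤ ⌊(q : ℝ) ^ τ⌋₊ := by rw [ha]; exact haD
  have hasum' : ∑ U ∈ P.powerset, a U * wt U = 0 := by rw [ha]; exact hasum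
  have hPp : ∀ p ∈ P, p.Prime ∧ y < p := by
    intro p hp
    rw [hP] at hp
    exact ⟨(PP_mem hp).1, (PP_mem hp).2.1⟩
  have hsec := Hsec P a A ⌊(q : ℝ) ^ τ⌋₊ hPp haA' haD' hasum'
  obtain ⟨e, he⟩ : ∃ e : ℝ, e = A ^ 2 * (Pi1 P ^ 2 * ((∑ p ∈ P, 1 / (p : ℝ)) / y)) +
          (1 / 2) ^ m * (A * Pi1 P) ^ 2 := ⟨_, rfl⟩
  have hsum0 : 0 ≤ ∑ p ∈ P, 1 / (p : ℝ) := sum_nonneg fun _ _ => by positivity
  have hPi0 : 0 ≤ Pi1 P := Pi1_nonneg P (fun p hp => (hPp p hp).1)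
  have hyr0 : (0 : ℝ) < y := by exact_mod_cast hy1
  have he0 : 0 ≤ e := by rw [he]; positivity
  obtain ⟨err, herr⟩ : ∃ err : ℝ, err = (J.card : ℝ) ^ 2 *
    (√((y ^ (16 * (C0 * m)) : ℕ) : ℝ) * (A * (⌊(q : ℝ) ^ τ⌋₊ : ℝ)) ^ 2) := ⟨_, rfl⟩
  have herr0 : 0 ≤ err := by rw [herr]; positivity
  rw [← he, ← herr] at hsec
  obtain ⟨v3, hv3⟩ : ∃ v3 : ℝ, v3 = (A * 2 ^ R0) ^ 2 * (3 * (B * x)) + 2 * (B * e * x ^ 2) + err := ⟨_, rfl⟩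
  have hsec3 : ∑ m ∈ Ioc Z (Z + L), XB Q0 P a α β J y m ^ 2 ≤ v3 := by
    refine hsec.trans ?_
    rw [hv3]
    apply add_le_add _ le_rfl
    apply add_le_add
    · exact mul_le_mul_of_nonneg_left hvar2 (sq_nonneg _)
    · have a1 : L * V2B Q0 α β J y * e ≤ L * (2 * (V0 * x ^ 2)) * e := by
        apply mul_le_mul_of_nonneg_right _ he0
        exact mul_le_mul_of_nonneg_left hsing hL0.le
      refine a1.trans (le_of_eq (by rw [hB]; ring))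
  have hLυ : (q : ℝ) ^ (2 * υ) ≤ L := by
    refine le_trans ?_ hqL
    exact Real.rpow_le_rpow_of_exponent_le hq1 (by linarith [h.hυτ, h.hτθ])
  have hsq := sqF α β J q y Z L ζ υ hq h4ζ hLυ hF.big
  have hcount := count_badB Q0 α β J q hq r R y Z L hy hqy ζ υ lm S h.hζυ hυ0 hυ1 h.Flm hr cL κ x
    (κ0 * (x / 4)) hκp hx0 (mul_le_mul_of_nonneg_right hκlow (by positivity)) hb3 hS
    _ _ v3 hsq hvar1 (by rw [← hP, ← ha]; exact hsec3)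
  refine hcount.trans ?_
  have f1 := est_sq (J.card : ℝ) c X2 B (Real.log q) L ((q : ℝ) ^ ζ) ε _ h.Fc (hx11.trans hX2) hε hlq hJlog
    hL0 (by positivity) hBlow rfl hE11
  have hsqrt := sqrt_xx q r C0 m G0 γ (by omega) hγ0 h.Fr h.Fm1 h.FG1 h.FG2
  rw [← hy] at hsqrt
  have hDq : ((⌊(q : ℝ) ^ τ⌋₊ : ℕ) : ℝ) ^ 2 ≤ (q : ℝ) ^ (2 * τ) := by
    calc ((⌊(q : ℝ) ^ τ⌋₊ : ℕ) : ℝ) ^ 2 ≤ ((q : ℝ) ^ τ) ^ 2 :=
          pow_le_pow_left₀ (Nat.cast_nonneg _) (Nat.floor_le (by positivity)) 2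
      _ = (q : ℝ) ^ (2 * τ) := by
          rw [← Real.rpow_natCast, ← Real.rpow_mul hq0.le]
          congr 1
          push_cast
          ring
  have hqq : (q : ℝ) ^ (γ / 2) * (q : ℝ) ^ (2 * τ) * (q : ℝ) ^ (γ / 2) ≤ L := by
    refine le_trans (le_of_eq ?_) hqL
    rw [← Real.rpow_add hq0, ← Real.rpow_add hq0]
    congr 1
    rw [h.Fγ]
    ring
  have f2 := est_abs (J.card : ℝ) c x1 X2 x B (Real.log q) L ((q : ℝ) ^ (γ / 2)) ((q : ℝ) ^ (2 * τ))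
    (√((y ^ (16 * (C0 * m)) : ℕ) : ℝ)) (⌊(q : ℝ) ^ τ⌋₊ : ℝ) A κ0 ε _ h.Fc hx11 hX2 hx1 hε hκ00 hlq
    (Nat.cast_nonneg _) hJlog (by positivity) hsqrt (Real.sqrt_nonneg _) (Nat.cast_nonneg _) hDq hqq hBlow rfl hE10
  rw [← herr] at f2
  have f3 := est_r1 A (Pi1 P) (∑ p ∈ P, 1 / (p : ℝ)) y r κ0 ε Yb hPi0 hPi hsum0 hs1 hyr0 hr0 hκ00 hε hYb hYy
  have f4 := est_r2 c1 A (Pi1 P) r κ0 f0 G0 ε m hc10 h.FA hPi0 hPi (by exact_mod_cast h.Fr2) h.Ff0 h.Fκ0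
    (by rw [h.Fr]; push_cast; ring) h.Fm
  have f5 : 32 * e / κ0 ^ 2 ≤ ε / 10 := by
    have b3 : 32 * e / κ0 ^ 2 = 32 * (A ^ 2 * (Pi1 P ^ 2 * ((∑ p ∈ P, 1 / (p : ℝ)) / y))) / κ0 ^ 2 +
        32 * ((1 / 2) ^ m * (A * Pi1 P) ^ 2) / κ0 ^ 2 := by
      rw [he]
      ring
    rw [b3]
    linarith
  have f6 : 28 * η ≤ ε / 20 := by rw [h.Fη]; linarith
  have f7 : 8 / x ≤ ε / 20 := by
    rw [div_le_iff₀ hx0]
    have a1 := hx1b.trans hx1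
    rw [div_le_iff₀ hε] at a1
    linarith
  have f8 : 48 * (A * 2 ^ R0) ^ 2 / (κ0 ^ 2 * x) ≤ ε / 20 := by
    rw [div_le_iff₀ (by positivity)]
    have a1 := hx1a.trans hx1
    rw [div_le_iff₀ (by positivity)] at a1
    linarith
  exact fin_alg _ _ _ B x κ κ0 ((A * 2 ^ R0) ^ 2) e err ε η B hB0.le hx0 hκ00 hκlow hε (sq_nonneg _) he0
    f1 le_rfl (by rw [hv3]) f6 f7 f8 f5 f2 herr0 (by linarith)

end Pool.Agent.R490.LPd
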