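import Pool.Agent.R490.LPd
import Pool.Agent.R490.LFe

set_option autoImplicit false

/-!
# Families of linear forms over a sifted base: the main theorem
-/

namespace Pool.Agent.R490.LPe

open Finset Filter
open Pool.Agent.W123.RP Pool.Agent.H373R2.T7 Pool.Agent.W123.RU Pool.Agent.TH464.PO Pool.Agent.TH464.PW
open Pool.Agent.Y879.AP Pool.Agent.R490.Mean
open Pool.Agent.R490.P3c Pool.Agent.R490.P3d Pool.Agent.R490.P3f Pool.Agent.R490.P3g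
open Pool.Agent.R490.P3h Pool.Agent.R490.P3i Pool.Agent.R490.P3k Pool.Agent.R490.P3l
open Pool.Agent.R490.LFa Pool.Agent.R490.LFb Pool.Agent.R490.LFc Pool.Agent.R490.LFd Pool.Agent.R490.LFe
open Pool.Agent.R490.LPa Pool.Agent.R490.LPb Pool.Agent.R490.LPc Pool.Agent.R490.LPd
open Pool.Agent.W23.DC Pool.Agent.Y882 Pool.Agent.Y882.KW

/-- the choice of the sieving limit -/
lemma choose_m7 (K : ℝ) (δ : ℝ) (hδ : 0 < δ) (m0 : ℕ) : ∃ m : ℕ, m0 ≤ m ∧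
    K * ((m : ℝ) ^ 7 * (1 / 2) ^ m) ≤ δ := by
  have h1 := tendsto_pow_const_mul_const_pow_of_abs_lt_one 7 (r := (1 / 2 : ℝ)) (by
    rw [abs_of_pos] <;> norm_num)
  have h2 := h1.const_mul K
  rw [mul_zero] at h2
  obtain ⟨m, h3, h4⟩ := ((h2.eventually_le_const hδ).and (eventually_ge_atTop m0)).exists
  exact ⟨m, h4, h3⟩

lemma exists_cst7 (θ τ ζ υ lm ε f0 C1 : ℝ) (C0 : ℕ) (hζ : 0 < ζ)
    (hυτ : υ < τ) (hlm : 0 < lm) (hτθ : 2 * τ < θ) (hε : 0 < ε) (hε1 : ε ≤ 1) (hf0 : 0 < f0)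
    (hC1 : 1 ≤ C1) :
    ∃ (m r G0 : ℕ) (ε' : ℝ), C0 ≤ m ∧ 1 ≤ m ∧ 2 ≤ r ∧ r = G0 * m ∧ 1 ≤ G0 ∧ 16 * C0 / (θ - 2 * τ) ≤ G0 ∧
      1 / (r : ℝ) ≤ ζ ∧ 1 / (r : ℝ) ≤ τ - υ ∧ 0 < ε' ∧ ε' ≤ 1 ∧ C1 * r * ε' ≤ ε ∧
      4608 * (1 + lm) ^ 2 * (G0 : ℝ) ^ 6 / f0 ^ 2 * ((m : ℝ) ^ 6 * (1 / 2) ^ m) ≤ ε' / 20 := by
  obtain ⟨G0, hG0⟩ : ∃ G0 : ℕ, G0 = ⌈16 * C0 / (θ - 2 * τ)⌉₊ + 1 := ⟨_, rfl⟩
  have hG1 : 1 ≤ G0 := by omega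
  have hG2 : 16 * C0 / (θ - 2 * τ) ≤ G0 := by
    rw [hG0]
    push_cast
    linarith [Nat.le_ceil (16 * (C0 : ℝ) / (θ - 2 * τ))]
  have hG0r : (0 : ℝ) < G0 := by exact_mod_cast hG1
  have hC10 : 0 < C1 := by linarith
  obtain ⟨m, hm0, hm⟩ := choose_m7 (4608 * (1 + lm) ^ 2 * (G0 : ℝ) ^ 6 / f0 ^ 2 * (C1 * G0)) (ε / 20)
    (by positivity)
    (C0 + 2 + ⌈1 / ζ⌉₊ + ⌈1 / (τ - υ)⌉₊)
  have hmr : m ≤ G0 * m := Nat.le_mul_of_pos_left m hG1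
  obtain ⟨r, hrdef⟩ : ∃ r : ℕ, r = G0 * m := ⟨_, rfl⟩
  rw [← hrdef] at hmr
  have hr2 : 2 ≤ r := by omega
  have hrr : (2 : ℝ) ≤ r := by exact_mod_cast hr2
  have hr0 : (0 : ℝ) < r := by linarith
  have hm00 : (0 : ℝ) < m := by exact_mod_cast (by omega : 0 < m)
  have hrG : (r : ℝ) = G0 * m := by rw [hrdef]; push_cast; ring
  refine ⟨m, r, G0, ε / (C1 * r), by omega, by omega, hr2, hrdef, hG1, hG2, ?_, ?_, by positivity, ?_, ?_, ?_⟩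
  · have h5 : 1 / ζ ≤ r := (Nat.le_ceil _).trans (by exact_mod_cast (by omega : ⌈1 / ζ⌉₊ ≤ r))
    rw [div_le_iff₀ hζ] at h5
    rw [div_le_iff₀ hr0]
    linarith
  · have h5 : 1 / (τ - υ) ≤ r := (Nat.le_ceil _).trans (by exact_mod_cast (by omega : ⌈1 / (τ - υ)⌉₊ ≤ r))
    rw [div_le_iff₀ (by linarith)] at h5
    rw [div_le_iff₀ hr0]
    linarith
  · rw [div_le_one (by positivity)]
    nlinarith
  · apply le_of_eq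
    field_simp
  · have e1 : ε / (C1 * r) / 20 = ε / 20 / (C1 * r) := by ring
    rw [e1, le_div_iff₀ (by positivity)]
    refine le_trans (le_of_eq ?_) hm
    rw [hrG]
    ring

/-- the error term of the variance -/
lemma est_varB (n s c X2 lq η L qg B : ℝ) (hc : 0 < c) (hn : 0 ≤ n) (hn2 : n ≤ X2 / c * lq) (hlq : 1 ≤ lq)
    (hs0 : 0 ≤ s) (hs : s ≤ qg) (hη : 0 < η) (hE : 8 * (X2 / c) ^ 2 / (η * c) * lq ^ 3 ≤ qg) (hL : qg * qg ≤ L)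
    (hB : L * (c / lq) ≤ B) : 8 * n ^ 2 * s ≤ η * B := by
  have hlq0 : 0 < lq := by linarith
  have a1 : n ^ 2 ≤ (X2 / c) ^ 2 * lq ^ 2 := by
    rw [← mul_pow]
    exact pow_le_pow_left₀ hn hn2 2
  have hqg : 0 ≤ qg := hs0.trans hs
  calc 8 * n ^ 2 * s ≤ 8 * ((X2 / c) ^ 2 * lq ^ 2) * qg := by
        apply mul_le_mul (by linarith) hs hs0 (by positivity)
    _ = η * (c / lq) * (8 * (X2 / c) ^ 2 / (η * c) * lq ^ 3) * qg := by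
        field_simp
    _ ≤ η * (c / lq) * qg * qg := by
        apply mul_le_mul_of_nonneg_right _ hqg
        exact mul_le_mul_of_nonneg_left hE (by positivity)
    _ = η * (qg * qg * (c / lq)) := by ring
    _ ≤ η * (L * (c / lq)) := by
        apply mul_le_mul_of_nonneg_left _ hη.le
        exact mul_le_mul_of_nonneg_right hL (by positivity)
    _ ≤ η * B := mul_le_mul_of_nonneg_left hB hη.le

open Classical in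
/-- almost all `m` of the base have almost prime values -/
theorem mainB (θ τ ζ υ lm S : ℝ) (R : ℕ) (hζ : 0 < ζ) (h2 : 2 * ζ < τ) (h4 : τ ≤ 4 * ζ) (hζυ : ζ ≤ υ)
    (hυτ : υ < τ) (hlm : 0 < lm)
    (hJ : ∫ x in ζ..υ, (lm - lm / υ * x) / (τ - x) / x < Real.log (τ / ζ - 1) / τ)
    (hτθ : 2 * τ < θ) (hθ1 : θ ≤ 1) (hS2 : S ≤ 2) (hr : 1 / lm + S / υ ≤ R + 1) (ε : ℝ) (hε : 0 < ε)
    (hε1 : ε ≤ 1) (C1 c : ℝ) (hC1 : 1 ≤ C1) (hc : 0 < c) :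
    ∃ (r : ℕ) (x1 κ0 ε' : ℝ), 2 ≤ r ∧ 1 ≤ x1 ∧ 0 < κ0 ∧ 0 < ε' ∧ ε' ≤ 1 ∧ C1 * r * ε' ≤ ε ∧
      1 / (r : ℝ) ≤ ζ ∧ ∀ X2 : ℝ, x1 ≤ X2 → ∀ᶠ q : ℕ in atTop,
      (∀ p : ℕ, p.Prime → p ∣ q → p ≤ 2) → ∀ Z L : ℕ, (q : ℝ) ^ θ ≤ L →
      ∀ Q0 : ℕ → ℕ → Prop, PerB Q0 1 → c / Real.log q ≤ Vq Q0 ⌊(q : ℝ) ^ (1 / (r : ℝ))⌋₊ →
      ∀ (α β : ℕ → ℕ) (J : Finset ℕ), Fam α β J ⌊(q : ℝ) ^ (1 / (r : ℝ))⌋₊ →
        (∀ j ∈ J, ∀ m ∈ Ioc Z (Z + L), 1 ≤ α j * m + β j ∧ ((α j * m + β j : ℕ) : ℝ) ≤ (q : ℝ) ^ S) →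
        (J.card : ℝ) ≤ X2 / c * Real.log q →
        ∀ x : ℝ, V1B Q0 α β J ⌊(q : ℝ) ^ (1 / (r : ℝ))⌋₊ = Vq Q0 ⌊(q : ℝ) ^ (1 / (r : ℝ))⌋₊ * x → x1 ≤ x →
        V2B Q0 α β J ⌊(q : ℝ) ^ (1 / (r : ℝ))⌋₊ ≤
          (1 + ε' / 560) * (Vq Q0 ⌊(q : ℝ) ^ (1 / (r : ℝ))⌋₊ * x ^ 2) →
        ((BadB Q0 α β J q R ⌊(q : ℝ) ^ (1 / (r : ℝ))⌋₊ Z L ζ (κ0 * (x / 4))).card : ℝ) ≤
          ε' * (L * Vq Q0 ⌊(q : ℝ) ^ (1 / (r : ℝ))⌋₊) := by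
  have hτ0 : 0 < τ := by linarith
  have hτ1 : τ ≤ 1 := by linarith
  have hυ0 : 0 < υ := by linarith
  have hυ1 : υ ≤ 1 := by linarith
  have hθ0 : 0 < θ := by linarith
  have hlmυ : 0 ≤ lm / υ := by positivity
  obtain ⟨f0', F0, hf0', hF0, HL⟩ := lsw4 τ ζ υ lm (lm / υ) hζ h2 h4 hτ1 hζυ hυτ hlm.le hlmυ
    (by rw [div_mul_cancel₀ _ hυ0.ne']) hJ
  obtain ⟨f0, hf0d⟩ : ∃ f0 : ℝ, f0 = min f0' 1 := ⟨_, rfl⟩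
  have hf0 : 0 < f0 := by rw [hf0d]; exact lt_min hf0' one_pos
  have hf01 : f0 ≤ 1 := by rw [hf0d]; exact min_le_right _ _
  have hf0f : f0 ≤ f0' := by rw [hf0d]; exact min_le_left _ _
  obtain ⟨C0a, x0a, hC0a, Hsec⟩ := secondB
  obtain ⟨C0b, x0b, hC0b, Hcnt⟩ := countB
  obtain ⟨C0, hC0⟩ : ∃ C0 : ℕ, C0 = C0a + C0b := ⟨_, rfl⟩
  obtain ⟨m, r, G0, e', hmC, hm1, hr2, hrdef, hG1, hG2, hrζ, hrτ, he0, he1, hCe, hm⟩ :=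
    exists_cst7 θ τ ζ υ lm ε f0 C1 C0 hζ hυτ hlm hτθ hε hε1 hf0 hC1
  obtain ⟨η, hη⟩ : ∃ η : ℝ, η = e' / 560 := ⟨_, rfl⟩
  have hη0 : 0 < η := by rw [hη]; positivity
  have hη1 : η ≤ 1 := by rw [hη]; linarith
  obtain ⟨c1, hc1⟩ : ∃ c1 : ℝ, c1 = 1 + lm := ⟨_, rfl⟩
  obtain ⟨A, hA⟩ : ∃ A : ℝ, A = c1 * (1 + 3 * r) := ⟨_, rfl⟩
  obtain ⟨κ0, hκ0⟩ : ∃ κ0 : ℝ, κ0 = f0 / r := ⟨_, rfl⟩
  obtain ⟨R0, hR0⟩ : ∃ R0 : ℕ, R0 = 4 * r := ⟨_, rfl⟩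
  obtain ⟨x1, hx1⟩ : ∃ x1 : ℝ, x1 = 960 * (A * 2 ^ R0) ^ 2 / (κ0 ^ 2 * e') + 160 / e' + 1 := ⟨_, rfl⟩
  obtain ⟨γ, hγ⟩ : ∃ γ : ℝ, γ = θ - 2 * τ := ⟨_, rfl⟩
  have hcst : Cst θ τ ζ υ lm e' f0 c1 A κ0 x1 η γ c 1 C0 G0 m r R0 :=
    ⟨hc1, hA, hκ0, hR0, hx1, hη, hγ, hrdef, hf0, hc, one_pos, he0, he1, hlm, hζ, h2, hζυ, hυτ, hτθ, hθ1, hG1,
      by rw [hγ]; exact hG2, hm1, hr2, by rw [hc1]; exact hm, hrζ⟩
  obtain ⟨hA0, hκ00, hx11, hr0, hc10, hγ0, -, -⟩ := hcst.pos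
  have hx10 : 0 < x1 := by linarith
  refine ⟨r, x1, κ0, e', hr2, hx11, hκ00, he0, he1, hCe, hrζ, ?_⟩
  intro X2 hX2
  have hX20 : 0 < X2 := by linarith
  have hhalf : (1 / 2 : ℝ) ^ m ≤ η := by
    rw [hη]
    exact half_le c1 G0 f0 e' m hc10 (by exact_mod_cast hG1) hf0 hf01 hm1 he0 (by rw [hc1]; exact hm)
  obtain ⟨ηL, hηL, HY⟩ := HL (1 / (r : ℝ)) (by positivity) hrζ hrτ
  obtain ⟨Yb, hYb⟩ := exists_nat_ge (640 * A ^ 2 * (9 * (r : ℝ) ^ 3) / (κ0 ^ 2 * e'))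
  have ev1 := merg r hr2 υ (min ηL 1) hυ1 (lt_min hηL one_pos)
  have ev2 := Pool.Agent.Y879.GL.level_ok r hr2
  have ev3 := y_ge r hr2 (x0a + x0b + Yb + 2)
  have ev5 := logpow_rpow 3 (8 * (X2 / c) ^ 2 / (η * c)) (γ / 2) (by positivity) (by positivity)
  have ev6 := logpow_rpow 3 (16 * (X2 / c) ^ 2 * A ^ 2 / (κ0 ^ 2 * x1 ^ 2) * (20 / (e' * c))) (γ / 2)
    (by positivity) (by positivity)
  have ev7 := logpow_rpow 2 ((X2 / c) * 4 * (20 / (e' * c))) ζ (by positivity) hζ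
  have ev8 := logpow_rpow 1 4 ζ (by positivity) hζ
  filter_upwards [ev1, ev2, ev3, ev5, ev6, ev7, ev8, eventually_ge_atTop 2] with
    q hmer hlev hyg hE5 hE10 hE11 hE4 hq2
  clear ev1 ev2 ev3 ev5 ev6 ev7 ev8 HL
  obtain ⟨g1, g2, g3, g4, g5⟩ := hlev
  obtain ⟨y, hy⟩ : ∃ y, y = ⌊(q : ℝ) ^ (1 / (r : ℝ))⌋₊ := ⟨_, rfl⟩
  rw [← hy] at hmer g1 g2 g3 g4 hyg ⊢
  intro hqp Z L hqL Q0 hQ0 hV0l α β J hF hS hJ2 x hV1 hxl hV2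
  have hq1 : (1 : ℝ) ≤ q := by exact_mod_cast (by omega : 1 ≤ q)
  have hq0 : (0 : ℝ) < q := by linarith
  have hy1 : 1 ≤ y := by omega
  have hyr0 : (0 : ℝ) < y := by exact_mod_cast hy1
  obtain ⟨V0, hV0⟩ : ∃ V0, V0 = Vq Q0 y := ⟨_, rfl⟩
  rw [← hV0] at hV0l hV1 hV2 ⊢
  have hV0p : 0 < V0 := lt_of_lt_of_le (by positivity) hV0l
  obtain ⟨B, hB⟩ : ∃ B : ℝ, B = L * V0 := ⟨_, rfl⟩
  have hBlow : L * (c / Real.log q) ≤ B := by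
    rw [hB]
    exact mul_le_mul_of_nonneg_left hV0l (Nat.cast_nonneg _)
  rw [← hη] at hV2
  have hsqrt := sqrt_xx q r C0 m G0 γ (by omega) hγ0 hrdef hm1 hG1 (by rw [hγ]; exact hG2)
  rw [← hy] at hsqrt
  have hqq : (q : ℝ) ^ (γ / 2) * (q : ℝ) ^ (γ / 2) ≤ L := by
    refine le_trans ?_ hqL
    rw [← Real.rpow_add hq0]
    apply Real.rpow_le_rpow_of_exponent_le hq1
    rw [hγ]
    linarith
  have hEv := est_varB (J.card : ℝ) (√((y ^ (16 * (C0 * m)) : ℕ) : ℝ)) c X2 (Real.log q) η L ((q : ℝ) ^ (γ / 2)) B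
    hc (Nat.cast_nonneg _) hJ2 g5 (Real.sqrt_nonneg _) hsqrt hη0 hE5 hqq hBlow
  have hpow1 : y ^ (16 * (C0a * m)) ≤ y ^ (16 * (C0 * m)) := by
    apply Nat.pow_le_pow_right hy1
    apply Nat.mul_le_mul_left
    apply Nat.mul_le_mul_right
    omega
  have hpow2 : y ^ (16 * (C0b * m)) ≤ y ^ (16 * (C0 * m)) := by
    apply Nat.pow_le_pow_right hy1
    apply Nat.mul_le_mul_left
    apply Nat.mul_le_mul_right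
    omega
  obtain ⟨Hc0, Hc1⟩ := Hcnt m (by omega) (y ^ (16 * (C0 * m))) y (by omega) hy1 hpow2 Q0 hQ0 Z L
  obtain ⟨hvar1, hvar2⟩ := varB Q0 α β J y Z L ((1 / 2) ^ m) (√((y ^ (16 * (C0 * m)) : ℕ) : ℝ)) η x V0 B
    (Real.sqrt_nonneg _) (by positivity) hhalf hη1 hV0 hV0p hB hV1 (by linarith) Hc0
    (fun j hj j' hj' => Hc1 α β J hF j hj j' hj') hV2 hEv
  have hsing : V2B Q0 α β J y ≤ 2 * (V0 * x ^ 2) := by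
    refine hV2.trans ?_
    apply mul_le_mul_of_nonneg_right (by linarith)
    positivity
  have hyR0 : ∀ j ∈ J, ∀ n ∈ Ioc Z (Z + L), 1 ≤ α j * n + β j ∧ α j * n + β j ≤ y ^ R0 := by
    intro j hj n hn
    obtain ⟨b1, b2⟩ := hS j hj n hn
    refine ⟨b1, ?_⟩
    have a1 : ((α j * n + β j : ℕ) : ℝ) ≤ (q : ℝ) ^ (2 : ℕ) := by
      refine b2.trans ?_
      rw [← Real.rpow_natCast]
      apply Real.rpow_le_rpow_of_exponent_le hq1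
      push_cast
      exact hS2
    have a2 : (q : ℝ) ^ 2 ≤ (y : ℝ) ^ (4 * r) := by
      rw [← Real.log_le_log_iff (by positivity) (by positivity), Real.log_pow, Real.log_pow]
      rw [div_le_iff₀ (by positivity)] at g2
      push_cast
      linarith
    rw [hR0]
    exact_mod_cast a1.trans a2
  obtain ⟨cU, cL, hb1, hb2, hb3, hb4⟩ := HY q hq2
  have hMerL : Mer (pr q (1 / (r : ℝ)) υ) (tt q) (gg q y) (1 / (r : ℝ)) υ ηL :=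
    fun a b ha hab hb => (hmer a b ha hab hb).trans (min_le_left _ _)
  have hMer1 : Mer (pr q (1 / (r : ℝ)) υ) (tt q) (gg q y) (1 / (r : ℝ)) υ 1 :=
    fun a b ha hab hb => (hmer a b ha hab hb).trans (min_le_right _ _)
  have h4ζ : 4 ≤ (q : ℝ) ^ ζ := by
    rw [pow_one] at hE4
    linarith
  have hb4' : 1 / (r : ℝ) * f0 ≤ VV (pr q (1 / (r : ℝ)) υ) cL (gg q y) := by
    refine le_trans ?_ (hb4 (gg q y) (fun p _ => gg_nonneg q y p) hMerL).1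
    exact mul_le_mul_of_nonneg_left hf0f (by positivity)
  rw [← hB]
  exact oneqB hcst S R hr X2 hX2 q y Z L Q0 α β J hF hq2 (fun p hp hd => by
      have := hqp p hp hd
      omega) hy hy1 hqL hMer1 cL (fun U => (hb1 U).2)
    (fun U hU hne => hb2 U hU (Or.inr hne)) (fun N => (hb3 N).1) hb4' hS x V0 B hV0p hB hBlow hxl g5
    hJ2 hvar1 hvar2 hsing
    (fun P a A D hP ha hD hs => Hsec m (by omega) (y ^ (16 * (C0 * m))) y (by omega) hy1 hpow1 Q0 hQ0 α β J Z L R0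
      P a A D hF hP ha hD hs hyR0) Yb hYb (by exact_mod_cast (by omega : Yb ≤ y)) hE10 hE11 h4ζ

end Pool.Agent.R490.LPe
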