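import Pool.Agent.R490.LPf
import Pool.Agent.R490.LPd
import Pool.Agent.R490.LGc

set_option autoImplicit false

/-!
# Families of linear forms over the primes: splitting into classes
-/

namespace Pool.Agent.R490.LPg

open Finset Filter
open Pool.Agent.W123.RP Pool.Agent.H373R2.T7 Pool.Agent.W123.RU Pool.Agent.TH464.PO Pool.Agent.TH464.PW
open Pool.Agent.Y879.AP Pool.Agent.R490.LFa Pool.Agent.R490.LFb Pool.Agent.R490.LFc Pool.Agent.R490.LFd
open Pool.Agent.R490.LFe Pool.Agent.R490.LGa Pool.Agent.R490.LGb Pool.Agent.R490.LGc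
open Pool.Agent.R490.LPa Pool.Agent.R490.LPc Pool.Agent.R490.LPd Pool.Agent.R490.LPf

variable {A : ℕ → ℕ} {B : ℕ → ℤ} {D0 w1 : ℕ}

/-- the excess of a pair -/
noncomputable def excB (A : ℕ → ℕ) (B : ℕ → ℤ) (w y j j' : ℕ) : ℝ :=
  if j = j' then 0 else
    tw w y (A j) * tw w y (B j).natAbs * (tw w y (A j') * tw w y (B j').natAbs) * tw w y (Rs A B j j').natAbs - 1

lemma excB_nonneg (A : ℕ → ℕ) (B : ℕ → ℤ) (w y j j' : ℕ) : 0 ≤ excB A B w y j j' := by
  unfold excB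
  split_ifs
  · exact le_rfl
  · have h1 := one_le_mul_of_one_le_of_one_le (one_le_mul_of_one_le_of_one_le
      (one_le_mul_of_one_le_of_one_le (one_le_tw w y (A j)) (one_le_tw w y (B j).natAbs))
      (one_le_mul_of_one_le_of_one_le (one_le_tw w y (A j')) (one_le_tw w y (B j').natAbs)))
      (one_le_tw w y (Rs A B j j').natAbs)
    linarith

lemma cop_small (w n0 : ℕ) (hn : (Wp w).Coprime n0) : ∀ p : ℕ, p.Prime → p ≤ w → ∀ m, ¬ p ∣ Wp w * m + n0 := by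
  intro p hp hpw m hd
  have h1 : p ∣ Wp w * m := (dvd_Wp hp hpw).mul_right _
  have h2 : p ∣ n0 := (Nat.dvd_add_right h1).1 hd
  have h3 := Nat.dvd_gcd (dvd_Wp hp hpw) h2
  rw [hn] at h3
  exact hp.one_lt.ne' (Nat.dvd_one.1 h3)

/-- the sum of the densities -/
lemma V1B_cls (h : Dat A B D0 w1) (w K n0 y : ℕ) (hw2 : 2 ≤ w)
    (hF : Fam (al A w) (be A B n0) (Jn A B w K n0) y)
    (hn : (K + 1) ^ D0 + 2 ≤ n0) (hc : (Wp w).Coprime n0) :
    VW w y ^ 2 * (1 - 4 / (w : ℝ)) * (Jn A B w K n0).card ≤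
      V1B (Qc (Wp w) n0) (al A w) (be A B n0) (Jn A B w K n0) y := by
  classical
  have hsub : Jn A B w K n0 ⊆ Icc 1 K := filter_subset _ _
  unfold V1B
  have h1 : ∑ j ∈ Jn A B w K n0, VW w y ^ 2 * (1 - 4 / (w : ℝ)) ≤
      ∑ j ∈ Jn A B w K n0, Vq (QB (Qc (Wp w) n0) (al A w) (be A B n0) j) y := by
    apply sum_le_sum
    intro j hj
    apply V1B_ge _ _ _ _ _ _ _ hw2 hc (hF.cop j hj) (cop_small w n0 hc)
    intro p hp hpw m hd
    have h2 : p ∣ al A w j * m := ((dvd_Wp hp hpw).mul_left _).mul_right _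
    have h3 : p ∣ be A B n0 j := (Nat.dvd_add_right h2).1 hd
    apply (mem_filter.1 hj).2 p hp hpw
    rw [← (be_cast h K n0 j (hsub hj) hn).1]
    exact_mod_cast h3
  rw [sum_const, nsmul_eq_mul, mul_comm] at h1
  exact h1

/-- the sum of the pair densities -/
lemma V2B_cls (h : Dat A B D0 w1) (w K n0 y : ℕ) (hn : (K + 1) ^ D0 + 2 ≤ n0) :
    V2B (Qc (Wp w) n0) (al A w) (be A B n0) (Jn A B w K n0) y ≤
      VW w y ^ 3 * (((Jn A B w K n0).card : ℝ) ^ 2 + ∑ j ∈ Icc 1 K, ∑ j' ∈ Icc 1 K, excB A B w y j j') := by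
  classical
  have hsub : Jn A B w K n0 ⊆ Icc 1 K := filter_subset _ _
  have hVW := (VW_pos w y).le
  have hcom : ∀ j ∈ Jn A B w K n0, ∀ p : ℕ, p.Prime → w < p → ∀ m, p ∣ Wp w * m + n0 →
      p ∣ al A w j * m + be A B n0 j → p ∣ (B j).natAbs := by
    intro j hj p _ _ m hd hd'
    have e : ((al A w j * m + be A B n0 j : ℕ) : ℤ) = (A j : ℤ) * ((Wp w * m + n0 : ℕ) : ℤ) + B j := by
      push_cast
      rw [(be_cast h K n0 j (hsub hj) hn).1]
      unfold al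
      push_cast
      ring
    have h1 : (p : ℤ) ∣ ((al A w j * m + be A B n0 j : ℕ) : ℤ) := by exact_mod_cast hd'
    rw [e] at h1
    have h2 : (p : ℤ) ∣ (A j : ℤ) * ((Wp w * m + n0 : ℕ) : ℤ) := Dvd.dvd.mul_left (by exact_mod_cast hd) _
    exact Int.natCast_dvd.1 ((dvd_add_right h2).1 h1)
  have h1 : V2B (Qc (Wp w) n0) (al A w) (be A B n0) (Jn A B w K n0) y ≤
      ∑ j ∈ Jn A B w K n0, ∑ j' ∈ Jn A B w K n0, VW w y ^ 3 * (1 + excB A B w y j j') := by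
    unfold V2B
    apply sum_le_sum
    intro j hj
    apply sum_le_sum
    intro j' hj'
    unfold excB
    split_ifs with hne
    · have : 0 ≤ VW w y ^ 3 := pow_nonneg hVW 3
      linarith
    · rw [add_sub_cancel]
      apply V2B_le
      · intro p hp hw
        exact not_dvd_Wp hp hw
      · intro p hp hw hd
        rcases (Nat.Prime.dvd_mul hp).1 hd with h3 | h3
        · exact h3
        · exact absurd h3 (not_dvd_Wp hp hw)
      · intro p hp hw hd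
        rcases (Nat.Prime.dvd_mul hp).1 hd with h3 | h3
        · exact h3
        · exact absurd h3 (not_dvd_Wp hp hw)
      · exact hcom j hj
      · exact hcom j' hj'
      · intro p hp hw hd
        rw [res_eq h w K n0 j j' (hsub hj) (hsub hj') hn] at hd
        rcases (Nat.prime_iff_prime_int.1 hp).dvd_or_dvd hd with h3 | h3
        · exact absurd (by exact_mod_cast h3) (not_dvd_Wp hp hw)
        · exact Int.natCast_dvd.1 h3
  refine h1.trans ?_
  simp only [← mul_sum]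
  apply mul_le_mul_of_nonneg_left _ (pow_nonneg hVW 3)
  simp only [sum_add_distrib, sum_const, nsmul_eq_mul, mul_one]
  have h2 : ∑ j ∈ Jn A B w K n0, ∑ j' ∈ Jn A B w K n0, excB A B w y j j' ≤
      ∑ j ∈ Icc 1 K, ∑ j' ∈ Icc 1 K, excB A B w y j j' := by
    calc _ ≤ ∑ j ∈ Jn A B w K n0, ∑ j' ∈ Icc 1 K, excB A B w y j j' :=
          sum_le_sum fun j _ => sum_le_sum_of_subset_of_nonneg hsub (fun j' _ _ => excB_nonneg _ _ _ _ _ _)
      _ ≤ _ := sum_le_sum_of_subset_of_nonneg hsub (fun j _ _ => sum_nonneg fun j' _ => excB_nonneg _ _ _ _ _ _)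
  have e : ((Jn A B w K n0).card : ℝ) * (Jn A B w K n0).card = ((Jn A B w K n0).card : ℝ) ^ 2 := by ring
  rw [e]
  linarith

open Classical in
/-- the exceptional primes of a class -/
lemma cls_cardB (h : Dat A B D0 w1) (w K n0 q R y Z L : ℕ) (ζ t t' v : ℝ) (hn : (K + 1) ^ D0 + 2 ≤ n0)
    (ht : t ≤ t') (hv : v ≤ (q : ℝ) ^ ζ) :
    ((Ioc Z (Z + L)).filter (fun n => n ≡ n0 [MOD Wp w] ∧ n0 < n ∧ n.Prime ∧ y < n ∧
      (cnt A B R K n v : ℝ) < t)).card ≤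
      (BadB (Qc (Wp w) n0) (al A w) (be A B n0) (Jn A B w K n0) q R y ((Z - n0) / Wp w) (L / Wp w + 1) ζ t').card := by
  have hW := Wp_pos w
  apply card_le_card_of_injOn (fun n => (n - n0) / Wp w)
  · intro n hn'
    rw [mem_coe, mem_filter, mem_Ioc] at hn'
    obtain ⟨⟨h1, h2⟩, h3, h4, hnp, hyn, h5⟩ := hn'
    obtain ⟨m, hm⟩ : ∃ m, n = n0 + Wp w * m := by
      have : Wp w ∣ n - n0 := (Nat.modEq_iff_dvd' h4.le).1 h3.symm
      obtain ⟨m, hm⟩ := this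
      exact ⟨m, by omega⟩
    have hm2 : (n - n0) / Wp w = m := by
      rw [hm, Nat.add_sub_cancel_left, Nat.mul_div_cancel_left _ hW]
    have hm1 : 1 ≤ m := by
      by_contra hc
      have : m = 0 := by omega
      subst this
      omega
    show (n - n0) / Wp w ∈ _
    rw [hm2]
    unfold BadB SB
    rw [mem_coe, mem_filter, mem_filter, mem_Ioc]
    refine ⟨⟨⟨?_, ?_⟩, ?_⟩, ?_⟩
    · rw [Nat.div_lt_iff_lt_mul hW, mul_comm]
      rcases Nat.eq_zero_or_pos (Z - n0) with h6 | h6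
      · rw [h6]
        exact Nat.mul_pos hW hm1
      · omega
    · rw [← hm2]
      have h6 : n - n0 ≤ (Z - n0) + L := by omega
      have h7 := Nat.div_le_div_right (c := Wp w) h6
      refine h7.trans ?_
      have h8 : Z - n0 = Wp w * ((Z - n0) / Wp w) + (Z - n0) % Wp w := (Nat.div_add_mod _ _).symm
      have h9 : L = Wp w * (L / Wp w) + L % Wp w := (Nat.div_add_mod _ _).symm
      have h10 := Nat.mod_lt (Z - n0) hW
      have h11 := Nat.mod_lt L hW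
      rw [← Nat.lt_add_one_iff, Nat.div_lt_iff_lt_mul hW]
      have e : ((Z - n0) / Wp w + (L / Wp w + 1) + 1) * Wp w =
        Wp w * ((Z - n0) / Wp w) + Wp w * (L / Wp w) + Wp w + Wp w := by ring
      rw [e]
      omega
    · intro p hp hd
      unfold Qc at hd
      have e : Wp w * m + n0 = n := by omega
      rw [e] at hd
      have hp' := mem_pz.1 hp
      have := (Nat.prime_dvd_prime_iff_eq hp'.2 hnp).1 hd
      omega
    · refine lt_of_le_of_lt ?_ (h5.trans_le ht)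
      have h6 : (GoodF (al A w) (be A B n0) (Jn A B w K n0) q R m ζ).card ≤ cnt A B R K n v := by
        unfold GoodF cnt
        apply card_le_card
        intro j hj
        rw [mem_filter] at hj ⊢
        obtain ⟨g1, g2, g3⟩ := hj
        have hjK : j ∈ Icc 1 K := filter_subset _ _ g1
        obtain ⟨b1, b2⟩ := be_cast h K n0 j hjK hn
        have e1 : (A j : ℤ) * n + B j = ((al A w j * m + be A B n0 j : ℕ) : ℤ) := by
          push_cast
          rw [b1, hm]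
          unfold al
          push_cast
          ring
        rw [e1]
        refine ⟨hjK, ?_, ?_, ?_⟩
        · exact_mod_cast (by omega : 2 ≤ al A w j * m + be A B n0 j)
        · rw [Int.toNat_natCast]
          exact g2
        · intro p hp hd
          exact hv.trans (g3 p hp (by exact_mod_cast hd))
      exact_mod_cast h6
  · intro a ha b hb hab
    rw [mem_coe, mem_filter] at ha hb
    simp only at hab
    obtain ⟨-, a1, a2, -⟩ := ha
    obtain ⟨-, b1, b2, -⟩ := hb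
    obtain ⟨ma, hma⟩ := (Nat.modEq_iff_dvd' a2.le).1 a1.symm
    obtain ⟨mb, hmb⟩ := (Nat.modEq_iff_dvd' b2.le).1 b1.symm
    rw [hma, hmb, Nat.mul_div_cancel_left _ hW, Nat.mul_div_cancel_left _ hW] at hab
    rw [hab] at hma
    omega

open Classical in
/-- one class -/
lemma oneClassB (h : Dat A B D0 w1) (Adm : ℕ → Prop) (w K n0 q y R Z L X : ℕ) (hw1 : w1 ≤ w)
    (hn : (K + 1) ^ D0 + 2 ≤ n0) (hX : n0 + Wp w ≤ X) (hZL : Z + L ≤ X) (hwy : w ≤ y)
    (hK : 2 * (K + 1) ^ (2 * D0) ≤ y) (hc0 : (Wp w).Coprime n0)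
    (θ ζ S X2 x1 κ0 ε c δ t v : ℝ) (hδK : 0 < δ * K)
    (hmain : ∀ Z L : ℕ, (q : ℝ) ^ θ ≤ L → ∀ Q0 : ℕ → ℕ → Prop, PerB Q0 1 → c / Real.log q ≤ Vq Q0 y →
        ∀ (α β : ℕ → ℕ) (J : Finset ℕ), Fam α β J y →
        (∀ j ∈ J, ∀ m ∈ Ioc Z (Z + L), 1 ≤ α j * m + β j ∧ ((α j * m + β j : ℕ) : ℝ) ≤ (q : ℝ) ^ S) →
        (J.card : ℝ) ≤ X2 / c * Real.log q → ∀ x : ℝ, V1B Q0 α β J y = Vq Q0 y * x → x1 ≤ x →
        V2B Q0 α β J y ≤ (1 + ε / 560) * (Vq Q0 y * x ^ 2) →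
        ((BadB Q0 α β J q R y Z L ζ (κ0 * (x / 4))).card : ℝ) ≤ ε * (L * Vq Q0 y))
    (hL : (q : ℝ) ^ θ ≤ ((L / Wp w + 1 : ℕ) : ℝ)) (hS : ((3 * (K + 1) ^ D0 * X : ℕ) : ℝ) ≤ (q : ℝ) ^ S)
    (hVc : c / Real.log q ≤ VW w y)
    (hKl : (K : ℝ) ≤ X2 / c * Real.log q) (hx1 : x1 ≤ VW w y * (δ * K) / 2) (hε : 0 < ε) (hε1 : ε ≤ 1)
    (hκ0 : 0 < κ0) (hw32 : 32 * 560 / ε ≤ w)
    (hexc : ∑ j ∈ Icc 1 K, ∑ j' ∈ Icc 1 K, excB A B w y j j' ≤ ε / 560 / 2 * (δ * K) ^ 2)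
    (hcard : ∀ n : ℕ, Adm n → δ * K ≤ (Jn A B w K n).card)
    (ht : t ≤ κ0 * (VW w y * (δ * K) / 2 / 4)) (hv : v ≤ (q : ℝ) ^ ζ) :
    (((Ioc Z (Z + L)).filter (fun n => n ≡ n0 [MOD Wp w] ∧ n0 < n ∧ n.Prime ∧ y < n ∧ Adm n ∧
      (cnt A B R K n v : ℝ) < t)).card : ℝ) ≤ ε * (((L / Wp w + 1 : ℕ) : ℝ) * VW w y) := by
  obtain ⟨T, hT⟩ : ∃ T, T = (Ioc Z (Z + L)).filter (fun n => n ≡ n0 [MOD Wp w] ∧ n0 < n ∧ n.Prime ∧ y < n ∧
      Adm n ∧ (cnt A B R K n v : ℝ) < t) := ⟨_, rfl⟩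
  rw [← hT]
  have hVW := VW_pos w y
  rcases T.eq_empty_or_nonempty with hemp | ⟨n, hn'⟩
  · rw [hemp, card_empty, Nat.cast_zero]
    positivity
  rw [hT, mem_filter] at hn'
  obtain ⟨-, hnn, -, -, -, hadm, -⟩ := hn'
  have hJc : δ * K ≤ (Jn A B w K n0).card := by
    rw [← Jn_congr A B w K n n0 hnn]
    exact hcard n hadm
  have hw0 : (0 : ℝ) < w := lt_of_lt_of_le (by positivity) hw32
  have hwε : 32 / (w : ℝ) ≤ ε / 560 := by
    rw [div_le_iff₀ hε] at hw32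
    rw [div_le_iff₀ hw0]
    linarith
  have hw17 : (32 * 560 : ℝ) ≤ w := by
    refine le_trans ?_ hw32
    rw [le_div_iff₀ hε]
    nlinarith
  have hw2 : 2 ≤ w := by exact_mod_cast (by linarith : (2 : ℝ) ≤ w)
  have hF := fam_cls h w K n0 y hw1 hn hwy hK
  have hV0 : Vq (Qc (Wp w) n0) y = VW w y :=
    dens_base (Wp w) n0 w y hc0 (fun p hp hw => not_dvd_Wp hp hw) (cop_small w n0 hc0)
  have hV1 := V1B_cls h w K n0 y hw2 hF hn hc0
  have hV2 := V2B_cls h w K n0 y hn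
  obtain ⟨x, hx⟩ : ∃ x, x = V1B (Qc (Wp w) n0) (al A w) (be A B n0) (Jn A B w K n0) y / VW w y := ⟨_, rfl⟩
  have hxe : V1B (Qc (Wp w) n0) (al A w) (be A B n0) (Jn A B w K n0) y = VW w y * x := by
    rw [hx]
    field_simp
  obtain ⟨nJ, hnJ⟩ : ∃ nJ : ℝ, nJ = (Jn A B w K n0).card := ⟨_, rfl⟩
  obtain ⟨s, hs⟩ : ∃ s : ℝ, s = 4 / (w : ℝ) := ⟨_, rfl⟩
  have hs8 : 8 * s ≤ ε / 560 := by rw [hs]; linarith [show 8 * (4 / (w : ℝ)) = 32 / w by ring]
  have hs0 : 0 < s := by rw [hs]; positivity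
  rw [← hs, ← hnJ, hxe] at hV1
  rw [← hnJ] at hV2 hJc
  have hxlow : VW w y * ((1 - s) * nJ) ≤ x := by
    have a1 : VW w y * (VW w y * ((1 - s) * nJ)) ≤ VW w y * x := by
      refine le_trans (le_of_eq ?_) hV1
      ring
    exact le_of_mul_le_mul_left a1 hVW
  have hs2 : s ≤ 1 / 2 := by linarith
  have hV1x : VW w y * (δ * K) / 2 ≤ x := by
    refine le_trans ?_ hxlow
    have a1 : δ * K / 2 ≤ (1 - s) * nJ := by nlinarith
    calc VW w y * (δ * K) / 2 = VW w y * (δ * K / 2) := by ring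
      _ ≤ _ := mul_le_mul_of_nonneg_left a1 hVW.le
  have hKc : ((Jn A B w K n0).card : ℝ) ≤ K := by
    have : (Jn A B w K n0).card ≤ (Icc 1 K).card := card_le_card (filter_subset _ _)
    rw [Nat.card_Icc, Nat.add_sub_cancel] at this
    exact_mod_cast this
  have hbad := hmain ((Z - n0) / Wp w) (L / Wp w + 1) hL (Qc (Wp w) n0) (perB_Qc (Wp w) n0 hc0)
    (by rw [hV0]; exact hVc) (al A w) (be A B n0) (Jn A B w K n0) hF
    (by
      intro j hj m hm
      obtain ⟨a1, a2⟩ := size_cls h w K n0 Z L X hn hX hZL j (filter_subset _ _ hj) m hm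
      exact ⟨a1, le_trans (by exact_mod_cast a2) hS⟩)
    (hKc.trans hKl) x (by rw [hV0]; exact hxe) (hx1.trans hV1x)
    (by
      rw [hV0]
      refine hV2.trans ?_
      have hnJ0 : 0 < nJ := lt_of_lt_of_le hδK hJc
      have a1 : nJ ^ 2 + ∑ j ∈ Icc 1 K, ∑ j' ∈ Icc 1 K, excB A B w y j j' ≤
          (1 + ε / 560) * ((1 - s) * nJ) ^ 2 := by
        have a2 : (δ * K) ^ 2 ≤ nJ ^ 2 := pow_le_pow_left₀ hδK.le hJc 2
        have a3 : ε / 560 / 2 * (δ * K) ^ 2 ≤ ε / 560 / 2 * nJ ^ 2 := mul_le_mul_of_nonneg_left a2 (by positivity)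
        have a4 : 1 + ε / 560 / 2 ≤ (1 + ε / 560) * (1 - s) ^ 2 := by
          have b1 : 1 - 2 * s ≤ (1 - s) ^ 2 := by nlinarith
          have b2 : 1 - ε / 560 / 4 ≤ (1 - s) ^ 2 := by linarith
          have b3 : (1 + ε / 560) * (1 - ε / 560 / 4) ≤ (1 + ε / 560) * (1 - s) ^ 2 :=
            mul_le_mul_of_nonneg_left b2 (by positivity)
          nlinarith
        calc _ ≤ (1 + ε / 560 / 2) * nJ ^ 2 := by linarith
          _ ≤ ((1 + ε / 560) * (1 - s) ^ 2) * nJ ^ 2 := mul_le_mul_of_nonneg_right a4 (sq_nonneg _)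
          _ = _ := by ring
      calc VW w y ^ 3 * (nJ ^ 2 + ∑ j ∈ Icc 1 K, ∑ j' ∈ Icc 1 K, excB A B w y j j') ≤
          VW w y ^ 3 * ((1 + ε / 560) * ((1 - s) * nJ) ^ 2) := mul_le_mul_of_nonneg_left a1 (pow_nonneg hVW.le 3)
        _ = (1 + ε / 560) * (VW w y * (VW w y * ((1 - s) * nJ)) ^ 2) := by ring
        _ ≤ (1 + ε / 560) * (VW w y * x ^ 2) := by
            apply mul_le_mul_of_nonneg_left _ (by positivity)
            apply mul_le_mul_of_nonneg_left _ hVW.le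
            apply pow_le_pow_left₀ _ hxlow 2
            apply mul_nonneg hVW.le
            apply mul_nonneg _ hnJ0.le
            linarith)
  rw [hV0] at hbad
  refine le_trans ?_ hbad
  have h1 := cls_cardB h w K n0 q R y Z L ζ t (κ0 * (x / 4)) v hn
    (ht.trans (by
      apply mul_le_mul_of_nonneg_left _ hκ0.le
      linarith)) hv
  have h2 : T.card ≤ ((Ioc Z (Z + L)).filter (fun n => n ≡ n0 [MOD Wp w] ∧ n0 < n ∧ n.Prime ∧ y < n ∧
      (cnt A B R K n v : ℝ) < t)).card := by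
    rw [hT]
    apply card_le_card
    intro n hn
    rw [mem_filter] at hn ⊢
    exact ⟨hn.1, hn.2.1, hn.2.2.1, hn.2.2.2.1, hn.2.2.2.2.1, hn.2.2.2.2.2.2⟩
  exact_mod_cast h2.trans h1

/-- the number of the reduced classes -/
lemma totient_Wp (w : ℕ) : ((Wp w).totient : ℝ) = Wp w * Vz w := by
  have h1 : (Wp w).primeFactors = pz w := Nat.primeFactors_prod (fun p hp => (mem_pz.1 hp).2)
  have h2 := Nat.totient_eq_mul_prod_factors (Wp w)
  rw [h1] at h2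
  have h3 : (((Wp w).totient : ℚ) : ℝ) = ((((Wp w : ℚ) * ∏ p ∈ pz w, (1 - (p : ℚ)⁻¹)) : ℚ) : ℝ) := by rw [h2]
  push_cast at h3
  rw [h3]
  unfold Vz
  congr 1
  apply prod_congr rfl
  intro p _
  rw [one_div]

lemma Vz_VW (w y : ℕ) (h : w ≤ y) : Vz w * VW w y = Vz y := by
  classical
  unfold Vz VW
  have h1 : ∏ p ∈ pz w, (1 - 1 / (p : ℝ)) = ∏ p ∈ pz y, (if p ≤ w then 1 - 1 / (p : ℝ) else 1) := by
    rw [← prod_filter]
    apply prod_congr _ (fun _ _ => rfl)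
    ext p
    rw [mem_filter, mem_pz, mem_pz]
    constructor
    · rintro ⟨h1, h2⟩
      exact ⟨⟨h1.trans h, h2⟩, h1⟩
    · rintro ⟨⟨_, h2⟩, h1⟩
      exact ⟨h1, h2⟩
  rw [h1, ← prod_mul_distrib]
  apply prod_congr rfl
  intro p _
  by_cases hp : p ≤ w
  · rw [if_pos hp, if_neg (by omega), mul_one]
  · rw [if_neg hp, if_pos (by omega), one_mul]

open Classical in
/-- the sum over the classes -/
lemma all_classesB (A : ℕ → ℕ) (B : ℕ → ℤ) (Adm : ℕ → Prop) (w K R Z L t0 y : ℕ) (ε t v : ℝ) (hε : 0 < ε)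
    (hwy : w ≤ y) (hWL : Wp w ≤ L)
    (h : ∀ a < Wp w, (Wp w).Coprime a →
      (((Ioc Z (Z + L)).filter (fun n => n ≡ a + Wp w * t0 [MOD Wp w] ∧ a + Wp w * t0 < n ∧ n.Prime ∧ y < n ∧
      Adm n ∧ (cnt A B R K n v : ℝ) < t)).card : ℝ) ≤ ε * (((L / Wp w + 1 : ℕ) : ℝ) * VW w y)) :
    (((Ioc Z (Z + L)).filter (fun n => n.Prime ∧ Adm n ∧ (cnt A B R K n v : ℝ) < t)).card : ℝ) ≤
      Wp w * (t0 + 2) + y + 2 * ε * (L * Vz y) := by
  have hW := Wp_pos w
  have hW0 : (0 : ℝ) < Wp w := by exact_mod_cast hW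
  obtain ⟨n1, hn1d⟩ : ∃ n1, n1 = Wp w * (t0 + 2) + y := ⟨_, rfl⟩
  have hsub : (Ioc Z (Z + L)).filter (fun n => n.Prime ∧ Adm n ∧ (cnt A B R K n v : ℝ) < t) ⊆
      Ioc 0 n1 ∪ ((range (Wp w)).filter (fun a => (Wp w).Coprime a)).biUnion (fun a =>
        (Ioc Z (Z + L)).filter (fun n =>
        n ≡ a + Wp w * t0 [MOD Wp w] ∧ a + Wp w * t0 < n ∧ n.Prime ∧ y < n ∧ Adm n ∧
          (cnt A B R K n v : ℝ) < t)) := by
    intro n hn
    rw [mem_filter, mem_Ioc] at hn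
    obtain ⟨⟨h1, h2⟩, hnp, h3, h4⟩ := hn
    rw [mem_union]
    by_cases hc : n ≤ n1
    · left
      rw [mem_Ioc]
      omega
    · right
      rw [mem_biUnion]
      have hmod := Nat.mod_lt n hW
      refine ⟨n % Wp w, mem_filter.2 ⟨mem_range.2 hmod, ?_⟩, ?_⟩
      · rw [Nat.coprime_iff_gcd_eq_one]
        by_contra hne
        obtain ⟨p, hp, hpd⟩ := Nat.exists_prime_and_dvd hne
        have d1 : p ∣ Wp w := hpd.trans (Nat.gcd_dvd_left _ _)
        have d2 : p ∣ n % Wp w := hpd.trans (Nat.gcd_dvd_right _ _)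
        have d3 : p ∣ n := (Nat.dvd_mod_iff d1).1 d2
        have d4 := (Nat.prime_dvd_prime_iff_eq hp hnp).1 d3
        have d5 : ¬ w < p := fun hw => not_dvd_Wp hp hw d1
        omega
      · rw [mem_filter, mem_Ioc]
        have e1 : Wp w * (t0 + 2) = Wp w * t0 + 2 * Wp w := by ring
        refine ⟨⟨h1, h2⟩, ?_, by omega, hnp, by omega, h3, h4⟩
        have e1 : n % Wp w + Wp w * t0 ≡ n % Wp w + 0 [MOD Wp w] :=
          (Nat.modEq_zero_iff_dvd.2 (dvd_mul_right _ _)).add_left _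
        rw [add_zero] at e1
        exact ((Nat.mod_modEq n (Wp w)).symm).trans e1.symm
  have h1 : (((Ioc Z (Z + L)).filter (fun n => n.Prime ∧ Adm n ∧ (cnt A B R K n v : ℝ) < t)).card : ℝ) ≤
      n1 + ∑ a ∈ (range (Wp w)).filter (fun a => (Wp w).Coprime a),
        ε * (((L / Wp w + 1 : ℕ) : ℝ) * VW w y) := by
    have a1 := (card_le_card hsub).trans ((card_union_le _ _).trans (Nat.add_le_add_left card_biUnion_le _))
    rw [Nat.card_Ioc, Nat.sub_zero] at a1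
    have a2 : (((Ioc Z (Z + L)).filter (fun n => n.Prime ∧ Adm n ∧ (cnt A B R K n v : ℝ) < t)).card : ℝ) ≤
        n1 + ∑ a ∈ (range (Wp w)).filter (fun a => (Wp w).Coprime a), (((Ioc Z (Z + L)).filter (fun n =>
        n ≡ a + Wp w * t0 [MOD Wp w] ∧ a + Wp w * t0 < n ∧ n.Prime ∧ y < n ∧ Adm n ∧
          (cnt A B R K n v : ℝ) < t)).card : ℝ) := by
      exact_mod_cast a1
    refine a2.trans ?_
    apply add_le_add le_rfl
    exact sum_le_sum fun a ha => h a (mem_range.1 (mem_filter.1 ha).1) (mem_filter.1 ha).2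
  have htot : ((range (Wp w)).filter (fun a => (Wp w).Coprime a)).card = (Wp w).totient := by
    rw [Nat.totient]
  rw [sum_const, nsmul_eq_mul, htot, totient_Wp] at h1
  have h2 : (Wp w : ℝ) * ((L / Wp w + 1 : ℕ) : ℝ) ≤ 2 * L := by
    have : Wp w * (L / Wp w + 1) ≤ 2 * L := by
      have := Nat.mul_div_le L (Wp w)
      rw [mul_add, mul_one]
      omega
    exact_mod_cast this
  have hVz0 : 0 ≤ Vz w := by
    unfold Vz
    exact prod_nonneg fun p hp => (one_sub_pos (mem_pz.1 hp).2).1.le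
  have h5 : (Wp w : ℝ) * Vz w * (ε * (((L / Wp w + 1 : ℕ) : ℝ) * VW w y)) ≤ 2 * ε * (L * Vz y) := by
    have e : (Wp w : ℝ) * Vz w * (ε * (((L / Wp w + 1 : ℕ) : ℝ) * VW w y)) =
      ε * (((Wp w : ℝ) * ((L / Wp w + 1 : ℕ) : ℝ)) * (Vz w * VW w y)) := by ring
    rw [e, Vz_VW w y hwy]
    have hVy : 0 ≤ Vz y := by
      unfold Vz
      exact prod_nonneg fun p hp => (one_sub_pos (mem_pz.1 hp).2).1.le
    calc ε * (((Wp w : ℝ) * ((L / Wp w + 1 : ℕ) : ℝ)) * Vz y) ≤ ε * ((2 * L) * Vz y) := by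
          apply mul_le_mul_of_nonneg_left _ hε.le
          exact mul_le_mul_of_nonneg_right h2 hVy
      _ = _ := by ring
  have h6 : (n1 : ℝ) = Wp w * (t0 + 2) + y := by
    rw [hn1d]
    push_cast
    ring
  rw [h6] at h1
  linarith

end Pool.Agent.R490.LPg
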