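import Pool.Agent.R490.LPg
import Pool.Agent.R490.LPe
import Pool.Agent.R490.LGe

set_option autoImplicit false

/-!
# Families of linear forms over the primes: almost primes for almost all primes
-/

namespace Pool.Agent.R490.LPh

open Finset Filter
open Pool.Agent.W123.RP Pool.Agent.H373R2.T7 Pool.Agent.W123.RU Pool.Agent.TH464.PO Pool.Agent.TH464.PW
open Pool.Agent.Y879.AP Pool.Agent.R490.P3b Pool.Agent.R490.LFa Pool.Agent.R490.LFb Pool.Agent.R490.LFc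
open Pool.Agent.R490.LFd
open Pool.Agent.R490.LFe Pool.Agent.R490.LGa Pool.Agent.R490.LGb Pool.Agent.R490.LGc Pool.Agent.R490.LGd
open Pool.Agent.R490.LGe
open Pool.Agent.R490.LPa Pool.Agent.R490.LPc Pool.Agent.R490.LPd Pool.Agent.R490.LPe Pool.Agent.R490.LPf
open Pool.Agent.R490.LPg

/-- the last computation -/
lemma fin_comp (W t0 y L lX ρ Cv ε ε1 e' r ly lq Vy : ℝ) (hL : 0 ≤ L) (hlX : 1 ≤ lX) (hCv : 0 < Cv) (he' : 0 < e')
    (hr : 0 < r) (hε : 0 < ε) (hsm : W * (t0 + 2) + y ≤ ρ) (hρ : ρ * lX ≤ ε / 2 * L)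
    (hVy : Vy ≤ Cv / ly) (hly : lq / (2 * r) ≤ ly) (hlq : lX ≤ 2 * lq) (hC : 16 * Cv * r * e' ≤ ε1)
    (hε1 : ε1 ≤ ε) :
    W * (t0 + 2) + y + 2 * e' * (L * Vy) ≤ ε * L / lX := by
  have hlX0 : 0 < lX := by linarith
  have hlq0 : 0 < lq := by linarith
  have hly0 : 0 < ly := lt_of_lt_of_le (by positivity) hly
  have a1 : W * (t0 + 2) + y ≤ ε / 2 * L / lX := by
    rw [le_div_iff₀ hlX0]
    refine le_trans ?_ hρ
    exact mul_le_mul_of_nonneg_right hsm hlX0.le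
  have a2 : Vy ≤ 4 * r * Cv / lX := by
    refine hVy.trans ?_
    rw [div_le_div_iff₀ hly0 hlX0]
    have b1 : lX ≤ 4 * r * ly := by
      rw [div_le_iff₀ (by positivity)] at hly
      linarith
    nlinarith [mul_le_mul_of_nonneg_left b1 hCv.le]
  have a3 : 2 * e' * (L * Vy) ≤ 2 * e' * (L * (4 * r * Cv / lX)) := by
    apply mul_le_mul_of_nonneg_left _ (by positivity)
    exact mul_le_mul_of_nonneg_left a2 hL
  have a4 : 2 * e' * (L * (4 * r * Cv / lX)) = (16 * Cv * r * e') / 2 * L / lX := by ring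
  have a5 : (16 * Cv * r * e') / 2 * L / lX ≤ ε / 2 * L / lX := by
    apply div_le_div_of_nonneg_right _ hlX0.le
    apply mul_le_mul_of_nonneg_right _ hL
    linarith
  have a6 : ε / 2 * L / lX + ε / 2 * L / lX = ε * L / lX := by ring
  linarith

open Classical in
/-- **Almost primes for almost all primes.** -/
theorem mainP {A : ℕ → ℕ} {B : ℕ → ℤ} {D0 w1 : ℕ} (h : Dat A B D0 w1) (Adm : ℕ → Prop)
    (hAvg : ∀ η : ℝ, 0 < η → ∀ w0 : ℕ, ∃ (w K0 : ℕ) (δ : ℝ), w0 ≤ w ∧ 0 < δ ∧ ∀ K : ℕ, K0 ≤ K →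
      (∀ y : ℕ, ∑ j ∈ Icc 1 K, ∑ j' ∈ Icc 1 K, excB A B w y j j' ≤ η * (δ * K) ^ 2) ∧
      (∀ n : ℕ, Adm n → δ * K ≤ (Jn A B w K n).card))
    (θ ε : ℝ) (k : ℕ) (hθ : 0 < θ) (hθ1 : θ ≤ 1) (hk : 1 / 8 + 25 / (12 * θ) < k) (hε : 0 < ε) :
    ∃ c Λ : ℝ, 0 < c ∧ 0 < Λ ∧ ∀ l : ℝ, Λ ≤ l → ∀ᶠ X : ℕ in atTop, ∀ Z L : ℕ,
      (X : ℝ) ^ θ ≤ L → Z + L ≤ X →
      (((Ioc Z (Z + L)).filter (fun n => n.Prime ∧ Adm n ∧
        (cnt A B k ⌊l * Real.log X⌋₊ n ((X : ℝ) ^ (θ / 10)) : ℝ) < c * l)).card : ℝ) ≤ ε * L / Real.log X := by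
  obtain ⟨τ, S0, p1, p2, p3, p4⟩ := Pool.Agent.R490.P3m.params θ k hθ hk
  have hτ : 0 < τ := by linarith
  obtain ⟨S, hS⟩ : ∃ S, S = min S0 2 := ⟨_, rfl⟩
  have hS1 : 1 < S := by rw [hS]; exact lt_min p3 (by norm_num)
  have hS2 : S ≤ 2 := by rw [hS]; exact min_le_right _ _
  have hSS : S ≤ S0 := by rw [hS]; exact min_le_left _ _
  have p4' : 1 / (8 / 9 : ℝ) + S / (24 / 25 * τ) ≤ k + 1 := by
    have : S / (24 / 25 * τ) ≤ S0 / (24 / 25 * τ) := div_le_div_of_nonneg_right hSS (by positivity)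
    norm_num at p4 this ⊢
    linarith
  obtain ⟨cz, Cv, hcz, hCv, hV⟩ := Vz_bounds
  obtain ⟨ε1, hε1⟩ : ∃ ε1, ε1 = min ε 1 := ⟨_, rfl⟩
  have hε10 : 0 < ε1 := by rw [hε1]; exact lt_min hε one_pos
  have hε11 : ε1 ≤ 1 := by rw [hε1]; exact min_le_right _ _
  have hε13 : ε1 ≤ ε := by rw [hε1]; exact min_le_left _ _
  have hJ := Pool.Agent.Y882.KW.cond_A τ (8 / 9) hτ (by norm_num) (by norm_num)
  obtain ⟨r, x1, κ0, e', hr2, hx1, hκ0, he0, he1, hCe, hrζ, hmain⟩ := mainB θ τ (τ / 4) (24 / 25 * τ) (8 / 9) S k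
    (by positivity)
    (by linarith) (by linarith) (by linarith) (by linarith) (by norm_num) hJ p2 hθ1 hS2 p4' ε1 hε10 hε11
    (max 1 (16 * Cv)) cz (le_max_left _ _) hcz
  have hr0 : (0 : ℝ) < r := by exact_mod_cast (by omega : 0 < r)
  have hCe' : 16 * Cv * r * e' ≤ ε1 := by
    refine le_trans ?_ hCe
    apply mul_le_mul_of_nonneg_right _ he0.le
    exact mul_le_mul_of_nonneg_right (le_max_right _ _) hr0.le
  obtain ⟨w, K0, δ, hw0, hδ, hKK⟩ := hAvg (e' / 560 / 2) (by positivity) (w1 + ⌈32 * 560 / e'⌉₊)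
  have hw1 : w1 ≤ w := by omega
  have hw32 : 32 * 560 / e' ≤ w := (Nat.le_ceil _).trans (by exact_mod_cast (by omega : ⌈32 * 560 / e'⌉₊ ≤ w))
  refine ⟨κ0 * (cz * δ) / 16, 4 * x1 / (cz * δ), by positivity, by positivity, ?_⟩
  intro l hl
  have hl0 : 0 < l := lt_of_lt_of_le (by positivity) hl
  have hlx : x1 ≤ cz * δ * l / 2 / 2 := by
    rw [div_le_iff₀ (by positivity)] at hl
    linarith
  obtain ⟨X2, hX2⟩ : ∃ X2 : ℝ, X2 = max x1 (2 * l * cz) := ⟨_, rfl⟩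
  obtain ⟨q1, hq1⟩ := eventually_atTop.1 ((hmain X2 (by rw [hX2]; exact le_max_left _ _)).and
    (Pool.Agent.Y879.GL.level_ok r hr2))
  obtain ⟨D, hD⟩ : ∃ D : ℕ, D = ⌈(Wp w : ℝ) ^ (1 / θ)⌉₊ := ⟨_, rfl⟩
  have hW := Wp_pos w
  have hW1 : (1 : ℝ) ≤ Wp w := by exact_mod_cast hW
  have hDW : (Wp w : ℝ) ^ (1 / θ) ≤ D := by rw [hD]; exact Nat.le_ceil _
  have hD1 : 1 ≤ D := by
    have : (1 : ℝ) ≤ (Wp w : ℝ) ^ (1 / θ) := Real.one_le_rpow hW1 (by positivity)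
    exact_mod_cast this.trans hDW
  obtain ⟨ρ, hρ⟩ : ∃ ρ : ℝ, ρ = max (9 / 10) ((1 + 1 / S) / 2) := ⟨_, rfl⟩
  have hS0 : 0 < S := by linarith
  have hSi : 1 / S < 1 := by rw [div_lt_one hS0]; exact hS1
  have hρ1 : ρ < 1 := by rw [hρ]; exact max_lt (by norm_num) (by linarith)
  have hρ9 : 9 / 10 ≤ ρ := by rw [hρ]; exact le_max_left _ _
  have hρS : 0 < S * ρ - 1 := by
    have a1 : (1 + 1 / S) / 2 ≤ ρ := by rw [hρ]; exact le_max_right _ _
    have a2 : S * ((1 + 1 / S) / 2) ≤ S * ρ := mul_le_mul_of_nonneg_left a1 hS0.le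
    have a3 : S * ((1 + 1 / S) / 2) = (S + 1) / 2 := by field_simp
    rw [a3] at a2
    linarith
  have hρ0 : 0 < ρ := by linarith
  have tl : Tendsto (fun X : ℕ => Real.log (X : ℝ)) atTop atTop :=
    Real.tendsto_log_atTop.comp tendsto_natCast_atTop_atTop
  have tp : ∀ e : ℝ, 0 < e → Tendsto (fun X : ℕ => (X : ℝ) ^ e) atTop atTop := fun e he =>
    (tendsto_rpow_atTop he).comp tendsto_natCast_atTop_atTop
  have e1 := qX_ev D hD1 ρ hρ1
  have e2 := (tp ρ hρ0).eventually_ge_atTop (q1 : ℝ)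
  have e3 := logpow_rpow (2 * D0) (2 * (l + 1) ^ (2 * D0)) (ρ / r) (by positivity) (by positivity)
  have e4 := logpow_rpow D0 (3 * (l + 1) ^ D0) (S * ρ - 1) (by positivity) hρS
  have e5 := (tp (ρ / r) (by positivity)).eventually_ge_atTop (w : ℝ)
  have e6 := tl.eventually_ge_atTop (max 1 ((K0 + 3) / l))
  have e7 := logpow_rpow (D0 + 1) (Wp w * ((l + 1) ^ D0 + 4) / (ε1 / 4)) θ (by positivity) hθ
  have e8 := logpow_rpow 1 (4 / ε1) (θ / 2) (by positivity) (by positivity)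
  filter_upwards [e1, e2, e3, e4, e5, e6, e7, e8, eventually_ge_atTop 3] with X f1 f2 f3 f4 f5 f6 f7 f7' f8
  clear e1 e2 e3 e4 e5 e6 e7 e8
  intro Z L hXL hZL
  obtain ⟨q, hq⟩ : ∃ q, q = qX D X := ⟨_, rfl⟩
  obtain ⟨K, hK⟩ : ∃ K, K = ⌊l * Real.log X⌋₊ := ⟨_, rfl⟩
  rw [← hq] at f1
  rw [← hK]
  obtain ⟨f1, f1'⟩ := f1
  have hX0 : (0 : ℝ) < X := by exact_mod_cast (by omega : 0 < X)
  have hX1 : (1 : ℝ) ≤ X := by exact_mod_cast (by omega : 1 ≤ X)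
  have hlX : 1 ≤ Real.log X := (le_max_left _ _).trans f6
  have hlK : (K0 : ℝ) + 3 ≤ l * Real.log X := by
    have := (le_max_right _ _).trans f6
    rw [div_le_iff₀ hl0] at this
    linarith
  have hK0' : (0 : ℝ) ≤ K0 := Nat.cast_nonneg _
  obtain ⟨k1, k2, k3⟩ := K_facts l (Real.log X) K hK hl0 hlX (by linarith)
  have hKK0 : K0 ≤ K := by
    rw [hK]
    apply Nat.le_floor
    linarith
  have hK1 : (1 : ℝ) ≤ K := by linarith
  have hqq : q1 ≤ q := by exact_mod_cast f2.trans f1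
  obtain ⟨hm, hlev⟩ := hq1 q hqq
  obtain ⟨y, hy⟩ : ∃ y, y = ⌊(q : ℝ) ^ (1 / (r : ℝ))⌋₊ := ⟨_, rfl⟩
  obtain ⟨g1, g2, g3, g4, g5⟩ := hlev
  rw [← hy] at hm g1 g2 g3 g4
  have hqpos : 1 ≤ q := by rw [hq]; exact qX_pos _ _
  have hq0 : (0 : ℝ) < q := by exact_mod_cast hqpos
  have hq1r : (1 : ℝ) ≤ q := by exact_mod_cast hqpos
  have hqD : q * D ≤ X := by rw [hq]; exact qX_le D X hD1 f1'
  have hqDr : (q : ℝ) * D ≤ X := by exact_mod_cast hqD
  have hqX : (q : ℝ) ≤ X := by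
    have : q ≤ X := (Nat.le_mul_of_pos_right q hD1).trans hqD
    exact_mod_cast this
  have hlq : Real.log q ≤ Real.log X := Real.log_le_log hq0 hqX
  have hlq2 : Real.log X ≤ 2 * Real.log q := by
    have a1 : Real.log ((X : ℝ) ^ ρ) ≤ Real.log q := Real.log_le_log (by positivity) f1
    rw [Real.log_rpow hX0] at a1
    have a2 : 9 / 10 * Real.log X ≤ ρ * Real.log X := mul_le_mul_of_nonneg_right hρ9 (by linarith only [hlX])
    linarith only [a1, a2, hlX]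
  -- powers of `K`
  have hPK : ((K : ℝ) + 1) ^ D0 ≤ (l + 1) ^ D0 * Real.log X ^ D0 := pow_log K D0 l _ k3
  have hPK2 : ((K : ℝ) + 1) ^ (2 * D0) ≤ (l + 1) ^ (2 * D0) * Real.log X ^ (2 * D0) := pow_log K (2 * D0) l _ k3
  have hρr : (X : ℝ) ^ (ρ / r) ≤ (q : ℝ) ^ (1 / (r : ℝ)) := by
    calc (X : ℝ) ^ (ρ / r) = ((X : ℝ) ^ ρ) ^ (1 / (r : ℝ)) := by
          rw [← Real.rpow_mul hX0.le]
          congr 1
          ring
      _ ≤ (q : ℝ) ^ (1 / (r : ℝ)) := Real.rpow_le_rpow (by positivity) f1 (by positivity)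
  have hKy : 2 * (K + 1) ^ (2 * D0) ≤ y := by
    rw [hy]
    apply Nat.le_floor
    push_cast
    refine le_trans ?_ (f3.trans hρr)
    linarith
  have hwy : w ≤ y := by
    rw [hy]
    exact Nat.le_floor (f5.trans hρr)
  have hsize : ((3 * (K + 1) ^ D0 * X : ℕ) : ℝ) ≤ (q : ℝ) ^ S := by
    push_cast
    calc 3 * ((K : ℝ) + 1) ^ D0 * X ≤ (3 * (l + 1) ^ D0 * Real.log X ^ D0) * X := by
          apply mul_le_mul_of_nonneg_right _ hX0.le
          linarith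
      _ ≤ (X : ℝ) ^ (S * ρ - 1) * X := mul_le_mul_of_nonneg_right f4 hX0.le
      _ = ((X : ℝ) ^ ρ) ^ S := by
          rw [← Real.rpow_add_one hX0.ne', ← Real.rpow_mul hX0.le]
          congr 1
          ring
      _ ≤ (q : ℝ) ^ S := Real.rpow_le_rpow (by positivity) f1 hS0.le
  have hKl : (K : ℝ) ≤ X2 / cz * Real.log q := by
    have a1 : 2 * l ≤ X2 / cz := by
      rw [le_div_iff₀ hcz, hX2]
      exact le_max_right _ _
    calc (K : ℝ) ≤ l * Real.log X := k1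
      _ ≤ l * (2 * Real.log q) := mul_le_mul_of_nonneg_left hlq2 hl0.le
      _ = 2 * l * Real.log q := by ring
      _ ≤ X2 / cz * Real.log q := mul_le_mul_of_nonneg_right a1 (by linarith)
  have hVy := hV y (by omega)
  have hVWy : cz / Real.log y ≤ VW w y := hVy.1.trans (VW_ge w y)
  have hly0 : 0 < Real.log y := Real.log_pos (by exact_mod_cast (by omega : 1 < y))
  have hVc : cz / Real.log q ≤ VW w y := by
    refine le_trans ?_ hVWy
    exact div_le_div_of_nonneg_left hcz.le hly0 g3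
  have hVlow : cz * δ * l / 2 ≤ VW w y * (δ * K) := by
    have a2 : cz / Real.log X ≤ VW w y := by
      refine le_trans ?_ hVWy
      exact div_le_div_of_nonneg_left hcz.le hly0 (g3.trans hlq)
    have a3 : cz / Real.log X * (δ * (l * Real.log X / 2)) ≤ VW w y * (δ * K) := by
      apply mul_le_mul a2 _ (by positivity) (VW_pos w y).le
      exact mul_le_mul_of_nonneg_left k2 hδ.le
    have a4 : cz / Real.log X * (δ * (l * Real.log X / 2)) = cz * δ * l / 2 := by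
      have : Real.log X ≠ 0 := by linarith
      field_simp
    rw [a4] at a3
    exact a3
  -- the small `n`
  obtain ⟨t0, ht0⟩ : ∃ t0 : ℕ, t0 = (K + 1) ^ D0 + 2 := ⟨_, rfl⟩
  have hXθ : (0 : ℝ) < (X : ℝ) ^ θ := by positivity
  have hL0 : (0 : ℝ) ≤ L := Nat.cast_nonneg _
  have hWt : (Wp w : ℝ) * (t0 + 2) * Real.log X ≤ ε1 / 4 * L := by
    rw [ht0]
    push_cast
    have a1 : ((K : ℝ) + 1) ^ D0 + 2 + 2 ≤ ((l + 1) ^ D0 + 4) * Real.log X ^ D0 := by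
      have a2 : (1 : ℝ) ≤ Real.log X ^ D0 := one_le_pow₀ hlX
      rw [add_mul]
      linarith only [a2, hPK]
    calc (Wp w : ℝ) * (((K : ℝ) + 1) ^ D0 + 2 + 2) * Real.log X ≤
          Wp w * (((l + 1) ^ D0 + 4) * Real.log X ^ D0) * Real.log X := by
          apply mul_le_mul_of_nonneg_right _ (by linarith)
          exact mul_le_mul_of_nonneg_left a1 (by positivity)
      _ = ε1 / 4 * (Wp w * ((l + 1) ^ D0 + 4) / (ε1 / 4) * Real.log X ^ (D0 + 1)) := by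
          rw [pow_succ]
          field_simp
      _ ≤ ε1 / 4 * (X : ℝ) ^ θ := mul_le_mul_of_nonneg_left f7 (by positivity)
      _ ≤ ε1 / 4 * L := mul_le_mul_of_nonneg_left hXL (by positivity)
  have hyX : (y : ℝ) ≤ (X : ℝ) ^ (θ / 2) := by
    calc (y : ℝ) ≤ (q : ℝ) ^ (1 / (r : ℝ)) := by rw [hy]; exact Nat.floor_le (by positivity)
      _ ≤ (X : ℝ) ^ (1 / (r : ℝ)) := Real.rpow_le_rpow hq0.le hqX (by positivity)
      _ ≤ (X : ℝ) ^ (θ / 2) := Real.rpow_le_rpow_of_exponent_le hX1 (by linarith)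
  have hyL : (y : ℝ) * Real.log X ≤ ε1 / 4 * L := by
    rw [pow_one] at f7'
    have a1 : Real.log X ≤ ε1 / 4 * (X : ℝ) ^ (θ / 2) := by
      have : 4 / ε1 * Real.log X * (ε1 / 4) ≤ (X : ℝ) ^ (θ / 2) * (ε1 / 4) :=
        mul_le_mul_of_nonneg_right f7' (by positivity)
      have e : 4 / ε1 * Real.log X * (ε1 / 4) = Real.log X := by field_simp
      rw [e] at this
      linarith
    calc (y : ℝ) * Real.log X ≤ (X : ℝ) ^ (θ / 2) * (ε1 / 4 * (X : ℝ) ^ (θ / 2)) :=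
          mul_le_mul hyX a1 (by linarith) (by positivity)
      _ = ε1 / 4 * (X : ℝ) ^ θ := by
          have : (X : ℝ) ^ (θ / 2) * (X : ℝ) ^ (θ / 2) = (X : ℝ) ^ θ := by
            rw [← Real.rpow_add hX0]
            congr 1
            ring
          rw [← this]
          ring
      _ ≤ ε1 / 4 * L := mul_le_mul_of_nonneg_left hXL (by positivity)
  have hWtL : (Wp w : ℝ) * (t0 + 2) ≤ L := by
    have a1 : (Wp w : ℝ) * (t0 + 2) ≤ (Wp w : ℝ) * (t0 + 2) * Real.log X :=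
      le_mul_of_one_le_right (by positivity) hlX
    have a2 : ε1 / 4 * (L : ℝ) ≤ L := mul_le_of_le_one_left hL0 (by linarith)
    linarith
  have hn1X : Wp w * (t0 + 2) ≤ L := by exact_mod_cast hWtL
  have hWL : Wp w ≤ L := (Nat.le_mul_of_pos_right _ (by omega)).trans hn1X
  have hqL : (q : ℝ) ^ θ ≤ ((L / Wp w + 1 : ℕ) : ℝ) := by
    have hW0 : (0 : ℝ) < Wp w := by linarith
    have a1 : (q : ℝ) ^ θ * Wp w ≤ (X : ℝ) ^ θ := by
      calc (q : ℝ) ^ θ * Wp w = (q : ℝ) ^ θ * ((Wp w : ℝ) ^ (1 / θ)) ^ θ := by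
            rw [← Real.rpow_mul hW0.le, one_div_mul_cancel hθ.ne', Real.rpow_one]
        _ = ((q : ℝ) * (Wp w : ℝ) ^ (1 / θ)) ^ θ := by rw [Real.mul_rpow hq0.le (by positivity)]
        _ ≤ (X : ℝ) ^ θ := by
            apply Real.rpow_le_rpow (by positivity) _ hθ.le
            exact (mul_le_mul_of_nonneg_left hDW hq0.le).trans hqDr
    have a2 : (q : ℝ) ^ θ ≤ (L : ℝ) / Wp w := by
      rw [le_div_iff₀ hW0]
      exact a1.trans hXL
    refine a2.trans ?_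
    have a3 := Nat.lt_div_mul_add (a := L) hW
    have a4 : (L : ℝ) < ((L / Wp w : ℕ) : ℝ) * Wp w + Wp w := by exact_mod_cast a3
    rw [div_le_iff₀ hW0]
    push_cast
    linarith
  have hv : (X : ℝ) ^ (θ / 10) ≤ (q : ℝ) ^ (τ / 4) := by
    calc (X : ℝ) ^ (θ / 10) ≤ (X : ℝ) ^ (ρ * (τ / 4)) := by
          apply Real.rpow_le_rpow_of_exponent_le hX1
          have a1 : 9 / 10 * (τ / 4) ≤ ρ * (τ / 4) := mul_le_mul_of_nonneg_right hρ9 (by positivity)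
          linarith
      _ = ((X : ℝ) ^ ρ) ^ (τ / 4) := by rw [Real.rpow_mul hX0.le]
      _ ≤ (q : ℝ) ^ (τ / 4) := Real.rpow_le_rpow (by positivity) f1 (by positivity)
  obtain ⟨hexc, hcard⟩ := hKK K hKK0
  have hfin := all_classesB A B Adm w K k Z L t0 y e' (κ0 * (cz * δ) / 16 * l) ((X : ℝ) ^ (θ / 10)) he0 hwy hWL (by
    intro a ha hcop
    have hn0 : (K + 1) ^ D0 + 2 ≤ a + Wp w * t0 := by
      have : t0 ≤ Wp w * t0 := Nat.le_mul_of_pos_left _ hW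
      omega
    have hn0X : a + Wp w * t0 + Wp w ≤ X := by
      have e : Wp w * (t0 + 2) = Wp w * t0 + 2 * Wp w := by ring
      omega
    have hc0 : (Wp w).Coprime (a + Wp w * t0) := (Nat.coprime_add_mul_left_right (Wp w) a t0).2 hcop
    refine oneClassB h Adm w K (a + Wp w * t0) q y k Z L X hw1 hn0 hn0X hZL hwy hKy hc0 θ (τ / 4) S X2 x1 κ0 e' cz δ
      (κ0 * (cz * δ) / 16 * l) ((X : ℝ) ^ (θ / 10)) (by positivity)
      (hm (fun p hp hd => by rw [hq] at hd; exact qX_prime D X p hp hd)) hqL hsize hVc hKl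
      (hlx.trans (by linarith)) he0 he1 hκ0 hw32
      (hexc y) hcard ?_ hv
    calc κ0 * (cz * δ) / 16 * l = κ0 * (cz * δ * l / 2 / 2 / 4) := by ring
      _ ≤ κ0 * (VW w y * (δ * K) / 2 / 4) := by
          apply mul_le_mul_of_nonneg_left _ hκ0.le
          linarith)
  refine hfin.trans ?_
  refine fin_comp (Wp w) t0 y L (Real.log X) (Wp w * (t0 + 2) + y) Cv ε ε1 e' r (Real.log y) (Real.log q) (Vz y)
    hL0 hlX hCv he0 hr0 hε le_rfl ?_ hVy.2 g2 hlq2 hCe' hε13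
  have a1 : ε1 / 2 * (L : ℝ) ≤ ε / 2 * L := by
    apply mul_le_mul_of_nonneg_right _ hL0
    linarith
  rw [add_mul]
  linarith

end Pool.Agent.R490.LPh
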