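import Pool.Agent.R490.LPh
import Pool.Agent.R490.LGf

set_option autoImplicit false

/-!
# The average hypothesis for the primes, and the forms `a j n + c`
-/

namespace Pool.Agent.R490.LPi

open Finset Filter
open Pool.Agent.W123.RP Pool.Agent.H373R2.T7 Pool.Agent.W123.RU Pool.Agent.TH464.PO Pool.Agent.TH464.PW
open Pool.Agent.Y879.AP Pool.Agent.R490.P3b Pool.Agent.R490.P3i Pool.Agent.R490.LGa Pool.Agent.R490.LGb
open Pool.Agent.R490.LGd Pool.Agent.R490.LGe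
open Pool.Agent.R490.LPg Pool.Agent.R490.LPh

/-- the average hypothesis -/
theorem avg_ofB (c : ℕ) (hc : 1 ≤ c) (A : ℕ → ℕ) (B : ℕ → ℤ) (Adm : ℕ → Prop) (w1 : ℕ) (Cx : ℝ)
    (hexc : ∀ w K y : ℕ, 14 ≤ w → w1 ≤ w →
      ∑ j ∈ Icc 1 K, ∑ j' ∈ Icc 1 K, excB A B w y j j' ≤ Cx * (K : ℝ) ^ 2 / w)
    (hper : ∀ n, Adm n → PerB (fun p j => (p : ℤ) ∣ (A j : ℤ) * n + B j) c)
    (hadm : ∀ n, Adm n → ∀ p : ℕ, p.Prime → nuB (fun p j => (p : ℤ) ∣ (A j : ℤ) * n + B j) p < p) (η : ℝ)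
    (hη : 0 < η) (w0 : ℕ) : ∃ (w K0 : ℕ) (δ : ℝ), w0 ≤ w ∧ 0 < δ ∧ ∀ K : ℕ, K0 ≤ K →
      (∀ y : ℕ, ∑ j ∈ Icc 1 K, ∑ j' ∈ Icc 1 K, excB A B w y j j' ≤ η * (δ * K) ^ 2) ∧
      (∀ n : ℕ, Adm n → δ * K ≤ (Jn A B w K n).card) := by
  classical
  obtain ⟨x0, H⟩ := cnt_low c hc
  obtain ⟨κ, hκ, hlow⟩ := vq_low c
  obtain ⟨cz, C, hcz, hC, hV⟩ := Vz_bounds
  have ev := logpow_rpow (2 * c) ((|Cx| + 1) * 16 / (η * κ ^ 2 * cz ^ (2 * c))) 1 (by positivity) one_pos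
  obtain ⟨w, hw1, hw2⟩ := (ev.and (eventually_ge_atTop (x0 + w1 + 14 + w0))).exists
  have hw0 : (0 : ℝ) < w := by exact_mod_cast (by omega : 0 < w)
  have hlw : 0 < Real.log w := Real.log_pos (by exact_mod_cast (by omega : 1 < w))
  have hVz : cz / Real.log w ≤ Vz w := (hV w (by omega)).1
  have hVz0 : 0 < Vz w := lt_of_lt_of_le (by positivity) hVz
  obtain ⟨v, hv⟩ : ∃ v : ℝ, v = κ * Vz w ^ c := ⟨_, rfl⟩
  have hv0 : 0 < v := by rw [hv]; positivity
  obtain ⟨K0, hK0⟩ := H w (by omega) v hv0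
  refine ⟨w, K0, v / 4, by omega, by positivity, ?_⟩
  intro K hK
  constructor
  · intro y
    refine (hexc w K y (by omega) (by omega)).trans ?_
    have a1 : (cz / Real.log w) ^ c ≤ Vz w ^ c := pow_le_pow_left₀ (by positivity) hVz c
    have a2 : κ * (cz / Real.log w) ^ c ≤ v := by
      rw [hv]
      exact mul_le_mul_of_nonneg_left a1 hκ.le
    have a3 : (κ * (cz / Real.log w) ^ c) ^ 2 ≤ v ^ 2 := pow_le_pow_left₀ (by positivity) a2 2
    have a4 : (κ * (cz / Real.log w) ^ c) ^ 2 = κ ^ 2 * cz ^ (2 * c) / Real.log w ^ (2 * c) := by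
      rw [mul_pow, ← pow_mul, div_pow, mul_comm c 2]
      ring
    rw [a4] at a3
    rw [Real.rpow_one] at hw1
    have a5 : Cx / w ≤ η * (v / 4) ^ 2 := by
      have b1 : (|Cx| + 1) * 16 * Real.log w ^ (2 * c) ≤ w * (η * κ ^ 2 * cz ^ (2 * c)) := by
        rw [div_mul_eq_mul_div, div_le_iff₀ (by positivity)] at hw1
        exact hw1
      have b2 : (|Cx| + 1) * 16 / w ≤ η * (κ ^ 2 * cz ^ (2 * c) / Real.log w ^ (2 * c)) := by
        rw [div_le_iff₀ hw0]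
        have e : η * (κ ^ 2 * cz ^ (2 * c) / Real.log w ^ (2 * c)) * w =
          w * (η * κ ^ 2 * cz ^ (2 * c)) / Real.log w ^ (2 * c) := by ring
        rw [e, le_div_iff₀ (by positivity)]
        exact b1
      have b3 := b2.trans (mul_le_mul_of_nonneg_left a3 hη.le)
      have b4 : Cx / w ≤ (|Cx| + 1) / w := div_le_div_of_nonneg_right (by linarith [le_abs_self Cx]) hw0.le
      have b5 : (|Cx| + 1) * 16 / w = 16 * ((|Cx| + 1) / w) := by ring
      rw [b5] at b3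
      nlinarith
    calc Cx * (K : ℝ) ^ 2 / w = Cx / w * (K : ℝ) ^ 2 := by ring
      _ ≤ η * (v / 4) ^ 2 * (K : ℝ) ^ 2 := mul_le_mul_of_nonneg_right a5 (sq_nonneg _)
      _ = η * (v / 4 * K) ^ 2 := by ring
  · intro n hn
    have h1 := hK0 K hK (fun p j => (p : ℤ) ∣ (A j : ℤ) * n + B j) (hper n hn)
      (by rw [hv]; exact hlow _ (hper n hn) (hadm n hn) w)
    refine h1.trans ?_
    have h2 : ((Ioc 0 K).filter (fun j => Sf (fun p j => (p : ℤ) ∣ (A j : ℤ) * n + B j) w j)).card ≤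
        (Jn A B w K n).card := by
      apply card_le_card
      intro j hj
      unfold Jn
      rw [mem_filter, mem_Ioc] at hj
      rw [mem_filter, mem_Icc]
      refine ⟨by omega, ?_⟩
      intro p hp hpw
      exact hj.2 p (mem_pz.2 ⟨hpw, hp⟩)
    exact_mod_cast h2

/-! ### The forms `a j n + c` -/

lemma datQ (a : ℕ) (c : ℤ) (ha : 1 ≤ a) (hc : c ≠ 0) (hac : a.Coprime c.natAbs) :
    Dat (fun j => a * j) (fun _ => c) (a + c.natAbs + 1) (c.natAbs) := by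
  refine ⟨fun j hj => Nat.mul_pos ha hj, ?_, ?_, ?_, ?_⟩
  · intro j hj
    have h1 : a < 2 ^ a := Nat.lt_two_pow_self
    have h2 : 2 ^ a ≤ (j + 1) ^ a := Nat.pow_le_pow_left (by omega) _
    calc a * j ≤ (j + 1) ^ a * (j + 1) := Nat.mul_le_mul (by omega) (by omega)
      _ = (j + 1) ^ (a + 1) := (pow_succ _ _).symm
      _ ≤ (j + 1) ^ (a + c.natAbs + 1) := Nat.pow_le_pow_right (by omega) (by omega)
  · intro j hj
    show c.natAbs ≤ (j + 1) ^ (a + c.natAbs + 1)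
    have h1 : c.natAbs < 2 ^ (c.natAbs) := Nat.lt_two_pow_self
    have h2 : 2 ^ (c.natAbs) ≤ (j + 1) ^ (c.natAbs) := Nat.pow_le_pow_left (by omega) _
    have h3 : (j + 1) ^ (c.natAbs) ≤ (j + 1) ^ (a + c.natAbs + 1) := Nat.pow_le_pow_right (by omega) (by omega)
    omega
  · intro j _ p _ hw _ hd
    have h1 : p ∣ c.natAbs := Int.natCast_dvd.1 hd
    have h2 := Nat.le_of_dvd (Nat.pos_of_ne_zero (Int.natAbs_ne_zero.2 hc)) h1
    omega
  · intro j j' _ _ hne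
    unfold Rs
    have e : ((a * j : ℕ) : ℤ) * c - ((a * j' : ℕ) : ℤ) * c = ((j : ℤ) - j') * (a * c) := by
      push_cast
      ring
    rw [e]
    apply mul_ne_zero
    · intro h
      exact hne (by omega)
    · exact mul_ne_zero (by exact_mod_cast (by omega : a ≠ 0)) hc

lemma excQ (a : ℕ) (c : ℤ) (ha : 1 ≤ a) (hc : c ≠ 0) (w K y : ℕ) (hw : 14 ≤ w) (hcw : a + c.natAbs ≤ w) :
    ∑ j ∈ Icc 1 K, ∑ j' ∈ Icc 1 K, excB (fun j => a * j) (fun _ => c) w y j j' ≤ 38 * (K : ℝ) ^ 2 / w := by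
  have hw0 : (0 : ℝ) < w := by exact_mod_cast (by omega : 0 < w)
  obtain ⟨G, hG⟩ : ∃ G, G = ∑ n ∈ Icc 1 K, (tw w y n ^ 3 - 1) := ⟨_, rfl⟩
  have hG1 : G ≤ 28 * K / w := by rw [hG]; exact sum_ex w y K hw
  have hta : tw w y a = 1 := tw_small w y a ha (by omega)
  have htc : tw w y c.natAbs = 1 := tw_small w y _ (Nat.pos_of_ne_zero (Int.natAbs_ne_zero.2 hc)) (by omega)
  have h1 : ∀ j ∈ Icc 1 K, ∀ j' ∈ Icc 1 K, excB (fun j => a * j) (fun _ => c) w y j j' ≤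
      ((tw w y j ^ 3 - 1) + (tw w y j' ^ 3 - 1) +
        (if j = j' then 0 else (tw w y ((j : ℤ) - j').natAbs ^ 3 - 1))) / 3 := by
    intro j _ j' _
    unfold excB
    split_ifs with hne
    · have a1 := cube_ge w y j
      have a2 := cube_ge w y j'
      linarith
    · have e : (Rs (fun j => a * j) (fun _ => c) j j').natAbs = ((j : ℤ) - j').natAbs * (a * c.natAbs) := by
        unfold Rs
        rw [show a * c.natAbs = ((a : ℤ) * c).natAbs by rw [Int.natAbs_mul, Int.natAbs_natCast], ← Int.natAbs_mul]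
        congr 1
        push_cast
        ring
      rw [e]
      have b1 : tw w y (a * c.natAbs) ≤ 1 := by
        have := tw_mul_le w y a c.natAbs
        rwa [hta, htc, mul_one] at this
      have a1 : tw w y (((j : ℤ) - j').natAbs * (a * c.natAbs)) ≤ tw w y ((j : ℤ) - j').natAbs := by
        have := tw_mul_le w y ((j : ℤ) - j').natAbs (a * c.natAbs)
        refine this.trans ?_
        exact mul_le_of_le_one_right (tw_pos _ _ _).le b1
      have a2 : tw w y (a * j) ≤ tw w y j := by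
        have := tw_mul_le w y a j
        rwa [hta, one_mul] at this
      have a3 : tw w y (a * j') ≤ tw w y j' := by
        have := tw_mul_le w y a j'
        rwa [hta, one_mul] at this
      have a4 : tw w y (a * j) * tw w y c.natAbs * (tw w y (a * j') * tw w y c.natAbs) *
          tw w y (((j : ℤ) - j').natAbs * (a * c.natAbs)) ≤
          tw w y j * tw w y j' * tw w y ((j : ℤ) - j').natAbs := by
        rw [htc, mul_one, mul_one]
        apply mul_le_mul _ a1 (tw_pos _ _ _).le (mul_pos (tw_pos _ _ _) (tw_pos _ _ _)).le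
        exact mul_le_mul a2 a3 (tw_pos _ _ _).le (tw_pos _ _ _).le
      have a5 := amgm3 _ _ _ (one_le_tw w y j) (one_le_tw w y j') (one_le_tw w y ((j : ℤ) - j').natAbs)
      linarith
  have h2 : ∀ j ∈ Icc 1 K, ∑ j' ∈ Icc 1 K, excB (fun j => a * j) (fun _ => c) w y j j' ≤
      (K * (tw w y j ^ 3 - 1) + G + 2 * G) / 3 := by
    intro j hj
    refine (sum_le_sum (h1 j hj)).trans ?_
    rw [← sum_div, sum_add_distrib, sum_add_distrib, sum_const, nsmul_eq_mul, Nat.card_Icc, Nat.add_sub_cancel,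
      ← hG]
    have h3 := sum_diff (fun n => tw w y n ^ 3 - 1) (cube_ge w y) K j hj
    rw [← hG] at h3
    linarith
  refine (sum_le_sum h2).trans ?_
  rw [← sum_div, sum_add_distrib, sum_add_distrib, sum_const, sum_const, nsmul_eq_mul, nsmul_eq_mul, ← mul_sum,
    Nat.card_Icc, Nat.add_sub_cancel, ← hG]
  have h3 : (K : ℝ) * G ≤ K * (28 * K / w) := mul_le_mul_of_nonneg_left hG1 (Nat.cast_nonneg _)
  have e1 : (K : ℝ) * (28 * K / w) = 28 * ((K : ℝ) ^ 2 / w) := by ring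
  have e2 : 38 * (K : ℝ) ^ 2 / w = 38 * ((K : ℝ) ^ 2 / w) := by ring
  rw [e1] at h3
  rw [e2]
  have h4 : 0 ≤ (K : ℝ) ^ 2 / w := by positivity
  linarith

/-- the admissible `n` -/
def AdmQ (a : ℕ) (c : ℤ) (n : ℕ) : Prop := (a * n).Coprime c.natAbs

lemma fewQ (a : ℕ) (c : ℤ) (n : ℕ) (hn : AdmQ a c n) (p : ℕ) (hp : p.Prime) :
    nuB (fun p j => (p : ℤ) ∣ ((a * j : ℕ) : ℤ) * n + c) p ≤ 1 := by
  unfold nuB
  rw [card_le_one]
  intro u hu v hv
  simp only [mem_filter, mem_range] at hu hv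
  have h1 : (p : ℤ) ∣ ((u : ℤ) - v) * ((a * n : ℕ) : ℤ) := by
    have := dvd_sub hu.2 hv.2
    have e : ((a * u : ℕ) : ℤ) * n + c - (((a * v : ℕ) : ℤ) * n + c) = ((u : ℤ) - v) * ((a * n : ℕ) : ℤ) := by
      push_cast
      ring
    rwa [e] at this
  rcases (Nat.prime_iff_prime_int.1 hp).dvd_or_dvd h1 with h2 | h2
  · obtain ⟨t, ht⟩ := h2
    have h3 : ((u : ℤ) - v).natAbs < p := by omega
    have h4 : (u : ℤ) - v = 0 := Int.eq_zero_of_dvd_of_natAbs_lt_natAbs ⟨t, ht⟩ (by simpa using h3)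
    omega
  · exfalso
    have h3 : (p : ℤ) ∣ c := by
      have e : ((a * u : ℕ) : ℤ) * n + c = (u : ℤ) * ((a * n : ℕ) : ℤ) + c := by
        push_cast
        ring
      have h5 := hu.2
      rw [e] at h5
      exact (dvd_add_right (h2.mul_left _)).1 h5
    have h4 : p ∣ a * n := by exact_mod_cast h2
    have h5 : p ∣ c.natAbs := Int.natCast_dvd.1 h3
    have h6 := Nat.dvd_gcd h4 h5
    rw [show (a * n).gcd c.natAbs = 1 from hn] at h6
    exact hp.one_lt.ne' (Nat.dvd_one.1 h6)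

lemma perQ (a : ℕ) (c : ℤ) (n : ℕ) (hn : AdmQ a c n) :
    PerB (fun p j => (p : ℤ) ∣ ((a * j : ℕ) : ℤ) * n + c) 1 := by
  refine ⟨fun p j => ?_, fun p hp => fewQ a c n hn p hp⟩
  have h1 : ((a * j : ℕ) : ℤ) ≡ ((a * (j % p) : ℕ) : ℤ) [ZMOD p] :=
    Int.natCast_modEq_iff.2 ((Nat.mod_modEq j p).symm.mul_left a)
  have h2 : ((a * j : ℕ) : ℤ) * n + c ≡ ((a * (j % p) : ℕ) : ℤ) * n + c [ZMOD p] := (h1.mul_right _).add_right _
  exact h2.dvd_iff

open Classical in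
/-- **The values `a j p + c` for almost all primes `p`.** -/
theorem mainQ (a : ℕ) (c : ℤ) (ha : 1 ≤ a) (hc : c ≠ 0) (hac : a.Coprime c.natAbs) (θ ε : ℝ) (k : ℕ) (hθ : 0 < θ)
    (hθ1 : θ ≤ 1) (hk : 1 / 8 + 25 / (12 * θ) < k) (hε : 0 < ε) :
    ∃ κ Λ : ℝ, 0 < κ ∧ 0 < Λ ∧ ∀ l : ℝ, Λ ≤ l → ∀ᶠ X : ℕ in atTop, ∀ Z L : ℕ,
      (X : ℝ) ^ θ ≤ L → Z + L ≤ X →
      (((Ioc Z (Z + L)).filter (fun n => n.Prime ∧ AdmQ a c n ∧
        (cnt (fun j => a * j) (fun _ => c) k ⌊l * Real.log X⌋₊ n ((X : ℝ) ^ (θ / 10)) : ℝ) < κ * l)).card : ℝ) ≤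
        ε * L / Real.log X :=
  mainP (datQ a c ha hc hac) (AdmQ a c)
    (avg_ofB 1 le_rfl (fun j => a * j) (fun _ => c) (AdmQ a c) (a + c.natAbs) 38
      (fun w K y hw hcw => excQ a c ha hc w K y hw hcw) (fun n hn => perQ a c n hn)
      (fun n hn p hp => (fewQ a c n hn p hp).trans_lt hp.one_lt)) θ ε k hθ hθ1 hk hε

end Pool.Agent.R490.LPi
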