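import Pool.Agent.R490.Prog
import Pool.Agent.Y879.PR.Full

set_option autoImplicit false

/-!
# Finite sets of integer linear forms, uniformly in the coefficients: spacings, regular points, the law
after primes, and narrow progressions
-/

namespace Pool.Agent.R490.LZ

open Polynomial Finset Filter
open Pool.Agent.W123.RP Pool.Agent.H373R2.T7 Pool.Agent.W123.RU Pool.Agent.W123.RU.Poly
open Pool.Agent.TH464.PW Pool.Agent.TH464.PO Pool.Agent.Y879.GL Pool.Agent.Y879.PR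
open Pool.Agent.R490.Sg (D1 pz_eq Vz_D1 cnt RightOrder ConstantDensity badScales Irregular)

/-- no `a m + b`, `(a, b) ∈ L`, has a prime factor `≤ y` -/
def Ro (L : Finset (ℤ × ℤ)) (y m : ℕ) : Prop := ∀ p : ℕ, p.Prime → p ≤ y → ∀ l ∈ L, ¬ (p : ℤ) ∣ l.1 * m + l.2

open Classical in
/-- the density of the condition `Ro` -/
noncomputable def De (L : Finset (ℤ × ℤ)) (y : ℕ) : ℝ := ∏ p ∈ (Finset.range (y + 1)).filter Nat.Prime,
    (1 - (((Finset.range p).filter (fun m : ℕ => ∃ l ∈ L, (p : ℤ) ∣ l.1 * m + l.2)).card : ℝ) / p)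

/-- the system -/
noncomputable def sys (L : Finset (ℤ × ℤ)) (k : ℕ) (hk : L.card = k) : Fin k → ℤ[X] := fun i =>
  lf ((L.equivFinOfCardEq hk).symm i : ℤ × ℤ).1 ((L.equivFinOfCardEq hk).symm i : ℤ × ℤ).2

variable {L : Finset (ℤ × ℤ)} {k : ℕ}

lemma sys_Q (hk : L.card = k) (p m : ℕ) : Q (sys L k hk) p m ↔ ∃ l ∈ L, (p : ℤ) ∣ l.1 * m + l.2 := by
  unfold Q sys
  constructor
  · rintro ⟨i, hi⟩
    refine ⟨_, ((L.equivFinOfCardEq hk).symm i).2, ?_⟩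
    rw [lf_eval] at hi
    exact hi
  · rintro ⟨l, hl, h⟩
    refine ⟨L.equivFinOfCardEq hk ⟨l, hl⟩, ?_⟩
    rw [lf_eval, Equiv.symm_apply_apply]
    exact h

open Classical in
lemma sys_V (hk : L.card = k) (y : ℕ) : Vq (Q (sys L k hk)) y = De L y := by
  unfold Vq De
  rw [pz_eq]
  apply Finset.prod_congr rfl
  intro p _
  unfold nuB
  simp only [sys_Q hk]

lemma sys_Sf (hk : L.card = k) (y m : ℕ) : Sf (Q (sys L k hk)) y m ↔ Ro L y m := by
  unfold Sf Ro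
  constructor
  · intro h p hp hpy l hl hd
    exact h p (mem_pz.2 ⟨hpy, hp⟩) ((sys_Q hk p m).2 ⟨l, hl, hd⟩)
  · intro h p hp hd
    obtain ⟨l, hl, hd⟩ := (sys_Q hk p m).1 hd
    exact h p (mem_pz.1 hp).2 (mem_pz.1 hp).1 l hl hd

/-- the sets of forms to which the theorems apply -/
structure Good (H : ℕ) (L : Finset (ℤ × ℤ)) : Prop where
  one : ∀ l ∈ L, 1 ≤ l.1
  bda : ∀ l ∈ L, l.1 ≤ H
  bdb : ∀ l ∈ L, |l.2| ≤ H
  adm : ∀ p : ℕ, p.Prime → ∃ m : ℕ, ∀ l ∈ L, ¬ (p : ℤ) ∣ l.1 * m + l.2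

lemma Good.cop {H : ℕ} (h : Good H L) (l : ℤ × ℤ) (hl : l ∈ L) : IsCoprime l.1 l.2 := by
  rw [Int.isCoprime_iff_gcd_eq_one]
  by_contra hcon
  obtain ⟨p, hp, hd⟩ := Nat.exists_prime_and_dvd hcon
  obtain ⟨m, hm⟩ := h.adm p hp
  have h1 : (p : ℤ) ∣ l.1 := (Int.natCast_dvd_natCast.2 hd).trans (Int.gcd_dvd_left ..)
  have h2 : (p : ℤ) ∣ l.2 := (Int.natCast_dvd_natCast.2 hd).trans (Int.gcd_dvd_right ..)
  exact hm l hl (dvd_add (Dvd.dvd.mul_right h1 _) h2)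

lemma Good.us0 {H : ℕ} (h : Good H L) (hk : L.card = k) : US k 1 (H : ℝ) 0 (sys L k hk) := by
  apply us_lf
  · intro i
    have := h.one _ ((L.equivFinOfCardEq hk).symm i).2
    omega
  · intro i
    exact h.cop _ ((L.equivFinOfCardEq hk).symm i).2
  · intro i
    have h1 := h.one _ ((L.equivFinOfCardEq hk).symm i).2
    have h2 := h.bda _ ((L.equivFinOfCardEq hk).symm i).2
    have h3 : |((L.equivFinOfCardEq hk).symm i : ℤ × ℤ).1| ≤ (H : ℤ) := by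
      rw [abs_of_nonneg (by omega)]
      exact h2
    exact_mod_cast h3
  · intro i
    have h3 := h.bdb _ ((L.equivFinOfCardEq hk).symm i).2
    exact_mod_cast h3
  · intro p hp
    obtain ⟨m, hm⟩ := h.adm p hp
    exact ⟨m, fun i hi => hm _ ((L.equivFinOfCardEq hk).symm i).2 hi⟩
  · intro i j t ht htU
    exfalso
    have : (1 : ℝ) ≤ t := by exact_mod_cast ht
    linarith

/-- the exceptional shifts -/
def exc (L : Finset (ℤ × ℤ)) : Finset ℕ := (L ×ˢ L).image (fun z => ((z.1.2 - z.2.2) / z.2.1).toNat)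

lemma exc_card (hk : L.card = k) : (exc L).card ≤ k * k := by
  unfold exc
  refine Finset.card_image_le.trans ?_
  rw [Finset.card_product, hk]

lemma as_cases {H : ℕ} (h : Good H L) (hk : L.card = k) (i j : Fin k) (t : ℕ)
    (ha : Associated (sys L k hk i) ((sys L k hk j).comp (X + C (t : ℤ)))) :
    ∃ l ∈ L, ∃ l' ∈ L, l.1 = l'.1 ∧ l.2 = l'.2 + l'.1 * t := by
  unfold sys at ha
  refine ⟨_, ((L.equivFinOfCardEq hk).symm i).2, _, ((L.equivFinOfCardEq hk).symm j).2, ?_⟩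
  rcases lf_assoc _ _ _ _ _ ha with h1 | h1
  · exact h1
  · exfalso
    have h2 := h.one _ ((L.equivFinOfCardEq hk).symm i).2
    have h3 := h.one _ ((L.equivFinOfCardEq hk).symm j).2
    have h4 := h1.1
    omega

lemma Good.noAs {H : ℕ} (h : Good H L) (hk : L.card = k) (U : ℝ) : NoAs (sys L k hk) (exc L) U := by
  intro i j t ht _ htE ha
  apply htE
  obtain ⟨l, hl, l', hl', h1, h2⟩ := as_cases h hk i j t ha
  unfold exc
  rw [mem_image]
  refine ⟨(l, l'), mem_product.2 ⟨hl, hl'⟩, ?_⟩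
  simp only
  have h3 := h.one _ hl'
  rw [h2, add_sub_cancel_left, Int.mul_ediv_cancel_left _ (by omega)]
  rfl

/-- no two forms are translates of each other by a natural number up to `U` -/
def NoT (L : Finset (ℤ × ℤ)) (U : ℝ) : Prop :=
  ∀ l ∈ L, ∀ l' ∈ L, ∀ t : ℕ, 1 ≤ t → (t : ℝ) ≤ U → l.1 = l'.1 → l.2 ≠ l'.2 + l'.1 * t

lemma Good.us {H : ℕ} (h : Good H L) {U : ℝ} (hn : NoT L U) (hk : L.card = k) :
    US k 1 (H : ℝ) U (sys L k hk) := by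
  have h0 := h.us0 hk
  exact {
    irr := h0.irr
    deg := h0.deg
    degD := h0.degD
    hgt := h0.hgt
    adm := h0.adm
    tr := fun i j t ht htU ha => by
      obtain ⟨l, hl, l', hl', h1, h2⟩ := as_cases h hk i j t ha
      exact hn l hl l' hl' t ht htU h1 h2 }

open Classical in
/-- the number of the `n` in `(u, u + Y]` with `Ro L y n` for which fewer than `k` of the `T` integers before
`n` have this property -/
noncomputable def Dk (L : Finset (ℤ × ℤ)) (y k T u Y : ℕ) : ℕ :=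
  ((Ioc u (u + Y)).filter (fun n => Ro L y n ∧ ((Ico (n - T) n).filter (fun m => Ro L y m)).card < k)).card

open Classical in
lemma Dk_eq (hk : L.card = k) (y l T u Y : ℕ) :
    Pk (Sf (Q (sys L k hk)) y) l T u Y = Dk L y l T u Y := by
  have e : Sf (Q (sys L k hk)) y = fun m => Ro L y m := by
    funext m
    exact propext (sys_Sf hk y m)
  unfold Pk Dk
  rw [e]

open Classical in
/-- two forms with different zeros modulo `p` -/
lemma two_le (hk : L.card = k) (l l' : ℤ × ℤ) (hl : l ∈ L) (hl' : l' ∈ L) (p : ℕ) (hp : p.Prime)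
    (h1 : ¬ (p : ℤ) ∣ l.1) (h2 : ¬ (p : ℤ) ∣ l'.1) (h3 : ¬ (p : ℤ) ∣ l.1 * l'.2 - l'.1 * l.2) :
    2 ≤ nuB (Q (sys L k hk)) p := by
  have hpp := Fact.mk hp
  have key : ∀ a b : ℤ, ¬ (p : ℤ) ∣ a → ∃ m : ℕ, m < p ∧ (p : ℤ) ∣ a * m + b := by
    intro a b ha
    have ha0 : (a : ZMod p) ≠ 0 := by
      rw [Ne, ZMod.intCast_zmod_eq_zero_iff_dvd]
      exact ha
    refine ⟨(-(b : ZMod p) * (a : ZMod p)⁻¹).val, ZMod.val_lt _, ?_⟩
    rw [← ZMod.intCast_zmod_eq_zero_iff_dvd]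
    push_cast
    rw [ZMod.natCast_val, ZMod.cast_id]
    field_simp
    ring
  obtain ⟨m, hm, hm2⟩ := key l.1 l.2 h1
  obtain ⟨m', hm', hm2'⟩ := key l'.1 l'.2 h2
  have hne : m ≠ m' := by
    rintro rfl
    apply h3
    have e3 : l.1 * l'.2 - l'.1 * l.2 = l.1 * (l'.1 * m + l'.2) - l'.1 * (l.1 * m + l.2) := by
      ring
    rw [e3]
    exact dvd_sub (Dvd.dvd.mul_left hm2' _) (Dvd.dvd.mul_left hm2 _)
  unfold nuB
  rw [show (2 : ℕ) = ({m, m'} : Finset ℕ).card from (Finset.card_pair hne).symm]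
  apply Finset.card_le_card
  intro x hx
  rw [mem_insert, mem_singleton] at hx
  refine (@Finset.mem_filter _ _ (fun a => Classical.propDecidable _) _ _).2 ?_
  rcases hx with rfl | rfl
  · exact ⟨mem_range.2 hm, (sys_Q hk p x).2 ⟨l, hl, hm2⟩⟩
  · exact ⟨mem_range.2 hm', (sys_Q hk p x).2 ⟨l', hl', hm2'⟩⟩

/-- the density is `O(1 / log X)` if there are at least two forms -/
lemma V_up (A : ℕ) (r : ℕ) (hr2 : 2 ≤ r) : ∃ M : ℝ, 0 < M ∧ ∀ᶠ X : ℕ in atTop,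
    ∀ L : Finset (ℤ × ℤ), 2 ≤ L.card → Good (X ^ A) L →
      De L ⌊(X : ℝ) ^ (1 / (r : ℝ))⌋₊ ≤ M / Real.log X := by
  obtain ⟨M, hM, h⟩ := V2_up (4 * A + 1) (by positivity) r hr2
  refine ⟨M, hM, ?_⟩
  filter_upwards [h, eventually_ge_atTop 2] with X hX hX1
  intro L hL hG
  obtain ⟨l, hl, l', hl', hne⟩ := Finset.one_lt_card.1 hL
  rw [← sys_V (L := L) rfl]
  obtain ⟨d, hd⟩ : ∃ d : ℤ, d = l.1 * l'.2 - l'.1 * l.2 := ⟨_, rfl⟩
  have o1 := hG.one l hl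
  have o2 := hG.one l' hl'
  have hd0 : d ≠ 0 := by
    rw [hd]
    intro h0
    apply hne
    have e1 : l.1 * l'.2 = l'.1 * l.2 := by linarith
    have e2 : l.1 ∣ l'.1 := (hG.cop l hl).dvd_of_dvd_mul_right (e1 ▸ dvd_mul_right _ _)
    have e3 : l'.1 ∣ l.1 := (hG.cop l' hl').dvd_of_dvd_mul_right (e1 ▸ dvd_mul_right _ _)
    have e4 : l.1 = l'.1 := Int.dvd_antisymm (by omega) (by omega) e2 e3
    have e5 : l.2 = l'.2 := by
      rw [e4] at e1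
      exact (mul_left_cancel₀ (by omega) e1).symm
    exact Prod.ext e4 e5
  obtain ⟨a1, ha1⟩ : ∃ a1 : ℕ, a1 = l.1.natAbs := ⟨_, rfl⟩
  obtain ⟨a2, ha2⟩ : ∃ a2 : ℕ, a2 = l'.1.natAbs := ⟨_, rfl⟩
  have ba := hG.bda l hl
  have ba' := hG.bda l' hl'
  have bb := hG.bdb l hl
  have bb' := hG.bdb l' hl'
  have ba1 : a1 ≤ X ^ A := by omega
  have ba2 : a2 ≤ X ^ A := by omega
  have bb1 : l.2.natAbs ≤ X ^ A := by
    have := Int.natCast_natAbs l.2
    omega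
  have bb2 : l'.2.natAbs ≤ X ^ A := by
    have := Int.natCast_natAbs l'.2
    omega
  have hdb : d.natAbs ≤ 2 * ((X ^ A) * (X ^ A)) := by
    rw [hd]
    refine (Int.natAbs_sub_le _ _).trans ?_
    rw [Int.natAbs_mul, Int.natAbs_mul, ← ha1, ← ha2]
    have h1 : a1 * l'.2.natAbs ≤ (X ^ A) * (X ^ A) := Nat.mul_le_mul ba1 bb2
    have h2 : a2 * l.2.natAbs ≤ (X ^ A) * (X ^ A) := Nat.mul_le_mul ba2 bb1
    omega
  have a1pos : 0 < a1 := by omega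
  have a2pos : 0 < a2 := by omega
  refine hX _ (a1 * a2 * d.natAbs) (us_adm (hG.us0 rfl)) ?_ ?_ ?_
  · exact Nat.mul_pos (Nat.mul_pos a1pos a2pos) (Int.natAbs_pos.2 hd0)
  · have h5 : a1 * a2 * d.natAbs ≤ X ^ (4 * A + 1) := by
      calc a1 * a2 * d.natAbs ≤ (X ^ A * X ^ A) * (2 * (X ^ A * X ^ A)) :=
            Nat.mul_le_mul (Nat.mul_le_mul ba1 ba2) hdb
        _ = 2 * X ^ (4 * A) := by ring
        _ ≤ X * X ^ (4 * A) := Nat.mul_le_mul_right _ hX1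
        _ = X ^ (4 * A + 1) := by ring
    have h6 : ((a1 * a2 * d.natAbs : ℕ) : ℝ) ≤ (X : ℝ) ^ (4 * A + 1) := by exact_mod_cast h5
    refine h6.trans (le_of_eq ?_)
    rw [← Real.rpow_natCast]
    push_cast
    rfl
  · intro p hp hpD
    refine two_le rfl l l' hl hl' p hp ?_ ?_ ?_
    · intro h1
      apply hpD
      refine Dvd.dvd.mul_right (Dvd.dvd.mul_right ?_ _) _
      rw [ha1]
      exact Int.natCast_dvd.1 h1
    · intro h1
      apply hpD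
      refine Dvd.dvd.mul_right (Dvd.dvd.mul_left ?_ _) _
      rw [ha2]
      exact Int.natCast_dvd.1 h1
    · rw [← hd]
      exact fun h1 => hpD (Dvd.dvd.mul_left (Int.natCast_dvd.1 h1) _)

lemma us_up {A X : ℕ} {U : ℝ} (hX1 : 1 ≤ X) {f : Fin k → ℤ[X]} (h : US k 1 (((X ^ A : ℕ) : ℝ)) U f) :
    US k 1 ((X : ℝ) ^ ((A : ℝ) + 1)) U f :=
  { irr := h.irr, deg := h.deg, degD := h.degD
    hgt := fun i n => (h.hgt i n).trans (by
      have hX1' : (1 : ℝ) ≤ X := by exact_mod_cast hX1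
      push_cast
      rw [← Real.rpow_natCast]
      exact Real.rpow_le_rpow_of_exponent_le hX1' (by linarith))
    adm := h.adm, tr := h.tr }

open Classical in
/-- **The spacing laws, uniformly in the set of linear forms.** -/
theorem gapL (k A : ℕ) (hk2 : 2 ≤ k) (δ' θ : ℝ) (hδ' : 0 < δ') (hθ : 0 < θ) (k0 : ℕ) (x0 ε : ℝ) (hε : 0 < ε) :
    ∃ r0 : ℕ, ∀ r : ℕ, r0 ≤ r → ∀ᶠ X : ℕ in atTop, ∀ L : Finset (ℤ × ℤ), L.card = k →
      Good (X ^ A) L → NoT L ((X : ℝ) ^ δ') → ∀ y : ℕ, y = ⌊(X : ℝ) ^ (1 / (r : ℝ))⌋₊ →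
      ∀ u Y : ℕ, (X : ℝ) ^ θ ≤ Y → ∀ l T : ℕ, (l ≤ k0 ∨ T * De L y ≤ x0) →
        |(Dk L y l T u Y : ℝ) - Y * De L y *
          ∑ j ∈ range l, Real.exp (-(T * De L y)) * (T * De L y) ^ j / j.factorial| ≤
          ε * (Y * De L y) := by
  obtain ⟨r0, h0⟩ := gap_polys k 1 ((A : ℝ) + 1) δ' θ (by positivity) hδ' hθ k0 x0 ε hε
  refine ⟨max r0 2, ?_⟩
  intro r hr
  have hr2 : 2 ≤ r := (le_max_right _ _).trans hr
  obtain ⟨C, hC, hVz⟩ := V_up A r hr2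
  filter_upwards [h0 r ((le_max_left _ _).trans hr) C, hVz, eventually_ge_atTop 1] with X h1 h2 h3
  intro L hL hG hn y hy u Y hY l T hT
  rw [← hy] at h1 h2
  have e1 := sys_V hL y
  have h4 := h1 (sys L k hL) (us_up h3 (hG.us hn hL)) (by
    rw [e1]
    exact h2 L (by omega) hG) u Y hY l T (by rw [e1]; exact hT)
  rw [Dk_eq hL, e1] at h4
  exact h4

open Classical in
/-- **Regular points, uniformly in the set of linear forms.** -/
theorem regL (k A : ℕ) (hk2 : 2 ≤ k) (θ : ℝ) (hθ : 0 < θ) :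
    ∃ r0 : ℕ, 2 ≤ r0 ∧ ∀ r : ℕ, r0 ≤ r → ∀ ε : ℝ, 0 < ε → ∃ c : ℝ, 0 < c ∧
      ∀ δ : ℝ, 0 < δ → ∃ M : ℕ, ∀ᶠ X : ℕ in atTop, ∀ L : Finset (ℤ × ℤ), L.card = k →
      Good (X ^ A) L → ∀ y : ℕ, y = ⌊(X : ℝ) ^ (1 / (r : ℝ))⌋₊ →
      ∀ u Y : ℕ, (X : ℝ) ^ θ ≤ Y → Y ≤ X → Y ≤ u → ∀ S : Set ℕ, (∀ m ∈ S, Ro L y m) →
        (cnt (Irregular S (1 / De L y) c δ M Y) u (u + Y) : ℝ) ≤ ε * (Y * De L y) := by
  obtain ⟨r0, hr0, h0⟩ := hered_polys k 1 (k * k) ((A : ℝ) + 1) 1 θ (by positivity) one_pos hθ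
  refine ⟨r0, hr0, ?_⟩
  intro r hr ε hε
  obtain ⟨C, hC, hVz⟩ := V_up A r (hr0.trans hr)
  obtain ⟨cc, hcc, h1⟩ := h0 r hr C hC ε hε
  refine ⟨cc, hcc, ?_⟩
  intro δ hδ
  obtain ⟨M, h2⟩ := h1 δ hδ
  refine ⟨M, ?_⟩
  filter_upwards [h2, hVz, eventually_ge_atTop 1] with X h3 h4 h5
  intro L hL hG y hy u Y hY hYX hYu S hS
  rw [← hy] at h3 h4
  have e1 := sys_V hL y
  have h6 := h3 (sys L k hL) (us_up h5 (hG.us0 hL)) (exc L) (exc_card hL) (hG.noAs hL _) (by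
    rw [e1]
    exact h4 L (by omega) hG) u Y hY hYX hYu S (fun m hm => (sys_Sf hL y m).2 (hS m hm))
  rw [e1] at h6
  exact h6

/-! ## The law after primes -/

open Classical in
/-- the density relative to the primes -/
noncomputable def Wr (L : Finset (ℤ × ℤ)) (y : ℕ) : ℝ := ∏ p ∈ (Finset.range (y + 1)).filter Nat.Prime,
    (1 - (((Finset.range p).filter (fun m : ℕ => ∃ l ∈ L, (p : ℤ) ∣ l.1 * m + l.2)).card : ℝ) / p) /
      (1 - 1 / (p : ℝ))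

lemma W_eq (L : Finset (ℤ × ℤ)) (y : ℕ) : De L y / D1 y = Wr L y := by
  unfold De D1 Wr
  rw [← Finset.prod_div_distrib]

open Classical in
/-- the `n` in `(u, u + Y]` with `a n + b` prime for which all forms are free of prime factors `≤ y` -/
noncomputable def Pr (a b : ℕ) (L : Finset (ℤ × ℤ)) (y u Y : ℕ) : Finset ℕ :=
  (Ioc u (u + Y)).filter (fun n => (a * n + b).Prime ∧ Ro L y n)

open Classical in
/-- the number of the `m` in `(n, n + T]` with `Ro L y m` -/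
noncomputable def Nx (L : Finset (ℤ × ℤ)) (y T n : ℕ) : ℕ := ((Ioc n (n + T)).filter (fun m => Ro L y m)).card

open Classical in
/-- **The law after primes, uniformly in the set of linear forms.** -/
theorem primeL (a k A : ℕ) (ha : Squarefree a) (hk2 : 2 ≤ k) (δ' θ δ : ℝ) (hδ' : 0 < δ') (hθ : 0 < θ)
    (hδ : 0 < δ) (hδ1 : δ ≤ 1) (x0 ε : ℝ) (hε : 0 < ε) (hε1 : ε ≤ 1) :
    ∃ r0 : ℕ, 2 ≤ r0 ∧ ∀ r : ℕ, r0 ≤ r → ∀ᶠ N : ℕ in atTop, ∀ (L : Finset (ℤ × ℤ)) (b : ℕ), L.card = k →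
      ((a : ℤ), (b : ℤ)) ∈ L → (b : ℝ) ≤ (N : ℝ) ^ (θ / 4) →
      (∀ p : ℕ, p.Prime → p ∣ a → ∀ l ∈ L, (p : ℤ) ∣ l.1) →
      Good (N ^ A) L → NoT L ((N : ℝ) ^ δ') → ∀ y : ℕ, y = ⌊(N : ℝ) ^ (1 / (r : ℝ))⌋₊ →
      0 < Wr L y ∧ ∀ X : ℕ, (N : ℝ) ^ θ ≤ X → ∀ u Y : ℕ, δ * X ≤ Y → u + Y ≤ X →
      |((Pr a b L y u Y).card : ℝ) * Real.log X - Y * Wr L y| ≤ ε * (Y * Wr L y) ∧
      ∀ T : ℕ, T * De L y ≤ x0 → ∀ J : Finset ℕ,
      |(((Pr a b L y u Y).filter (fun n => Nx L y T n ∈ J)).card : ℝ) - (Pr a b L y u Y).card *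
          ∑ j ∈ J, Real.exp (-(T * De L y)) * (T * De L y) ^ j / j.factorial| ≤
        ε * (Pr a b L y u Y).card := by
  obtain ⟨r0, hr0, h0⟩ := prime_full a k 1 ha ((A : ℝ) + 1) δ' θ δ (by positivity) hδ'
    hθ hδ hδ1 x0 ε hε hε1
  refine ⟨r0, hr0, ?_⟩
  intro r hr
  obtain ⟨C, hC, hVz⟩ := V_up A r (hr0.trans hr)
  filter_upwards [h0 r hr C, hVz, eventually_ge_atTop 1] with N h1 h2 h3
  intro L b hL hb hbN hdv hG hn y hy
  rw [← hy] at h1 h2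
  have e1 := sys_V hL y
  have hus := us_up h3 (hG.us hn hL)
  have hWpos : 0 < Wr L y := by
    rw [← W_eq, ← e1, ← Vz_D1]
    apply div_pos
    · exact Vq_pos _ (fun p hp => us_adm hus p hp) y
    · exact Pool.Agent.Y879.PR.Vz_pos y
  refine ⟨hWpos, ?_⟩
  intro X hX u Y hY huY
  have hcop : Nat.Coprime a b := Nat.isCoprime_iff_coprime.1 (hG.cop _ hb)
  have h4 := h1 (sys L k hL) b hus hcop (fun p n hp hpa hQ => by
      obtain ⟨l, hl, hd⟩ := (sys_Q hL p n).1 hQ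
      have h5 := hdv p hp hpa l hl
      have h6 : (p : ℤ) ∣ l.2 := (dvd_add_right (Dvd.dvd.mul_right h5 _)).1 hd
      have h7 := (hG.cop l hl).isUnit_of_dvd' h5 h6
      exact hp.one_lt.ne' (by
        have := Int.natAbs_of_isUnit h7
        simpa using this))
    ⟨L.equivFinOfCardEq hL ⟨_, hb⟩, fun n => by
      unfold sys
      rw [lf_eval, Equiv.symm_apply_apply]⟩
    (by rw [e1]; exact h2 L (by omega) hG) hbN X hX u Y hY huY
  rw [e1, Vz_D1, W_eq] at h4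
  have eOm : Om a b (Q (sys L k hL)) y u Y = Pr a b L y u Y := by
    unfold Om Pr
    apply Finset.filter_congr
    intro n _
    rw [sys_Sf hL]
  rw [eOm] at h4
  refine ⟨h4.1, ?_⟩
  intro T hT J
  have h5 := h4.2 T hT J
  have eW : ∀ n, Wc (Sf (Q (sys L k hL)) y) n T = Nx L y T n := by
    intro n
    unfold Wc Nx
    congr 1
    apply Finset.filter_congr
    intro m _
    exact sys_Sf hL y m
  simp only [eW] at h5
  exact h5

/-! ## Narrow progressions -/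

lemma z_sys {N : ℕ} (hG : Good N L) : Poly.Sys (sys L L.card rfl) := by
  have hus := hG.us0 (k := L.card) rfl
  refine ⟨hus.irr, fun i => Nat.pos_of_ne_zero (hus.deg i), ?_, ?_, hus.adm⟩
  · intro i
    have h1 := hG.one _ ((L.equivFinOfCardEq rfl).symm i).2
    unfold sys
    rw [Polynomial.leadingCoeff, lf_deg _ _ (by omega), lf_coeff]
    simp only [one_ne_zero, if_false, if_true]
    omega
  · intro i j hij
    unfold sys at hij
    obtain ⟨h1, h2⟩ := lf_inj _ _ _ _ hij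
    exact (L.equivFinOfCardEq rfl).symm.injective (Subtype.ext (Prod.ext h1 h2))

open Classical in
/-- **Narrow progressions for linear forms.** -/
theorem narL {N : ℕ} (hG : Good N L) (hL : L.Nonempty)
    (θ : ℝ) (hθ : 0 < θ) (r : ℕ) (hr : 2 ≤ r) (l : ℕ) (hl : 2 ≤ l) (ε : ℝ) (hε : 0 < ε) :
    ∃ B : ℕ, ∀ᶠ X : ℕ in atTop, ∀ Y : ℕ, (X : ℝ) ^ θ ≤ Y → Y ≤ X →
      ∀ A : Set ℕ, (∀ m ∈ A, ∀ l ∈ L, ∀ p : ℕ, p.Prime → (p : ℤ) ∣ l.1 * m + l.2 →
        (m : ℝ) ^ (1 / (r : ℝ)) < (p : ℝ)) →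
        (((Ioc X (X + Y)).filter (fun m : ℕ =>
          m ∈ A ∧ ¬ Tu.InP A l (Real.log X ^ B) X (X + Y + 1) m)).card : ℝ) ≤
        ε * (Y / Real.log X ^ L.card) := by
  have : Nonempty (Fin L.card) := ⟨⟨0, Finset.card_pos.2 hL⟩⟩
  obtain ⟨B, hB⟩ := Pool.Agent.Y677.RSZ.narrow (sys L L.card rfl) (z_sys hG) θ hθ r hr l hl ε hε
  refine ⟨B, ?_⟩
  filter_upwards [hB] with X hX Y hXY hYX A hA
  have h := hX Y hXY hYX A (fun m hm => by
    intro i p hp hd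
    obtain ⟨l', hl', hd'⟩ := (sys_Q rfl p m).1 ⟨i, hd⟩
    exact hA m hm l' hl' p hp hd')
  rw [Fintype.card_fin, mul_div_assoc] at h
  refine le_trans (le_of_eq ?_) h
  unfold Pool.Agent.TH977.PW.N
  congr 2
  apply filter_congr
  intro m _
  unfold Pool.Agent.Y677.RSZ.Outside Pool.Agent.Y677.RSZ.InProg Tu.InP
  simp only [Set.mem_ofPred_eq, Order.lt_add_one_iff]

end Pool.Agent.R490.LZ
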