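import Pool.Agent.R490.LZ
import Pool.Agent.R490.Gen

set_option autoImplicit false

/-!
# Finite sets of integer linear forms: the theorems in terms of the predicate `p` divides a value at `m`
-/

namespace Pool.Agent.R490.LZR

open Finset Filter
open Pool.Agent.R490.Sg (D1 cnt Irregular)
open Pool.Agent.R490.Pg (Ro De Dk)
open Pool.Agent.R490.Gn (Pb Nx Wr)
open Pool.Agent.R490.LZ (Good NoT)

/-- `g` describes the zeros of the product of the forms of `L` -/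
def Rep (L : Finset (ℤ × ℤ)) (g : ℕ → ℕ → Prop) : Prop :=
  ∀ p m : ℕ, (∃ l ∈ L, (p : ℤ) ∣ l.1 * m + l.2) ↔ g p m

lemma rep_Ro {L : Finset (ℤ × ℤ)} {g : ℕ → ℕ → Prop} (h : Rep L g) (y m : ℕ) : LZ.Ro L y m ↔ Ro g y m := by
  unfold LZ.Ro Ro
  constructor
  · intro h1 p hp hpy hg
    obtain ⟨l, hl, hd⟩ := (h p m).2 hg
    exact h1 p hp hpy l hl hd
  · intro h1 p hp hpy l hl hd
    exact h1 p hp hpy ((h p m).1 ⟨l, hl, hd⟩)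

open Classical in
lemma rep_De {L : Finset (ℤ × ℤ)} {g : ℕ → ℕ → Prop} (h : Rep L g) (y : ℕ) : LZ.De L y = De g y := by
  unfold LZ.De De
  apply Finset.prod_congr rfl
  intro p _
  congr 4
  apply Finset.filter_congr
  intro m _
  exact h p m

open Classical in
lemma rep_Dk {L : Finset (ℤ × ℤ)} {g : ℕ → ℕ → Prop} (h : Rep L g) (y k T u Y : ℕ) :
    LZ.Dk L y k T u Y = Dk g y k T u Y := by
  have e : LZ.Ro L y = fun m => Ro g y m := by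
    funext m
    exact propext (rep_Ro h y m)
  unfold LZ.Dk Dk
  rw [e]

/-- the law of the spacings in terms of `g` -/
theorem gapZ (k A : ℕ) (hk2 : 2 ≤ k) (δ' θ : ℝ) (hδ' : 0 < δ') (hθ : 0 < θ) (k0 : ℕ) (x0 ε : ℝ) (hε : 0 < ε) :
    ∃ r0 : ℕ, ∀ r : ℕ, r0 ≤ r → ∀ᶠ X : ℕ in atTop, ∀ (L : Finset (ℤ × ℤ)) (g : ℕ → ℕ → Prop), L.card = k →
      Rep L g → Good (X ^ A) L → NoT L ((X : ℝ) ^ δ') → ∀ y : ℕ, y = ⌊(X : ℝ) ^ (1 / (r : ℝ))⌋₊ →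
      ∀ u Y : ℕ, (X : ℝ) ^ θ ≤ Y → ∀ l T : ℕ, (l ≤ k0 ∨ T * De g y ≤ x0) →
        |(Dk g y l T u Y : ℝ) - Y * De g y *
          ∑ j ∈ range l, Real.exp (-(T * De g y)) * (T * De g y) ^ j / j.factorial| ≤
          ε * (Y * De g y) := by
  obtain ⟨r0, h0⟩ := LZ.gapL k A hk2 δ' θ hδ' hθ k0 x0 ε hε
  refine ⟨r0, fun r hr => ?_⟩
  filter_upwards [h0 r hr] with X hX
  intro L g hL hR hG hN y hy u Y hY l T hT
  have h1 := hX L hL hG hN y hy u Y hY l T (by rw [rep_De hR]; exact hT)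
  rw [rep_De hR, rep_Dk hR] at h1
  exact h1

open Classical in
/-- the regular points in terms of `g` -/
theorem regZ (k A : ℕ) (hk2 : 2 ≤ k) (θ : ℝ) (hθ : 0 < θ) :
    ∃ r0 : ℕ, 2 ≤ r0 ∧ ∀ r : ℕ, r0 ≤ r → ∀ ε : ℝ, 0 < ε → ∃ c : ℝ, 0 < c ∧
      ∀ δ : ℝ, 0 < δ → ∃ M : ℕ, ∀ᶠ X : ℕ in atTop, ∀ (L : Finset (ℤ × ℤ)) (g : ℕ → ℕ → Prop), L.card = k →
      Rep L g → Good (X ^ A) L → ∀ y : ℕ, y = ⌊(X : ℝ) ^ (1 / (r : ℝ))⌋₊ →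
      ∀ u Y : ℕ, (X : ℝ) ^ θ ≤ Y → Y ≤ X → Y ≤ u → ∀ S : Set ℕ, (∀ m ∈ S, Ro g y m) →
        (cnt (Irregular S (1 / De g y) c δ M Y) u (u + Y) : ℝ) ≤ ε * (Y * De g y) := by
  obtain ⟨r0, hr0, h0⟩ := LZ.regL k A hk2 θ hθ
  refine ⟨r0, hr0, fun r hr ε hε => ?_⟩
  obtain ⟨c, hc, h1⟩ := h0 r hr ε hε
  refine ⟨c, hc, fun δ hδ => ?_⟩
  obtain ⟨M, h2⟩ := h1 δ hδ
  refine ⟨M, ?_⟩
  filter_upwards [h2] with X hX
  intro L g hL hR hG y hy u Y hY hYX hYu S hS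
  have h1 := hX L hL hG y hy u Y hY hYX hYu S (fun m hm => (rep_Ro hR _ m).2 (hS m hm))
  rw [rep_De hR] at h1
  exact h1

open Classical in
/-- the law after primes in terms of `g` -/
theorem primeZ (a k A : ℕ) (ha : Squarefree a) (hk2 : 2 ≤ k) (δ' θ δ : ℝ) (hδ' : 0 < δ') (hθ : 0 < θ)
    (hδ : 0 < δ) (hδ1 : δ ≤ 1) (x0 ε : ℝ) (hε : 0 < ε) (hε1 : ε ≤ 1) :
    ∃ r0 : ℕ, 2 ≤ r0 ∧ ∀ r : ℕ, r0 ≤ r → ∀ᶠ N : ℕ in atTop, ∀ (L : Finset (ℤ × ℤ)) (g : ℕ → ℕ → Prop) (b : ℕ),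
      L.card = k → Rep L g → ((a : ℤ), (b : ℤ)) ∈ L → (b : ℝ) ≤ (N : ℝ) ^ (θ / 4) →
      (∀ p : ℕ, p.Prime → p ∣ a → ∀ l ∈ L, (p : ℤ) ∣ l.1) →
      Good (N ^ A) L → NoT L ((N : ℝ) ^ δ') → ∀ y : ℕ, y = ⌊(N : ℝ) ^ (1 / (r : ℝ))⌋₊ →
      0 < Wr g y ∧ ∀ X : ℕ, (N : ℝ) ^ θ ≤ X → ∀ u Y : ℕ, δ * X ≤ Y → u + Y ≤ X →
      |((Pb a b g y u Y).card : ℝ) * Real.log X - Y * Wr g y| ≤ ε * (Y * Wr g y) ∧
      ∀ T : ℕ, T * De g y ≤ x0 → ∀ J : Finset ℕ,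
      |(((Pb a b g y u Y).filter (fun n => Nx g y T n ∈ J)).card : ℝ) - (Pb a b g y u Y).card *
          ∑ j ∈ J, Real.exp (-(T * De g y)) * (T * De g y) ^ j / j.factorial| ≤
        ε * (Pb a b g y u Y).card := by
  obtain ⟨r0, hr0, h0⟩ := LZ.primeL a k A ha hk2 δ' θ δ hδ' hθ hδ hδ1 x0 ε hε hε1
  refine ⟨r0, hr0, fun r hr => ?_⟩
  filter_upwards [h0 r hr] with N hN
  intro L g b hL hR hb hbN hdv hG hn y hy
  have h1 := hN L b hL hb hbN hdv hG hn y hy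
  have eR : LZ.Ro L y = fun m => Ro g y m := by
    funext m
    exact propext (rep_Ro hR y m)
  have eW : LZ.Wr L y = Wr g y := by
    rw [← LZ.W_eq, rep_De hR]
    rfl
  have eP : ∀ u Y, LZ.Pr a b L y u Y = Pb a b g y u Y := by
    intro u Y
    unfold LZ.Pr Pb
    apply Finset.filter_congr
    intro n _
    rw [rep_Ro hR]
  have eN : ∀ T n, LZ.Nx L y T n = Nx g y T n := by
    intro T n
    unfold LZ.Nx Nx
    congr 1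
    apply Finset.filter_congr
    intro m _
    exact rep_Ro hR y m
  simp only [eW, eP, eN, rep_De hR] at h1
  exact h1

end Pool.Agent.R490.LZR
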