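import Pool.Agent.R490.Single
import Pool.Agent.Y879.GL.Linear

set_option autoImplicit false

/-!
# Finite sets of linear forms, uniformly in the coefficients: spacings and regular points
-/

namespace Pool.Agent.R490.Li

open Polynomial Finset Filter
open Pool.Agent.W123.RP Pool.Agent.H373R2.T7 Pool.Agent.W123.RU Pool.Agent.W123.RU.Poly
open Pool.Agent.TH464.PW Pool.Agent.TH464.PO Pool.Agent.Y879.GL
open Pool.Agent.R490.Sg (D1 pz_eq Vz_D1 cnt RightOrder ConstantDensity badScales Irregular)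

/-- no `a m + b`, `(a, b) ∈ L`, has a prime factor `≤ y` -/
def Ro (L : Finset (ℕ × ℕ)) (y m : ℕ) : Prop := ∀ p : ℕ, p.Prime → p ≤ y → ∀ l ∈ L, ¬ p ∣ l.1 * m + l.2

open Classical in
/-- the density of the condition `Ro` -/
noncomputable def De (L : Finset (ℕ × ℕ)) (y : ℕ) : ℝ := ∏ p ∈ (Finset.range (y + 1)).filter Nat.Prime,
    (1 - (((Finset.range p).filter (fun m : ℕ => ∃ l ∈ L, p ∣ l.1 * m + l.2)).card : ℝ) / p)

/-- the system -/
noncomputable def sys (L : Finset (ℕ × ℕ)) (k : ℕ) (hk : L.card = k) : Fin k → ℤ[X] := fun i =>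
  lf ((((L.equivFinOfCardEq hk).symm i : ℕ × ℕ).1 : ℕ) : ℤ) ((((L.equivFinOfCardEq hk).symm i : ℕ × ℕ).2 : ℕ) : ℤ)

variable {L : Finset (ℕ × ℕ)} {k : ℕ}

lemma sys_Q (hk : L.card = k) (p m : ℕ) : Q (sys L k hk) p m ↔ ∃ l ∈ L, p ∣ l.1 * m + l.2 := by
  unfold Q sys
  constructor
  · rintro ⟨i, hi⟩
    refine ⟨_, ((L.equivFinOfCardEq hk).symm i).2, ?_⟩
    rw [lf_eval] at hi
    exact_mod_cast hi
  · rintro ⟨l, hl, h⟩
    refine ⟨L.equivFinOfCardEq hk ⟨l, hl⟩, ?_⟩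
    rw [lf_eval, Equiv.symm_apply_apply]
    exact_mod_cast h

open Classical in
lemma sys_V (hk : L.card = k) (y : ℕ) : Vq (Q (sys L k hk)) y = De L y := by
  unfold Vq De
  rw [pz_eq]
  apply Finset.prod_congr rfl
  intro p _
  unfold nuB
  simp only [sys_Q hk]

lemma sys_Sf (hk : L.card = k) (y m : ℕ) : Sf (Q (sys L k hk)) y m ↔ Ro L y m := by
  unfold Sf Ro
  constructor
  · intro h p hp hpy l hl hd
    exact h p (mem_pz.2 ⟨hpy, hp⟩) ((sys_Q hk p m).2 ⟨l, hl, hd⟩)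
  · intro h p hp hd
    obtain ⟨l, hl, hd⟩ := (sys_Q hk p m).1 hd
    exact h p (mem_pz.1 hp).2 (mem_pz.1 hp).1 l hl hd

/-- the sets of forms to which the theorems apply -/
structure Good (H : ℕ) (L : Finset (ℕ × ℕ)) : Prop where
  one : ∀ l ∈ L, 1 ≤ l.1
  cop : ∀ l ∈ L, Nat.Coprime l.1 l.2
  bda : ∀ l ∈ L, l.1 ≤ H
  bdb : ∀ l ∈ L, l.2 ≤ H
  adm : ∀ p : ℕ, p.Prime → ∃ m : ℕ, ∀ l ∈ L, ¬ p ∣ l.1 * m + l.2

lemma Good.us0 {H : ℕ} (h : Good H L) (hk : L.card = k) : US k 1 (H : ℝ) 0 (sys L k hk) := by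
  apply us_lf
  · intro i
    have := h.one _ ((L.equivFinOfCardEq hk).symm i).2
    exact_mod_cast (by omega : (((L.equivFinOfCardEq hk).symm i : ℕ × ℕ).1) ≠ 0)
  · intro i
    exact Nat.isCoprime_iff_coprime.2 (h.cop _ ((L.equivFinOfCardEq hk).symm i).2)
  · intro i
    push_cast
    rw [abs_of_nonneg (Nat.cast_nonneg _)]
    exact_mod_cast h.bda _ ((L.equivFinOfCardEq hk).symm i).2
  · intro i
    push_cast
    rw [abs_of_nonneg (Nat.cast_nonneg _)]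
    exact_mod_cast h.bdb _ ((L.equivFinOfCardEq hk).symm i).2
  · intro p hp
    obtain ⟨m, hm⟩ := h.adm p hp
    refine ⟨m, fun i hi => hm _ ((L.equivFinOfCardEq hk).symm i).2 ?_⟩
    exact_mod_cast hi
  · intro i j t ht htU
    exfalso
    have : (1 : ℝ) ≤ t := by exact_mod_cast ht
    linarith

/-- the exceptional shifts -/
def exc (L : Finset (ℕ × ℕ)) : Finset ℕ := (L ×ˢ L).image (fun z => (z.1.2 - z.2.2) / z.2.1)

lemma exc_card (hk : L.card = k) : (exc L).card ≤ k * k := by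
  unfold exc
  refine Finset.card_image_le.trans ?_
  rw [Finset.card_product, hk]

lemma as_cases {H : ℕ} (h : Good H L) (hk : L.card = k) (i j : Fin k) (t : ℕ)
    (ha : Associated (sys L k hk i) ((sys L k hk j).comp (X + C (t : ℤ)))) :
    ∃ l ∈ L, ∃ l' ∈ L, l.1 = l'.1 ∧ l.2 = l'.2 + l'.1 * t := by
  unfold sys at ha
  refine ⟨_, ((L.equivFinOfCardEq hk).symm i).2, _, ((L.equivFinOfCardEq hk).symm j).2, ?_⟩
  rcases lf_assoc _ _ _ _ _ ha with h1 | h1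
  · exact_mod_cast h1
  · exfalso
    have h2 := h.one _ ((L.equivFinOfCardEq hk).symm i).2
    have h3 := h.one _ ((L.equivFinOfCardEq hk).symm j).2
    have h4 := h1.1
    have h5 : (1 : ℤ) ≤ (((L.equivFinOfCardEq hk).symm i : ℕ × ℕ).1 : ℤ) := by exact_mod_cast h2
    have h6 : (1 : ℤ) ≤ (((L.equivFinOfCardEq hk).symm j : ℕ × ℕ).1 : ℤ) := by exact_mod_cast h3
    omega

lemma Good.noAs {H : ℕ} (h : Good H L) (hk : L.card = k) (U : ℝ) : NoAs (sys L k hk) (exc L) U := by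
  intro i j t ht _ htE ha
  apply htE
  obtain ⟨l, hl, l', hl', h1, h2⟩ := as_cases h hk i j t ha
  unfold exc
  rw [mem_image]
  refine ⟨(l, l'), mem_product.2 ⟨hl, hl'⟩, ?_⟩
  simp only
  rw [h2, Nat.add_sub_cancel_left]
  exact Nat.mul_div_cancel_left _ (h.one _ hl')

/-- no two forms are translates of each other -/
def NoT (L : Finset (ℕ × ℕ)) : Prop := ∀ l ∈ L, ∀ l' ∈ L, ∀ t : ℕ, 1 ≤ t → l.1 = l'.1 → l.2 ≠ l'.2 + l'.1 * t

lemma Good.us {H : ℕ} (h : Good H L) (hn : NoT L) (hk : L.card = k) (U : ℝ) :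
    US k 1 (H : ℝ) U (sys L k hk) := by
  have h0 := h.us0 hk
  exact {
    irr := h0.irr
    deg := h0.deg
    degD := h0.degD
    hgt := h0.hgt
    adm := h0.adm
    tr := fun i j t ht _ ha => by
      obtain ⟨l, hl, l', hl', h1, h2⟩ := as_cases h hk i j t ha
      exact hn l hl l' hl' t ht h1 h2 }

open Classical in
/-- the number of the `n` in `(u, u + Y]` with `Ro L y n` for which fewer than `k` of the `T` integers before
`n` have this property -/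
noncomputable def Dk (L : Finset (ℕ × ℕ)) (y k T u Y : ℕ) : ℕ :=
  ((Ioc u (u + Y)).filter (fun n => Ro L y n ∧ ((Ico (n - T) n).filter (fun m => Ro L y m)).card < k)).card

open Classical in
lemma Dk_eq (hk : L.card = k) (y l T u Y : ℕ) :
    Pk (Sf (Q (sys L k hk)) y) l T u Y = Dk L y l T u Y := by
  have e : Sf (Q (sys L k hk)) y = fun m => Ro L y m := by
    funext m
    exact propext (sys_Sf hk y m)
  unfold Pk Dk
  rw [e]

open Classical in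
/-- two forms with different zeros modulo `p` -/
lemma two_le (hk : L.card = k) (l l' : ℕ × ℕ) (hl : l ∈ L) (hl' : l' ∈ L) (p : ℕ) (hp : p.Prime)
    (h1 : ¬ p ∣ l.1) (h2 : ¬ p ∣ l'.1) (h3 : ¬ (p : ℤ) ∣ (l.1 : ℤ) * l'.2 - l'.1 * l.2) :
    2 ≤ nuB (Q (sys L k hk)) p := by
  have hpp := Fact.mk hp
  have key : ∀ a b : ℕ, ¬ p ∣ a → ∃ m : ℕ, m < p ∧ p ∣ a * m + b := by
    intro a b ha
    have ha0 : (a : ZMod p) ≠ 0 := by
      rw [Ne, ZMod.natCast_eq_zero_iff]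
      exact ha
    refine ⟨(-(b : ZMod p) * (a : ZMod p)⁻¹).val, ZMod.val_lt _, ?_⟩
    rw [← ZMod.natCast_eq_zero_iff]
    push_cast
    rw [ZMod.natCast_val, ZMod.cast_id]
    field_simp
    ring
  obtain ⟨m, hm, hm2⟩ := key l.1 l.2 h1
  obtain ⟨m', hm', hm2'⟩ := key l'.1 l'.2 h2
  have hne : m ≠ m' := by
    rintro rfl
    apply h3
    have e1 : (p : ℤ) ∣ (l.1 : ℤ) * m + l.2 := by exact_mod_cast hm2
    have e2 : (p : ℤ) ∣ (l'.1 : ℤ) * m + l'.2 := by exact_mod_cast hm2'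
    have e3 : (l.1 : ℤ) * l'.2 - l'.1 * l.2 = l.1 * ((l'.1 : ℤ) * m + l'.2) - l'.1 * ((l.1 : ℤ) * m + l.2) := by
      ring
    rw [e3]
    exact dvd_sub (Dvd.dvd.mul_left e2 _) (Dvd.dvd.mul_left e1 _)
  unfold nuB
  rw [show (2 : ℕ) = ({m, m'} : Finset ℕ).card from (Finset.card_pair hne).symm]
  apply Finset.card_le_card
  intro x hx
  rw [mem_insert, mem_singleton] at hx
  refine (@Finset.mem_filter _ _ (fun a => Classical.propDecidable _) _ _).2 ?_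
  rcases hx with rfl | rfl
  · exact ⟨mem_range.2 hm, (sys_Q hk p x).2 ⟨l, hl, hm2⟩⟩
  · exact ⟨mem_range.2 hm', (sys_Q hk p x).2 ⟨l', hl', hm2'⟩⟩

/-- the density is `O(1 / log X)` if there are at least two forms -/
lemma V_up (A : ℕ) (r : ℕ) (hr2 : 2 ≤ r) : ∃ M : ℝ, 0 < M ∧ ∀ᶠ X : ℕ in atTop,
    ∀ L : Finset (ℕ × ℕ), 2 ≤ L.card → Good (X ^ A) L →
      De L ⌊(X : ℝ) ^ (1 / (r : ℝ))⌋₊ ≤ M / Real.log X := by
  obtain ⟨M, hM, h⟩ := V2_up (4 * A + 1) (by positivity) r hr2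
  refine ⟨M, hM, ?_⟩
  filter_upwards [h, eventually_ge_atTop 1] with X hX hX1
  intro L hL hG
  obtain ⟨l, hl, l', hl', hne⟩ := Finset.one_lt_card.1 hL
  rw [← sys_V (L := L) rfl]
  obtain ⟨d, hd⟩ : ∃ d : ℤ, d = (l.1 : ℤ) * l'.2 - l'.1 * l.2 := ⟨_, rfl⟩
  have hd0 : d ≠ 0 := by
    rw [hd]
    intro h0
    apply hne
    have e1 : l.1 * l'.2 = l'.1 * l.2 := by
      have : (l.1 : ℤ) * l'.2 = l'.1 * l.2 := by linarith
      exact_mod_cast this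
    have e2 : l.1 ∣ l'.1 := (hG.cop l hl).dvd_of_dvd_mul_right (e1 ▸ dvd_mul_right _ _)
    have e3 : l'.1 ∣ l.1 := (hG.cop l' hl').dvd_of_dvd_mul_right (e1 ▸ dvd_mul_right _ _)
    have e4 : l.1 = l'.1 := Nat.dvd_antisymm e2 e3
    have e5 : l.2 = l'.2 := by
      rw [e4] at e1
      exact (Nat.eq_of_mul_eq_mul_left (hG.one l' hl') e1).symm
    exact Prod.ext e4 e5
  have ba := hG.bda l hl
  have ba' := hG.bda l' hl'
  have bb := hG.bdb l hl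
  have bb' := hG.bdb l' hl'
  have hdb : d.natAbs ≤ (X ^ A) * (X ^ A) := by
    have h1 : l.1 * l'.2 ≤ (X ^ A) * (X ^ A) := Nat.mul_le_mul ba bb'
    have h2 : l'.1 * l.2 ≤ (X ^ A) * (X ^ A) := Nat.mul_le_mul ba' bb
    have h3 : (0 : ℤ) ≤ (l.1 : ℤ) * l'.2 := by positivity
    have h4 : (0 : ℤ) ≤ (l'.1 : ℤ) * l.2 := by positivity
    have h1' : (l.1 : ℤ) * l'.2 ≤ ((X ^ A * (X ^ A) : ℕ) : ℤ) := by exact_mod_cast h1
    have h2' : (l'.1 : ℤ) * l.2 ≤ ((X ^ A * (X ^ A) : ℕ) : ℤ) := by exact_mod_cast h2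
    omega
  refine hX _ (l.1 * l'.1 * d.natAbs) (us_adm (hG.us0 rfl)) ?_ ?_ ?_
  · exact Nat.mul_pos (Nat.mul_pos (hG.one l hl) (hG.one l' hl')) (Int.natAbs_pos.2 hd0)
  · have h5 : l.1 * l'.1 * d.natAbs ≤ X ^ (4 * A + 1) := by
      calc l.1 * l'.1 * d.natAbs ≤ (X ^ A * X ^ A) * (X ^ A * X ^ A) :=
            Nat.mul_le_mul (Nat.mul_le_mul ba ba') hdb
        _ = X ^ (4 * A) := by ring
        _ ≤ X ^ (4 * A + 1) := Nat.pow_le_pow_right hX1 (by omega)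
    have h6 : ((l.1 * l'.1 * d.natAbs : ℕ) : ℝ) ≤ (X : ℝ) ^ (4 * A + 1) := by exact_mod_cast h5
    refine h6.trans (le_of_eq ?_)
    rw [← Real.rpow_natCast]
    push_cast
    rfl
  · intro p hp hpD
    refine two_le rfl l l' hl hl' p hp ?_ ?_ ?_
    · exact fun h1 => hpD (Dvd.dvd.mul_right (Dvd.dvd.mul_right h1 _) _)
    · exact fun h1 => hpD (Dvd.dvd.mul_right (Dvd.dvd.mul_left h1 _) _)
    · rw [← hd]
      exact fun h1 => hpD (Dvd.dvd.mul_left (Int.natCast_dvd.1 h1) _)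

open Classical in
/-- **The spacing laws, uniformly in the set of linear forms.** -/
theorem gapL (k A : ℕ) (hk2 : 2 ≤ k) (θ : ℝ) (hθ : 0 < θ) (k0 : ℕ) (x0 ε : ℝ) (hε : 0 < ε) :
    ∃ r0 : ℕ, ∀ r : ℕ, r0 ≤ r → ∀ᶠ X : ℕ in atTop, ∀ L : Finset (ℕ × ℕ), L.card = k →
      Good (X ^ A) L → NoT L → ∀ y : ℕ, y = ⌊(X : ℝ) ^ (1 / (r : ℝ))⌋₊ →
      ∀ u Y : ℕ, (X : ℝ) ^ θ ≤ Y → ∀ l T : ℕ, (l ≤ k0 ∨ T * De L y ≤ x0) →
        |(Dk L y l T u Y : ℝ) - Y * De L y *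
          ∑ j ∈ range l, Real.exp (-(T * De L y)) * (T * De L y) ^ j / j.factorial| ≤
          ε * (Y * De L y) := by
  obtain ⟨r0, h0⟩ := gap_polys k 1 ((A : ℝ) + 1) 1 θ (by positivity) one_pos hθ k0 x0 ε hε
  refine ⟨max r0 2, ?_⟩
  intro r hr
  have hr2 : 2 ≤ r := (le_max_right _ _).trans hr
  obtain ⟨C, hC, hVz⟩ := V_up A r hr2
  filter_upwards [h0 r ((le_max_left _ _).trans hr) C, hVz, eventually_ge_atTop 1] with X h1 h2 h3
  intro L hL hG hn y hy u Y hY l T hT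
  rw [← hy] at h1 h2
  have hX1 : (1 : ℝ) ≤ X := by exact_mod_cast h3
  have hus := hG.us hn hL ((X : ℝ) ^ (1 : ℝ))
  have hus' : US k 1 ((X : ℝ) ^ ((A : ℝ) + 1)) ((X : ℝ) ^ (1 : ℝ)) (sys L k hL) :=
    { irr := hus.irr, deg := hus.deg, degD := hus.degD
      hgt := fun i n => (hus.hgt i n).trans (by
        push_cast
        rw [← Real.rpow_natCast]
        exact Real.rpow_le_rpow_of_exponent_le hX1 (by linarith))
      adm := hus.adm, tr := hus.tr }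
  have e1 := sys_V hL y
  have h4 := h1 (sys L k hL) hus' (by
    rw [e1]
    exact h2 L (by omega) hG) u Y hY l T (by rw [e1]; exact hT)
  rw [Dk_eq hL, e1] at h4
  exact h4

open Classical in
/-- **Regular points, uniformly in the set of linear forms.** -/
theorem regL (k A : ℕ) (hk2 : 2 ≤ k) (θ : ℝ) (hθ : 0 < θ) :
    ∃ r0 : ℕ, 2 ≤ r0 ∧ ∀ r : ℕ, r0 ≤ r → ∀ ε : ℝ, 0 < ε → ∃ c : ℝ, 0 < c ∧
      ∀ δ : ℝ, 0 < δ → ∃ M : ℕ, ∀ᶠ X : ℕ in atTop, ∀ L : Finset (ℕ × ℕ), L.card = k →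
      Good (X ^ A) L → ∀ y : ℕ, y = ⌊(X : ℝ) ^ (1 / (r : ℝ))⌋₊ →
      ∀ u Y : ℕ, (X : ℝ) ^ θ ≤ Y → Y ≤ X → Y ≤ u → ∀ S : Set ℕ, (∀ m ∈ S, Ro L y m) →
        (cnt (Irregular S (1 / De L y) c δ M Y) u (u + Y) : ℝ) ≤ ε * (Y * De L y) := by
  obtain ⟨r0, hr0, h0⟩ := hered_polys k 1 (k * k) ((A : ℝ) + 1) 1 θ (by positivity) one_pos hθ
  refine ⟨r0, hr0, ?_⟩
  intro r hr ε hε
  obtain ⟨C, hC, hVz⟩ := V_up A r (hr0.trans hr)
  obtain ⟨cc, hcc, h1⟩ := h0 r hr C hC ε hε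
  refine ⟨cc, hcc, ?_⟩
  intro δ hδ
  obtain ⟨M, h2⟩ := h1 δ hδ
  refine ⟨M, ?_⟩
  filter_upwards [h2, hVz, eventually_ge_atTop 1] with X h3 h4 h5
  intro L hL hG y hy u Y hY hYX hYu S hS
  rw [← hy] at h3 h4
  have e1 := sys_V hL y
  have hX1 : (1 : ℝ) ≤ X := by exact_mod_cast h5
  have hus := hG.us0 hL
  have hus' : US k 1 ((X : ℝ) ^ ((A : ℝ) + 1)) 0 (sys L k hL) :=
    { irr := hus.irr, deg := hus.deg, degD := hus.degD
      hgt := fun i n => (hus.hgt i n).trans (by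
        push_cast
        rw [← Real.rpow_natCast]
        exact Real.rpow_le_rpow_of_exponent_le hX1 (by linarith))
      adm := hus.adm, tr := hus.tr }
  have h6 := h3 (sys L k hL) hus' (exc L) (exc_card hL) (hG.noAs hL _) (by
    rw [e1]
    exact h4 L (by omega) hG) u Y hY hYX hYu S (fun m hm => (sys_Sf hL y m).2 (hS m hm))
  rw [e1] at h6
  exact h6

end Pool.Agent.R490.Li
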