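import Pool.Agent.R490.Mean

set_option autoImplicit false

/-!
# The mean absolute error for almost primes in the reduced classes of every modulus
-/

namespace Pool.Agent.R490.Lone

open Finset Filter
open Pool.Agent.W123.RP Pool.Agent.H373R2.T7 Pool.Agent.W123.RU Pool.Agent.TH464.PO Pool.Agent.TH464.PW
open Pool.Agent.Y879.AP Pool.Agent.R490.Cls Pool.Agent.R490.Mean

/-- the weights of the Poisson distribution -/
noncomputable def pw (x : ℝ) (j : ℕ) : ℝ := Real.exp (-x) * x ^ j / j.factorial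

lemma pw_nonneg (x : ℝ) (hx : 0 ≤ x) (j : ℕ) : 0 ≤ pw x j := by
  unfold pw
  have := Real.exp_pos (-x)
  positivity

lemma pw_succ (x : ℝ) (j : ℕ) : ((j : ℝ) + 1) * pw x (j + 1) = x * pw x j := by
  unfold pw
  rw [Nat.factorial_succ, pow_succ]
  have h1 : (j.factorial : ℝ) ≠ 0 := by exact_mod_cast Nat.factorial_ne_zero j
  have h2 : ((j : ℝ) + 1) ≠ 0 := by positivity
  push_cast
  field_simp

lemma defect (x : ℝ) (m : ℕ) : ∑ j ∈ range (m + 1), (x - j) * pw x j = x * pw x m := by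
  induction m with
  | zero => simp
  | succ m ih =>
    rw [Finset.sum_range_succ, ih]
    have := pw_succ x m
    push_cast
    linarith

lemma pw_le (x : ℝ) (hx : 0 ≤ x) (m : ℕ) (hm : 1 ≤ m) : pw x m ≤ 1 / √(m : ℝ) := by
  have hm0 : (0 : ℝ) < m := by exact_mod_cast (by omega : 0 < m)
  have h1 : Real.exp (-x) * x ^ m ≤ (m / Real.exp 1) ^ m := by
    have a1 : x / m ≤ Real.exp (x / m - 1) := by
      have := Real.add_one_le_exp (x / m - 1)
      linarith
    have a2 : (x / m) ^ m ≤ Real.exp (x - m) := by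
      calc (x / m) ^ m ≤ (Real.exp (x / m - 1)) ^ m := pow_le_pow_left₀ (by positivity) a1 m
        _ = Real.exp (x - m) := by
          rw [← Real.exp_nat_mul]
          congr 1
          field_simp
    have a3 : x ^ m ≤ (m : ℝ) ^ m * Real.exp (x - m) := by
      rw [div_pow, div_le_iff₀ (by positivity)] at a2
      linarith
    calc Real.exp (-x) * x ^ m ≤ Real.exp (-x) * ((m : ℝ) ^ m * Real.exp (x - m)) :=
          mul_le_mul_of_nonneg_left a3 (Real.exp_pos _).le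
      _ = (m : ℝ) ^ m * (Real.exp (-x) * Real.exp (x - m)) := by ring
      _ = (m : ℝ) ^ m * Real.exp (-m) := by rw [← Real.exp_add]; congr 2; ring
      _ = (m / Real.exp 1) ^ m := by
        rw [div_pow, ← Real.exp_nat_mul, mul_one, Real.exp_neg]
        rfl
  have h2 := Stirling.le_factorial_stirling m
  have hf : (0 : ℝ) < m.factorial := by exact_mod_cast Nat.factorial_pos m
  have hE : 0 < (m / Real.exp 1) ^ m := by have := Real.exp_pos 1; positivity
  have hs : 0 < √(m : ℝ) := Real.sqrt_pos.2 hm0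
  unfold pw
  rw [div_le_div_iff₀ hf hs, one_mul]
  have h3 : √(m : ℝ) ≤ √(2 * Real.pi * m) := by
    apply Real.sqrt_le_sqrt
    have := Real.pi_gt_three
    nlinarith
  calc Real.exp (-x) * x ^ m * √(m : ℝ) ≤ (m / Real.exp 1) ^ m * √(2 * Real.pi * m) :=
        mul_le_mul h1 h3 hs.le hE.le
    _ = √(2 * Real.pi * m) * (m / Real.exp 1) ^ m := mul_comm _ _
    _ ≤ _ := h2

lemma defect_pt (x : ℝ) (m c : ℕ) (h1 : (m : ℝ) ≤ x) (h2 : x < m + 1) :
    max (x - c) 0 = ∑ j ∈ range (m + 1), if c = j then x - j else 0 := by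
  rw [Finset.sum_ite_eq]
  by_cases h : c ∈ range (m + 1)
  · rw [if_pos h]
    apply max_eq_left
    rw [mem_range] at h
    have : (c : ℝ) ≤ m := by exact_mod_cast (by omega : c ≤ m)
    linarith
  · rw [if_neg h]
    apply max_eq_right
    rw [mem_range, not_lt] at h
    have : ((m + 1 : ℕ) : ℝ) ≤ c := by exact_mod_cast h
    push_cast at this
    linarith

lemma abs_eq (c x : ℝ) : |c - x| = 2 * max (x - c) 0 + (c - x) := by
  rcases le_total c x with h | h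
  · rw [abs_of_nonpos (by linarith), max_eq_left (by linarith)]
    ring
  · rw [abs_of_nonneg (by linarith), max_eq_right (by linarith)]
    ring

/-- the `n` of the interval `(Z, Z + Y]` which are prime to `q` -/
def Om (q Z Y : ℕ) : Finset ℕ := (Ioc Z (Z + Y)).filter (fun n => n.Coprime q)

lemma cnt_zero (q y n : ℕ) : cnt q y 0 n = 0 := by
  unfold cnt
  simp

lemma cnt_add (q y a b n : ℕ) : cnt q y (a + b) n = cnt q y a n + cnt q y b (n + q * a) := by
  classical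
  unfold cnt
  have e1 : Icc 1 (a + b) = Icc 1 a ∪ (Icc 1 b).map (addLeftEmbedding a) := by
    ext k
    simp only [mem_Icc, mem_union, Finset.mem_map, addLeftEmbedding_apply]
    constructor
    · intro h
      rcases le_or_gt k a with h1 | h1
      · left; omega
      · right; exact ⟨k - a, by omega, by omega⟩
    · rintro (h | ⟨j, h, rfl⟩) <;> omega
  have hdis : Disjoint (Icc 1 a) ((Icc 1 b).map (addLeftEmbedding a)) := by
    rw [Finset.disjoint_left]
    intro k h1 h2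
    simp only [mem_Icc, Finset.mem_map, addLeftEmbedding_apply] at h1 h2
    obtain ⟨j, h3, rfl⟩ := h2
    omega
  rw [e1, Finset.filter_union, Finset.card_union_of_disjoint (Finset.disjoint_filter_filter hdis)]
  congr 1
  rw [Finset.filter_map, Finset.card_map]
  congr 1
  apply Finset.filter_congr
  intro h _
  simp only [Function.comp, addLeftEmbedding_apply]
  rw [show n + q * (a + h) = n + q * a + q * h by ring]

lemma cnt_mono (q y n : ℕ) {a b : ℕ} (h : a ≤ b) : cnt q y a n ≤ cnt q y b n := by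
  obtain ⟨c, rfl⟩ := Nat.exists_eq_add_of_le h
  rw [cnt_add]
  omega

lemma cnt_blocks (q y T0 n M : ℕ) :
    cnt q y (M * T0) n = ∑ b ∈ range M, cnt q y T0 (n + q * (b * T0)) := by
  induction M with
  | zero => rw [Nat.zero_mul, cnt_zero, Finset.sum_range_zero]
  | succ M ih => rw [Finset.sum_range_succ, ← ih, Nat.succ_mul, cnt_add]

lemma sum_shift (q Z Y s : ℕ) (f : ℕ → ℝ) :
    ∑ n ∈ Om q Z Y, f (n + q * s) = ∑ n ∈ Om q (Z + q * s) Y, f n := by
  unfold Om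
  apply Finset.sum_bij (fun n _ => n + q * s)
  · intro n hn
    rw [mem_filter, mem_Ioc] at hn ⊢
    refine ⟨by omega, ?_⟩
    rw [Nat.coprime_add_mul_left_left]
    exact hn.2
  · intro a _ b _ hab
    exact Nat.add_right_cancel hab
  · intro m hm
    rw [mem_filter, mem_Ioc] at hm
    have hle : q * s ≤ m := by omega
    have e2 : m - q * s + q * s = m := Nat.sub_add_cancel hle
    refine ⟨m - q * s, ?_, e2⟩
    rw [mem_filter, mem_Ioc]
    refine ⟨by omega, ?_⟩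
    have := hm.2
    rw [← e2, Nat.coprime_add_mul_left_left] at this
    exact this
  · intro n _
    rfl

open Classical in
/-- the number of reduced classes -/
lemma card_cop (θ ε : ℝ) (hθ : 0 < θ) (hε : 0 < ε) :
    ∃ r0 : ℕ, 2 ≤ r0 ∧ ∀ r : ℕ, r0 ≤ r → ∀ᶠ q : ℕ in atTop, ∀ Z Y : ℕ, (q : ℝ) ^ θ ≤ Y →
      |((Om q Z Y).card : ℝ) - Y * ((q.totient : ℝ) / q)| ≤ ε * (Y * ((q.totient : ℝ) / q)) := by
  obtain ⟨r0, hr02, h0⟩ := law θ 0 ε hθ hε
  refine ⟨r0, hr02, fun r hr => ?_⟩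
  filter_upwards [h0 r hr] with q h1
  intro Z Y hY
  have h2 := h1 _ rfl Z Y hY 0 (by simp) {0}
  simp only [cnt_zero] at h2
  simp only [CharP.cast_eq_zero, zero_mul, neg_zero, Real.exp_zero, Finset.sum_singleton, pow_zero,
    Nat.factorial_zero, Nat.cast_one, div_one, mul_one, mem_singleton, and_true] at h2
  unfold Om
  convert h2

open Classical in
/-- **The mean defect in the critical range.** -/
theorem low1 (θ x0 ε : ℝ) (hθ : 0 < θ) (hε : 0 < ε) :
    ∃ r0 : ℕ, 2 ≤ r0 ∧ ∀ r : ℕ, r0 ≤ r → ∀ᶠ q : ℕ in atTop, ∀ y : ℕ, y = ⌊(q : ℝ) ^ (1 / (r : ℝ))⌋₊ →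
      ∀ Z Y : ℕ, (q : ℝ) ^ θ ≤ Y → ∀ T : ℕ, T * V q y ≤ x0 →
        |∑ n ∈ Om q Z Y, max (T * V q y - cnt q y T n) 0 -
          Y * ((q.totient : ℝ) / q) * (T * V q y * pw (T * V q y) ⌊T * V q y⌋₊)| ≤
          ε * (Y * ((q.totient : ℝ) / q)) := by
  obtain ⟨r0, hr02, h0⟩ := law θ x0 (ε / (|x0| + 1) ^ 2) hθ (by positivity)
  refine ⟨r0, hr02, fun r hr => ?_⟩
  filter_upwards [h0 r hr] with q h1
  intro y hy Z Y hY T hT
  have h2 := h1 y hy Z Y hY T hT
  obtain ⟨x, hx⟩ : ∃ x, x = T * V q y := ⟨_, rfl⟩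
  obtain ⟨N, hN⟩ : ∃ N, N = (Y : ℝ) * ((q.totient : ℝ) / q) := ⟨_, rfl⟩
  have hV0 : 0 ≤ V q y := by rw [← V_eq]; exact Vq_nonneg _ _
  have hx0 : 0 ≤ x := by rw [hx]; positivity
  have hN0 : 0 ≤ N := by rw [hN]; positivity
  rw [← hx, ← hN] at h2 ⊢
  rw [← hx] at hT
  obtain ⟨m, hm⟩ : ∃ m, m = ⌊x⌋₊ := ⟨_, rfl⟩
  have hm1 : (m : ℝ) ≤ x := by rw [hm]; exact Nat.floor_le hx0
  have hm2 : x < m + 1 := by rw [hm]; exact Nat.lt_floor_add_one x
  rw [← hm, ← defect]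
  have e1 : ∑ n ∈ Om q Z Y, max (x - cnt q y T n) 0 =
      ∑ j ∈ range (m + 1), (x - j) * (((Ioc Z (Z + Y)).filter
        (fun n => n.Coprime q ∧ cnt q y T n ∈ ({j} : Finset ℕ))).card : ℝ) := by
    have e2 : ∀ n, max (x - (cnt q y T n : ℕ)) 0 = ∑ j ∈ range (m + 1), if cnt q y T n = j then x - j else 0 :=
      fun n => defect_pt x m _ hm1 hm2
    simp only [e2]
    rw [Finset.sum_comm]
    apply Finset.sum_congr rfl
    intro j _
    rw [← Finset.sum_filter, Finset.sum_const, nsmul_eq_mul, mul_comm]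
    congr 2
    unfold Om
    rw [Finset.filter_filter]
    congr 1
    apply Finset.filter_congr
    intro n _
    rw [mem_singleton]
  rw [e1, Finset.mul_sum, ← Finset.sum_sub_distrib]
  refine (Finset.abs_sum_le_sum_abs _ _).trans ?_
  have h3 : ∀ j ∈ range (m + 1), |(x - j) * (((Ioc Z (Z + Y)).filter
        (fun n => n.Coprime q ∧ cnt q y T n ∈ ({j} : Finset ℕ))).card : ℝ) - N * ((x - j) * pw x j)| ≤
        x * (ε / (|x0| + 1) ^ 2 * N) := by
    intro j hj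
    rw [mem_range] at hj
    have hjx : (j : ℝ) ≤ x := by
      have : (j : ℝ) ≤ m := by exact_mod_cast (by omega : j ≤ m)
      linarith
    have h4 := h2 {j}
    rw [Finset.sum_singleton] at h4
    have e3 : (x - j) * (((Ioc Z (Z + Y)).filter
        (fun n => n.Coprime q ∧ cnt q y T n ∈ ({j} : Finset ℕ))).card : ℝ) - N * ((x - j) * pw x j) =
        (x - j) * ((((Ioc Z (Z + Y)).filter
        (fun n => n.Coprime q ∧ cnt q y T n ∈ ({j} : Finset ℕ))).card : ℝ) -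
          N * (Real.exp (-x) * x ^ j / j.factorial)) := by
      unfold pw
      ring
    rw [e3, abs_mul, abs_of_nonneg (by linarith : 0 ≤ x - j)]
    apply mul_le_mul _ h4 (abs_nonneg _) hx0
    have : (0 : ℝ) ≤ j := Nat.cast_nonneg j
    linarith
  refine (Finset.sum_le_sum h3).trans ?_
  rw [Finset.sum_const, card_range, nsmul_eq_mul]
  have hxx : x ≤ |x0| := hT.trans (le_abs_self _)
  have h5 : ((m + 1 : ℕ) : ℝ) * x ≤ (|x0| + 1) ^ 2 := by
    push_cast
    nlinarith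
  calc ((m + 1 : ℕ) : ℝ) * (x * (ε / (|x0| + 1) ^ 2 * N)) = (((m + 1 : ℕ) : ℝ) * x) * (ε / (|x0| + 1) ^ 2 * N) := by
        ring
    _ ≤ (|x0| + 1) ^ 2 * (ε / (|x0| + 1) ^ 2 * N) := mul_le_mul_of_nonneg_right h5 (by positivity)
    _ = ε * N := by
      have : (|x0| + 1) ^ 2 ≠ 0 := by positivity
      field_simp

/-- the defect, for all large `T` -/
theorem low_all (θ δ : ℝ) (hθ : 0 < θ) (hδ : 0 < δ) :
    ∃ (C : ℝ) (r0 : ℕ), 0 < C ∧ 2 ≤ r0 ∧ ∀ r : ℕ, r0 ≤ r → ∀ᶠ q : ℕ in atTop,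
      ∀ y : ℕ, y = ⌊(q : ℝ) ^ (1 / (r : ℝ))⌋₊ → ∀ Z Y : ℕ, (q : ℝ) ^ θ ≤ Y → ∀ T : ℕ, C ≤ T * V q y →
        ∑ n ∈ Om q Z Y, max (T * V q y - cnt q y T n) 0 ≤
          δ * (T * V q y * (Y * ((q.totient : ℝ) / q))) := by
  obtain ⟨l0, hl0⟩ : ∃ l0 : ℝ, l0 = 16 / δ ^ 2 + 2 := ⟨_, rfl⟩
  have hl00 : 2 ≤ l0 := by rw [hl0]; have : 0 < 16 / δ ^ 2 := by positivity
                           linarith
  obtain ⟨r1, hr1, h1⟩ := low1 θ (l0 + 1) (δ / 4) hθ (by positivity)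
  obtain ⟨r2, hr2, h2⟩ := card_cop θ 1 hθ one_pos
  refine ⟨4 * (l0 + 1) / δ, max r1 r2, by positivity, hr1.trans (le_max_left _ _), ?_⟩
  intro r hr
  filter_upwards [h1 r ((le_max_left _ _).trans hr), h2 r ((le_max_right _ _).trans hr)] with q g1 g2
  intro y hy Z Y hY T hT
  obtain ⟨N, hN⟩ : ∃ N, N = (Y : ℝ) * ((q.totient : ℝ) / q) := ⟨_, rfl⟩
  have hN0 : 0 ≤ N := by rw [hN]; positivity
  have hV0 : 0 < V q y := by rw [← V_eq]; exact Vq_pos (Qn Ql q) (adm_Qn Ql adm_Ql q) y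
  have hV1 : V q y ≤ 1 := by rw [← V_eq]; exact Vq_le_one _ _
  obtain ⟨T0, hT0⟩ : ∃ T0, T0 = ⌈l0 / V q y⌉₊ := ⟨_, rfl⟩
  have hlow : l0 ≤ T0 * V q y := by
    rw [← div_le_iff₀ hV0, hT0]
    exact Nat.le_ceil _
  have hupp : T0 * V q y ≤ l0 + 1 := by
    have : (T0 : ℝ) < l0 / V q y + 1 := by rw [hT0]; exact Nat.ceil_lt_add_one (by positivity)
    have h3 : T0 * V q y ≤ (l0 / V q y + 1) * V q y := mul_le_mul_of_nonneg_right this.le hV0.le
    rw [add_mul, div_mul_cancel₀ _ hV0.ne'] at h3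
    linarith
  have hT0pos : 0 < T0 := by
    rcases Nat.eq_zero_or_pos T0 with h | h
    · rw [h] at hlow
      simp at hlow
      linarith
    · exact h
  -- one block
  have hblock : ∀ Z' : ℕ, ∑ n ∈ Om q Z' Y, max (T0 * V q y - cnt q y T0 n) 0 ≤ δ / 2 * (T0 * V q y) * N := by
    intro Z'
    have h3 := g1 y hy Z' Y hY T0 hupp
    rw [← hN] at h3
    obtain ⟨x, hx⟩ : ∃ x, x = T0 * V q y := ⟨_, rfl⟩
    rw [← hx] at h3 hlow hupp ⊢
    have h4 := (abs_le.1 h3).2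
    obtain ⟨m, hm⟩ : ∃ m, m = ⌊x⌋₊ := ⟨_, rfl⟩
    rw [← hm] at h4
    have hm2 : x < m + 1 := by rw [hm]; exact Nat.lt_floor_add_one x
    have hm3 : 16 / δ ^ 2 ≤ (m : ℝ) := by linarith
    have hm0 : 1 ≤ m := by
      have : (0 : ℝ) < m := lt_of_lt_of_le (by positivity) hm3
      exact_mod_cast this
    have h5 := pw_le x (by linarith) m hm0
    have h6 : 1 / √(m : ℝ) ≤ δ / 4 := by
      have h7 : 4 / δ ≤ √(m : ℝ) := by
        rw [Real.le_sqrt (by positivity) (by positivity)]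
        calc (4 / δ) ^ 2 = 16 / δ ^ 2 := by ring
          _ ≤ (m : ℝ) := hm3
      have h8 : 0 < 4 / δ := by positivity
      calc 1 / √(m : ℝ) ≤ 1 / (4 / δ) := one_div_le_one_div_of_le h8 h7
        _ = δ / 4 := by field_simp
    have h9 : N * (x * pw x m) ≤ N * (x * (δ / 4)) := by
      apply mul_le_mul_of_nonneg_left _ hN0
      apply mul_le_mul_of_nonneg_left _ (by linarith)
      linarith
    have h10 : δ / 4 * N ≤ δ / 4 * N * x := by
      have : 0 ≤ δ / 4 * N := by positivity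
      nlinarith
    calc ∑ n ∈ Om q Z' Y, max (x - cnt q y T0 n) 0 ≤ N * (x * (δ / 4)) + δ / 4 * N * x := by linarith
      _ = _ := by ring
  -- all blocks
  obtain ⟨M, hM⟩ : ∃ M, M = T / T0 := ⟨_, rfl⟩
  have hMT : M * T0 ≤ T := by rw [hM]; exact Nat.div_mul_le_self T T0
  have hMT2 : T < M * T0 + T0 := by
    rw [hM]
    have h3 := Nat.div_add_mod T T0
    have h4 := Nat.mod_lt T hT0pos
    rw [mul_comm] at h3
    omega
  have hMTr : (M : ℝ) * T0 ≤ T := by exact_mod_cast hMT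
  have hMT2r : (T : ℝ) ≤ M * T0 + T0 := by exact_mod_cast hMT2.le
  have hpt : ∀ n, max (T * V q y - cnt q y T n) 0 ≤
      (l0 + 1) + ∑ b ∈ range M, max (T0 * V q y - cnt q y T0 (n + q * (b * T0))) 0 := by
    intro n
    have hs0 : 0 ≤ ∑ b ∈ range M, max (T0 * V q y - cnt q y T0 (n + q * (b * T0))) 0 :=
      Finset.sum_nonneg fun _ _ => le_max_right _ _
    apply max_le
    · have a1 : ((cnt q y (M * T0) n : ℕ) : ℝ) ≤ cnt q y T n := by exact_mod_cast cnt_mono q y n hMT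
      rw [cnt_blocks] at a1
      push_cast at a1
      have a2 : ∑ b ∈ range M, (T0 * V q y - cnt q y T0 (n + q * (b * T0))) ≤
          ∑ b ∈ range M, max (T0 * V q y - cnt q y T0 (n + q * (b * T0))) 0 :=
        Finset.sum_le_sum fun _ _ => le_max_left _ _
      rw [Finset.sum_sub_distrib, Finset.sum_const, card_range, nsmul_eq_mul] at a2
      have a3 : (T : ℝ) * V q y ≤ (M * T0 + T0) * V q y := mul_le_mul_of_nonneg_right hMT2r hV0.le
      have a4 : ((M : ℝ) * T0 + T0) * V q y = M * (T0 * V q y) + T0 * V q y := by ring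
      linarith
    · linarith
  have hall : ∑ n ∈ Om q Z Y, max (T * V q y - cnt q y T n) 0 ≤
      (Om q Z Y).card * (l0 + 1) + M * (δ / 2 * (T0 * V q y) * N) := by
    refine (Finset.sum_le_sum fun n _ => hpt n).trans ?_
    rw [Finset.sum_add_distrib, Finset.sum_const, nsmul_eq_mul, Finset.sum_comm]
    apply add_le_add le_rfl
    have : (M : ℝ) * (δ / 2 * (T0 * V q y) * N) = ∑ b ∈ range M, (δ / 2 * (T0 * V q y) * N) := by
      rw [Finset.sum_const, card_range, nsmul_eq_mul]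
    rw [this]
    apply Finset.sum_le_sum
    intro b _
    rw [sum_shift q Z Y (b * T0) (fun n => max (T0 * V q y - cnt q y T0 n) 0)]
    exact hblock _
  refine hall.trans ?_
  rw [← hN]
  have h3 := (abs_le.1 (g2 Z Y hY)).2
  rw [← hN, one_mul] at h3
  have h4 : ((Om q Z Y).card : ℝ) * (l0 + 1) ≤ 2 * N * (l0 + 1) := by
    apply mul_le_mul_of_nonneg_right _ (by linarith)
    linarith
  have h5 : 2 * N * (l0 + 1) ≤ δ / 2 * (T * V q y * N) := by
    rw [div_le_iff₀ hδ] at hT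
    nlinarith
  have h6 : (M : ℝ) * (δ / 2 * (T0 * V q y) * N) ≤ δ / 2 * (T * V q y * N) := by
    calc (M : ℝ) * (δ / 2 * (T0 * V q y) * N) = (M * T0) * (δ / 2 * V q y * N) := by ring
      _ ≤ T * (δ / 2 * V q y * N) := mul_le_mul_of_nonneg_right hMTr (by positivity)
      _ = _ := by ring
  linarith

/-- **The mean absolute error, for all large `T`.** -/
theorem one (θ ε : ℝ) (hθ : 0 < θ) (hε : 0 < ε) :
    ∃ (C : ℝ) (r0 : ℕ), 0 < C ∧ 2 ≤ r0 ∧ ∀ r : ℕ, r0 ≤ r → ∀ᶠ q : ℕ in atTop,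
      ∀ y : ℕ, y = ⌊(q : ℝ) ^ (1 / (r : ℝ))⌋₊ → ∀ Z Y : ℕ, (q : ℝ) ^ θ ≤ Y → ∀ T : ℕ, C ≤ T * V q y →
        ∑ n ∈ Om q Z Y, |(cnt q y T n : ℝ) - T * V q y| ≤
          ε * (T * V q y * (Y * ((q.totient : ℝ) / q))) := by
  obtain ⟨C, r1, hC, hr1, h1⟩ := low_all θ (ε / 4) hθ (by positivity)
  obtain ⟨r2, hr2, h2⟩ := card_cop θ (ε / 4) hθ (by positivity)
  obtain ⟨r3, hr3, h3⟩ := mean θ (ε / 4) hθ (by positivity)
  refine ⟨C, max r1 (max r2 r3), hC, hr1.trans (le_max_left _ _), ?_⟩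
  intro r hr
  filter_upwards [h1 r ((le_max_left _ _).trans hr),
    h2 r (((le_max_left _ _).trans (le_max_right _ _)).trans hr),
    h3 r (((le_max_right _ _).trans (le_max_right _ _)).trans hr)] with q g1 g2 g3
  intro y hy Z Y hY T hT
  have k1 := g1 y hy Z Y hY T hT
  have k2 := (abs_le.1 (g2 Z Y hY)).1
  have k3 := (abs_le.1 (g3 y hy Z Y hY T)).2
  have e1 : ∑ n ∈ (Ioc Z (Z + Y)).filter (fun n => n.Coprime q), (cnt q y T n : ℝ) =
      ∑ n ∈ Om q Z Y, (cnt q y T n : ℝ) := rfl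
  rw [e1] at k3
  obtain ⟨N, hN⟩ : ∃ N, N = (Y : ℝ) * ((q.totient : ℝ) / q) := ⟨_, rfl⟩
  obtain ⟨x, hx⟩ : ∃ x, x = T * V q y := ⟨_, rfl⟩
  rw [← hN] at k1 k2 k3 ⊢
  rw [← hx] at k1 k3 hT ⊢
  have hx0 : 0 ≤ x := by linarith
  have e2 : ∑ n ∈ Om q Z Y, |(cnt q y T n : ℝ) - x| =
      2 * ∑ n ∈ Om q Z Y, max (x - cnt q y T n) 0 + (∑ n ∈ Om q Z Y, (cnt q y T n : ℝ) - (Om q Z Y).card * x) := by
    simp only [abs_eq]
    rw [Finset.sum_add_distrib, ← Finset.mul_sum, Finset.sum_sub_distrib, Finset.sum_const, nsmul_eq_mul]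
  rw [e2]
  have k4 : (N - ε / 4 * N) * x ≤ (Om q Z Y).card * x := by
    apply mul_le_mul_of_nonneg_right _ hx0
    linarith
  nlinarith

/-- **The mean maximal error, for all large `T`.** -/
theorem maxi (θ ε : ℝ) (hθ : 0 < θ) (hε : 0 < ε) :
    ∃ (C : ℝ) (r0 : ℕ), 0 < C ∧ 2 ≤ r0 ∧ ∀ r : ℕ, r0 ≤ r → ∀ᶠ q : ℕ in atTop,
      ∀ y : ℕ, y = ⌊(q : ℝ) ^ (1 / (r : ℝ))⌋₊ → ∀ Z Y : ℕ, (q : ℝ) ^ θ ≤ Y → ∀ T : ℕ, C ≤ T * V q y →
        ∀ t : ℕ → ℕ, (∀ n, t n ≤ T) → ∑ n ∈ Om q Z Y, |(cnt q y (t n) n : ℝ) - t n * V q y| ≤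
          ε * (T * V q y * (Y * ((q.totient : ℝ) / q))) := by
  obtain ⟨K, hK⟩ : ∃ K : ℕ, 8 / ε + 1 ≤ K := exists_nat_ge _
  have h8 : 0 < 8 / ε := by positivity
  have hK1 : (1 : ℝ) ≤ K := by linarith
  have hK0 : 0 < K := by exact_mod_cast (by linarith : (0 : ℝ) < K)
  obtain ⟨C, r1, hC, hr1, h1⟩ := one θ (ε / (4 * K)) hθ (by positivity)
  obtain ⟨r2, hr2, h2⟩ := card_cop θ 1 hθ one_pos
  refine ⟨K * (C + 1), max r1 r2, by positivity, hr1.trans (le_max_left _ _), ?_⟩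
  intro r hr
  filter_upwards [h1 r ((le_max_left _ _).trans hr), h2 r ((le_max_right _ _).trans hr)] with q g1 g2
  intro y hy Z Y hY T hT t ht
  obtain ⟨N, hN⟩ : ∃ N, N = (Y : ℝ) * ((q.totient : ℝ) / q) := ⟨_, rfl⟩
  have hN0 : 0 ≤ N := by rw [hN]; positivity
  have hV0 : 0 < V q y := by rw [← V_eq]; exact Vq_pos (Qn Ql q) (adm_Qn Ql adm_Ql q) y
  have hV1 : V q y ≤ 1 := by rw [← V_eq]; exact Vq_le_one _ _
  obtain ⟨v, hv⟩ : ∃ v, v = V q y := ⟨_, rfl⟩
  have g1' := g1 y hy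
  rw [← hv] at hT hV0 hV1 g1' ⊢
  rw [← hN]
  obtain ⟨s, hs⟩ : ∃ s, s = T / K + 1 := ⟨_, rfl⟩
  have hTs : T < K * s := by
    rw [hs]
    have h3 := Nat.div_add_mod T K
    have h4 := Nat.mod_lt T hK0
    rw [Nat.mul_add, mul_one]
    omega
  have hsT : K * s ≤ T + K := by
    rw [hs, Nat.mul_add, mul_one]
    have := Nat.mul_div_le T K
    omega
  have hTsr : (T : ℝ) ≤ K * s := by exact_mod_cast hTs.le
  have hsTr : (K : ℝ) * s ≤ T + K := by exact_mod_cast hsT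
  have hs0 : 0 < s := by rw [hs]; exact Nat.succ_pos _
  have hKT : (K : ℝ) ≤ T * v := by
    have : (K : ℝ) * 1 ≤ K * (C + 1) := by gcongr; linarith
    linarith
  have hKs2 : (K : ℝ) * s * v ≤ 2 * (T * v) := by
    have a1 : (K : ℝ) * s * v ≤ (T + K) * v := mul_le_mul_of_nonneg_right hsTr hV0.le
    have a2 : (K : ℝ) * v ≤ K * 1 := mul_le_mul_of_nonneg_left hV1 (by positivity)
    linarith
  have hsv : C ≤ s * v := by
    have a1 : (K : ℝ) * (C + 1) ≤ K * (s * v) := by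
      calc (K : ℝ) * (C + 1) ≤ T * v := hT
        _ ≤ (K * s) * v := mul_le_mul_of_nonneg_right hTsr hV0.le
        _ = _ := by ring
    have a2 := le_of_mul_le_mul_left a1 (by linarith)
    linarith
  -- the pointwise inequality
  have hpt : ∀ n, |(cnt q y (t n) n : ℝ) - t n * v| ≤
      s * v + ∑ i ∈ range (K + 1), |(cnt q y (i * s) n : ℝ) - (i * s : ℕ) * v| := by
    intro n
    obtain ⟨j, hj⟩ : ∃ j, j = t n / s := ⟨_, rfl⟩
    have j1 : j * s ≤ t n := by rw [hj]; exact Nat.div_mul_le_self _ _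
    have j2 : t n < (j + 1) * s := by
      rw [hj, Nat.add_mul, one_mul]
      have h3 := Nat.div_add_mod (t n) s
      have h4 := Nat.mod_lt (t n) hs0
      rw [mul_comm] at h3
      omega
    have j3 : j < K := by
      rw [hj, Nat.div_lt_iff_lt_mul hs0]
      exact lt_of_le_of_lt (ht n) hTs
    have c1 : |(cnt q y (j * s) n : ℝ) - (j * s : ℕ) * v| ≤
        ∑ i ∈ range (K + 1), |(cnt q y (i * s) n : ℝ) - (i * s : ℕ) * v| :=
      Finset.single_le_sum (f := fun i => |(cnt q y (i * s) n : ℝ) - (i * s : ℕ) * v|)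
        (fun _ _ => abs_nonneg _) (mem_range.2 (by omega))
    have c2 : |(cnt q y ((j + 1) * s) n : ℝ) - ((j + 1) * s : ℕ) * v| ≤
        ∑ i ∈ range (K + 1), |(cnt q y (i * s) n : ℝ) - (i * s : ℕ) * v| :=
      Finset.single_le_sum (f := fun i => |(cnt q y (i * s) n : ℝ) - (i * s : ℕ) * v|)
        (fun _ _ => abs_nonneg _) (mem_range.2 (by omega))
    have c3 : (cnt q y (j * s) n : ℝ) ≤ cnt q y (t n) n := by exact_mod_cast cnt_mono q y n j1
    have c4 : (cnt q y (t n) n : ℝ) ≤ cnt q y ((j + 1) * s) n := by exact_mod_cast cnt_mono q y n j2.le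
    have c5 : ((j * s : ℕ) : ℝ) * v ≤ t n * v :=
      mul_le_mul_of_nonneg_right (by exact_mod_cast j1) hV0.le
    have c6 : (t n : ℝ) * v ≤ ((j + 1) * s : ℕ) * v :=
      mul_le_mul_of_nonneg_right (by exact_mod_cast j2.le) hV0.le
    have c7 : (((j + 1) * s : ℕ) : ℝ) * v = (j * s : ℕ) * v + s * v := by push_cast; ring
    have d1 := (abs_le.1 c1).1
    have d2 := (abs_le.1 c2).2
    rw [abs_le]
    constructor <;> linarith
  refine (Finset.sum_le_sum fun n _ => hpt n).trans ?_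
  rw [Finset.sum_add_distrib, Finset.sum_const, nsmul_eq_mul, Finset.sum_comm]
  have h3 := (abs_le.1 (g2 Z Y hY)).2
  rw [← hN, one_mul] at h3
  have h4 : ((Om q Z Y).card : ℝ) * (s * v) ≤ 2 * N * (s * v) :=
    mul_le_mul_of_nonneg_right (by linarith) (by positivity)
  have h5 : 2 * N * (s * v) ≤ ε / 2 * (T * v * N) := by
    have a1 : (s : ℝ) * v * K ≤ 2 * (T * v) := by linarith
    have a2 : 8 / ε ≤ K := by linarith
    have a3 : (s : ℝ) * v * (8 / ε) ≤ 2 * (T * v) :=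
      (mul_le_mul_of_nonneg_left a2 (by positivity)).trans a1
    rw [mul_div_assoc', div_le_iff₀ hε] at a3
    nlinarith
  have h6 : ∑ i ∈ range (K + 1), ∑ n ∈ Om q Z Y, |(cnt q y (i * s) n : ℝ) - (i * s : ℕ) * v| ≤
      ε / 2 * (T * v * N) := by
    rw [Finset.sum_range_succ']
    have e0 : ∑ n ∈ Om q Z Y, |(cnt q y (0 * s) n : ℝ) - (0 * s : ℕ) * v| = 0 := by
      apply Finset.sum_eq_zero
      intro n _
      rw [Nat.zero_mul, cnt_zero]
      simp
    rw [e0, add_zero]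
    have h7 : ∀ i ∈ range K, ∑ n ∈ Om q Z Y, |(cnt q y ((i + 1) * s) n : ℝ) - ((i + 1) * s : ℕ) * v| ≤
        ε / (4 * K) * (2 * (T * v) * N) := by
      intro i hi
      rw [mem_range] at hi
      have b1 : ((i : ℝ) + 1) ≤ K := by exact_mod_cast (by omega : i + 1 ≤ K)
      have b2 : (1 : ℝ) ≤ (i : ℝ) + 1 := by have : (0 : ℝ) ≤ i := Nat.cast_nonneg i
                                            linarith
      have hsv0 : 0 ≤ (s : ℝ) * v := by positivity
      have b3 : (((i + 1) * s : ℕ) : ℝ) * v = ((i : ℝ) + 1) * (s * v) := by push_cast; ring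
      have b4 : C ≤ (((i + 1) * s : ℕ) : ℝ) * v := by
        rw [b3]
        nlinarith
      refine (g1' Z Y hY ((i + 1) * s) b4).trans ?_
      rw [← hN, b3]
      apply mul_le_mul_of_nonneg_left _ (by positivity)
      apply mul_le_mul_of_nonneg_right _ hN0
      calc ((i : ℝ) + 1) * (s * v) ≤ K * (s * v) := mul_le_mul_of_nonneg_right b1 hsv0
        _ = K * s * v := by ring
        _ ≤ _ := hKs2
    refine (Finset.sum_le_sum h7).trans ?_
    rw [Finset.sum_const, card_range, nsmul_eq_mul]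
    apply le_of_eq
    field_simp
    ring
  linarith

end Pool.Agent.R490.Lone
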