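import Pool.Agent.R490.Cls

set_option autoImplicit false

/-!
# The mean number of almost primes in the reduced classes of every modulus
-/

namespace Pool.Agent.R490.Mean

open Finset Filter
open Pool.Agent.W123.RP Pool.Agent.H373R2.T7 Pool.Agent.W123.RU Pool.Agent.TH464.PO Pool.Agent.TH464.PW
open Pool.Agent.Y879.AP Pool.Agent.R490.Cls

/-- the level -/
lemma y_ge (r : ℕ) (hr : 2 ≤ r) (x0 : ℕ) : ∀ᶠ q : ℕ in atTop, x0 ≤ ⌊(q : ℝ) ^ (1 / (r : ℝ))⌋₊ := by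
  have hrr : (2 : ℝ) ≤ r := by exact_mod_cast hr
  have hpowr : Tendsto (fun q : ℕ => (q : ℝ) ^ (1 / (r : ℝ))) atTop atTop :=
    (tendsto_rpow_atTop (by positivity)).comp tendsto_natCast_atTop_atTop
  exact (tendsto_nat_floor_atTop.comp hpowr).eventually_ge_atTop x0

/-- the powers of the level -/
lemma pow_le (θ : ℝ) (K r q Y : ℕ) (hK : (K : ℝ) ≤ θ * r) (hr : 2 ≤ r) (hq : 1 ≤ q)
    (hY : (q : ℝ) ^ θ ≤ Y) : ⌊(q : ℝ) ^ (1 / (r : ℝ))⌋₊ ^ K ≤ Y := by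
  have hrr : (2 : ℝ) ≤ r := by exact_mod_cast hr
  have hq1 : (1 : ℝ) ≤ q := by exact_mod_cast hq
  have h1 : (⌊(q : ℝ) ^ (1 / (r : ℝ))⌋₊ : ℝ) ^ K ≤ ((q : ℝ) ^ (1 / (r : ℝ))) ^ K :=
    pow_le_pow_left₀ (Nat.cast_nonneg _) (Nat.floor_le (by positivity)) K
  have h2 : ((q : ℝ) ^ (1 / (r : ℝ))) ^ K ≤ (q : ℝ) ^ θ := by
    rw [← Real.rpow_natCast, ← Real.rpow_mul (by positivity)]
    apply Real.rpow_le_rpow_of_exponent_le hq1
    rw [one_div, inv_mul_le_iff₀ (by linarith)]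
    linarith
  exact_mod_cast (h1.trans h2).trans hY

open Classical in
/-- the rough numbers of an interval -/
theorem rough0 (θ ε : ℝ) (hθ : 0 < θ) (hε : 0 < ε) :
    ∃ r0 : ℕ, 2 ≤ r0 ∧ ∀ r : ℕ, r0 ≤ r → ∀ᶠ q : ℕ in atTop, ∀ Z Y : ℕ, (q : ℝ) ^ θ ≤ Y →
      |(((Ioc Z (Z + Y)).filter (fun m => ∀ p ∈ pz ⌊(q : ℝ) ^ (1 / (r : ℝ))⌋₊, ¬ p ∣ m)).card : ℝ) -
        Y * Vz ⌊(q : ℝ) ^ (1 / (r : ℝ))⌋₊| ≤ ε * (Y * Vz ⌊(q : ℝ) ^ (1 / (r : ℝ))⌋₊) := by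
  obtain ⟨K, x0, hK, hfund⟩ := sys_fund 1 le_rfl (ε / 2) (by positivity)
  obtain ⟨c, C, hc, hC, hV⟩ := Vz_bounds
  obtain ⟨r1, hr1⟩ : ∃ r1 : ℕ, K / θ ≤ r1 := exists_nat_ge _
  refine ⟨max 2 r1, le_max_left _ _, ?_⟩
  intro r hr
  have hr2 : 2 ≤ r := (le_max_left _ _).trans hr
  have hrr : (2 : ℝ) ≤ r := by exact_mod_cast hr2
  have hKr : (K : ℝ) ≤ θ * r := by
    have h1 : (r1 : ℝ) ≤ r := by exact_mod_cast (le_max_right _ _).trans hr
    rw [div_le_iff₀ hθ] at hr1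
    nlinarith
  filter_upwards [y_ge r hr2 x0, Pool.Agent.Y879.GL.level_ok r hr2, eventually_ge_atTop 1,
    logpow_rpow 1 (2 / (c * ε)) (θ / 2) (by positivity) (by positivity)] with q h1 h3 h4 h5
  obtain ⟨g1, g2, g3, g4, g5⟩ := h3
  obtain ⟨y, hy⟩ : ∃ y, y = ⌊(q : ℝ) ^ (1 / (r : ℝ))⌋₊ := ⟨_, rfl⟩
  intro Z Y hY
  have hyK := pow_le θ K r q Y hKr hr2 h4 hY
  rw [← hy] at h1 g1 g2 g3 g4 hyK ⊢
  have hq1 : (1 : ℝ) ≤ q := by exact_mod_cast h4
  have hq0 : (0 : ℝ) < q := by linarith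
  have hYpos : (0 : ℝ) < Y := lt_of_lt_of_le (by positivity) hY
  have hf := hfund Y y h1 hyK (Qt Ql Z) (perB_Qt Ql 1 perB_Ql Z) Y
  have e0 : ∏ p ∈ pz y, (1 - (nuB (Qt Ql Z) p : ℝ) / p) = Vz y := by
    unfold Vz
    apply Finset.prod_congr rfl
    intro p hp
    rw [nuB_Qt Ql 1 perB_Ql, nuB_Ql p (mem_pz.1 hp).2]
    simp
  rw [e0] at hf
  have e7 : ((Ioc Z (Z + Y)).filter (fun m => ∀ p ∈ pz y, ¬ p ∣ m)).card =
      ((Icc 1 Y).filter (fun n => ∀ p ∈ pz y, ¬ Qt Ql Z p n)).card :=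
    count_shift Z Y _ _ _ _ (fun n => Iff.rfl)
  rw [e7]
  have hf' : |(((Icc 1 Y).filter (fun n => ∀ p ∈ pz y, ¬ Qt Ql Z p n)).card : ℝ) - Y * Vz y| ≤
      ε / 2 * (Y * Vz y) + √(Y : ℝ) := by
    convert hf
  refine hf'.trans ?_
  have hlow : c / Real.log q ≤ Vz y := by
    refine le_trans ?_ (hV y (by omega)).1
    exact div_le_div_of_nonneg_left hc.le (by linarith) g3
  have hlq : 0 < Real.log q := by linarith
  have hs : √(Y : ℝ) ≤ ε / 2 * (Y * Vz y) := by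
    have s1 : (q : ℝ) ^ (θ / 2) ≤ √(Y : ℝ) := by
      rw [Real.sqrt_eq_rpow]
      calc (q : ℝ) ^ (θ / 2) = ((q : ℝ) ^ θ) ^ (1 / 2 : ℝ) := by
            rw [← Real.rpow_mul hq0.le]
            congr 1
            ring
        _ ≤ (Y : ℝ) ^ (1 / 2 : ℝ) := Real.rpow_le_rpow (by positivity) hY (by norm_num)
    have s2 : 2 / (c * ε) * Real.log q ≤ √(Y : ℝ) := by
      rw [pow_one] at h5
      exact h5.trans s1
    have s3 : 1 ≤ ε / 2 * (√(Y : ℝ) * (c / Real.log q)) := by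
      have : ε / 2 * (√(Y : ℝ) * (c / Real.log q)) = √(Y : ℝ) * (c * ε) / (2 * Real.log q) := by
        field_simp
      rw [this, le_div_iff₀ (by positivity), one_mul]
      rw [div_mul_eq_mul_div, div_le_iff₀ (by positivity)] at s2
      exact s2
    have s4 : 0 < √(Y : ℝ) := Real.sqrt_pos.2 hYpos
    calc √(Y : ℝ) = √(Y : ℝ) * 1 := (mul_one _).symm
      _ ≤ √(Y : ℝ) * (ε / 2 * (√(Y : ℝ) * (c / Real.log q))) := mul_le_mul_of_nonneg_left s3 s4.le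
      _ = ε / 2 * (√(Y : ℝ) * √(Y : ℝ) * (c / Real.log q)) := by ring
      _ = ε / 2 * (Y * (c / Real.log q)) := by rw [Real.mul_self_sqrt hYpos.le]
      _ ≤ ε / 2 * (Y * Vz y) := by gcongr
  linarith

open Classical in
/-- the rough numbers of an interval which are prime to `q` -/
theorem rough1 (θ ε : ℝ) (hθ : 0 < θ) (hε : 0 < ε) :
    ∃ r0 : ℕ, 2 ≤ r0 ∧ ∀ r : ℕ, r0 ≤ r → ∀ᶠ q : ℕ in atTop, ∀ Z Y : ℕ, (q : ℝ) ^ θ ≤ Y →
      |(((Ioc Z (Z + Y)).filter (fun m => m.Coprime q ∧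
        ∀ p ∈ pz ⌊(q : ℝ) ^ (1 / (r : ℝ))⌋₊, ¬ p ∣ m)).card : ℝ) -
        Y * Vz ⌊(q : ℝ) ^ (1 / (r : ℝ))⌋₊| ≤ ε * (Y * Vz ⌊(q : ℝ) ^ (1 / (r : ℝ))⌋₊) := by
  obtain ⟨r0, hr02, h0⟩ := rough0 θ (ε / 2) hθ (by positivity)
  obtain ⟨c, C, hc, hC, hV⟩ := Vz_bounds
  obtain ⟨r1, hr1⟩ : ∃ r1 : ℕ, 1 / θ ≤ r1 := exists_nat_ge _
  refine ⟨max r0 r1, hr02.trans (le_max_left _ _), ?_⟩
  intro r hr
  have hr2 : 2 ≤ r := hr02.trans ((le_max_left _ _).trans hr)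
  have hrr : (2 : ℝ) ≤ r := by exact_mod_cast hr2
  have hrθ : 1 / (r : ℝ) ≤ θ := by
    have h1 : (r1 : ℝ) ≤ r := by exact_mod_cast (le_max_right _ _).trans hr
    rw [div_le_iff₀ (by linarith)]
    rw [div_le_iff₀ hθ] at hr1
    nlinarith
  filter_upwards [h0 r ((le_max_left _ _).trans hr),
    Pool.Agent.Y879.GL.level_ok r hr2, eventually_ge_atTop 1,
    logpow_rpow 1 (16 * r / (c * ε)) (1 / (r : ℝ)) (by positivity) (by positivity)] with q h1 h3 h4 h5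
  obtain ⟨g1, g2, g3, g4, g5⟩ := h3
  obtain ⟨y, hy⟩ : ∃ y, y = ⌊(q : ℝ) ^ (1 / (r : ℝ))⌋₊ := ⟨_, rfl⟩
  rw [← hy] at h1 g1 g2 g3 g4 ⊢
  intro Z Y hqY
  have hq1 : (1 : ℝ) ≤ q := by exact_mod_cast h4
  have hq0 : (0 : ℝ) < q := by linarith
  have hy0 : (0 : ℝ) < y := by exact_mod_cast (by omega : 0 < y)
  have hyq : (y : ℝ) ≤ (q : ℝ) ^ (1 / (r : ℝ)) := by rw [hy]; exact Nat.floor_le (by positivity)
  have hyq2 : (q : ℝ) ^ (1 / (r : ℝ)) ≤ 2 * y := by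
    have h6 : (q : ℝ) ^ (1 / (r : ℝ)) < y + 1 := by rw [hy]; exact Nat.lt_floor_add_one _
    have h7 : (1 : ℝ) ≤ y := by exact_mod_cast (by omega : 1 ≤ y)
    linarith
  have hyY : (y : ℝ) ≤ Y := by
    refine hyq.trans (le_trans ?_ hqY)
    exact Real.rpow_le_rpow_of_exponent_le hq1 hrθ
  have hY0 : (0 : ℝ) < Y := by linarith
  have hlq : 0 < Real.log q := by linarith
  have hlow : c / Real.log q ≤ Vz y := by
    refine le_trans ?_ (hV y (by omega)).1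
    exact div_le_div_of_nonneg_left hc.le (by linarith) g3
  have hL := h1 Z Y hqY
  obtain ⟨S1, hS1⟩ : ∃ S1, S1 = (Ioc Z (Z + Y)).filter (fun n => n.Coprime q ∧ ∀ p ∈ pz y, ¬ p ∣ n) :=
    ⟨_, rfl⟩
  obtain ⟨S2, hS2⟩ : ∃ S2, S2 = (Ioc Z (Z + Y)).filter (fun n => ∀ p ∈ pz y, ¬ p ∣ n) := ⟨_, rfl⟩
  obtain ⟨Bd, hBd⟩ : ∃ Bd, Bd = (q.primeFactors.filter (fun p => y < p)).biUnion
    (fun p => (Ioc Z (Z + Y)).filter (fun b => p ∣ b)) := ⟨_, rfl⟩
  rw [← hS1]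
  rw [← hS2] at hL
  have hsub : S1 ⊆ S2 := by
    intro n hn
    rw [hS1, mem_filter] at hn
    rw [hS2, mem_filter]
    exact ⟨hn.1, hn.2.2⟩
  have hsub2 : S2 ⊆ S1 ∪ Bd := by
    intro n hn
    rw [hS2, mem_filter] at hn
    obtain ⟨n1, n2⟩ := hn
    by_cases hcop : n.Coprime q
    · rw [mem_union]
      left
      rw [hS1, mem_filter]
      exact ⟨n1, hcop, n2⟩
    · rw [mem_union]
      right
      obtain ⟨p, hp, hpn, hpq⟩ := Nat.Prime.not_coprime_iff_dvd.1 hcop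
      rw [hBd, mem_biUnion]
      refine ⟨p, ?_, mem_filter.2 ⟨n1, hpn⟩⟩
      rw [mem_filter, Nat.mem_primeFactors]
      refine ⟨⟨hp, hpq, by omega⟩, ?_⟩
      by_contra hpy
      exact n2 p (mem_pz.2 ⟨by omega, hp⟩) hpn
  have hBdc : (Bd.card : ℝ) ≤ ε / 2 * (Y * Vz y) := by
    have b1 : (Bd.card : ℝ) ≤ ∑ p ∈ q.primeFactors.filter (fun p => y < p), ((Y : ℝ) / p + 1) := by
      rw [hBd]
      have b2 : ((((q.primeFactors.filter (fun p => y < p)).biUnion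
          (fun p => (Ioc Z (Z + Y)).filter (fun b => p ∣ b))).card : ℕ) : ℝ) ≤
          ((∑ p ∈ q.primeFactors.filter (fun p => y < p),
            ((Ioc Z (Z + Y)).filter (fun b => p ∣ b)).card : ℕ) : ℝ) := by
        exact_mod_cast Finset.card_biUnion_le
      refine b2.trans ?_
      push_cast
      apply Finset.sum_le_sum
      intro p hp
      rw [mem_filter, Nat.mem_primeFactors] at hp
      exact card_mult Z Y p hp.1.1.pos
    have b3 : ∑ p ∈ q.primeFactors.filter (fun p => y < p), ((Y : ℝ) / p + 1) ≤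
        (q.primeFactors.filter (fun p => y < p)).card * (2 * (Y / y)) := by
      rw [← nsmul_eq_mul]
      apply Finset.sum_le_card_nsmul
      intro p hp
      rw [mem_filter, Nat.mem_primeFactors] at hp
      have b4 : (Y : ℝ) / p ≤ Y / y := by
        apply div_le_div_of_nonneg_left hY0.le hy0
        exact_mod_cast hp.2.le
      have b5 : 1 ≤ (Y : ℝ) / y := by
        rw [le_div_iff₀ hy0, one_mul]
        exact hyY
      linarith
    have b6 : ((q.primeFactors.filter (fun p => y < p)).card : ℝ) ≤ 2 * r := by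
      have b7 := Pool.Agent.Y879.GL.card_primes_le (q.primeFactors.filter (fun p => y < p)) y q
        (by omega) (by omega) q le_rfl (by
          intro p hp
          rw [mem_filter, Nat.mem_primeFactors] at hp
          exact ⟨hp.1.1, hp.2, hp.1.2.1⟩)
      have b8 : ((q.primeFactors.filter (fun p => y < p)).card : ℝ) * (Real.log q / (2 * r)) ≤
          Real.log q := le_trans (mul_le_mul_of_nonneg_left g2 (Nat.cast_nonneg _)) b7
      rw [mul_div_assoc', div_le_iff₀ (by positivity)] at b8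
      have b9 : ((q.primeFactors.filter (fun p => y < p)).card : ℝ) * Real.log q ≤
          2 * r * Real.log q := by linarith
      exact le_of_mul_le_mul_right b9 hlq
    have b10 : (Bd.card : ℝ) ≤ 2 * r * (2 * (Y / y)) :=
      b1.trans (b3.trans (mul_le_mul_of_nonneg_right b6 (by positivity)))
    refine b10.trans ?_
    have b11 : 4 * r / y ≤ ε / 2 * Vz y := by
      have b12 : 4 * r / y ≤ ε / 2 * (c / Real.log q) := by
        rw [mul_div_assoc', div_le_div_iff₀ hy0 hlq]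
        rw [pow_one, div_mul_eq_mul_div, div_le_iff₀ (by positivity)] at h5
        have b13 : (q : ℝ) ^ (1 / (r : ℝ)) * (c * ε) ≤ 2 * y * (c * ε) :=
          mul_le_mul_of_nonneg_right hyq2 (by positivity)
        have b14 : 0 ≤ r * Real.log q := by positivity
        nlinarith
      exact b12.trans (mul_le_mul_of_nonneg_left hlow (by positivity))
    calc (2 : ℝ) * r * (2 * ((Y : ℝ) / y)) = Y * (4 * r / y) := by ring
      _ ≤ Y * (ε / 2 * Vz y) := mul_le_mul_of_nonneg_left b11 hY0.le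
      _ = _ := by ring
  have b1 : (S1.card : ℝ) ≤ S2.card := by exact_mod_cast card_le_card hsub
  have b2 : (S2.card : ℝ) ≤ S1.card + Bd.card := by
    have : S2.card ≤ S1.card + Bd.card := (card_le_card hsub2).trans (card_union_le _ _)
    exact_mod_cast this
  have c1 := abs_le.1 hL
  rw [abs_le]
  constructor <;> linarith

open Classical in
/-- the mean number of almost primes `n + q h`, `1 ≤ h ≤ T`, over the `n` of an interval prime to `q`,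
for every `T` -/
theorem mean (θ ε : ℝ) (hθ : 0 < θ) (hε : 0 < ε) :
    ∃ r0 : ℕ, 2 ≤ r0 ∧ ∀ r : ℕ, r0 ≤ r → ∀ᶠ q : ℕ in atTop, ∀ y : ℕ, y = ⌊(q : ℝ) ^ (1 / (r : ℝ))⌋₊ →
      ∀ Z Y : ℕ, (q : ℝ) ^ θ ≤ Y → ∀ T : ℕ,
        |∑ n ∈ (Ioc Z (Z + Y)).filter (fun n => n.Coprime q), (cnt q y T n : ℝ) -
          T * V q y * (Y * ((q.totient : ℝ) / q))| ≤ ε * (T * V q y * (Y * ((q.totient : ℝ) / q))) := by
  obtain ⟨ε1, hε1⟩ : ∃ ε1 : ℝ, ε1 = min ε 1 / 4 := ⟨_, rfl⟩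
  have hε10 : 0 < ε1 := by rw [hε1]; positivity
  have hε11 : 4 * ε1 ≤ 1 := by rw [hε1]; have := min_le_right ε 1; linarith
  have hε12 : 4 * ε1 ≤ ε := by rw [hε1]; have := min_le_left ε 1; linarith
  obtain ⟨r0, hr02, h0⟩ := rough1 θ ε1 hθ hε10
  refine ⟨r0, hr02, ?_⟩
  intro r hr
  have hr2 : 2 ≤ r := hr02.trans hr
  filter_upwards [h0 r hr, large_part r hr2 ε1 hε10, eventually_ge_atTop 1] with q h1 h2 h4
  intro y hy
  rw [← hy] at h1 h2
  intro Z Y hqY T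
  rw [← V_eq, phi_eq q y (by omega)]
  obtain ⟨E, hE⟩ : ∃ E, E = ∏ p ∈ q.primeFactors.filter (fun p => y < p), (1 - 1 / (p : ℝ)) := ⟨_, rfl⟩
  rw [← hE] at h2 ⊢
  obtain ⟨Vn, hVn⟩ : ∃ Vn, Vn = Vq (Qn Ql q) y := ⟨_, rfl⟩
  obtain ⟨Vd, hVd⟩ : ∃ Vd, Vd = Vq (Qd Ql q) y := ⟨_, rfl⟩
  have hprod : Vd * Vn = Vz y := by rw [hVd, hVn, Vd_mul_Vn, Vq_Ql]
  have hVz0 : 0 ≤ Vz y := by rw [← Vq_Ql]; exact Vq_nonneg _ _
  have hn0 : 0 ≤ Vn := by rw [hVn]; exact Vq_nonneg _ _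
  have hd0 : 0 ≤ Vd := by rw [hVd]; exact Vq_nonneg _ _
  rw [← hVn, ← hVd]
  have hsw : ∑ n ∈ (Ioc Z (Z + Y)).filter (fun n => n.Coprime q), (cnt q y T n : ℝ) =
      ∑ h ∈ Icc 1 T, (((Ioc (Z + q * h) (Z + q * h + Y)).filter (fun m => m.Coprime q ∧
        ∀ p ∈ pz y, ¬ p ∣ m)).card : ℝ) := by
    have e1 : ∀ n, (cnt q y T n : ℝ) = ∑ h ∈ Icc 1 T,
        if (∀ p : ℕ, p.Prime → p ≤ y → ¬ p ∣ n + q * h) then (1 : ℝ) else 0 := by
      intro n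
      unfold cnt
      rw [Finset.card_filter]
      push_cast
      rfl
    simp only [e1]
    rw [Finset.sum_comm]
    apply Finset.sum_congr rfl
    intro h _
    rw [← Finset.sum_filter, Finset.sum_const, nsmul_eq_mul, mul_one, Finset.filter_filter]
    norm_cast
    apply Finset.card_bij (fun n _ => n + q * h)
    · intro n hn
      rw [mem_filter, mem_Ioc] at hn
      rw [mem_filter, mem_Ioc]
      refine ⟨by omega, ?_, ?_⟩
      · have := hn.2.1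
        rw [Nat.coprime_add_mul_left_left]
        exact this
      · intro p hp
        exact hn.2.2 p (mem_pz.1 hp).2 (mem_pz.1 hp).1
    · intro a _ b _ hab
      exact Nat.add_right_cancel hab
    · intro m hm
      rw [mem_filter, mem_Ioc] at hm
      have hle : q * h ≤ m := by omega
      refine ⟨m - q * h, ?_, by omega⟩
      have e2 : m - q * h + q * h = m := Nat.sub_add_cancel hle
      rw [mem_filter, mem_Ioc, e2]
      refine ⟨by omega, ?_, ?_⟩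
      · have := hm.2.1
        rw [← e2, Nat.coprime_add_mul_left_left] at this
        exact this
      · intro p hp hpy
        exact hm.2.2 p (mem_pz.2 ⟨hpy, hp⟩)
  rw [hsw]
  have h5 : |∑ h ∈ Icc 1 T, (((Ioc (Z + q * h) (Z + q * h + Y)).filter (fun m => m.Coprime q ∧
        ∀ p ∈ pz y, ¬ p ∣ m)).card : ℝ) - T * (Y * Vz y)| ≤ T * (ε1 * (Y * Vz y)) := by
    have e3 : (T : ℝ) * (Y * Vz y) = ∑ h ∈ Icc 1 T, ((Y : ℝ) * Vz y) := by
      rw [Finset.sum_const, Nat.card_Icc, nsmul_eq_mul]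
      simp
    have e4 : (T : ℝ) * (ε1 * (Y * Vz y)) = ∑ h ∈ Icc 1 T, (ε1 * ((Y : ℝ) * Vz y)) := by
      rw [Finset.sum_const, Nat.card_Icc, nsmul_eq_mul]
      simp
    rw [e3, e4, ← Finset.sum_sub_distrib]
    refine (Finset.abs_sum_le_sum_abs _ _).trans ?_
    exact Finset.sum_le_sum fun h _ => h1 (Z + q * h) Y hqY
  have hTY : 0 ≤ (T : ℝ) * (Y * Vz y) := by positivity
  have e5 : (T : ℝ) * Vn * (Y * (Vd * E)) = T * (Y * Vz y) * E := by rw [← hprod]; ring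
  rw [e5]
  have e6 : (T : ℝ) * (ε1 * (Y * Vz y)) = ε1 * (T * (Y * Vz y)) := by ring
  rw [e6] at h5
  obtain ⟨M, hM⟩ : ∃ M, M = (T : ℝ) * (Y * Vz y) := ⟨_, rfl⟩
  rw [← hM] at h5 hTY ⊢
  have c1 := abs_le.1 h5
  have c2 : (1 - ε1) * M ≤ M * E := by nlinarith [h2.1]
  have c3 : M * E ≤ M := by nlinarith [h2.2]
  have c4 : 4 * ε1 * (M * E) ≤ ε * (M * E) := by
    apply mul_le_mul_of_nonneg_right hε12
    have : 0 ≤ (1 - ε1) * M := mul_nonneg (by linarith) hTY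
    linarith
  have c5 : 4 * ε1 * ((1 - ε1) * M) ≤ 4 * ε1 * (M * E) := mul_le_mul_of_nonneg_left c2 (by positivity)
  have c6 : 0 ≤ ε1 * M := by positivity
  have c7 : 2 * ε1 * M ≤ 4 * ε1 * ((1 - ε1) * M) := by nlinarith
  rw [abs_le]
  constructor <;> linarith

end Pool.Agent.R490.Mean
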