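import Pool.Agent.R490.Moms

set_option autoImplicit false

/-!
# The mean square error for almost primes in the reduced classes of every modulus
-/

namespace Pool.Agent.R490.Msq

open Finset Filter
open Pool.Agent.W123.RP Pool.Agent.H373R2.T7 Pool.Agent.W123.RU Pool.Agent.TH464.PO Pool.Agent.TH464.PW
open Pool.Agent.Y879.AP Pool.Agent.R490.Cls Pool.Agent.R490.Mean Pool.Agent.R490.Lone Pool.Agent.R490.Moms

lemma sq_sum_le (M : ℕ) (f : ℕ → ℝ) : (∑ b ∈ range M, f b) ^ 2 ≤ M * ∑ b ∈ range M, f b ^ 2 := by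
  have := sq_sum_le_card_mul_sum_sq (s := range M) (f := f)
  rwa [card_range] at this

/-- **The mean square error, for all large `T`.** -/
theorem msq (θ ε : ℝ) (hθ : 0 < θ) (hε : 0 < ε) :
    ∃ (C : ℝ) (r0 : ℕ), 0 < C ∧ 2 ≤ r0 ∧ ∀ r : ℕ, r0 ≤ r → ∀ᶠ q : ℕ in atTop,
      ∀ y : ℕ, y = ⌊(q : ℝ) ^ (1 / (r : ℝ))⌋₊ → ∀ Z Y : ℕ, (q : ℝ) ^ θ ≤ Y → ∀ T : ℕ, C ≤ T * V q y →
        ∑ n ∈ Om q Z Y, ((cnt q y T n : ℝ) - T * V q y) ^ 2 ≤
          ε * ((T * V q y) ^ 2 * (Y * ((q.totient : ℝ) / q))) := by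
  obtain ⟨l0, hl0⟩ : ∃ l0 : ℝ, l0 = 32 / ε + 2 := ⟨_, rfl⟩
  have h32 : 0 < 32 / ε := by positivity
  have hl00 : 2 ≤ l0 := by rw [hl0]; linarith
  obtain ⟨C, hC⟩ : ∃ C : ℝ, C = (8 / ε + 1) * (l0 + 1) := ⟨_, rfl⟩
  have h8 : 0 < 8 / ε := by positivity
  have hC0 : 0 < C := by rw [hC]; positivity
  obtain ⟨r1, hr1, h1⟩ := var θ (l0 + 1) 1 hθ one_pos
  obtain ⟨r2, hr2, h2⟩ := card_cop θ 1 hθ one_pos
  refine ⟨C, max r1 r2, hC0, hr1.trans (le_max_left _ _), ?_⟩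
  intro r hr
  filter_upwards [h1 r ((le_max_left _ _).trans hr), h2 r ((le_max_right _ _).trans hr)] with q g1 g2
  intro y hy Z Y hY T hT
  obtain ⟨N, hN⟩ : ∃ N, N = (Y : ℝ) * ((q.totient : ℝ) / q) := ⟨_, rfl⟩
  have hN0 : 0 ≤ N := by rw [hN]; positivity
  have hV0 : 0 < V q y := by rw [← V_eq]; exact Vq_pos (Qn Ql q) (adm_Qn Ql adm_Ql q) y
  have hV1 : V q y ≤ 1 := by rw [← V_eq]; exact Vq_le_one _ _
  obtain ⟨T0, hT0⟩ : ∃ T0, T0 = ⌈l0 / V q y⌉₊ := ⟨_, rfl⟩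
  have hlow : l0 ≤ T0 * V q y := by
    rw [← div_le_iff₀ hV0, hT0]
    exact Nat.le_ceil _
  have hupp : T0 * V q y ≤ l0 + 1 := by
    have : (T0 : ℝ) < l0 / V q y + 1 := by rw [hT0]; exact Nat.ceil_lt_add_one (by positivity)
    have h3 : T0 * V q y ≤ (l0 / V q y + 1) * V q y := mul_le_mul_of_nonneg_right this.le hV0.le
    rw [add_mul, div_mul_cancel₀ _ hV0.ne'] at h3
    linarith
  have hT0pos : 0 < T0 := by
    rcases Nat.eq_zero_or_pos T0 with h | h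
    · rw [h] at hlow
      simp at hlow
      linarith
    · exact h
  have g1' := g1 y hy
  rw [← hN]
  obtain ⟨v, hv⟩ : ∃ v, v = V q y := ⟨_, rfl⟩
  rw [← hv] at hT hV0 hV1 g1' hlow hupp ⊢
  obtain ⟨x, hx⟩ : ∃ x, x = T0 * v := ⟨_, rfl⟩
  rw [← hx] at hlow hupp
  have hx0 : 0 < x := by linarith
  -- one block
  have hblock : ∀ Z' : ℕ, ∑ n ∈ Om q Z' Y, ((cnt q y T0 n : ℝ) - x) ^ 2 ≤ 2 * x * N := by
    intro Z'
    have h3 := (abs_le.1 (g1' Z' Y hY T0 (by rw [← hx]; exact hupp))).2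
    rw [← hN, ← hx] at h3
    have h4 : N * 1 ≤ N * x := mul_le_mul_of_nonneg_left (by linarith) hN0
    linarith
  obtain ⟨M, hM⟩ : ∃ M, M = T / T0 := ⟨_, rfl⟩
  have hMT : M * T0 ≤ T := by rw [hM]; exact Nat.div_mul_le_self T T0
  have hMT2 : T < M * T0 + T0 := by
    rw [hM]
    have h3 := Nat.div_add_mod T T0
    have h4 := Nat.mod_lt T hT0pos
    rw [mul_comm] at h3
    omega
  have hMTr : (M : ℝ) * T0 ≤ T := by exact_mod_cast hMT
  have hMT2r : (T : ℝ) ≤ M * T0 + T0 := by exact_mod_cast hMT2.le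
  have hMx : (M : ℝ) * x ≤ T * v := by
    rw [hx, ← mul_assoc]
    exact mul_le_mul_of_nonneg_right hMTr hV0.le
  have hMx2 : (T : ℝ) * v ≤ M * x + x := by
    have : (T : ℝ) * v ≤ (M * T0 + T0) * v := mul_le_mul_of_nonneg_right hMT2r hV0.le
    rw [hx]
    linarith
  have hxT : (8 / ε + 1) * x ≤ T * v := by
    refine le_trans ?_ hT
    rw [hC]
    exact mul_le_mul_of_nonneg_left hupp (by positivity)
  have hxT1 : x ≤ T * v := by
    have : 0 ≤ 8 / ε * x := by positivity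
    linarith
  -- pointwise
  have hpt : ∀ n, ((cnt q y T n : ℝ) - T * v) ^ 2 ≤
      2 * x ^ 2 + 2 * ((M + 1 : ℕ) * ∑ b ∈ range (M + 1), ((cnt q y T0 (n + q * (b * T0)) : ℝ) - x) ^ 2) := by
    intro n
    have a0 : ∑ b ∈ range (M + 1), (cnt q y T0 (n + q * (b * T0)) : ℝ) =
        (cnt q y ((M + 1) * T0) n : ℝ) := by
      rw [cnt_blocks]
      push_cast
      rfl
    have a1 : ∑ b ∈ range M, (cnt q y T0 (n + q * (b * T0)) : ℝ) = (cnt q y (M * T0) n : ℝ) := by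
      rw [cnt_blocks]
      push_cast
      rfl
    have a2 : (cnt q y (M * T0) n : ℝ) ≤ cnt q y T n := by exact_mod_cast cnt_mono q y n hMT
    have a3 : (cnt q y T n : ℝ) ≤ cnt q y ((M + 1) * T0) n := by
      exact_mod_cast cnt_mono q y n (by rw [Nat.add_mul, one_mul]; exact hMT2.le)
    have a4 : ∑ b ∈ range (M + 1), ((cnt q y T0 (n + q * (b * T0)) : ℝ) - x) =
        (cnt q y ((M + 1) * T0) n : ℝ) - (M + 1) * x := by
      rw [Finset.sum_sub_distrib, a0, Finset.sum_const, card_range, nsmul_eq_mul]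
      push_cast
      ring
    have a5 : ∑ b ∈ range M, ((cnt q y T0 (n + q * (b * T0)) : ℝ) - x) =
        (cnt q y (M * T0) n : ℝ) - M * x := by
      rw [Finset.sum_sub_distrib, a1, Finset.sum_const, card_range, nsmul_eq_mul]
    obtain ⟨S, hS⟩ : ∃ S, S = ∑ b ∈ range (M + 1), |(cnt q y T0 (n + q * (b * T0)) : ℝ) - x| := ⟨_, rfl⟩
    have a6 : |(cnt q y ((M + 1) * T0) n : ℝ) - (M + 1) * x| ≤ S := by
      rw [← a4, hS]
      exact Finset.abs_sum_le_sum_abs _ _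
    have a7 : |(cnt q y (M * T0) n : ℝ) - M * x| ≤ S := by
      rw [← a5, hS]
      refine (Finset.abs_sum_le_sum_abs _ _).trans ?_
      apply Finset.sum_le_sum_of_subset_of_nonneg
      · intro b hb
        rw [mem_range] at hb ⊢
        omega
      · intro _ _ _
        exact abs_nonneg _
    have a8 : |(cnt q y T n : ℝ) - T * v| ≤ x + S := by
      have b1 := (abs_le.1 a6).2
      have b2 := (abs_le.1 a7).1
      rw [abs_le]
      constructor <;> linarith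
    have hS0 : 0 ≤ S := by rw [hS]; exact Finset.sum_nonneg fun _ _ => abs_nonneg _
    have a9 : S ^ 2 ≤ (M + 1 : ℕ) * ∑ b ∈ range (M + 1), ((cnt q y T0 (n + q * (b * T0)) : ℝ) - x) ^ 2 := by
      rw [hS]
      refine (sq_sum_le (M + 1) _).trans (le_of_eq ?_)
      simp only [sq_abs]
    have a10 : ((cnt q y T n : ℝ) - T * v) ^ 2 ≤ (x + S) ^ 2 := by
      rw [← sq_abs]
      exact pow_le_pow_left₀ (abs_nonneg _) a8 2
    have a11 : (x + S) ^ 2 ≤ 2 * x ^ 2 + 2 * S ^ 2 := by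
      have := sq_nonneg (x - S)
      linarith
    linarith
  refine (Finset.sum_le_sum fun n _ => hpt n).trans ?_
  rw [Finset.sum_add_distrib, Finset.sum_const, nsmul_eq_mul, ← Finset.mul_sum, ← Finset.mul_sum,
    Finset.sum_comm]
  have h3 := (abs_le.1 (g2 Z Y hY)).2
  rw [← hN, one_mul] at h3
  have h4 : ((Om q Z Y).card : ℝ) * (2 * x ^ 2) ≤ 2 * N * (2 * x ^ 2) :=
    mul_le_mul_of_nonneg_right (by linarith) (by positivity)
  have h5 : ∑ b ∈ range (M + 1), ∑ n ∈ Om q Z Y, ((cnt q y T0 (n + q * (b * T0)) : ℝ) - x) ^ 2 ≤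
      (M + 1 : ℕ) * (2 * x * N) := by
    have : ((M + 1 : ℕ) : ℝ) * (2 * x * N) = ∑ b ∈ range (M + 1), (2 * x * N) := by
      rw [Finset.sum_const, card_range, nsmul_eq_mul]
    rw [this]
    apply Finset.sum_le_sum
    intro b _
    rw [sum_shift q Z Y (b * T0) (fun n => ((cnt q y T0 n : ℝ) - x) ^ 2)]
    exact hblock _
  obtain ⟨X, hX⟩ : ∃ X, X = (T : ℝ) * v := ⟨_, rfl⟩
  rw [← hX] at hMx hMx2 hxT hxT1 ⊢
  have hM1 : (((M + 1 : ℕ) : ℝ)) * x ≤ 2 * X := by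
    push_cast
    linarith
  have h6 : 2 * ((((M + 1 : ℕ) : ℝ)) * ((M + 1 : ℕ) * (2 * x * N))) ≤ 16 / x * X ^ 2 * N := by
    have b1 : 2 * ((((M + 1 : ℕ) : ℝ)) * ((M + 1 : ℕ) * (2 * x * N))) =
        4 / x * ((((M + 1 : ℕ) : ℝ)) * x) ^ 2 * N := by
      field_simp
      ring
    rw [b1]
    have b2 : ((((M + 1 : ℕ) : ℝ)) * x) ^ 2 ≤ (2 * X) ^ 2 := pow_le_pow_left₀ (by positivity) hM1 2
    calc 4 / x * ((((M + 1 : ℕ) : ℝ)) * x) ^ 2 * N ≤ 4 / x * (2 * X) ^ 2 * N := by gcongr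
      _ = 16 / x * X ^ 2 * N := by ring
  have h7 : 16 / x ≤ ε / 2 := by
    rw [div_le_div_iff₀ hx0 (by norm_num)]
    have b1 : 32 / ε ≤ x := by linarith
    rw [div_le_iff₀ hε] at b1
    linarith
  have hX0 : 0 < X := by linarith
  have h8' : 4 * x ^ 2 ≤ ε / 2 * X ^ 2 := by
    have b1 : 8 / ε * x ≤ X := by linarith
    have b2 : 8 * x ≤ ε * X := by
      rw [div_mul_eq_mul_div, div_le_iff₀ hε] at b1
      linarith
    have b3 : 8 * x * x ≤ ε * X * X := mul_le_mul b2 hxT1 hx0.le (by positivity)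
    nlinarith
  have h9 : 16 / x * X ^ 2 * N ≤ ε / 2 * X ^ 2 * N := by gcongr
  have h10 : 4 * x ^ 2 * N ≤ ε / 2 * X ^ 2 * N := mul_le_mul_of_nonneg_right h8' hN0
  have h11 : 2 * ((((M + 1 : ℕ) : ℝ)) * ∑ b ∈ range (M + 1), ∑ n ∈ Om q Z Y,
      ((cnt q y T0 (n + q * (b * T0)) : ℝ) - x) ^ 2) ≤ 2 * ((((M + 1 : ℕ) : ℝ)) * ((M + 1 : ℕ) * (2 * x * N))) := by
    gcongr
  linarith

/-- **The mean square of the maximal error, for all large `T`.** -/
theorem msqmax (θ ε : ℝ) (hθ : 0 < θ) (hε : 0 < ε) :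
    ∃ (C : ℝ) (r0 : ℕ), 0 < C ∧ 2 ≤ r0 ∧ ∀ r : ℕ, r0 ≤ r → ∀ᶠ q : ℕ in atTop,
      ∀ y : ℕ, y = ⌊(q : ℝ) ^ (1 / (r : ℝ))⌋₊ → ∀ Z Y : ℕ, (q : ℝ) ^ θ ≤ Y → ∀ T : ℕ, C ≤ T * V q y →
        ∀ t : ℕ → ℕ, (∀ n, t n ≤ T) → ∑ n ∈ Om q Z Y, ((cnt q y (t n) n : ℝ) - t n * V q y) ^ 2 ≤
          ε * ((T * V q y) ^ 2 * (Y * ((q.totient : ℝ) / q))) := by
  obtain ⟨K, hK⟩ : ∃ K : ℕ, 32 / ε + 1 ≤ K := exists_nat_ge _
  have h8 : 0 < 32 / ε := by positivity
  have hK1 : (1 : ℝ) ≤ K := by linarith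
  have hK0 : 0 < K := by exact_mod_cast (by linarith : (0 : ℝ) < K)
  obtain ⟨C, r1, hC, hr1, h1⟩ := msq θ (ε / (16 * ((K + 1) * K))) hθ (by positivity)
  obtain ⟨r2, hr2, h2⟩ := card_cop θ 1 hθ one_pos
  refine ⟨K * (C + 1), max r1 r2, by positivity, hr1.trans (le_max_left _ _), ?_⟩
  intro r hr
  filter_upwards [h1 r ((le_max_left _ _).trans hr), h2 r ((le_max_right _ _).trans hr)] with q g1 g2
  intro y hy Z Y hY T hT t ht
  obtain ⟨N, hN⟩ : ∃ N, N = (Y : ℝ) * ((q.totient : ℝ) / q) := ⟨_, rfl⟩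
  have hN0 : 0 ≤ N := by rw [hN]; positivity
  have hV0 : 0 < V q y := by rw [← V_eq]; exact Vq_pos (Qn Ql q) (adm_Qn Ql adm_Ql q) y
  have hV1 : V q y ≤ 1 := by rw [← V_eq]; exact Vq_le_one _ _
  obtain ⟨v, hv⟩ : ∃ v, v = V q y := ⟨_, rfl⟩
  have g1' := g1 y hy
  rw [← hv] at hT hV0 hV1 g1' ⊢
  rw [← hN]
  obtain ⟨s, hs⟩ : ∃ s, s = T / K + 1 := ⟨_, rfl⟩
  have hTs : T < K * s := by
    rw [hs]
    have h3 := Nat.div_add_mod T K
    have h4 := Nat.mod_lt T hK0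
    rw [Nat.mul_add, mul_one]
    omega
  have hsT : K * s ≤ T + K := by
    rw [hs, Nat.mul_add, mul_one]
    have := Nat.mul_div_le T K
    omega
  have hTsr : (T : ℝ) ≤ K * s := by exact_mod_cast hTs.le
  have hsTr : (K : ℝ) * s ≤ T + K := by exact_mod_cast hsT
  have hs0 : 0 < s := by rw [hs]; exact Nat.succ_pos _
  have hKT : (K : ℝ) ≤ T * v := by
    have : (K : ℝ) * 1 ≤ K * (C + 1) := by gcongr; linarith
    linarith
  obtain ⟨X, hX⟩ : ∃ X, X = (T : ℝ) * v := ⟨_, rfl⟩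
  have hKs2 : (K : ℝ) * s * v ≤ 2 * X := by
    have a1 : (K : ℝ) * s * v ≤ (T + K) * v := mul_le_mul_of_nonneg_right hsTr hV0.le
    have a2 : (K : ℝ) * v ≤ K * 1 := mul_le_mul_of_nonneg_left hV1 (by positivity)
    rw [hX]
    linarith
  have hsv : C ≤ s * v := by
    have a1 : (K : ℝ) * (C + 1) ≤ K * (s * v) := by
      calc (K : ℝ) * (C + 1) ≤ T * v := hT
        _ ≤ (K * s) * v := mul_le_mul_of_nonneg_right hTsr hV0.le
        _ = _ := by ring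
    have a2 := le_of_mul_le_mul_left a1 (by linarith)
    linarith
  rw [← hX] at hKT ⊢
  have hX0 : 0 < X := by linarith
  -- the pointwise inequality
  have hpt : ∀ n, ((cnt q y (t n) n : ℝ) - t n * v) ^ 2 ≤
      2 * (s * v) ^ 2 + 2 * ((K + 1 : ℕ) * ∑ i ∈ range (K + 1), ((cnt q y (i * s) n : ℝ) - (i * s : ℕ) * v) ^ 2) := by
    intro n
    obtain ⟨j, hj⟩ : ∃ j, j = t n / s := ⟨_, rfl⟩
    have j1 : j * s ≤ t n := by rw [hj]; exact Nat.div_mul_le_self _ _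
    have j2 : t n < (j + 1) * s := by
      rw [hj, Nat.add_mul, one_mul]
      have h3 := Nat.div_add_mod (t n) s
      have h4 := Nat.mod_lt (t n) hs0
      rw [mul_comm] at h3
      omega
    have j3 : j < K := by
      rw [hj, Nat.div_lt_iff_lt_mul hs0]
      exact lt_of_le_of_lt (ht n) hTs
    obtain ⟨S, hS⟩ : ∃ S, S = ∑ i ∈ range (K + 1), |(cnt q y (i * s) n : ℝ) - (i * s : ℕ) * v| := ⟨_, rfl⟩
    have c1 : |(cnt q y (j * s) n : ℝ) - (j * s : ℕ) * v| ≤ S := by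
      rw [hS]
      exact Finset.single_le_sum (f := fun i => |(cnt q y (i * s) n : ℝ) - (i * s : ℕ) * v|)
        (fun _ _ => abs_nonneg _) (mem_range.2 (by omega))
    have c2 : |(cnt q y ((j + 1) * s) n : ℝ) - ((j + 1) * s : ℕ) * v| ≤ S := by
      rw [hS]
      exact Finset.single_le_sum (f := fun i => |(cnt q y (i * s) n : ℝ) - (i * s : ℕ) * v|)
        (fun _ _ => abs_nonneg _) (mem_range.2 (by omega))
    have c3 : (cnt q y (j * s) n : ℝ) ≤ cnt q y (t n) n := by exact_mod_cast cnt_mono q y n j1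
    have c4 : (cnt q y (t n) n : ℝ) ≤ cnt q y ((j + 1) * s) n := by exact_mod_cast cnt_mono q y n j2.le
    have c5 : ((j * s : ℕ) : ℝ) * v ≤ t n * v :=
      mul_le_mul_of_nonneg_right (by exact_mod_cast j1) hV0.le
    have c6 : (t n : ℝ) * v ≤ ((j + 1) * s : ℕ) * v :=
      mul_le_mul_of_nonneg_right (by exact_mod_cast j2.le) hV0.le
    have c7 : (((j + 1) * s : ℕ) : ℝ) * v = (j * s : ℕ) * v + s * v := by push_cast; ring
    have c8 : |(cnt q y (t n) n : ℝ) - t n * v| ≤ s * v + S := by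
      have d1 := (abs_le.1 c1).1
      have d2 := (abs_le.1 c2).2
      rw [abs_le]
      constructor <;> linarith
    have c9 : S ^ 2 ≤ (K + 1 : ℕ) * ∑ i ∈ range (K + 1), ((cnt q y (i * s) n : ℝ) - (i * s : ℕ) * v) ^ 2 := by
      rw [hS]
      refine (sq_sum_le (K + 1) _).trans (le_of_eq ?_)
      simp only [sq_abs]
    have c10 : ((cnt q y (t n) n : ℝ) - t n * v) ^ 2 ≤ (s * v + S) ^ 2 := by
      rw [← sq_abs]
      exact pow_le_pow_left₀ (abs_nonneg _) c8 2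
    have c11 : (s * v + S) ^ 2 ≤ 2 * (s * v) ^ 2 + 2 * S ^ 2 := by
      have := sq_nonneg (s * v - S)
      linarith
    linarith
  refine (Finset.sum_le_sum fun n _ => hpt n).trans ?_
  rw [Finset.sum_add_distrib, Finset.sum_const, nsmul_eq_mul, ← Finset.mul_sum, ← Finset.mul_sum,
    Finset.sum_comm]
  have h3 := (abs_le.1 (g2 Z Y hY)).2
  rw [← hN, one_mul] at h3
  have h4 : ((Om q Z Y).card : ℝ) * (2 * (s * v) ^ 2) ≤ 2 * N * (2 * (s * v) ^ 2) :=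
    mul_le_mul_of_nonneg_right (by linarith) (by positivity)
  have hsvK : (s : ℝ) * v ≤ 2 * X / K := by
    rw [le_div_iff₀ (by linarith)]
    linarith
  have h5 : 2 * N * (2 * (s * v) ^ 2) ≤ ε / 2 * (X ^ 2 * N) := by
    have a1 : (s * v) ^ 2 ≤ (2 * X / K) ^ 2 := pow_le_pow_left₀ (by positivity) hsvK 2
    have a2 : (2 * X / K) ^ 2 = 4 * X ^ 2 / K ^ 2 := by ring
    have a3 : 4 * X ^ 2 / K ^ 2 ≤ 4 * X ^ 2 / (32 / ε) := by
      apply div_le_div_of_nonneg_left (by positivity) h8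
      have : (K : ℝ) * 1 ≤ K * K := by gcongr
      nlinarith
    have a4 : 4 * X ^ 2 / (32 / ε) = ε / 8 * X ^ 2 := by field_simp; ring
    have a5 : (s * v) ^ 2 ≤ ε / 8 * X ^ 2 := by
      rw [← a4]
      rw [a2] at a1
      exact a1.trans a3
    have a6 : 4 * N * (s * v) ^ 2 ≤ 4 * N * (ε / 8 * X ^ 2) := mul_le_mul_of_nonneg_left a5 (by positivity)
    linarith
  have h6 : ∑ i ∈ range (K + 1), ∑ n ∈ Om q Z Y, ((cnt q y (i * s) n : ℝ) - (i * s : ℕ) * v) ^ 2 ≤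
      ε / (4 * (K + 1)) * (X ^ 2 * N) := by
    rw [Finset.sum_range_succ']
    have e0 : ∑ n ∈ Om q Z Y, ((cnt q y (0 * s) n : ℝ) - (0 * s : ℕ) * v) ^ 2 = 0 := by
      apply Finset.sum_eq_zero
      intro n _
      rw [Nat.zero_mul, cnt_zero]
      simp
    rw [e0, add_zero]
    have h7 : ∀ i ∈ range K, ∑ n ∈ Om q Z Y, ((cnt q y ((i + 1) * s) n : ℝ) - ((i + 1) * s : ℕ) * v) ^ 2 ≤
        ε / (16 * ((K + 1) * K)) * ((2 * X) ^ 2 * N) := by
      intro i hi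
      rw [mem_range] at hi
      have b1 : ((i : ℝ) + 1) ≤ K := by exact_mod_cast (by omega : i + 1 ≤ K)
      have b2 : (1 : ℝ) ≤ (i : ℝ) + 1 := by have : (0 : ℝ) ≤ i := Nat.cast_nonneg i
                                            linarith
      have hsv0 : 0 ≤ (s : ℝ) * v := by positivity
      have b3 : (((i + 1) * s : ℕ) : ℝ) * v = ((i : ℝ) + 1) * (s * v) := by push_cast; ring
      have b4 : C ≤ (((i + 1) * s : ℕ) : ℝ) * v := by
        rw [b3]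
        nlinarith
      refine (g1' Z Y hY ((i + 1) * s) b4).trans ?_
      rw [← hN, b3]
      apply mul_le_mul_of_nonneg_left _ (by positivity)
      apply mul_le_mul_of_nonneg_right _ hN0
      apply pow_le_pow_left₀ (by positivity)
      calc ((i : ℝ) + 1) * (s * v) ≤ K * (s * v) := mul_le_mul_of_nonneg_right b1 hsv0
        _ = K * s * v := by ring
        _ ≤ _ := hKs2
    refine (Finset.sum_le_sum h7).trans ?_
    rw [Finset.sum_const, card_range, nsmul_eq_mul]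
    apply le_of_eq
    field_simp
    ring
  have h7 : 2 * (((K + 1 : ℕ) : ℝ) * ∑ i ∈ range (K + 1), ∑ n ∈ Om q Z Y,
      ((cnt q y (i * s) n : ℝ) - (i * s : ℕ) * v) ^ 2) ≤ ε / 2 * (X ^ 2 * N) := by
    calc 2 * (((K + 1 : ℕ) : ℝ) * ∑ i ∈ range (K + 1), ∑ n ∈ Om q Z Y,
          ((cnt q y (i * s) n : ℝ) - (i * s : ℕ) * v) ^ 2) ≤
        2 * (((K + 1 : ℕ) : ℝ) * (ε / (4 * (K + 1)) * (X ^ 2 * N))) := by gcongr
      _ = ε / 2 * (X ^ 2 * N) := by
        push_cast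
        field_simp
        ring
  linarith

end Pool.Agent.R490.Msq
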