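import Pool.Agent.R490.Test
import Pool.Agent.R490.Msq

set_option autoImplicit false

/-!
# All power means of the error for almost primes in the reduced classes of every modulus
-/

namespace Pool.Agent.R490.Mk

open Finset Filter
open Pool.Agent.W123.RP Pool.Agent.H373R2.T7 Pool.Agent.W123.RU Pool.Agent.TH464.PO Pool.Agent.TH464.PW
open Pool.Agent.Y879.AP Pool.Agent.R490.Cls Pool.Agent.R490.Mean Pool.Agent.R490.Lone Pool.Agent.R490.Moms

/-- the exponential moments -/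
lemma hasSum_pw (x s : ℝ) :
    HasSum (fun j : ℕ => Lone.pw x j * Real.exp (s * (j - x))) (Real.exp (x * (Real.exp s - 1 - s))) := by
  have h1 : HasSum (fun j : ℕ => (x * Real.exp s) ^ j / (j.factorial : ℝ)) (Real.exp (x * Real.exp s)) := by
    rw [Real.exp_eq_exp_ℝ]
    exact NormedSpace.expSeries_div_hasSum_exp (x * NormedSpace.exp s)
  have h2 := h1.mul_left (Real.exp (-x) * Real.exp (-(s * x)))
  have e1 : Real.exp (-x) * Real.exp (-(s * x)) * Real.exp (x * Real.exp s) =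
      Real.exp (x * (Real.exp s - 1 - s)) := by
    rw [← Real.exp_add, ← Real.exp_add]
    congr 1
    ring
  rw [e1] at h2
  have e3 : (fun j : ℕ => Lone.pw x j * Real.exp (s * (j - x))) =
      (fun i : ℕ => Real.exp (-x) * Real.exp (-(s * x)) * ((x * Real.exp s) ^ i / (i.factorial : ℝ))) := by
    funext j
    unfold Lone.pw
    have e2 : Real.exp (s * ((j : ℝ) - x)) = Real.exp s ^ j * Real.exp (-(s * x)) := by
      rw [← Real.exp_nat_mul, ← Real.exp_add]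
      congr 1
      ring
    rw [e2, mul_pow]
    ring
  rw [e3]
  exact h2

/-- the absolute central moments of the Poisson distribution -/
lemma central (x : ℝ) (hx : 1 ≤ x) (k : ℕ) :
    ∑' j : ℕ, |(j : ℝ) - x| ^ k * Lone.pw x j ≤ 6 * k.factorial * (√x) ^ k := by
  have hx0 : 0 < x := by linarith
  have hs0 : 0 < √x := Real.sqrt_pos.2 hx0
  have hs1 : 1 ≤ √x := by rw [Real.one_le_sqrt]; exact hx
  obtain ⟨s, hs⟩ : ∃ s, s = 1 / √x := ⟨_, rfl⟩
  have hsp : 0 < s := by rw [hs]; positivity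
  have hsle : s ≤ 1 := by rw [hs, div_le_one hs0]; exact hs1
  have hss : x * s ^ 2 = 1 := by
    rw [hs, div_pow, Real.sq_sqrt hx0.le]
    field_simp
  have h1 := (hasSum_pw x s)
  have h2 := (hasSum_pw x (-s))
  have h3 := (h1.add h2).mul_left ((k.factorial : ℝ) * (√x) ^ k)
  have hpw0 : ∀ j : ℕ, 0 ≤ Lone.pw x j := Lone.pw_nonneg x hx0.le
  have hb : ∀ j : ℕ, |(j : ℝ) - x| ^ k * Lone.pw x j ≤ (k.factorial : ℝ) * (√x) ^ k *
      (Lone.pw x j * Real.exp (s * (j - x)) + Lone.pw x j * Real.exp (-s * (j - x))) := by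
    intro j
    have a1 : (s * |(j : ℝ) - x|) ^ k / k.factorial ≤ Real.exp (s * |(j : ℝ) - x|) :=
      Real.pow_div_factorial_le_exp _ (by positivity) k
    have a2 : Real.exp (s * |(j : ℝ) - x|) ≤ Real.exp (s * (j - x)) + Real.exp (-s * (j - x)) := by
      rcases abs_cases ((j : ℝ) - x) with h | h
      · rw [h.1]
        have := Real.exp_pos (-s * ((j : ℝ) - x))
        linarith
      · rw [h.1, show s * -((j : ℝ) - x) = -s * (j - x) by ring]
        have := Real.exp_pos (s * ((j : ℝ) - x))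
        linarith
    have a3 : |(j : ℝ) - x| ^ k = (√x) ^ k * (s * |(j : ℝ) - x|) ^ k := by
      rw [← mul_pow, hs]
      congr 1
      field_simp
    have a4 : (s * |(j : ℝ) - x|) ^ k ≤ k.factorial * (Real.exp (s * (j - x)) + Real.exp (-s * (j - x))) := by
      rw [div_le_iff₀ (by positivity)] at a1
      calc (s * |(j : ℝ) - x|) ^ k ≤ Real.exp (s * |(j : ℝ) - x|) * k.factorial := a1
        _ ≤ (Real.exp (s * (j - x)) + Real.exp (-s * (j - x))) * k.factorial := by gcongr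
        _ = _ := mul_comm _ _
    rw [a3]
    calc (√x) ^ k * (s * |(j : ℝ) - x|) ^ k * Lone.pw x j ≤
          (√x) ^ k * (k.factorial * (Real.exp (s * (j - x)) + Real.exp (-s * (j - x)))) * Lone.pw x j := by
          apply mul_le_mul_of_nonneg_right _ (hpw0 j)
          exact mul_le_mul_of_nonneg_left a4 (by positivity)
      _ = _ := by ring
  have hsf : Summable (fun j : ℕ => |(j : ℝ) - x| ^ k * Lone.pw x j) :=
    Summable.of_nonneg_of_le (fun j => mul_nonneg (by positivity) (hpw0 j)) hb h3.summable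
  have h4 : ∑' j : ℕ, |(j : ℝ) - x| ^ k * Lone.pw x j ≤ (k.factorial : ℝ) * (√x) ^ k *
      (Real.exp (x * (Real.exp s - 1 - s)) + Real.exp (x * (Real.exp (-s) - 1 - -s))) := by
    rw [← h3.tsum_eq]
    exact hsf.tsum_le_tsum hb h3.summable
  have hexp : ∀ w : ℝ, |w| ≤ 1 → x * w ^ 2 = 1 → Real.exp (x * (Real.exp w - 1 - w)) ≤ 3 := by
    intro w hw hw2
    have a1 := (abs_le.1 (Real.abs_exp_sub_one_sub_id_le hw)).2
    have a2 : x * (Real.exp w - 1 - w) ≤ 1 := by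
      calc x * (Real.exp w - 1 - w) ≤ x * w ^ 2 := mul_le_mul_of_nonneg_left a1 hx0.le
        _ = 1 := hw2
    calc Real.exp (x * (Real.exp w - 1 - w)) ≤ Real.exp 1 := Real.exp_le_exp.2 a2
      _ ≤ 3 := Real.exp_one_lt_three.le
  have h5 := hexp s (by rw [abs_of_pos hsp]; exact hsle) hss
  have h6 := hexp (-s) (by rw [abs_neg, abs_of_pos hsp]; exact hsle) (by rw [neg_sq]; exact hss)
  refine h4.trans ?_
  calc (k.factorial : ℝ) * (√x) ^ k *
      (Real.exp (x * (Real.exp s - 1 - s)) + Real.exp (x * (Real.exp (-s) - 1 - -s))) ≤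
      (k.factorial : ℝ) * (√x) ^ k * (3 + 3) := by gcongr
    _ = _ := by ring

lemma add_pow_le' (a b : ℝ) (ha : 0 ≤ a) (hb : 0 ≤ b) (k : ℕ) : (a + b) ^ k ≤ 2 ^ k * (a ^ k + b ^ k) := by
  rcases le_total a b with h | h
  · calc (a + b) ^ k ≤ (2 * b) ^ k := pow_le_pow_left₀ (by positivity) (by linarith) k
      _ = 2 ^ k * b ^ k := mul_pow _ _ _
      _ ≤ 2 ^ k * (a ^ k + b ^ k) := by
        apply mul_le_mul_of_nonneg_left _ (by positivity)
        have : 0 ≤ a ^ k := by positivity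
        linarith
  · calc (a + b) ^ k ≤ (2 * a) ^ k := pow_le_pow_left₀ (by positivity) (by linarith) k
      _ = 2 ^ k * a ^ k := mul_pow _ _ _
      _ ≤ 2 ^ k * (a ^ k + b ^ k) := by
        apply mul_le_mul_of_nonneg_left _ (by positivity)
        have : 0 ≤ b ^ k := by positivity
        linarith

lemma pow_self_ge (a : ℝ) (ha : 0 ≤ a) (m : ℕ) : a ≤ (a + 1) ^ (m + 1) := by
  have h1 : (1 : ℝ) ≤ (a + 1) ^ m := one_le_pow₀ (by linarith)
  calc a ≤ 1 * (a + 1) := by linarith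
    _ ≤ (a + 1) ^ m * (a + 1) := mul_le_mul_of_nonneg_right h1 (by linarith)
    _ = (a + 1) ^ (m + 1) := (pow_succ _ _).symm

/-- **The `k`-th power mean of the error, `k = m + 1`, for all large `T`.** -/
theorem mk (θ ε : ℝ) (m : ℕ) (hθ : 0 < θ) (hε : 0 < ε) :
    ∃ (C : ℝ) (r0 : ℕ), 0 < C ∧ 2 ≤ r0 ∧ ∀ r : ℕ, r0 ≤ r → ∀ᶠ q : ℕ in atTop,
      ∀ y : ℕ, y = ⌊(q : ℝ) ^ (1 / (r : ℝ))⌋₊ → ∀ Z Y : ℕ, (q : ℝ) ^ θ ≤ Y → ∀ T : ℕ, C ≤ T * V q y →
        ∑ n ∈ Om q Z Y, |(cnt q y T n : ℝ) - T * V q y| ^ (m + 1) ≤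
          ε * ((T * V q y) ^ (m + 1) * (Y * ((q.totient : ℝ) / q))) := by
  obtain ⟨c, hc⟩ : ∃ c : ℝ, c = 6 * (m + 1).factorial + 1 := ⟨_, rfl⟩
  have hc0 : 0 < c := by rw [hc]; positivity
  obtain ⟨b0, hb0⟩ : ∃ b0 : ℝ, b0 = 4 * (2 * c / ε + 1) := ⟨_, rfl⟩
  have hce : 0 < 2 * c / ε := by positivity
  have hb04 : 4 ≤ b0 := by rw [hb0]; linarith
  obtain ⟨l0, hl0⟩ : ∃ l0 : ℝ, l0 = b0 ^ 2 := ⟨_, rfl⟩
  have hl00 : 16 ≤ l0 := by rw [hl0]; nlinarith
  have h4e : 0 < 4 / ε := by positivity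
  obtain ⟨C, hC⟩ : ∃ C : ℝ, C = 2 * (4 / ε + 1) * (l0 + 1) := ⟨_, rfl⟩
  have hC0 : 0 < C := by rw [hC]; positivity
  obtain ⟨r1, hr1, h1⟩ := Test.test θ (l0 + 1) ((2 + l0) ^ (m + 1)) 1 (m + 1) hθ (by positivity) one_pos
  obtain ⟨r2, hr2, h2⟩ := card_cop θ 1 hθ one_pos
  refine ⟨C, max r1 r2, hC0, hr1.trans (le_max_left _ _), ?_⟩
  intro r hr
  filter_upwards [h1 r ((le_max_left _ _).trans hr), h2 r ((le_max_right _ _).trans hr)] with q g1 g2
  intro y hy Z Y hY T hT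
  obtain ⟨N, hN⟩ : ∃ N, N = (Y : ℝ) * ((q.totient : ℝ) / q) := ⟨_, rfl⟩
  have hN0 : 0 ≤ N := by rw [hN]; positivity
  have hV0 : 0 < V q y := by rw [← V_eq]; exact Vq_pos (Qn Ql q) (adm_Qn Ql adm_Ql q) y
  have hV1 : V q y ≤ 1 := by rw [← V_eq]; exact Vq_le_one _ _
  obtain ⟨T0, hT0⟩ : ∃ T0, T0 = ⌈l0 / V q y⌉₊ := ⟨_, rfl⟩
  have hlow : l0 ≤ T0 * V q y := by
    rw [← div_le_iff₀ hV0, hT0]
    exact Nat.le_ceil _
  have hupp : T0 * V q y ≤ l0 + 1 := by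
    have : (T0 : ℝ) < l0 / V q y + 1 := by rw [hT0]; exact Nat.ceil_lt_add_one (by positivity)
    have h3 : T0 * V q y ≤ (l0 / V q y + 1) * V q y := mul_le_mul_of_nonneg_right this.le hV0.le
    rw [add_mul, div_mul_cancel₀ _ hV0.ne'] at h3
    linarith
  have hT0pos : 0 < T0 := by
    rcases Nat.eq_zero_or_pos T0 with h | h
    · rw [h] at hlow
      simp at hlow
      linarith
    · exact h
  have g1' := g1 y hy
  rw [← hN]
  obtain ⟨v, hv⟩ : ∃ v, v = V q y := ⟨_, rfl⟩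
  rw [← hv] at hT hV0 hV1 g1' hlow hupp ⊢
  obtain ⟨x, hx⟩ : ∃ x, x = T0 * v := ⟨_, rfl⟩
  rw [← hx] at hlow hupp
  have hx0 : 0 < x := by linarith
  have hsx : b0 ≤ √x := by
    apply Real.le_sqrt_of_sq_le
    rw [← hl0]
    exact hlow
  have hsx0 : 0 < √x := by linarith
  -- one block
  have hblock : ∀ Z' : ℕ, ∑ n ∈ Om q Z' Y, |(cnt q y T0 n : ℝ) - x| ^ (m + 1) ≤ c * (√x) ^ (m + 1) * N := by
    intro Z'
    have h3 := (abs_le.1 (g1' Z' Y hY T0 (by rw [← hx]; exact hupp) (fun j => |(j : ℝ) - x| ^ (m + 1)) (by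
      intro j
      beta_reduce
      rw [abs_pow, abs_abs, ← mul_pow]
      apply pow_le_pow_left₀ (abs_nonneg _)
      have hj : (0 : ℝ) ≤ j := Nat.cast_nonneg j
      rw [abs_le]
      constructor <;> nlinarith))).2
    beta_reduce at h3
    rw [← hN, ← hx] at h3
    have h4 := central x (by linarith) (m + 1)
    have h5 : N * ∑' j : ℕ, |(j : ℝ) - x| ^ (m + 1) * Lone.pw x j ≤
        N * (6 * (m + 1).factorial * (√x) ^ (m + 1)) := mul_le_mul_of_nonneg_left h4 hN0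
    have h6 : N * 1 ≤ N * (√x) ^ (m + 1) := mul_le_mul_of_nonneg_left (one_le_pow₀ (by linarith)) hN0
    rw [hc]
    calc ∑ n ∈ Om q Z' Y, |(cnt q y T0 n : ℝ) - x| ^ (m + 1) ≤
          N * (6 * (m + 1).factorial * (√x) ^ (m + 1)) + N * (√x) ^ (m + 1) := by linarith
      _ = _ := by ring
  obtain ⟨M, hM⟩ : ∃ M, M = T / T0 := ⟨_, rfl⟩
  have hMT : M * T0 ≤ T := by rw [hM]; exact Nat.div_mul_le_self T T0
  have hMT2 : T < M * T0 + T0 := by
    rw [hM]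
    have h3 := Nat.div_add_mod T T0
    have h4 := Nat.mod_lt T hT0pos
    rw [mul_comm] at h3
    omega
  have hMTr : (M : ℝ) * T0 ≤ T := by exact_mod_cast hMT
  have hMT2r : (T : ℝ) ≤ M * T0 + T0 := by exact_mod_cast hMT2.le
  have hMx : (M : ℝ) * x ≤ T * v := by
    rw [hx, ← mul_assoc]
    exact mul_le_mul_of_nonneg_right hMTr hV0.le
  have hMx2 : (T : ℝ) * v ≤ M * x + x := by
    have : (T : ℝ) * v ≤ (M * T0 + T0) * v := mul_le_mul_of_nonneg_right hMT2r hV0.le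
    rw [hx]
    linarith
  have hxT : 2 * (4 / ε + 1) * x ≤ T * v := by
    refine le_trans ?_ hT
    rw [hC]
    exact mul_le_mul_of_nonneg_left hupp (by positivity)
  have hxT1 : x ≤ T * v := by
    have : 0 ≤ 4 / ε * x := by positivity
    linarith
  -- pointwise
  have hpt : ∀ n, |(cnt q y T n : ℝ) - T * v| ^ (m + 1) ≤
      2 ^ (m + 1) * (x ^ (m + 1) + ((M + 1 : ℕ) : ℝ) ^ m *
        ∑ b ∈ range (M + 1), |(cnt q y T0 (n + q * (b * T0)) : ℝ) - x| ^ (m + 1)) := by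
    intro n
    have a0 : ∑ b ∈ range (M + 1), (cnt q y T0 (n + q * (b * T0)) : ℝ) =
        (cnt q y ((M + 1) * T0) n : ℝ) := by
      rw [cnt_blocks]
      push_cast
      rfl
    have a1 : ∑ b ∈ range M, (cnt q y T0 (n + q * (b * T0)) : ℝ) = (cnt q y (M * T0) n : ℝ) := by
      rw [cnt_blocks]
      push_cast
      rfl
    have a2 : (cnt q y (M * T0) n : ℝ) ≤ cnt q y T n := by exact_mod_cast cnt_mono q y n hMT
    have a3 : (cnt q y T n : ℝ) ≤ cnt q y ((M + 1) * T0) n := by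
      exact_mod_cast cnt_mono q y n (by rw [Nat.add_mul, one_mul]; exact hMT2.le)
    have a4 : ∑ b ∈ range (M + 1), ((cnt q y T0 (n + q * (b * T0)) : ℝ) - x) =
        (cnt q y ((M + 1) * T0) n : ℝ) - (M + 1) * x := by
      rw [Finset.sum_sub_distrib, a0, Finset.sum_const, card_range, nsmul_eq_mul]
      push_cast
      ring
    have a5 : ∑ b ∈ range M, ((cnt q y T0 (n + q * (b * T0)) : ℝ) - x) =
        (cnt q y (M * T0) n : ℝ) - M * x := by
      rw [Finset.sum_sub_distrib, a1, Finset.sum_const, card_range, nsmul_eq_mul]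
    obtain ⟨S, hS⟩ : ∃ S, S = ∑ b ∈ range (M + 1), |(cnt q y T0 (n + q * (b * T0)) : ℝ) - x| := ⟨_, rfl⟩
    have a6 : |(cnt q y ((M + 1) * T0) n : ℝ) - (M + 1) * x| ≤ S := by
      rw [← a4, hS]
      exact Finset.abs_sum_le_sum_abs _ _
    have a7 : |(cnt q y (M * T0) n : ℝ) - M * x| ≤ S := by
      rw [← a5, hS]
      refine (Finset.abs_sum_le_sum_abs _ _).trans ?_
      apply Finset.sum_le_sum_of_subset_of_nonneg
      · intro b hb
        rw [mem_range] at hb ⊢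
        omega
      · intro _ _ _
        exact abs_nonneg _
    have a8 : |(cnt q y T n : ℝ) - T * v| ≤ x + S := by
      have b1 := (abs_le.1 a6).2
      have b2 := (abs_le.1 a7).1
      rw [abs_le]
      constructor <;> linarith
    have hS0 : 0 ≤ S := by rw [hS]; exact Finset.sum_nonneg fun _ _ => abs_nonneg _
    have a9 : S ^ (m + 1) ≤ ((M + 1 : ℕ) : ℝ) ^ m *
        ∑ b ∈ range (M + 1), |(cnt q y T0 (n + q * (b * T0)) : ℝ) - x| ^ (m + 1) := by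
      rw [hS]
      have := pow_sum_le_card_mul_sum_pow (s := range (M + 1))
        (f := fun b => |(cnt q y T0 (n + q * (b * T0)) : ℝ) - x|) (fun _ _ => abs_nonneg _) m
      rwa [card_range] at this
    calc |(cnt q y T n : ℝ) - T * v| ^ (m + 1) ≤ (x + S) ^ (m + 1) := pow_le_pow_left₀ (abs_nonneg _) a8 _
      _ ≤ 2 ^ (m + 1) * (x ^ (m + 1) + S ^ (m + 1)) := add_pow_le' x S hx0.le hS0 _
      _ ≤ _ := by
        apply mul_le_mul_of_nonneg_left _ (by positivity)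
        linarith
  refine (Finset.sum_le_sum fun n _ => hpt n).trans ?_
  rw [← Finset.mul_sum, Finset.sum_add_distrib, Finset.sum_const, nsmul_eq_mul, ← Finset.mul_sum,
    Finset.sum_comm]
  have h3 := (abs_le.1 (g2 Z Y hY)).2
  rw [← hN, one_mul] at h3
  have h4 : ((Om q Z Y).card : ℝ) * x ^ (m + 1) ≤ 2 * N * x ^ (m + 1) :=
    mul_le_mul_of_nonneg_right (by linarith) (by positivity)
  have h5 : ∑ b ∈ range (M + 1), ∑ n ∈ Om q Z Y, |(cnt q y T0 (n + q * (b * T0)) : ℝ) - x| ^ (m + 1) ≤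
      ((M + 1 : ℕ) : ℝ) * (c * (√x) ^ (m + 1) * N) := by
    have : ((M + 1 : ℕ) : ℝ) * (c * (√x) ^ (m + 1) * N) = ∑ b ∈ range (M + 1), (c * (√x) ^ (m + 1) * N) := by
      rw [Finset.sum_const, card_range, nsmul_eq_mul]
    rw [this]
    apply Finset.sum_le_sum
    intro b _
    rw [sum_shift q Z Y (b * T0) (fun n => |(cnt q y T0 n : ℝ) - x| ^ (m + 1))]
    exact hblock _
  obtain ⟨X, hX⟩ : ∃ X, X = (T : ℝ) * v := ⟨_, rfl⟩
  rw [← hX] at hMx hMx2 hxT hxT1 ⊢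
  have hX0 : 0 < X := by linarith
  have hM1 : (((M + 1 : ℕ) : ℝ)) * x ≤ 2 * X := by
    push_cast
    linarith
  -- the first term
  have t1 : 2 ^ (m + 1) * (2 * N * x ^ (m + 1)) ≤ ε / 2 * (X ^ (m + 1) * N) := by
    have b1 : (2 * (4 / ε + 1) * x) ^ (m + 1) ≤ X ^ (m + 1) := pow_le_pow_left₀ (by positivity) hxT _
    have b2 : 4 / ε ≤ (4 / ε + 1) ^ (m + 1) := pow_self_ge _ h4e.le m
    have b3 : 2 ^ (m + 1) * (4 / ε) * x ^ (m + 1) ≤ X ^ (m + 1) := by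
      refine le_trans ?_ b1
      rw [mul_pow, mul_pow]
      gcongr
    have b4 : 2 ^ (m + 1) * (2 * N * x ^ (m + 1)) = ε / 2 * ((2 ^ (m + 1) * (4 / ε) * x ^ (m + 1)) * N) := by
      field_simp
      ring
    rw [b4]
    gcongr
  -- the second term
  have t2 : 2 ^ (m + 1) * (((M + 1 : ℕ) : ℝ) ^ m * (((M + 1 : ℕ) : ℝ) * (c * (√x) ^ (m + 1) * N))) ≤
      ε / 2 * (X ^ (m + 1) * N) := by
    have b0' : (4 : ℝ) ^ (m + 1) * (2 * c / ε) ≤ (√x) ^ (m + 1) := by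
      calc (4 : ℝ) ^ (m + 1) * (2 * c / ε) ≤ 4 ^ (m + 1) * (2 * c / ε + 1) ^ (m + 1) := by
            gcongr
            exact pow_self_ge _ hce.le m
        _ = b0 ^ (m + 1) := by rw [hb0, mul_pow]
        _ ≤ (√x) ^ (m + 1) := pow_le_pow_left₀ (by linarith) hsx _
    have b1 : ((((M + 1 : ℕ) : ℝ)) * √x) * √x ≤ 2 * X := by
      rw [mul_assoc, Real.mul_self_sqrt hx0.le]
      exact hM1
    have b2 : ((((M + 1 : ℕ) : ℝ)) * √x) ^ (m + 1) * (√x) ^ (m + 1) ≤ 2 ^ (m + 1) * X ^ (m + 1) := by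
      rw [← mul_pow, ← mul_pow]
      exact pow_le_pow_left₀ (by positivity) b1 _
    have b3 : ((((M + 1 : ℕ) : ℝ)) * √x) ^ (m + 1) * (4 ^ (m + 1) * (2 * c / ε)) ≤ 2 ^ (m + 1) * X ^ (m + 1) :=
      (mul_le_mul_of_nonneg_left b0' (by positivity)).trans b2
    have b4 : 2 ^ (m + 1) * c * ((((M + 1 : ℕ) : ℝ)) * √x) ^ (m + 1) ≤ ε / 2 * X ^ (m + 1) := by
      have e4 : (4 : ℝ) ^ (m + 1) = 2 ^ (m + 1) * 2 ^ (m + 1) := by rw [← mul_pow]; norm_num
      rw [e4] at b3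
      have b5 : (2 : ℝ) ^ (m + 1) * (2 ^ (m + 1) * (2 * c / ε) * ((((M + 1 : ℕ) : ℝ)) * √x) ^ (m + 1)) ≤
          2 ^ (m + 1) * X ^ (m + 1) := by
        refine le_trans (le_of_eq ?_) b3
        ring
      have b6 := le_of_mul_le_mul_left b5 (by positivity)
      have b7 : 2 ^ (m + 1) * c * ((((M + 1 : ℕ) : ℝ)) * √x) ^ (m + 1) =
          ε / 2 * (2 ^ (m + 1) * (2 * c / ε) * ((((M + 1 : ℕ) : ℝ)) * √x) ^ (m + 1)) := by
        field_simp
      rw [b7]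
      gcongr
    calc 2 ^ (m + 1) * (((M + 1 : ℕ) : ℝ) ^ m * (((M + 1 : ℕ) : ℝ) * (c * (√x) ^ (m + 1) * N))) =
        (2 ^ (m + 1) * c * ((((M + 1 : ℕ) : ℝ)) * √x) ^ (m + 1)) * N := by
          rw [mul_pow, pow_succ ((M + 1 : ℕ) : ℝ) m]
          ring
      _ ≤ (ε / 2 * X ^ (m + 1)) * N := mul_le_mul_of_nonneg_right b4 hN0
      _ = _ := by ring
  have t3 : ((M + 1 : ℕ) : ℝ) ^ m * ∑ b ∈ range (M + 1), ∑ n ∈ Om q Z Y,
      |(cnt q y T0 (n + q * (b * T0)) : ℝ) - x| ^ (m + 1) ≤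
      ((M + 1 : ℕ) : ℝ) ^ m * (((M + 1 : ℕ) : ℝ) * (c * (√x) ^ (m + 1) * N)) :=
    mul_le_mul_of_nonneg_left h5 (by positivity)
  calc 2 ^ (m + 1) * (((Om q Z Y).card : ℝ) * x ^ (m + 1) + ((M + 1 : ℕ) : ℝ) ^ m *
        ∑ b ∈ range (M + 1), ∑ n ∈ Om q Z Y, |(cnt q y T0 (n + q * (b * T0)) : ℝ) - x| ^ (m + 1)) ≤
      2 ^ (m + 1) * (2 * N * x ^ (m + 1) +
        ((M + 1 : ℕ) : ℝ) ^ m * (((M + 1 : ℕ) : ℝ) * (c * (√x) ^ (m + 1) * N))) := by
        apply mul_le_mul_of_nonneg_left _ (by positivity)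
        linarith
    _ = 2 ^ (m + 1) * (2 * N * x ^ (m + 1)) +
        2 ^ (m + 1) * (((M + 1 : ℕ) : ℝ) ^ m * (((M + 1 : ℕ) : ℝ) * (c * (√x) ^ (m + 1) * N))) := by ring
    _ ≤ _ := by linarith

/-- **The `k`-th power mean of the maximal error, `k = m + 1`, for all large `T`.** -/
theorem mkmax (θ ε : ℝ) (m : ℕ) (hθ : 0 < θ) (hε : 0 < ε) :
    ∃ (C : ℝ) (r0 : ℕ), 0 < C ∧ 2 ≤ r0 ∧ ∀ r : ℕ, r0 ≤ r → ∀ᶠ q : ℕ in atTop,
      ∀ y : ℕ, y = ⌊(q : ℝ) ^ (1 / (r : ℝ))⌋₊ → ∀ Z Y : ℕ, (q : ℝ) ^ θ ≤ Y → ∀ T : ℕ, C ≤ T * V q y →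
        ∀ t : ℕ → ℕ, (∀ n, t n ≤ T) → ∑ n ∈ Om q Z Y, |(cnt q y (t n) n : ℝ) - t n * V q y| ^ (m + 1) ≤
          ε * ((T * V q y) ^ (m + 1) * (Y * ((q.totient : ℝ) / q))) := by
  have h4e : 0 < 4 / ε := by positivity
  obtain ⟨K, hK⟩ : ∃ K : ℕ, 4 * (4 / ε + 1) ≤ K := exists_nat_ge _
  have hK1 : (1 : ℝ) ≤ K := by linarith
  have hK0 : 0 < K := by exact_mod_cast (by linarith : (0 : ℝ) < K)
  obtain ⟨ε1, hε1⟩ : ∃ ε1 : ℝ, ε1 = ε / (2 * (4 ^ (m + 1) * ((K : ℝ) + 1) ^ (m + 1))) := ⟨_, rfl⟩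
  have hε10 : 0 < ε1 := by rw [hε1]; positivity
  obtain ⟨C, r1, hC, hr1, h1⟩ := mk θ ε1 m hθ hε10
  obtain ⟨r2, hr2, h2⟩ := card_cop θ 1 hθ one_pos
  refine ⟨K * (C + 1), max r1 r2, by positivity, hr1.trans (le_max_left _ _), ?_⟩
  intro r hr
  filter_upwards [h1 r ((le_max_left _ _).trans hr), h2 r ((le_max_right _ _).trans hr)] with q g1 g2
  intro y hy Z Y hY T hT t ht
  obtain ⟨N, hN⟩ : ∃ N, N = (Y : ℝ) * ((q.totient : ℝ) / q) := ⟨_, rfl⟩
  have hN0 : 0 ≤ N := by rw [hN]; positivity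
  have hV0 : 0 < V q y := by rw [← V_eq]; exact Vq_pos (Qn Ql q) (adm_Qn Ql adm_Ql q) y
  have hV1 : V q y ≤ 1 := by rw [← V_eq]; exact Vq_le_one _ _
  obtain ⟨v, hv⟩ : ∃ v, v = V q y := ⟨_, rfl⟩
  have g1' := g1 y hy
  rw [← hv] at hT hV0 hV1 g1' ⊢
  rw [← hN]
  obtain ⟨s, hs⟩ : ∃ s, s = T / K + 1 := ⟨_, rfl⟩
  have hTs : T < K * s := by
    rw [hs]
    have h3 := Nat.div_add_mod T K
    have h4 := Nat.mod_lt T hK0
    rw [Nat.mul_add, mul_one]
    omega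
  have hsT : K * s ≤ T + K := by
    rw [hs, Nat.mul_add, mul_one]
    have := Nat.mul_div_le T K
    omega
  have hTsr : (T : ℝ) ≤ K * s := by exact_mod_cast hTs.le
  have hsTr : (K : ℝ) * s ≤ T + K := by exact_mod_cast hsT
  have hs0 : 0 < s := by rw [hs]; exact Nat.succ_pos _
  have hKT : (K : ℝ) ≤ T * v := by
    have : (K : ℝ) * 1 ≤ K * (C + 1) := by gcongr; linarith
    linarith
  obtain ⟨X, hX⟩ : ∃ X, X = (T : ℝ) * v := ⟨_, rfl⟩
  have hKs2 : (K : ℝ) * s * v ≤ 2 * X := by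
    have a1 : (K : ℝ) * s * v ≤ (T + K) * v := mul_le_mul_of_nonneg_right hsTr hV0.le
    have a2 : (K : ℝ) * v ≤ K * 1 := mul_le_mul_of_nonneg_left hV1 (by positivity)
    rw [hX]
    linarith
  have hsv : C ≤ s * v := by
    have a1 : (K : ℝ) * (C + 1) ≤ K * (s * v) := by
      calc (K : ℝ) * (C + 1) ≤ T * v := hT
        _ ≤ (K * s) * v := mul_le_mul_of_nonneg_right hTsr hV0.le
        _ = _ := by ring
    have a2 := le_of_mul_le_mul_left a1 (by linarith)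
    linarith
  rw [← hX] at hKT ⊢
  have hX0 : 0 < X := by linarith
  -- the pointwise inequality
  have hpt : ∀ n, |(cnt q y (t n) n : ℝ) - t n * v| ^ (m + 1) ≤
      2 ^ (m + 1) * ((s * v) ^ (m + 1) + ((K + 1 : ℕ) : ℝ) ^ m *
        ∑ i ∈ range (K + 1), |(cnt q y (i * s) n : ℝ) - (i * s : ℕ) * v| ^ (m + 1)) := by
    intro n
    obtain ⟨j, hj⟩ : ∃ j, j = t n / s := ⟨_, rfl⟩
    have j1 : j * s ≤ t n := by rw [hj]; exact Nat.div_mul_le_self _ _
    have j2 : t n < (j + 1) * s := by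
      rw [hj, Nat.add_mul, one_mul]
      have h3 := Nat.div_add_mod (t n) s
      have h4 := Nat.mod_lt (t n) hs0
      rw [mul_comm] at h3
      omega
    have j3 : j < K := by
      rw [hj, Nat.div_lt_iff_lt_mul hs0]
      exact lt_of_le_of_lt (ht n) hTs
    obtain ⟨S, hS⟩ : ∃ S, S = ∑ i ∈ range (K + 1), |(cnt q y (i * s) n : ℝ) - (i * s : ℕ) * v| := ⟨_, rfl⟩
    have hS0 : 0 ≤ S := by rw [hS]; exact Finset.sum_nonneg fun _ _ => abs_nonneg _
    have c1 : |(cnt q y (j * s) n : ℝ) - (j * s : ℕ) * v| ≤ S := by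
      rw [hS]
      exact Finset.single_le_sum (f := fun i => |(cnt q y (i * s) n : ℝ) - (i * s : ℕ) * v|)
        (fun _ _ => abs_nonneg _) (mem_range.2 (by omega))
    have c2 : |(cnt q y ((j + 1) * s) n : ℝ) - ((j + 1) * s : ℕ) * v| ≤ S := by
      rw [hS]
      exact Finset.single_le_sum (f := fun i => |(cnt q y (i * s) n : ℝ) - (i * s : ℕ) * v|)
        (fun _ _ => abs_nonneg _) (mem_range.2 (by omega))
    have c3 : (cnt q y (j * s) n : ℝ) ≤ cnt q y (t n) n := by exact_mod_cast cnt_mono q y n j1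
    have c4 : (cnt q y (t n) n : ℝ) ≤ cnt q y ((j + 1) * s) n := by exact_mod_cast cnt_mono q y n j2.le
    have c5 : ((j * s : ℕ) : ℝ) * v ≤ t n * v :=
      mul_le_mul_of_nonneg_right (by exact_mod_cast j1) hV0.le
    have c6 : (t n : ℝ) * v ≤ ((j + 1) * s : ℕ) * v :=
      mul_le_mul_of_nonneg_right (by exact_mod_cast j2.le) hV0.le
    have c7 : (((j + 1) * s : ℕ) : ℝ) * v = (j * s : ℕ) * v + s * v := by push_cast; ring
    have c8 : |(cnt q y (t n) n : ℝ) - t n * v| ≤ s * v + S := by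
      have d1 := (abs_le.1 c1).1
      have d2 := (abs_le.1 c2).2
      rw [abs_le]
      constructor <;> linarith
    have c9 : S ^ (m + 1) ≤ ((K + 1 : ℕ) : ℝ) ^ m *
        ∑ i ∈ range (K + 1), |(cnt q y (i * s) n : ℝ) - (i * s : ℕ) * v| ^ (m + 1) := by
      rw [hS]
      have := pow_sum_le_card_mul_sum_pow (s := range (K + 1))
        (f := fun i => |(cnt q y (i * s) n : ℝ) - (i * s : ℕ) * v|) (fun _ _ => abs_nonneg _) m
      rwa [card_range] at this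
    calc |(cnt q y (t n) n : ℝ) - t n * v| ^ (m + 1) ≤ (s * v + S) ^ (m + 1) :=
          pow_le_pow_left₀ (abs_nonneg _) c8 _
      _ ≤ 2 ^ (m + 1) * ((s * v) ^ (m + 1) + S ^ (m + 1)) := add_pow_le' _ S (by positivity) hS0 _
      _ ≤ _ := by
        apply mul_le_mul_of_nonneg_left _ (by positivity)
        linarith
  refine (Finset.sum_le_sum fun n _ => hpt n).trans ?_
  rw [← Finset.mul_sum, Finset.sum_add_distrib, Finset.sum_const, nsmul_eq_mul, ← Finset.mul_sum,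
    Finset.sum_comm]
  have h3 := (abs_le.1 (g2 Z Y hY)).2
  rw [← hN, one_mul] at h3
  have h4 : ((Om q Z Y).card : ℝ) * (s * v) ^ (m + 1) ≤ 2 * N * (s * v) ^ (m + 1) :=
    mul_le_mul_of_nonneg_right (by linarith) (by positivity)
  have t1 : 2 ^ (m + 1) * (2 * N * (s * v) ^ (m + 1)) ≤ ε / 2 * (X ^ (m + 1) * N) := by
    have b1 : 2 * (4 / ε + 1) * (s * v) ≤ X := by
      have a1 : 4 * (4 / ε + 1) * (s * v) ≤ K * (s * v) := mul_le_mul_of_nonneg_right hK (by positivity)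
      have a2 : (K : ℝ) * (s * v) = K * s * v := by ring
      linarith
    have b2 : (2 * (4 / ε + 1) * (s * v)) ^ (m + 1) ≤ X ^ (m + 1) := pow_le_pow_left₀ (by positivity) b1 _
    have b3 : 4 / ε ≤ (4 / ε + 1) ^ (m + 1) := pow_self_ge _ h4e.le m
    have b4 : 2 ^ (m + 1) * (4 / ε) * (s * v) ^ (m + 1) ≤ X ^ (m + 1) := by
      refine le_trans ?_ b2
      rw [mul_pow (2 * (4 / ε + 1)), mul_pow 2]
      exact mul_le_mul_of_nonneg_right (mul_le_mul_of_nonneg_left b3 (by positivity)) (by positivity)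
    have b5 : 2 ^ (m + 1) * (2 * N * (s * v) ^ (m + 1)) =
        ε / 2 * ((2 ^ (m + 1) * (4 / ε) * (s * v) ^ (m + 1)) * N) := by
      field_simp
      ring
    rw [b5]
    gcongr
  have h6 : ∑ i ∈ range (K + 1), ∑ n ∈ Om q Z Y, |(cnt q y (i * s) n : ℝ) - (i * s : ℕ) * v| ^ (m + 1) ≤
      K * (ε1 * ((2 * X) ^ (m + 1) * N)) := by
    rw [Finset.sum_range_succ']
    have e0 : ∑ n ∈ Om q Z Y, |(cnt q y (0 * s) n : ℝ) - (0 * s : ℕ) * v| ^ (m + 1) = 0 := by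
      apply Finset.sum_eq_zero
      intro n _
      rw [Nat.zero_mul, cnt_zero]
      simp
    rw [e0, add_zero]
    have h7 : ∀ i ∈ range K, ∑ n ∈ Om q Z Y, |(cnt q y ((i + 1) * s) n : ℝ) - ((i + 1) * s : ℕ) * v| ^ (m + 1) ≤
        ε1 * ((2 * X) ^ (m + 1) * N) := by
      intro i hi
      rw [mem_range] at hi
      have b1 : ((i : ℝ) + 1) ≤ K := by exact_mod_cast (by omega : i + 1 ≤ K)
      have b2 : (1 : ℝ) ≤ (i : ℝ) + 1 := by have : (0 : ℝ) ≤ i := Nat.cast_nonneg i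
                                            linarith
      have hsv0 : 0 ≤ (s : ℝ) * v := by positivity
      have b3 : (((i + 1) * s : ℕ) : ℝ) * v = ((i : ℝ) + 1) * (s * v) := by push_cast; ring
      have b4 : C ≤ (((i + 1) * s : ℕ) : ℝ) * v := by
        rw [b3]
        nlinarith
      refine (g1' Z Y hY ((i + 1) * s) b4).trans ?_
      rw [← hN, b3]
      apply mul_le_mul_of_nonneg_left _ (by positivity)
      apply mul_le_mul_of_nonneg_right _ hN0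
      apply pow_le_pow_left₀ (by positivity)
      calc ((i : ℝ) + 1) * (s * v) ≤ K * (s * v) := mul_le_mul_of_nonneg_right b1 hsv0
        _ = K * s * v := by ring
        _ ≤ _ := hKs2
    refine (Finset.sum_le_sum h7).trans ?_
    rw [Finset.sum_const, card_range, nsmul_eq_mul]
  have t2 : 2 ^ (m + 1) * (((K + 1 : ℕ) : ℝ) ^ m * (K * (ε1 * ((2 * X) ^ (m + 1) * N)))) ≤
      ε / 2 * (X ^ (m + 1) * N) := by
    have b1 : (K : ℝ) ≤ ((K + 1 : ℕ) : ℝ) := by push_cast; linarith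
    calc 2 ^ (m + 1) * (((K + 1 : ℕ) : ℝ) ^ m * (K * (ε1 * ((2 * X) ^ (m + 1) * N)))) ≤
        2 ^ (m + 1) * (((K + 1 : ℕ) : ℝ) ^ m * (((K + 1 : ℕ) : ℝ) * (ε1 * ((2 * X) ^ (m + 1) * N)))) := by
          gcongr
      _ = ε / 2 * (X ^ (m + 1) * N) := by
        have e4 : (4 : ℝ) ^ (m + 1) = 2 ^ (m + 1) * 2 ^ (m + 1) := by rw [← mul_pow]; norm_num
        rw [hε1, mul_pow 2 X, e4, pow_succ ((K : ℝ) + 1) m]
        push_cast
        field_simp
  have t3 : ((K + 1 : ℕ) : ℝ) ^ m * ∑ i ∈ range (K + 1), ∑ n ∈ Om q Z Y,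
      |(cnt q y (i * s) n : ℝ) - (i * s : ℕ) * v| ^ (m + 1) ≤
      ((K + 1 : ℕ) : ℝ) ^ m * (K * (ε1 * ((2 * X) ^ (m + 1) * N))) :=
    mul_le_mul_of_nonneg_left h6 (by positivity)
  calc 2 ^ (m + 1) * (((Om q Z Y).card : ℝ) * (s * v) ^ (m + 1) + ((K + 1 : ℕ) : ℝ) ^ m *
        ∑ i ∈ range (K + 1), ∑ n ∈ Om q Z Y, |(cnt q y (i * s) n : ℝ) - (i * s : ℕ) * v| ^ (m + 1)) ≤
      2 ^ (m + 1) * (2 * N * (s * v) ^ (m + 1) +
        ((K + 1 : ℕ) : ℝ) ^ m * (K * (ε1 * ((2 * X) ^ (m + 1) * N)))) := by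
        apply mul_le_mul_of_nonneg_left _ (by positivity)
        linarith
    _ = 2 ^ (m + 1) * (2 * N * (s * v) ^ (m + 1)) +
        2 ^ (m + 1) * (((K + 1 : ℕ) : ℝ) ^ m * (K * (ε1 * ((2 * X) ^ (m + 1) * N)))) := by ring
    _ ≤ _ := by linarith

end Pool.Agent.R490.Mk
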