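import Pool.Agent.R490.Lone

set_option autoImplicit false

/-!
# The moments of the number of almost primes in the reduced classes of every modulus
-/

namespace Pool.Agent.R490.Moms

open Finset Filter
open Pool.Agent.W123.RP Pool.Agent.H373R2.T7 Pool.Agent.W123.RU Pool.Agent.TH464.PO Pool.Agent.TH464.PW
open Pool.Agent.Y879.AP Pool.Agent.R490.Cls Pool.Agent.R490.Mean Pool.Agent.R490.Lone

open Classical in
/-- few `n` of an interval have only large common prime factors with `q` -/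
lemma bad (θ : ℝ) (hθ : 0 < θ) : ∃ r0 : ℕ, 2 ≤ r0 ∧ ∀ r : ℕ, r0 ≤ r → ∀ᶠ q : ℕ in atTop,
    ∀ Z Y : ℕ, (q : ℝ) ^ θ ≤ Y →
      (((Ioc Z (Z + Y)).filter (fun n => ¬ n.Coprime q ∧ Sf (Qd Ql q) ⌊(q : ℝ) ^ (1 / (r : ℝ))⌋₊ n)).card : ℝ) ≤
        4 * r * (Y / ⌊(q : ℝ) ^ (1 / (r : ℝ))⌋₊) := by
  obtain ⟨r1, hr1⟩ : ∃ r1 : ℕ, 1 / θ ≤ r1 := exists_nat_ge _
  refine ⟨max 2 r1, le_max_left _ _, ?_⟩
  intro r hr
  have hr2 : 2 ≤ r := (le_max_left _ _).trans hr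
  have hrr : (2 : ℝ) ≤ r := by exact_mod_cast hr2
  have hrθ : 1 / (r : ℝ) ≤ θ := by
    have h1 : (r1 : ℝ) ≤ r := by exact_mod_cast (le_max_right _ _).trans hr
    rw [div_le_iff₀ (by linarith)]
    rw [div_le_iff₀ hθ] at hr1
    nlinarith
  filter_upwards [Pool.Agent.Y879.GL.level_ok r hr2, eventually_ge_atTop 1] with q h3 h4
  obtain ⟨g1, g2, g3, g4, g5⟩ := h3
  obtain ⟨y, hy⟩ : ∃ y, y = ⌊(q : ℝ) ^ (1 / (r : ℝ))⌋₊ := ⟨_, rfl⟩
  rw [← hy] at g1 g2 g3 g4 ⊢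
  intro Z Y hqY
  have hq1 : (1 : ℝ) ≤ q := by exact_mod_cast h4
  have hy0 : (0 : ℝ) < y := by exact_mod_cast (by omega : 0 < y)
  have hyq : (y : ℝ) ≤ (q : ℝ) ^ (1 / (r : ℝ)) := by rw [hy]; exact Nat.floor_le (by positivity)
  have hyY : (y : ℝ) ≤ Y := by
    refine hyq.trans (le_trans ?_ hqY)
    exact Real.rpow_le_rpow_of_exponent_le hq1 hrθ
  have hY0 : (0 : ℝ) < Y := by linarith
  have hlq : 0 < Real.log q := by linarith
  obtain ⟨Bd, hBd⟩ : ∃ Bd, Bd = (q.primeFactors.filter (fun p => y < p)).biUnion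
    (fun p => (Ioc Z (Z + Y)).filter (fun b => p ∣ b)) := ⟨_, rfl⟩
  have hsub2 : (Ioc Z (Z + Y)).filter (fun n => ¬ n.Coprime q ∧ Sf (Qd Ql q) y n) ⊆ Bd := by
    intro n hn
    rw [mem_filter] at hn
    obtain ⟨n1, hcop, n2⟩ := hn
    obtain ⟨p, hp, hpn, hpq⟩ := Nat.Prime.not_coprime_iff_dvd.1 hcop
    rw [hBd, mem_biUnion]
    refine ⟨p, ?_, mem_filter.2 ⟨n1, hpn⟩⟩
    rw [mem_filter, Nat.mem_primeFactors]
    refine ⟨⟨hp, hpq, by omega⟩, ?_⟩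
    by_contra hpy
    exact n2 p (mem_pz.2 ⟨by omega, hp⟩) ⟨hpq, hpn⟩
  have b0 : (((Ioc Z (Z + Y)).filter (fun n => ¬ n.Coprime q ∧ Sf (Qd Ql q) y n)).card : ℝ) ≤ Bd.card := by
    exact_mod_cast card_le_card hsub2
  have b1 : (Bd.card : ℝ) ≤ ∑ p ∈ q.primeFactors.filter (fun p => y < p), ((Y : ℝ) / p + 1) := by
    rw [hBd]
    have b2 : ((((q.primeFactors.filter (fun p => y < p)).biUnion
        (fun p => (Ioc Z (Z + Y)).filter (fun b => p ∣ b))).card : ℕ) : ℝ) ≤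
        ((∑ p ∈ q.primeFactors.filter (fun p => y < p),
          ((Ioc Z (Z + Y)).filter (fun b => p ∣ b)).card : ℕ) : ℝ) := by
      exact_mod_cast Finset.card_biUnion_le
    refine b2.trans ?_
    push_cast
    apply Finset.sum_le_sum
    intro p hp
    rw [mem_filter, Nat.mem_primeFactors] at hp
    exact card_mult Z Y p hp.1.1.pos
  have b3 : ∑ p ∈ q.primeFactors.filter (fun p => y < p), ((Y : ℝ) / p + 1) ≤
      (q.primeFactors.filter (fun p => y < p)).card * (2 * (Y / y)) := by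
    rw [← nsmul_eq_mul]
    apply Finset.sum_le_card_nsmul
    intro p hp
    rw [mem_filter, Nat.mem_primeFactors] at hp
    have b4 : (Y : ℝ) / p ≤ Y / y := by
      apply div_le_div_of_nonneg_left hY0.le hy0
      exact_mod_cast hp.2.le
    have b5 : 1 ≤ (Y : ℝ) / y := by
      rw [le_div_iff₀ hy0, one_mul]
      exact hyY
    linarith
  have b6 : ((q.primeFactors.filter (fun p => y < p)).card : ℝ) ≤ 2 * r := by
    have b7 := Pool.Agent.Y879.GL.card_primes_le (q.primeFactors.filter (fun p => y < p)) y q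
      (by omega) (by omega) q le_rfl (by
        intro p hp
        rw [mem_filter, Nat.mem_primeFactors] at hp
        exact ⟨hp.1.1, hp.2, hp.1.2.1⟩)
    have b8 : ((q.primeFactors.filter (fun p => y < p)).card : ℝ) * (Real.log q / (2 * r)) ≤
        Real.log q := le_trans (mul_le_mul_of_nonneg_left g2 (Nat.cast_nonneg _)) b7
    rw [mul_div_assoc', div_le_iff₀ (by positivity)] at b8
    have b9 : ((q.primeFactors.filter (fun p => y < p)).card : ℝ) * Real.log q ≤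
        2 * r * Real.log q := by linarith
    exact le_of_mul_le_mul_right b9 hlq
  have b10 : (Bd.card : ℝ) ≤ 2 * r * (2 * (Y / y)) :=
    b1.trans (b3.trans (mul_le_mul_of_nonneg_right b6 (by positivity)))
  refine b0.trans (b10.trans (le_of_eq ?_))
  ring

lemma sum_shift' (Z Y : ℕ) (P P' : ℕ → Prop) (i1 : DecidablePred P) (i2 : DecidablePred P')
    (f f' : ℕ → ℝ) (h : ∀ n, P' n ↔ P (n + Z)) (hf : ∀ n, f' n = f (n + Z)) :
    ∑ n ∈ @Finset.filter _ P i1 (Ioc Z (Z + Y)), f n = ∑ n ∈ @Finset.filter _ P' i2 (Icc 1 Y), f' n := by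
  symm
  apply Finset.sum_bij (fun n _ => n + Z)
  · intro n hn
    rw [mem_filter, mem_Icc] at hn
    rw [mem_filter, mem_Ioc]
    exact ⟨by omega, (h n).1 hn.2⟩
  · intro a _ b _ hab
    omega
  · intro n hn
    rw [mem_filter, mem_Ioc] at hn
    refine ⟨n - Z, ?_, by omega⟩
    rw [mem_filter, mem_Icc, h, show n - Z + Z = n by omega]
    exact ⟨by omega, hn.2⟩
  · intro n _
    exact hf n

lemma cnt_le (q y T n : ℕ) : cnt q y T n ≤ T := by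
  classical
  unfold cnt
  refine (card_filter_le _ _).trans ?_
  rw [Nat.card_Icc]
  omega

open Classical in
/-- the binomial moments, `κ ≤ T V ≤ x0` -/
theorem mom0 (θ κ x0 ε : ℝ) (k : ℕ) (hθ : 0 < θ) (hκ : 0 < κ) (hε : 0 < ε) :
    ∃ r0 : ℕ, 2 ≤ r0 ∧ ∀ r : ℕ, r0 ≤ r → ∀ᶠ q : ℕ in atTop, ∀ y : ℕ, y = ⌊(q : ℝ) ^ (1 / (r : ℝ))⌋₊ →
      ∀ Z Y : ℕ, (q : ℝ) ^ θ ≤ Y → ∀ T : ℕ, κ ≤ T * V q y → T * V q y ≤ x0 →
        |∑ n ∈ Om q Z Y, ((cnt q y T n).choose (k + 1) : ℝ) -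
          Y * ((q.totient : ℝ) / q) * ((T * V q y) ^ (k + 1) / (k + 1).factorial)| ≤
          ε * (Y * ((q.totient : ℝ) / q)) := by
  obtain ⟨x1, hx1⟩ : ∃ x1 : ℝ, x1 = |x0| + 1 := ⟨_, rfl⟩
  have hx10 : 1 ≤ x1 := by rw [hx1]; have := abs_nonneg x0; linarith
  obtain ⟨X1, hX1⟩ : ∃ X1 : ℝ, X1 = x1 ^ (k + 1) := ⟨_, rfl⟩
  have hX11 : 1 ≤ X1 := by rw [hX1]; exact one_le_pow₀ hx10
  obtain ⟨ε1, hε1⟩ : ∃ ε1 : ℝ, ε1 = min ε 1 / (16 * X1) := ⟨_, rfl⟩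
  have hε10 : 0 < ε1 := by rw [hε1]; positivity
  have hεX : ε1 * X1 = min ε 1 / 16 := by rw [hε1]; field_simp
  have hε11 : ε1 ≤ 1 / 16 := by
    have h1 : ε1 * 1 ≤ ε1 * X1 := mul_le_mul_of_nonneg_left hX11 hε10.le
    have := min_le_right ε 1
    linarith
  obtain ⟨K0, y0, T0, η', hη', hmom⟩ := Pool.Agent.Y879.AP.moment 1 k le_rfl ε1 hε10 (by linarith)
  obtain ⟨r1, hr1⟩ : ∃ r1 : ℕ, (K0 : ℝ) / θ ≤ r1 := exists_nat_ge _
  obtain ⟨r2, hr2, hbad⟩ := bad θ hθ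
  refine ⟨max r1 r2, hr2.trans (le_max_right _ _), ?_⟩
  intro r hr
  have hr2 : 2 ≤ r := hr2.trans ((le_max_right _ _).trans hr)
  have hrr : (2 : ℝ) ≤ r := by exact_mod_cast hr2
  have hrK : (K0 : ℝ) ≤ θ * r := by
    have h1 : (r1 : ℝ) ≤ r := by exact_mod_cast (le_max_left _ _).trans hr
    rw [div_le_iff₀ hθ] at hr1
    nlinarith
  obtain ⟨K, hK, hVn⟩ := Vn_small r hr2
  obtain ⟨c, C, hc, hC, hV⟩ := Vz_bounds
  have hlog : Tendsto (fun q : ℕ => Real.log (q : ℝ)) atTop atTop :=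
    Real.tendsto_log_atTop.comp tendsto_natCast_atTop_atTop
  have hsqlog : Tendsto (fun q : ℕ => √(Real.log (q : ℝ))) atTop atTop :=
    Real.tendsto_sqrt_atTop.comp hlog
  filter_upwards [hVn, Pool.Agent.Y879.GL.level_ok r hr2, y_ge r hr2 y0,
    hsqlog.eventually_ge_atTop (K * T0 / κ), hbad r ((le_max_right _ _).trans hr),
    logpow_rpow (k + 2) ((x1 / c) ^ (k + 1) * (1 / (c * ε1))) (θ / 2) (by positivity) (by positivity),
    logpow_rpow (k + 2) (8 * r * ((x1 / c) ^ (k + 1) * (1 / (c * ε1)))) (1 / (r : ℝ)) (by positivity)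
      (by positivity), large_part r hr2 ε1 hε10, eventually_ge_atTop 1] with q h1 h2 h3 h5 h6 h7 h8 h9 h10
  obtain ⟨g1, g2, g3, g4, g5⟩ := h2
  intro y hy Z Y hqY T hT1 hT2
  have hyK := pow_le θ K0 r q Y hrK hr2 h10 hqY
  rw [← hy] at h1 h3 h6 h9 g1 g2 g3 g4 hyK
  rw [← V_eq] at hT1 hT2 ⊢
  have hq0 : (0 : ℝ) < q := by exact_mod_cast (by omega : 0 < q)
  have hlq : 0 < Real.log q := by linarith
  have hsq : 0 < √(Real.log q) := Real.sqrt_pos.2 hlq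
  have hTr : (0 : ℝ) ≤ T := Nat.cast_nonneg _
  have hY0 : (0 : ℝ) < Y := lt_of_lt_of_le (by positivity) hqY
  obtain ⟨Vn, hVndef⟩ : ∃ Vn, Vn = Vq (Qn Ql q) y := ⟨_, rfl⟩
  obtain ⟨Vd, hVddef⟩ : ∃ Vd, Vd = Vq (Qd Ql q) y := ⟨_, rfl⟩
  have hV0 : 0 < Vn := by rw [hVndef]; exact Vq_pos (Qn Ql q) (adm_Qn Ql adm_Ql q) y
  have e1 : c / Real.log q ≤ Vz y := by
    refine le_trans ?_ (hV y (by omega)).1
    exact div_le_div_of_nonneg_left hc.le (by linarith) g3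
  have e2 : Vd * Vn = Vz y := by rw [hVddef, hVndef, Vd_mul_Vn, Vq_Ql]
  have hVn1 : Vn ≤ 1 := by rw [hVndef]; exact Vq_le_one _ y
  have hVd1 : Vd ≤ 1 := by rw [hVddef]; exact Vq_le_one _ y
  have hVd0 : 0 ≤ Vd := by rw [hVddef]; exact Vq_nonneg _ _
  have hVlow : c / Real.log q ≤ Vn := by
    have a1 : Vd * Vn ≤ 1 * Vn := mul_le_mul_of_nonneg_right hVd1 hV0.le
    linarith
  have hVdlow : c / Real.log q ≤ Vd := by
    have a1 : Vd * Vn ≤ Vd * 1 := mul_le_mul_of_nonneg_left hVn1 hVd0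
    linarith
  have hVdpos : 0 < Vd := lt_of_lt_of_le (by positivity) hVdlow
  -- the conditions of the moment theorem
  have hT0 : T0 ≤ T := by
    have e1 : κ ≤ T * (K / √(Real.log q)) := hT1.trans (mul_le_mul_of_nonneg_left h1 hTr)
    rw [mul_div_assoc', le_div_iff₀ hsq] at e1
    rw [div_le_iff₀ hκ] at h5
    have e2 : K * (T0 : ℝ) ≤ K * T := by
      calc K * (T0 : ℝ) ≤ √(Real.log q) * κ := h5
        _ = κ * √(Real.log q) := mul_comm _ _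
        _ ≤ T * K := e1
        _ = K * T := mul_comm _ _
    have e3 : (T0 : ℝ) ≤ T := le_of_mul_le_mul_left e2 hK
    exact_mod_cast e3
  have hTlog : (T : ℝ) ≤ x1 / c * Real.log q := by
    have e2 : T * (c / Real.log q) ≤ x1 := by
      refine (mul_le_mul_of_nonneg_left hVlow hTr).trans ?_
      rw [hVndef]
      refine hT2.trans ?_
      rw [hx1]
      have := le_abs_self x0
      linarith
    rw [mul_div_assoc', div_le_iff₀ hlq] at e2
    rw [div_mul_eq_mul_div, le_div_iff₀ hc]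
    exact e2
  have hTk : (T : ℝ) ^ (k + 1) ≤ (x1 / c) ^ (k + 1) * Real.log q ^ (k + 1) := by
    rw [← mul_pow]
    exact pow_le_pow_left₀ hTr hTlog _
  have hm := hmom Y y T h3 hyK hT0 (Qt Ql Z) q (perB_Qt Ql 1 perB_Ql Z) (fun p hp => by
    rw [nuB_Qt Ql 1 perB_Ql]
    exact adm_Ql p hp) (by
    intro t ht
    have e1 : (pz y).filter (fun p : ℕ => T < p ∧ ¬ p ∣ q ∧ CoG (Qt Ql Z) p (q * t)) = ∅ := by
      rw [Finset.filter_eq_empty_iff]
      rintro p hp ⟨h1, h2, m, h3, h4⟩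
      have hpp := (mem_pz.1 hp).2
      unfold Qt at h3 h4
      have h5 : p ∣ q * t := by
        have e9 : m + q * t + Z = m + Z + q * t := by ring
        rw [e9] at h4
        exact (Nat.dvd_add_right h3).1 h4
      rcases (Nat.Prime.dvd_mul hpp).1 h5 with h | h
      · exact h2 h
      · rw [mem_Icc] at ht
        have := Nat.le_of_dvd (by omega) h
        omega
    rw [e1]
    simp
    positivity)
  rw [Vq_Qn_shift Ql 1 perB_Ql, Vq_Qd_shift Ql 1 perB_Ql, ← hVndef, ← hVddef] at hm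
  obtain ⟨x, hx⟩ : ∃ x, x = T * Vn := ⟨_, rfl⟩
  have hx0 : 0 ≤ x := by rw [hx]; positivity
  have hxx1 : x ≤ x1 := by
    rw [← hVndef, ← hx] at hT2
    rw [hx1]
    have := le_abs_self x0
    linarith
  rw [← hx] at hm
  rw [← hVndef, ← hx]
  obtain ⟨F, hF⟩ : ∃ F, F = x ^ (k + 1) / ((k + 1).factorial : ℝ) := ⟨_, rfl⟩
  have hF0 : 0 ≤ F := by rw [hF]; positivity
  have hF1 : F ≤ X1 := by
    rw [hF, hX1]
    have hf1 : (1 : ℝ) ≤ (k + 1).factorial := by exact_mod_cast Nat.factorial_pos (k + 1)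
    calc x ^ (k + 1) / ((k + 1).factorial : ℝ) ≤ x ^ (k + 1) := div_le_self (by positivity) hf1
      _ ≤ x1 ^ (k + 1) := pow_le_pow_left₀ hx0 hxx1 _
  rw [← hF] at hm ⊢
  -- the error term
  have hs1 : (q : ℝ) ^ (θ / 2) ≤ √(Y : ℝ) := by
    rw [Real.sqrt_eq_rpow]
    calc (q : ℝ) ^ (θ / 2) = ((q : ℝ) ^ θ) ^ (1 / 2 : ℝ) := by
          rw [← Real.rpow_mul hq0.le]
          congr 1
          ring
      _ ≤ (Y : ℝ) ^ (1 / 2 : ℝ) := Real.rpow_le_rpow (by positivity) hqY (by norm_num)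
  have hgen : ∀ w : ℝ, 0 < w → (x1 / c) ^ (k + 1) * (1 / (c * ε1)) * Real.log q ^ (k + 2) ≤ w →
      (T : ℝ) ^ (k + 1) / w ≤ ε1 * Vd := by
    intro w hw hle
    rw [div_le_iff₀ hw]
    calc (T : ℝ) ^ (k + 1) ≤ (x1 / c) ^ (k + 1) * Real.log q ^ (k + 1) := hTk
      _ = ε1 * (c / Real.log q) * ((x1 / c) ^ (k + 1) * (1 / (c * ε1)) * Real.log q ^ (k + 2)) := by
          rw [pow_succ (Real.log q) (k + 1)]
          field_simp
      _ ≤ ε1 * Vd * w := by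
          apply mul_le_mul _ hle (by positivity) (by positivity)
          exact mul_le_mul_of_nonneg_left hVdlow hε10.le
  have hsY : 0 < √(Y : ℝ) := Real.sqrt_pos.2 hY0
  have herr1 : (T : ℝ) ^ (k + 1) * √(Y : ℝ) ≤ ε1 * (Y * Vd) := by
    have a1 := hgen (√(Y : ℝ)) hsY (h7.trans hs1)
    rw [div_le_iff₀ hsY] at a1
    calc (T : ℝ) ^ (k + 1) * √(Y : ℝ) ≤ (ε1 * Vd * √(Y : ℝ)) * √(Y : ℝ) :=
          mul_le_mul_of_nonneg_right a1 hsY.le
      _ = ε1 * Vd * (√(Y : ℝ) * √(Y : ℝ)) := by ring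
      _ = ε1 * (Y * Vd) := by rw [Real.mul_self_sqrt hY0.le]; ring
  -- the sifted sum
  obtain ⟨S2, hS2⟩ : ∃ S2, S2 = (Ioc Z (Z + Y)).filter (fun n => Sf (Qd Ql q) y n) := ⟨_, rfl⟩
  have e4 : ∑ n ∈ (Icc 1 Y).filter (fun n => Sf (Qd (Qt Ql Z) q) y n),
      ((W (Qt Ql Z) q y T n).choose (k + 1) : ℝ) = ∑ n ∈ S2, ((W Ql q y T n).choose (k + 1) : ℝ) := by
    rw [hS2]
    symm
    apply sum_shift' Z Y _ _ _ _ _ _ (fun n => Iff.rfl)
    intro n
    rw [W_shift]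
  have hm' : |∑ n ∈ S2, ((W Ql q y T n).choose (k + 1) : ℝ) - Y * Vd * F| ≤ 2 * (min ε 1 / 16) * (Y * Vd) := by
    rw [← e4]
    have hm2 : |∑ n ∈ (Icc 1 Y).filter (fun n => Sf (Qd (Qt Ql Z) q) y n),
      ((W (Qt Ql Z) q y T n).choose (k + 1) : ℝ) - Y * Vd * F| ≤
        ε1 * (Y * Vd) * F + T ^ (k + 1) * √(Y : ℝ) := by
      convert hm
    refine hm2.trans ?_
    have a1 : ε1 * (Y * Vd) * F ≤ min ε 1 / 16 * (Y * Vd) := by
      calc ε1 * (Y * Vd) * F ≤ ε1 * (Y * Vd) * X1 := mul_le_mul_of_nonneg_left hF1 (by positivity)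
        _ = (ε1 * X1) * (Y * Vd) := by ring
        _ = _ := by rw [hεX]
    have a2 : ε1 * (Y * Vd) ≤ min ε 1 / 16 * (Y * Vd) := by
      apply mul_le_mul_of_nonneg_right _ (by positivity)
      rw [← hεX]
      exact le_mul_of_one_le_right hε10.le hX11
    linarith
  obtain ⟨S3, hS3⟩ : ∃ S3, S3 = (Ioc Z (Z + Y)).filter (fun n => ¬ n.Coprime q ∧ Sf (Qd Ql q) y n) := ⟨_, rfl⟩
  have hOm : Om q Z Y = S2.filter (fun n => n.Coprime q) := by
    rw [hS2]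
    unfold Om
    rw [Finset.filter_filter]
    apply Finset.filter_congr
    intro n _
    constructor
    · intro h
      exact ⟨sf_of_coprime q y n h, h⟩
    · exact fun h => h.2
  have hS3' : S3 = S2.filter (fun n => ¬ n.Coprime q) := by
    rw [hS2, hS3, Finset.filter_filter]
    apply Finset.filter_congr
    intro n _
    constructor
    · exact fun h => ⟨h.2, h.1⟩
    · exact fun h => ⟨h.2, h.1⟩
  have hsplit : ∑ n ∈ S2, ((W Ql q y T n).choose (k + 1) : ℝ) =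
      ∑ n ∈ Om q Z Y, ((cnt q y T n).choose (k + 1) : ℝ) + ∑ n ∈ S3, ((W Ql q y T n).choose (k + 1) : ℝ) := by
    rw [hOm, hS3', ← Finset.sum_filter_add_sum_filter_not S2 (fun n => n.Coprime q)]
    congr 1
    apply Finset.sum_congr rfl
    intro n hn
    rw [mem_filter] at hn
    rw [W_of_coprime q y T n hn.2, cnt_eq]
  have hS3b : ∑ n ∈ S3, ((W Ql q y T n).choose (k + 1) : ℝ) ≤ min ε 1 / 16 * (Y * Vd) := by
    have a1 : ∀ n ∈ S3, ((W Ql q y T n).choose (k + 1) : ℝ) ≤ (T : ℝ) ^ (k + 1) := by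
      intro n _
      have b1 : W Ql q y T n ≤ T := by
        unfold W
        refine (card_filter_le _ _).trans ?_
        rw [Nat.card_Icc]
        omega
      have b2 : (W Ql q y T n).choose (k + 1) ≤ T ^ (k + 1) := by
        have b3 : ((W Ql q y T n).choose (k + 1) : ℝ) ≤ (W Ql q y T n : ℝ) ^ (k + 1) / ((k + 1).factorial : ℝ) :=
          Nat.choose_le_pow_div (k + 1) (W Ql q y T n)
        have hf1 : (1 : ℝ) ≤ (k + 1).factorial := by exact_mod_cast Nat.factorial_pos (k + 1)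
        have b4 : ((W Ql q y T n).choose (k + 1) : ℝ) ≤ (W Ql q y T n : ℝ) ^ (k + 1) :=
          b3.trans (div_le_self (by positivity) hf1)
        have b5 : (W Ql q y T n).choose (k + 1) ≤ (W Ql q y T n) ^ (k + 1) := by exact_mod_cast b4
        exact b5.trans (Nat.pow_le_pow_left b1 _)
      exact_mod_cast b2
    refine (Finset.sum_le_card_nsmul _ _ _ a1).trans ?_
    rw [nsmul_eq_mul]
    have a2 := h6 Z Y hqY
    rw [← hS3] at a2
    have hy0 : (0 : ℝ) < y := by exact_mod_cast (by omega : 0 < y)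
    have hyq2 : (q : ℝ) ^ (1 / (r : ℝ)) ≤ 2 * y := by
      have h6 : (q : ℝ) ^ (1 / (r : ℝ)) < y + 1 := by rw [hy]; exact Nat.lt_floor_add_one _
      have h7 : (1 : ℝ) ≤ y := by exact_mod_cast (by omega : 1 ≤ y)
      linarith
    have a3 := hgen (y / (4 * r)) (by positivity) (by
      rw [le_div_iff₀ (by positivity)]
      have a4 : 8 * r * ((x1 / c) ^ (k + 1) * (1 / (c * ε1))) * Real.log q ^ (k + 2) ≤ 2 * y :=
        h8.trans hyq2
      linarith)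
    have a5 : (T : ℝ) ^ (k + 1) / (y / (4 * r)) = 4 * r * T ^ (k + 1) / y := by field_simp
    rw [a5] at a3
    calc (S3.card : ℝ) * (T : ℝ) ^ (k + 1) ≤ (4 * r * (Y / y)) * (T : ℝ) ^ (k + 1) :=
          mul_le_mul_of_nonneg_right a2 (by positivity)
      _ = Y * (4 * r * T ^ (k + 1) / y) := by ring
      _ ≤ Y * (ε1 * Vd) := mul_le_mul_of_nonneg_left a3 hY0.le
      _ = ε1 * (Y * Vd) := by ring
      _ ≤ min ε 1 / 16 * (Y * Vd) := by
          apply mul_le_mul_of_nonneg_right _ (by positivity)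
          rw [← hεX]
          exact le_mul_of_one_le_right hε10.le hX11
  have hS30 : 0 ≤ ∑ n ∈ S3, ((W Ql q y T n).choose (k + 1) : ℝ) :=
    Finset.sum_nonneg fun _ _ => Nat.cast_nonneg _
  rw [phi_eq q y (by omega)]
  obtain ⟨E, hE⟩ : ∃ E, E = ∏ p ∈ q.primeFactors.filter (fun p => y < p), (1 - 1 / (p : ℝ)) := ⟨_, rfl⟩
  rw [← hE] at h9 ⊢
  rw [← hVddef]
  obtain ⟨M, hM⟩ : ∃ M, M = (Y : ℝ) * Vd := ⟨_, rfl⟩
  have hM0 : 0 < M := by rw [hM]; positivity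
  rw [← hM] at hm' hS3b
  rw [show (Y : ℝ) * (Vd * E) = M * E by rw [hM]; ring]
  rw [hsplit] at hm'
  obtain ⟨δ, hδ⟩ : ∃ δ, δ = min ε 1 / 16 := ⟨_, rfl⟩
  have hδ0 : 0 < δ := by rw [hδ]; positivity
  have hδε : 16 * δ ≤ ε := by rw [hδ]; have := min_le_left ε 1; linarith
  have hδ1 : 16 * δ ≤ 1 := by rw [hδ]; have := min_le_right ε 1; linarith
  rw [← hδ] at hm' hS3b hεX
  have c1 := abs_le.1 hm'
  have hE1 : 1 - ε1 ≤ E := h9.1
  have hE2 : E ≤ 1 := h9.2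
  have c2 : 0 ≤ M * F - M * E * F := by
    have : 0 ≤ M * F * (1 - E) := by
      have : 0 ≤ 1 - E := by linarith
      positivity
    linarith
  have c3 : M * F - M * E * F ≤ δ * M := by
    have d1 : M * F - M * E * F = M * (F * (1 - E)) := by ring
    rw [d1, mul_comm δ]
    apply mul_le_mul_of_nonneg_left _ hM0.le
    calc F * (1 - E) ≤ X1 * ε1 := by
          apply mul_le_mul hF1 (by linarith) (by linarith) (by linarith)
      _ = δ := by rw [mul_comm]; exact hεX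
  have c4 : 8 * δ * M ≤ 16 * δ * (M * E) := by
    have d1 : 1 / 2 ≤ E := by linarith
    have d2 : M * (1 / 2) ≤ M * E := mul_le_mul_of_nonneg_left d1 hM0.le
    have d3 : 16 * δ * (M * (1 / 2)) ≤ 16 * δ * (M * E) := mul_le_mul_of_nonneg_left d2 (by positivity)
    linarith
  have c5 : 16 * δ * (M * E) ≤ ε * (M * E) := by
    apply mul_le_mul_of_nonneg_right hδε
    have : 0 ≤ E := by linarith
    positivity
  have c6 : 0 ≤ δ * M := by positivity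
  rw [abs_le]
  constructor <;> linarith

open Classical in
/-- **The binomial moments in the whole critical range.** -/
theorem mom (θ x0 ε : ℝ) (k : ℕ) (hθ : 0 < θ) (hε : 0 < ε) :
    ∃ r0 : ℕ, 2 ≤ r0 ∧ ∀ r : ℕ, r0 ≤ r → ∀ᶠ q : ℕ in atTop, ∀ y : ℕ, y = ⌊(q : ℝ) ^ (1 / (r : ℝ))⌋₊ →
      ∀ Z Y : ℕ, (q : ℝ) ^ θ ≤ Y → ∀ T : ℕ, T * V q y ≤ x0 →
        |∑ n ∈ Om q Z Y, ((cnt q y T n).choose k : ℝ) -
          Y * ((q.totient : ℝ) / q) * ((T * V q y) ^ k / k.factorial)| ≤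
          ε * (Y * ((q.totient : ℝ) / q)) := by
  rcases k with _ | k
  · obtain ⟨r0, hr0, h0⟩ := card_cop θ ε hθ hε
    refine ⟨r0, hr0, fun r hr => ?_⟩
    filter_upwards [h0 r hr] with q h1
    intro y hy Z Y hY T _
    simpa using h1 Z Y hY
  obtain ⟨κ, hκ⟩ : ∃ κ : ℝ, κ = min ε 1 / 4 := ⟨_, rfl⟩
  have hκ0 : 0 < κ := by rw [hκ]; positivity
  have hκε : 4 * κ ≤ ε := by rw [hκ]; have := min_le_left ε 1; linarith
  have hκ1 : 4 * κ ≤ 1 := by rw [hκ]; have := min_le_right ε 1; linarith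
  obtain ⟨r1, hr1, h1⟩ := mom0 θ κ x0 ε k hθ hκ0 hε
  obtain ⟨r2, hr2, h2⟩ := mom0 θ κ (2 * κ) κ k hθ hκ0 hκ0
  refine ⟨max r1 r2, hr1.trans (le_max_left _ _), ?_⟩
  intro r hr
  have hrr2 : 2 ≤ r := hr1.trans ((le_max_left _ _).trans hr)
  obtain ⟨K, hK, hVn⟩ := Vn_small r hrr2
  have hlog : Tendsto (fun q : ℕ => Real.log (q : ℝ)) atTop atTop :=
    Real.tendsto_log_atTop.comp tendsto_natCast_atTop_atTop
  have hsqlog : Tendsto (fun q : ℕ => √(Real.log (q : ℝ))) atTop atTop :=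
    Real.tendsto_sqrt_atTop.comp hlog
  filter_upwards [h1 r ((le_max_left _ _).trans hr), h2 r ((le_max_right _ _).trans hr), hVn,
    hsqlog.eventually_ge_atTop (K / κ), hsqlog.eventually_gt_atTop 0] with q g1 g2 g3 g4 g5
  intro y hy Z Y hY T hT
  by_cases hT2 : κ ≤ T * V q y
  · exact g1 y hy Z Y hY T hT2 hT
  rw [not_le] at hT2
  rw [← hy, V_eq] at g3
  have hV0 : 0 < V q y := by rw [← V_eq]; exact Vq_pos (Qn Ql q) (adm_Qn Ql adm_Ql q) y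
  have hVκ : V q y ≤ κ := by
    refine g3.trans ?_
    rw [div_le_iff₀ g5]
    rw [div_le_iff₀ hκ0] at g4
    linarith
  obtain ⟨T', a1, a2, a3⟩ := exists_window (V q y) κ hV0 hVκ
  have a4 := (abs_le.1 (g2 y hy Z Y hY T' a1 a2)).2
  obtain ⟨N, hN⟩ : ∃ N, N = (Y : ℝ) * ((q.totient : ℝ) / q) := ⟨_, rfl⟩
  have hN0 : 0 ≤ N := by rw [hN]; positivity
  rw [← hN] at a4 ⊢
  have hsmall : ∀ x : ℝ, 0 ≤ x → x ≤ 2 * κ → x ^ (k + 1) / ((k + 1).factorial : ℝ) ≤ x := by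
    intro x hx0 hx1
    have hf1 : (1 : ℝ) ≤ (k + 1).factorial := by exact_mod_cast Nat.factorial_pos (k + 1)
    calc x ^ (k + 1) / ((k + 1).factorial : ℝ) ≤ x ^ (k + 1) := div_le_self (by positivity) hf1
      _ = x ^ k * x := pow_succ x k
      _ ≤ 1 * x := by
          apply mul_le_mul_of_nonneg_right _ hx0
          exact pow_le_one₀ hx0 (by linarith)
      _ = x := one_mul x
  have b1 := hsmall (T' * V q y) (by positivity) a2
  have b2 := hsmall (T * V q y) (by positivity) (by linarith)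
  have b3 : ∑ n ∈ Om q Z Y, ((cnt q y T n).choose (k + 1) : ℝ) ≤
      ∑ n ∈ Om q Z Y, ((cnt q y T' n).choose (k + 1) : ℝ) := by
    apply Finset.sum_le_sum
    intro n _
    exact_mod_cast Nat.choose_le_choose (k + 1) (cnt_mono q y n (a3 T hT2))
  have b4 : 0 ≤ ∑ n ∈ Om q Z Y, ((cnt q y T n).choose (k + 1) : ℝ) :=
    Finset.sum_nonneg fun _ _ => Nat.cast_nonneg _
  have b5 : N * ((T' * V q y) ^ (k + 1) / ((k + 1).factorial : ℝ)) ≤ N * (2 * κ) :=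
    mul_le_mul_of_nonneg_left (b1.trans a2) hN0
  have b6 : N * ((T * V q y) ^ (k + 1) / ((k + 1).factorial : ℝ)) ≤ N * κ :=
    mul_le_mul_of_nonneg_left (b2.trans hT2.le) hN0
  have b7 : 0 ≤ N * ((T * V q y) ^ (k + 1) / ((k + 1).factorial : ℝ)) := by positivity
  have b8 : 4 * κ * N ≤ ε * N := mul_le_mul_of_nonneg_right hκε hN0
  have b9 : 0 ≤ κ * N := by positivity
  rw [abs_le]
  constructor <;> linarith

/-- **The variance in the critical range.** -/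
theorem var (θ x0 ε : ℝ) (hθ : 0 < θ) (hε : 0 < ε) :
    ∃ r0 : ℕ, 2 ≤ r0 ∧ ∀ r : ℕ, r0 ≤ r → ∀ᶠ q : ℕ in atTop, ∀ y : ℕ, y = ⌊(q : ℝ) ^ (1 / (r : ℝ))⌋₊ →
      ∀ Z Y : ℕ, (q : ℝ) ^ θ ≤ Y → ∀ T : ℕ, T * V q y ≤ x0 →
        |∑ n ∈ Om q Z Y, ((cnt q y T n : ℝ) - T * V q y) ^ 2 -
          Y * ((q.totient : ℝ) / q) * (T * V q y)| ≤ ε * (Y * ((q.totient : ℝ) / q)) := by
  obtain ⟨x1, hx1⟩ : ∃ x1 : ℝ, x1 = |x0| + 1 := ⟨_, rfl⟩
  have hx10 : 1 ≤ x1 := by rw [hx1]; have := abs_nonneg x0; linarith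
  obtain ⟨ε1, hε1⟩ : ∃ ε1 : ℝ, ε1 = ε / (8 * x1 ^ 2) := ⟨_, rfl⟩
  have hε10 : 0 < ε1 := by rw [hε1]; positivity
  have hεx : 8 * (ε1 * x1 ^ 2) = ε := by rw [hε1]; field_simp
  obtain ⟨r0, hr0, h0⟩ := mom θ x0 ε1 0 hθ hε10
  obtain ⟨r1, hr1, h1⟩ := mom θ x0 ε1 1 hθ hε10
  obtain ⟨r2, hr2, h2⟩ := mom θ x0 ε1 2 hθ hε10
  refine ⟨max r0 (max r1 r2), hr0.trans (le_max_left _ _), ?_⟩
  intro r hr
  filter_upwards [h0 r ((le_max_left _ _).trans hr),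
    h1 r (((le_max_left _ _).trans (le_max_right _ _)).trans hr),
    h2 r (((le_max_right _ _).trans (le_max_right _ _)).trans hr)] with q g0 g1 g2
  intro y hy Z Y hY T hT
  have k0 := g0 y hy Z Y hY T hT
  have k1 := g1 y hy Z Y hY T hT
  have k2 := g2 y hy Z Y hY T hT
  obtain ⟨N, hN⟩ : ∃ N, N = (Y : ℝ) * ((q.totient : ℝ) / q) := ⟨_, rfl⟩
  have hN0 : 0 ≤ N := by rw [hN]; positivity
  have hV0 : 0 ≤ V q y := by rw [← V_eq]; exact Vq_nonneg _ _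
  obtain ⟨x, hx⟩ : ∃ x, x = T * V q y := ⟨_, rfl⟩
  have hxx : 0 ≤ x := by rw [hx]; positivity
  rw [← hN, ← hx] at k0 k1 k2
  rw [← hx] at hT
  rw [← hN, ← hx]
  have hxx1 : x ≤ x1 := by rw [hx1]; have := le_abs_self x0; linarith
  simp only [Nat.choose_zero_right, Nat.cast_one, Finset.sum_const, nsmul_eq_mul, mul_one, pow_zero,
    Nat.factorial_zero, div_one] at k0
  simp only [Nat.choose_one_right, pow_one, Nat.factorial_one, Nat.cast_one, div_one] at k1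
  rw [Nat.factorial_two] at k2
  have e1 : ∀ n, ((cnt q y T n : ℝ) - x) ^ 2 =
      2 * ((cnt q y T n).choose 2 : ℝ) + (1 - 2 * x) * (cnt q y T n : ℝ) + x ^ 2 := by
    intro n
    rw [Nat.cast_choose_two]
    ring
  have e2 : ∑ n ∈ Om q Z Y, ((cnt q y T n : ℝ) - x) ^ 2 =
      2 * ∑ n ∈ Om q Z Y, ((cnt q y T n).choose 2 : ℝ) + (1 - 2 * x) * ∑ n ∈ Om q Z Y, (cnt q y T n : ℝ) +
        (Om q Z Y).card * x ^ 2 := by
    simp only [e1]
    rw [Finset.sum_add_distrib, Finset.sum_add_distrib, ← Finset.mul_sum, ← Finset.mul_sum,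
      Finset.sum_const, nsmul_eq_mul]
  rw [e2]
  obtain ⟨A2, hA2⟩ : ∃ A2, A2 = ∑ n ∈ Om q Z Y, ((cnt q y T n).choose 2 : ℝ) := ⟨_, rfl⟩
  obtain ⟨A1, hA1⟩ : ∃ A1, A1 = ∑ n ∈ Om q Z Y, (cnt q y T n : ℝ) := ⟨_, rfl⟩
  obtain ⟨A0, hA0⟩ : ∃ A0 : ℝ, A0 = (Om q Z Y).card := ⟨_, rfl⟩
  rw [← hA2] at k2
  rw [← hA1] at k1
  rw [← hA0] at k0
  rw [← hA2, ← hA1, ← hA0]
  have e3 : 2 * A2 + (1 - 2 * x) * A1 + A0 * x ^ 2 - N * x =
      2 * (A2 - N * (x ^ 2 / (2 : ℕ))) + (1 - 2 * x) * (A1 - N * x) + x ^ 2 * (A0 - N) := by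
    push_cast
    ring
  rw [e3]
  have b1 : |1 - 2 * x| ≤ 2 * x1 := by rw [abs_le]; constructor <;> linarith
  have b2 : |2 * (A2 - N * (x ^ 2 / (2 : ℕ)))| ≤ 2 * (ε1 * N) := by
    rw [abs_mul, abs_of_pos (by norm_num : (0 : ℝ) < 2)]
    linarith
  have b3 : |(1 - 2 * x) * (A1 - N * x)| ≤ 2 * x1 * (ε1 * N) := by
    rw [abs_mul]
    exact mul_le_mul b1 k1 (abs_nonneg _) (by positivity)
  have b4 : |x ^ 2 * (A0 - N)| ≤ x1 ^ 2 * (ε1 * N) := by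
    rw [abs_mul, abs_of_nonneg (by positivity)]
    exact mul_le_mul (pow_le_pow_left₀ hxx hxx1 2) k0 (abs_nonneg _) (by positivity)
  have b5 : ε * N = 8 * (x1 ^ 2 * (ε1 * N)) := by rw [← hεx]; ring
  have b6 : 0 ≤ ε1 * N := by positivity
  have b7 : x1 * (ε1 * N) ≤ x1 ^ 2 * (ε1 * N) := by
    apply mul_le_mul_of_nonneg_right _ b6
    nlinarith
  have b8 : ε1 * N ≤ x1 * (ε1 * N) := by nlinarith
  rw [b5]
  refine (abs_add_le _ _).trans ?_
  have b9 := abs_add_le (2 * (A2 - N * (x ^ 2 / (2 : ℕ)))) ((1 - 2 * x) * (A1 - N * x))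
  linarith

end Pool.Agent.R490.Moms
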