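import Pool.Agent.R490.QuadP

set_option autoImplicit false

/-!
# The polynomials `n - x ^ 2`
-/

namespace Pool.Agent.R490.Nms

open Polynomial Finset Filter
open Pool.Agent.TH464.PW Pool.Agent.Y879.GL

lemma irr_nm (n : ℕ) (hn : ¬ IsSquare n) : Irreducible (quad (-1) 0 (n : ℤ)) := by
  apply quad_irr _ _ _ (by norm_num)
  · rintro p hp ⟨hd, -, -⟩
    exact hp.one_lt.ne' (Nat.dvd_one.1 (by exact_mod_cast (dvd_neg.1 hd)))
  · intro h
    apply hn
    have h1 : IsSquare ((2 : ℤ) ^ 2 * n) := by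
      have e : (0 : ℤ) ^ 2 - 4 * (-1) * n = 2 ^ 2 * n := by ring
      rwa [e] at h
    have h2 := QP.sq_of _ _ (by norm_num) h1
    exact Int.isSquare_natCast_iff.1 h2

lemma hgt_nm (n X A : ℕ) (hX : 1 ≤ X) (hnX : n ≤ X ^ A) (i : ℕ) :
    |(quad (-1) 0 (n : ℤ)).coeff i| ≤ (X : ℤ) ^ A := by
  have h1 : (1 : ℤ) ≤ (X : ℤ) ^ A := by exact_mod_cast Nat.one_le_pow _ _ hX
  apply quad_coeff
  · simpa using h1
  · simp only [abs_zero]
    linarith
  · rw [abs_of_nonneg (by positivity)]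
    exact_mod_cast hnX

lemma ev_nm (n : ℕ) (x : ℤ) : (quad (-1) 0 (n : ℤ)).eval x = (n : ℤ) - x ^ 2 := by
  rw [quad_eval]
  ring

lemma good_nm (n X A : ℕ) (hX : 1 ≤ X) (hn : ¬ IsSquare n) (hnX : n ≤ X ^ A) :
    Sg.Good 2 ((X : ℤ) ^ A) (quad (-1) 0 (n : ℤ)) (fun x => (n : ℤ) - x ^ 2) where
  ev := fun x => ev_nm n x
  irr := irr_nm n hn
  deg := by rw [quad_deg _ _ _ (by norm_num)]; norm_num
  degD := by rw [quad_deg _ _ _ (by norm_num)]
  hgt := hgt_nm n X A hX hnX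
  adm := fun p hp => by
    obtain ⟨m, hm⟩ := quad_adm (-1) 0 (n : ℤ) (by
      rintro p hp ⟨hd, -, -⟩
      exact hp.one_lt.ne' (Nat.dvd_one.1 (by exact_mod_cast (dvd_neg.1 hd)))) (by
      rintro ⟨he, -⟩
      norm_num at he) p hp
    exact ⟨m, by rw [← ev_nm]; exact hm⟩

lemma goodP_nm (n X A : ℕ) (hX : 1 ≤ X) (hn : ¬ IsSquare n) (he : Even n) (h3 : n % 3 ≠ 1) (hnX : n ≤ X ^ A) :
    PA.Good 2 ((X : ℤ) ^ A) (quad (-1) 0 (n : ℤ)) (fun x => (n : ℤ) - x ^ 2) where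
  ev := fun x => ev_nm n x
  irr := irr_nm n hn
  deg := by rw [quad_deg _ _ _ (by norm_num)]
  degD := by rw [quad_deg _ _ _ (by norm_num)]
  hgt := hgt_nm n X A hX hnX
  adm := fun p hp => by
    by_cases h1 : (p : ℤ) ∣ (n : ℤ) - 1
    · have hp2 : ¬ p ∣ 2 := by
        apply QP.odd_dvd _ p hp h1
        have hez : Even (n : ℤ) := by exact_mod_cast he
        rw [Int.odd_sub]
        exact ⟨fun h => absurd h (Int.not_odd_iff_even.2 hez), fun h => absurd h (by decide)⟩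
      have hp3 : p ≠ 3 := by
        rintro rfl
        apply h3
        omega
      refine ⟨2, hp2, ?_⟩
      intro h2
      have h4 := dvd_sub h1 h2
      have e : ((n : ℤ) - 1) - ((n : ℤ) - (((2 : ℕ) : ℤ)) ^ 2) = 3 := by
        push_cast
        ring
      rw [e] at h4
      exact hp3 ((Nat.prime_dvd_prime_iff_eq hp Nat.prime_three).1 (by exact_mod_cast h4))
    · refine ⟨1, fun h2 => hp.one_lt.ne' (Nat.dvd_one.1 h2), ?_⟩
      simpa using h1

end Pool.Agent.R490.Nms
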