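import Pool.Agent.R490.P3a

set_option autoImplicit false

/-!
# Sifted pairs in a progression, with divisibility conditions
-/

namespace Pool.Agent.R490.P3b

open Finset Filter
open Pool.Agent.W123.RP Pool.Agent.H373R2.T7 Pool.Agent.W123.RU Pool.Agent.TH464.PO Pool.Agent.TH464.PW
open Pool.Agent.Y879.AP Pool.Agent.R490.Cls Pool.Agent.R490.P3a

lemma shift_mod (m Z a E : ℕ) (hE : 1 ≤ E) : m ≡ a + (E - 1) * Z [MOD E] ↔ m + Z ≡ a [MOD E] := by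
  obtain ⟨e, rfl⟩ : ∃ e, E = e + 1 := ⟨E - 1, by omega⟩
  rw [Nat.add_sub_cancel]
  have h0 : (e + 1) * Z ≡ 0 [MOD e + 1] := (Nat.modEq_zero_iff_dvd).2 (dvd_mul_right _ _)
  constructor
  · intro h
    have h1 : m + Z ≡ a + e * Z + Z [MOD e + 1] := h.add_right Z
    have h2 : a + e * Z + Z = a + (e + 1) * Z := by ring
    rw [h2] at h1
    have h3 : a + (e + 1) * Z ≡ a + 0 [MOD e + 1] := h0.add_left a
    exact h1.trans h3
  · intro h
    have h1 : m + Z + e * Z ≡ a + e * Z [MOD e + 1] := h.add_right _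
    have h2 : m + Z + e * Z = m + (e + 1) * Z := by ring
    rw [h2] at h1
    have h3 : m + (e + 1) * Z ≡ m + 0 [MOD e + 1] := h0.add_left m
    exact h3.symm.trans h1

open Classical in
theorem cnt_ap (c : ℕ) (hc : 1 ≤ c) : ∃ C0 x0 : ℕ, 1 ≤ C0 ∧ ∀ b : ℕ, C0 ≤ b →
    ∀ x y : ℕ, x0 ≤ y → y ^ (16 * (C0 * b)) ≤ x →
    ∀ Q : ℕ → ℕ → Prop, PerB Q c → ∀ Z L E a : ℕ, 1 ≤ E → (∀ p ∈ pz y, ¬ p ∣ E) →
    |(((Ioc Z (Z + L)).filter (fun n : ℕ => n ≡ a [MOD E] ∧ Sf Q y n)).card : ℝ) -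
      (L : ℝ) / E * Vq Q y| ≤ (1 / 2) ^ b * ((L : ℝ) / E * Vq Q y) + √(x : ℝ) := by
  obtain ⟨C0, x0, hC0, h⟩ := sys_fundE c hc
  refine ⟨C0, x0, hC0, ?_⟩
  intro b hb x y hy hyx Q hQ Z L E a hE hEp
  have h1 := h b hb x y hy hyx (Qt Q Z) (perB_Qt Q c hQ Z) L E (a + (E - 1) * Z) hE hEp
  have e1 : ∏ p ∈ pz y, (1 - (nuB (Qt Q Z) p : ℝ) / p) = Vq Q y := by
    unfold Vq
    apply Finset.prod_congr rfl
    intro p _
    rw [nuB_Qt Q c hQ]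
  rw [e1] at h1
  have e2 : ((Ioc Z (Z + L)).filter (fun n : ℕ => n ≡ a [MOD E] ∧ Sf Q y n)).card =
      ((Icc 1 L).filter (fun n : ℕ => n ≡ a + (E - 1) * Z [MOD E] ∧ ∀ p ∈ pz y, ¬ Qt Q Z p n)).card := by
    apply count_shift Z L
    intro n
    rw [shift_mod n Z a E hE]
    exact Iff.rfl
  rw [e2]
  exact h1

/-- the Chinese remainder theorem for the two divisibility conditions -/
lemma crt (q h h' D D' : ℕ) (hD : 1 ≤ D) (hD' : 1 ≤ D') (hcop : D.Coprime D') :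
    ∃ a, ∀ n, (D ∣ n + q * h ∧ D' ∣ n + q * h') ↔ n ≡ a [MOD D * D'] := by
  have key : ∀ D h n : ℕ, 1 ≤ D → (D ∣ n + q * h ↔ n ≡ (D - 1) * (q * h) [MOD D]) := by
    intro D h n hD
    obtain ⟨e, rfl⟩ : ∃ e, D = e + 1 := ⟨D - 1, by omega⟩
    rw [Nat.add_sub_cancel]
    have h0 : e * (q * h) + q * h ≡ 0 [MOD e + 1] := by
      have : e * (q * h) + q * h = (e + 1) * (q * h) := by ring
      rw [this]
      exact (Nat.modEq_zero_iff_dvd).2 (dvd_mul_right _ _)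
    constructor
    · intro h1
      have h2 : n + q * h ≡ 0 [MOD e + 1] := (Nat.modEq_zero_iff_dvd).2 h1
      exact Nat.ModEq.add_right_cancel' (q * h) (h2.trans h0.symm)
    · intro h1
      have h2 := h1.add_right (q * h)
      exact (Nat.modEq_zero_iff_dvd).1 (h2.trans h0)
  obtain ⟨a, ha1, ha2⟩ := Nat.chineseRemainder hcop ((D - 1) * (q * h)) ((D' - 1) * (q * h'))
  refine ⟨a, fun n => ?_⟩
  rw [key D h n hD, key D' h' n hD', ← Nat.modEq_and_modEq_iff_modEq_mul hcop]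
  constructor
  · rintro ⟨h1, h2⟩
    exact ⟨h1.trans ha1.symm, h2.trans ha2.symm⟩
  · rintro ⟨h1, h2⟩
    exact ⟨h1.trans ha1, h2.trans ha2⟩

lemma not_dvd_prod (U : Finset ℕ) (y : ℕ) (hU : ∀ p ∈ U, p.Prime ∧ y < p) (p : ℕ) (hp : p ∈ pz y) :
    ¬ p ∣ ∏ u ∈ U, u := by
  intro h
  have hpp := (mem_pz.1 hp).2
  obtain ⟨u, hu, hpu⟩ := (Prime.dvd_finset_prod_iff hpp.prime _).1 h
  have := (Nat.prime_dvd_prime_iff_eq hpp (hU u hu).1).1 hpu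
  have h2 := (hU u hu).2
  have h3 := (mem_pz.1 hp).1
  omega

open Classical in
/-- the count of pairs -/
theorem cnt_pair : ∃ C0 x0 : ℕ, 1 ≤ C0 ∧ ∀ b : ℕ, C0 ≤ b →
    ∀ x y : ℕ, x0 ≤ y → y ^ (16 * (C0 * b)) ≤ x →
    ∀ q h h' Z L : ℕ, h ≠ h' → ∀ U U' : Finset ℕ, (∀ p ∈ U, p.Prime ∧ y < p) →
      (∀ p ∈ U', p.Prime ∧ y < p) → Disjoint U U' →
    |(((Ioc Z (Z + L)).filter (fun n : ℕ => Sf (QJ Ql q {h, h'}) y n ∧
        (∏ p ∈ U, p ∣ n + q * h) ∧ (∏ p ∈ U', p ∣ n + q * h'))).card : ℝ) -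
      (L : ℝ) / ((∏ p ∈ U, (p : ℝ)) * ∏ p ∈ U', (p : ℝ)) * Vq (QJ Ql q {h, h'}) y| ≤
      (1 / 2) ^ b * ((L : ℝ) / ((∏ p ∈ U, (p : ℝ)) * ∏ p ∈ U', (p : ℝ)) * Vq (QJ Ql q {h, h'}) y) +
        √(x : ℝ) := by
  obtain ⟨C0, x0, hC0, H⟩ := cnt_ap 3 (by norm_num)
  refine ⟨C0, x0, hC0, ?_⟩
  intro b hb x y hy hyx q h h' Z L hne U U' hU hU' hd
  have hper := perB_QJ Ql 1 perB_Ql q {h, h'}
  rw [Finset.card_pair hne] at hper
  have hcop : (∏ p ∈ U, p).Coprime (∏ p ∈ U', p) := by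
    apply Nat.Coprime.prod_left
    intro p hp
    apply Nat.Coprime.prod_right
    intro p' hp'
    rw [Nat.coprime_primes (hU p hp).1 (hU' p' hp').1]
    rintro rfl
    exact disjoint_left.1 hd hp hp'
  have h1 : 1 ≤ ∏ p ∈ U, p := Nat.pos_of_ne_zero (prod_ne_zero_iff.2 fun p hp => (hU p hp).1.ne_zero)
  have h1' : 1 ≤ ∏ p ∈ U', p := Nat.pos_of_ne_zero (prod_ne_zero_iff.2 fun p hp => (hU' p hp).1.ne_zero)
  obtain ⟨a, ha⟩ := crt q h h' _ _ h1 h1' hcop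
  have key := H b hb x y hy hyx (QJ Ql q {h, h'}) hper Z L ((∏ p ∈ U, p) * ∏ p ∈ U', p) a
    (Nat.mul_pos h1 h1') (by
      intro p hp hdv
      rcases (Nat.Prime.dvd_mul (mem_pz.1 hp).2).1 hdv with h2 | h2
      · exact not_dvd_prod U y hU p hp h2
      · exact not_dvd_prod U' y hU' p hp h2)
  have e1 : (((∏ p ∈ U, p) * ∏ p ∈ U', p : ℕ) : ℝ) = (∏ p ∈ U, (p : ℝ)) * ∏ p ∈ U', (p : ℝ) := by
    push_cast
    rfl
  rw [e1] at key
  have e2 : (Ioc Z (Z + L)).filter (fun n : ℕ => Sf (QJ Ql q {h, h'}) y n ∧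
        (∏ p ∈ U, p ∣ n + q * h) ∧ (∏ p ∈ U', p ∣ n + q * h')) =
      (Ioc Z (Z + L)).filter (fun n : ℕ => n ≡ a [MOD (∏ p ∈ U, p) * ∏ p ∈ U', p] ∧
        Sf (QJ Ql q {h, h'}) y n) := by
    apply Finset.filter_congr
    intro n _
    rw [← ha n]
    tauto
  rw [e2]
  exact key

/-- a common prime of the two conditions is impossible -/
lemma no_common (q h h' n y T p : ℕ) (hne : h ≠ h') (hh : h ≤ T) (hh' : h' ≤ T) (hTy : T ≤ y)
    (hp : p.Prime) (hyp : y < p) (hpq : ¬ p ∣ q) (h1 : p ∣ n + q * h) (h2 : p ∣ n + q * h') : False := by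
  rcases Nat.lt_or_ge h h' with hlt | hge
  · have h3 : p ∣ (n + q * h') - (n + q * h) := Nat.dvd_sub h2 h1
    have h4 : (n + q * h') - (n + q * h) = q * (h' - h) := by
      rw [Nat.mul_sub]
      omega
    rw [h4] at h3
    rcases (Nat.Prime.dvd_mul hp).1 h3 with h5 | h5
    · exact hpq h5
    · have := Nat.le_of_dvd (by omega) h5
      omega
  · have hlt : h' < h := by omega
    have h3 : p ∣ (n + q * h) - (n + q * h') := Nat.dvd_sub h1 h2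
    have h4 : (n + q * h) - (n + q * h') = q * (h - h') := by
      rw [Nat.mul_sub]
      omega
    rw [h4] at h3
    rcases (Nat.Prime.dvd_mul hp).1 h3 with h5 | h5
    · exact hpq h5
    · have := Nat.le_of_dvd (by omega) h5
      omega

end Pool.Agent.R490.P3b
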