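import Pool.Agent.R490.P3b

set_option autoImplicit false

/-!
# The off-diagonal terms
-/

namespace Pool.Agent.R490.P3c

open Finset Filter
open Pool.Agent.W123.RP Pool.Agent.H373R2.T7 Pool.Agent.W123.RU Pool.Agent.TH464.PO Pool.Agent.TH464.PW
open Pool.Agent.Y879.AP Pool.Agent.R490.Cls Pool.Agent.R490.P3a Pool.Agent.R490.P3b

/-- the reciprocal of the product -/
noncomputable def wt (U : Finset ℕ) : ℝ := (∏ p ∈ U, (p : ℝ))⁻¹

open Classical in
/-- a divisor sum -/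
noncomputable def lam (P : Finset ℕ) (a : Finset ℕ → ℝ) (m : ℕ) : ℝ :=
  ∑ U ∈ P.powerset, a U * (if (∏ p ∈ U, p) ∣ m then 1 else 0)

open Classical in
/-- the indicator function of the sifted numbers -/
noncomputable def rh (q y m : ℕ) : ℝ := if Sf (Qn Ql q) y m then 1 else 0

/-- the weight at `n + q h` -/
noncomputable def xx (P : Finset ℕ) (a : Finset ℕ → ℝ) (q y h n : ℕ) : ℝ :=
  rh q y (n + q * h) * lam P a (n + q * h)

open Classical in
/-- the classes -/
noncomputable def SS (q y Z L : ℕ) : Finset ℕ := (Ioc Z (Z + L)).filter (fun n => Sf (Qd Ql q) y n)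

open Classical in
/-- the counts -/
noncomputable def NN (q y h h' Z L : ℕ) (U U' : Finset ℕ) : ℝ :=
  (((Ioc Z (Z + L)).filter (fun n : ℕ => Sf (QJ Ql q {h, h'}) y n ∧
        (∏ p ∈ U, p ∣ n + q * h) ∧ (∏ p ∈ U', p ∣ n + q * h'))).card : ℝ)

lemma sum_xx (P : Finset ℕ) (a : Finset ℕ → ℝ) (q y h h' Z L : ℕ) :
    ∑ n ∈ SS q y Z L, xx P a q y h n * xx P a q y h' n =
      ∑ U ∈ P.powerset, ∑ U' ∈ P.powerset, a U * a U' * NN q y h h' Z L U U' := by
  classical
  have h1 : ∀ n, xx P a q y h n * xx P a q y h' n = ∑ U ∈ P.powerset, ∑ U' ∈ P.powerset,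
      a U * a U' * (if Sf (Qn Ql q) y (n + q * h) ∧ Sf (Qn Ql q) y (n + q * h') ∧
        (∏ p ∈ U, p ∣ n + q * h) ∧ (∏ p ∈ U', p ∣ n + q * h') then 1 else 0) := by
    intro n
    unfold xx lam rh
    rw [show ∀ u v s t : ℝ, u * v * (s * t) = (u * s) * (v * t) by intros; ring, sum_mul_sum, mul_sum]
    apply sum_congr rfl
    intro U _
    rw [mul_sum]
    apply sum_congr rfl
    intro U' _
    by_cases c1 : Sf (Qn Ql q) y (n + q * h) <;> by_cases c2 : Sf (Qn Ql q) y (n + q * h') <;>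
      by_cases c3 : (∏ p ∈ U, p ∣ n + q * h) <;> by_cases c4 : (∏ p ∈ U', p ∣ n + q * h') <;>
      simp [c1, c2, c3, c4]
  rw [sum_congr rfl (fun n _ => h1 n), sum_comm]
  apply sum_congr rfl
  intro U _
  rw [sum_comm]
  apply sum_congr rfl
  intro U' _
  rw [← mul_sum]
  congr 1
  unfold NN SS
  rw [card_filter]
  push_cast
  rw [sum_filter]
  apply sum_congr rfl
  intro n _
  rw [sf_QJ]
  by_cases c0 : Sf (Qd Ql q) y n
  · rw [if_pos c0]
    have hiff : (Sf (Qn Ql q) y (n + q * h) ∧ Sf (Qn Ql q) y (n + q * h') ∧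
        (∏ p ∈ U, p ∣ n + q * h) ∧ (∏ p ∈ U', p ∣ n + q * h')) ↔
        ((Sf (Qd Ql q) y n ∧ ∀ k ∈ ({h, h'} : Finset ℕ), Sf (Qn Ql q) y (n + q * k)) ∧
        (∏ p ∈ U, p ∣ n + q * h) ∧ (∏ p ∈ U', p ∣ n + q * h')) := by
      constructor
      · rintro ⟨c1, c2, c3⟩
        refine ⟨⟨c0, ?_⟩, c3⟩
        intro k hk
        rw [mem_insert, mem_singleton] at hk
        rcases hk with rfl | rfl
        · exact c1
        · exact c2
      · rintro ⟨⟨_, c1⟩, c3⟩
        exact ⟨c1 h (by simp), c1 h' (by simp), c3⟩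
    by_cases hA : (Sf (Qn Ql q) y (n + q * h) ∧ Sf (Qn Ql q) y (n + q * h') ∧
        (∏ p ∈ U, p ∣ n + q * h) ∧ (∏ p ∈ U', p ∣ n + q * h'))
    · rw [if_pos hA, if_pos (hiff.1 hA)]
    · rw [if_neg hA, if_neg (fun h => hA (hiff.2 h))]
  · rw [if_neg c0, if_neg]
    rintro ⟨⟨c1, _⟩, _⟩
    exact c0 c1

lemma wt_pos (P : Finset ℕ) (hP : ∀ p ∈ P, p.Prime) (U : Finset ℕ) (hU : U ⊆ P) : 0 < wt U := by
  unfold wt
  apply inv_pos.2
  apply prod_pos
  intro p hp
  exact_mod_cast (hP p (hU hp)).pos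

/-- the sum of the reciprocals -/
noncomputable def Pi1 (P : Finset ℕ) : ℝ := ∑ U ∈ P.powerset, wt U

lemma sum_mem (P : Finset ℕ) (hP : ∀ p ∈ P, p.Prime) (p : ℕ) (hp : p ∈ P) :
    ∑ U ∈ P.powerset, (if p ∈ U then wt U else 0) ≤ 1 / (p : ℝ) * Pi1 P := by
  classical
  have hp0 : (0 : ℝ) < p := by exact_mod_cast (hP p hp).pos
  rw [← sum_filter]
  have h1 : ∑ U ∈ P.powerset.filter (fun U => p ∈ U), wt U =
      1 / (p : ℝ) * ∑ U ∈ P.powerset.filter (fun U => p ∈ U), wt (U.erase p) := by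
    rw [mul_sum]
    apply sum_congr rfl
    intro U hU
    rw [mem_filter] at hU
    unfold wt
    rw [← mul_prod_erase U (fun p => (p : ℝ)) hU.2, mul_inv, one_div]
  rw [h1]
  apply mul_le_mul_of_nonneg_left _ (by positivity)
  have hinj : Set.InjOn (fun U : Finset ℕ => U.erase p) (P.powerset.filter (fun U => p ∈ U) : Set (Finset ℕ)) := by
    intro U hU V hV hUV
    rw [mem_coe, mem_filter] at hU hV
    have := congrArg (insert p) hUV
    simpa [insert_erase hU.2, insert_erase hV.2] using this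
  rw [← sum_image (f := wt) hinj]
  unfold Pi1
  apply sum_le_sum_of_subset_of_nonneg
  · intro V hV
    rw [mem_image] at hV
    obtain ⟨U, hU, rfl⟩ := hV
    rw [mem_filter, mem_powerset] at hU
    rw [mem_powerset]
    exact (erase_subset _ _).trans hU.1
  · intro V hV _
    exact (wt_pos P hP V (mem_powerset.1 hV)).le

lemma Pi1_nonneg (P : Finset ℕ) (hP : ∀ p ∈ P, p.Prime) : 0 ≤ Pi1 P :=
  sum_nonneg fun V hV => (wt_pos P hP V (mem_powerset.1 hV)).le

/-- the pairs with a common prime -/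
lemma common (P : Finset ℕ) (y : ℕ) (hy : 1 ≤ y) (hP : ∀ p ∈ P, p.Prime ∧ y < p) :
    ∑ U ∈ P.powerset, ∑ U' ∈ P.powerset, (if Disjoint U U' then 0 else wt U * wt U') ≤
      Pi1 P ^ 2 * ((∑ p ∈ P, 1 / (p : ℝ)) / y) := by
  classical
  have hPp : ∀ p ∈ P, p.Prime := fun p hp => (hP p hp).1
  have hy0 : (0 : ℝ) < y := by exact_mod_cast hy
  have h1 : ∀ U ∈ P.powerset, ∀ U' ∈ P.powerset, (if Disjoint U U' then 0 else wt U * wt U') ≤
      ∑ p ∈ P, (if p ∈ U then wt U else 0) * (if p ∈ U' then wt U' else 0) := by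
    intro U hU U' hU'
    have w1 := wt_pos P hPp U (mem_powerset.1 hU)
    have w2 := wt_pos P hPp U' (mem_powerset.1 hU')
    have hnn : ∀ p ∈ P, 0 ≤ (if p ∈ U then wt U else 0) * (if p ∈ U' then wt U' else 0) := by
      intro p _
      split_ifs <;> positivity
    by_cases hd : Disjoint U U'
    · rw [if_pos hd]
      exact sum_nonneg hnn
    · rw [if_neg hd]
      rw [not_disjoint_iff] at hd
      obtain ⟨p, hp, hp'⟩ := hd
      have h2 := single_le_sum hnn (mem_powerset.1 hU hp)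
      rw [if_pos hp, if_pos hp'] at h2
      exact h2
  have h2 : ∑ U ∈ P.powerset, ∑ U' ∈ P.powerset, (if Disjoint U U' then 0 else wt U * wt U') ≤
      ∑ U ∈ P.powerset, ∑ U' ∈ P.powerset,
        ∑ p ∈ P, (if p ∈ U then wt U else 0) * (if p ∈ U' then wt U' else 0) :=
    sum_le_sum fun U hU => sum_le_sum fun U' hU' => h1 U hU U' hU'
  have h3 : ∑ U ∈ P.powerset, ∑ U' ∈ P.powerset,
        ∑ p ∈ P, (if p ∈ U then wt U else 0) * (if p ∈ U' then wt U' else 0) =
      ∑ p ∈ P, (∑ U ∈ P.powerset, (if p ∈ U then wt U else 0)) ^ 2 := by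
    have e1 : ∀ U ∈ P.powerset, ∑ U' ∈ P.powerset,
        ∑ p ∈ P, (if p ∈ U then wt U else 0) * (if p ∈ U' then wt U' else 0) =
        ∑ p ∈ P, ∑ U' ∈ P.powerset, (if p ∈ U then wt U else 0) * (if p ∈ U' then wt U' else 0) :=
      fun U _ => sum_comm
    rw [sum_congr rfl e1, sum_comm]
    apply sum_congr rfl
    intro p _
    rw [sq, sum_mul_sum]
  have h4 : ∀ p ∈ P, (∑ U ∈ P.powerset, (if p ∈ U then wt U else 0)) ^ 2 ≤
      Pi1 P ^ 2 * ((1 / (p : ℝ)) / y) := by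
    intro p hp
    have hp0 : (0 : ℝ) < p := by exact_mod_cast (hPp p hp).pos
    have hyp : (y : ℝ) ≤ p := by exact_mod_cast (hP p hp).2.le
    have g1 := sum_mem P hPp p hp
    have g0 : 0 ≤ ∑ U ∈ P.powerset, (if p ∈ U then wt U else 0) := by
      apply sum_nonneg
      intro U hU
      have := wt_pos P hPp U (mem_powerset.1 hU)
      split_ifs <;> linarith
    calc (∑ U ∈ P.powerset, (if p ∈ U then wt U else 0)) ^ 2 ≤ (1 / (p : ℝ) * Pi1 P) ^ 2 :=
          pow_le_pow_left₀ g0 g1 2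
      _ = Pi1 P ^ 2 * ((1 / (p : ℝ)) / p) := by ring
      _ ≤ Pi1 P ^ 2 * ((1 / (p : ℝ)) / y) := by
          apply mul_le_mul_of_nonneg_left _ (sq_nonneg _)
          apply div_le_div_of_nonneg_left (by positivity) hy0 hyp
  calc _ ≤ _ := h2
    _ = _ := h3
    _ ≤ ∑ p ∈ P, Pi1 P ^ 2 * ((1 / (p : ℝ)) / y) := sum_le_sum h4
    _ = _ := by rw [← mul_sum, ← sum_div]

/-- the number of the coefficients -/
lemma sum_abs (P : Finset ℕ) (hP : ∀ p ∈ P, p.Prime) (a : Finset ℕ → ℝ) (A : ℝ) (D : ℕ)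
    (hA : ∀ U, |a U| ≤ A) (hD : ∀ U ⊆ P, a U ≠ 0 → ∏ p ∈ U, p ≤ D) :
    ∑ U ∈ P.powerset, |a U| ≤ A * D := by
  classical
  have hA0 : 0 ≤ A := (abs_nonneg _).trans (hA ∅)
  have h1 : ∑ U ∈ P.powerset, |a U| = ∑ U ∈ P.powerset.filter (fun U => a U ≠ 0), |a U| := by
    rw [sum_filter]
    apply sum_congr rfl
    intro U _
    by_cases h : a U = 0
    · rw [if_neg (not_not.2 h), h, abs_zero]
    · rw [if_pos h]
  have h2 : (P.powerset.filter (fun U => a U ≠ 0)).card ≤ D := by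
    calc _ ≤ (Icc 1 D).card := by
          apply card_le_card_of_injOn (fun T : Finset ℕ => ∏ p ∈ T, p)
          · intro T hT
            rw [mem_coe, mem_filter, mem_powerset] at hT
            have h5 : 1 ≤ ∏ p ∈ T, p := Nat.pos_of_ne_zero (prod_ne_zero_iff.2 fun p hp => (hP p (hT.1 hp)).ne_zero)
            exact mem_coe.2 (mem_Icc.2 ⟨h5, hD T hT.1 hT.2⟩)
          · intro T hT T' hT' h
            rw [mem_coe, mem_filter, mem_powerset] at hT hT'
            exact prod_inj T T' (fun p hp => hP p (hT.1 hp)) (fun p hp => hP p (hT'.1 hp)) h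
      _ = D := by rw [Nat.card_Icc]; omega
  rw [h1]
  refine (sum_le_card_nsmul _ _ A (fun U _ => hA U)).trans ?_
  rw [nsmul_eq_mul, mul_comm]
  apply mul_le_mul_of_nonneg_left _ hA0
  exact_mod_cast h2

/-- **The off-diagonal terms.** -/
theorem off : ∃ C0 x0 : ℕ, 1 ≤ C0 ∧ ∀ b : ℕ, C0 ≤ b →
    ∀ x y : ℕ, x0 ≤ y → 1 ≤ y → y ^ (16 * (C0 * b)) ≤ x →
    ∀ (q T Z L : ℕ) (P : Finset ℕ) (a : Finset ℕ → ℝ) (A : ℝ) (D : ℕ), T ≤ y →
      (∀ p ∈ P, p.Prime ∧ y < p ∧ ¬ p ∣ q) → (∀ U, |a U| ≤ A) →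
      (∀ U ⊆ P, a U ≠ 0 → ∏ p ∈ U, p ≤ D) → ∑ U ∈ P.powerset, a U * wt U = 0 →
      ∀ h h' : ℕ, h ≠ h' → h ≤ T → h' ≤ T →
      |∑ n ∈ SS q y Z L, xx P a q y h n * xx P a q y h' n| ≤
        L * Vq (QJ Ql q {h, h'}) y * (A ^ 2 * (Pi1 P ^ 2 * ((∑ p ∈ P, 1 / (p : ℝ)) / y)) +
          (1 / 2) ^ b * (A * Pi1 P) ^ 2) + √(x : ℝ) * (A * D) ^ 2 := by
  classical
  obtain ⟨C0, x0, hC0, H⟩ := cnt_pair
  refine ⟨C0, x0, hC0, ?_⟩
  intro b hb x y hy hy1 hyx q T Z L P a A D hTy hP hA hD hsum h h' hne hh hh'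
  have hPp : ∀ p ∈ P, p.Prime := fun p hp => (hP p hp).1
  have hA0 : 0 ≤ A := (abs_nonneg _).trans (hA ∅)
  rw [sum_xx]
  obtain ⟨M, hM⟩ : ∃ M : ℝ, M = L * Vq (QJ Ql q {h, h'}) y := ⟨_, rfl⟩
  have hM0 : 0 ≤ M := by rw [hM]; exact mul_nonneg (Nat.cast_nonneg _) (Vq_nonneg _ _)
  rw [← hM]
  have hN : ∀ U ∈ P.powerset, ∀ U' ∈ P.powerset,
      |NN q y h h' Z L U U' - M * (if Disjoint U U' then wt U * wt U' else 0)| ≤
        (1 / 2) ^ b * (M * (wt U * wt U')) + √(x : ℝ) := by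
    intro U hU U' hU'
    have w1 := wt_pos P hPp U (mem_powerset.1 hU)
    have w2 := wt_pos P hPp U' (mem_powerset.1 hU')
    by_cases hd : Disjoint U U'
    · rw [if_pos hd]
      have h1 := H b hb x y hy hyx q h h' Z L hne U U'
        (fun p hp => ⟨(hP p (mem_powerset.1 hU hp)).1, (hP p (mem_powerset.1 hU hp)).2.1⟩)
        (fun p hp => ⟨(hP p (mem_powerset.1 hU' hp)).1, (hP p (mem_powerset.1 hU' hp)).2.1⟩) hd
      have e1 : (L : ℝ) / ((∏ p ∈ U, (p : ℝ)) * ∏ p ∈ U', (p : ℝ)) * Vq (QJ Ql q {h, h'}) y =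
          M * (wt U * wt U') := by
        rw [hM]
        unfold wt
        rw [div_eq_mul_inv, mul_inv]
        ring
      rw [e1] at h1
      exact h1
    · rw [if_neg hd, mul_zero, sub_zero]
      have h0 : NN q y h h' Z L U U' = 0 := by
        unfold NN
        rw [Nat.cast_eq_zero, card_eq_zero, filter_eq_empty_iff]
        rintro n _ ⟨_, h2, h3⟩
        rw [not_disjoint_iff] at hd
        obtain ⟨p, hp, hp'⟩ := hd
        have h4 := hP p (mem_powerset.1 hU hp)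
        exact no_common q h h' n y T p hne hh hh' hTy h4.1 h4.2.1 h4.2.2
          ((dvd_prod_of_mem (fun p => p) hp).trans h2) ((dvd_prod_of_mem (fun p => p) hp').trans h3)
      rw [h0, abs_zero]
      positivity
  -- the main term
  have hmain : |∑ U ∈ P.powerset, ∑ U' ∈ P.powerset, a U * a U' *
      (M * (if Disjoint U U' then wt U * wt U' else 0))| ≤
      M * (A ^ 2 * (Pi1 P ^ 2 * ((∑ p ∈ P, 1 / (p : ℝ)) / y))) := by
    have e1 : ∑ U ∈ P.powerset, ∑ U' ∈ P.powerset, a U * a U' *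
        (M * (if Disjoint U U' then wt U * wt U' else 0)) =
        M * ((∑ U ∈ P.powerset, a U * wt U) * (∑ U' ∈ P.powerset, a U' * wt U')) -
        M * ∑ U ∈ P.powerset, ∑ U' ∈ P.powerset, a U * a U' *
          (if Disjoint U U' then 0 else wt U * wt U') := by
      rw [sum_mul_sum, mul_sum, mul_sum, ← sum_sub_distrib]
      apply sum_congr rfl
      intro U _
      rw [mul_sum, mul_sum, ← sum_sub_distrib]
      apply sum_congr rfl
      intro U' _
      split_ifs <;> ring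
    rw [e1, hsum, zero_mul, mul_zero, zero_sub, abs_neg, abs_mul, abs_of_nonneg hM0]
    apply mul_le_mul_of_nonneg_left _ hM0
    have h2 : |∑ U ∈ P.powerset, ∑ U' ∈ P.powerset, a U * a U' *
          (if Disjoint U U' then 0 else wt U * wt U')| ≤
        ∑ U ∈ P.powerset, ∑ U' ∈ P.powerset, A ^ 2 * (if Disjoint U U' then 0 else wt U * wt U') := by
      refine (abs_sum_le_sum_abs _ _).trans (sum_le_sum fun U hU => ?_)
      refine (abs_sum_le_sum_abs _ _).trans (sum_le_sum fun U' hU' => ?_)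
      have w1 := wt_pos P hPp U (mem_powerset.1 hU)
      have w2 := wt_pos P hPp U' (mem_powerset.1 hU')
      rw [abs_mul]
      have h3 : |a U * a U'| ≤ A ^ 2 := by
        rw [abs_mul, sq]
        exact mul_le_mul (hA U) (hA U') (abs_nonneg _) hA0
      have h4 : 0 ≤ (if Disjoint U U' then 0 else wt U * wt U') := by
        split_ifs <;> positivity
      rw [abs_of_nonneg h4]
      exact mul_le_mul_of_nonneg_right h3 h4
    refine h2.trans ?_
    simp only [← mul_sum]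
    apply mul_le_mul_of_nonneg_left _ (sq_nonneg A)
    exact common P y hy1 (fun p hp => ⟨(hP p hp).1, (hP p hp).2.1⟩)
  -- the error
  have herr : |∑ U ∈ P.powerset, ∑ U' ∈ P.powerset, a U * a U' *
      (NN q y h h' Z L U U' - M * (if Disjoint U U' then wt U * wt U' else 0))| ≤
      (1 / 2) ^ b * M * (A * Pi1 P) ^ 2 + √(x : ℝ) * (A * D) ^ 2 := by
    have h2 : |∑ U ∈ P.powerset, ∑ U' ∈ P.powerset, a U * a U' *
        (NN q y h h' Z L U U' - M * (if Disjoint U U' then wt U * wt U' else 0))| ≤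
        ∑ U ∈ P.powerset, ∑ U' ∈ P.powerset, ((1 / 2) ^ b * M * ((A * wt U) * (A * wt U')) +
          √(x : ℝ) * (|a U| * |a U'|)) := by
      refine (abs_sum_le_sum_abs _ _).trans (sum_le_sum fun U hU => ?_)
      refine (abs_sum_le_sum_abs _ _).trans (sum_le_sum fun U' hU' => ?_)
      have w1 := wt_pos P hPp U (mem_powerset.1 hU)
      have w2 := wt_pos P hPp U' (mem_powerset.1 hU')
      rw [abs_mul, abs_mul]
      have h3 : |a U| * |a U'| ≤ A * A := mul_le_mul (hA U) (hA U') (abs_nonneg _) hA0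
      calc |a U| * |a U'| * |NN q y h h' Z L U U' - M * (if Disjoint U U' then wt U * wt U' else 0)| ≤
          |a U| * |a U'| * ((1 / 2) ^ b * (M * (wt U * wt U')) + √(x : ℝ)) :=
            mul_le_mul_of_nonneg_left (hN U hU U' hU') (by positivity)
        _ = |a U| * |a U'| * ((1 / 2) ^ b * (M * (wt U * wt U'))) + √(x : ℝ) * (|a U| * |a U'|) := by ring
        _ ≤ A * A * ((1 / 2) ^ b * (M * (wt U * wt U'))) + √(x : ℝ) * (|a U| * |a U'|) := by
            apply add_le_add _ le_rfl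
            exact mul_le_mul_of_nonneg_right h3 (by positivity)
        _ = _ := by ring
    refine h2.trans ?_
    have e2 : ∑ U ∈ P.powerset, ∑ U' ∈ P.powerset, ((1 / 2) ^ b * M * ((A * wt U) * (A * wt U')) +
          √(x : ℝ) * (|a U| * |a U'|)) =
        (1 / 2) ^ b * M * ((∑ U ∈ P.powerset, A * wt U) * (∑ U ∈ P.powerset, A * wt U)) +
          √(x : ℝ) * ((∑ U ∈ P.powerset, |a U|) * (∑ U ∈ P.powerset, |a U|)) := by
      rw [sum_mul_sum, sum_mul_sum, mul_sum, mul_sum, ← sum_add_distrib]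
      apply sum_congr rfl
      intro U _
      rw [mul_sum, mul_sum, ← sum_add_distrib]
    rw [e2, ← mul_sum, ← sq, ← sq]
    apply add_le_add
    · exact le_of_eq rfl
    · apply mul_le_mul_of_nonneg_left _ (Real.sqrt_nonneg _)
      apply pow_le_pow_left₀ (sum_nonneg fun _ _ => abs_nonneg _)
      exact sum_abs P hPp a A D hA hD
  have e3 : ∑ U ∈ P.powerset, ∑ U' ∈ P.powerset, a U * a U' * NN q y h h' Z L U U' =
      ∑ U ∈ P.powerset, ∑ U' ∈ P.powerset, a U * a U' *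
      (M * (if Disjoint U U' then wt U * wt U' else 0)) +
      ∑ U ∈ P.powerset, ∑ U' ∈ P.powerset, a U * a U' *
      (NN q y h h' Z L U U' - M * (if Disjoint U U' then wt U * wt U' else 0)) := by
    rw [← sum_add_distrib]
    apply sum_congr rfl
    intro U _
    rw [← sum_add_distrib]
    apply sum_congr rfl
    intro U' _
    ring
  rw [e3]
  refine (abs_add_le _ _).trans ?_
  calc _ ≤ M * (A ^ 2 * (Pi1 P ^ 2 * ((∑ p ∈ P, 1 / (p : ℝ)) / y))) +
        ((1 / 2) ^ b * M * (A * Pi1 P) ^ 2 + √(x : ℝ) * (A * D) ^ 2) := add_le_add hmain herr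
    _ = _ := by ring

end Pool.Agent.R490.P3c
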