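import Pool.Agent.R490.P3c

set_option autoImplicit false

/-!
# The second moment of the weights
-/

namespace Pool.Agent.R490.P3d

open Finset Filter
open Pool.Agent.W123.RP Pool.Agent.H373R2.T7 Pool.Agent.W123.RU Pool.Agent.TH464.PO Pool.Agent.TH464.PW
open Pool.Agent.Y879.AP Pool.Agent.R490.Cls Pool.Agent.R490.P3a Pool.Agent.R490.P3b Pool.Agent.R490.P3c

/-- few large prime factors -/
lemma few (P : Finset ℕ) (y R0 m : ℕ) (hP : ∀ p ∈ P, p.Prime ∧ y < p) (hm : 1 ≤ m) (hm2 : m ≤ y ^ R0) :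
    (P.filter (fun p => p ∣ m)).card ≤ R0 := by
  classical
  by_contra hc
  rw [not_le] at hc
  obtain ⟨V, hV, hVc⟩ := exists_subset_card_eq (show R0 + 1 ≤ (P.filter (fun p => p ∣ m)).card by omega)
  have h1 : ∏ p ∈ V, p ∣ m := by
    apply Finset.prod_primes_dvd m
    · intro p hp
      exact (hP p (mem_filter.1 (hV hp)).1).1.prime
    · intro p hp
      exact (mem_filter.1 (hV hp)).2
  have h2 : (y + 1) ^ V.card ≤ ∏ p ∈ V, p := Finset.pow_card_le_prod _ _ _ (fun p hp => by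
    have := (hP p (mem_filter.1 (hV hp)).1).2
    omega)
  have h3 := h2.trans (Nat.le_of_dvd (by omega) h1)
  rw [hVc] at h3
  have h4 : (y + 1) ^ R0 < (y + 1) ^ (R0 + 1) ∨ y = 0 := by
    rcases Nat.eq_zero_or_pos y with h | h
    · exact Or.inr h
    · left
      exact Nat.pow_lt_pow_right (by omega) (by omega)
  rcases h4 with h4 | h4
  · have h5 : y ^ R0 ≤ (y + 1) ^ R0 := Nat.pow_le_pow_left (by omega) _
    omega
  · subst h4
    rw [zero_add, one_pow] at h3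
    rcases Nat.eq_zero_or_pos R0 with h5 | h5
    · subst h5
      -- `m ≤ 1`: no prime divides it
      have h6 : m = 1 := by rw [pow_zero] at hm2; omega
      rw [card_pos] at hc
      obtain ⟨p, hp⟩ := hc
      rw [mem_filter] at hp
      rw [h6] at hp
      have := (hP p hp.1).1.one_lt
      have := Nat.le_of_dvd one_pos hp.2
      omega
    · rw [Nat.zero_pow h5] at hm2
      omega

/-- the bound for the divisor sum -/
lemma lam_le (P : Finset ℕ) (a : Finset ℕ → ℝ) (A : ℝ) (y R0 m : ℕ) (hP : ∀ p ∈ P, p.Prime ∧ y < p)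
    (hA : ∀ U, |a U| ≤ A) (hm : 1 ≤ m) (hm2 : m ≤ y ^ R0) : |lam P a m| ≤ A * 2 ^ R0 := by
  classical
  have hA0 : 0 ≤ A := (abs_nonneg _).trans (hA ∅)
  obtain ⟨Pm, hPm⟩ : ∃ Pm, Pm = P.filter (fun p => p ∣ m) := ⟨_, rfl⟩
  have h0 := few P y R0 m hP hm hm2
  rw [← hPm] at h0
  have h1 : lam P a m = ∑ U ∈ Pm.powerset, a U := by
    unfold lam
    simp only [mul_ite, mul_one, mul_zero]
    rw [← sum_filter]
    apply sum_congr _ (fun _ _ => rfl)
    ext U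
    rw [mem_filter, mem_powerset, mem_powerset]
    constructor
    · rintro ⟨h2, h3⟩ p hp
      rw [hPm, mem_filter]
      exact ⟨h2 hp, (dvd_prod_of_mem (fun p => p) hp).trans h3⟩
    · intro h2
      have h3 : ∀ p ∈ U, p ∈ P ∧ p ∣ m := by
        intro p hp
        have := h2 hp
        rw [hPm, mem_filter] at this
        exact this
      exact ⟨fun p hp => (h3 p hp).1, Finset.prod_primes_dvd m
        (fun p hp => (hP p (h3 p hp).1).1.prime) (fun p hp => (h3 p hp).2)⟩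
  rw [h1]
  refine (abs_sum_le_sum_abs _ _).trans ?_
  refine (sum_le_card_nsmul _ _ A (fun U _ => hA U)).trans ?_
  rw [nsmul_eq_mul, card_powerset, mul_comm]
  apply mul_le_mul_of_nonneg_left _ hA0
  push_cast
  exact pow_le_pow_right₀ (by norm_num) h0

/-- ordered and unordered pairs -/
lemma pairs (f : Finset ℕ → ℝ) (hf : ∀ H, 0 ≤ f H) (T : ℕ) :
    ∑ h ∈ Icc 1 T, ∑ h' ∈ Icc 1 T, (if h = h' then 0 else f {h, h'}) ≤
      2 * ∑ H ∈ powersetCard 2 (Icc 1 T), f H := by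
  classical
  have h1 : ∀ h ∈ Icc 1 T, ∀ h' ∈ Icc 1 T, (if h = h' then 0 else f {h, h'}) =
      (if h < h' then f {h, h'} else 0) + (if h' < h then f {h', h} else 0) := by
    intro h _ h' _
    rcases lt_trichotomy h h' with hlt | heq | hgt
    · rw [if_neg hlt.ne, if_pos hlt, if_neg (by omega), add_zero]
    · rw [if_pos heq, if_neg (by omega), if_neg (by omega), add_zero]
    · rw [if_neg hgt.ne', if_neg (by omega), if_pos hgt, zero_add, pair_comm]
  have h2 : ∑ h ∈ Icc 1 T, ∑ h' ∈ Icc 1 T, (if h = h' then 0 else f {h, h'}) =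
      ∑ h ∈ Icc 1 T, ∑ h' ∈ Icc 1 T, (if h < h' then f {h, h'} else 0) +
      ∑ h ∈ Icc 1 T, ∑ h' ∈ Icc 1 T, (if h' < h then f {h', h} else 0) := by
    rw [← sum_add_distrib]
    apply sum_congr rfl
    intro h hh
    rw [← sum_add_distrib]
    exact sum_congr rfl fun h' hh' => h1 h hh h' hh'
  rw [h2]
  rw [sum_comm (f := fun h h' => if h' < h then f {h', h} else 0)]
  have h3 : ∑ h ∈ Icc 1 T, ∑ h' ∈ Icc 1 T, (if h < h' then f {h, h'} else 0) ≤
      ∑ H ∈ powersetCard 2 (Icc 1 T), f H := by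
    rw [← sum_product' (Icc 1 T) (Icc 1 T) (fun h h' => if h < h' then f {h, h'} else 0), ← sum_filter]
    have hinj : Set.InjOn (fun x : ℕ × ℕ => ({x.1, x.2} : Finset ℕ))
        (((Icc 1 T) ×ˢ (Icc 1 T)).filter (fun x => x.1 < x.2) : Set (ℕ × ℕ)) := by
      rintro ⟨a, b⟩ hx ⟨c, d⟩ hx' heq
      rw [mem_coe, mem_filter] at hx hx'
      simp only at hx hx' heq
      have e1 : a ∈ ({c, d} : Finset ℕ) := by rw [← heq]; simp
      have e2 : b ∈ ({c, d} : Finset ℕ) := by rw [← heq]; simp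
      have e3 : c ∈ ({a, b} : Finset ℕ) := by rw [heq]; simp
      have e4 : d ∈ ({a, b} : Finset ℕ) := by rw [heq]; simp
      simp only [mem_insert, mem_singleton] at e1 e2 e3 e4
      have h5 := hx.2
      have h6 := hx'.2
      rw [Prod.mk.injEq]
      omega
    rw [← sum_image (f := f) hinj]
    apply sum_le_sum_of_subset_of_nonneg
    · intro H hH
      rw [mem_image] at hH
      obtain ⟨⟨a, b⟩, hx, rfl⟩ := hH
      rw [mem_filter, mem_product] at hx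
      rw [mem_powersetCard]
      refine ⟨?_, card_pair (by have := hx.2; simp only at this; omega)⟩
      intro u hu
      simp only [mem_insert, mem_singleton] at hu
      rcases hu with rfl | rfl
      · exact hx.1.1
      · exact hx.1.2
    · intro H _ _
      exact hf H
  linarith

/-- the total weight -/
noncomputable def XX (P : Finset ℕ) (a : Finset ℕ → ℝ) (q y T n : ℕ) : ℝ :=
  ∑ h ∈ Icc 1 T, xx P a q y h n

lemma W_rh (q y T n : ℕ) : (W Ql q y T n : ℝ) = ∑ h ∈ Icc 1 T, rh q y (n + q * h) := by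
  classical
  unfold W rh
  rw [card_filter]
  push_cast
  rfl

/-- **The second moment.** -/
theorem second : ∃ C0 x0 : ℕ, 1 ≤ C0 ∧ ∀ b : ℕ, C0 ≤ b →
    ∀ x y : ℕ, x0 ≤ y → 1 ≤ y → y ^ (16 * (C0 * b)) ≤ x →
    ∀ (q T Z L R0 : ℕ) (P : Finset ℕ) (a : Finset ℕ → ℝ) (A : ℝ) (D : ℕ), T ≤ y →
      (∀ p ∈ P, p.Prime ∧ y < p ∧ ¬ p ∣ q) → (∀ U, |a U| ≤ A) →
      (∀ U ⊆ P, a U ≠ 0 → ∏ p ∈ U, p ≤ D) → ∑ U ∈ P.powerset, a U * wt U = 0 →
      Z + L + q * T ≤ y ^ R0 →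
      ∑ n ∈ SS q y Z L, XX P a q y T n ^ 2 ≤
        (A * 2 ^ R0) ^ 2 * ∑ n ∈ SS q y Z L, (W Ql q y T n : ℝ) +
        2 * (L * Vq (Qd Ql q) y * (A ^ 2 * (Pi1 P ^ 2 * ((∑ p ∈ P, 1 / (p : ℝ)) / y)) +
          (1 / 2) ^ b * (A * Pi1 P) ^ 2) *
          ∑ H ∈ powersetCard 2 (Icc 1 T), Vq (QH (Q0 Ql q) H) y) +
        (T : ℝ) ^ 2 * (√(x : ℝ) * (A * D) ^ 2) := by
  classical
  obtain ⟨C0, x0, hC0, H⟩ := off
  refine ⟨C0, x0, hC0, ?_⟩
  intro b hb x y hy hy1 hyx q T Z L R0 P a A D hTy hP hA hD hsum hR0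
  have hA0 : 0 ≤ A := (abs_nonneg _).trans (hA ∅)
  have hPy : ∀ p ∈ P, p.Prime ∧ y < p := fun p hp => ⟨(hP p hp).1, (hP p hp).2.1⟩
  obtain ⟨e, he⟩ : ∃ e : ℝ, e = A ^ 2 * (Pi1 P ^ 2 * ((∑ p ∈ P, 1 / (p : ℝ)) / y)) +
          (1 / 2) ^ b * (A * Pi1 P) ^ 2 := ⟨_, rfl⟩
  have he0 : 0 ≤ e := by
    rw [he]
    have : 0 ≤ ∑ p ∈ P, 1 / (p : ℝ) := sum_nonneg fun _ _ => by positivity
    positivity
  rw [← he]
  have h1 : ∑ n ∈ SS q y Z L, XX P a q y T n ^ 2 = ∑ h ∈ Icc 1 T, ∑ h' ∈ Icc 1 T,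
      ∑ n ∈ SS q y Z L, xx P a q y h n * xx P a q y h' n := by
    have e1 : ∀ n, XX P a q y T n ^ 2 = ∑ h ∈ Icc 1 T, ∑ h' ∈ Icc 1 T,
        xx P a q y h n * xx P a q y h' n := by
      intro n
      unfold XX
      rw [sq, sum_mul_sum]
    rw [sum_congr rfl (fun n _ => e1 n), sum_comm]
    apply sum_congr rfl
    intro h _
    rw [sum_comm]
  rw [h1]
  have hdiag : ∀ h ∈ Icc 1 T, ∑ n ∈ SS q y Z L, xx P a q y h n * xx P a q y h n ≤
      (A * 2 ^ R0) ^ 2 * ∑ n ∈ SS q y Z L, rh q y (n + q * h) := by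
    intro h hh
    rw [mem_Icc] at hh
    rw [mul_sum]
    apply sum_le_sum
    intro n hn
    unfold SS at hn
    rw [mem_filter, mem_Ioc] at hn
    have h2 : n + q * h ≤ y ^ R0 := by
      have h3 : q * h ≤ q * T := Nat.mul_le_mul_left q hh.2
      omega
    have h3 := lam_le P a A y R0 (n + q * h) hPy hA (by omega) h2
    have h4 : lam P a (n + q * h) ^ 2 ≤ (A * 2 ^ R0) ^ 2 := by
      rw [← sq_abs]
      exact pow_le_pow_left₀ (abs_nonneg _) h3 2
    unfold xx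
    have h5 : rh q y (n + q * h) * rh q y (n + q * h) = rh q y (n + q * h) := by
      unfold rh
      split_ifs <;> simp
    have h6 : 0 ≤ rh q y (n + q * h) := by
      unfold rh
      split_ifs <;> norm_num
    calc rh q y (n + q * h) * lam P a (n + q * h) * (rh q y (n + q * h) * lam P a (n + q * h)) =
        lam P a (n + q * h) ^ 2 * (rh q y (n + q * h) * rh q y (n + q * h)) := by ring
      _ = lam P a (n + q * h) ^ 2 * rh q y (n + q * h) := by rw [h5]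
      _ ≤ _ := mul_le_mul_of_nonneg_right h4 h6
  have hoff : ∀ h ∈ Icc 1 T, ∀ h' ∈ Icc 1 T, h ≠ h' →
      ∑ n ∈ SS q y Z L, xx P a q y h n * xx P a q y h' n ≤
      L * Vq (QJ Ql q {h, h'}) y * e + √(x : ℝ) * (A * D) ^ 2 := by
    intro h hh h' hh' hne
    rw [mem_Icc] at hh hh'
    have h2 := H b hb x y hy hy1 hyx q T Z L P a A D hTy hP hA hD hsum h h' hne hh.2 hh'.2
    rw [← he] at h2
    exact (le_abs_self _).trans h2
  have h2 : ∀ h ∈ Icc 1 T, ∑ h' ∈ Icc 1 T, ∑ n ∈ SS q y Z L, xx P a q y h n * xx P a q y h' n ≤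
      (A * 2 ^ R0) ^ 2 * ∑ n ∈ SS q y Z L, rh q y (n + q * h) +
      ∑ h' ∈ Icc 1 T, ((if h = h' then 0 else L * Vq (QJ Ql q {h, h'}) y * e) +
        √(x : ℝ) * (A * D) ^ 2) := by
    intro h hh
    have e1 : (A * 2 ^ R0) ^ 2 * ∑ n ∈ SS q y Z L, rh q y (n + q * h) =
        ∑ h' ∈ Icc 1 T, (if h = h' then (A * 2 ^ R0) ^ 2 * ∑ n ∈ SS q y Z L, rh q y (n + q * h) else 0) := by
      rw [sum_ite_eq, if_pos hh]
    rw [e1, ← sum_add_distrib]
    apply sum_le_sum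
    intro h' hh'
    by_cases hne : h = h'
    · subst hne
      rw [if_pos rfl, if_pos rfl]
      have g1 := hdiag h hh
      have g2 : 0 ≤ √(x : ℝ) * (A * D) ^ 2 := by positivity
      linarith
    · rw [if_neg hne, if_neg hne, zero_add]
      exact hoff h hh h' hh' hne
  refine (sum_le_sum h2).trans ?_
  rw [sum_add_distrib, ← mul_sum]
  have e3 : ∑ h ∈ Icc 1 T, ∑ n ∈ SS q y Z L, rh q y (n + q * h) = ∑ n ∈ SS q y Z L, (W Ql q y T n : ℝ) := by
    rw [sum_comm]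
    exact sum_congr rfl fun n _ => (W_rh q y T n).symm
  rw [e3]
  have e4 : ∑ h ∈ Icc 1 T, ∑ h' ∈ Icc 1 T, ((if h = h' then 0 else L * Vq (QJ Ql q {h, h'}) y * e) +
        √(x : ℝ) * (A * D) ^ 2) =
      ∑ h ∈ Icc 1 T, ∑ h' ∈ Icc 1 T, (if h = h' then 0 else L * Vq (QJ Ql q {h, h'}) y * e) +
        (T : ℝ) ^ 2 * (√(x : ℝ) * (A * D) ^ 2) := by
    simp only [sum_add_distrib, sum_const, nsmul_eq_mul, Nat.card_Icc, Nat.add_sub_cancel]
    ring
  rw [e4]
  have h5 := pairs (fun K => L * Vq (QJ Ql q K) y * e) (fun K => by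
    have := Vq_nonneg (QJ Ql q K) y
    positivity) T
  have e5 : ∑ K ∈ powersetCard 2 (Icc 1 T), (L : ℝ) * Vq (QJ Ql q K) y * e =
      L * Vq (Qd Ql q) y * e * ∑ H ∈ powersetCard 2 (Icc 1 T), Vq (QH (Q0 Ql q) H) y := by
    rw [mul_sum]
    apply sum_congr rfl
    intro K _
    rw [Vq_QJ Ql perB_Ql.per]
    ring
  have h6 : ∑ h ∈ Icc 1 T, ∑ h' ∈ Icc 1 T, (if h = h' then 0 else L * Vq (QJ Ql q {h, h'}) y * e) ≤
      2 * (L * Vq (Qd Ql q) y * e * ∑ H ∈ powersetCard 2 (Icc 1 T), Vq (QH (Q0 Ql q) H) y) := by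
    rw [← e5]
    exact h5
  linarith

end Pool.Agent.R490.P3d
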