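import Pool.Agent.R490.P3d

set_option autoImplicit false

/-!
# The moments of the number of sifted values, with relative errors
-/

namespace Pool.Agent.R490.P3e

open Finset Filter
open Pool.Agent.W123.RP Pool.Agent.H373R2.T7 Pool.Agent.W123.RU Pool.Agent.TH464.PO Pool.Agent.TH464.PW
open Pool.Agent.Y879.AP Pool.Agent.R490.Cls Pool.Agent.R490.P3a Pool.Agent.R490.P3b Pool.Agent.R490.P3c
open Pool.Agent.R490.Moms

open Classical in
/-- the binomial moments -/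
theorem momS (k : ℕ) (η : ℝ) (hη : 0 < η) (hη1 : η ≤ 1) :
    ∃ K0 y0 T0 : ℕ, ∀ L y T : ℕ, y0 ≤ y → y ^ K0 ≤ L → T0 ≤ T → ∀ q Z : ℕ,
      |∑ n ∈ SS q y Z L, ((W Ql q y T n).choose (k + 1) : ℝ) -
        L * Vq (Qd Ql q) y * ((T * Vq (Qn Ql q) y) ^ (k + 1) / (k + 1).factorial)| ≤
        η * (L * Vq (Qd Ql q) y) * ((T * Vq (Qn Ql q) y) ^ (k + 1) / (k + 1).factorial) +
          T ^ (k + 1) * √(L : ℝ) := by
  obtain ⟨K0, y0, T0, η', hη', hmom⟩ := Pool.Agent.Y879.AP.moment 1 k le_rfl η hη hη1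
  refine ⟨K0, y0, T0, ?_⟩
  intro L y T hy hyL hT q Z
  have hm := hmom L y T hy hyL hT (Qt Ql Z) q (perB_Qt Ql 1 perB_Ql Z) (fun p hp => by
    rw [nuB_Qt Ql 1 perB_Ql]
    exact adm_Ql p hp) (by
    intro t ht
    have e1 : (pz y).filter (fun p : ℕ => T < p ∧ ¬ p ∣ q ∧ CoG (Qt Ql Z) p (q * t)) = ∅ := by
      rw [Finset.filter_eq_empty_iff]
      rintro p hp ⟨h1, h2, m, h3, h4⟩
      have hpp := (mem_pz.1 hp).2
      unfold Qt at h3 h4
      have h5 : p ∣ q * t := by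
        have e9 : m + q * t + Z = m + Z + q * t := by ring
        rw [e9] at h4
        exact (Nat.dvd_add_right h3).1 h4
      rcases (Nat.Prime.dvd_mul hpp).1 h5 with h | h
      · exact h2 h
      · rw [mem_Icc] at ht
        have := Nat.le_of_dvd (by omega) h
        omega
    rw [e1]
    simp
    positivity)
  rw [Vq_Qn_shift Ql 1 perB_Ql, Vq_Qd_shift Ql 1 perB_Ql] at hm
  have e4 : ∑ n ∈ (Icc 1 L).filter (fun n => Sf (Qd (Qt Ql Z) q) y n),
      ((W (Qt Ql Z) q y T n).choose (k + 1) : ℝ) = ∑ n ∈ SS q y Z L, ((W Ql q y T n).choose (k + 1) : ℝ) := by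
    unfold SS
    symm
    apply sum_shift' Z L _ _ _ _ _ _ (fun n => Iff.rfl)
    intro n
    rw [W_shift]
  rw [← e4]
  convert hm

/-- the number of the classes -/
theorem cardS (η : ℝ) (hη : 0 < η) :
    ∃ K0 y0 : ℕ, ∀ L y : ℕ, y0 ≤ y → y ^ K0 ≤ L → ∀ q Z : ℕ,
      |((SS q y Z L).card : ℝ) - L * Vq (Qd Ql q) y| ≤ η * (L * Vq (Qd Ql q) y) + √(L : ℝ) := by
  classical
  obtain ⟨C0, x0, hC0, H⟩ := cnt_ap 1 le_rfl
  obtain ⟨m, hm⟩ := exists_pow_lt_of_lt_one hη (show (1 / 2 : ℝ) < 1 by norm_num)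
  refine ⟨16 * (C0 * max C0 m), x0, ?_⟩
  intro L y hy hyL q Z
  have h1 := H (max C0 m) (le_max_left _ _) L y hy hyL (Qd Ql q) (perB_Qd Ql 1 perB_Ql q) Z L 1 0 le_rfl (by
    intro p hp hd
    have := (mem_pz.1 hp).2.one_lt
    have := Nat.le_of_dvd one_pos hd
    omega)
  rw [Nat.cast_one, div_one] at h1
  have e1 : (Ioc Z (Z + L)).filter (fun n : ℕ => n ≡ 0 [MOD 1] ∧ Sf (Qd Ql q) y n) = SS q y Z L := by
    unfold SS
    apply filter_congr
    intro n _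
    constructor
    · exact fun h => h.2
    · exact fun h => ⟨Nat.modEq_one, h⟩
  rw [e1] at h1
  refine h1.trans ?_
  apply add_le_add _ le_rfl
  apply mul_le_mul_of_nonneg_right _ (mul_nonneg (Nat.cast_nonneg _) (Vq_nonneg _ _))
  exact (pow_le_pow_of_le_one (by norm_num) (by norm_num) (le_max_right _ _)).trans hm.le

/-- the sum of the pair densities -/
theorem sing2 : ∃ w T0 : ℕ, ∀ T : ℕ, T0 ≤ T → ∀ q y : ℕ, w ≤ y →
    ∑ H ∈ powersetCard 2 (Icc 1 T), Vq (QH (Q0 Ql q) H) y ≤ (T * Vq (Qn Ql q) y) ^ 2 := by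
  classical
  obtain ⟨w, η', T0, hη', hs⟩ := sing_avg 1 1 1 one_pos le_rfl
  refine ⟨w, T0, ?_⟩
  intro T hT q y hy
  have hper0 := perB_Q0 Ql 1 perB_Ql q
  have hadm0 : ∀ p : ℕ, p.Prime → nuB (Q0 Ql q) p < p := by
    intro p hp
    rw [nuB_Q0_Qn Ql perB_Ql.per q p hp]
    exact adm_Qn Ql adm_Ql q p hp
  obtain ⟨s1, s2⟩ := hs T hT (Q0 Ql q) hper0 hadm0 y hy (by
    intro t ht
    have e1 : (pz y).filter (fun p : ℕ => T < p ∧ CoG (Q0 Ql q) p t) = ∅ := by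
      rw [Finset.filter_eq_empty_iff]
      rintro p hp ⟨h1, m, h3, h4⟩
      have hpp := (mem_pz.1 hp).2
      have h5 : p ∣ q * t := by
        have h6 := h4.2
        have h7 := h3.2
        unfold Ql at h6 h7
        rw [mul_add] at h6
        exact (Nat.dvd_add_right h7).1 h6
      rcases (Nat.Prime.dvd_mul hpp).1 h5 with h | h
      · exact h3.1 h
      · rw [mem_Icc] at ht
        have := Nat.le_of_dvd (by omega) h
        omega
    rw [e1]
    simp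
    positivity)
  rw [Vq_Q0 Ql perB_Ql.per] at s2
  norm_num at s2 ⊢
  refine s2.trans (le_of_eq ?_)
  ring

end Pool.Agent.R490.P3e
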