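import Pool.Agent.R490.P3e
import Pool.Agent.Y882.KW.Alm
import Pool.Agent.Y882.KW.Num
import Pool.Agent.W23.SG.Fin2
import Pool.Agent.W378.DC.MP

set_option autoImplicit false

/-!
# The weights: densities and the detection of almost primes
-/

namespace Pool.Agent.R490.P3f

open Finset Filter
open Pool.Agent.W123.RP Pool.Agent.H373R2.T7 Pool.Agent.TH464.PO
open Pool.Agent.Y879.AP Pool.Agent.R490.P3c
open Pool.Agent.W23.DC Pool.Agent.Y882 Pool.Agent.Y882.KW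

open Classical in
/-- the sieving primes -/
noncomputable def PP (q y : ℕ) (u v : ℝ) : Finset ℕ := (pr q u v).filter (fun p => y < p ∧ ¬ p ∣ q)

open Classical in
/-- the densities -/
noncomputable def gg (q y p : ℕ) : ℝ := if y < p ∧ ¬ p ∣ q then 1 / (p : ℝ) else 0

lemma gg_nonneg (q y p : ℕ) : 0 ≤ gg q y p := by
  unfold gg
  split_ifs <;> positivity

lemma PP_mem {q y : ℕ} {u v : ℝ} {p : ℕ} (hp : p ∈ PP q y u v) : p.Prime ∧ y < p ∧ ¬ p ∣ q := by
  unfold PP at hp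
  rw [mem_filter, mem_pr] at hp
  exact ⟨hp.1.2.1, hp.2⟩

lemma VV_gg (q y : ℕ) (u v : ℝ) (c : Finset ℕ → ℝ) :
    VV (pr q u v) c (gg q y) = ∑ U ∈ (PP q y u v).powerset, c U * wt U := by
  classical
  unfold VV
  have hsub : (PP q y u v).powerset ⊆ (pr q u v).powerset := powerset_mono.2 (filter_subset _ _)
  rw [← sum_subset hsub]
  · apply sum_congr rfl
    intro U hU
    rw [mem_powerset] at hU
    congr 1
    unfold wt
    rw [← prod_inv_distrib]
    apply prod_congr rfl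
    intro p hp
    unfold gg
    rw [if_pos (PP_mem (hU hp)).2, one_div]
  · intro U hU hU'
    rw [mem_powerset] at hU hU'
    have : ∃ p ∈ U, p ∉ PP q y u v := by
      by_contra h
      push Not at h
      exact hU' (fun p hp => h p hp)
    obtain ⟨p, hp, hp'⟩ := this
    have h1 : gg q y p = 0 := by
      unfold gg
      rw [if_neg]
      intro h
      exact hp' (by unfold PP; exact mem_filter.2 ⟨hU hp, h⟩)
    rw [prod_eq_zero hp h1, mul_zero]

open Classical in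
lemma VV_ind (q y : ℕ) (u v : ℝ) (c : Finset ℕ → ℝ) (N : ℕ) (hN : ∀ p : ℕ, p.Prime → p ≤ y → ¬ p ∣ N)
    (hNq : N.Coprime q) :
    VV (pr q u v) c (fun p => if p ∣ N then 1 else 0) = lam (PP q y u v) c N := by
  unfold VV lam
  have hsub : (PP q y u v).powerset ⊆ (pr q u v).powerset := powerset_mono.2 (filter_subset _ _)
  rw [← sum_subset hsub]
  · apply sum_congr rfl
    intro U hU
    rw [mem_powerset] at hU
    congr 1
    rw [Pool.Agent.Y882.prod_ind]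
    have h1 : (∀ p ∈ U, p ∣ N) ↔ (∏ p ∈ U, p) ∣ N := by
      constructor
      · intro h
        exact Finset.prod_primes_dvd N (fun p hp => (PP_mem (hU hp)).1.prime) h
      · intro h p hp
        exact (dvd_prod_of_mem (fun p => p) hp).trans h
    by_cases h2 : ∀ p ∈ U, p ∣ N
    · rw [if_pos h2, if_pos (h1.1 h2)]
    · rw [if_neg h2, if_neg (fun h => h2 (h1.2 h))]
  · intro U hU hU'
    rw [mem_powerset] at hU hU'
    have : ∃ p ∈ U, p ∉ PP q y u v := by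
      by_contra h
      push Not at h
      exact hU' (fun p hp => h p hp)
    obtain ⟨p, hp, hp'⟩ := this
    have hpp := (mem_pr.1 (hU hp)).2.1
    have h1 : ¬ p ∣ N := by
      intro hd
      apply hp'
      unfold PP
      rw [mem_filter]
      refine ⟨hU hp, ?_, ?_⟩
      · by_contra h
        exact hN p hpp (by omega) hd
      · intro hq
        have := Nat.dvd_gcd hd hq
        rw [hNq] at this
        exact hpp.one_lt.ne' (Nat.dvd_one.1 this)
    rw [prod_eq_zero hp (if_neg h1), mul_zero]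

lemma Pi1_le (P : Finset ℕ) (_hP : ∀ p ∈ P, p.Prime) : Pi1 P ≤ Real.exp (∑ p ∈ P, 1 / (p : ℝ)) := by
  classical
  have h1 : Pi1 P = ∏ p ∈ P, (1 + 1 / (p : ℝ)) := by
    rw [prod_one_add]
    unfold Pi1
    apply sum_congr rfl
    intro U _
    unfold wt
    rw [← prod_inv_distrib]
    apply prod_congr rfl
    intro p _
    rw [one_div]
  rw [h1, Real.exp_sum]
  apply prod_le_prod (fun _ _ => by positivity)
  intro p _
  linarith [Real.add_one_le_exp (1 / (p : ℝ))]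

lemma y_real (q : ℕ) (r : ℕ) (p : ℕ) (hp : (q : ℝ) ^ (1 / (r : ℝ)) ≤ p) :
    ⌊(q : ℝ) ^ (1 / (r : ℝ))⌋₊ ≤ p := by
  have := Nat.floor_le_floor hp
  rwa [Nat.floor_natCast] at this

/-- Mertens' formula -/
theorem merg (r : ℕ) (hr : 2 ≤ r) (υ η : ℝ) (hυ : υ ≤ 1) (hη : 0 < η) : ∀ᶠ q : ℕ in atTop,
    Mer (pr q (1 / (r : ℝ)) υ) (tt q) (gg q ⌊(q : ℝ) ^ (1 / (r : ℝ))⌋₊) (1 / (r : ℝ)) υ η := by
  classical
  have hrr : (2 : ℝ) ≤ r := by exact_mod_cast hr
  obtain ⟨N0, hN0⟩ := Pool.Agent.W23.SG.merb Pool.Agent.W378.DC.MP (1 / (r : ℝ)) υ (η / 2) (by positivity) hυ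
    (by positivity)
  obtain ⟨M, hM⟩ := exists_nat_ge (16 / η)
  filter_upwards [eventually_ge_atTop N0, eventually_ge_atTop 2, Pool.Agent.R490.Mean.y_ge r hr (max M 4)] with
    q h1 h2 h3
  obtain ⟨y, hy⟩ : ∃ y, y = ⌊(q : ℝ) ^ (1 / (r : ℝ))⌋₊ := ⟨_, rfl⟩
  rw [← hy] at h3 ⊢
  have hy4 : 4 ≤ y := (le_max_right _ _).trans h3
  have hyM : M ≤ y := (le_max_left _ _).trans h3
  have hyr : (4 : ℝ) ≤ y := by exact_mod_cast hy4
  intro a b ha hab hb
  have key := hN0 q h1 q (by omega) (by nlinarith) a b ha hab hb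
  obtain ⟨S, hS⟩ : ∃ S, S = (pr q (1 / (r : ℝ)) υ).filter (fun p => a ≤ tt q p ∧ tt q p < b) := ⟨_, rfl⟩
  obtain ⟨S', hS'⟩ : ∃ S', S' = (Pool.Agent.W23.SG.prb q q (1 / (r : ℝ)) υ).filter
    (fun p => a ≤ tt q p ∧ tt q p < b) := ⟨_, rfl⟩
  rw [← hS'] at key
  rw [← hS]
  have e1 : ∑ p ∈ S, gg q y p = ∑ p ∈ S', gg q y p := by
    symm
    apply sum_subset
    · intro p hp
      rw [hS', mem_filter] at hp
      rw [hS, mem_filter]
      exact ⟨Pool.Agent.W23.SG.prb_sub hp.1, hp.2⟩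
    · intro p hp hp'
      rw [hS, mem_filter] at hp
      unfold gg
      rw [if_neg]
      rintro ⟨_, h⟩
      apply hp'
      rw [hS', mem_filter]
      exact ⟨mem_filter.2 ⟨hp.1, h⟩, hp.2⟩
  rw [e1]
  have hS'p : ∀ p ∈ S', p.Prime ∧ y ≤ p ∧ ¬ p ∣ q ∧ p ≤ q := by
    intro p hp
    rw [hS', mem_filter, Pool.Agent.W23.SG.mem_prb] at hp
    refine ⟨hp.1.1.2.1, ?_, hp.1.2, hp.1.1.1.2⟩
    rw [hy]
    apply y_real
    exact (le_tt_iff h2 hp.1.1.2.1.pos _).1 hp.1.1.2.2.1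
  have hlow : ∑ p ∈ S', gg q y p ≤ ∑ p ∈ S', 1 / ((p : ℝ) - 1) := by
    apply sum_le_sum
    intro p hp
    have h4 := hS'p p hp
    have h5 : (4 : ℝ) ≤ p := by exact_mod_cast hy4.trans h4.2.1
    unfold gg
    split_ifs
    · apply one_div_le_one_div_of_le (by linarith) (by linarith)
    · have : (0 : ℝ) < p - 1 := by linarith
      positivity
  have hup : ∑ p ∈ S', 1 / ((p : ℝ) - 1) ≤ ∑ p ∈ S', gg q y p + η / 2 := by
    have h5 : ∀ p ∈ S', 1 / ((p : ℝ) - 1) ≤ gg q y p + (if p = y then 1 / ((y : ℝ) - 1) else 0) +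
        (if y < p then 2 * ((p : ℝ) ^ 2)⁻¹ else 0) := by
      intro p hp
      obtain ⟨g1, g2, g3, g4⟩ := hS'p p hp
      have hp4 : (4 : ℝ) ≤ p := by exact_mod_cast hy4.trans g2
      rcases Nat.lt_or_eq_of_le g2 with h | h
      · rw [if_neg (by omega), if_pos h, add_zero]
        unfold gg
        rw [if_pos ⟨h, g3⟩]
        rw [div_add' _ _ _ (by positivity), div_le_div_iff₀ (by linarith) (by positivity)]
        have e2 : 2 * ((p : ℝ) ^ 2)⁻¹ * p = 2 / p := by field_simp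
        rw [e2]
        have e3 : (1 + 2 / (p : ℝ)) * (p - 1) = p + 1 - 2 / p := by field_simp; ring
        rw [e3]
        have e4 : 2 / (p : ℝ) ≤ 1 := by rw [div_le_one (by linarith)]; linarith
        linarith
      · rw [if_pos h.symm, if_neg (by omega), add_zero, ← h]
        have := gg_nonneg q y y
        linarith
    refine (sum_le_sum h5).trans ?_
    rw [sum_add_distrib, sum_add_distrib]
    have h6 : ∑ p ∈ S', (if p = y then 1 / ((y : ℝ) - 1) else 0) ≤ 1 / ((y : ℝ) - 1) := by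
      rw [sum_ite_eq']
      split_ifs
      · exact le_rfl
      · have : (0 : ℝ) < y - 1 := by linarith
        positivity
    have h7 : ∑ p ∈ S', (if y < p then 2 * ((p : ℝ) ^ 2)⁻¹ else 0) ≤ 2 / (y : ℝ) := by
      rw [← sum_filter]
      have h8 : ∑ p ∈ S'.filter (fun p => y < p), 2 * ((p : ℝ) ^ 2)⁻¹ ≤
          ∑ p ∈ Ioc y (max y q), 2 * ((p : ℝ) ^ 2)⁻¹ := by
        apply sum_le_sum_of_subset_of_nonneg
        · intro p hp
          rw [mem_filter] at hp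
          rw [mem_Ioc]
          exact ⟨hp.2, ((hS'p p hp.1).2.2.2).trans (le_max_right _ _)⟩
        · intro p _ _
          positivity
      refine h8.trans ?_
      rw [← mul_sum]
      have h9 := sum_Ioc_inv_sq_le_sub (α := ℝ) (k := y) (n := max y q) (by omega) (le_max_left _ _)
      have h10 : (0 : ℝ) ≤ ((max y q : ℕ) : ℝ)⁻¹ := by positivity
      rw [div_eq_mul_inv]
      linarith
    have h8 : 1 / ((y : ℝ) - 1) + 2 / y ≤ η / 2 := by
      have g1 : 1 / ((y : ℝ) - 1) ≤ 2 / y := by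
        rw [div_le_div_iff₀ (by linarith) (by linarith)]
        linarith
      have g2 : 16 / η ≤ y := hM.trans (by exact_mod_cast hyM)
      have g3 : 2 / (y : ℝ) ≤ η / 8 := by
        rw [div_le_iff₀ hη] at g2
        rw [div_le_div_iff₀ (by linarith) (by norm_num)]
        linarith
      linarith
    linarith
  rw [abs_le] at key ⊢
  constructor <;> linarith

open Classical in
/-- a positive weight gives an almost prime -/
theorem detect (q : ℕ) (hq : 2 ≤ q) (r R : ℕ) (ζ υ lm S : ℝ) (hζυ : ζ ≤ υ) (hυ0 : 0 < υ)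
    (hυ1 : υ ≤ 1) (hlam : 0 < lm) (hr : 1 / lm + S / υ ≤ R + 1) (c : Finset ℕ → ℝ) (N : ℕ) (hN0 : N ≠ 0)
    (hNS : (N : ℝ) ≤ (q : ℝ) ^ S)
    (hc : VV (pr q (1 / (r : ℝ)) υ) c (fun p => if p ∣ N then 1 else 0) ≤
      WB q (1 / (r : ℝ)) ζ υ lm (lm / υ) N)
    (hN : ∀ p : ℕ, p.Prime → p ≤ ⌊(q : ℝ) ^ (1 / (r : ℝ))⌋₊ → ¬ p ∣ N) (hNq : N.Coprime q)
    (hpos : 0 < lam (PP q ⌊(q : ℝ) ^ (1 / (r : ℝ))⌋₊ (1 / (r : ℝ)) υ) c N)
    (hsq : ∀ p ∈ pr q ζ υ, ¬ p ^ 2 ∣ N) :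
    N.primeFactorsList.length ≤ R ∧ ∀ p : ℕ, p.Prime → p ∣ N → (q : ℝ) ^ ζ ≤ p := by
  rw [VV_ind q _ _ _ c N hN hNq] at hc
  have hWB : 0 < WB q (1 / (r : ℝ)) ζ υ lm (lm / υ) N := hpos.trans_le hc
  apply almost q hq ζ υ lm S R hζυ hυ0 hυ1 hlam hr N hN0 hNS _ hsq
  unfold WB at hWB
  unfold WW
  have h1 : ∀ p ∈ pr q (1 / (r : ℝ)) ζ, ¬ p ∣ N := by
    by_contra h
    rw [if_neg h, zero_mul] at hWB
    exact lt_irrefl _ hWB
  rw [if_pos h1, one_mul] at hWB
  have h2 : ∀ p ∈ PZ q ζ, ¬ p ∣ N := by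
    intro p hp hd
    unfold PZ at hp
    rw [mem_filter, mem_Icc] at hp
    by_cases h3 : 1 / (r : ℝ) ≤ tt q p
    · exact h1 p (mem_pr.2 ⟨hp.1, hp.2.1, h3, hp.2.2⟩) hd
    · push Not at h3
      have h4 := (Pool.Agent.Y882.tt_lt q p (1 / (r : ℝ)) hq hp.2.1.pos).1 h3
      exact hN p hp.2.1 (Nat.le_floor h4.le) hd
  rw [if_pos h2, one_mul]
  exact hWB

end Pool.Agent.R490.P3f
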