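import Pool.Agent.R490.P3f

set_option autoImplicit false

/-!
# Chebyshev's inequality and the squares of the medium primes
-/

namespace Pool.Agent.R490.P3g

open Finset Filter
open Pool.Agent.W123.RP Pool.Agent.H373R2.T7 Pool.Agent.W123.RU Pool.Agent.TH464.PO Pool.Agent.TH464.PW
open Pool.Agent.Y879.AP Pool.Agent.R490.P3c Pool.Agent.R490.P3d Pool.Agent.R490.P3f
open Pool.Agent.W23.DC Pool.Agent.Y882 Pool.Agent.Y882.KW

open Classical in
/-- few `n` have a multiple of the square of a medium prime among the `n + q h` -/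
theorem sq_count (q T Z L : ℕ) (ζ υ : ℝ) (hq : 2 ≤ q) (h4 : 4 ≤ (q : ℝ) ^ ζ) (hL : (q : ℝ) ^ (2 * υ) ≤ L) :
    (((Ioc Z (Z + L)).filter (fun n => ∃ h ∈ Icc 1 T, ∃ p ∈ pr q ζ υ, p ^ 2 ∣ n + q * h)).card : ℝ) ≤
      T * (4 * L / (q : ℝ) ^ ζ) := by
  have hq0 : (0 : ℝ) < q := by exact_mod_cast (by omega : 0 < q)
  have hL0 : (0 : ℝ) < L := lt_of_lt_of_le (by positivity) hL
  have h1 : (((Ioc Z (Z + L)).filter (fun n => ∃ h ∈ Icc 1 T, ∃ p ∈ pr q ζ υ, p ^ 2 ∣ n + q * h)).card : ℝ) ≤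
      ∑ h ∈ Icc 1 T, ∑ p ∈ pr q ζ υ, (((Ioc Z (Z + L)).filter (fun n => p ^ 2 ∣ n + q * h)).card : ℝ) := by
    have h2 : (Ioc Z (Z + L)).filter (fun n => ∃ h ∈ Icc 1 T, ∃ p ∈ pr q ζ υ, p ^ 2 ∣ n + q * h) ⊆
        (Icc 1 T).biUnion (fun h => (pr q ζ υ).biUnion (fun p =>
          (Ioc Z (Z + L)).filter (fun n => p ^ 2 ∣ n + q * h))) := by
      intro n hn
      rw [mem_filter] at hn
      obtain ⟨hn, h, hh, p, hp, hd⟩ := hn
      rw [mem_biUnion]
      refine ⟨h, hh, ?_⟩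
      rw [mem_biUnion]
      exact ⟨p, hp, mem_filter.2 ⟨hn, hd⟩⟩
    have h3 := (card_le_card h2).trans card_biUnion_le
    have h4 : ∑ h ∈ Icc 1 T, ((pr q ζ υ).biUnion (fun p =>
          (Ioc Z (Z + L)).filter (fun n => p ^ 2 ∣ n + q * h))).card ≤
        ∑ h ∈ Icc 1 T, ∑ p ∈ pr q ζ υ, ((Ioc Z (Z + L)).filter (fun n => p ^ 2 ∣ n + q * h)).card :=
      sum_le_sum fun h _ => card_biUnion_le
    exact_mod_cast h3.trans h4
  refine h1.trans ?_
  have h5 : ∀ h ∈ Icc 1 T, ∑ p ∈ pr q ζ υ, (((Ioc Z (Z + L)).filter (fun n => p ^ 2 ∣ n + q * h)).card : ℝ) ≤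
      4 * L / (q : ℝ) ^ ζ := by
    intro h _
    have h6 : ∀ p ∈ pr q ζ υ, (((Ioc Z (Z + L)).filter (fun n => p ^ 2 ∣ n + q * h)).card : ℝ) ≤
        2 * L * ((p : ℝ) ^ 2)⁻¹ := by
      intro p hp
      have hpp := (mem_pr.1 hp).2.1
      have hp0 : (0 : ℝ) < p := by exact_mod_cast hpp.pos
      have e1 : ((Ioc Z (Z + L)).filter (fun n => p ^ 2 ∣ n + q * h)).card ≤
          ((Ioc (Z + q * h) (Z + q * h + L)).filter (fun n => p ^ 2 ∣ n)).card := by
        apply card_le_card_of_injOn (fun n => n + q * h)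
        · intro n hn
          rw [mem_coe, mem_filter, mem_Ioc] at hn
          rw [mem_coe, mem_filter, mem_Ioc]
          obtain ⟨⟨a1, a2⟩, a3⟩ := hn
          refine ⟨?_, a3⟩
          show Z + q * h < n + q * h ∧ n + q * h ≤ Z + q * h + L
          constructor <;> omega
        · intro a _ b _ hab
          simp only at hab
          omega
      have e2 := card_mult (Z + q * h) L (p ^ 2) (pow_pos hpp.pos 2)
      have e3 : (((Ioc Z (Z + L)).filter (fun n => p ^ 2 ∣ n + q * h)).card : ℝ) ≤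
          ((Ioc (Z + q * h) (Z + q * h + L)).filter (fun n => p ^ 2 ∣ n)).card := by exact_mod_cast e1
      push_cast at e2
      have e4 : (p : ℝ) ^ 2 ≤ L := by
        refine le_trans ?_ hL
        have e5 := (Pool.Agent.Y882.tt_lt q p υ hq hpp.pos).1 (mem_pr.1 hp).2.2.2
        calc (p : ℝ) ^ 2 ≤ ((q : ℝ) ^ υ) ^ 2 := pow_le_pow_left₀ hp0.le e5.le 2
          _ = (q : ℝ) ^ (2 * υ) := by
              rw [← Real.rpow_natCast, ← Real.rpow_mul hq0.le]
              congr 1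
              push_cast
              ring
      have e5 : 1 ≤ (L : ℝ) / (p : ℝ) ^ 2 := by
        rw [le_div_iff₀ (by positivity), one_mul]
        exact e4
      calc _ ≤ _ := e3
        _ ≤ (L : ℝ) / (p : ℝ) ^ 2 + 1 := e2
        _ ≤ (L : ℝ) / (p : ℝ) ^ 2 + (L : ℝ) / (p : ℝ) ^ 2 := by linarith
        _ = _ := by rw [div_eq_mul_inv]; ring
    refine (sum_le_sum h6).trans ?_
    rw [← mul_sum]
    obtain ⟨k, hk⟩ : ∃ k, k = ⌊(q : ℝ) ^ ζ⌋₊ := ⟨_, rfl⟩
    have hk1 : (q : ℝ) ^ ζ < k + 1 := by rw [hk]; exact Nat.lt_floor_add_one _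
    have hk4 : 4 ≤ k := by rw [hk]; exact Nat.le_floor (by exact_mod_cast h4)
    have h7 : ∑ p ∈ pr q ζ υ, ((p : ℝ) ^ 2)⁻¹ ≤ ∑ p ∈ Ioc (k - 1) (max (k - 1) q), ((p : ℝ) ^ 2)⁻¹ := by
      apply sum_le_sum_of_subset_of_nonneg
      · intro p hp
        have hp' := mem_pr.1 hp
        rw [mem_Ioc]
        refine ⟨?_, hp'.1.2.trans (le_max_right _ _)⟩
        have e6 := (le_tt_iff hq hp'.2.1.pos _).1 hp'.2.2.1
        have e7 := Nat.floor_le_floor e6
        rw [Nat.floor_natCast, ← hk] at e7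
        omega
      · intro p _ _
        positivity
    have h8 := sum_Ioc_inv_sq_le_sub (α := ℝ) (k := k - 1) (n := max (k - 1) q) (by omega) (le_max_left _ _)
    have h9 : (0 : ℝ) ≤ ((max (k - 1) q : ℕ) : ℝ)⁻¹ := by positivity
    have h10 : ((k - 1 : ℕ) : ℝ)⁻¹ ≤ 2 / (q : ℝ) ^ ζ := by
      have e8 : ((k - 1 : ℕ) : ℝ) = (k : ℝ) - 1 := by
        rw [Nat.cast_sub (by omega)]
        simp
      have e9 : (4 : ℝ) ≤ k := by exact_mod_cast hk4
      rw [e8, inv_eq_one_div, div_le_div_iff₀ (by linarith) (by linarith)]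
      linarith
    have h11 : ∑ p ∈ pr q ζ υ, ((p : ℝ) ^ 2)⁻¹ ≤ 2 / (q : ℝ) ^ ζ := by linarith
    calc 2 * (L : ℝ) * ∑ p ∈ pr q ζ υ, ((p : ℝ) ^ 2)⁻¹ ≤ 2 * L * (2 / (q : ℝ) ^ ζ) :=
          mul_le_mul_of_nonneg_left h11 (by positivity)
      _ = _ := by ring
  refine (sum_le_card_nsmul _ _ _ h5).trans ?_
  rw [nsmul_eq_mul, Nat.card_Icc, Nat.add_sub_cancel]

/-- the variance -/
theorem variance (S : Finset ℕ) (w : ℕ → ℕ) (B x η E : ℝ) (hx : 1 ≤ x) (hη : 0 < η) (hη1 : η ≤ 1) (hB : 0 ≤ B)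
    (hE : (1 + x) ^ 2 * E ≤ η * B) (hE0 : 0 ≤ E)
    (h0 : |(S.card : ℝ) - B| ≤ η * B + E)
    (h1 : |∑ n ∈ S, (w n : ℝ) - B * x| ≤ η * B * x + E)
    (h2 : |∑ n ∈ S, ((w n).choose 2 : ℝ) - B * (x ^ 2 / 2)| ≤ η * B * (x ^ 2 / 2) + E) :
    ∑ n ∈ S, ((w n : ℝ) - x) ^ 2 ≤ B * (7 * η * x ^ 2 + 2 * x) ∧ ∑ n ∈ S, (w n : ℝ) ≤ 3 * (B * x) := by
  obtain ⟨A2, hA2⟩ : ∃ A2, A2 = ∑ n ∈ S, ((w n).choose 2 : ℝ) := ⟨_, rfl⟩
  obtain ⟨A1, hA1⟩ : ∃ A1, A1 = ∑ n ∈ S, (w n : ℝ) := ⟨_, rfl⟩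
  obtain ⟨A0, hA0⟩ : ∃ A0 : ℝ, A0 = S.card := ⟨_, rfl⟩
  have e1 : ∀ n, ((w n : ℝ) - x) ^ 2 = 2 * ((w n).choose 2 : ℝ) + (1 - 2 * x) * (w n : ℝ) + x ^ 2 := by
    intro n
    rw [Nat.cast_choose_two]
    ring
  have e2 : ∑ n ∈ S, ((w n : ℝ) - x) ^ 2 = 2 * A2 + (1 - 2 * x) * A1 + A0 * x ^ 2 := by
    simp only [e1]
    rw [sum_add_distrib, sum_add_distrib, ← mul_sum, ← mul_sum, sum_const, nsmul_eq_mul, hA2, hA1, hA0]
  rw [← hA0] at h0
  rw [← hA1] at h1 ⊢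
  rw [← hA2] at h2
  rw [e2]
  rw [abs_le] at h0 h1 h2
  have hE1 : E ≤ η * B := by
    have : 1 * E ≤ (1 + x) ^ 2 * E := mul_le_mul_of_nonneg_right (by nlinarith) hE0
    linarith
  have hηB : η * B ≤ B := by nlinarith
  have hBx : B ≤ B * x := le_mul_of_one_le_right hB hx
  constructor
  · have g1 : 2 * A2 ≤ B * x ^ 2 + η * B * x ^ 2 + 2 * E := by linarith [h2.2]
    have g2 : (1 - 2 * x) * A1 ≤ (1 - 2 * x) * (B * x - η * B * x - E) := by
      apply mul_le_mul_of_nonpos_left _ (by linarith)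
      linarith [h1.1]
    have g3 : A0 * x ^ 2 ≤ (B + η * B + E) * x ^ 2 := by
      apply mul_le_mul_of_nonneg_right _ (by positivity)
      linarith [h0.2]
    have g4 : (1 - 2 * x) * (B * x - η * B * x - E) =
        B * x - η * B * x - E - 2 * B * x ^ 2 + 2 * η * B * x ^ 2 + 2 * x * E := by ring
    have g5 : (B + η * B + E) * x ^ 2 = B * x ^ 2 + η * B * x ^ 2 + E * x ^ 2 := by ring
    have g6 : (1 + x) ^ 2 * E = E + 2 * x * E + E * x ^ 2 := by ring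
    have g7 : η * B ≤ η * B * x ^ 2 := le_mul_of_one_le_right (by positivity) (by nlinarith)
    have g8 : 0 ≤ η * B * x := by positivity
    have g9 : B * (7 * η * x ^ 2 + 2 * x) = 7 * (η * B * x ^ 2) + 2 * (B * x) := by ring
    have g10 : 0 ≤ B * x := by positivity
    rw [g9]
    nlinarith
  · have g1 : η * B * x ≤ B * x := by
      apply mul_le_mul_of_nonneg_right hηB (by linarith)
    linarith [h1.2]

/-- Chebyshev's inequality -/
lemma cheb (S : Finset ℕ) (f : ℕ → ℝ) (t : ℝ) (ht : 0 < t) (p : ℕ → Prop) [DecidablePred p]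
    (hp : ∀ n ∈ S, p n → t ≤ f n ^ 2) : ((S.filter p).card : ℝ) ≤ (∑ n ∈ S, f n ^ 2) / t := by
  rw [le_div_iff₀ ht]
  calc ((S.filter p).card : ℝ) * t = ∑ n ∈ S.filter p, t := by rw [sum_const, nsmul_eq_mul]
    _ ≤ ∑ n ∈ S.filter p, f n ^ 2 := sum_le_sum fun n hn => hp n (mem_filter.1 hn).1 (mem_filter.1 hn).2
    _ ≤ ∑ n ∈ S, f n ^ 2 := sum_le_sum_of_subset_of_nonneg (filter_subset _ _) (fun _ _ _ => sq_nonneg _)

lemma WB_le_one (Y : ℕ) (ε₁ ζ υ a b : ℝ) (hb : 0 ≤ b) (hab : b * υ ≤ a) (N : ℕ) :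
    WB Y ε₁ ζ υ a b N ≤ 1 := by
  have hS0 : 0 ≤ ∑ q ∈ pr Y ζ υ, (a - b * tt Y q) * (if q ∣ N then (1 : ℝ) else 0) := by
    apply sum_nonneg
    intro q hq
    have hq' := mem_pr.1 hq
    have h6 : b * tt Y q ≤ b * υ := mul_le_mul_of_nonneg_left hq'.2.2.2.le hb
    apply mul_nonneg (by linarith)
    split_ifs <;> norm_num
  unfold WB
  split_ifs
  · linarith
  · linarith

open Classical in
/-- the `h` such that `n + q h` is an almost prime -/
noncomputable def Good (q R T n : ℕ) (ζ : ℝ) : Finset ℕ :=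
  (Icc 1 T).filter (fun h =>
    (n + q * h).primeFactorsList.length ≤ R ∧ ∀ p : ℕ, p.Prime → p ∣ n + q * h → (q : ℝ) ^ ζ ≤ p)

open Classical in
/-- the exceptional `n` -/
noncomputable def Bad (q R T Z L : ℕ) (ζ t : ℝ) : Finset ℕ :=
  (Ioc Z (Z + L)).filter (fun n => n.Coprime q ∧ ((Good q R T n ζ).card : ℝ) < t)

open Classical in
/-- the exceptional `n` are in one of three sets -/
theorem bad_sub (q : ℕ) (hq : 2 ≤ q) (r R y T Z L : ℕ) (hy : y = ⌊(q : ℝ) ^ (1 / (r : ℝ))⌋₊)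
    (ζ υ lm S : ℝ) (hζυ : ζ ≤ υ) (hυ0 : 0 < υ)
    (hυ1 : υ ≤ 1) (hlam : 0 < lm) (hr : 1 / lm + S / υ ≤ R + 1) (c : Finset ℕ → ℝ) (κ x t : ℝ) (hκ : 0 < κ)
    (ht : t ≤ κ * (x / 4))
    (hc : ∀ N : ℕ, VV (pr q (1 / (r : ℝ)) υ) c (fun p => if p ∣ N then 1 else 0) ≤
      WB q (1 / (r : ℝ)) ζ υ lm (lm / υ) N)
    (hS : ((Z + L + q * T : ℕ) : ℝ) ≤ (q : ℝ) ^ S) :
    Bad q R T Z L ζ t ⊆
      (Ioc Z (Z + L)).filter (fun n => ∃ h ∈ Icc 1 T, ∃ p ∈ pr q ζ υ, p ^ 2 ∣ n + q * h) ∪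
      ((SS q y Z L).filter (fun n => (W Ql q y T n : ℝ) ≤ x / 2) ∪
       (SS q y Z L).filter (fun n => κ * (x / 4) ≤ |XX (PP q y (1 / (r : ℝ)) υ)
         (fun U => c U - if U = ∅ then κ else 0) q y T n|)) := by
  intro n hn
  unfold Bad at hn
  rw [mem_filter] at hn
  obtain ⟨hn1, hncop, hbad⟩ := hn
  rw [mem_union, mem_union]
  by_cases hsq : ∃ h ∈ Icc 1 T, ∃ p ∈ pr q ζ υ, p ^ 2 ∣ n + q * h
  · left
    exact mem_filter.2 ⟨hn1, hsq⟩
  right
  have hSS : n ∈ SS q y Z L := by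
    unfold SS
    rw [mem_filter]
    exact ⟨hn1, sf_of_coprime q y n hncop⟩
  by_cases hW : (W Ql q y T n : ℝ) ≤ x / 2
  · left
    exact mem_filter.2 ⟨hSS, hW⟩
  right
  rw [mem_filter]
  refine ⟨hSS, ?_⟩
  push Not at hW
  obtain ⟨P, hP⟩ : ∃ P, P = PP q y (1 / (r : ℝ)) υ := ⟨_, rfl⟩
  rw [← hP]
  have hlam : ∀ m, lam P (fun U => c U - if U = ∅ then κ else 0) m = lam P c m - κ := by
    intro m
    unfold lam
    have e1 : ∀ U ∈ P.powerset, (c U - if U = ∅ then κ else 0) * (if (∏ p ∈ U, p) ∣ m then (1 : ℝ) else 0) =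
        c U * (if (∏ p ∈ U, p) ∣ m then (1 : ℝ) else 0) - (if U = ∅ then κ else 0) := by
      intro U _
      by_cases h : U = ∅
      · subst h
        simp
      · rw [if_neg h, sub_zero, sub_zero]
    rw [sum_congr rfl e1, sum_sub_distrib, sum_ite_eq', if_pos (empty_mem_powerset P)]
  have hkey : ∀ h ∈ Icc 1 T, xx P (fun U => c U - if U = ∅ then κ else 0) q y h n ≤
      (if (n + q * h).primeFactorsList.length ≤ R ∧
        ∀ p : ℕ, p.Prime → p ∣ n + q * h → (q : ℝ) ^ ζ ≤ p then (1 : ℝ) else 0) +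
      -κ * rh q y (n + q * h) := by
    intro h hh
    unfold xx
    rw [hlam]
    by_cases hr1 : Sf (Qn Ql q) y (n + q * h)
    · have e1 : rh q y (n + q * h) = 1 := by unfold rh; rw [if_pos hr1]
      rw [e1, one_mul, mul_one]
      have hNq : (n + q * h).Coprime q := by
        rw [Nat.coprime_add_mul_left_left]
        exact hncop
      have hNy : ∀ p : ℕ, p.Prime → p ≤ y → ¬ p ∣ n + q * h := by
        intro p hp hpy hd
        by_cases hpq : p ∣ q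
        · have := Nat.dvd_gcd hd hpq
          rw [hNq] at this
          exact hp.one_lt.ne' (Nat.dvd_one.1 this)
        · exact hr1 p (mem_pz.2 ⟨hpy, hp⟩) ⟨hpq, hd⟩
      have h3 : lam P c (n + q * h) ≤ 1 := by
        have h4 := hc (n + q * h)
        rw [VV_ind q y _ _ c _ hNy hNq, ← hP] at h4
        refine h4.trans (WB_le_one q _ ζ υ lm (lm / υ) (by positivity) ?_ _)
        rw [div_mul_cancel₀ _ hυ0.ne']
      by_cases hpos : 0 < lam P c (n + q * h)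
      · have hdet : (n + q * h).primeFactorsList.length ≤ R ∧
            ∀ p : ℕ, p.Prime → p ∣ n + q * h → (q : ℝ) ^ ζ ≤ p := by
          rw [mem_Ioc] at hn1
          rw [mem_Icc] at hh
          apply detect q hq r R ζ υ lm S hζυ hυ0 hυ1 ‹0 < lm› hr c (n + q * h) (by omega)
          · refine le_trans ?_ hS
            have h3 : n + q * h ≤ Z + L + q * T := by
              have := Nat.mul_le_mul_left q hh.2
              omega
            exact_mod_cast h3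
          · exact hc _
          · rw [← hy]
            exact hNy
          · exact hNq
          · rw [← hy, ← hP]
            exact hpos
          · intro p hp hd
            exact hsq ⟨h, mem_Icc.2 hh, p, hp, hd⟩
        rw [if_pos hdet]
        linarith
      · push Not at hpos
        have h5 : (0 : ℝ) ≤ (if (n + q * h).primeFactorsList.length ≤ R ∧
            ∀ p : ℕ, p.Prime → p ∣ n + q * h → (q : ℝ) ^ ζ ≤ p then (1 : ℝ) else 0) := by
          split_ifs <;> norm_num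
        linarith
    · have e1 : rh q y (n + q * h) = 0 := by unfold rh; rw [if_neg hr1]
      rw [e1, zero_mul, mul_zero, add_zero]
      split_ifs <;> norm_num
  have h1 : XX P (fun U => c U - if U = ∅ then κ else 0) q y T n ≤
      ((Good q R T n ζ).card : ℝ) + -κ * W Ql q y T n := by
    unfold XX
    refine (sum_le_sum hkey).trans ?_
    rw [sum_add_distrib, ← mul_sum, W_rh]
    apply add_le_add _ le_rfl
    unfold Good
    rw [card_filter]
    push_cast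
    exact le_rfl
  have h2 : κ * (x / 2) ≤ κ * W Ql q y T n := mul_le_mul_of_nonneg_left hW.le hκ.le
  rw [le_abs]
  right
  linarith

end Pool.Agent.R490.P3g
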