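import Pool.Agent.R490.P3g

set_option autoImplicit false

/-!
# Almost primes in almost all classes: the assembly
-/

namespace Pool.Agent.R490.P3h

open Finset Filter
open Pool.Agent.W123.RP Pool.Agent.H373R2.T7 Pool.Agent.W123.RU Pool.Agent.TH464.PO Pool.Agent.TH464.PW
open Pool.Agent.Y879.AP Pool.Agent.R490.Cls Pool.Agent.R490.Mean
open Pool.Agent.R490.P3c Pool.Agent.R490.P3d Pool.Agent.R490.P3e Pool.Agent.R490.P3f Pool.Agent.R490.P3g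
open Pool.Agent.W23.DC Pool.Agent.Y882 Pool.Agent.Y882.KW

lemma sqrt_xx (q r C0 m G0 : ℕ) (γ : ℝ) (hq : 1 ≤ q) (hγ : 0 < γ) (hr : r = G0 * m) (hm : 1 ≤ m)
    (hG : 1 ≤ G0) (hG0 : 16 * C0 / γ ≤ G0) :
    √(((⌊(q : ℝ) ^ (1 / (r : ℝ))⌋₊ ^ (16 * (C0 * m)) : ℕ) : ℝ)) ≤ (q : ℝ) ^ (γ / 2) := by
  have hq1 : (1 : ℝ) ≤ q := by exact_mod_cast hq
  obtain ⟨y, hy⟩ : ∃ y, y = ⌊(q : ℝ) ^ (1 / (r : ℝ))⌋₊ := ⟨_, rfl⟩
  rw [← hy]
  have hyq : (y : ℝ) ≤ (q : ℝ) ^ (1 / (r : ℝ)) := by rw [hy]; exact Nat.floor_le (by positivity)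
  have hm0 : (0 : ℝ) < m := by exact_mod_cast hm
  have hG0' : (0 : ℝ) < G0 := by exact_mod_cast hG
  have hrr : (r : ℝ) = G0 * m := by rw [hr]; push_cast; ring
  have h1 : ((y ^ (16 * (C0 * m)) : ℕ) : ℝ) = ((y : ℝ) ^ (8 * (C0 * m))) ^ 2 := by
    push_cast
    rw [← pow_mul]
    congr 1
    ring
  rw [h1, Real.sqrt_sq (by positivity)]
  calc (y : ℝ) ^ (8 * (C0 * m)) ≤ ((q : ℝ) ^ (1 / (r : ℝ))) ^ (8 * (C0 * m)) :=
        pow_le_pow_left₀ (by positivity) hyq _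
    _ = (q : ℝ) ^ (1 / (r : ℝ) * (8 * (C0 * m) : ℕ)) := by
        rw [← Real.rpow_natCast, ← Real.rpow_mul (by linarith)]
    _ ≤ (q : ℝ) ^ (γ / 2) := by
        apply Real.rpow_le_rpow_of_exponent_le hq1
        rw [hrr]
        push_cast
        have h2 : 1 / ((G0 : ℝ) * m) * (8 * (C0 * m)) = 8 * C0 / G0 := by
          field_simp
        rw [h2, div_le_div_iff₀ hG0' (by norm_num)]
        rw [div_le_iff₀ hγ] at hG0
        linarith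

/-- the final computation -/
lemma fin_alg (s1 s2 s3 B x κ κ0 Q1 e err ε η N : ℝ) (hB : 0 ≤ B) (hx : 0 < x) (hκ0 : 0 < κ0)
    (hκ : κ0 ≤ κ) (hε : 0 < ε) (hQ1 : 0 ≤ Q1) (he : 0 ≤ e)
    (h1 : s1 ≤ ε / 20 * B) (h2 : s2 ≤ (B * (7 * η * x ^ 2 + 2 * x)) / (x / 2) ^ 2)
    (h3 : s3 ≤ (Q1 * (3 * (B * x)) + 2 * (B * e * x ^ 2) + err) / (κ * (x / 4)) ^ 2)
    (hη : 28 * η ≤ ε / 20) (hx1 : 8 / x ≤ ε / 20) (hx2 : 48 * Q1 / (κ0 ^ 2 * x) ≤ ε / 20)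
    (he2 : 32 * e / κ0 ^ 2 ≤ ε / 10) (herr : 16 * err / (κ0 ^ 2 * x ^ 2) ≤ ε / 20 * B) (herr0 : 0 ≤ err)
    (hBN : B ≤ 2 * N) : s1 + (s2 + s3) ≤ ε * N := by
  have hκp : 0 < κ := by linarith
  have hκ2 : κ0 ^ 2 ≤ κ ^ 2 := pow_le_pow_left₀ hκ0.le hκ 2
  have g2 : s2 ≤ (28 * η + 8 / x) * B := by
    refine h2.trans (le_of_eq ?_)
    field_simp
    ring
  have g3 : s3 ≤ 48 * Q1 / (κ0 ^ 2 * x) * B + 32 * e / κ0 ^ 2 * B + 16 * err / (κ0 ^ 2 * x ^ 2) := by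
    refine h3.trans ?_
    have e1 : (Q1 * (3 * (B * x)) + 2 * (B * e * x ^ 2) + err) / (κ * (x / 4)) ^ 2 =
        (48 * Q1 * (B * x) + 32 * (B * e * x ^ 2) + 16 * err) / (κ ^ 2 * x ^ 2) := by
      field_simp
      ring
    have e2 : 48 * Q1 / (κ0 ^ 2 * x) * B + 32 * e / κ0 ^ 2 * B + 16 * err / (κ0 ^ 2 * x ^ 2) =
        (48 * Q1 * (B * x) + 32 * (B * e * x ^ 2) + 16 * err) / (κ0 ^ 2 * x ^ 2) := by
      field_simp
    rw [e1, e2]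
    apply div_le_div_of_nonneg_left _ (by positivity)
    · exact mul_le_mul_of_nonneg_right hκ2 (by positivity)
    · positivity
  have a1 : (28 * η + 8 / x) * B ≤ (ε / 20 + ε / 20) * B :=
    mul_le_mul_of_nonneg_right (by linarith) hB
  have a2 : 48 * Q1 / (κ0 ^ 2 * x) * B ≤ ε / 20 * B := mul_le_mul_of_nonneg_right hx2 hB
  have a3 : 32 * e / κ0 ^ 2 * B ≤ ε / 10 * B := mul_le_mul_of_nonneg_right he2 hB
  have a4 : ε * B ≤ ε * (2 * N) := mul_le_mul_of_nonneg_left hBN hε.le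
  have a5 : 0 ≤ ε * B := by positivity
  linarith

/-- the choice of the sieving limit -/
lemma choose_m (K : ℝ) (hK : 0 < K) (δ : ℝ) (hδ : 0 < δ) (m0 : ℕ) : ∃ m : ℕ, m0 ≤ m ∧
    K * ((m : ℝ) ^ 6 * (1 / 2) ^ m) ≤ δ := by
  have h1 := tendsto_pow_const_mul_const_pow_of_abs_lt_one 6 (r := (1 / 2 : ℝ)) (by
    rw [abs_of_pos] <;> norm_num)
  have h2 := h1.const_mul K
  rw [mul_zero] at h2
  obtain ⟨m, h3, h4⟩ := ((h2.eventually_le_const hδ).and (eventually_ge_atTop m0)).exists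
  exact ⟨m, h4, h3⟩

/-- the sum over the sieving primes -/
lemma sumP (q y r : ℕ) (hr : 2 ≤ r) (υ : ℝ) (hυ1 : υ ≤ 1) (hrυ : 1 / (r : ℝ) ≤ υ)
    (hM : Mer (pr q (1 / (r : ℝ)) υ) (tt q) (gg q y) (1 / (r : ℝ)) υ 1) :
    ∑ p ∈ PP q y (1 / (r : ℝ)) υ, 1 / (p : ℝ) ≤ r ∧ Pi1 (PP q y (1 / (r : ℝ)) υ) ≤ 3 * r := by
  classical
  have hr0 : (0 : ℝ) < r := by exact_mod_cast (by omega : 0 < r)
  have h1 := hM (1 / (r : ℝ)) υ le_rfl hrυ le_rfl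
  have e1 : (pr q (1 / (r : ℝ)) υ).filter (fun p => 1 / (r : ℝ) ≤ tt q p ∧ tt q p < υ) =
      pr q (1 / (r : ℝ)) υ := pr_sub q _ _ _ _ le_rfl le_rfl
  rw [e1] at h1
  have e2 : ∑ p ∈ pr q (1 / (r : ℝ)) υ, gg q y p = ∑ p ∈ PP q y (1 / (r : ℝ)) υ, 1 / (p : ℝ) := by
    unfold PP
    rw [sum_filter]
    rfl
  rw [e2, abs_le] at h1
  have h2 : Real.log (υ / (1 / (r : ℝ))) ≤ Real.log r := by
    apply Real.log_le_log
    · have : 0 < υ := lt_of_lt_of_le (by positivity) hrυ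
      positivity
    · rw [div_div_eq_mul_div, div_one]
      exact mul_le_of_le_one_left hr0.le hυ1
  have h3 : Real.log r ≤ r - 1 := Real.log_le_sub_one_of_pos hr0
  refine ⟨by linarith [h1.2], ?_⟩
  refine (Pi1_le _ (fun p hp => (PP_mem hp).1)).trans ?_
  calc Real.exp (∑ p ∈ PP q y (1 / (r : ℝ)) υ, 1 / (p : ℝ)) ≤ Real.exp (1 + Real.log r) :=
        Real.exp_le_exp.2 (by linarith [h1.2])
    _ = Real.exp 1 * r := by rw [Real.exp_add, Real.exp_log hr0]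
    _ ≤ 3 * r := by
        apply mul_le_mul_of_nonneg_right _ hr0.le
        linarith [Real.exp_one_lt_d9]

end Pool.Agent.R490.P3h
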