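import Pool.Agent.R490.P3h

set_option autoImplicit false

/-!
# Almost primes in almost all classes of every modulus: estimates
-/

namespace Pool.Agent.R490.P3i

open Finset Filter
open Pool.Agent.W123.RP Pool.Agent.H373R2.T7 Pool.Agent.W123.RU Pool.Agent.TH464.PO Pool.Agent.TH464.PW
open Pool.Agent.Y879.AP Pool.Agent.R490.Cls Pool.Agent.R490.Mean
open Pool.Agent.R490.P3c Pool.Agent.R490.P3d Pool.Agent.R490.P3e Pool.Agent.R490.P3f Pool.Agent.R490.P3g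
open Pool.Agent.R490.P3h
open Pool.Agent.W23.DC Pool.Agent.Y882 Pool.Agent.Y882.KW

lemma est_T (T : ℝ) (c X2 lq : ℝ) (hT : 0 ≤ T) (hTlog : T ≤ X2 / c * lq) :
    T ^ 2 ≤ (X2 / c) ^ 2 * lq ^ 2 := by
  rw [← mul_pow]
  exact pow_le_pow_left₀ hT hTlog 2

/-- the error of the moments -/
lemma est_E (T c X2 x η B lq sL M : ℝ) (hc : 0 < c) (hη : 0 < η) (hx1 : 1 ≤ X2) (hx : 0 < x)
    (hx2 : x ≤ X2) (hlq : 1 ≤ lq) (hT : 0 ≤ T) (hTlog : T ≤ X2 / c * lq) (hsL : 0 < sL)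
    (hB : sL * sL * (c / lq) ≤ B) (hM : M = (1 + X2) ^ 2 * (X2 / c) ^ 2 / (η * c))
    (hE8 : M * lq ^ 3 ≤ sL) : (1 + x) ^ 2 * (T ^ 2 * sL) ≤ η * B := by
  have hlq0 : 0 < lq := by linarith
  have hx10 : 0 < X2 := by linarith
  have a1 : (1 + x) ^ 2 ≤ (1 + X2) ^ 2 := pow_le_pow_left₀ (by linarith) (by linarith) 2
  have hT2 := est_T T c X2 lq hT hTlog
  have a2 : (1 + x) ^ 2 * (T ^ 2 * sL) ≤ (1 + X2) ^ 2 * ((X2 / c) ^ 2 * lq ^ 2 * sL) :=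
    mul_le_mul a1 (mul_le_mul_of_nonneg_right hT2 hsL.le) (by positivity) (by positivity)
  refine a2.trans ?_
  refine le_trans ?_ (mul_le_mul_of_nonneg_left hB hη.le)
  calc (1 + X2) ^ 2 * ((X2 / c) ^ 2 * lq ^ 2 * sL) =
      η * (sL * (c / lq)) * (M * lq ^ 3) := by
        rw [hM]
        field_simp
    _ ≤ η * (sL * (c / lq)) * sL := mul_le_mul_of_nonneg_left hE8 (by positivity)
    _ = η * (sL * sL * (c / lq)) := by ring

/-- the squares -/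
lemma est_sq (T c X2 B lq L qζ ε M : ℝ) (hc : 0 < c) (hx1 : 1 ≤ X2) (hε : 0 < ε)
    (hlq : 1 ≤ lq) (hTlog : T ≤ X2 / c * lq) (hL : 0 < L) (hqζ : 0 < qζ)
    (hB : L * (c / lq) ≤ B) (hM : M = (X2 / c) * 4 * (20 / (ε * c))) (hE : M * lq ^ 2 ≤ qζ) :
    T * (4 * L / qζ) ≤ ε / 20 * B := by
  have hlq0 : 0 < lq := by linarith
  have hx10 : 0 < X2 := by linarith
  calc T * (4 * L / qζ) ≤ (X2 / c * lq) * (4 * L / qζ) :=
        mul_le_mul_of_nonneg_right hTlog (by positivity)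
    _ = ε / 20 * (L * (c / lq)) * ((M * lq ^ 2) / qζ) := by
        rw [hM]
        field_simp
    _ ≤ ε / 20 * (L * (c / lq)) * 1 := by
        apply mul_le_mul_of_nonneg_left _ (by positivity)
        rw [div_le_one hqζ]
        exact hE
    _ = ε / 20 * (L * (c / lq)) := mul_one _
    _ ≤ ε / 20 * B := mul_le_mul_of_nonneg_left hB (by positivity)

/-- the relative error, first part -/
lemma est_r1 (A Pv s y r κ0 ε Yb : ℝ) (hPv0 : 0 ≤ Pv) (hPv : Pv ≤ 3 * r) (hs0 : 0 ≤ s)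
    (hs : s ≤ r) (hy : 0 < y) (hr : 0 < r) (hκ0 : 0 < κ0) (hε : 0 < ε)
    (hYb : 640 * A ^ 2 * (9 * r ^ 3) / (κ0 ^ 2 * ε) ≤ Yb) (hYy : Yb ≤ y) :
    32 * (A ^ 2 * (Pv ^ 2 * (s / y))) / κ0 ^ 2 ≤ ε / 20 := by
  have hPi2 : Pv ^ 2 ≤ 9 * r ^ 2 := by
    calc Pv ^ 2 ≤ (3 * r) ^ 2 := pow_le_pow_left₀ hPv0 hPv 2
      _ = 9 * r ^ 2 := by ring
  have a1 : A ^ 2 * (Pv ^ 2 * (s / y)) ≤ A ^ 2 * (9 * r ^ 2 * (r / y)) := by
    apply mul_le_mul_of_nonneg_left _ (sq_nonneg A)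
    apply mul_le_mul hPi2 _ (by positivity) (by positivity)
    exact div_le_div_of_nonneg_right hs hy.le
  have a2 := hYb.trans hYy
  rw [div_le_iff₀ (by positivity)] at a2 ⊢
  calc 32 * (A ^ 2 * (Pv ^ 2 * (s / y))) ≤ 32 * (A ^ 2 * (9 * r ^ 2 * (r / y))) := by linarith
    _ = (640 * A ^ 2 * (9 * r ^ 3)) / (20 * y) := by
        field_simp
        ring
    _ ≤ (y * (κ0 ^ 2 * ε)) / (20 * y) := div_le_div_of_nonneg_right a2 (by positivity)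
    _ = ε / 20 * κ0 ^ 2 := by
        field_simp

/-- the relative error, second part -/
lemma est_r2 (c1 A Pv r κ0 f0 G0 ε : ℝ) (m : ℕ) (hc1 : 1 ≤ c1) (hA : A = c1 * (1 + 3 * r)) (hPv0 : 0 ≤ Pv)
    (hPv : Pv ≤ 3 * r) (hr2 : 2 ≤ r) (hf0 : 0 < f0) (hκ0 : κ0 = f0 / r) (hrG : r = G0 * m)
    (hm : 4608 * c1 ^ 2 * G0 ^ 6 / f0 ^ 2 * ((m : ℝ) ^ 6 * (1 / 2) ^ m) ≤ ε / 20) :
    32 * ((1 / 2) ^ m * (A * Pv) ^ 2) / κ0 ^ 2 ≤ ε / 20 := by
  have hr0 : 0 < r := by linarith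
  have hA0 : 0 < A := by rw [hA]; positivity
  refine le_trans ?_ hm
  have a1 : A * Pv ≤ c1 * (12 * r ^ 2) := by
    calc A * Pv ≤ A * (3 * r) := mul_le_mul_of_nonneg_left hPv hA0.le
      _ = c1 * ((1 + 3 * r) * (3 * r)) := by rw [hA]; ring
      _ ≤ c1 * (12 * r ^ 2) := by
          apply mul_le_mul_of_nonneg_left _ (by linarith)
          nlinarith
  have a2 : (A * Pv) ^ 2 ≤ (c1 * (12 * r ^ 2)) ^ 2 := pow_le_pow_left₀ (by positivity) a1 2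
  have hκp : 0 < κ0 := by rw [hκ0]; positivity
  calc 32 * ((1 / 2) ^ m * (A * Pv) ^ 2) / κ0 ^ 2 ≤
      32 * ((1 / 2) ^ m * (c1 * (12 * r ^ 2)) ^ 2) / κ0 ^ 2 := by
        apply div_le_div_of_nonneg_right _ (by positivity)
        apply mul_le_mul_of_nonneg_left _ (by norm_num)
        exact mul_le_mul_of_nonneg_left a2 (by positivity)
    _ = 4608 * c1 ^ 2 * (r ^ 6) / f0 ^ 2 * (1 / 2) ^ m := by
        rw [hκ0]
        field_simp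
        ring
    _ = 4608 * c1 ^ 2 * G0 ^ 6 / f0 ^ 2 * ((m : ℝ) ^ 6 * (1 / 2) ^ m) := by
        rw [hrG]
        ring

/-- the absolute error -/
lemma est_abs (T c x1 X2 x B lq L qγ qτ sx D A κ0 ε M : ℝ) (hc : 0 < c) (hx1 : 1 ≤ x1) (hx1X : x1 ≤ X2)
    (hx : x1 ≤ x)
    (hε : 0 < ε) (hκ0 : 0 < κ0) (hlq : 1 ≤ lq) (hT : 0 ≤ T) (hTlog : T ≤ X2 / c * lq)
    (hqγ : 0 < qγ) (hsx : sx ≤ qγ) (hsx0 : 0 ≤ sx) (hD0 : 0 ≤ D) (hD : D ^ 2 ≤ qτ) (hL : qγ * qτ * qγ ≤ L)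
    (hB : L * (c / lq) ≤ B)
    (hM : M = 16 * (X2 / c) ^ 2 * A ^ 2 / (κ0 ^ 2 * x1 ^ 2) * (20 / (ε * c)))
    (hE : M * lq ^ 3 ≤ qγ) :
    16 * (T ^ 2 * (sx * (A * D) ^ 2)) / (κ0 ^ 2 * x ^ 2) ≤ ε / 20 * B := by
  have hlq0 : 0 < lq := by linarith
  have hx10 : 0 < x1 := by linarith
  have hX20 : 0 < X2 := by linarith
  have hqτ : 0 ≤ qτ := (sq_nonneg D).trans hD
  have hT2 := est_T T c X2 lq hT hTlog
  have a0 : (A * D) ^ 2 ≤ A ^ 2 * qτ := by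
    rw [mul_pow]
    exact mul_le_mul_of_nonneg_left hD (sq_nonneg A)
  have a1 : T ^ 2 * (sx * (A * D) ^ 2) ≤ (X2 / c) ^ 2 * lq ^ 2 * (qγ * (A ^ 2 * qτ)) := by
    apply mul_le_mul hT2 _ (by positivity) (by positivity)
    exact mul_le_mul hsx a0 (by positivity) hqγ.le
  have hx2 : κ0 ^ 2 * x1 ^ 2 ≤ κ0 ^ 2 * x ^ 2 := by
    apply mul_le_mul_of_nonneg_left _ (by positivity)
    exact pow_le_pow_left₀ hx10.le hx 2
  calc 16 * (T ^ 2 * (sx * (A * D) ^ 2)) / (κ0 ^ 2 * x ^ 2) ≤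
      16 * (T ^ 2 * (sx * (A * D) ^ 2)) / (κ0 ^ 2 * x1 ^ 2) :=
        div_le_div_of_nonneg_left (by positivity) (by positivity) hx2
    _ ≤ 16 * ((X2 / c) ^ 2 * lq ^ 2 * (qγ * (A ^ 2 * qτ))) / (κ0 ^ 2 * x1 ^ 2) := by
        apply div_le_div_of_nonneg_right _ (by positivity)
        linarith
    _ = ε / 20 * ((qγ * qτ) * (c / lq)) * (M * lq ^ 3) := by
        rw [hM]
        field_simp
    _ ≤ ε / 20 * ((qγ * qτ) * (c / lq)) * qγ := mul_le_mul_of_nonneg_left hE (by positivity)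
    _ = ε / 20 * ((qγ * qτ * qγ) * (c / lq)) := by ring
    _ ≤ ε / 20 * (L * (c / lq)) := by
        apply mul_le_mul_of_nonneg_left _ (by positivity)
        exact mul_le_mul_of_nonneg_right hL (by positivity)
    _ ≤ ε / 20 * B := mul_le_mul_of_nonneg_left hB (by positivity)

open Classical in
/-- the weights -/
theorem weights (q r y : ℕ) (hq : 2 ≤ q) (hr2 : 2 ≤ r) (τ υ lm f0 c1 : ℝ) (hτ0 : 0 < τ) (hυ1 : υ ≤ 1)
    (hrυ : 1 / (r : ℝ) ≤ υ) (hc1 : c1 = 1 + lm) (hlm : 0 < lm)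
    (hMer1 : Mer (pr q (1 / (r : ℝ)) υ) (tt q) (gg q y) (1 / (r : ℝ)) υ 1)
    (cL : Finset ℕ → ℝ) (hb1 : ∀ U, |cL U| ≤ 1 + lm)
    (hb2 : ∀ U ⊆ pr q (1 / (r : ℝ)) υ, cL U ≠ 0 → ((∏ p ∈ U, p : ℕ) : ℝ) ≤ (q : ℝ) ^ τ)
    (hb4 : 1 / (r : ℝ) * f0 ≤ VV (pr q (1 / (r : ℝ)) υ) cL (gg q y)) :
    ∃ κ : ℝ, f0 / r ≤ κ ∧
      (∀ U, |cL U - (if U = ∅ then κ else 0)| ≤ c1 * (1 + 3 * r)) ∧
      (∀ U ⊆ PP q y (1 / (r : ℝ)) υ, cL U - (if U = ∅ then κ else 0) ≠ 0 →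
        ∏ p ∈ U, p ≤ ⌊(q : ℝ) ^ τ⌋₊) ∧
      ∑ U ∈ (PP q y (1 / (r : ℝ)) υ).powerset, (cL U - (if U = ∅ then κ else 0)) * wt U = 0 := by
  have hq1 : (1 : ℝ) ≤ q := by exact_mod_cast (by omega : 1 ≤ q)
  have hr0 : (0 : ℝ) < r := by exact_mod_cast (by omega : 0 < r)
  have hc10 : 1 ≤ c1 := by rw [hc1]; linarith
  obtain ⟨κ, hκ⟩ : ∃ κ, κ = VV (pr q (1 / (r : ℝ)) υ) cL (gg q y) := ⟨_, rfl⟩
  obtain ⟨P, hP⟩ : ∃ P, P = PP q y (1 / (r : ℝ)) υ := ⟨_, rfl⟩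
  obtain ⟨hs1, hPi⟩ := sumP q y r hr2 υ hυ1 hrυ hMer1
  rw [← hP] at hs1 hPi
  have hPp : ∀ p ∈ P, p.Prime ∧ y < p ∧ ¬ p ∣ q := by
    intro p hp
    rw [hP] at hp
    exact PP_mem hp
  have hκsum : κ = ∑ U ∈ P.powerset, cL U * wt U := by rw [hκ, VV_gg, ← hP]
  have hκup : |κ| ≤ c1 * (3 * r) := by
    rw [hκsum]
    refine (abs_sum_le_sum_abs _ _).trans ?_
    calc ∑ U ∈ P.powerset, |cL U * wt U| ≤ ∑ U ∈ P.powerset, c1 * wt U := by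
          apply sum_le_sum
          intro U hU
          have a1 := wt_pos P (fun p hp => (hPp p hp).1) U (mem_powerset.1 hU)
          rw [abs_mul, abs_of_pos a1]
          apply mul_le_mul_of_nonneg_right _ a1.le
          rw [hc1]
          exact hb1 U
      _ = c1 * Pi1 P := by rw [← mul_sum]; rfl
      _ ≤ c1 * (3 * r) := mul_le_mul_of_nonneg_left hPi (by linarith)
  refine ⟨κ, ?_, ?_, ?_, ?_⟩
  · rw [← hκ] at hb4
    calc f0 / r = 1 / (r : ℝ) * f0 := by ring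
      _ ≤ κ := hb4
  · intro U
    have a1 : |cL U| ≤ c1 := by rw [hc1]; exact hb1 U
    have a2 : |if U = ∅ then κ else 0| ≤ c1 * (3 * r) := by
      split_ifs
      · exact hκup
      · rw [abs_zero]; positivity
    calc |cL U - if U = ∅ then κ else 0| ≤ |cL U| + |if U = ∅ then κ else 0| := abs_sub _ _
      _ ≤ c1 + c1 * (3 * r) := add_le_add a1 a2
      _ = c1 * (1 + 3 * r) := by ring
  · intro U hU hne
    apply Nat.le_floor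
    by_cases hU0 : U = ∅
    · subst hU0
      rw [prod_empty, Nat.cast_one]
      exact Real.one_le_rpow hq1 hτ0.le
    · apply hb2 U
      · intro p hp
        have := hU hp
        exact (mem_filter.1 this).1
      · intro h0
        apply hne
        rw [if_neg hU0, h0, sub_zero]
  · rw [← hP]
    have a1 : ∀ U ∈ P.powerset, (cL U - (if U = ∅ then κ else 0)) * wt U =
        cL U * wt U - (if U = ∅ then κ else 0) := by
      intro U _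
      by_cases h : U = ∅
      · subst h
        simp [wt]
      · simp [h]
    rw [sum_congr rfl a1, sum_sub_distrib, ← hκsum, sum_ite_eq', if_pos (empty_mem_powerset P), sub_self]

end Pool.Agent.R490.P3i
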