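import Pool.Agent.R490.P3i

set_option autoImplicit false

/-!
# Almost primes in almost all classes of every modulus
-/

namespace Pool.Agent.R490.P3j

open Finset Filter
open Pool.Agent.W123.RP Pool.Agent.H373R2.T7 Pool.Agent.W123.RU Pool.Agent.TH464.PO Pool.Agent.TH464.PW
open Pool.Agent.Y879.AP Pool.Agent.R490.Cls Pool.Agent.R490.Mean
open Pool.Agent.R490.P3c Pool.Agent.R490.P3d Pool.Agent.R490.P3e Pool.Agent.R490.P3f Pool.Agent.R490.P3g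
open Pool.Agent.R490.P3h Pool.Agent.R490.P3i
open Pool.Agent.W23.DC Pool.Agent.Y882 Pool.Agent.Y882.KW

/-- the sizes -/
lemma sizes (q y T Z L r : ℕ) (S : ℝ) (hq : 1 ≤ q) (hZL : Z + L ≤ q) (hS : (1 : ℝ) + T ≤ (q : ℝ) ^ (S - 1))
    (h1 : (1 : ℝ) + T ≤ q) (hr : 0 < (r : ℝ)) (hy : 0 < (y : ℝ)) (g2 : Real.log q / (2 * r) ≤ Real.log y) :
    ((Z + L + q * T : ℕ) : ℝ) ≤ (q : ℝ) ^ S ∧ Z + L + q * T ≤ y ^ (4 * r) := by
  have hq0 : (0 : ℝ) < q := by exact_mod_cast hq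
  have hsize : ((Z + L + q * T : ℕ) : ℝ) ≤ q * (1 + T) := by
    have a1 : ((Z + L : ℕ) : ℝ) ≤ q := by exact_mod_cast hZL
    push_cast at a1 ⊢
    linarith
  constructor
  · refine hsize.trans ?_
    calc (q : ℝ) * (1 + T) ≤ q * (q : ℝ) ^ (S - 1) := mul_le_mul_of_nonneg_left hS hq0.le
      _ = (q : ℝ) ^ S := by
          rw [mul_comm, ← Real.rpow_add_one hq0.ne']
          congr 1
          ring
  · have a1 : ((Z + L + q * T : ℕ) : ℝ) ≤ (q : ℝ) ^ 2 := by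
      refine hsize.trans ?_
      calc (q : ℝ) * (1 + T) ≤ q * q := mul_le_mul_of_nonneg_left h1 hq0.le
        _ = (q : ℝ) ^ 2 := by ring
    have a2 : (q : ℝ) ^ 2 ≤ (y : ℝ) ^ (4 * r) := by
      rw [← Real.log_le_log_iff (by positivity) (by positivity), Real.log_pow, Real.log_pow]
      rw [div_le_iff₀ (by positivity)] at g2
      push_cast
      linarith
    exact_mod_cast a1.trans a2

/-- the densities -/
lemma dens (q y : ℕ) (c : ℝ) (hc : 0 < c) (hy : 0 < Real.log y) (hyq : Real.log y ≤ Real.log q)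
    (hV : c / Real.log y ≤ Vz y) : 0 < Vq (Qn Ql q) y ∧ 0 < Vq (Qd Ql q) y ∧
      c / Real.log q ≤ Vq (Qn Ql q) y ∧ c / Real.log q ≤ Vq (Qd Ql q) y := by
  have e1 : c / Real.log q ≤ Vz y := by
    refine le_trans ?_ hV
    exact div_le_div_of_nonneg_left hc.le hy hyq
  have e2 : Vq (Qd Ql q) y * Vq (Qn Ql q) y = Vz y := by rw [Vd_mul_Vn, Vq_Ql]
  have hV0 : 0 < Vq (Qn Ql q) y := Vq_pos (Qn Ql q) (adm_Qn Ql adm_Ql q) y
  have hVd0 : 0 < Vq (Qd Ql q) y := Vq_pos (Qd Ql q) (adm_Qd Ql adm_Ql q) y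
  have hVn1 : Vq (Qn Ql q) y ≤ 1 := Vq_le_one _ y
  have hVd1 : Vq (Qd Ql q) y ≤ 1 := Vq_le_one _ y
  refine ⟨hV0, hVd0, ?_, ?_⟩
  · have a1 : Vq (Qd Ql q) y * Vq (Qn Ql q) y ≤ 1 * Vq (Qn Ql q) y := mul_le_mul_of_nonneg_right hVd1 hV0.le
    linarith
  · have a1 : Vq (Qd Ql q) y * Vq (Qn Ql q) y ≤ Vq (Qd Ql q) y * 1 := mul_le_mul_of_nonneg_left hVn1 hVd0.le
    linarith

/-- bounds for `T` -/
lemma Tbounds (T T0 : ℕ) (x1 X2 x Vn KV c lq : ℝ) (hx10 : 0 < x1) (hx : x = T * Vn) (hT1 : x1 ≤ x)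
    (hT2 : x ≤ X2) (hlq : 1 ≤ lq) (hVnq : Vn ≤ KV / √lq) (hKV : 0 < KV) (hc : 0 < c)
    (hsq : KV * T0 / x1 ≤ √lq) (hVlow : c / lq ≤ Vn) : T0 ≤ T ∧ (T : ℝ) ≤ X2 / c * lq := by
  have hlq0 : 0 < lq := by linarith
  have hsqp : 0 < √lq := Real.sqrt_pos.2 hlq0
  have hTr : (0 : ℝ) ≤ T := Nat.cast_nonneg _
  constructor
  · have a1 : x1 ≤ T * (KV / √lq) := hT1.trans (by
      rw [hx]; exact mul_le_mul_of_nonneg_left hVnq hTr)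
    rw [mul_div_assoc', le_div_iff₀ hsqp] at a1
    rw [div_le_iff₀ hx10] at hsq
    have a2 : KV * (T0 : ℝ) ≤ KV * T := by
      calc KV * (T0 : ℝ) ≤ √lq * x1 := hsq
        _ = x1 * √lq := mul_comm _ _
        _ ≤ T * KV := a1
        _ = KV * T := mul_comm _ _
    have a3 : (T0 : ℝ) ≤ T := le_of_mul_le_mul_left a2 hKV
    exact_mod_cast a3
  · have a2 : T * (c / lq) ≤ X2 := by
      refine (mul_le_mul_of_nonneg_left hVlow hTr).trans ?_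
      rw [← hx]
      exact hT2
    rw [mul_div_assoc', div_le_iff₀ hlq0] at a2
    rw [div_mul_eq_mul_div, le_div_iff₀ hc]
    exact a2

open Classical in
/-- the moments -/
lemma moms (q y T Z L K1 K2 Kc y1 y2 yc T1 T2 : ℕ) (η B x : ℝ) (hη0 : 0 < η) (hη1 : η ≤ 1)
    (Hc : ∀ L y : ℕ, yc ≤ y → y ^ Kc ≤ L → ∀ q Z : ℕ,
      |((SS q y Z L).card : ℝ) - L * Vq (Qd Ql q) y| ≤ η * (L * Vq (Qd Ql q) y) + √(L : ℝ))
    (H1 : ∀ L y T : ℕ, y1 ≤ y → y ^ K1 ≤ L → T1 ≤ T → ∀ q Z : ℕ,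
      |∑ n ∈ SS q y Z L, ((W Ql q y T n).choose (0 + 1) : ℝ) -
        L * Vq (Qd Ql q) y * ((T * Vq (Qn Ql q) y) ^ (0 + 1) / (0 + 1).factorial)| ≤
        η * (L * Vq (Qd Ql q) y) * ((T * Vq (Qn Ql q) y) ^ (0 + 1) / (0 + 1).factorial) +
          T ^ (0 + 1) * √(L : ℝ))
    (H2 : ∀ L y T : ℕ, y2 ≤ y → y ^ K2 ≤ L → T2 ≤ T → ∀ q Z : ℕ,
      |∑ n ∈ SS q y Z L, ((W Ql q y T n).choose (1 + 1) : ℝ) -
        L * Vq (Qd Ql q) y * ((T * Vq (Qn Ql q) y) ^ (1 + 1) / (1 + 1).factorial)| ≤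
        η * (L * Vq (Qd Ql q) y) * ((T * Vq (Qn Ql q) y) ^ (1 + 1) / (1 + 1).factorial) +
          T ^ (1 + 1) * √(L : ℝ))
    (hyc : yc ≤ y) (hy1 : y1 ≤ y) (hy2 : y2 ≤ y) (hKc : y ^ Kc ≤ L) (hK1 : y ^ K1 ≤ L) (hK2 : y ^ K2 ≤ L)
    (hT1 : T1 ≤ T) (hT2 : T2 ≤ T) (hT : 1 ≤ T) (hB : B = L * Vq (Qd Ql q) y) (hx : x = T * Vq (Qn Ql q) y)
    (hx1 : 1 ≤ x) (hE : (1 + x) ^ 2 * ((T : ℝ) ^ 2 * √(L : ℝ)) ≤ η * B) :
    ∑ n ∈ SS q y Z L, ((W Ql q y T n : ℝ) - x) ^ 2 ≤ B * (7 * η * x ^ 2 + 2 * x) ∧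
      ∑ n ∈ SS q y Z L, (W Ql q y T n : ℝ) ≤ 3 * (B * x) := by
  have hTr : (1 : ℝ) ≤ T := by exact_mod_cast hT
  have hsL : 0 ≤ √(L : ℝ) := Real.sqrt_nonneg _
  have hTT : (T : ℝ) ≤ (T : ℝ) ^ 2 := by nlinarith
  have hB0 : 0 ≤ B := by rw [hB]; exact mul_nonneg (Nat.cast_nonneg _) (Vq_nonneg _ _)
  have m0 := Hc L y hyc hKc q Z
  have m1 := H1 L y T hy1 hK1 hT1 q Z
  have m2 := H2 L y T hy2 hK2 hT2 q Z
  rw [← hB] at m0 m1 m2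
  rw [← hx] at m1 m2
  apply variance (SS q y Z L) (fun n => W Ql q y T n) B x η ((T : ℝ) ^ 2 * √(L : ℝ)) hx1 hη0 hη1 hB0 hE
    (by positivity)
  · refine m0.trans ?_
    apply add_le_add le_rfl
    calc √(L : ℝ) = 1 * √(L : ℝ) := (one_mul _).symm
      _ ≤ (T : ℝ) ^ 2 * √(L : ℝ) := mul_le_mul_of_nonneg_right (by nlinarith) hsL
  · simp only [zero_add, pow_one, Nat.factorial_one, Nat.cast_one, div_one, Nat.choose_one_right] at m1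
    refine m1.trans ?_
    apply add_le_add le_rfl
    exact mul_le_mul_of_nonneg_right hTT hsL
  · have e1 : ((1 + 1).factorial : ℝ) = 2 := by norm_num [Nat.factorial]
    rw [e1] at m2
    exact m2

end Pool.Agent.R490.P3j
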