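import Pool.Agent.R490.P3j

set_option autoImplicit false

/-!
# Almost primes in almost all classes of every modulus: one modulus
-/

namespace Pool.Agent.R490.P3k

open Finset Filter
open Pool.Agent.W123.RP Pool.Agent.H373R2.T7 Pool.Agent.W123.RU Pool.Agent.TH464.PO Pool.Agent.TH464.PW
open Pool.Agent.Y879.AP Pool.Agent.R490.Cls Pool.Agent.R490.Mean
open Pool.Agent.R490.P3c Pool.Agent.R490.P3d Pool.Agent.R490.P3e Pool.Agent.R490.P3f Pool.Agent.R490.P3g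
open Pool.Agent.R490.P3h Pool.Agent.R490.P3i Pool.Agent.R490.P3j
open Pool.Agent.W23.DC Pool.Agent.Y882 Pool.Agent.Y882.KW

open Classical in
/-- the count of the exceptional classes -/
theorem count_bad (q : ℕ) (hq : 2 ≤ q) (r R y T Z L : ℕ) (hy : y = ⌊(q : ℝ) ^ (1 / (r : ℝ))⌋₊)
    (ζ υ lm S : ℝ) (hζυ : ζ ≤ υ) (hυ0 : 0 < υ)
    (hυ1 : υ ≤ 1) (hlam : 0 < lm) (hr : 1 / lm + S / υ ≤ R + 1) (c : Finset ℕ → ℝ) (κ x t : ℝ) (hκ : 0 < κ)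
    (hx : 0 < x) (ht : t ≤ κ * (x / 4))
    (hc : ∀ N : ℕ, VV (pr q (1 / (r : ℝ)) υ) c (fun p => if p ∣ N then 1 else 0) ≤
      WB q (1 / (r : ℝ)) ζ υ lm (lm / υ) N)
    (hS : ((Z + L + q * T : ℕ) : ℝ) ≤ (q : ℝ) ^ S) (s1 v2 v3 : ℝ)
    (h1 : (((Ioc Z (Z + L)).filter (fun n => ∃ h ∈ Icc 1 T, ∃ p ∈ pr q ζ υ, p ^ 2 ∣ n + q * h)).card : ℝ) ≤ s1)
    (h2 : ∑ n ∈ SS q y Z L, ((W Ql q y T n : ℝ) - x) ^ 2 ≤ v2)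
    (h3 : ∑ n ∈ SS q y Z L, XX (PP q y (1 / (r : ℝ)) υ) (fun U => c U - if U = ∅ then κ else 0) q y T n ^ 2 ≤
      v3) :
    ((Bad q R T Z L ζ t).card : ℝ) ≤ s1 + (v2 / (x / 2) ^ 2 + v3 / (κ * (x / 4)) ^ 2) := by
  have hsub := bad_sub q hq r R y T Z L hy ζ υ lm S hζυ hυ0 hυ1 hlam hr c κ x t hκ ht hc hS
  obtain ⟨a, ha⟩ : ∃ a : Finset ℕ → ℝ, a = fun U => c U - if U = ∅ then κ else 0 := ⟨_, rfl⟩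
  obtain ⟨P, hP⟩ : ∃ P, P = PP q y (1 / (r : ℝ)) υ := ⟨_, rfl⟩
  rw [← hP, ← ha] at hsub h3
  have hcard : ((Bad q R T Z L ζ t).card : ℝ) ≤
      (((Ioc Z (Z + L)).filter (fun n => ∃ h ∈ Icc 1 T, ∃ p ∈ pr q ζ υ, p ^ 2 ∣ n + q * h)).card : ℝ) +
      ((((SS q y Z L).filter (fun n => (W Ql q y T n : ℝ) ≤ x / 2)).card : ℝ) +
       (((SS q y Z L).filter (fun n => κ * (x / 4) ≤ |XX P a q y T n|)).card : ℝ)) := by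
    have a1 := (card_le_card hsub).trans ((card_union_le _ _).trans (Nat.add_le_add_left (card_union_le _ _) _))
    exact_mod_cast a1
  refine hcard.trans ?_
  apply add_le_add h1
  apply add_le_add
  · have a1 := cheb (SS q y Z L) (fun n => (W Ql q y T n : ℝ) - x) ((x / 2) ^ 2) (by positivity)
      (fun n => (W Ql q y T n : ℝ) ≤ x / 2) (by
        intro n _ hn
        show (x / 2) ^ 2 ≤ ((W Ql q y T n : ℝ) - x) ^ 2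
        have : x / 2 ≤ x - (W Ql q y T n : ℝ) := by linarith
        calc (x / 2) ^ 2 ≤ (x - (W Ql q y T n : ℝ)) ^ 2 := pow_le_pow_left₀ (by positivity) this 2
          _ = _ := by ring)
    refine a1.trans ?_
    exact div_le_div_of_nonneg_right h2 (by positivity)
  · have a1 := cheb (SS q y Z L) (fun n => XX P a q y T n) ((κ * (x / 4)) ^ 2) (by positivity)
      (fun n => κ * (x / 4) ≤ |XX P a q y T n|) (by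
        intro n _ hn
        show (κ * (x / 4)) ^ 2 ≤ XX P a q y T n ^ 2
        rw [← sq_abs (XX P a q y T n)]
        exact pow_le_pow_left₀ (by positivity) hn 2)
    refine a1.trans ?_
    exact div_le_div_of_nonneg_right h3 (by positivity)

/-- the constants -/
structure Cst (θ τ ζ υ lm ε f0 c1 A κ0 x1 η γ c KV : ℝ) (C0 G0 m r R0 : ℕ) : Prop where
  Fc1 : c1 = 1 + lm
  FA : A = c1 * (1 + 3 * r)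
  Fκ0 : κ0 = f0 / r
  FR0 : R0 = 4 * r
  Fx1 : x1 = 960 * (A * 2 ^ R0) ^ 2 / (κ0 ^ 2 * ε) + 160 / ε + 1
  Fη : η = ε / 560
  Fγ : γ = θ - 2 * τ
  Fr : r = G0 * m
  Ff0 : 0 < f0
  Fc : 0 < c
  FKV : 0 < KV
  Fε : 0 < ε
  Fε1 : ε ≤ 1
  Flm : 0 < lm
  Fζ : 0 < ζ
  h2 : 2 * ζ < τ
  hζυ : ζ ≤ υ
  hυτ : υ < τ
  hτθ : 2 * τ < θ
  hθ1 : θ ≤ 1
  FG1 : 1 ≤ G0
  FG2 : 16 * C0 / γ ≤ G0
  Fm1 : 1 ≤ m
  Fr2 : 2 ≤ r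
  Fm : 4608 * c1 ^ 2 * (G0 : ℝ) ^ 6 / f0 ^ 2 * ((m : ℝ) ^ 6 * (1 / 2) ^ m) ≤ ε / 20
  Frζ : 1 / (r : ℝ) ≤ ζ

lemma Cst.pos {θ τ ζ υ lm ε f0 c1 A κ0 x1 η γ c KV : ℝ} {C0 G0 m r R0 : ℕ}
    (h : Cst θ τ ζ υ lm ε f0 c1 A κ0 x1 η γ c KV C0 G0 m r R0) :
    0 < A ∧ 0 < κ0 ∧ 1 ≤ x1 ∧ 0 < (r : ℝ) ∧ 1 ≤ c1 ∧ 0 < γ ∧ 960 * (A * 2 ^ R0) ^ 2 / (κ0 ^ 2 * ε) ≤ x1 ∧
      160 / ε ≤ x1 := by
  have h1 := h.Flm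
  have h2 := h.Ff0
  have h3 := h.Fε
  have hr0 : (0 : ℝ) < r := by
    have := h.Fr2
    exact_mod_cast (by omega : 0 < r)
  have hc1 : 1 ≤ c1 := by rw [h.Fc1]; linarith
  have hA : 0 < A := by rw [h.FA]; positivity
  have hκ : 0 < κ0 := by rw [h.Fκ0]; positivity
  have e1 : 0 ≤ 960 * (A * 2 ^ R0) ^ 2 / (κ0 ^ 2 * ε) := by positivity
  have e2 : 0 ≤ 160 / ε := by positivity
  have e3 := h.Fx1
  refine ⟨hA, hκ, by linarith, hr0, hc1, ?_, by linarith, by linarith⟩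
  rw [h.Fγ]
  linarith [h.hτθ]

open Classical in
/-- one modulus -/
theorem oneq {θ τ ζ υ lm ε f0 c1 A κ0 x1 η γ c KV : ℝ} {C0 G0 m r R0 : ℕ}
    (h : Cst θ τ ζ υ lm ε f0 c1 A κ0 x1 η γ c KV C0 G0 m r R0) (S : ℝ) (R : ℕ)
    (hr : 1 / lm + S / υ ≤ R + 1)
    (X2 : ℝ) (hX2 : x1 ≤ X2)
    (q y T Z L : ℕ) (hq : 2 ≤ q) (hy : y = ⌊(q : ℝ) ^ (1 / (r : ℝ))⌋₊) (hy1 : 1 ≤ y) (hyx : y ≤ y)
    (hqL : (q : ℝ) ^ θ ≤ L)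
    (hMer1 : Mer (pr q (1 / (r : ℝ)) υ) (tt q) (gg q y) (1 / (r : ℝ)) υ 1)
    (cL : Finset ℕ → ℝ) (hb1 : ∀ U, |cL U| ≤ 1 + lm)
    (hb2 : ∀ U ⊆ pr q (1 / (r : ℝ)) υ, cL U ≠ 0 → ((∏ p ∈ U, p : ℕ) : ℝ) ≤ (q : ℝ) ^ τ)
    (hb3 : ∀ N : ℕ, VV (pr q (1 / (r : ℝ)) υ) cL (fun p => if p ∣ N then 1 else 0) ≤
      WB q (1 / (r : ℝ)) ζ υ lm (lm / υ) N)
    (hb4 : 1 / (r : ℝ) * f0 ≤ VV (pr q (1 / (r : ℝ)) υ) cL (gg q y))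
    (hTy : T ≤ y) (hNS : ((Z + L + q * T : ℕ) : ℝ) ≤ (q : ℝ) ^ S) (hyR0 : Z + L + q * T ≤ y ^ R0)
    (B x : ℝ) (hB : B = L * Vq (Qd Ql q) y) (hB0 : 0 < B) (hBlow : L * (c / Real.log q) ≤ B)
    (hx1 : x1 ≤ x) (hlq : 1 ≤ Real.log q) (hTlog : (T : ℝ) ≤ X2 / c * Real.log q)
    (hvar1 : ∑ n ∈ SS q y Z L, ((W Ql q y T n : ℝ) - x) ^ 2 ≤ B * (7 * η * x ^ 2 + 2 * x))
    (hvar2 : ∑ n ∈ SS q y Z L, (W Ql q y T n : ℝ) ≤ 3 * (B * x))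
    (hsing : ∑ H ∈ powersetCard 2 (Icc 1 T), Vq (QH (Q0 Ql q) H) y ≤ x ^ 2)
    (Hsec : ∀ (P : Finset ℕ) (a : Finset ℕ → ℝ) (A : ℝ) (D : ℕ),
      (∀ p ∈ P, p.Prime ∧ y < p ∧ ¬ p ∣ q) → (∀ U, |a U| ≤ A) →
      (∀ U ⊆ P, a U ≠ 0 → ∏ p ∈ U, p ≤ D) → ∑ U ∈ P.powerset, a U * wt U = 0 →
      ∑ n ∈ SS q y Z L, XX P a q y T n ^ 2 ≤
        (A * 2 ^ R0) ^ 2 * ∑ n ∈ SS q y Z L, (W Ql q y T n : ℝ) +
        2 * (L * Vq (Qd Ql q) y * (A ^ 2 * (Pi1 P ^ 2 * ((∑ p ∈ P, 1 / (p : ℝ)) / y)) +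
          (1 / 2) ^ m * (A * Pi1 P) ^ 2) *
          ∑ H ∈ powersetCard 2 (Icc 1 T), Vq (QH (Q0 Ql q) H) y) +
        (T : ℝ) ^ 2 * (√((y ^ (16 * (C0 * m)) : ℕ) : ℝ) * (A * D) ^ 2))
    (Yb : ℝ) (hYb : 640 * A ^ 2 * (9 * (r : ℝ) ^ 3) / (κ0 ^ 2 * ε) ≤ Yb) (hYy : Yb ≤ y)
    (hE10 : 16 * (X2 / c) ^ 2 * A ^ 2 / (κ0 ^ 2 * x1 ^ 2) * (20 / (ε * c)) * Real.log q ^ 3 ≤
      (q : ℝ) ^ (γ / 2))
    (hE11 : (X2 / c) * 4 * (20 / (ε * c)) * Real.log q ^ 2 ≤ (q : ℝ) ^ ζ)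
    (h4ζ : 4 ≤ (q : ℝ) ^ ζ) (N : ℝ) (hN : B ≤ 2 * N) :
    ((Bad q R T Z L ζ (κ0 * (x / 4))).card : ℝ) ≤ ε * N := by
  obtain ⟨hA0, hκ00, hx11, hr0, hc10, hγ0, hx1a, hx1b⟩ := h.pos
  have hε := h.Fε
  have hq1 : (1 : ℝ) ≤ q := by exact_mod_cast (by omega : 1 ≤ q)
  have hq0 : (0 : ℝ) < q := by linarith
  have hx0 : 0 < x := by linarith
  have hL0 : (0 : ℝ) < L := lt_of_lt_of_le (by positivity) hqL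
  have hτ0 : 0 < τ := by linarith [h.h2, h.Fζ]
  have hυ0 : 0 < υ := by linarith [h.hζυ, h.Fζ]
  have hυ1 : υ ≤ 1 := by linarith [h.hυτ, h.hτθ, h.hθ1]
  have hrυ : 1 / (r : ℝ) ≤ υ := h.Frζ.trans h.hζυ
  obtain ⟨κ, hκlow, haA, haD, hasum⟩ := weights q r y hq h.Fr2 τ υ lm f0 c1 hτ0 hυ1 hrυ h.Fc1 h.Flm hMer1 cL
    hb1 hb2 hb4
  rw [← h.Fκ0] at hκlow
  rw [← h.FA] at haA
  have hκp : 0 < κ := by linarith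
  obtain ⟨hs1, hPi⟩ := sumP q y r h.Fr2 υ hυ1 hrυ hMer1
  obtain ⟨a, ha⟩ : ∃ a : Finset ℕ → ℝ, a = fun U => cL U - if U = ∅ then κ else 0 := ⟨_, rfl⟩
  have haA' : ∀ U, |a U| ≤ A := by rw [ha]; exact haA
  obtain ⟨P, hP⟩ : ∃ P, P = PP q y (1 / (r : ℝ)) υ := ⟨_, rfl⟩
  rw [← hP] at hs1 hPi haD hasum
  have haD' : ∀ U ⊆ P, a U ≠ 0 → ∏ p ∈ U, p ≤ ⌊(q : ℝ) ^ τ⌋₊ := by rw [ha]; exact haD
  have hasum' : ∑ U ∈ P.powerset, a U * wt U = 0 := by rw [ha]; exact hasum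
  have hPp : ∀ p ∈ P, p.Prime ∧ y < p ∧ ¬ p ∣ q := by
    intro p hp
    rw [hP] at hp
    exact PP_mem hp
  have hsec := Hsec P a A ⌊(q : ℝ) ^ τ⌋₊ hPp haA' haD' hasum'
  obtain ⟨e, he⟩ : ∃ e : ℝ, e = A ^ 2 * (Pi1 P ^ 2 * ((∑ p ∈ P, 1 / (p : ℝ)) / y)) +
          (1 / 2) ^ m * (A * Pi1 P) ^ 2 := ⟨_, rfl⟩
  have hsum0 : 0 ≤ ∑ p ∈ P, 1 / (p : ℝ) := sum_nonneg fun _ _ => by positivity
  have hPi0 : 0 ≤ Pi1 P := Pi1_nonneg P (fun p hp => (hPp p hp).1)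
  have hyr0 : (0 : ℝ) < y := by exact_mod_cast hy1
  have he0 : 0 ≤ e := by rw [he]; positivity
  obtain ⟨err, herr⟩ : ∃ err : ℝ, err = (T : ℝ) ^ 2 *
    (√((y ^ (16 * (C0 * m)) : ℕ) : ℝ) * (A * (⌊(q : ℝ) ^ τ⌋₊ : ℝ)) ^ 2) := ⟨_, rfl⟩
  have herr0 : 0 ≤ err := by rw [herr]; positivity
  rw [← he, ← hB, ← herr] at hsec
  obtain ⟨v3, hv3⟩ : ∃ v3 : ℝ, v3 = (A * 2 ^ R0) ^ 2 * (3 * (B * x)) + 2 * (B * e * x ^ 2) + err := ⟨_, rfl⟩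
  have hsec3 : ∑ n ∈ SS q y Z L, XX P a q y T n ^ 2 ≤ v3 := by
    refine hsec.trans ?_
    rw [hv3]
    apply add_le_add _ le_rfl
    apply add_le_add
    · exact mul_le_mul_of_nonneg_left hvar2 (sq_nonneg _)
    · apply mul_le_mul_of_nonneg_left _ (by norm_num)
      exact mul_le_mul_of_nonneg_left hsing (by positivity)
  have hLυ : (q : ℝ) ^ (2 * υ) ≤ L := by
    refine le_trans ?_ hqL
    exact Real.rpow_le_rpow_of_exponent_le hq1 (by linarith [h.hυτ, h.hτθ])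
  have hsq := sq_count q T Z L ζ υ hq h4ζ hLυ
  have hcount := count_bad q hq r R y T Z L hy ζ υ lm S h.hζυ hυ0 hυ1 h.Flm hr cL κ x
    (κ0 * (x / 4)) hκp hx0 (mul_le_mul_of_nonneg_right hκlow (by positivity)) hb3 hNS
    _ _ v3 hsq hvar1 (by rw [← hP, ← ha]; exact hsec3)
  refine hcount.trans ?_
  have f1 := est_sq T c X2 B (Real.log q) L ((q : ℝ) ^ ζ) ε _ h.Fc (hx11.trans hX2) hε hlq hTlog hL0 (by positivity)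
    hBlow rfl hE11
  have hsqrt := sqrt_xx q r C0 m G0 γ (by omega) hγ0 h.Fr h.Fm1 h.FG1 h.FG2
  rw [← hy] at hsqrt
  have hDq : ((⌊(q : ℝ) ^ τ⌋₊ : ℕ) : ℝ) ^ 2 ≤ (q : ℝ) ^ (2 * τ) := by
    calc ((⌊(q : ℝ) ^ τ⌋₊ : ℕ) : ℝ) ^ 2 ≤ ((q : ℝ) ^ τ) ^ 2 :=
          pow_le_pow_left₀ (Nat.cast_nonneg _) (Nat.floor_le (by positivity)) 2
      _ = (q : ℝ) ^ (2 * τ) := by
          rw [← Real.rpow_natCast, ← Real.rpow_mul hq0.le]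
          congr 1
          push_cast
          ring
  have hqq : (q : ℝ) ^ (γ / 2) * (q : ℝ) ^ (2 * τ) * (q : ℝ) ^ (γ / 2) ≤ L := by
    refine le_trans (le_of_eq ?_) hqL
    rw [← Real.rpow_add hq0, ← Real.rpow_add hq0]
    congr 1
    rw [h.Fγ]
    ring
  have f2 := est_abs T c x1 X2 x B (Real.log q) L ((q : ℝ) ^ (γ / 2)) ((q : ℝ) ^ (2 * τ))
    (√((y ^ (16 * (C0 * m)) : ℕ) : ℝ)) (⌊(q : ℝ) ^ τ⌋₊ : ℝ) A κ0 ε _ h.Fc hx11 hX2 hx1 hε hκ00 hlq (Nat.cast_nonneg _)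
    hTlog (by positivity) hsqrt (Real.sqrt_nonneg _) (Nat.cast_nonneg _) hDq hqq hBlow rfl hE10
  rw [← herr] at f2
  have f3 := est_r1 A (Pi1 P) (∑ p ∈ P, 1 / (p : ℝ)) y r κ0 ε Yb hPi0 hPi hsum0 hs1 hyr0 hr0 hκ00 hε hYb hYy
  have f4 := est_r2 c1 A (Pi1 P) r κ0 f0 G0 ε m hc10 h.FA hPi0 hPi (by exact_mod_cast h.Fr2) h.Ff0 h.Fκ0
    (by rw [h.Fr]; push_cast; ring) h.Fm
  have f5 : 32 * e / κ0 ^ 2 ≤ ε / 10 := by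
    have b3 : 32 * e / κ0 ^ 2 = 32 * (A ^ 2 * (Pi1 P ^ 2 * ((∑ p ∈ P, 1 / (p : ℝ)) / y))) / κ0 ^ 2 +
        32 * ((1 / 2) ^ m * (A * Pi1 P) ^ 2) / κ0 ^ 2 := by
      rw [he]
      ring
    rw [b3]
    linarith
  have f6 : 28 * η ≤ ε / 20 := by rw [h.Fη]; linarith
  have f7 : 8 / x ≤ ε / 20 := by
    rw [div_le_iff₀ hx0]
    have a1 := hx1b.trans hx1
    rw [div_le_iff₀ hε] at a1
    linarith
  have f8 : 48 * (A * 2 ^ R0) ^ 2 / (κ0 ^ 2 * x) ≤ ε / 20 := by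
    rw [div_le_iff₀ (by positivity)]
    have a1 := hx1a.trans hx1
    rw [div_le_iff₀ (by positivity)] at a1
    linarith
  exact fin_alg _ _ _ B x κ κ0 ((A * 2 ^ R0) ^ 2) e err ε η N hB0.le hx0 hκ00 hκlow hε (sq_nonneg _) he0
    f1 le_rfl (by rw [hv3]) f6 f7 f8 f5 f2 herr0 hN

end Pool.Agent.R490.P3k
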