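import Pool.Agent.R490.Pq

set_option autoImplicit false

/-!
# The pairs `n`, `n + 2 c`
-/

namespace Pool.Agent.R490.Po

open Polynomial Finset Filter
open Pool.Agent.R490.Sg (D1 cnt RightOrder ConstantDensity badScales Irregular)

/-- neither `n` nor `n + 2 c` has a prime factor `≤ y` -/
def Ro (c y n : ℕ) : Prop := ∀ p : ℕ, p.Prime → p ≤ y → ¬ p ∣ n ∧ ¬ p ∣ n + 2 * c

/-- `1` if `p ∣ 2 c`, otherwise `2` -/
def w (c p : ℕ) : ℕ := if p ∣ 2 * c then 1 else 2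

/-- the density -/
noncomputable def V (c y : ℕ) : ℝ := ∏ p ∈ (Finset.range (y + 1)).filter Nat.Prime, (1 - (w c p : ℝ) / p)

/-- the density relative to the primes -/
noncomputable def W (c y : ℕ) : ℝ :=
  ∏ p ∈ (Finset.range (y + 1)).filter Nat.Prime, (1 - (w c p : ℝ) / p) / (1 - 1 / (p : ℝ))

lemma ro_iff (c y n : ℕ) : Pq.Ro ((2 * c : ℕ) : ℤ) 1 y n ↔ Ro c y n := by
  unfold Pq.Ro Ro
  constructor
  · intro h p hp hpy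
    refine ⟨(h p hp hpy).1, fun hd => (h p hp hpy).2 ?_⟩
    have e : ((2 * c : ℕ) : ℤ) + (n : ℤ) * ((1 : ℕ) : ℤ) = ((n + 2 * c : ℕ) : ℤ) := by
      push_cast
      ring
    rw [e]
    exact_mod_cast hd
  · intro h p hp hpy
    refine ⟨(h p hp hpy).1, fun hd => (h p hp hpy).2 ?_⟩
    have e : ((2 * c : ℕ) : ℤ) + (n : ℤ) * ((1 : ℕ) : ℤ) = ((n + 2 * c : ℕ) : ℤ) := by
      push_cast
      ring
    rw [e] at hd
    exact_mod_cast hd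

lemma w_eq (c p : ℕ) : Pq.w ((2 * c : ℕ) : ℤ) 1 p = w c p := by
  unfold Pq.w w
  have h : ((p : ℤ) ∣ ((2 * c : ℕ) : ℤ) * ((1 : ℕ) : ℤ)) ↔ p ∣ 2 * c := by
    rw [Nat.cast_one, mul_one]
    exact_mod_cast Iff.rfl
  by_cases h1 : p ∣ 2 * c
  · rw [if_pos (h.2 h1), if_pos h1]
  · rw [if_neg (fun h2 => h1 (h.1 h2)), if_neg h1]

lemma V_eq (c y : ℕ) : Pq.V ((2 * c : ℕ) : ℤ) 1 y = V c y := by
  unfold Pq.V V
  simp only [w_eq]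

lemma W_eq (c y : ℕ) : Pq.W ((2 * c : ℕ) : ℤ) 1 y = W c y := by
  unfold Pq.W W
  simp only [w_eq]

open Classical in
/-- the counting function of the spacings -/
noncomputable def Dk (c y k T u Y : ℕ) : ℕ :=
  ((Ioc u (u + Y)).filter (fun n => Ro c y n ∧ ((Ico (n - T) n).filter (fun m => Ro c y m)).card < k)).card

open Classical in
/-- the primes `n` with `Ro c y n` -/
noncomputable def Pr (c y u Y : ℕ) : Finset ℕ := (Ioc u (u + Y)).filter (fun n => n.Prime ∧ Ro c y n)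

open Classical in
/-- the number of the following `m` with `Ro c y m` -/
noncomputable def Nx (c y T n : ℕ) : ℕ := ((Ioc n (n + T)).filter (fun m => Ro c y m)).card

open Classical in
lemma Dk_eq (c y k T u Y : ℕ) : Pq.Dk ((2 * c : ℕ) : ℤ) 1 y k T u Y = Dk c y k T u Y := by
  unfold Pq.Dk Dk
  simp only [ro_iff]

open Classical in
lemma Pr_eq (c y u Y : ℕ) : Pq.Pr ((2 * c : ℕ) : ℤ) 1 y u Y = Pr c y u Y := by
  unfold Pq.Pr Pr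
  simp only [ro_iff]

open Classical in
lemma Nx_eq (c y T n : ℕ) : Pq.Nx ((2 * c : ℕ) : ℤ) 1 y T n = Nx c y T n := by
  unfold Pq.Nx Nx
  simp only [ro_iff]

lemma hyps (c : ℕ) (hc : 1 ≤ c) : ((2 * c : ℕ) : ℤ) ≠ 0 ∧ IsCoprime ((2 * c : ℕ) : ℤ) ((1 : ℕ) : ℤ) ∧
    (2 : ℤ) ∣ ((2 * c : ℕ) : ℤ) * ((1 : ℕ) : ℤ) := by
  refine ⟨by exact_mod_cast (by omega : 2 * c ≠ 0), ?_, ?_⟩
  · rw [Nat.cast_one]
    exact isCoprime_one_right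
  · rw [Nat.cast_one, mul_one]
    exact ⟨(c : ℤ), by push_cast; ring⟩

open Classical in
theorem gap (A : ℕ) (δ' θ : ℝ) (hδ' : 0 < δ') (hθ : 0 < θ) (k0 : ℕ) (x0 ε : ℝ) (hε : 0 < ε) :
    ∃ r0 : ℕ, ∀ r : ℕ, r0 ≤ r → ∀ᶠ X : ℕ in atTop, ∀ y : ℕ, y = ⌊(X : ℝ) ^ (1 / (r : ℝ))⌋₊ →
      ∀ c : ℕ, (X : ℝ) ^ δ' < 2 * c → 2 * c ≤ X ^ A →
      ∀ u Y : ℕ, (X : ℝ) ^ θ ≤ Y → ∀ k T : ℕ, (k ≤ k0 ∨ T * V c y ≤ x0) →
        |(Dk c y k T u Y : ℝ) - Y * V c y *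
            ∑ j ∈ range k, Real.exp (-(T * V c y)) * (T * V c y) ^ j / j.factorial| ≤
          ε * (Y * V c y) := by
  obtain ⟨r0, h0⟩ := Pq.pgap A δ' θ hδ' hθ k0 x0 ε hε
  refine ⟨r0, fun r hr => ?_⟩
  filter_upwards [h0 r hr, eventually_ge_atTop 1] with X hX hX1
  intro y hy c hcl hcX u Y hY k T hT
  have hc1 : 1 ≤ c := by
    by_contra hcon
    have h0 : c = 0 := by omega
    subst h0
    have h1 : (0 : ℝ) < (X : ℝ) ^ δ' := Real.rpow_pos_of_pos (by exact_mod_cast hX1) _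
    push_cast at hcl
    linarith
  obtain ⟨g1, g2, g3⟩ := hyps c hc1
  have h1 := hX y hy ((2 * c : ℕ) : ℤ) 1 le_rfl (Nat.one_le_pow _ _ hX1) g1 (by
    rw [abs_of_nonneg (by positivity)]
    exact_mod_cast hcX) g2 g3 (Or.inr (by
      rw [abs_of_nonneg (by positivity)]
      push_cast
      exact hcl)) u Y hY k T (by rw [V_eq]; exact hT)
  rw [Dk_eq, V_eq] at h1
  exact h1

open Classical in
theorem reg (A : ℕ) (θ : ℝ) (hθ : 0 < θ) :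
    ∃ r0 : ℕ, 2 ≤ r0 ∧ ∀ r : ℕ, r0 ≤ r → ∀ ε : ℝ, 0 < ε → ∃ κ : ℝ, 0 < κ ∧
      ∀ δ : ℝ, 0 < δ → ∃ M : ℕ, ∀ᶠ X : ℕ in atTop, ∀ y : ℕ, y = ⌊(X : ℝ) ^ (1 / (r : ℝ))⌋₊ →
      ∀ c : ℕ, 1 ≤ c → 2 * c ≤ X ^ A →
      ∀ u Y : ℕ, (X : ℝ) ^ θ ≤ Y → Y ≤ X → Y ≤ u → ∀ S : Set ℕ, (∀ m ∈ S, Ro c y m) →
        (cnt (Irregular S (1 / V c y) κ δ M Y) u (u + Y) : ℝ) ≤ ε * (Y * V c y) := by
  obtain ⟨r0, hr0, h0⟩ := Pq.preg A θ hθ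
  refine ⟨r0, hr0, fun r hr ε hε => ?_⟩
  obtain ⟨κ, hκ, h1⟩ := h0 r hr ε hε
  refine ⟨κ, hκ, fun δ hδ => ?_⟩
  obtain ⟨M, h2⟩ := h1 δ hδ
  refine ⟨M, ?_⟩
  filter_upwards [h2, eventually_ge_atTop 1] with X hX hX1
  intro y hy c hc1 hcX u Y hY hYX hYu S hS
  obtain ⟨g1, g2, g3⟩ := hyps c hc1
  have h3 := hX y hy ((2 * c : ℕ) : ℤ) 1 le_rfl (Nat.one_le_pow _ _ hX1) g1 (by
    rw [abs_of_nonneg (by positivity)]
    exact_mod_cast hcX) g2 g3 u Y hY hYX hYu S (fun m hm => (ro_iff c y m).2 (hS m hm))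
  rw [V_eq] at h3
  exact h3

open Classical in
theorem prime (A : ℕ) (δ' θ δ : ℝ) (hδ' : 0 < δ') (hθ : 0 < θ) (hδ : 0 < δ) (hδ1 : δ ≤ 1)
    (x0 ε : ℝ) (hε : 0 < ε) (hε1 : ε ≤ 1) :
    ∃ r0 : ℕ, 2 ≤ r0 ∧ ∀ r : ℕ, r0 ≤ r → ∀ᶠ N : ℕ in atTop, ∀ y : ℕ, y = ⌊(N : ℝ) ^ (1 / (r : ℝ))⌋₊ →
      ∀ c : ℕ, (N : ℝ) ^ δ' < 2 * c → 2 * c ≤ N ^ A →
      0 < W c y ∧ ∀ X : ℕ, (N : ℝ) ^ θ ≤ X → ∀ u Y : ℕ, δ * X ≤ Y → u + Y ≤ X →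
      |((Pr c y u Y).card : ℝ) * Real.log X - Y * W c y| ≤ ε * (Y * W c y) ∧
      ∀ T : ℕ, T * V c y ≤ x0 → ∀ J : Finset ℕ,
      |(((Pr c y u Y).filter (fun n => Nx c y T n ∈ J)).card : ℝ) - (Pr c y u Y).card *
          ∑ j ∈ J, Real.exp (-(T * V c y)) * (T * V c y) ^ j / j.factorial| ≤
        ε * (Pr c y u Y).card := by
  obtain ⟨r0, hr0, h0⟩ := Pq.pprime A δ' θ δ hδ' hθ hδ hδ1 x0 ε hε hε1
  refine ⟨r0, hr0, fun r hr => ?_⟩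
  filter_upwards [h0 r hr, eventually_ge_atTop 1] with N hN hN1
  intro y hy c hcl hcN
  have hc1 : 1 ≤ c := by
    by_contra hcon
    have h0 : c = 0 := by omega
    subst h0
    have h1 : (0 : ℝ) < (N : ℝ) ^ δ' := Real.rpow_pos_of_pos (by exact_mod_cast hN1) _
    push_cast at hcl
    linarith
  obtain ⟨g1, g2, g3⟩ := hyps c hc1
  have h1 := hN y hy ((2 * c : ℕ) : ℤ) 1 le_rfl (Nat.one_le_pow _ _ hN1) g1 (by
    rw [abs_of_nonneg (by positivity)]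
    exact_mod_cast hcN) g2 g3 (Or.inr (by
      rw [abs_of_nonneg (by positivity)]
      push_cast
      exact hcl))
  simp only [Pr_eq, Nx_eq, V_eq, W_eq] at h1
  exact h1

open Classical in
theorem nar (c : ℕ) (hc : 1 ≤ c)
    (θ : ℝ) (hθ : 0 < θ) (r : ℕ) (hr : 2 ≤ r) (l : ℕ) (hl : 2 ≤ l) (ε : ℝ) (hε : 0 < ε) :
    ∃ B : ℕ, ∀ᶠ X : ℕ in atTop, ∀ Y : ℕ, (X : ℝ) ^ θ ≤ Y → Y ≤ X →
      ∀ S : Set ℕ, (∀ m ∈ S, ∀ p : ℕ, p.Prime → (p ∣ m ∨ p ∣ m + 2 * c) →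
        (m : ℝ) ^ (1 / (r : ℝ)) < (p : ℝ)) →
        (((Ioc X (X + Y)).filter (fun m : ℕ =>
          m ∈ S ∧ ¬ Pq.InP S l (Real.log X ^ B) X (X + Y) m)).card : ℝ) ≤
        ε * (Y / Real.log X ^ 2) := by
  obtain ⟨g1, g2, g3⟩ := hyps c hc
  obtain ⟨B, hB⟩ := Pq.pnar ((2 * c : ℕ) : ℤ) 1 le_rfl g1 g2 g3 θ hθ r hr l hl ε hε
  refine ⟨B, ?_⟩
  filter_upwards [hB] with X hX Y hXY hYX S hS
  refine hX Y hXY hYX S (fun m hm p hp hd => hS m hm p hp ?_)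
  rcases hd with hd | hd
  · exact Or.inl hd
  · right
    have e : ((2 * c : ℕ) : ℤ) + (m : ℤ) * ((1 : ℕ) : ℤ) = ((m + 2 * c : ℕ) : ℤ) := by
      push_cast
      ring
    rw [e] at hd
    exact_mod_cast hd

end Pool.Agent.R490.Po
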