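import Pool.Agent.R490.Tup
import Pool.Agent.Y879.GL.Pattern

set_option autoImplicit false

/-!
# The law of the spacings of rough patterns between consecutive powers
-/

namespace Pool.Agent.R490.Pw

open Polynomial Finset Filter
open Pool.Agent.W123.RP Pool.Agent.H373R2.T7 Pool.Agent.W123.RU Pool.Agent.W123.RU.Poly
open Pool.Agent.TH464.PW Pool.Agent.TH464.PO Pool.Agent.Y879.GL
open Pool.Agent.R490.Tu (between)

open Classical in
/-- **The spacing law between consecutive powers.** -/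
theorem gapPow {k P0 M c : ℕ} {h : Fin k → ℕ} (H : Pat P0 M c h) (hlt : ∀ i, h i < M) (a : ℕ) (ha : 2 ≤ a)
    (g : ℕ → ℕ → Prop) (y1 : ℕ) (hg : ∀ y, y1 ≤ y → ∀ n, Rg M c h y n ↔ g y n) (k0 : ℕ) (x0 ε : ℝ) (hε : 0 < ε) :
    ∃ r0 : ℕ, ∀ r : ℕ, r0 ≤ r → ∀ᶠ n : ℕ in atTop, ∀ l T : ℕ,
      (l ≤ k0 ∨ T * VP P0 M k ⌊(n : ℝ) ^ (1 / (r : ℝ))⌋₊ ≤ x0) →
        |((((Ioo (n ^ a) ((n + 1) ^ a)).filter (fun m => g ⌊(n : ℝ) ^ (1 / (r : ℝ))⌋₊ m ∧
          ((Ico (m - T) m).filter (fun m' => g ⌊(n : ℝ) ^ (1 / (r : ℝ))⌋₊ m')).card < l)).card : ℕ) : ℝ) -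
          (((n + 1) ^ a - 1 - n ^ a : ℕ) : ℝ) * VP P0 M k ⌊(n : ℝ) ^ (1 / (r : ℝ))⌋₊ *
            ∑ j ∈ range l, Real.exp (-(T * VP P0 M k ⌊(n : ℝ) ^ (1 / (r : ℝ))⌋₊)) *
              (T * VP P0 M k ⌊(n : ℝ) ^ (1 / (r : ℝ))⌋₊) ^ j / j.factorial| ≤
          ε * ((((n + 1) ^ a - 1 - n ^ a : ℕ) : ℝ) * VP P0 M k ⌊(n : ℝ) ^ (1 / (r : ℝ))⌋₊) := by
  obtain ⟨r0, h0⟩ := gap_pat H hlt 1 one_pos k0 x0 ε hε
  refine ⟨max r0 1, ?_⟩
  intro r hr
  have hr1 : 1 ≤ r := (le_max_right _ _).trans hr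
  have hr0 : (0 : ℝ) < r := by exact_mod_cast hr1
  have hpow : Tendsto (fun n : ℕ => (n : ℝ) ^ (1 / (r : ℝ))) atTop atTop :=
    (tendsto_rpow_atTop (by positivity)).comp tendsto_natCast_atTop_atTop
  filter_upwards [h0 r ((le_max_left _ _).trans hr), hpow.eventually_ge_atTop (y1 : ℝ), eventually_ge_atTop 1,
    eventually_ge_atTop c] with n h1 h2 hn1 hnc
  intro l T hT
  obtain ⟨b1, b2, b3⟩ := between a n ha hn1
  obtain ⟨Y, hY⟩ : ∃ Y, Y = (n + 1) ^ a - 1 - n ^ a := ⟨_, rfl⟩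
  rw [← hY] at b1 b2 b3 ⊢
  obtain ⟨y, hy⟩ : ∃ y, y = ⌊(n : ℝ) ^ (1 / (r : ℝ))⌋₊ := ⟨_, rfl⟩
  rw [← hy] at h1 hT ⊢
  have hyy : y1 ≤ y := by rw [hy]; exact Nat.le_floor h2
  have hna : n ≤ n ^ a := Nat.le_self_pow (by omega) n
  have hnY : (n : ℝ) ^ (1 : ℝ) ≤ Y := by
    rw [Real.rpow_one]
    have : n ≤ Y := le_trans (Nat.le_self_pow (by omega) n) b2
    exact_mod_cast this
  have h3 := h1 (n ^ a) Y (hnc.trans hna) hnY l T hT
  have e6 : Ioo (n ^ a) ((n + 1) ^ a) = Ioc (n ^ a) (n ^ a + Y) := by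
    ext m
    rw [mem_Ioo, mem_Ioc, b1]
    have : 1 ≤ (n + 1) ^ a := Nat.one_le_pow _ _ (by omega)
    omega
  rw [e6]
  have e7 : Rg M c h y = fun m => g y m := by
    funext m
    exact propext (hg y hyy m)
  unfold Pk at h3
  rw [e7] at h3
  exact h3

lemma pat_twin : Pat 3 6 5 (![0, 2] : Fin 2 → ℕ) where
  hM := by norm_num
  hc := by norm_num
  hk := by norm_num
  hkP := by norm_num
  hpr := by
    intro p hp
    constructor
    · intro h
      have h1 : p ∣ 2 * 3 := h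
      rcases (Nat.Prime.dvd_mul hp).1 h1 with h2 | h2
      · exact (Nat.le_of_dvd (by norm_num) h2).trans (by norm_num)
      · exact Nat.le_of_dvd (by norm_num) h2
    · intro h
      have := hp.two_le
      have h3 : p = 2 ∨ p = 3 := by omega
      rcases h3 with rfl | rfl <;> norm_num
  cop := by decide
  inj := by decide
  dif := by
    intro i j hij p hp hp3 hd
    have h1 : (p : ℤ) ∣ 2 := by
      have e : ∀ i j : Fin 2, i ≠ j → ((((![0, 2] : Fin 2 → ℕ) i : ℕ) : ℤ) - (((![0, 2] : Fin 2 → ℕ) j : ℕ) : ℤ)) ∣ 2 := by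
        decide
      exact hd.trans (e i j hij)
    have h2 : p ∣ 2 := by exact_mod_cast h1
    have := Nat.le_of_dvd (by norm_num) h2
    omega

lemma twin_iff (y : ℕ) (hy : 3 ≤ y) (n : ℕ) :
    Rg 6 5 (![0, 2] : Fin 2 → ℕ) y n ↔ ∀ p : ℕ, p.Prime → p ≤ y → ¬ p ∣ n ∧ ¬ p ∣ n + 2 := by
  unfold Rg
  constructor
  · rintro ⟨_, h⟩ p hp hpy
    exact ⟨h p hp hpy 0, h p hp hpy 1⟩
  · intro h
    refine ⟨?_, fun p hp hpy i => ?_⟩
    · have h2 := (h 2 Nat.prime_two (by omega)).1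
      have h3 := h 3 Nat.prime_three hy
      have hlt : n % 6 < 6 := Nat.mod_lt _ (by norm_num)
      interval_cases hs : n % 6 <;> omega
    · fin_cases i
      · exact (h p hp hpy).1
      · exact (h p hp hpy).2

lemma pat_quad : Pat 5 30 11 (![0, 2, 6, 8] : Fin 4 → ℕ) where
  hM := by norm_num
  hc := by norm_num
  hk := by norm_num
  hkP := by norm_num
  hpr := by
    intro p hp
    constructor
    · intro h
      have h1 : p ∣ 2 * (3 * 5) := h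
      rcases (Nat.Prime.dvd_mul hp).1 h1 with h2 | h2
      · exact (Nat.le_of_dvd (by norm_num) h2).trans (by norm_num)
      · rcases (Nat.Prime.dvd_mul hp).1 h2 with h3 | h3
        · exact (Nat.le_of_dvd (by norm_num) h3).trans (by norm_num)
        · exact Nat.le_of_dvd (by norm_num) h3
    · intro h
      have := hp.two_le
      have h3 : p = 2 ∨ p = 3 ∨ p = 4 ∨ p = 5 := by omega
      rcases h3 with rfl | rfl | rfl | rfl
      · norm_num
      · norm_num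
      · exact absurd hp (by norm_num)
      · norm_num
  cop := by decide
  inj := by decide
  dif := by
    intro i j hij p hp hp3 hd
    have h1 : (p : ℤ) ∣ 24 := by
      have e : ∀ i j : Fin 4, i ≠ j → ((((![0, 2, 6, 8] : Fin 4 → ℕ) i : ℕ) : ℤ) - (((![0, 2, 6, 8] : Fin 4 → ℕ) j : ℕ) : ℤ)) ∣ 24 := by
        decide
      exact hd.trans (e i j hij)
    have h2 : p ∣ 2 ^ 3 * 3 := by exact_mod_cast h1
    rcases (Nat.Prime.dvd_mul hp).1 h2 with h3 | h3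
    · have := Nat.le_of_dvd (by norm_num) (hp.dvd_of_dvd_pow h3)
      omega
    · have := Nat.le_of_dvd (by norm_num) h3
      omega

lemma quad_iff (y : ℕ) (hy : 5 ≤ y) (n : ℕ) :
    Rg 30 11 (![0, 2, 6, 8] : Fin 4 → ℕ) y n ↔ ∀ p : ℕ, p.Prime → p ≤ y →
      ¬ p ∣ n ∧ ¬ p ∣ n + 2 ∧ ¬ p ∣ n + 6 ∧ ¬ p ∣ n + 8 := by
  unfold Rg
  constructor
  · rintro ⟨_, h⟩ p hp hpy
    exact ⟨h p hp hpy 0, h p hp hpy 1, h p hp hpy 2, h p hp hpy 3⟩
  · intro h
    refine ⟨?_, fun p hp hpy i => ?_⟩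
    · have h2 := (h 2 Nat.prime_two (by omega)).1
      have h3 := h 3 Nat.prime_three (by omega)
      have h5 := h 5 Nat.prime_five hy
      have hlt : n % 30 < 30 := Nat.mod_lt _ (by norm_num)
      interval_cases hs : n % 30 <;> omega
    · fin_cases i
      · exact (h p hp hpy).1
      · exact (h p hp hpy).2.1
      · exact (h p hp hpy).2.2.1
      · exact (h p hp hpy).2.2.2

end Pool.Agent.R490.Pw
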