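import Pool.Agent.R490.LZ

set_option autoImplicit false

/-!
# The two forms `n` and `a + n d`
-/

namespace Pool.Agent.R490.Pq

open Polynomial Finset Filter
open Pool.Agent.R490.Sg (D1 cnt RightOrder ConstantDensity badScales Irregular)

/-- neither `n` nor `a + n d` has a prime factor `≤ y` -/
def Ro (a : ℤ) (d y n : ℕ) : Prop := ∀ p : ℕ, p.Prime → p ≤ y → ¬ p ∣ n ∧ ¬ (p : ℤ) ∣ a + n * d

/-- `1` if `p ∣ a d`, otherwise `2` -/
def w (a : ℤ) (d p : ℕ) : ℕ := if (p : ℤ) ∣ a * d then 1 else 2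

/-- the density -/
noncomputable def V (a : ℤ) (d y : ℕ) : ℝ :=
  ∏ p ∈ (Finset.range (y + 1)).filter Nat.Prime, (1 - (w a d p : ℝ) / p)

/-- the density relative to the primes -/
noncomputable def W (a : ℤ) (d y : ℕ) : ℝ :=
  ∏ p ∈ (Finset.range (y + 1)).filter Nat.Prime, (1 - (w a d p : ℝ) / p) / (1 - 1 / (p : ℝ))

/-- the forms -/
def fo (a : ℤ) (d : ℕ) : Finset (ℤ × ℤ) := {((1 : ℤ), (0 : ℤ)), ((d : ℤ), a)}

lemma fo_card (a : ℤ) (d : ℕ) (ha : a ≠ 0) : (fo a d).card = 2 :=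
  Finset.card_pair (fun h => ha (Prod.ext_iff.1 h).2.symm)

lemma fo_ex (a : ℤ) (d p m : ℕ) :
    (∃ l ∈ fo a d, (p : ℤ) ∣ l.1 * m + l.2) ↔ (p ∣ m ∨ (p : ℤ) ∣ a + m * d) := by
  unfold fo
  simp only [Finset.mem_insert, Finset.mem_singleton, exists_eq_or_imp, exists_eq_left, one_mul, add_zero]
  rw [Int.natCast_dvd_natCast, show (d : ℤ) * m + a = a + m * d by ring]

open Classical in
lemma w_eq (a : ℤ) (d p : ℕ) (hp : p.Prime) (hc : IsCoprime a (d : ℤ)) :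
    ((Finset.range p).filter (fun m : ℕ => ∃ l ∈ fo a d, (p : ℤ) ∣ l.1 * m + l.2)).card = w a d p := by
  simp only [fo_ex]
  have hpp := Fact.mk hp
  have hpi : Prime (p : ℤ) := Nat.prime_iff_prime_int.1 hp
  unfold w
  by_cases hd : (p : ℤ) ∣ (d : ℤ)
  · rw [if_pos (Dvd.dvd.mul_left hd a)]
    have hna : ¬ (p : ℤ) ∣ a := fun h => hpi.not_isUnit (hc.isUnit_of_dvd' h hd)
    rw [Finset.card_eq_one]
    refine ⟨0, ?_⟩
    ext m
    simp only [Finset.mem_filter, Finset.mem_range, Finset.mem_singleton]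
    constructor
    · rintro ⟨hm, h | h⟩
      · exact Nat.eq_zero_of_dvd_of_lt h hm
      · exact absurd ((dvd_add_left (Dvd.dvd.mul_left hd _)).1 h) hna
    · rintro rfl
      exact ⟨hp.pos, Or.inl (dvd_zero _)⟩
  · have hd0 : ((d : ℕ) : ZMod p) ≠ 0 := by
      rw [Ne, ZMod.natCast_eq_zero_iff]
      exact_mod_cast hd
    obtain ⟨x, hx⟩ : ∃ x : ℕ, x = (-(a : ZMod p) * (d : ZMod p)⁻¹).val := ⟨_, rfl⟩
    have hxp : x < p := by rw [hx]; exact ZMod.val_lt _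
    have hxc : (x : ZMod p) = -(a : ZMod p) * (d : ZMod p)⁻¹ := by
      rw [hx, ZMod.natCast_val, ZMod.cast_id]
    have hroot : ∀ m : ℕ, m < p → ((p : ℤ) ∣ a + m * d ↔ m = x) := by
      intro m hm
      rw [← ZMod.intCast_zmod_eq_zero_iff_dvd]
      push_cast
      constructor
      · intro h
        have h1 : (m : ZMod p) = x := by
          rw [hxc]
          field_simp
          linear_combination h
        exact Nat.ModEq.eq_of_lt_of_lt ((ZMod.natCast_eq_natCast_iff _ _ _).1 h1) hm hxp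
      · rintro rfl
        rw [hxc]
        field_simp
        ring
    have hx0 : x = 0 ↔ (p : ℤ) ∣ a * d := by
      have h0 := hroot 0 hp.pos
      rw [Nat.cast_zero, zero_mul, add_zero] at h0
      constructor
      · intro h
        exact Dvd.dvd.mul_right (h0.2 h.symm) _
      · intro h
        rcases hpi.dvd_or_dvd h with h1 | h1
        · exact (h0.1 h1).symm
        · exact absurd h1 hd
    have hset : (Finset.range p).filter (fun m : ℕ => p ∣ m ∨ (p : ℤ) ∣ a + m * d) = {0, x} := by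
      ext m
      simp only [Finset.mem_filter, Finset.mem_range, Finset.mem_insert, Finset.mem_singleton]
      constructor
      · rintro ⟨hm, h | h⟩
        · exact Or.inl (Nat.eq_zero_of_dvd_of_lt h hm)
        · exact Or.inr ((hroot m hm).1 h)
      · rintro (rfl | h)
        · exact ⟨hp.pos, Or.inl (dvd_zero _)⟩
        · exact ⟨by omega, Or.inr ((hroot m (by omega)).2 h)⟩
    rw [hset]
    split_ifs with h
    · rw [hx0.2 h]
      simp
    · exact Finset.card_pair (fun h1 => h (hx0.1 h1.symm))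

lemma V_eq (a : ℤ) (d y : ℕ) (hc : IsCoprime a (d : ℤ)) : LZ.De (fo a d) y = V a d y := by
  unfold LZ.De V
  apply Finset.prod_congr rfl
  intro p hp
  rw [w_eq a d p (Finset.mem_filter.1 hp).2 hc]

lemma W_eq (a : ℤ) (d y : ℕ) (hc : IsCoprime a (d : ℤ)) : LZ.Wr (fo a d) y = W a d y := by
  unfold LZ.Wr W
  apply Finset.prod_congr rfl
  intro p hp
  rw [w_eq a d p (Finset.mem_filter.1 hp).2 hc]

lemma ro_iff (a : ℤ) (d y m : ℕ) : LZ.Ro (fo a d) y m ↔ Ro a d y m := by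
  unfold LZ.Ro Ro
  constructor
  · intro h p hp hpy
    have h1 : ¬ ∃ l ∈ fo a d, (p : ℤ) ∣ l.1 * m + l.2 := by
      rintro ⟨l, hl, hd⟩
      exact h p hp hpy l hl hd
    rw [fo_ex] at h1
    push Not at h1
    exact h1
  · intro h p hp hpy l hl hd
    rcases (fo_ex a d p m).1 ⟨l, hl, hd⟩ with h1 | h1
    · exact (h p hp hpy).1 h1
    · exact (h p hp hpy).2 h1

lemma fo_good (N : ℕ) (a : ℤ) (d : ℕ) (hN1 : 1 ≤ N) (hd : 1 ≤ d) (hdN : d ≤ N) (haN : |a| ≤ N)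
    (hc : IsCoprime a (d : ℤ)) (h2 : (2 : ℤ) ∣ a * d) : LZ.Good N (fo a d) where
  one := fun l hl => by
    unfold fo at hl
    simp only [Finset.mem_insert, Finset.mem_singleton] at hl
    rcases hl with rfl | rfl
    · exact le_rfl
    · have h1 : (1 : ℤ) ≤ d := by exact_mod_cast hd
      exact h1
  bda := fun l hl => by
    unfold fo at hl
    simp only [Finset.mem_insert, Finset.mem_singleton] at hl
    rcases hl with rfl | rfl
    · have h1 : (1 : ℤ) ≤ N := by exact_mod_cast hN1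
      exact h1
    · have h1 : (d : ℤ) ≤ N := by exact_mod_cast hdN
      exact h1
  bdb := fun l hl => by
    unfold fo at hl
    simp only [Finset.mem_insert, Finset.mem_singleton] at hl
    rcases hl with rfl | rfl
    · simp
    · exact haN
  adm := fun p hp => by
    classical
    have h1 := w_eq a d p hp hc
    have h3 : w a d p < p := by
      unfold w
      split_ifs with h
      · exact hp.one_lt
      · have : p ≠ 2 := by
          rintro rfl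
          exact h (by exact_mod_cast h2)
        have := hp.two_le
        omega
    by_contra hcon
    push Not at hcon
    have h4 : (Finset.range p).filter (fun m : ℕ => ∃ l ∈ fo a d, (p : ℤ) ∣ l.1 * m + l.2) = Finset.range p := by
      apply Finset.filter_true_of_mem
      intro m _
      exact hcon m
    rw [h4, Finset.card_range] at h1
    omega

lemma fo_noT (a : ℤ) (d : ℕ) (hd : 1 ≤ d) (U : ℝ) (h : 2 ≤ d ∨ U < |(a : ℝ)|) : LZ.NoT (fo a d) U := by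
  intro l hl l' hl' t ht htU h1 h2
  have ht' : (1 : ℤ) ≤ t := by exact_mod_cast ht
  unfold fo at hl hl'
  simp only [Finset.mem_insert, Finset.mem_singleton] at hl hl'
  rcases hl with rfl | rfl
  · rcases hl' with rfl | rfl
    · simp only [one_mul, zero_add] at h2
      omega
    · simp only at h1 h2
      rcases h with h | h
      · omega
      · have h3 : a = -(t : ℤ) := by
          rw [← h1, one_mul] at h2
          omega
        rw [h3] at h
        push_cast at h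
        rw [abs_neg, abs_of_nonneg (Nat.cast_nonneg _)] at h
        linarith
  · rcases hl' with rfl | rfl
    · simp only at h1 h2
      rcases h with h | h
      · omega
      · have h3 : a = (t : ℤ) := by
          rw [one_mul] at h2
          omega
        rw [h3] at h
        push_cast at h
        rw [abs_of_nonneg (Nat.cast_nonneg _)] at h
        linarith
    · simp only at h2
      have hd' : (1 : ℤ) ≤ d := by exact_mod_cast hd
      have : (d : ℤ) * t = 0 := by linarith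
      rcases mul_eq_zero.1 this with h | h <;> omega

open Classical in
/-- the counting function of the spacings -/
noncomputable def Dk (a : ℤ) (d y k T u Y : ℕ) : ℕ :=
  ((Ioc u (u + Y)).filter (fun n => Ro a d y n ∧ ((Ico (n - T) n).filter (fun m => Ro a d y m)).card < k)).card

open Classical in
/-- the primes `n` with `Ro a d y n` -/
noncomputable def Pr (a : ℤ) (d y u Y : ℕ) : Finset ℕ :=
  (Ioc u (u + Y)).filter (fun n => n.Prime ∧ Ro a d y n)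

open Classical in
/-- the number of the following `m` with `Ro a d y m` -/
noncomputable def Nx (a : ℤ) (d y T n : ℕ) : ℕ := ((Ioc n (n + T)).filter (fun m => Ro a d y m)).card

open Classical in
theorem pgap (A : ℕ) (δ' θ : ℝ) (hδ' : 0 < δ') (hθ : 0 < θ) (k0 : ℕ) (x0 ε : ℝ) (hε : 0 < ε) :
    ∃ r0 : ℕ, ∀ r : ℕ, r0 ≤ r → ∀ᶠ X : ℕ in atTop, ∀ y : ℕ, y = ⌊(X : ℝ) ^ (1 / (r : ℝ))⌋₊ →
      ∀ (a : ℤ) (d : ℕ), 1 ≤ d → d ≤ X ^ A → a ≠ 0 → |a| ≤ (X : ℤ) ^ A → IsCoprime a (d : ℤ) → (2 : ℤ) ∣ a * d →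
      (2 ≤ d ∨ (X : ℝ) ^ δ' < |(a : ℝ)|) →
      ∀ u Y : ℕ, (X : ℝ) ^ θ ≤ Y → ∀ k T : ℕ, (k ≤ k0 ∨ T * V a d y ≤ x0) →
        |(Dk a d y k T u Y : ℝ) - Y * V a d y *
            ∑ j ∈ range k, Real.exp (-(T * V a d y)) * (T * V a d y) ^ j / j.factorial| ≤
          ε * (Y * V a d y) := by
  obtain ⟨r0, h0⟩ := LZ.gapL 2 A le_rfl δ' θ hδ' hθ k0 x0 ε hε
  refine ⟨r0, fun r hr => ?_⟩
  filter_upwards [h0 r hr, eventually_ge_atTop 1] with X hX hX1
  intro y hy a d hd hdX ha haX hc h2 hor u Y hY k T hT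
  have h1 := hX (fo a d) (fo_card a d ha)
    (fo_good _ a d (Nat.one_le_pow _ _ hX1) hd hdX (by exact_mod_cast haX) hc h2)
    (fo_noT a d hd _ hor) y hy u Y hY k T (by rw [V_eq a d y hc]; exact hT)
  rw [V_eq a d y hc] at h1
  have eD : LZ.Dk (fo a d) y k T u Y = Dk a d y k T u Y := by
    unfold LZ.Dk Dk
    simp only [ro_iff]
  rw [eD] at h1
  exact h1

open Classical in
theorem preg (A : ℕ) (θ : ℝ) (hθ : 0 < θ) :
    ∃ r0 : ℕ, 2 ≤ r0 ∧ ∀ r : ℕ, r0 ≤ r → ∀ ε : ℝ, 0 < ε → ∃ c : ℝ, 0 < c ∧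
      ∀ δ : ℝ, 0 < δ → ∃ M : ℕ, ∀ᶠ X : ℕ in atTop, ∀ y : ℕ, y = ⌊(X : ℝ) ^ (1 / (r : ℝ))⌋₊ →
      ∀ (a : ℤ) (d : ℕ), 1 ≤ d → d ≤ X ^ A → a ≠ 0 → |a| ≤ (X : ℤ) ^ A → IsCoprime a (d : ℤ) → (2 : ℤ) ∣ a * d →
      ∀ u Y : ℕ, (X : ℝ) ^ θ ≤ Y → Y ≤ X → Y ≤ u → ∀ S : Set ℕ, (∀ m ∈ S, Ro a d y m) →
        (cnt (Irregular S (1 / V a d y) c δ M Y) u (u + Y) : ℝ) ≤ ε * (Y * V a d y) := by
  obtain ⟨r0, hr0, h0⟩ := LZ.regL 2 A le_rfl θ hθ
  refine ⟨r0, hr0, fun r hr ε hε => ?_⟩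
  obtain ⟨c, hc, h1⟩ := h0 r hr ε hε
  refine ⟨c, hc, fun δ hδ => ?_⟩
  obtain ⟨M, h2⟩ := h1 δ hδ
  refine ⟨M, ?_⟩
  filter_upwards [h2, eventually_ge_atTop 1] with X hX hX1
  intro y hy a d hd hdX ha haX hco h2' u Y hY hYX hYu S hS
  have h3 := hX (fo a d) (fo_card a d ha)
    (fo_good _ a d (Nat.one_le_pow _ _ hX1) hd hdX (by exact_mod_cast haX) hco h2')
    y hy u Y hY hYX hYu S (fun m hm => (ro_iff a d y m).2 (hS m hm))
  rw [V_eq a d y hco] at h3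
  exact h3

open Classical in
theorem pprime (A : ℕ) (δ' θ δ : ℝ) (hδ' : 0 < δ') (hθ : 0 < θ) (hδ : 0 < δ) (hδ1 : δ ≤ 1)
    (x0 ε : ℝ) (hε : 0 < ε) (hε1 : ε ≤ 1) :
    ∃ r0 : ℕ, 2 ≤ r0 ∧ ∀ r : ℕ, r0 ≤ r → ∀ᶠ N : ℕ in atTop, ∀ y : ℕ, y = ⌊(N : ℝ) ^ (1 / (r : ℝ))⌋₊ →
      ∀ (a : ℤ) (d : ℕ), 1 ≤ d → d ≤ N ^ A → a ≠ 0 → |a| ≤ (N : ℤ) ^ A → IsCoprime a (d : ℤ) → (2 : ℤ) ∣ a * d →
      (2 ≤ d ∨ (N : ℝ) ^ δ' < |(a : ℝ)|) →
      0 < W a d y ∧ ∀ X : ℕ, (N : ℝ) ^ θ ≤ X → ∀ u Y : ℕ, δ * X ≤ Y → u + Y ≤ X →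
      |((Pr a d y u Y).card : ℝ) * Real.log X - Y * W a d y| ≤ ε * (Y * W a d y) ∧
      ∀ T : ℕ, T * V a d y ≤ x0 → ∀ J : Finset ℕ,
      |(((Pr a d y u Y).filter (fun n => Nx a d y T n ∈ J)).card : ℝ) - (Pr a d y u Y).card *
          ∑ j ∈ J, Real.exp (-(T * V a d y)) * (T * V a d y) ^ j / j.factorial| ≤
        ε * (Pr a d y u Y).card := by
  obtain ⟨r0, hr0, h0⟩ := LZ.primeL 1 2 A squarefree_one le_rfl δ' θ δ hδ' hθ hδ hδ1 x0 ε hε hε1
  refine ⟨r0, hr0, fun r hr => ?_⟩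
  filter_upwards [h0 r hr, eventually_ge_atTop 1] with N hN hN1
  intro y hy a d hd hdX ha haX hc h2 hor
  have h1 := hN (fo a d) 0 (fo_card a d ha) (by
      unfold fo
      simp) (by push_cast; positivity)
    (fun p hp h1 => absurd (Nat.dvd_one.1 h1) hp.one_lt.ne')
    (fo_good _ a d (Nat.one_le_pow _ _ hN1) hd hdX (by exact_mod_cast haX) hc h2)
    (fo_noT a d hd _ hor) y hy
  have eP : ∀ u Y, LZ.Pr 1 0 (fo a d) y u Y = Pr a d y u Y := by
    intro u Y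
    unfold LZ.Pr Pr
    simp only [ro_iff, one_mul, add_zero]
  have eN : ∀ B n, LZ.Nx (fo a d) y B n = Nx a d y B n := by
    intro B n
    unfold LZ.Nx Nx
    simp only [ro_iff]
  rw [W_eq a d y hc, V_eq a d y hc] at h1
  simp only [eP, eN] at h1
  exact h1

/-- `m` is a term of an `l`-term arithmetic progression with difference at most `D`, all terms of which
are elements of `A` in `(X, Z]`. -/
def InP (A : Set ℕ) (l : ℕ) (D : ℝ) (X Z m : ℕ) : Prop :=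
  ∃ s d : ℕ, 1 ≤ d ∧ (d : ℝ) ≤ D ∧ (∀ i < l, s + i * d ∈ A ∧ X < s + i * d ∧ s + i * d ≤ Z) ∧
    ∃ i < l, m = s + i * d

open Classical in
theorem pnar (a : ℤ) (d : ℕ) (hd : 1 ≤ d) (ha : a ≠ 0) (hc : IsCoprime a (d : ℤ)) (h2 : (2 : ℤ) ∣ a * d)
    (θ : ℝ) (hθ : 0 < θ) (r : ℕ) (hr : 2 ≤ r) (l : ℕ) (hl : 2 ≤ l) (ε : ℝ) (hε : 0 < ε) :
    ∃ B : ℕ, ∀ᶠ X : ℕ in atTop, ∀ Y : ℕ, (X : ℝ) ^ θ ≤ Y → Y ≤ X →
      ∀ S : Set ℕ, (∀ m ∈ S, ∀ p : ℕ, p.Prime → (p ∣ m ∨ (p : ℤ) ∣ a + m * d) →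
        (m : ℝ) ^ (1 / (r : ℝ)) < (p : ℝ)) →
        (((Ioc X (X + Y)).filter (fun m : ℕ =>
          m ∈ S ∧ ¬ InP S l (Real.log X ^ B) X (X + Y) m)).card : ℝ) ≤
        ε * (Y / Real.log X ^ 2) := by
  have hne : (fo a d).Nonempty := ⟨((1 : ℤ), (0 : ℤ)), by unfold fo; simp⟩
  obtain ⟨B, hB⟩ := LZ.narL (fo_good (1 + d + a.natAbs) a d (by omega) hd (by omega) (by
      rw [Int.abs_eq_natAbs]
      push_cast
      omega) hc h2) hne θ hθ r hr l hl ε hε
  refine ⟨B, ?_⟩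
  filter_upwards [hB] with X hX Y hXY hYX S hS
  have h1 := hX Y hXY hYX S (fun m hm l hl p hp hd => hS m hm p hp ((fo_ex a d p m).1 ⟨l, hl, hd⟩))
  rw [fo_card a d ha] at h1
  refine le_trans (le_of_eq ?_) h1
  congr 2
  apply filter_congr
  intro m _
  unfold InP Pool.Agent.R490.Tu.InP
  simp only [Order.lt_add_one_iff]

end Pool.Agent.R490.Pq
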