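import Pool.Agent.R490.Tup

set_option autoImplicit false

/-!
# Tuples in progressions, and the forms `q r + 1`: the laws of the spacings and regular points
-/

namespace Pool.Agent.R490.Pg

open Polynomial Finset Filter
open Pool.Agent.W123.RP Pool.Agent.H373R2.T7 Pool.Agent.W123.RU Pool.Agent.W123.RU.Poly
open Pool.Agent.TH464.PW Pool.Agent.TH464.PO Pool.Agent.Y879.GL
open Pool.Agent.R490.Sg (D1 pz_eq Vz_D1 cnt RightOrder ConstantDensity badScales Irregular)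

/-! ## General transfer -/

/-- `g` describes the zeros of the product of the forms of `L` -/
def Rep (L : Finset (ℕ × ℕ)) (g : ℕ → ℕ → Prop) : Prop := ∀ p m : ℕ, (∃ l ∈ L, p ∣ l.1 * m + l.2) ↔ g p m

/-- sifted by `g` -/
def Ro (g : ℕ → ℕ → Prop) (y m : ℕ) : Prop := ∀ p : ℕ, p.Prime → p ≤ y → ¬ g p m

open Classical in
/-- density -/
noncomputable def De (g : ℕ → ℕ → Prop) (y : ℕ) : ℝ := ∏ p ∈ (Finset.range (y + 1)).filter Nat.Prime,
    (1 - (((Finset.range p).filter (fun m : ℕ => g p m)).card : ℝ) / p)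

lemma rep_Ro {L : Finset (ℕ × ℕ)} {g : ℕ → ℕ → Prop} (h : Rep L g) (y m : ℕ) : Li.Ro L y m ↔ Ro g y m := by
  unfold Li.Ro Ro
  constructor
  · intro h1 p hp hpy hg
    obtain ⟨l, hl, hd⟩ := (h p m).2 hg
    exact h1 p hp hpy l hl hd
  · intro h1 p hp hpy l hl hd
    exact h1 p hp hpy ((h p m).1 ⟨l, hl, hd⟩)

open Classical in
lemma rep_De {L : Finset (ℕ × ℕ)} {g : ℕ → ℕ → Prop} (h : Rep L g) (y : ℕ) : Li.De L y = De g y := by
  unfold Li.De De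
  apply Finset.prod_congr rfl
  intro p _
  congr 4
  apply Finset.filter_congr
  intro m _
  exact h p m

open Classical in
/-- the counting function of the spacings -/
noncomputable def Dk (g : ℕ → ℕ → Prop) (y k T u Y : ℕ) : ℕ :=
  ((Ioc u (u + Y)).filter (fun n => Ro g y n ∧ ((Ico (n - T) n).filter (fun m => Ro g y m)).card < k)).card

open Classical in
lemma rep_Dk {L : Finset (ℕ × ℕ)} {g : ℕ → ℕ → Prop} (h : Rep L g) (y k T u Y : ℕ) :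
    Li.Dk L y k T u Y = Dk g y k T u Y := by
  have e : Li.Ro L y = fun m => Ro g y m := by
    funext m
    exact propext (rep_Ro h y m)
  unfold Li.Dk Dk
  rw [e]

/-- the law of the spacings in terms of `g` -/
theorem gapR (k A : ℕ) (hk2 : 2 ≤ k) (θ : ℝ) (hθ : 0 < θ) (k0 : ℕ) (x0 ε : ℝ) (hε : 0 < ε) :
    ∃ r0 : ℕ, ∀ r : ℕ, r0 ≤ r → ∀ᶠ X : ℕ in atTop, ∀ (L : Finset (ℕ × ℕ)) (g : ℕ → ℕ → Prop), L.card = k →
      Rep L g → Li.Good (X ^ A) L → Li.NoT L →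
      ∀ u Y : ℕ, (X : ℝ) ^ θ ≤ Y → ∀ l T : ℕ, (l ≤ k0 ∨ T * De g ⌊(X : ℝ) ^ (1 / (r : ℝ))⌋₊ ≤ x0) →
        |(Dk g ⌊(X : ℝ) ^ (1 / (r : ℝ))⌋₊ l T u Y : ℝ) - Y * De g ⌊(X : ℝ) ^ (1 / (r : ℝ))⌋₊ *
          ∑ j ∈ range l, Real.exp (-(T * De g ⌊(X : ℝ) ^ (1 / (r : ℝ))⌋₊)) *
            (T * De g ⌊(X : ℝ) ^ (1 / (r : ℝ))⌋₊) ^ j / j.factorial| ≤
          ε * (Y * De g ⌊(X : ℝ) ^ (1 / (r : ℝ))⌋₊) := by
  obtain ⟨r0, h0⟩ := Li.gapL k A hk2 θ hθ k0 x0 ε hε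
  refine ⟨r0, fun r hr => ?_⟩
  filter_upwards [h0 r hr] with X hX
  intro L g hL hR hG hN u Y hY l T hT
  have h1 := hX L hL hG hN _ rfl u Y hY l T (by rw [rep_De hR]; exact hT)
  rw [rep_De hR, rep_Dk hR] at h1
  exact h1

open Classical in
/-- the regular points in terms of `g` -/
theorem regR (k A : ℕ) (hk2 : 2 ≤ k) (θ : ℝ) (hθ : 0 < θ) :
    ∃ r0 : ℕ, 2 ≤ r0 ∧ ∀ r : ℕ, r0 ≤ r → ∀ ε : ℝ, 0 < ε → ∃ c : ℝ, 0 < c ∧
      ∀ δ : ℝ, 0 < δ → ∃ M : ℕ, ∀ᶠ X : ℕ in atTop, ∀ (L : Finset (ℕ × ℕ)) (g : ℕ → ℕ → Prop), L.card = k →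
      Rep L g → Li.Good (X ^ A) L →
      ∀ u Y : ℕ, (X : ℝ) ^ θ ≤ Y → Y ≤ X → Y ≤ u → ∀ S : Set ℕ,
        (∀ m ∈ S, Ro g ⌊(X : ℝ) ^ (1 / (r : ℝ))⌋₊ m) →
        (cnt (Irregular S (1 / De g ⌊(X : ℝ) ^ (1 / (r : ℝ))⌋₊) c δ M Y) u (u + Y) : ℝ) ≤
          ε * (Y * De g ⌊(X : ℝ) ^ (1 / (r : ℝ))⌋₊) := by
  obtain ⟨r0, hr0, h0⟩ := Li.regL k A hk2 θ hθ
  refine ⟨r0, hr0, fun r hr ε hε => ?_⟩
  obtain ⟨c, hc, h1⟩ := h0 r hr ε hε
  refine ⟨c, hc, fun δ hδ => ?_⟩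
  obtain ⟨M, h2⟩ := h1 δ hδ
  refine ⟨M, ?_⟩
  filter_upwards [h2] with X hX
  intro L g hL hR hG u Y hY hYX hYu S hS
  have h1 := hX L hL hG _ rfl u Y hY hYX hYu S (fun m hm => (rep_Ro hR _ m).2 (hS m hm))
  rw [rep_De hR] at h1
  exact h1

/-! ## Tuples in progressions -/

/-- the forms `q m + a + h` -/
def fq (q a : ℕ) (H : Finset ℕ) : Finset (ℕ × ℕ) := H.image (fun h => (q, a + h))

lemma fq_card (q a : ℕ) (H : Finset ℕ) : (fq q a H).card = H.card :=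
  Finset.card_image_of_injective _ (fun h h' e => by have := (Prod.ext_iff.1 e).2; simp only at this; omega)

lemma fq_rep (q a : ℕ) (H : Finset ℕ) : Rep (fq q a H) (fun p m => ∃ h ∈ H, p ∣ q * m + a + h) := by
  intro p m
  unfold fq
  constructor
  · rintro ⟨l, hl, hd⟩
    obtain ⟨h, hh, rfl⟩ := mem_image.1 hl
    exact ⟨h, hh, by rwa [← add_assoc] at hd⟩
  · rintro ⟨h, hh, hd⟩
    exact ⟨_, mem_image_of_mem _ hh, by rwa [add_assoc] at hd⟩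

lemma fq_good (q a N : ℕ) (H : Finset ℕ) (hq : 1 ≤ q) (hqN : q ≤ N) (hN : ∀ h ∈ H, a + h ≤ N)
    (hco : ∀ h ∈ H, Nat.Coprime q (a + h)) (hadm : ∀ p : ℕ, p.Prime → ∃ m : ℕ, ∀ h ∈ H, ¬ p ∣ m + h) :
    Li.Good N (fq q a H) where
  one := fun l hl => by
    obtain ⟨h, hh, rfl⟩ := mem_image.1 hl
    exact hq
  cop := fun l hl => by
    obtain ⟨h, hh, rfl⟩ := mem_image.1 hl
    exact hco h hh
  bda := fun l hl => by
    obtain ⟨h, hh, rfl⟩ := mem_image.1 hl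
    exact hqN
  bdb := fun l hl => by
    obtain ⟨h, hh, rfl⟩ := mem_image.1 hl
    exact hN h hh
  adm := fun p hp => by
    by_cases hpq : p ∣ q
    · refine ⟨0, fun l hl => ?_⟩
      obtain ⟨h, hh, rfl⟩ := mem_image.1 hl
      simp only [mul_zero, zero_add]
      intro hd
      have := Nat.dvd_gcd hpq hd
      rw [hco h hh] at this
      exact hp.one_lt.ne' (Nat.dvd_one.1 this)
    · obtain ⟨m, hm⟩ := hadm p hp
      have hpp := Fact.mk hp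
      have hq0 : (q : ZMod p) ≠ 0 := by
        rw [Ne, ZMod.natCast_eq_zero_iff]
        exact hpq
      obtain ⟨x, hx⟩ : ∃ x : ℕ, x = (((m : ZMod p) - a) * (q : ZMod p)⁻¹).val := ⟨_, rfl⟩
      refine ⟨x, fun l hl => ?_⟩
      obtain ⟨h, hh, rfl⟩ := mem_image.1 hl
      intro hd
      apply hm h hh
      rw [← ZMod.natCast_eq_zero_iff] at hd ⊢
      push_cast at hd ⊢
      rw [hx, ZMod.natCast_val, ZMod.cast_id] at hd
      have e : (q : ZMod p) * (((m : ZMod p) - a) * (q : ZMod p)⁻¹) + (a + h) = m + h := by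
        field_simp
        ring
      rw [e] at hd
      exact hd

lemma fq_noT (q a : ℕ) (H : Finset ℕ) (hq : 1 ≤ q)
    (hd : ∀ h ∈ H, ∀ h' ∈ H, h' < h → ¬ q ∣ h - h') : Li.NoT (fq q a H) := by
  intro l hl l' hl' t ht _ h2
  obtain ⟨h, hh, rfl⟩ := mem_image.1 hl
  obtain ⟨h', hh', rfl⟩ := mem_image.1 hl'
  simp only at h2
  have h3 : h = h' + q * t := by omega
  have h4 : 0 < q * t := Nat.mul_pos hq ht
  refine hd h hh h' hh' (by omega) ?_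
  rw [h3, Nat.add_sub_cancel_left]
  exact dvd_mul_right _ _

/-! ## The forms `q r + 1` -/

/-- the forms `r q + 1`, `r ∈ T` -/
def fr (T : Finset ℕ) : Finset (ℕ × ℕ) := T.image (fun r => (r, 1))

lemma fr_card (T : Finset ℕ) : (fr T).card = T.card :=
  Finset.card_image_of_injective _ (fun h h' e => (Prod.ext_iff.1 e).1)

lemma fr_rep (T : Finset ℕ) : Rep (fr T) (fun p m => ∃ r ∈ T, p ∣ m * r + 1) := by
  intro p m
  unfold fr
  constructor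
  · rintro ⟨l, hl, hd⟩
    obtain ⟨h, hh, rfl⟩ := mem_image.1 hl
    exact ⟨h, hh, by rwa [mul_comm] at hd⟩
  · rintro ⟨h, hh, hd⟩
    exact ⟨_, mem_image_of_mem _ hh, by rwa [mul_comm] at hd⟩

lemma fr_good (N : ℕ) (T : Finset ℕ) (hN1 : 1 ≤ N) (h1 : ∀ r ∈ T, 1 ≤ r) (hN : ∀ r ∈ T, r ≤ N) :
    Li.Good N (fr T) where
  one := fun l hl => by
    obtain ⟨h, hh, rfl⟩ := mem_image.1 hl
    exact h1 h hh
  cop := fun l hl => by
    obtain ⟨h, hh, rfl⟩ := mem_image.1 hl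
    exact Nat.coprime_one_right _
  bda := fun l hl => by
    obtain ⟨h, hh, rfl⟩ := mem_image.1 hl
    exact hN h hh
  bdb := fun l hl => by
    obtain ⟨h, hh, rfl⟩ := mem_image.1 hl
    exact hN1
  adm := fun p hp => by
    refine ⟨0, fun l hl => ?_⟩
    obtain ⟨h, hh, rfl⟩ := mem_image.1 hl
    simp only [mul_zero, zero_add]
    intro hd
    exact hp.one_lt.ne' (Nat.dvd_one.1 hd)

lemma fr_noT (T : Finset ℕ) (h1 : ∀ r ∈ T, 1 ≤ r) : Li.NoT (fr T) := by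
  intro l hl l' hl' t ht _ h2
  obtain ⟨h, hh, rfl⟩ := mem_image.1 hl
  obtain ⟨h', hh', rfl⟩ := mem_image.1 hl'
  simp only at h2
  have h4 : 0 < h' * t := Nat.mul_pos (h1 h' hh') ht
  omega

/-! ## Narrow progressions for arbitrary fixed sets of forms -/

lemma li_sys {N : ℕ} {L : Finset (ℕ × ℕ)} (hG : Li.Good N L) : Poly.Sys (Li.sys L L.card rfl) := by
  have hus := hG.us0 (k := L.card) rfl
  refine ⟨hus.irr, fun i => Nat.pos_of_ne_zero (hus.deg i), ?_, ?_, hus.adm⟩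
  · intro i
    unfold Li.sys
    rw [Polynomial.leadingCoeff, lf_deg _ _ (by
      have := hG.one _ ((L.equivFinOfCardEq rfl).symm i).2
      exact_mod_cast (by omega : (((L.equivFinOfCardEq rfl).symm i : ℕ × ℕ).1) ≠ 0)), lf_coeff]
    simp only [one_ne_zero, if_false, if_true]
    exact_mod_cast hG.one _ ((L.equivFinOfCardEq rfl).symm i).2
  · intro i j hij
    unfold Li.sys at hij
    obtain ⟨h1, h2⟩ := lf_inj _ _ _ _ hij
    have h3 : ((L.equivFinOfCardEq rfl).symm i : ℕ × ℕ) = ((L.equivFinOfCardEq rfl).symm j : ℕ × ℕ) :=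
      Prod.ext (by exact_mod_cast h1) (by exact_mod_cast h2)
    exact (L.equivFinOfCardEq rfl).symm.injective (Subtype.ext h3)

open Classical in
/-- **Narrow progressions for linear forms.** -/
theorem narL {N : ℕ} {L : Finset (ℕ × ℕ)} (hG : Li.Good N L) (hL : L.Nonempty)
    (g : ℕ → ℕ → Prop) (hR : Rep L g)
    (θ : ℝ) (hθ : 0 < θ) (r : ℕ) (hr : 2 ≤ r) (l : ℕ) (hl : 2 ≤ l) (ε : ℝ) (hε : 0 < ε) :
    ∃ B : ℕ, ∀ᶠ X : ℕ in atTop, ∀ Y : ℕ, (X : ℝ) ^ θ ≤ Y → Y ≤ X →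
      ∀ A : Set ℕ, (∀ m ∈ A, ∀ p : ℕ, p.Prime → g p m → (m : ℝ) ^ (1 / (r : ℝ)) < (p : ℝ)) →
        (((Ioc X (X + Y)).filter (fun m : ℕ =>
          m ∈ A ∧ ¬ Tu.InP A l (Real.log X ^ B) X (X + Y + 1) m)).card : ℝ) ≤
        ε * (Y / Real.log X ^ L.card) := by
  have : Nonempty (Fin L.card) := ⟨⟨0, Finset.card_pos.2 hL⟩⟩
  obtain ⟨B, hB⟩ := Pool.Agent.Y677.RSZ.narrow (Li.sys L L.card rfl) (li_sys hG) θ hθ r hr l hl ε hε
  refine ⟨B, ?_⟩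
  filter_upwards [hB] with X hX Y hXY hYX A hA
  have h := hX Y hXY hYX A (fun m hm => by
    intro i p hp hd
    exact hA m hm p hp ((hR p m).1 ((Li.sys_Q rfl p m).1 ⟨i, hd⟩)))
  rw [Fintype.card_fin, mul_div_assoc] at h
  refine le_trans (le_of_eq ?_) h
  unfold Pool.Agent.TH977.PW.N
  congr 2
  apply filter_congr
  intro m _
  unfold Pool.Agent.Y677.RSZ.Outside Pool.Agent.Y677.RSZ.InProg Tu.InP
  simp only [Set.mem_ofPred_eq, Order.lt_add_one_iff]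

end Pool.Agent.R490.Pg
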