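import Pool.Agent.Y879.PR.Inst

set_option autoImplicit false

/-!
# The law after primes for constellations, in terms of a finite set of shifts
-/

namespace Pool.Agent.R490.Pt

open Polynomial Finset Filter
open Pool.Agent.W123.RP Pool.Agent.H373R2.T7 Pool.Agent.W123.RU Pool.Agent.W123.RU.Poly
open Pool.Agent.TH464.PW Pool.Agent.TH464.PO Pool.Agent.Y879.AP Pool.Agent.Y879.GL Pool.Agent.Y879.PR

/-- no `n + h`, `h ∈ H`, has a prime factor `≤ N ^ (1 / r)` -/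
def Ro (H : Finset ℕ) (N r n : ℕ) : Prop :=
  ∀ p : ℕ, p.Prime → (p : ℝ) ≤ (N : ℝ) ^ (1 / (r : ℝ)) → ∀ h ∈ H, ¬ p ∣ n + h

/-- the product of `1 - k / p` over the primes `P0 < p ≤ N ^ (1 / r)` -/
noncomputable def V (P0 k N r : ℕ) : ℝ :=
  ∏ p ∈ (Ioc P0 ⌊(N : ℝ) ^ (1 / (r : ℝ))⌋₊).filter Nat.Prime, (1 - ((k : ℕ) : ℝ) / p)

/-- `V` divided by the product of `1 - 1 / p` over the primes `p ≤ N ^ (1 / r)` -/
noncomputable def W (P0 k N r : ℕ) : ℝ :=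
  V P0 k N r / ∏ p ∈ (Ioc 0 ⌊(N : ℝ) ^ (1 / (r : ℝ))⌋₊).filter Nat.Prime, (1 - 1 / (p : ℝ))

open Classical in
/-- the `n` in `(A, A + L]` with `Ro H N r n` for which `n + b` is prime -/
noncomputable def P (H : Finset ℕ) (N r b A L : ℕ) : Finset ℕ :=
  (Ioc A (A + L)).filter (fun n => (n + b).Prime ∧ Ro H N r n)

open Classical in
/-- the number of the `l` in `(n, n + M T]`, `l ≡ n` modulo `M`, with `Ro H N r l` -/
noncomputable def Nx (M : ℕ) (H : Finset ℕ) (N r T n : ℕ) : ℕ :=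
  ((Ioc n (n + M * T)).filter (fun l => l % M = n % M ∧ Ro H N r l)).card

lemma pz_eq (y : ℕ) : pz y = (Ioc 0 y).filter Nat.Prime := by
  unfold pz
  ext p
  simp only [mem_filter, mem_Icc, mem_Ioc]
  constructor
  · rintro ⟨h1, h2⟩
    exact ⟨by omega, h2⟩
  · rintro ⟨h1, h2⟩
    exact ⟨by omega, h2⟩

lemma PV_eq (M P0 k N r : ℕ) (hM : ∀ p : ℕ, p.Prime → (p ∣ M ↔ p ≤ P0)) : PV M k N r = V P0 k N r := by
  unfold PV V
  symm
  have hsub : (Ioc P0 ⌊(N : ℝ) ^ (1 / (r : ℝ))⌋₊).filter Nat.Prime ⊆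
      (Icc 1 ⌊(N : ℝ) ^ (1 / (r : ℝ))⌋₊).filter Nat.Prime := by
    intro p hp
    rw [mem_filter, mem_Ioc] at hp
    rw [mem_filter, mem_Icc]
    exact ⟨⟨by omega, hp.1.2⟩, hp.2⟩
  refine Eq.trans (Finset.prod_congr rfl ?_) (Finset.prod_subset hsub ?_)
  · intro p hp
    rw [mem_filter, mem_Ioc] at hp
    unfold pnu
    rw [if_neg (fun h => by have := (hM p hp.2).1 h; omega)]
  · intro p hp hp2
    rw [mem_filter, mem_Icc] at hp
    rw [mem_filter, mem_Ioc] at hp2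
    have h5 : p ≤ P0 := by
      by_contra hcon
      exact hp2 ⟨⟨by omega, hp.1.2⟩, hp.2⟩
    unfold pnu
    rw [if_pos ((hM p hp.2).2 h5)]
    simp

lemma PW_eq' (M P0 k N r : ℕ) (hM : ∀ p : ℕ, p.Prime → (p ∣ M ↔ p ≤ P0)) : PW M k N r = W P0 k N r := by
  rw [PW_eq, PV_eq M P0 k N r hM]
  unfold W Vz
  rw [pz_eq]

lemma ro_pg {k : ℕ} (h : Fin k → ℕ) (H : Finset ℕ) (hH : ∀ m, m ∈ H ↔ ∃ i, h i = m) (N r n : ℕ) :
    PG h N r n ↔ Ro H N r n := by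
  unfold PG Ro
  constructor
  · intro h1 p hp hpr m hm
    obtain ⟨i, rfl⟩ := (hH m).1 hm
    exact h1 p hp hpr i
  · intro h1 p hp hpr i
    exact h1 p hp hpr (h i) ((hH _).2 ⟨i, rfl⟩)

open Classical in
/-- **The law after primes for constellations.** -/
theorem law {k : ℕ} (M P0 : ℕ) (hM : ∀ p : ℕ, p.Prime → (p ∣ M ↔ p ≤ P0)) (h : Fin k → ℕ) (H : Finset ℕ)
    (hH : ∀ m, m ∈ H ↔ ∃ i, h i = m) (C : Finset ℕ) (hCn : C.Nonempty) (hP : Pat2 M h C)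
    (θ δ : ℝ) (hθ : 0 < θ) (hδ : 0 < δ) (hδ1 : δ ≤ 1)
    (x0 ε : ℝ) (hε : 0 < ε) (hε1 : ε ≤ 1) :
    ∃ r0 : ℕ, 2 ≤ r0 ∧ ∀ r : ℕ, r0 ≤ r → ∀ᶠ N : ℕ in atTop, 0 < W P0 k N r ∧
      ∀ b ∈ H, ∀ X : ℕ, (N : ℝ) ^ θ ≤ X → ∀ A L : ℕ, δ * X ≤ L → A + L ≤ X →
      |((P H N r b A L).card : ℝ) * Real.log X - C.card * (L / M * W P0 k N r)| ≤
        ε * (C.card * (L / M * W P0 k N r)) ∧
      ∀ T : ℕ, T * V P0 k N r ≤ x0 → ∀ J : Finset ℕ,
      |(((P H N r b A L).filter (fun n => Nx M H N r T n ∈ J)).card : ℝ) -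
        (P H N r b A L).card * ∑ j ∈ J, Real.exp (-(T * V P0 k N r)) * (T * V P0 k N r) ^ j / j.factorial| ≤
        ε * (P H N r b A L).card := by
  obtain ⟨r0, hr0, h0⟩ := pat_law hP hCn θ δ hθ hδ hδ1 x0 ε hε hε1
  refine ⟨r0, hr0, fun r hr => ?_⟩
  filter_upwards [h0 r hr] with N hN
  refine ⟨by rw [← PW_eq' M P0 k N r hM]; exact hP.W_pos hCn N r, ?_⟩
  intro b hb X hX A L hL hAL
  obtain ⟨i, hi⟩ := (hH b).1 hb
  have h1 := hN i X hX A L hL hAL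
  have eP : PP h N r i A L = P H N r b A L := by
    unfold PP P
    apply Finset.filter_congr
    intro n _
    rw [hi, ro_pg h H hH]
  have eN : ∀ T n, PNext h M N r T n = Nx M H N r T n := by
    intro T n
    unfold PNext Nx
    congr 1
    apply Finset.filter_congr
    intro l _
    rw [ro_pg h H hH]
  rw [eP, PW_eq' M P0 k N r hM, PV_eq M P0 k N r hM] at h1
  simp only [eN] at h1
  exact h1

lemma pr30 (p : ℕ) (hp : p.Prime) : p ∣ 30 ↔ p ≤ 5 := by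
  constructor
  · intro h
    have h1 : p ∣ 2 * (3 * 5) := h
    rcases (Nat.Prime.dvd_mul hp).1 h1 with h2 | h2
    · exact (Nat.le_of_dvd (by norm_num) h2).trans (by norm_num)
    · rcases (Nat.Prime.dvd_mul hp).1 h2 with h3 | h3
      · exact (Nat.le_of_dvd (by norm_num) h3).trans (by norm_num)
      · exact Nat.le_of_dvd (by norm_num) h3
  · intro h
    have := hp.two_le
    interval_cases p
    · norm_num
    · norm_num
    · exact absurd hp (by norm_num)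
    · norm_num

lemma mem_qa (m : ℕ) : m ∈ ({0, 2, 6, 8} : Finset ℕ) ↔ ∃ i, qa i = m := by
  simp only [Finset.mem_insert, Finset.mem_singleton, Fin.exists_fin_succ, Fin.exists_fin_zero, qa]
  simp [eq_comm]

lemma mem_qb (m : ℕ) : m ∈ ({0, 4, 6, 10} : Finset ℕ) ↔ ∃ i, qb i = m := by
  simp only [Finset.mem_insert, Finset.mem_singleton, Fin.exists_fin_succ, Fin.exists_fin_zero, qb]
  simp [eq_comm]

lemma mem_ta (m : ℕ) : m ∈ ({0, 2, 6} : Finset ℕ) ↔ ∃ i, ta i = m := by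
  simp only [Finset.mem_insert, Finset.mem_singleton, Fin.exists_fin_succ, Fin.exists_fin_zero, ta]
  simp [eq_comm]

lemma mem_tb (m : ℕ) : m ∈ ({0, 4, 6} : Finset ℕ) ↔ ∃ i, tb i = m := by
  simp only [Finset.mem_insert, Finset.mem_singleton, Fin.exists_fin_succ, Fin.exists_fin_zero, tb]
  simp [eq_comm]

end Pool.Agent.R490.Pt
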