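import Pool.Agent.R490.Pt
import Pool.Agent.R490.Adm

set_option autoImplicit false

/-!
# Patterns: gap laws in terms of a finite set of shifts; narrow progressions for finite unions of patterns
-/

namespace Pool.Agent.R490.Pt

open Polynomial Finset Filter
open Pool.Agent.W123.RP Pool.Agent.H373R2.T7 Pool.Agent.W123.RU Pool.Agent.W123.RU.Poly
open Pool.Agent.TH464.PW Pool.Agent.TH464.PO Pool.Agent.Y879.GL

/-- `n ≡ c` modulo `M` and no `n + h`, `h ∈ H`, has a prime factor `≤ y` -/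
def Cl (M c : ℕ) (H : Finset ℕ) (y n : ℕ) : Prop :=
  n % M = c ∧ ∀ p : ℕ, p.Prime → p ≤ y → ∀ h ∈ H, ¬ p ∣ n + h

/-- the density -/
noncomputable def VM (P0 M k y : ℕ) : ℝ :=
  (∏ p ∈ (Ioc P0 y).filter Nat.Prime, (1 - ((k : ℕ) : ℝ) / p)) / ((M : ℕ) : ℝ)

open Classical in
/-- the counting function of the spacings -/
noncomputable def Dk (M c : ℕ) (H : Finset ℕ) (y l T u Y : ℕ) : ℕ :=
  ((Ioc u (u + Y)).filter (fun n => Cl M c H y n ∧ ((Ico (n - T) n).filter (fun m => Cl M c H y m)).card < l)).card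

open Classical in
/-- **The law of the spacings of a pattern in one class.** -/
theorem gapPt {k P0 M c : ℕ} {h : Fin k → ℕ} (hP : Pat P0 M c h) (hlt : ∀ i, h i < M) (H : Finset ℕ)
    (hH : ∀ m, m ∈ H ↔ ∃ i, h i = m) (θ : ℝ) (hθ : 0 < θ) (l0 : ℕ) (x0 ε : ℝ) (hε : 0 < ε) :
    ∃ r0 : ℕ, ∀ r : ℕ, r0 ≤ r → ∀ᶠ X : ℕ in atTop, ∀ y : ℕ, y = ⌊(X : ℝ) ^ (1 / (r : ℝ))⌋₊ →
      ∀ u Y : ℕ, c ≤ u → (X : ℝ) ^ θ ≤ Y → ∀ l T : ℕ, (l ≤ l0 ∨ T * VM P0 M k y ≤ x0) →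
        |(Dk M c H y l T u Y : ℝ) - Y * VM P0 M k y *
            ∑ j ∈ range l, Real.exp (-(T * VM P0 M k y)) * (T * VM P0 M k y) ^ j / j.factorial| ≤
          ε * (Y * VM P0 M k y) := by
  obtain ⟨r0, h0⟩ := gap_pat hP hlt θ hθ l0 x0 ε hε
  refine ⟨r0, fun r hr => ?_⟩
  filter_upwards [h0 r hr] with X hX
  intro y hy u Y hu hY l T hT
  subst hy
  have h1 := hX u Y hu hY l T hT
  have e : Rg M c h ⌊(X : ℝ) ^ (1 / (r : ℝ))⌋₊ = fun n => Cl M c H ⌊(X : ℝ) ^ (1 / (r : ℝ))⌋₊ n := by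
    funext n
    apply propext
    unfold Rg Cl
    constructor
    · rintro ⟨h2, h3⟩
      refine ⟨h2, fun p hp hpy m hm => ?_⟩
      obtain ⟨i, rfl⟩ := (hH m).1 hm
      exact h3 p hp hpy i
    · rintro ⟨h2, h3⟩
      exact ⟨h2, fun p hp hpy i => h3 p hp hpy _ ((hH _).2 ⟨i, rfl⟩)⟩
  unfold Pk at h1
  rw [e] at h1
  exact h1

/-- `m` is a term of an `l`-term arithmetic progression with difference at most `D`, all terms of which
are elements of `A` in `(X, Z]`. -/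
def InQ (A : Set ℕ) (l : ℕ) (D : ℝ) (X Z m : ℕ) : Prop :=
  ∃ s d : ℕ, 1 ≤ d ∧ (d : ℝ) ≤ D ∧ (∀ i < l, s + i * d ∈ A ∧ X < s + i * d ∧ s + i * d ≤ Z) ∧
    ∃ i < l, m = s + i * d

open Classical in
/-- **Narrow progressions for finite unions of patterns.** -/
theorem narU (F : Finset (Finset ℕ)) (K : ℕ) (hK1 : 1 ≤ K) (hF : ∀ H ∈ F, H.card = K ∧
    ∀ p : ℕ, p.Prime → ∃ m : ℕ, ∀ h ∈ H, ¬ p ∣ m + h) (θ : ℝ) (hθ : 0 < θ)
    (r : ℕ) (hr : 2 ≤ r) (l : ℕ) (hl : 2 ≤ l) (ε : ℝ) (hε : 0 < ε) :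
    ∃ B : ℕ, ∀ᶠ X : ℕ in atTop, ∀ Y : ℕ, (X : ℝ) ^ θ ≤ Y → Y ≤ X →
      ∀ A : Set ℕ, (∀ m ∈ A, ∃ H ∈ F, Tu.Rg H r m) →
        (((Ioc X (X + Y)).filter (fun m : ℕ =>
          m ∈ A ∧ ¬ InQ A l (Real.log X ^ B) X (X + Y) m)).card : ℝ) ≤
        ε * (Y / Real.log X ^ K) := by
  have hex : ∀ H ∈ F, ∃ B : ℕ, ∀ᶠ X : ℕ in atTop, ∀ Y : ℕ, (X : ℝ) ^ θ ≤ Y → Y ≤ X →
      ∀ A : Set ℕ, (∀ m ∈ A, Tu.Rg H r m) →
        (((Ioc X (X + Y)).filter (fun m : ℕ =>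
          m ∈ A ∧ ¬ Tu.InP A l (Real.log X ^ B) X (X + Y + 1) m)).card : ℝ) ≤
        ε / (F.card + 1) * (Y / Real.log X ^ K) := by
    intro H hH
    obtain ⟨h1, h2⟩ := hF H hH
    have h3 := Tu.narH H (Finset.card_pos.1 (by omega)) h2 θ hθ r hr l hl (ε / (F.card + 1)) (by positivity)
    rw [h1] at h3
    exact h3
  choose! B hB using hex
  refine ⟨F.sup B, ?_⟩
  have hall := (Filter.eventually_all_finset F).2 hB
  have hlog : Tendsto (fun n : ℕ => Real.log (n : ℝ)) atTop atTop :=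
    Real.tendsto_log_atTop.comp tendsto_natCast_atTop_atTop
  filter_upwards [hall, hlog.eventually_ge_atTop 1] with X hX hX1
  intro Y hXY hYX A hA
  obtain ⟨D, hD⟩ : ∃ D : ℝ, D = Real.log X ^ (F.sup B) := ⟨_, rfl⟩
  rw [← hD]
  obtain ⟨G, hG⟩ : ∃ G : Finset ℕ → Set ℕ, ∀ H x, x ∈ G H ↔ x ∈ A ∧ Tu.Rg H r x :=
    ⟨fun H => {x | x ∈ A ∧ Tu.Rg H r x}, fun _ _ => Iff.rfl⟩
  have hcov : ((Ioc X (X + Y)).filter (fun m : ℕ => m ∈ A ∧ ¬ InQ A l D X (X + Y) m)) ⊆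
      F.biUnion (fun H => (Ioc X (X + Y)).filter (fun m : ℕ =>
        m ∈ G H ∧ ¬ Tu.InP (G H) l (Real.log X ^ B H) X (X + Y + 1) m)) := by
    intro m hm
    rw [mem_filter, mem_Ioc] at hm
    obtain ⟨⟨hm1, hm2⟩, hmA, hmn⟩ := hm
    obtain ⟨H, hH, hR⟩ := hA m hmA
    rw [mem_biUnion]
    refine ⟨H, hH, ?_⟩
    rw [mem_filter, mem_Ioc]
    refine ⟨⟨hm1, hm2⟩, (hG _ _).2 ⟨hmA, hR⟩, ?_⟩
    intro hin
    apply hmn
    obtain ⟨u, d, hd1, hd2, h1, h2⟩ := hin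
    refine ⟨u, d, hd1, hd2.trans ?_, fun i hi => ⟨((hG _ _).1 (h1 i hi).1).1, (h1 i hi).2.1,
      Nat.lt_succ_iff.1 (h1 i hi).2.2⟩, h2⟩
    rw [hD]
    exact pow_le_pow_right₀ hX1 (Finset.le_sup hH)
  have h1 := (Finset.card_le_card hcov).trans Finset.card_biUnion_le
  have h2 : ((((Ioc X (X + Y)).filter (fun m : ℕ => m ∈ A ∧ ¬ InQ A l D X (X + Y) m)).card : ℕ) : ℝ) ≤
      ∑ H ∈ F, ((((Ioc X (X + Y)).filter (fun m : ℕ =>
        m ∈ G H ∧ ¬ Tu.InP (G H) l (Real.log X ^ B H) X (X + Y + 1) m)).card : ℕ) : ℝ) := by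
    exact_mod_cast h1
  refine h2.trans ?_
  have h3 : ∑ H ∈ F, ((((Ioc X (X + Y)).filter (fun m : ℕ =>
        m ∈ G H ∧ ¬ Tu.InP (G H) l (Real.log X ^ B H) X (X + Y + 1) m)).card : ℕ) : ℝ) ≤
        ∑ _H ∈ F, ε / (F.card + 1) * (Y / Real.log X ^ K) := by
    apply Finset.sum_le_sum
    intro H hH
    exact hX H hH Y hXY hYX (G H) (fun _ hm => ((hG _ _).1 hm).2)
  refine h3.trans ?_
  rw [Finset.sum_const, nsmul_eq_mul]
  have hpos : 0 ≤ (Y : ℝ) / Real.log X ^ K := by positivity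
  have h4 : (F.card : ℝ) * (ε / (F.card + 1)) ≤ ε := by
    rw [mul_div_assoc', div_le_iff₀ (by positivity)]
    nlinarith
  calc (F.card : ℝ) * (ε / (F.card + 1) * (Y / Real.log X ^ K)) =
      ((F.card : ℝ) * (ε / (F.card + 1))) * (Y / Real.log X ^ K) := by ring
    _ ≤ ε * (Y / Real.log X ^ K) := mul_le_mul_of_nonneg_right h4 hpos

/-! ## Patterns modulo 30 -/

/-- a pattern modulo 30 whose differences divide `30 ^ 3` -/
lemma pat30 {k : ℕ} (h : Fin k → ℕ) (c : ℕ) (hc : c < 30) (hk : 0 < k) (hk5 : k ≤ 5)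
    (cop : ∀ i, Nat.Coprime 30 (c + h i)) (inj : Function.Injective h)
    (dif : ∀ i j, i ≠ j → (h i : ℤ) - h j ∣ 27000) : Pat 5 30 c h where
  hM := by norm_num
  hc := hc
  hk := hk
  hkP := hk5
  hpr := fun p hp => pr30 p hp
  cop := cop
  inj := inj
  dif := fun i j hij p hp hp5 hd => by
    refine Pool.Agent.Y879.PR.dif30 p hp (fun h30 => ?_) _ (dif i j hij) hd
    have := (pr30 p hp).1 h30
    omega

lemma pat_qa11 : Pat 5 30 11 Pool.Agent.Y879.PR.qa :=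
  pat30 _ _ (by norm_num) (by norm_num) (by norm_num) (by decide) (by decide) (by decide)
lemma pat_qb7 : Pat 5 30 7 Pool.Agent.Y879.PR.qb :=
  pat30 _ _ (by norm_num) (by norm_num) (by norm_num) (by decide) (by decide) (by decide)
lemma pat_qb13 : Pat 5 30 13 Pool.Agent.Y879.PR.qb :=
  pat30 _ _ (by norm_num) (by norm_num) (by norm_num) (by decide) (by decide) (by decide)
lemma pat_ta11 : Pat 5 30 11 Pool.Agent.Y879.PR.ta :=
  pat30 _ _ (by norm_num) (by norm_num) (by norm_num) (by decide) (by decide) (by decide)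
lemma pat_ta17 : Pat 5 30 17 Pool.Agent.Y879.PR.ta :=
  pat30 _ _ (by norm_num) (by norm_num) (by norm_num) (by decide) (by decide) (by decide)
lemma pat_tb7 : Pat 5 30 7 Pool.Agent.Y879.PR.tb :=
  pat30 _ _ (by norm_num) (by norm_num) (by norm_num) (by decide) (by decide) (by decide)
lemma pat_tb13 : Pat 5 30 13 Pool.Agent.Y879.PR.tb :=
  pat30 _ _ (by norm_num) (by norm_num) (by norm_num) (by decide) (by decide) (by decide)

/-- the shifts of a pair with difference 6 -/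
def sx : Fin 2 → ℕ := ![0, 6]

lemma mem_sx (m : ℕ) : m ∈ ({0, 6} : Finset ℕ) ↔ ∃ i, sx i = m := by
  simp only [Finset.mem_insert, Finset.mem_singleton, Fin.exists_fin_succ, Fin.exists_fin_zero, sx]
  simp [eq_comm]

lemma pat_sx (c : ℕ) (hc : c ∈ ({1, 7, 11, 13, 17, 23} : Finset ℕ)) : Pat 5 30 c sx := by
  simp only [Finset.mem_insert, Finset.mem_singleton] at hc
  rcases hc with rfl | rfl | rfl | rfl | rfl | rfl <;>
    exact pat30 _ _ (by norm_num) (by norm_num) (by norm_num) (by decide) (by decide) (by decide)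

lemma adm_qb (p : ℕ) (hp : p.Prime) : ∃ m : ℕ, ∀ h ∈ ({0, 4, 6, 10} : Finset ℕ), ¬ p ∣ m + h := by
  by_cases h3 : p ≤ 11
  · refine ⟨13, ?_⟩
    have := hp.two_le
    interval_cases p <;> first | decide | exact absurd hp (by norm_num)
  · refine ⟨1, fun h hh hd => ?_⟩
    simp only [Finset.mem_insert, Finset.mem_singleton] at hh
    have := Nat.le_of_dvd (by omega) hd
    omega

lemma adm_sx (p : ℕ) (hp : p.Prime) : ∃ m : ℕ, ∀ h ∈ ({0, 6} : Finset ℕ), ¬ p ∣ m + h := by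
  by_cases h3 : p ≤ 7
  · refine ⟨11, ?_⟩
    have := hp.two_le
    interval_cases p <;> first | decide | exact absurd hp (by norm_num)
  · refine ⟨1, fun h hh hd => ?_⟩
    simp only [Finset.mem_insert, Finset.mem_singleton] at hh
    have := Nat.le_of_dvd (by omega) hd
    omega

end Pool.Agent.R490.Pt
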