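import Pool.Agent.R490.Gen
import Pool.Agent.R490.Inst

set_option autoImplicit false

/-!
# Monic quadratic polynomials at the terms of progressions and at primes
-/

namespace Pool.Agent.R490.QP

open Polynomial Finset Filter
open Pool.Agent.W123.RU.Poly Pool.Agent.TH464.PW Pool.Agent.Y879.GL
open Pool.Agent.R490.Gn

/-- the polynomial `(a x + b) ^ 2 + β (a x + b) + γ` -/
noncomputable def qp (β γ a b : ℤ) : ℤ[X] := quad (a ^ 2) (a * (2 * b + β)) (b ^ 2 + β * b + γ)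

lemma qp_eval (β γ a b x : ℤ) : (qp β γ a b).eval x = (a * x + b) ^ 2 + β * (a * x + b) + γ := by
  unfold qp
  rw [quad_eval]
  ring

lemma qp_deg (β γ a b : ℤ) (ha : a ≠ 0) : (qp β γ a b).natDegree = 2 := quad_deg _ _ _ (pow_ne_zero 2 ha)

lemma not_sq (d n : ℤ) (hn : 0 ≤ n) (h1 : n ^ 2 < d) (h2 : d < (n + 1) ^ 2) : ¬ IsSquare d := by
  rintro ⟨r, rfl⟩
  have h3 : n < |r| := by
    by_contra hcon
    have h4 : |r| ≤ n := not_lt.1 hcon
    have h5 : |r| * |r| ≤ n * n := mul_le_mul h4 h4 (abs_nonneg _) hn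
    rw [abs_mul_abs_self] at h5
    nlinarith
  have h6 : n + 1 ≤ |r| := h3
  have h7 : (n + 1) * (n + 1) ≤ |r| * |r| := mul_le_mul h6 h6 (by linarith) (abs_nonneg _)
  rw [abs_mul_abs_self] at h7
  nlinarith

lemma sq_of (d q : ℤ) (hq : q ≠ 0) (h : IsSquare (q ^ 2 * d)) : IsSquare d := by
  obtain ⟨r, hr⟩ := h
  have h1 : q ∣ r := by
    rw [← Int.pow_dvd_pow_iff two_ne_zero]
    exact ⟨d, by rw [pow_two r, ← hr]⟩
  obtain ⟨k, rfl⟩ := h1
  refine ⟨k, ?_⟩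
  have : q ^ 2 * d = q ^ 2 * (k * k) := by rw [hr]; ring
  exact mul_left_cancel₀ (pow_ne_zero 2 hq) this

lemma cop_prime {a c : ℤ} (hco : IsCoprime a c) (p : ℕ) (hp : p.Prime) (h1 : (p : ℤ) ∣ a) (h2 : (p : ℤ) ∣ c) :
    False := by
  have h3 := hco.isUnit_of_dvd' h1 h2
  rw [Int.isUnit_iff] at h3
  have := hp.two_le
  omega

lemma qp_irr (β γ a b : ℤ) (ha : a ≠ 0) (hco : IsCoprime a (b ^ 2 + β * b + γ))
    (hD : ¬ IsSquare (β ^ 2 - 4 * γ)) : Irreducible (qp β γ a b) := by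
  apply quad_irr _ _ _ (pow_ne_zero 2 ha)
  · rintro p hp ⟨h1, -, h3⟩
    exact cop_prime hco p hp ((Nat.prime_iff_prime_int.1 hp).dvd_of_dvd_pow h1) h3
  · intro h
    apply hD
    apply sq_of _ a ha
    have : (a * (2 * b + β)) ^ 2 - 4 * a ^ 2 * (b ^ 2 + β * b + γ) = a ^ 2 * (β ^ 2 - 4 * γ) := by ring
    rwa [this] at h

lemma qp_hgt (β γ a b H K : ℤ) (ha : |a| ≤ H) (hb : |b| ≤ H) (hH : 1 ≤ H)
    (hK : (2 + |β| + |γ|) * H ^ 2 ≤ K) (n : ℕ) : |(qp β γ a b).coeff n| ≤ K := by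
  have h0 : 0 ≤ |β| := abs_nonneg _
  have h1 : 0 ≤ |γ| := abs_nonneg _
  have hH2 : H ≤ H ^ 2 := by nlinarith
  have hb0 : 0 ≤ |b| := abs_nonneg _
  have ha0 : 0 ≤ |a| := abs_nonneg _
  have h2 : |a| * |b| ≤ H ^ 2 := by
    rw [pow_two]
    exact mul_le_mul ha hb hb0 (by linarith)
  have h3 : |a| ^ 2 ≤ H ^ 2 := pow_le_pow_left₀ ha0 ha 2
  have h4 : |b| ^ 2 ≤ H ^ 2 := pow_le_pow_left₀ hb0 hb 2
  have h5 : |β| * |a| ≤ |β| * H ^ 2 := mul_le_mul_of_nonneg_left (ha.trans hH2) h0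
  have h6 : |β| * |b| ≤ |β| * H ^ 2 := mul_le_mul_of_nonneg_left (hb.trans hH2) h0
  have h7 : |γ| * 1 ≤ |γ| * H ^ 2 := mul_le_mul_of_nonneg_left (by nlinarith) h1
  have h8 : 0 ≤ |β| * H ^ 2 := by positivity
  have h9 : 0 ≤ |γ| * H ^ 2 := by positivity
  have h10 : 0 ≤ H ^ 2 := by positivity
  unfold qp
  apply quad_coeff
  · rw [abs_pow]
    nlinarith
  · rw [abs_mul]
    have h11 : |2 * b + β| ≤ 2 * |b| + |β| := by
      refine (abs_add_le _ _).trans ?_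
      rw [abs_mul]
      norm_num
    have h12 : |a| * |2 * b + β| ≤ |a| * (2 * |b| + |β|) := mul_le_mul_of_nonneg_left h11 ha0
    nlinarith
  · have h11 : |b ^ 2 + β * b + γ| ≤ |b| ^ 2 + |β| * |b| + |γ| := by
      refine (abs_add_le _ _).trans ?_
      have := abs_add_le (b ^ 2) (β * b)
      rw [abs_mul, abs_pow] at this
      linarith
    nlinarith

lemma pw_bound (β γ : ℤ) (X A : ℕ) (hX : 2 + |β| + |γ| ≤ (X : ℤ)) :
    (2 + |β| + |γ|) * ((X : ℤ) ^ A) ^ 2 ≤ (X : ℤ) ^ (2 * A + 1) := by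
  have e : (X : ℤ) ^ (2 * A + 1) = (X : ℤ) * ((X : ℤ) ^ A) ^ 2 := by
    rw [← pow_mul]
    ring
  rw [e]
  exact mul_le_mul_of_nonneg_right hX (by positivity)

/-- the values at the terms of progressions -/
lemma good_qp (β γ : ℤ) (hD : ¬ IsSquare (β ^ 2 - 4 * γ)) (hpar : ¬ (Odd β ∧ Even γ)) (q a X A : ℕ)
    (hX : 2 + |β| + |γ| ≤ (X : ℤ)) (hq : 1 ≤ q) (haq : a ≤ q) (hco : IsCoprime (q : ℤ) ((a : ℤ) ^ 2 + β * a + γ))
    (hqX : q ≤ X ^ A) :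
    Sg.Good 2 ((X : ℤ) ^ (2 * A + 1)) (qp β γ q a)
      (fun x => ((q : ℤ) * x + a) ^ 2 + β * ((q : ℤ) * x + a) + γ) where
  ev := fun x => qp_eval β γ q a x
  irr := qp_irr β γ q a (by exact_mod_cast (by omega : q ≠ 0)) hco hD
  deg := by rw [qp_deg _ _ _ _ (by exact_mod_cast (by omega : q ≠ 0))]; norm_num
  degD := by rw [qp_deg _ _ _ _ (by exact_mod_cast (by omega : q ≠ 0))]
  hgt := fun n => by
    have h1 : 1 ≤ X ^ A := hq.trans hqX
    apply qp_hgt β γ q a ((X : ℤ) ^ A) _ _ _ (by exact_mod_cast h1) (pw_bound β γ X A hX)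
    · rw [abs_of_nonneg (by positivity)]
      exact_mod_cast hqX
    · rw [abs_of_nonneg (by positivity)]
      exact_mod_cast haq.trans hqX
  adm := fun p hp => by
    have h := quad_adm ((q : ℤ) ^ 2) (q * (2 * a + β)) ((a : ℤ) ^ 2 + β * a + γ) (by
      rintro p hp ⟨h1, -, h3⟩
      exact cop_prime hco p hp ((Nat.prime_iff_prime_int.1 hp).dvd_of_dvd_pow h1) h3) (by
      rintro ⟨he1, he2⟩
      have h2q : ¬ Even (q : ℤ) := fun h => cop_prime hco 2 Nat.prime_two (by exact_mod_cast h.two_dvd)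
        (by exact_mod_cast he2.two_dvd)
      apply hpar
      have e1 : (q : ℤ) ^ 2 + q * (2 * a + β) = q * (q + β) + 2 * (q * a) := by ring
      rw [e1, Int.even_add] at he1
      have he3 : Even ((q : ℤ) * (q + β)) := he1.2 (even_two_mul _)
      rw [Int.even_mul] at he3
      have he4 : Even ((q : ℤ) + β) := he3.resolve_left h2q
      have hob : ¬ Even β := fun h => h2q ((Int.even_add.1 he4).2 h)
      refine ⟨Int.not_even_iff_odd.1 hob, ?_⟩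
      have e2 : (a : ℤ) ^ 2 + β * a + γ = a * (a + β) + γ := by ring
      rw [e2, Int.even_add] at he2
      apply he2.1
      rw [Int.even_mul, Int.even_add]
      by_cases h : Even (a : ℤ)
      · exact Or.inl h
      · exact Or.inr ⟨fun h' => absurd h' h, fun h' => absurd h' hob⟩) p hp
    obtain ⟨m, hm⟩ := h
    refine ⟨m, ?_⟩
    have e := qp_eval β γ q a m
    unfold qp at e
    rw [e] at hm
    exact hm

/-- the values at the multiples of primes -/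
lemma good_ph (β γ : ℤ) (hD : ¬ IsSquare (β ^ 2 - 4 * γ)) (h N A : ℕ) (hN : 2 + |β| + |γ| ≤ (N : ℤ))
    (hh : 1 ≤ h) (hhN : h ≤ N ^ A) (hco : IsCoprime (h : ℤ) γ)
    (hadm : ∀ p : ℕ, p.Prime → ∃ m : ℕ, ¬ p ∣ m ∧ ¬ (p : ℤ) ∣ ((h : ℤ) * m) ^ 2 + β * ((h : ℤ) * m) + γ) :
    PA.Good 2 ((N : ℤ) ^ (2 * A + 1)) (qp β γ h 0) (fun x => ((h : ℤ) * x) ^ 2 + β * ((h : ℤ) * x) + γ) where
  ev := fun x => by rw [qp_eval]; simp only [add_zero]
  irr := qp_irr β γ h 0 (by exact_mod_cast (by omega : h ≠ 0)) (by simpa using hco) hD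
  deg := by rw [qp_deg _ _ _ _ (by exact_mod_cast (by omega : h ≠ 0))]
  degD := by rw [qp_deg _ _ _ _ (by exact_mod_cast (by omega : h ≠ 0))]
  hgt := fun n => by
    have h1 : 1 ≤ N ^ A := hh.trans hhN
    apply qp_hgt β γ h 0 ((N : ℤ) ^ A) _ _ _ (by exact_mod_cast h1) (pw_bound β γ N A hN)
    · rw [abs_of_nonneg (by positivity)]
      exact_mod_cast hhN
    · simp only [abs_zero]
      positivity
  adm := hadm

lemma odd_dvd {x : ℤ} (hx : Odd x) (p : ℕ) (hp : p.Prime) (hd : (p : ℤ) ∣ x) : ¬ p ∣ 2 := by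
  intro h
  have h1 : p = 2 := (Nat.prime_dvd_prime_iff_eq hp Nat.prime_two).1 h
  subst h1
  exact (Int.not_even_iff_odd.2 hx) (even_iff_two_dvd.2 (by exact_mod_cast hd))

/-- `(h m) ^ 2 - 2`, `h` odd -/
lemma adm_m2 (h : ℕ) (hodd : Odd h) (p : ℕ) (hp : p.Prime) :
    ∃ m : ℕ, ¬ p ∣ m ∧ ¬ (p : ℤ) ∣ ((h : ℤ) * m) ^ 2 + 0 * ((h : ℤ) * m) + (-2) := by
  by_cases h1 : (p : ℤ) ∣ (h : ℤ) ^ 2 - 2
  · have hoz : Odd (h : ℤ) := by exact_mod_cast hodd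
    have ho : Odd ((h : ℤ) ^ 2 - 2) := by
      rw [Int.odd_sub]
      exact ⟨fun _ => even_two, fun _ => hoz.pow⟩
    refine ⟨2, odd_dvd ho p hp h1, ?_⟩
    intro h2
    have h3 : (p : ℤ) ∣ 6 := by
      have h4 := dvd_sub h2 (dvd_mul_of_dvd_right h1 4)
      have e : (((h : ℤ) * ((2 : ℕ) : ℤ)) ^ 2 + 0 * ((h : ℤ) * ((2 : ℕ) : ℤ)) + (-2)) - 4 * ((h : ℤ) ^ 2 - 2) = 6 := by
        push_cast
        ring
      rwa [e] at h4
    have h4 : p ∣ 2 * 3 := by exact_mod_cast h3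
    have h5 : p = 3 := (Nat.prime_dvd_prime_iff_eq hp Nat.prime_three).1
      ((hp.dvd_mul.1 h4).resolve_left (odd_dvd ho p hp h1))
    subst h5
    have h6 : (h : ℤ) % 3 = 0 ∨ (h : ℤ) % 3 = 1 ∨ (h : ℤ) % 3 = 2 := by omega
    have h7 : ((h : ℤ) ^ 2 - 2) % 3 = 0 := Int.emod_eq_zero_of_dvd (by exact_mod_cast h1)
    rcases h6 with h6 | h6 | h6 <;> simp [pow_two, Int.sub_emod, Int.mul_emod, h6] at h7
  · refine ⟨1, fun h2 => hp.one_lt.ne' (Nat.dvd_one.1 h2), ?_⟩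
    have e : ((h : ℤ) * ((1 : ℕ) : ℤ)) ^ 2 + 0 * ((h : ℤ) * ((1 : ℕ) : ℤ)) + (-2) = (h : ℤ) ^ 2 - 2 := by
      push_cast
      ring
    rwa [e]

/-- `(h m) ^ 2 + 3 h m + 1` -/
lemma adm_31 (h : ℕ) (p : ℕ) (hp : p.Prime) :
    ∃ m : ℕ, ¬ p ∣ m ∧ ¬ (p : ℤ) ∣ ((h : ℤ) * m) ^ 2 + 3 * ((h : ℤ) * m) + 1 := by
  by_cases h1 : (p : ℤ) ∣ (h : ℤ) ^ 2 + 3 * h + 1
  · have ho : Odd ((h : ℤ) ^ 2 + 3 * h + 1) := by
      have e : (h : ℤ) ^ 2 + 3 * h + 1 = h * (h + 1) + 2 * h + 1 := by ring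
      rw [e]
      have h2 : Even ((h : ℤ) * (h + 1)) := Int.even_mul_succ_self _
      exact (h2.add (even_two_mul _)).add_one
    refine ⟨2, odd_dvd ho p hp h1, ?_⟩
    intro h2
    have h3 : (p : ℤ) ∣ 3 * (2 * h + 1) := by
      have h4 := dvd_sub (dvd_mul_of_dvd_right h1 4) h2
      have e : 4 * ((h : ℤ) ^ 2 + 3 * h + 1) -
          (((h : ℤ) * ((2 : ℕ) : ℤ)) ^ 2 + 3 * ((h : ℤ) * ((2 : ℕ) : ℤ)) + 1) = 3 * (2 * h + 1) := by
        push_cast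
        ring
      rwa [e] at h4
    rcases (Nat.prime_iff_prime_int.1 hp).dvd_mul.1 h3 with h4 | h4
    · have h5 : p = 3 := (Nat.prime_dvd_prime_iff_eq hp Nat.prime_three).1 (by exact_mod_cast h4)
      subst h5
      have h6 : (h : ℤ) % 3 = 0 ∨ (h : ℤ) % 3 = 1 ∨ (h : ℤ) % 3 = 2 := by omega
      have h7 : ((h : ℤ) ^ 2 + 3 * h + 1) % 3 = 0 := Int.emod_eq_zero_of_dvd (by exact_mod_cast h1)
      rcases h6 with h6 | h6 | h6 <;> simp [pow_two, Int.add_emod, Int.mul_emod, h6] at h7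
    · have h5 : (p : ℤ) ∣ 1 := by
        have e : (1 : ℤ) = (2 * h + 1) * (2 * h + 1 + 4) - 4 * ((h : ℤ) ^ 2 + 3 * h + 1) := by ring
        rw [e]
        exact dvd_sub (dvd_mul_of_dvd_left h4 _) (dvd_mul_of_dvd_right h1 4)
      exact hp.one_lt.ne' (Nat.dvd_one.1 (by exact_mod_cast h5))
  · refine ⟨1, fun h2 => hp.one_lt.ne' (Nat.dvd_one.1 h2), ?_⟩
    have e : ((h : ℤ) * ((1 : ℕ) : ℤ)) ^ 2 + 3 * ((h : ℤ) * ((1 : ℕ) : ℤ)) + 1 = (h : ℤ) ^ 2 + 3 * h + 1 := by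
      push_cast
      ring
    rwa [e]

/-! ## A linear and a nonlinear polynomial -/

lemma ok_two {D : ℕ} {H : ℤ} {F G : ℤ[X]} (hF : Irreducible F) (hF1 : F.natDegree = 1) (hG : Irreducible G)
    (hG2 : 2 ≤ G.natDegree) (hGD : G.natDegree ≤ D) (hFH : ∀ n, |F.coeff n| ≤ H) (hGH : ∀ n, |G.coeff n| ≤ H)
    (hadm : ∀ p : ℕ, p.Prime → ∃ m : ℕ, ¬ (p : ℤ) ∣ F.eval (m : ℤ) ∧ ¬ (p : ℤ) ∣ G.eval (m : ℤ)) :
    Ok 2 D H ![F, G] := by
  refine ⟨?_, ?_, ?_, ?_, ?_, ?_⟩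
  · intro i
    fin_cases i
    · exact hF
    · exact hG
  · intro i
    fin_cases i
    · show F.natDegree ≠ 0
      omega
    · show G.natDegree ≠ 0
      omega
  · intro i
    fin_cases i
    · show F.natDegree ≤ D
      omega
    · exact hGD
  · intro i n
    fin_cases i
    · exact hFH n
    · exact hGH n
  · intro p hp
    obtain ⟨m, h1, h2⟩ := hadm p hp
    refine ⟨m, ?_⟩
    intro i
    fin_cases i
    · exact h1
    · exact h2
  · intro i j t ht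
    have ht0 : (t : ℤ) ≠ 0 := by exact_mod_cast (by omega : t ≠ 0)
    fin_cases i <;> fin_cases j
    · exact no_self F (by omega) t ht0
    · show ¬ Associated F (G.comp (X + C (t : ℤ)))
      intro hc
      have := PA.deg_assoc hc
      rw [PA.deg_sh] at this
      omega
    · show ¬ Associated G (F.comp (X + C (t : ℤ)))
      intro hc
      have := PA.deg_assoc hc
      rw [PA.deg_sh] at this
      omega
    · exact no_self G (by omega) t ht0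

lemma re_two (F G : ℤ[X]) (f g : ℤ → ℤ) (hf : ∀ x, F.eval x = f x) (hg : ∀ x, G.eval x = g x) :
    Re ![F, G] (fun p m => (p : ℤ) ∣ f (m : ℤ) ∨ (p : ℤ) ∣ g (m : ℤ)) := by
  intro p m
  unfold Q
  rw [Fin.exists_fin_two]
  simp only [Matrix.cons_val_zero, Matrix.cons_val_one, hf, hg]

/-- a residue class not containing `b` -/
lemma solve (a b x p : ℕ) (hp : p.Prime) (h : ¬ p ∣ a) : ∃ m : ℕ, (p : ℤ) ∣ ((a : ℤ) * m + b) - x := by
  obtain ⟨m, -, hm⟩ := exists_root a (b + (p * x - x)) p hp h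
  refine ⟨m, ?_⟩
  have hx : x ≤ p * x := Nat.le_mul_of_pos_left x hp.pos
  have h1 : ((a * m + (b + (p * x - x)) : ℕ) : ℤ) = ((a : ℤ) * m + b - x) + p * x := by
    push_cast [Nat.cast_sub hx]
    ring
  have h2 : (p : ℤ) ∣ ((a * m + (b + (p * x - x)) : ℕ) : ℤ) := by exact_mod_cast hm
  rw [h1] at h2
  exact (Int.dvd_add_left (dvd_mul_right _ _)).1 h2

/-- the system `a x + b`, `(a x + b) ^ 2 + β (a x + b) + γ` -/
lemma ok_ab (β γ : ℤ) (hD : ¬ IsSquare (β ^ 2 - 4 * γ)) (a b N A : ℕ) (hN : 2 + |β| + |γ| ≤ (N : ℤ))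
    (ha : 1 ≤ a) (haN : a ≤ N ^ A) (hbN : b ≤ N ^ A) (hab : Nat.Coprime a b)
    (hco : IsCoprime (a : ℤ) ((b : ℤ) ^ 2 + β * b + γ))
    (hadm : ∀ p : ℕ, p.Prime → ∃ x : ℕ, ¬ p ∣ x ∧ ¬ (p : ℤ) ∣ (x : ℤ) ^ 2 + β * x + γ) :
    Ok 2 2 ((N : ℤ) ^ (2 * A + 1)) ![lf a b, qp β γ a b] := by
  have ha0 : (a : ℤ) ≠ 0 := by exact_mod_cast (by omega : a ≠ 0)
  have h1 : 1 ≤ N ^ A := ha.trans haN
  have hpw := pw_bound β γ N A hN
  have h1z : (1 : ℤ) ≤ (N : ℤ) ^ A := by exact_mod_cast h1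
  have haz : |(a : ℤ)| ≤ (N : ℤ) ^ A := by
    rw [abs_of_nonneg (by positivity)]
    exact_mod_cast haN
  have hbz : |(b : ℤ)| ≤ (N : ℤ) ^ A := by
    rw [abs_of_nonneg (by positivity)]
    exact_mod_cast hbN
  have hle : (N : ℤ) ^ A ≤ (N : ℤ) ^ (2 * A + 1) := by
    refine le_trans ?_ hpw
    have e0 : (N : ℤ) ^ A ≤ ((N : ℤ) ^ A) ^ 2 := by nlinarith
    have e1 : 0 ≤ |β| := abs_nonneg _
    have e2 : 0 ≤ |γ| := abs_nonneg _
    nlinarith [mul_nonneg e1 (by positivity : (0 : ℤ) ≤ ((N : ℤ) ^ A) ^ 2),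
      mul_nonneg e2 (by positivity : (0 : ℤ) ≤ ((N : ℤ) ^ A) ^ 2)]
  apply ok_two (lf_irr _ _ ha0 (Nat.isCoprime_iff_coprime.2 hab)) (lf_deg _ _ ha0) (qp_irr β γ a b ha0 hco hD)
    (by rw [qp_deg _ _ _ _ ha0]) (by rw [qp_deg _ _ _ _ ha0])
  · intro n
    rw [lf_coeff]
    split_ifs
    · exact hbz.trans hle
    · exact haz.trans hle
    · simp only [abs_zero]
      positivity
  · exact qp_hgt β γ a b _ _ haz hbz h1z hpw
  · intro p hp
    by_cases hpa : p ∣ a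
    · have hpaz : (p : ℤ) ∣ (a : ℤ) := by exact_mod_cast hpa
      refine ⟨0, ?_, ?_⟩
      · rw [lf_eval]
        intro h
        have h2z : (p : ℤ) ∣ (b : ℤ) := by simpa using h
        have h2 : p ∣ b := by exact_mod_cast h2z
        have h3 := Nat.dvd_gcd hpa h2
        rw [hab] at h3
        exact hp.one_lt.ne' (Nat.dvd_one.1 h3)
      · rw [qp_eval]
        intro h
        exact cop_prime hco p hp hpaz (by simpa using h)
    · obtain ⟨x, hx1, hx2⟩ := hadm p hp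
      obtain ⟨m, hm⟩ := solve a b x p hp hpa
      refine ⟨m, ?_, ?_⟩
      · rw [lf_eval]
        intro h
        apply hx1
        have h2 := dvd_sub h hm
        have e : (a : ℤ) * m + b - ((a : ℤ) * m + b - x) = x := by ring
        rw [e] at h2
        exact_mod_cast h2
      · rw [qp_eval]
        intro h
        apply hx2
        have e : (x : ℤ) ^ 2 + β * x + γ = (((a : ℤ) * m + b) ^ 2 + β * ((a : ℤ) * m + b) + γ) -
            ((a : ℤ) * m + b - x) * ((a : ℤ) * m + b + x + β) := by ring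
        rw [e]
        exact dvd_sub h (dvd_mul_of_dvd_left hm _)

end Pool.Agent.R490.QP
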