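import Pool.Agent.R490.Moms

set_option autoImplicit false

/-!
# The limit law against test functions of polynomial growth
-/

namespace Pool.Agent.R490.Test

open Finset Filter
open Pool.Agent.W123.RP Pool.Agent.H373R2.T7 Pool.Agent.W123.RU Pool.Agent.TH464.PO Pool.Agent.TH464.PW
open Pool.Agent.Y879.AP Pool.Agent.R490.Cls Pool.Agent.R490.Mean Pool.Agent.R490.Lone Pool.Agent.R490.Moms

/-- powers against binomial coefficients -/
lemma pow_choose (m w : ℕ) : ((1 : ℝ) + w) ^ m ≤ ((2 * m + 2 : ℕ) : ℝ) ^ m * (1 + (m.factorial : ℝ) * (w.choose m : ℝ)) := by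
  have hc : (0 : ℝ) ≤ (m.factorial : ℝ) * (w.choose m : ℝ) := by positivity
  have hb : (1 : ℝ) ≤ ((2 * m + 2 : ℕ) : ℝ) ^ m := by
    apply one_le_pow₀
    exact_mod_cast (by omega : 1 ≤ 2 * m + 2)
  by_cases h : w ≤ 2 * m
  · have h1 : ((1 : ℝ) + w) ^ m ≤ ((2 * m + 2 : ℕ) : ℝ) ^ m := by
      apply pow_le_pow_left₀ (by positivity)
      exact_mod_cast (by omega : 1 + w ≤ 2 * m + 2)
    have h2 : ((2 * m + 2 : ℕ) : ℝ) ^ m * 1 ≤ ((2 * m + 2 : ℕ) : ℝ) ^ m * (1 + (m.factorial : ℝ) * (w.choose m : ℝ)) := by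
      apply mul_le_mul_of_nonneg_left _ (by positivity)
      linarith
    linarith
  · rw [not_le] at h
    have h1 : (w + 1 - m) ^ m ≤ m.factorial * w.choose m := by
      have := Nat.pow_sub_le_descFactorial w m
      rwa [Nat.descFactorial_eq_factorial_mul_choose] at this
    have h2 : 1 + w ≤ (2 * m + 2) * (w + 1 - m) := by
      have h3 : 2 * (w + 1 - m) ≥ w + 1 := by omega
      have h4 : 2 * (w + 1 - m) ≤ (2 * m + 2) * (w + 1 - m) := Nat.mul_le_mul_right _ (by omega)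
      omega
    have h5 : (1 + w) ^ m ≤ (2 * m + 2) ^ m * (m.factorial * w.choose m) := by
      calc (1 + w) ^ m ≤ ((2 * m + 2) * (w + 1 - m)) ^ m := Nat.pow_le_pow_left h2 m
        _ = (2 * m + 2) ^ m * (w + 1 - m) ^ m := mul_pow _ _ _
        _ ≤ _ := Nat.mul_le_mul_left _ h1
    have h6 : ((1 : ℝ) + w) ^ m ≤ ((2 * m + 2 : ℕ) : ℝ) ^ m * ((m.factorial : ℝ) * (w.choose m : ℝ)) := by
      exact_mod_cast h5
    have h7 : ((2 * m + 2 : ℕ) : ℝ) ^ m * ((m.factorial : ℝ) * (w.choose m : ℝ)) ≤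
        ((2 * m + 2 : ℕ) : ℝ) ^ m * (1 + (m.factorial : ℝ) * (w.choose m : ℝ)) := by
      apply mul_le_mul_of_nonneg_left _ (by positivity)
      linarith
    linarith

/-- the exponential series with polynomial weights converges -/
lemma summable_pow_exp (m : ℕ) (x : ℝ) (hx : 0 ≤ x) :
    Summable (fun j : ℕ => ((1 : ℝ) + j) ^ m * (x ^ j / j.factorial)) := by
  have h1 : Summable (fun j : ℕ => (m.factorial : ℝ) * Real.exp 1 * ((Real.exp 1 * x) ^ j / (j.factorial : ℝ))) :=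
    (Real.summable_pow_div_factorial (Real.exp 1 * x)).mul_left _
  refine Summable.of_nonneg_of_le (fun j => by positivity) (fun j => ?_) h1
  have h2 : ((1 : ℝ) + j) ^ m / m.factorial ≤ Real.exp (1 + j) :=
    Real.pow_div_factorial_le_exp (1 + (j : ℝ)) (by positivity) m
  have h3 : ((1 : ℝ) + j) ^ m ≤ m.factorial * (Real.exp 1 * Real.exp 1 ^ j) := by
    rw [div_le_iff₀ (by positivity)] at h2
    rw [Real.exp_add] at h2
    have h4 : Real.exp (j : ℝ) = Real.exp 1 ^ j := by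
      rw [← Real.exp_nat_mul, mul_one]
    rw [h4] at h2
    linarith
  calc ((1 : ℝ) + j) ^ m * (x ^ j / j.factorial) ≤
        (m.factorial * (Real.exp 1 * Real.exp 1 ^ j)) * (x ^ j / j.factorial) :=
        mul_le_mul_of_nonneg_right h3 (by positivity)
    _ = (m.factorial : ℝ) * Real.exp 1 * ((Real.exp 1 * x) ^ j / (j.factorial : ℝ)) := by
      rw [mul_pow]
      ring

open Classical in
/-- **The limit law against all test functions of polynomial growth.** -/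
theorem test (θ x0 A ε : ℝ) (k : ℕ) (hθ : 0 < θ) (hA : 0 < A) (hε : 0 < ε) :
    ∃ r0 : ℕ, 2 ≤ r0 ∧ ∀ r : ℕ, r0 ≤ r → ∀ᶠ q : ℕ in atTop, ∀ y : ℕ, y = ⌊(q : ℝ) ^ (1 / (r : ℝ))⌋₊ →
      ∀ Z Y : ℕ, (q : ℝ) ^ θ ≤ Y → ∀ T : ℕ, T * V q y ≤ x0 →
        ∀ f : ℕ → ℝ, (∀ j : ℕ, |f j| ≤ A * (1 + j) ^ k) →
          |∑ n ∈ Om q Z Y, f (cnt q y T n) - Y * ((q.totient : ℝ) / q) * ∑' j : ℕ, f j * Lone.pw (T * V q y) j| ≤
            ε * (Y * ((q.totient : ℝ) / q)) := by
  obtain ⟨x1, hx1⟩ : ∃ x1 : ℝ, x1 = |x0| := ⟨_, rfl⟩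
  have hx10 : 0 ≤ x1 := by rw [hx1]; exact abs_nonneg _
  have hsum := summable_pow_exp (k + 1) x1 hx10
  obtain ⟨B, hB⟩ : ∃ B : ℝ, B = ∑' j : ℕ, ((1 : ℝ) + j) ^ (k + 1) * (x1 ^ j / j.factorial) := ⟨_, rfl⟩
  have hB0 : 0 ≤ B := by rw [hB]; exact tsum_nonneg fun j => by positivity
  obtain ⟨c, hc⟩ : ∃ c : ℝ, c = ((2 * (k + 1) + 2 : ℕ) : ℝ) ^ (k + 1) * (3 + x1 ^ (k + 1) + (k + 1).factorial) := ⟨_, rfl⟩
  have hc0 : 0 < c := by rw [hc]; positivity
  -- the cut
  obtain ⟨J, hJ⟩ : ∃ J : ℕ, A * (B + c) * (4 / ε) + 1 ≤ J := exists_nat_ge _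
  have hJ1 : (1 : ℝ) ≤ J := by
    have : 0 ≤ A * (B + c) * (4 / ε) := by positivity
    linarith
  have hJ0 : (0 : ℝ) < J := by linarith
  obtain ⟨ε1, hε1⟩ : ∃ ε1 : ℝ, ε1 = ε / (2 * (J * (A * (1 + J) ^ k))) := ⟨_, rfl⟩
  have hε10 : 0 < ε1 := by rw [hε1]; positivity
  obtain ⟨r1, hr1, h1⟩ := law θ x0 ε1 hθ hε10
  obtain ⟨r2, hr2, h2⟩ := mom θ x0 1 (k + 1) hθ one_pos
  obtain ⟨r3, hr3, h3⟩ := card_cop θ 1 hθ one_pos
  refine ⟨max r1 (max r2 r3), hr1.trans (le_max_left _ _), ?_⟩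
  intro r hr
  filter_upwards [h1 r ((le_max_left _ _).trans hr),
    h2 r (((le_max_left _ _).trans (le_max_right _ _)).trans hr),
    h3 r (((le_max_right _ _).trans (le_max_right _ _)).trans hr)] with q g1 g2 g3
  intro y hy Z Y hY T hT f hf
  have k1 := g1 y hy Z Y hY T hT
  have k2 := (abs_le.1 (g2 y hy Z Y hY T hT)).2
  have k3 := (abs_le.1 (g3 Z Y hY)).2
  obtain ⟨N, hN⟩ : ∃ N, N = (Y : ℝ) * ((q.totient : ℝ) / q) := ⟨_, rfl⟩
  have hN0 : 0 ≤ N := by rw [hN]; positivity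
  have hV0 : 0 ≤ V q y := by rw [← V_eq]; exact Vq_nonneg _ _
  obtain ⟨x, hx⟩ : ∃ x, x = T * V q y := ⟨_, rfl⟩
  have hxx : 0 ≤ x := by rw [hx]; positivity
  rw [← hN, ← hx] at k1 k2
  rw [← hN] at k3
  rw [← hx] at hT
  rw [← hN, ← hx]
  have hxx1 : x ≤ x1 := by rw [hx1]; exact hT.trans (le_abs_self _)
  -- the Poisson side
  have hpw : ∀ j : ℕ, Lone.pw x j ≤ x1 ^ j / j.factorial := by
    intro j
    unfold Lone.pw
    apply div_le_div_of_nonneg_right _ (by positivity)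
    calc Real.exp (-x) * x ^ j ≤ 1 * x1 ^ j := by
          apply mul_le_mul _ (pow_le_pow_left₀ hxx hxx1 j) (by positivity) zero_le_one
          rw [Real.exp_le_one_iff]
          linarith
      _ = x1 ^ j := one_mul _
  have hpw0 : ∀ j : ℕ, 0 ≤ Lone.pw x j := Lone.pw_nonneg x hxx
  have hfpw : ∀ j : ℕ, ‖f j * Lone.pw x j‖ ≤ A * (((1 : ℝ) + j) ^ (k + 1) * (x1 ^ j / j.factorial)) := by
    intro j
    rw [Real.norm_eq_abs, abs_mul, abs_of_nonneg (hpw0 j)]
    have a1 : ((1 : ℝ) + j) ^ k ≤ ((1 : ℝ) + j) ^ (k + 1) := by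
      apply pow_le_pow_right₀ _ (by omega)
      have : (0 : ℝ) ≤ j := Nat.cast_nonneg j
      linarith
    calc |f j| * Lone.pw x j ≤ (A * (1 + j) ^ k) * (x1 ^ j / j.factorial) := by
          apply mul_le_mul (hf j) (hpw j) (hpw0 j) (by positivity)
      _ = A * (((1 : ℝ) + j) ^ k * (x1 ^ j / j.factorial)) := by ring
      _ ≤ _ := by gcongr
  have hsf : Summable (fun j : ℕ => f j * Lone.pw x j) :=
    Summable.of_norm_bounded (hsum.mul_left A) hfpw
  have hsplit := hsf.sum_add_tsum_nat_add J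
  obtain ⟨P0, hP0⟩ : ∃ P0, P0 = ∑ j ∈ range J, f j * Lone.pw x j := ⟨_, rfl⟩
  obtain ⟨P1, hP1⟩ : ∃ P1, P1 = ∑' j : ℕ, f (j + J) * Lone.pw x (j + J) := ⟨_, rfl⟩
  rw [← hP0, ← hP1] at hsplit
  have hP1b : |P1| ≤ A * B / J := by
    have hs1 : Summable (fun j : ℕ => ((1 : ℝ) + (j + J : ℕ)) ^ (k + 1) * (x1 ^ (j + J) / (j + J).factorial)) :=
      (summable_nat_add_iff J).2 hsum
    have hs2 : Summable (fun j : ℕ => A / J * (((1 : ℝ) + (j + J : ℕ)) ^ (k + 1) * (x1 ^ (j + J) / (j + J).factorial))) :=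
      hs1.mul_left _
    have a1 : ∀ j : ℕ, ‖f (j + J) * Lone.pw x (j + J)‖ ≤
        A / J * (((1 : ℝ) + (j + J : ℕ)) ^ (k + 1) * (x1 ^ (j + J) / (j + J).factorial)) := by
      intro j
      rw [Real.norm_eq_abs, abs_mul, abs_of_nonneg (hpw0 _)]
      have a2 : ((1 : ℝ) + (j + J : ℕ)) ^ k ≤ ((1 : ℝ) + (j + J : ℕ)) ^ (k + 1) / J := by
        rw [le_div_iff₀ hJ0, pow_succ]
        apply mul_le_mul_of_nonneg_left _ (by positivity)
        push_cast
        have : (0 : ℝ) ≤ j := Nat.cast_nonneg j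
        linarith
      calc |f (j + J)| * Lone.pw x (j + J) ≤ (A * (1 + (j + J : ℕ)) ^ k) * (x1 ^ (j + J) / (j + J).factorial) := by
            apply mul_le_mul (hf _) (hpw _) (hpw0 _) (by positivity)
        _ ≤ (A * (((1 : ℝ) + (j + J : ℕ)) ^ (k + 1) / J)) * (x1 ^ (j + J) / (j + J).factorial) := by
            gcongr
        _ = _ := by ring
    have a3 : |P1| ≤ ∑' j : ℕ, A / J * (((1 : ℝ) + (j + J : ℕ)) ^ (k + 1) * (x1 ^ (j + J) / (j + J).factorial)) := by
      rw [hP1, ← Real.norm_eq_abs]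
      exact tsum_of_norm_bounded hs2.hasSum a1
    refine a3.trans ?_
    rw [tsum_mul_left]
    have a4 : ∑' j : ℕ, ((1 : ℝ) + (j + J : ℕ)) ^ (k + 1) * (x1 ^ (j + J) / (j + J).factorial) ≤ B := by
      rw [hB, ← hsum.sum_add_tsum_nat_add J]
      have : 0 ≤ ∑ j ∈ range J, ((1 : ℝ) + j) ^ (k + 1) * (x1 ^ j / j.factorial) :=
        Finset.sum_nonneg fun j _ => by positivity
      linarith
    calc A / J * ∑' j : ℕ, ((1 : ℝ) + (j + J : ℕ)) ^ (k + 1) * (x1 ^ (j + J) / (j + J).factorial) ≤ A / J * B := by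
          gcongr
      _ = A * B / J := by ring
  -- the counting side
  have e1 : ∀ n, f (cnt q y T n) = (∑ j ∈ range J, if cnt q y T n = j then f j else 0) +
      (if J ≤ cnt q y T n then f (cnt q y T n) else 0) := by
    intro n
    rw [Finset.sum_ite_eq]
    by_cases h : cnt q y T n ∈ range J
    · rw [if_pos h, if_neg (by rw [mem_range] at h; omega), add_zero]
    · rw [if_neg h, if_pos (by rw [mem_range] at h; omega), zero_add]
  have e2 : ∑ n ∈ Om q Z Y, f (cnt q y T n) = ∑ j ∈ range J, f j * (((Ioc Z (Z + Y)).filter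
        (fun n => n.Coprime q ∧ cnt q y T n ∈ ({j} : Finset ℕ))).card : ℝ) +
      ∑ n ∈ Om q Z Y, (if J ≤ cnt q y T n then f (cnt q y T n) else 0) := by
    rw [Finset.sum_congr rfl fun n _ => e1 n, Finset.sum_add_distrib]
    congr 1
    rw [Finset.sum_comm]
    apply Finset.sum_congr rfl
    intro j _
    rw [← Finset.sum_filter, Finset.sum_const, nsmul_eq_mul, mul_comm]
    congr 2
    unfold Om
    rw [Finset.filter_filter]
    congr 1
    apply Finset.filter_congr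
    intro n _
    rw [mem_singleton]
  obtain ⟨S1, hS1⟩ : ∃ S1, S1 = ∑ n ∈ Om q Z Y, (if J ≤ cnt q y T n then f (cnt q y T n) else 0) := ⟨_, rfl⟩
  have hS1b : |S1| ≤ A * c / J * N := by
    rw [hS1]
    refine (Finset.abs_sum_le_sum_abs _ _).trans ?_
    have a1 : ∀ n ∈ Om q Z Y, |(if J ≤ cnt q y T n then f (cnt q y T n) else 0)| ≤
        A / J * (((2 * (k + 1) + 2 : ℕ) : ℝ) ^ (k + 1) *
          (1 + ((k + 1).factorial : ℝ) * ((cnt q y T n).choose (k + 1) : ℝ))) := by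
      intro n _
      split_ifs with h
      · have a2 := pow_choose (k + 1) (cnt q y T n)
        have a3 : (J : ℝ) ≤ 1 + (cnt q y T n : ℝ) := by
          have : (J : ℝ) ≤ cnt q y T n := by exact_mod_cast h
          linarith
        have a4 : ((1 : ℝ) + cnt q y T n) ^ k ≤ ((1 : ℝ) + cnt q y T n) ^ (k + 1) / J := by
          rw [le_div_iff₀ hJ0, pow_succ]
          exact mul_le_mul_of_nonneg_left a3 (by positivity)
        calc |f (cnt q y T n)| ≤ A * (1 + cnt q y T n) ^ k := hf _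
          _ ≤ A * (((1 : ℝ) + cnt q y T n) ^ (k + 1) / J) := by gcongr
          _ = A / J * ((1 : ℝ) + cnt q y T n) ^ (k + 1) := by ring
          _ ≤ _ := by gcongr
      · rw [abs_zero]
        positivity
    refine (Finset.sum_le_sum a1).trans ?_
    rw [← Finset.mul_sum, ← Finset.mul_sum, Finset.sum_add_distrib, Finset.sum_const, nsmul_eq_mul, mul_one,
      ← Finset.mul_sum]
    have a5 : ((Om q Z Y).card : ℝ) ≤ 2 * N := by linarith
    have a6 : ((k + 1).factorial : ℝ) * ∑ n ∈ Om q Z Y, ((cnt q y T n).choose (k + 1) : ℝ) ≤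
        (x1 ^ (k + 1) + (k + 1).factorial) * N := by
      have b1 : ∑ n ∈ Om q Z Y, ((cnt q y T n).choose (k + 1) : ℝ) ≤
          N * (x ^ (k + 1) / (k + 1).factorial) + N := by linarith
      have b2 : x ^ (k + 1) ≤ x1 ^ (k + 1) := pow_le_pow_left₀ hxx hxx1 _
      have b3 : (0 : ℝ) < (k + 1).factorial := by positivity
      calc ((k + 1).factorial : ℝ) * ∑ n ∈ Om q Z Y, ((cnt q y T n).choose (k + 1) : ℝ) ≤
            ((k + 1).factorial : ℝ) * (N * (x ^ (k + 1) / (k + 1).factorial) + N) :=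
            mul_le_mul_of_nonneg_left b1 b3.le
        _ = x ^ (k + 1) * N + (k + 1).factorial * N := by field_simp
        _ ≤ x1 ^ (k + 1) * N + (k + 1).factorial * N := by gcongr
        _ = _ := by ring
    calc A / J * (((2 * (k + 1) + 2 : ℕ) : ℝ) ^ (k + 1) * ((Om q Z Y).card +
          ((k + 1).factorial : ℝ) * ∑ n ∈ Om q Z Y, ((cnt q y T n).choose (k + 1) : ℝ))) ≤
        A / J * (((2 * (k + 1) + 2 : ℕ) : ℝ) ^ (k + 1) * (2 * N + (x1 ^ (k + 1) + (k + 1).factorial) * N)) := by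
          gcongr
      _ ≤ A / J * (((2 * (k + 1) + 2 : ℕ) : ℝ) ^ (k + 1) * (3 * N + (x1 ^ (k + 1) + (k + 1).factorial) * N)) := by
          gcongr
          norm_num
      _ = A * c / J * N := by rw [hc]; ring
  have hmain : |∑ j ∈ range J, f j * (((Ioc Z (Z + Y)).filter
        (fun n => n.Coprime q ∧ cnt q y T n ∈ ({j} : Finset ℕ))).card : ℝ) - N * P0| ≤ ε / 2 * N := by
    rw [hP0, Finset.mul_sum, ← Finset.sum_sub_distrib]
    refine (Finset.abs_sum_le_sum_abs _ _).trans ?_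
    have a1 : ∀ j ∈ range J, |f j * (((Ioc Z (Z + Y)).filter
        (fun n => n.Coprime q ∧ cnt q y T n ∈ ({j} : Finset ℕ))).card : ℝ) - N * (f j * Lone.pw x j)| ≤
        (A * (1 + J) ^ k) * (ε1 * N) := by
      intro j hj
      rw [mem_range] at hj
      have a2 := k1 {j}
      rw [Finset.sum_singleton] at a2
      have a3 : f j * (((Ioc Z (Z + Y)).filter
        (fun n => n.Coprime q ∧ cnt q y T n ∈ ({j} : Finset ℕ))).card : ℝ) - N * (f j * Lone.pw x j) =
          f j * ((((Ioc Z (Z + Y)).filter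
        (fun n => n.Coprime q ∧ cnt q y T n ∈ ({j} : Finset ℕ))).card : ℝ) -
          N * (Real.exp (-x) * x ^ j / j.factorial)) := by
        unfold Lone.pw
        ring
      rw [a3, abs_mul]
      have a4 : |f j| ≤ A * (1 + J) ^ k := by
        refine (hf j).trans ?_
        have : (j : ℝ) ≤ J := by exact_mod_cast hj.le
        gcongr
      exact mul_le_mul a4 a2 (abs_nonneg _) (by positivity)
    refine (Finset.sum_le_sum a1).trans ?_
    rw [Finset.sum_const, card_range, nsmul_eq_mul, hε1]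
    apply le_of_eq
    field_simp
  rw [e2, ← hS1, ← hsplit]
  have hJε : A * (B + c) / J ≤ ε / 4 := by
    rw [div_le_div_iff₀ hJ0 (by norm_num)]
    have a1 : A * (B + c) * (4 / ε) ≤ J := by linarith
    rw [mul_div_assoc', div_le_iff₀ hε] at a1
    linarith
  have hfin : |S1| + N * |P1| ≤ ε / 4 * N := by
    calc |S1| + N * |P1| ≤ A * c / J * N + N * (A * B / J) := by gcongr
      _ = A * (B + c) / J * N := by ring
      _ ≤ ε / 4 * N := mul_le_mul_of_nonneg_right hJε hN0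
  have b1 := abs_le.1 hmain
  have b2 := abs_le.1 (le_refl |S1|)
  have b3 : -(N * |P1|) ≤ N * P1 := by
    have := neg_abs_le P1
    nlinarith
  have b4 : N * P1 ≤ N * |P1| := mul_le_mul_of_nonneg_left (le_abs_self _) hN0
  have b5 : 0 ≤ ε * N := by positivity
  rw [mul_add, abs_le]
  constructor <;> linarith

end Pool.Agent.R490.Test
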