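import Pool.Agent.R490.LZ

set_option autoImplicit false

/-!
# Tuples `q m + a + h`, `h ∈ H`, with closed forms of the densities
-/

namespace Pool.Agent.R490.Tq

open Polynomial Finset Filter
open Pool.Agent.R490.Sg (D1 cnt RightOrder ConstantDensity badScales Irregular)

/-- no `q m + a + h`, `h ∈ H`, has a prime factor `≤ y` -/
def Ro (H : Finset ℕ) (q a y m : ℕ) : Prop := ∀ p : ℕ, p.Prime → p ≤ y → ∀ h ∈ H, ¬ p ∣ q * m + a + h

/-- `0` if `p ∣ q`, otherwise the number of the residue classes modulo `p` which meet `H` -/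
def nu (H : Finset ℕ) (q p : ℕ) : ℕ := if p ∣ q then 0 else (H.image (fun h => h % p)).card

/-- the density -/
noncomputable def V (H : Finset ℕ) (q y : ℕ) : ℝ :=
  ∏ p ∈ (Finset.range (y + 1)).filter Nat.Prime, (1 - (nu H q p : ℝ) / p)

/-- the density relative to the primes -/
noncomputable def W (H : Finset ℕ) (q y : ℕ) : ℝ :=
  ∏ p ∈ (Finset.range (y + 1)).filter Nat.Prime, (1 - (nu H q p : ℝ) / p) / (1 - 1 / (p : ℝ))

open Classical in
lemma nu_eq (H : Finset ℕ) (q a p : ℕ) (hp : p.Prime) (hco : ∀ h ∈ H, Nat.Coprime q (a + h)) :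
    ((Finset.range p).filter (fun m : ℕ => ∃ h ∈ H, p ∣ q * m + a + h)).card = nu H q p := by
  unfold nu
  split_ifs with hpq
  · rw [Finset.card_eq_zero, Finset.filter_eq_empty_iff]
    rintro m _ ⟨h, hh, hd⟩
    rw [add_assoc] at hd
    have h1 : p ∣ a + h := (Nat.dvd_add_right (Dvd.dvd.mul_right hpq m)).1 hd
    have h2 := Nat.dvd_gcd hpq h1
    rw [hco h hh] at h2
    exact hp.one_lt.ne' (Nat.dvd_one.1 h2)
  · have hpp := Fact.mk hp
    have hq0 : (q : ZMod p) ≠ 0 := by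
      rw [Ne, ZMod.natCast_eq_zero_iff]
      exact hpq
    refine Finset.card_bij (fun m _ => (-((q : ZMod p) * m + a)).val) ?_ ?_ ?_
    · intro m hm
      obtain ⟨_, h, hh, hd⟩ := Finset.mem_filter.1 hm
      rw [Finset.mem_image]
      refine ⟨h, hh, ?_⟩
      have h1 : ((q * m + a + h : ℕ) : ZMod p) = 0 := (ZMod.natCast_eq_zero_iff _ _).2 hd
      push_cast at h1
      have h2 : -((q : ZMod p) * m + a) = (h : ZMod p) := by linear_combination -h1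
      rw [h2, ZMod.val_natCast]
    · intro m hm m' hm' he
      have h1 := ZMod.val_injective p he
      have h2 : (q : ZMod p) * m = (q : ZMod p) * m' := by linear_combination -h1
      have h3 : (m : ZMod p) = m' := mul_left_cancel₀ hq0 h2
      have h4 := (ZMod.natCast_eq_natCast_iff _ _ _).1 h3
      exact Nat.ModEq.eq_of_lt_of_lt h4 (Finset.mem_range.1 (Finset.mem_filter.1 hm).1)
        (Finset.mem_range.1 (Finset.mem_filter.1 hm').1)
    · intro t ht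
      obtain ⟨h, hh, rfl⟩ := Finset.mem_image.1 ht
      have hx : (((-((h : ZMod p) + a) * (q : ZMod p)⁻¹).val : ℕ) : ZMod p) = -((h : ZMod p) + a) * (q : ZMod p)⁻¹ := by
        rw [ZMod.natCast_val, ZMod.cast_id]
      refine ⟨(-((h : ZMod p) + a) * (q : ZMod p)⁻¹).val, ?_, ?_⟩
      · refine Finset.mem_filter.2 ⟨Finset.mem_range.2 (ZMod.val_lt _), h, hh, ?_⟩
        rw [← ZMod.natCast_eq_zero_iff]
        push_cast
        rw [hx]
        field_simp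
        ring
      · have h5 : -((q : ZMod p) * (((-((h : ZMod p) + a) * (q : ZMod p)⁻¹).val : ℕ) : ZMod p) + a) = (h : ZMod p) := by
          rw [hx]
          field_simp
          ring
        rw [h5, ZMod.val_natCast]

/-- the forms `q m + a + h` with integer coefficients -/
def fz (q a : ℕ) (H : Finset ℕ) : Finset (ℤ × ℤ) := H.image (fun h : ℕ => ((q : ℤ), ((a + h : ℕ) : ℤ)))

lemma fz_card (q a : ℕ) (H : Finset ℕ) : (fz q a H).card = H.card :=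
  Finset.card_image_of_injective _ (fun h h' e => by
    have h1 : ((a + h : ℕ) : ℤ) = ((a + h' : ℕ) : ℤ) := (Prod.ext_iff.1 e).2
    have h2 : a + h = a + h' := by exact_mod_cast h1
    omega)

lemma fz_ex (q a : ℕ) (H : Finset ℕ) (p m : ℕ) :
    (∃ l ∈ fz q a H, (p : ℤ) ∣ l.1 * m + l.2) ↔ ∃ h ∈ H, p ∣ q * m + a + h := by
  unfold fz
  constructor
  · rintro ⟨l, hl, hd⟩
    obtain ⟨h, hh, rfl⟩ := Finset.mem_image.1 hl
    have hd' : (p : ℤ) ∣ (q : ℤ) * m + ((a + h : ℕ) : ℤ) := hd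
    refine ⟨h, hh, ?_⟩
    rw [add_assoc]
    exact_mod_cast hd'
  · rintro ⟨h, hh, hd⟩
    refine ⟨_, Finset.mem_image_of_mem _ hh, ?_⟩
    have h1 : (p : ℤ) ∣ (q : ℤ) * m + ((a + h : ℕ) : ℤ) := by
      rw [add_assoc] at hd
      exact_mod_cast hd
    exact h1

open Classical in
lemma fz_De (H : Finset ℕ) (q a y : ℕ) (hco : ∀ h ∈ H, Nat.Coprime q (a + h)) :
    LZ.De (fz q a H) y = V H q y := by
  unfold LZ.De V
  apply Finset.prod_congr rfl
  intro p hp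
  rw [← nu_eq H q a p (Finset.mem_filter.1 hp).2 hco]
  congr 4
  ext m
  simp only [Finset.mem_filter]
  rw [fz_ex]

open Classical in
lemma fz_Wr (H : Finset ℕ) (q a y : ℕ) (hco : ∀ h ∈ H, Nat.Coprime q (a + h)) :
    LZ.Wr (fz q a H) y = W H q y := by
  unfold LZ.Wr W
  apply Finset.prod_congr rfl
  intro p hp
  rw [← nu_eq H q a p (Finset.mem_filter.1 hp).2 hco]
  congr 5
  ext m
  simp only [Finset.mem_filter]
  rw [fz_ex]

lemma ro_iff (H : Finset ℕ) (q a y m : ℕ) : LZ.Ro (fz q a H) y m ↔ Ro H q a y m := by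
  unfold LZ.Ro Ro
  constructor
  · intro h p hp hpy h' hh' hd
    obtain ⟨l, hl, hd2⟩ := (fz_ex q a H p m).2 ⟨h', hh', hd⟩
    exact h p hp hpy l hl hd2
  · intro h p hp hpy l hl hd
    obtain ⟨h', hh', hd2⟩ := (fz_ex q a H p m).1 ⟨l, hl, hd⟩
    exact h p hp hpy h' hh' hd2

lemma fz_good (q a N : ℕ) (H : Finset ℕ) (hq : 1 ≤ q) (hqN : q ≤ N) (hN : ∀ h ∈ H, a + h ≤ N)
    (hco : ∀ h ∈ H, Nat.Coprime q (a + h)) (hadm : ∀ p : ℕ, p.Prime → ∃ m : ℕ, ∀ h ∈ H, ¬ p ∣ m + h) :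
    LZ.Good N (fz q a H) where
  one := fun l hl => by
    obtain ⟨h, hh, rfl⟩ := Finset.mem_image.1 hl
    have h1 : (1 : ℤ) ≤ q := by exact_mod_cast hq
    exact h1
  bda := fun l hl => by
    obtain ⟨h, hh, rfl⟩ := Finset.mem_image.1 hl
    have h1 : (q : ℤ) ≤ N := by exact_mod_cast hqN
    exact h1
  bdb := fun l hl => by
    obtain ⟨h, hh, rfl⟩ := Finset.mem_image.1 hl
    have h1 : |((a + h : ℕ) : ℤ)| ≤ N := by
      rw [abs_of_nonneg (by positivity)]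
      exact_mod_cast hN h hh
    exact h1
  adm := fun p hp => by
    obtain ⟨m, hm⟩ := (Pg.fq_good q a N H hq hqN hN hco hadm).adm p hp
    refine ⟨m, fun l hl hd => ?_⟩
    obtain ⟨h, hh, rfl⟩ := Finset.mem_image.1 hl
    have h1 : (p : ℤ) ∣ (q : ℤ) * m + ((a + h : ℕ) : ℤ) := hd
    have h2 : p ∣ q * m + (a + h) := by exact_mod_cast h1
    exact hm (q, a + h) (Finset.mem_image_of_mem _ hh) h2

lemma fz_noT (q a : ℕ) (H : Finset ℕ) (hq : 1 ≤ q)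
    (hd : ∀ h ∈ H, ∀ h' ∈ H, h' < h → ¬ q ∣ h - h') (U : ℝ) : LZ.NoT (fz q a H) U := by
  intro l hl l' hl' t ht _ _ h2
  obtain ⟨h, hh, rfl⟩ := Finset.mem_image.1 hl
  obtain ⟨h', hh', rfl⟩ := Finset.mem_image.1 hl'
  have h3 : ((a + h : ℕ) : ℤ) = ((a + h' : ℕ) : ℤ) + (q : ℤ) * t := h2
  have h4 : a + h = a + h' + q * t := by exact_mod_cast h3
  have h5 : h = h' + q * t := by omega
  have h6 : 0 < q * t := Nat.mul_pos hq ht
  refine hd h hh h' hh' (by omega) ?_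
  rw [h5, Nat.add_sub_cancel_left]
  exact dvd_mul_right _ _

open Classical in
/-- the counting function of the spacings -/
noncomputable def Dk (H : Finset ℕ) (q a y l T u Y : ℕ) : ℕ :=
  ((Ioc u (u + Y)).filter (fun n => Ro H q a y n ∧ ((Ico (n - T) n).filter (fun m => Ro H q a y m)).card < l)).card

open Classical in
/-- the `m` with `q m + a` prime -/
noncomputable def Pr (H : Finset ℕ) (q a y u Y : ℕ) : Finset ℕ :=
  (Ioc u (u + Y)).filter (fun m => (q * m + a).Prime ∧ Ro H q a y m)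

open Classical in
/-- the following ones -/
noncomputable def Nx (H : Finset ℕ) (q a y T n : ℕ) : ℕ := ((Ioc n (n + T)).filter (fun m => Ro H q a y m)).card

open Classical in
theorem tgap (k A : ℕ) (hk : 2 ≤ k) (θ : ℝ) (hθ : 0 < θ) (l0 : ℕ) (x0 ε : ℝ) (hε : 0 < ε) :
    ∃ r0 : ℕ, ∀ r : ℕ, r0 ≤ r → ∀ᶠ X : ℕ in atTop, ∀ y : ℕ, y = ⌊(X : ℝ) ^ (1 / (r : ℝ))⌋₊ →
      ∀ H : Finset ℕ, H.card = k → (∀ h ∈ H, h ≤ X ^ A) →
      (∀ p : ℕ, p.Prime → ∃ m : ℕ, ∀ h ∈ H, ¬ p ∣ m + h) →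
      ∀ q a : ℕ, 1 ≤ q → q ≤ X ^ A → a ≤ X ^ A → (∀ h ∈ H, Nat.Coprime q (a + h)) →
      (∀ h ∈ H, ∀ h' ∈ H, h' < h → ¬ q ∣ h - h') →
      ∀ u Y : ℕ, (X : ℝ) ^ θ ≤ Y → ∀ l T : ℕ, (l ≤ l0 ∨ T * V H q y ≤ x0) →
        |(Dk H q a y l T u Y : ℝ) - Y * V H q y *
            ∑ j ∈ range l, Real.exp (-(T * V H q y)) * (T * V H q y) ^ j / j.factorial| ≤
          ε * (Y * V H q y) := by
  obtain ⟨r0, h0⟩ := LZ.gapL k (A + 1) hk 1 θ one_pos hθ l0 x0 ε hε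
  refine ⟨r0, fun r hr => ?_⟩
  filter_upwards [h0 r hr, eventually_ge_atTop 2] with X hX hX2
  intro y hy H hk' hHX hadm q a hq hqX haX hco hdif u Y hY l T hT
  have hpow : X ^ A + X ^ A ≤ X ^ (A + 1) := by
    rw [pow_succ]
    nlinarith [Nat.one_le_pow A X (by omega)]
  have h1 := hX (fz q a H) (by rw [fz_card, hk'])
    (fz_good q a _ H hq (by omega) (fun h hh => by have := hHX h hh; omega) hco hadm)
    (fz_noT q a H hq hdif _) y hy u Y hY l T (by rw [fz_De H q a y hco]; exact hT)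
  rw [fz_De H q a y hco] at h1
  have eD : LZ.Dk (fz q a H) y l T u Y = Dk H q a y l T u Y := by
    unfold LZ.Dk Dk
    simp only [ro_iff]
  rw [eD] at h1
  exact h1

open Classical in
theorem treg (k A : ℕ) (hk : 2 ≤ k) (θ : ℝ) (hθ : 0 < θ) :
    ∃ r0 : ℕ, 2 ≤ r0 ∧ ∀ r : ℕ, r0 ≤ r → ∀ ε : ℝ, 0 < ε → ∃ c : ℝ, 0 < c ∧
      ∀ δ : ℝ, 0 < δ → ∃ M : ℕ, ∀ᶠ X : ℕ in atTop, ∀ y : ℕ, y = ⌊(X : ℝ) ^ (1 / (r : ℝ))⌋₊ →
      ∀ H : Finset ℕ, H.card = k → (∀ h ∈ H, h ≤ X ^ A) →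
      (∀ p : ℕ, p.Prime → ∃ m : ℕ, ∀ h ∈ H, ¬ p ∣ m + h) →
      ∀ q a : ℕ, 1 ≤ q → q ≤ X ^ A → a ≤ X ^ A → (∀ h ∈ H, Nat.Coprime q (a + h)) →
      ∀ u Y : ℕ, (X : ℝ) ^ θ ≤ Y → Y ≤ X → Y ≤ u → ∀ S : Set ℕ, (∀ m ∈ S, Ro H q a y m) →
        (cnt (Irregular S (1 / V H q y) c δ M Y) u (u + Y) : ℝ) ≤ ε * (Y * V H q y) := by
  obtain ⟨r0, hr0, h0⟩ := LZ.regL k (A + 1) hk θ hθ
  refine ⟨r0, hr0, fun r hr ε hε => ?_⟩
  obtain ⟨c, hc, h1⟩ := h0 r hr ε hε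
  refine ⟨c, hc, fun δ hδ => ?_⟩
  obtain ⟨M, h2⟩ := h1 δ hδ
  refine ⟨M, ?_⟩
  filter_upwards [h2, eventually_ge_atTop 2] with X hX hX2
  intro y hy H hk' hHX hadm q a hq hqX haX hco u Y hY hYX hYu S hS
  have hpow : X ^ A + X ^ A ≤ X ^ (A + 1) := by
    rw [pow_succ]
    nlinarith [Nat.one_le_pow A X (by omega)]
  have h3 := hX (fz q a H) (by rw [fz_card, hk'])
    (fz_good q a _ H hq (by omega) (fun h hh => by have := hHX h hh; omega) hco hadm)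
    y hy u Y hY hYX hYu S (fun m hm => (ro_iff H q a y m).2 (hS m hm))
  rw [fz_De H q a y hco] at h3
  exact h3

open Classical in
theorem tprime (q k A : ℕ) (hq : Squarefree q) (hk : 2 ≤ k) (θ δ : ℝ) (hθ : 0 < θ) (hδ : 0 < δ) (hδ1 : δ ≤ 1)
    (x0 ε : ℝ) (hε : 0 < ε) (hε1 : ε ≤ 1) :
    ∃ r0 : ℕ, 2 ≤ r0 ∧ ∀ r : ℕ, r0 ≤ r → ∀ᶠ N : ℕ in atTop, ∀ y : ℕ, y = ⌊(N : ℝ) ^ (1 / (r : ℝ))⌋₊ →
      ∀ H : Finset ℕ, H.card = k → 0 ∈ H → (∀ h ∈ H, h ≤ N ^ A) →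
      (∀ p : ℕ, p.Prime → ∃ m : ℕ, ∀ h ∈ H, ¬ p ∣ m + h) →
      ∀ a : ℕ, a ≤ q → (∀ h ∈ H, Nat.Coprime q (a + h)) →
      (∀ h ∈ H, ∀ h' ∈ H, h' < h → ¬ q ∣ h - h') →
      0 < W H q y ∧ ∀ X : ℕ, (N : ℝ) ^ θ ≤ X → ∀ u Y : ℕ, δ * X ≤ Y → u + Y ≤ X →
      |((Pr H q a y u Y).card : ℝ) * Real.log X - Y * W H q y| ≤ ε * (Y * W H q y) ∧
      ∀ T : ℕ, T * V H q y ≤ x0 → ∀ J : Finset ℕ,
      |(((Pr H q a y u Y).filter (fun n => Nx H q a y T n ∈ J)).card : ℝ) - (Pr H q a y u Y).card *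
          ∑ j ∈ J, Real.exp (-(T * V H q y)) * (T * V H q y) ^ j / j.factorial| ≤
        ε * (Pr H q a y u Y).card := by
  obtain ⟨r0, hr0, h0⟩ := LZ.primeL q k (A + 1) hq hk 1 θ δ one_pos hθ hδ hδ1 x0 ε hε hε1
  refine ⟨r0, hr0, fun r hr => ?_⟩
  have hb : ∀ᶠ N : ℕ in atTop, (q : ℝ) ≤ (N : ℝ) ^ (θ / 4) :=
    ((tendsto_rpow_atTop (by positivity)).comp tendsto_natCast_atTop_atTop).eventually_ge_atTop _
  filter_upwards [h0 r hr, eventually_ge_atTop 2, eventually_ge_atTop q, hb] with N hN hN2 hNq hqb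
  intro y hy H hk' h0H hHN hadm a haq hco hdif
  have hq1 : 1 ≤ q := Nat.one_le_iff_ne_zero.2 hq.ne_zero
  have hpow : N ^ A + N ≤ N ^ (A + 1) ∨ A = 0 := by
    rcases Nat.eq_zero_or_pos A with h | h
    · exact Or.inr h
    · left
      have h1 : N ≤ N ^ A := Nat.le_self_pow (by omega) N
      rw [pow_succ]
      nlinarith [Nat.one_le_pow A N (by omega)]
  have hpow2 : ∀ h ∈ H, a + h ≤ N ^ (A + 1) ∧ q ≤ N ^ (A + 1) := by
    intro h hh
    have h1 := hHN h hh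
    rcases hpow with h2 | h2
    · constructor <;> omega
    · subst h2
      simp only [pow_zero, zero_add, pow_one] at h1 ⊢
      refine ⟨?_, hNq⟩
      rcases Nat.eq_zero_or_pos h with h3 | h3
      · omega
      · -- h = 1, both 0 and 1 in H contradict admissibility at 2
        exfalso
        obtain ⟨m, hm⟩ := hadm 2 Nat.prime_two
        have h4 := hm 0 h0H
        have h5 := hm h hh
        omega
  have h1 := hN (fz q a H) a (by rw [fz_card, hk'])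
    (Finset.mem_image.2 ⟨0, h0H, by simp⟩)
    ((by exact_mod_cast haq : (a : ℝ) ≤ q).trans hqb)
    (fun p _ hpq l hl => by
      obtain ⟨h, hh, rfl⟩ := Finset.mem_image.1 hl
      have h3 : (p : ℤ) ∣ (q : ℤ) := by exact_mod_cast hpq
      exact h3)
    (fz_good q a _ H hq1 (hpow2 0 h0H).2 (fun h hh => (hpow2 h hh).1) hco hadm)
    (fz_noT q a H hq1 hdif _) y hy
  have eP : ∀ u Y, LZ.Pr q a (fz q a H) y u Y = Pr H q a y u Y := by
    intro u Y
    unfold LZ.Pr Pr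
    simp only [ro_iff]
  have eN : ∀ B n, LZ.Nx (fz q a H) y B n = Nx H q a y B n := by
    intro B n
    unfold LZ.Nx Nx
    simp only [ro_iff]
  rw [fz_Wr H q a y hco, fz_De H q a y hco] at h1
  simp only [eP, eN] at h1
  exact h1

/-- pairs with an even difference are admissible -/
lemma adm_pair (d : ℕ) (hev : Even d) (p : ℕ) (hp : p.Prime) : ∃ m : ℕ, ∀ h ∈ ({0, d} : Finset ℕ), ¬ p ∣ m + h := by
  have hor : ∃ m : ℕ, ¬ p ∣ m ∧ ¬ p ∣ m + d := by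
    by_cases h2 : p = 2
    · subst h2
      refine ⟨1, by norm_num, ?_⟩
      obtain ⟨k, rfl⟩ := hev
      omega
    · have hp3 : 3 ≤ p := by have := hp.two_le; omega
      by_cases h1 : p ∣ 1 + d
      · refine ⟨2, fun h => ?_, fun h => ?_⟩
        · have := Nat.le_of_dvd (by norm_num) h
          omega
        · have h4 : p ∣ (1 + d) + 1 := by
            rw [show 1 + d + 1 = 2 + d by ring]
            exact h
          have h3 : p ∣ 1 := (Nat.dvd_add_right h1).1 h4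
          exact hp.one_lt.ne' (Nat.dvd_one.1 h3)
      · exact ⟨1, fun h => hp.one_lt.ne' (Nat.dvd_one.1 h), h1⟩
  obtain ⟨m, h1, h2⟩ := hor
  refine ⟨m, fun h hh => ?_⟩
  simp only [Finset.mem_insert, Finset.mem_singleton] at hh
  rcases hh with rfl | rfl
  · rwa [add_zero]
  · exact h2

end Pool.Agent.R490.Tq
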