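import Pool.Agent.Y879.PR.Inst

set_option autoImplicit false

/-!
# The law after primes for the two kinds of prime triplets
-/

namespace Pool.Agent.R490.Tr

open Polynomial Finset Filter
open Pool.Agent.W123.RP Pool.Agent.H373R2.T7 Pool.Agent.W123.RU Pool.Agent.W123.RU.Poly
open Pool.Agent.TH464.PW Pool.Agent.TH464.PO Pool.Agent.Y879.AP Pool.Agent.Y879.GL Pool.Agent.Y879.PR

/-- none of `n`, `n + a`, `n + 6` has a prime factor `≤ N ^ (1 / r)` -/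
def Ro (a N r n : ℕ) : Prop :=
  ∀ p : ℕ, p.Prime → (p : ℝ) ≤ (N : ℝ) ^ (1 / (r : ℝ)) → ¬ p ∣ n ∧ ¬ p ∣ n + a ∧ ¬ p ∣ n + 6

/-- the product of `1 - 3 / p` over the primes `5 < p ≤ N ^ (1 / r)` -/
noncomputable def V (N r : ℕ) : ℝ :=
  ∏ p ∈ (Ioc 5 ⌊(N : ℝ) ^ (1 / (r : ℝ))⌋₊).filter Nat.Prime, (1 - 3 / (p : ℝ))

/-- `V` divided by the product of `1 - 1 / p` over the primes `p ≤ N ^ (1 / r)` -/
noncomputable def W (N r : ℕ) : ℝ :=
  V N r / ∏ p ∈ (Ioc 0 ⌊(N : ℝ) ^ (1 / (r : ℝ))⌋₊).filter Nat.Prime, (1 - 1 / (p : ℝ))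

open Classical in
/-- the `n` in `(A, A + L]` with `Ro a N r n` for which `n + b` is prime -/
noncomputable def P (a N r b A L : ℕ) : Finset ℕ := (Ioc A (A + L)).filter (fun n => (n + b).Prime ∧ Ro a N r n)

open Classical in
/-- the number of the `l` in `(n, n + 30 T]`, `l ≡ n` modulo 30, with `Ro a N r l` -/
noncomputable def Nx (a N r T n : ℕ) : ℕ := ((Ioc n (n + 30 * T)).filter (fun l => l % 30 = n % 30 ∧ Ro a N r l)).card

lemma pz_eq (y : ℕ) : pz y = (Ioc 0 y).filter Nat.Prime := by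
  unfold pz
  ext p
  simp only [mem_filter, mem_Icc, mem_Ioc]
  constructor
  · rintro ⟨h1, h2⟩
    exact ⟨by omega, h2⟩
  · rintro ⟨h1, h2⟩
    exact ⟨by omega, h2⟩

lemma PV_eq (N r : ℕ) : PV 30 3 N r = V N r := by
  unfold PV V
  symm
  have hsub : (Ioc 5 ⌊(N : ℝ) ^ (1 / (r : ℝ))⌋₊).filter Nat.Prime ⊆
      (Icc 1 ⌊(N : ℝ) ^ (1 / (r : ℝ))⌋₊).filter Nat.Prime := by
    intro p hp
    rw [mem_filter, mem_Ioc] at hp
    rw [mem_filter, mem_Icc]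
    exact ⟨⟨by omega, hp.1.2⟩, hp.2⟩
  have h30 : ∀ p : ℕ, p.Prime → (p ∣ 30 ↔ p ≤ 5) := by
    intro p hp
    constructor
    · intro h
      have h1 : p ∣ 2 * (3 * 5) := h
      rcases (Nat.Prime.dvd_mul hp).1 h1 with h2 | h2
      · exact (Nat.le_of_dvd (by norm_num) h2).trans (by norm_num)
      · rcases (Nat.Prime.dvd_mul hp).1 h2 with h3 | h3
        · exact (Nat.le_of_dvd (by norm_num) h3).trans (by norm_num)
        · exact Nat.le_of_dvd (by norm_num) h3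
    · intro h
      have := hp.two_le
      interval_cases p
      · norm_num
      · norm_num
      · exact absurd hp (by norm_num)
      · norm_num
  refine Eq.trans (Finset.prod_congr rfl ?_) (Finset.prod_subset hsub ?_)
  · intro p hp
    rw [mem_filter, mem_Ioc] at hp
    unfold pnu
    rw [if_neg (fun h => by have := (h30 p hp.2).1 h; omega)]
    push_cast
    rfl
  · intro p hp hp2
    rw [mem_filter, mem_Icc] at hp
    rw [mem_filter, mem_Ioc] at hp2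
    have h5 : p ≤ 5 := by
      by_contra hcon
      exact hp2 ⟨⟨by omega, hp.1.2⟩, hp.2⟩
    unfold pnu
    rw [if_pos ((h30 p hp.2).2 h5)]
    simp

lemma PW_eq' (N r : ℕ) : PW 30 3 N r = W N r := by
  rw [PW_eq, PV_eq]
  unfold W Vz
  rw [pz_eq]

lemma ro_ta (N r n : ℕ) : PG ta N r n ↔ Ro 2 N r n := by
  unfold PG Ro ta
  constructor
  · intro h p hp hpr
    exact ⟨h p hp hpr 0, h p hp hpr 1, h p hp hpr 2⟩
  · intro h p hp hpr i
    obtain ⟨h1, h2, h3⟩ := h p hp hpr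
    fin_cases i
    · exact h1
    · exact h2
    · exact h3

lemma ro_tb (N r n : ℕ) : PG tb N r n ↔ Ro 4 N r n := by
  unfold PG Ro tb
  constructor
  · intro h p hp hpr
    exact ⟨h p hp hpr 0, h p hp hpr 1, h p hp hpr 2⟩
  · intro h p hp hpr i
    obtain ⟨h1, h2, h3⟩ := h p hp hpr
    fin_cases i
    · exact h1
    · exact h2
    · exact h3

open Classical in
lemma gen (a : ℕ) (h : Fin 3 → ℕ) (C : Finset ℕ) (hC : C.card = 2) (hP : Pat2 30 h C)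
    (hro : ∀ N r n, PG h N r n ↔ Ro a N r n) (hh : ∀ b ∈ ({0, a, 6} : Finset ℕ), ∃ i, h i = b)
    (θ δ : ℝ) (hθ : 0 < θ) (hδ : 0 < δ) (hδ1 : δ ≤ 1)
    (x0 ε : ℝ) (hε : 0 < ε) (hε1 : ε ≤ 1) :
    ∃ r0 : ℕ, 2 ≤ r0 ∧ ∀ r : ℕ, r0 ≤ r → ∀ᶠ N : ℕ in atTop, 0 < W N r ∧
      ∀ b ∈ ({0, a, 6} : Finset ℕ), ∀ X : ℕ, (N : ℝ) ^ θ ≤ X →
      ∀ A L : ℕ, δ * X ≤ L → A + L ≤ X →
      |((P a N r b A L).card : ℝ) * Real.log X - 2 * (L / 30 * W N r)| ≤ ε * (2 * (L / 30 * W N r)) ∧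
      ∀ T : ℕ, T * V N r ≤ x0 → ∀ J : Finset ℕ,
      |(((P a N r b A L).filter (fun n => Nx a N r T n ∈ J)).card : ℝ) -
        (P a N r b A L).card * ∑ j ∈ J, Real.exp (-(T * V N r)) * (T * V N r) ^ j / j.factorial| ≤
        ε * (P a N r b A L).card := by
  have hCn : C.Nonempty := Finset.card_pos.1 (by omega)
  obtain ⟨r0, hr0, h0⟩ := pat_law hP hCn θ δ hθ hδ hδ1 x0 ε hε hε1
  refine ⟨r0, hr0, fun r hr => ?_⟩
  filter_upwards [h0 r hr] with N hN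
  refine ⟨by rw [← PW_eq']; exact hP.W_pos hCn N r, ?_⟩
  intro b hb X hX A L hL hAL
  obtain ⟨i, hi⟩ := hh b hb
  have h1 := hN i X hX A L hL hAL
  have eP : PP h N r i A L = P a N r b A L := by
    unfold PP P
    apply Finset.filter_congr
    intro n _
    rw [hi, hro]
  have eN : ∀ T n, PNext h 30 N r T n = Nx a N r T n := by
    intro T n
    unfold PNext Nx
    congr 1
    apply Finset.filter_congr
    intro l _
    rw [hro]
  rw [eP, PW_eq', PV_eq, hC] at h1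
  simp only [eN] at h1
  push_cast at h1
  exact h1

open Classical in
/-- **The law after primes for prime triplets.** -/
theorem triplet (a : ℕ) (ha : a = 2 ∨ a = 4)
    (θ δ : ℝ) (hθ : 0 < θ) (hδ : 0 < δ) (hδ1 : δ ≤ 1)
    (x0 ε : ℝ) (hε : 0 < ε) (hε1 : ε ≤ 1) :
    ∃ r0 : ℕ, 2 ≤ r0 ∧ ∀ r : ℕ, r0 ≤ r → ∀ᶠ N : ℕ in atTop, 0 < W N r ∧
      ∀ b ∈ ({0, a, 6} : Finset ℕ), ∀ X : ℕ, (N : ℝ) ^ θ ≤ X →
      ∀ A L : ℕ, δ * X ≤ L → A + L ≤ X →
      |((P a N r b A L).card : ℝ) * Real.log X - 2 * (L / 30 * W N r)| ≤ ε * (2 * (L / 30 * W N r)) ∧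
      ∀ T : ℕ, T * V N r ≤ x0 → ∀ J : Finset ℕ,
      |(((P a N r b A L).filter (fun n => Nx a N r T n ∈ J)).card : ℝ) -
        (P a N r b A L).card * ∑ j ∈ J, Real.exp (-(T * V N r)) * (T * V N r) ^ j / j.factorial| ≤
        ε * (P a N r b A L).card := by
  rcases ha with rfl | rfl
  · refine gen 2 ta {11, 17} (by decide) pat_ta ro_ta ?_ θ δ hθ hδ hδ1 x0 ε hε hε1
    intro b hb
    simp only [Finset.mem_insert, Finset.mem_singleton] at hb
    rcases hb with rfl | rfl | rfl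
    · exact ⟨0, rfl⟩
    · exact ⟨1, rfl⟩
    · exact ⟨2, rfl⟩
  · refine gen 4 tb {7, 13} (by decide) pat_tb ro_tb ?_ θ δ hθ hδ hδ1 x0 ε hε hε1
    intro b hb
    simp only [Finset.mem_insert, Finset.mem_singleton] at hb
    rcases hb with rfl | rfl | rfl
    · exact ⟨0, rfl⟩
    · exact ⟨1, rfl⟩
    · exact ⟨2, rfl⟩

end Pool.Agent.R490.Tr
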