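import Pool.Agent.R490.Lin
import Pool.Agent.Y677.RSZ.Fin

set_option autoImplicit false

/-!
# Tuples `m + h`, `h ∈ H`: regular points and narrow progressions, also between consecutive powers
-/

namespace Pool.Agent.R490.Tu

open Polynomial Finset Filter
open Pool.Agent.W123.RP Pool.Agent.H373R2.T7 Pool.Agent.W123.RU Pool.Agent.W123.RU.Poly
open Pool.Agent.TH464.PW Pool.Agent.TH464.PO Pool.Agent.Y879.GL
open Pool.Agent.R490.Sg (D1 pz_eq Vz_D1 cnt RightOrder ConstantDensity badScales Irregular)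

/-- no `m + h`, `h ∈ H`, has a prime factor `≤ y` -/
def Ro (H : Finset ℕ) (y m : ℕ) : Prop := ∀ p : ℕ, p.Prime → p ≤ y → ∀ h ∈ H, ¬ p ∣ m + h

open Classical in
/-- the density of the condition `Ro` -/
noncomputable def De (H : Finset ℕ) (y : ℕ) : ℝ := ∏ p ∈ (Finset.range (y + 1)).filter Nat.Prime,
    (1 - (((Finset.range p).filter (fun m : ℕ => ∃ h ∈ H, p ∣ m + h)).card : ℝ) / p)

/-- the linear forms -/
def fo (H : Finset ℕ) : Finset (ℕ × ℕ) := H.image (fun h => (1, h))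

lemma fo_card (H : Finset ℕ) : (fo H).card = H.card :=
  Finset.card_image_of_injective _ (fun _ _ h => (Prod.ext_iff.1 h).2)

lemma mem_fo (H : Finset ℕ) (l : ℕ × ℕ) : l ∈ fo H ↔ l.1 = 1 ∧ l.2 ∈ H := by
  unfold fo
  rw [mem_image]
  constructor
  · rintro ⟨h, hh, rfl⟩
    exact ⟨rfl, hh⟩
  · rintro ⟨h1, h2⟩
    exact ⟨l.2, h2, Prod.ext h1.symm rfl⟩

lemma fo_Q (H : Finset ℕ) (p m : ℕ) : (∃ l ∈ fo H, p ∣ l.1 * m + l.2) ↔ ∃ h ∈ H, p ∣ m + h := by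
  constructor
  · rintro ⟨l, hl, hd⟩
    rw [mem_fo] at hl
    refine ⟨l.2, hl.2, ?_⟩
    rwa [hl.1, one_mul] at hd
  · rintro ⟨h, hh, hd⟩
    refine ⟨(1, h), (mem_fo _ _).2 ⟨rfl, hh⟩, ?_⟩
    simpa using hd

lemma fo_Ro (H : Finset ℕ) (y m : ℕ) : Li.Ro (fo H) y m ↔ Ro H y m := by
  unfold Li.Ro Ro
  constructor
  · intro h p hp hpy h' hh' hd
    obtain ⟨l, hl, hd2⟩ := (fo_Q H p m).2 ⟨h', hh', hd⟩
    exact h p hp hpy l hl hd2
  · intro h p hp hpy l hl hd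
    obtain ⟨h', hh', hd2⟩ := (fo_Q H p m).1 ⟨l, hl, hd⟩
    exact h p hp hpy h' hh' hd2

open Classical in
lemma fo_De (H : Finset ℕ) (y : ℕ) : Li.De (fo H) y = De H y := by
  unfold Li.De De
  simp only [fo_Q]

lemma fo_good (H : Finset ℕ) (hadm : ∀ p : ℕ, p.Prime → ∃ m : ℕ, ∀ h ∈ H, ¬ p ∣ m + h) (N : ℕ)
    (hN : ∀ h ∈ H, h ≤ N) (hN1 : 1 ≤ N) : Li.Good N (fo H) where
  one := fun l hl => by rw [mem_fo] at hl; omega
  cop := fun l hl => by rw [mem_fo] at hl; rw [hl.1]; exact Nat.coprime_one_left _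
  bda := fun l hl => by rw [mem_fo] at hl; omega
  bdb := fun l hl => by rw [mem_fo] at hl; exact hN _ hl.2
  adm := fun p hp => by
    obtain ⟨m, hm⟩ := hadm p hp
    refine ⟨m, fun l hl => ?_⟩
    rw [mem_fo] at hl
    rw [hl.1, one_mul]
    exact hm _ hl.2

/-- **Regular points for tuples**, uniformly in the tuples with `k ≥ 2` entries at most `X ^ A` -/
theorem regU (k A : ℕ) (hk2 : 2 ≤ k) (θ : ℝ) (hθ : 0 < θ) :
    ∃ r0 : ℕ, 2 ≤ r0 ∧ ∀ r : ℕ, r0 ≤ r → ∀ ε : ℝ, 0 < ε → ∃ c : ℝ, 0 < c ∧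
      ∀ δ : ℝ, 0 < δ → ∃ M : ℕ, ∀ᶠ X : ℕ in atTop, ∀ H : Finset ℕ, H.card = k → (∀ h ∈ H, h ≤ X ^ A) →
      (∀ p : ℕ, p.Prime → ∃ m : ℕ, ∀ h ∈ H, ¬ p ∣ m + h) → ∀ y : ℕ, y = ⌊(X : ℝ) ^ (1 / (r : ℝ))⌋₊ →
      ∀ u Y : ℕ, (X : ℝ) ^ θ ≤ Y → Y ≤ X → Y ≤ u → ∀ S : Set ℕ, (∀ m ∈ S, Ro H y m) →
        (cnt (Irregular S (1 / De H y) c δ M Y) u (u + Y) : ℝ) ≤ ε * (Y * De H y) := by
  obtain ⟨r0, hr0, h0⟩ := Li.regL k A hk2 θ hθ
  refine ⟨r0, hr0, ?_⟩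
  intro r hr ε hε
  obtain ⟨c, hc, h1⟩ := h0 r hr ε hε
  refine ⟨c, hc, ?_⟩
  intro δ hδ
  obtain ⟨M, h2⟩ := h1 δ hδ
  refine ⟨M, ?_⟩
  filter_upwards [h2, eventually_ge_atTop 1] with X h3 hX1
  intro H hk hHX hadm y hy u Y hY hYX hYu S hS
  have h4 := h3 (fo H) ((fo_card H).trans hk) (fo_good H hadm _ hHX (Nat.one_le_pow _ _ hX1)) y hy
    u Y hY hYX hYu S (fun m hm => (fo_Ro H y m).2 (hS m hm))
  rw [fo_De] at h4
  exact h4

lemma tendsto_pow_nat (a : ℕ) (ha : 1 ≤ a) : Tendsto (fun n : ℕ => n ^ a) atTop atTop :=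
  tendsto_pow_atTop (by omega)

/-- the number of integers strictly between `n ^ a` and `(n + 1) ^ a` -/
lemma between (a n : ℕ) (ha : 2 ≤ a) (hn : 1 ≤ n) :
    n ^ a + ((n + 1) ^ a - 1 - n ^ a) = (n + 1) ^ a - 1 ∧ n ^ (a - 1) ≤ (n + 1) ^ a - 1 - n ^ a ∧
      (n + 1) ^ a - 1 - n ^ a ≤ 2 ^ a * n ^ (a - 1) := by
  obtain ⟨b, rfl⟩ : ∃ b, a = b + 2 := ⟨a - 2, by omega⟩
  have h1 : n ^ (b + 2) + n ^ (b + 1) + 1 ≤ (n + 1) ^ (b + 2) := by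
    have e1 : n ^ (b + 1) + 1 ≤ (n + 1) ^ (b + 1) :=
      Nat.pow_lt_pow_left (Nat.lt_succ_self n) (by omega)
    have e2 : (n + 1) ^ (b + 2) = n * (n + 1) ^ (b + 1) + (n + 1) ^ (b + 1) := by ring
    have e3 : n ^ (b + 2) = n * n ^ (b + 1) := by ring
    have e4 : n * n ^ (b + 1) ≤ n * (n + 1) ^ (b + 1) := Nat.mul_le_mul_left _ (by omega)
    omega
  have h2 : (n + 1) ^ (b + 2) ≤ n ^ (b + 2) + 2 ^ (b + 2) * n ^ (b + 1) := by
    rw [add_pow, Finset.sum_range_succ]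
    simp only [Nat.cast_id]
    have e2 : n ^ (b + 2) * 1 ^ (b + 2 - (b + 2)) * (b + 2).choose (b + 2) = n ^ (b + 2) := by
      rw [Nat.choose_self]
      simp
    have e3 : ∑ x ∈ Finset.range (b + 2), n ^ x * 1 ^ (b + 2 - x) * (b + 2).choose x ≤
        ∑ x ∈ Finset.range (b + 2), n ^ (b + 1) * (b + 2).choose x := by
      apply Finset.sum_le_sum
      intro x hx
      rw [mem_range] at hx
      rw [one_pow, mul_one]
      exact Nat.mul_le_mul_right _ (Nat.pow_le_pow_right hn (by omega))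
    have e4 : ∑ x ∈ Finset.range (b + 2), n ^ (b + 1) * (b + 2).choose x ≤ 2 ^ (b + 2) * n ^ (b + 1) := by
      rw [← Finset.mul_sum, mul_comm]
      apply Nat.mul_le_mul_right
      rw [← Nat.sum_range_choose (b + 2)]
      exact Finset.sum_le_sum_of_subset (Finset.range_subset_range.2 (by omega))
    omega
  have e5 : b + 2 - 1 = b + 1 := by omega
  rw [e5]
  refine ⟨by omega, by omega, by omega⟩

open Classical in
/-- **Regular points between consecutive powers.** -/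
theorem regPow (k a : ℕ) (hk2 : 2 ≤ k) (ha : 2 ≤ a) :
    ∃ r0 : ℕ, 2 ≤ r0 ∧ ∀ r : ℕ, r0 ≤ r → ∀ ε : ℝ, 0 < ε → ∃ c : ℝ, 0 < c ∧
      ∀ δ : ℝ, 0 < δ → ∃ M : ℕ, ∀ᶠ n : ℕ in atTop, ∀ H : Finset ℕ, H.card = k → (∀ h ∈ H, h ≤ n ^ a) →
      (∀ p : ℕ, p.Prime → ∃ m : ℕ, ∀ h ∈ H, ¬ p ∣ m + h) →
      ∀ S : Set ℕ, (∀ m ∈ S, Ro H ⌊((n ^ a : ℕ) : ℝ) ^ (1 / (r : ℝ))⌋₊ m) →
        (((Ioo (n ^ a) ((n + 1) ^ a)).filter (fun m => m ∈ Irregular S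
          (1 / De H ⌊((n ^ a : ℕ) : ℝ) ^ (1 / (r : ℝ))⌋₊) c δ M ((n + 1) ^ a - 1 - n ^ a))).card : ℝ) ≤
          ε * (n ^ (a - 1) * De H ⌊((n ^ a : ℕ) : ℝ) ^ (1 / (r : ℝ))⌋₊) := by
  obtain ⟨r0, hr0, h0⟩ := regU k 1 hk2 (1 / 2) (by norm_num)
  refine ⟨r0, hr0, ?_⟩
  intro r hr ε hε
  obtain ⟨c, hc, h1⟩ := h0 r hr (ε / 2 ^ a) (by positivity)
  refine ⟨c, hc, ?_⟩
  intro δ hδ
  obtain ⟨M, h2⟩ := h1 δ hδ
  refine ⟨M, ?_⟩
  have h3 := (tendsto_pow_nat a (by omega)).eventually h2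
  filter_upwards [h3, eventually_ge_atTop (2 ^ a)] with n h4 hn
  intro H hk hHX hadm S hS
  have h2a : 1 ≤ 2 ^ a := Nat.one_le_two_pow
  have hn1 : 1 ≤ n := h2a.trans hn
  obtain ⟨b1, b2, b3⟩ := between a n ha hn1
  obtain ⟨Y, hY⟩ : ∃ Y, Y = (n + 1) ^ a - 1 - n ^ a := ⟨_, rfl⟩
  rw [← hY] at b1 b2 b3 ⊢
  have hYn : Y ≤ n ^ a := by
    refine b3.trans ?_
    calc 2 ^ a * n ^ (a - 1) ≤ n * n ^ (a - 1) := Nat.mul_le_mul_right _ hn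
      _ = n ^ a := by rw [← pow_succ']; congr 1; omega
  have hθ : ((n ^ a : ℕ) : ℝ) ^ (1 / 2 : ℝ) ≤ (Y : ℝ) := by
    have e1 : (n : ℝ) ^ (a - 1) ≤ Y := by exact_mod_cast b2
    refine le_trans ?_ e1
    have hn0 : (1 : ℝ) ≤ n := by exact_mod_cast hn1
    push_cast
    rw [← Real.rpow_natCast, ← Real.rpow_mul (by linarith), ← Real.rpow_natCast]
    apply Real.rpow_le_rpow_of_exponent_le hn0
    have e2 : ((a - 1 : ℕ) : ℝ) = (a : ℝ) - 1 := by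
      rw [Nat.cast_sub (by omega)]
      simp
    rw [e2]
    have e3 : (2 : ℝ) ≤ a := by exact_mod_cast ha
    linarith
  have h5 := h4 H hk (by simpa using hHX) hadm _ rfl (n ^ a) Y hθ hYn hYn S hS
  unfold cnt at h5
  have e6 : Ioo (n ^ a) ((n + 1) ^ a) = Ioc (n ^ a) (n ^ a + Y) := by
    ext m
    rw [mem_Ioo, mem_Ioc, b1]
    have : 1 ≤ (n + 1) ^ a := Nat.one_le_pow _ _ (by omega)
    omega
  rw [e6]
  refine h5.trans ?_
  have hV : 0 ≤ De H ⌊((n ^ a : ℕ) : ℝ) ^ (1 / (r : ℝ))⌋₊ := by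
    unfold De
    apply Finset.prod_nonneg
    intro p hp
    rw [mem_filter] at hp
    have hp0 : (0 : ℝ) < p := by exact_mod_cast hp.2.pos
    rw [sub_nonneg, div_le_one hp0]
    have : ((Finset.range p).filter (fun m : ℕ => ∃ h ∈ H, p ∣ m + h)).card ≤ p :=
      (Finset.card_filter_le _ _).trans (by rw [card_range])
    exact_mod_cast this
  have e7 : (Y : ℝ) ≤ 2 ^ a * (n : ℝ) ^ (a - 1) := by exact_mod_cast b3
  calc ε / 2 ^ a * (Y * De H ⌊((n ^ a : ℕ) : ℝ) ^ (1 / (r : ℝ))⌋₊)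
      ≤ ε / 2 ^ a * ((2 ^ a * (n : ℝ) ^ (a - 1)) * De H ⌊((n ^ a : ℕ) : ℝ) ^ (1 / (r : ℝ))⌋₊) := by
        gcongr
    _ = ε * (n ^ (a - 1) * De H ⌊((n ^ a : ℕ) : ℝ) ^ (1 / (r : ℝ))⌋₊) := by
        field_simp

/-! ## Narrow progressions -/

lemma fo_sys (H : Finset ℕ) (hadm : ∀ p : ℕ, p.Prime → ∃ m : ℕ, ∀ h ∈ H, ¬ p ∣ m + h) :
    Poly.Sys (Li.sys (fo H) H.card (fo_card H)) := by
  have hG := fo_good H hadm (H.sup id + 1) (fun h hh => (Finset.le_sup (f := id) hh).trans (Nat.le_succ _))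
    (by omega)
  have hus := hG.us0 (fo_card H)
  refine ⟨hus.irr, fun i => Nat.pos_of_ne_zero (hus.deg i), ?_, ?_, hus.adm⟩
  · intro i
    unfold Li.sys
    rw [Polynomial.leadingCoeff, lf_deg _ _ (by
      have := hG.one _ (((fo H).equivFinOfCardEq (fo_card H)).symm i).2
      exact_mod_cast (by omega : ((((fo H).equivFinOfCardEq (fo_card H)).symm i : ℕ × ℕ).1) ≠ 0)), lf_coeff]
    simp only [one_ne_zero, if_false, if_true]
    exact_mod_cast hG.one _ (((fo H).equivFinOfCardEq (fo_card H)).symm i).2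
  · intro i j hij
    unfold Li.sys at hij
    obtain ⟨h1, h2⟩ := lf_inj _ _ _ _ hij
    have h3 : (((fo H).equivFinOfCardEq (fo_card H)).symm i : ℕ × ℕ) =
        (((fo H).equivFinOfCardEq (fo_card H)).symm j : ℕ × ℕ) :=
      Prod.ext (by exact_mod_cast h1) (by exact_mod_cast h2)
    exact ((fo H).equivFinOfCardEq (fo_card H)).symm.injective (Subtype.ext h3)

/-- all prime factors of the `m + h` exceed `m ^ (1 / r)` -/
def Rg (H : Finset ℕ) (r m : ℕ) : Prop :=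
  ∀ h ∈ H, ∀ p : ℕ, p.Prime → p ∣ m + h → (m : ℝ) ^ (1 / (r : ℝ)) < (p : ℝ)

/-- `m` is a term of an `l`-term arithmetic progression with difference at most `D` contained in the
part of `A` strictly between `a` and `b` -/
def InP (A : Set ℕ) (l : ℕ) (D : ℝ) (a b m : ℕ) : Prop :=
  ∃ u d : ℕ, 1 ≤ d ∧ (d : ℝ) ≤ D ∧ (∀ i < l, u + i * d ∈ A ∧ a < u + i * d ∧ u + i * d < b) ∧
    ∃ i < l, m = u + i * d

open Classical in
/-- **Narrow progressions for tuples.** -/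
theorem narH (H : Finset ℕ) (hH : H.Nonempty) (hadm : ∀ p : ℕ, p.Prime → ∃ m : ℕ, ∀ h ∈ H, ¬ p ∣ m + h)
    (θ : ℝ) (hθ : 0 < θ) (r : ℕ) (hr : 2 ≤ r) (l : ℕ) (hl : 2 ≤ l) (ε : ℝ) (hε : 0 < ε) :
    ∃ B : ℕ, ∀ᶠ X : ℕ in atTop, ∀ Y : ℕ, (X : ℝ) ^ θ ≤ Y → Y ≤ X →
      ∀ A : Set ℕ, (∀ m ∈ A, Rg H r m) →
        (((Ioc X (X + Y)).filter (fun m : ℕ =>
          m ∈ A ∧ ¬ InP A l (Real.log X ^ B) X (X + Y + 1) m)).card : ℝ) ≤
        ε * (Y / Real.log X ^ H.card) := by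
  have : Nonempty (Fin H.card) := ⟨⟨0, Finset.card_pos.2 hH⟩⟩
  obtain ⟨B, hB⟩ := Pool.Agent.Y677.RSZ.narrow (Li.sys (fo H) H.card (fo_card H)) (fo_sys H hadm) θ hθ r hr l
    hl ε hε
  refine ⟨B, ?_⟩
  filter_upwards [hB] with X hX Y hXY hYX A hA
  have h := hX Y hXY hYX A (fun m hm => by
    intro i p hp hd
    obtain ⟨l', hl', hd2⟩ := (Li.sys_Q (fo_card H) p m).1 ⟨i, hd⟩
    obtain ⟨h', hh', hd3⟩ := (fo_Q H p m).1 ⟨l', hl', hd2⟩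
    exact hA m hm h' hh' p hp hd3)
  rw [Fintype.card_fin, mul_div_assoc] at h
  refine le_trans (le_of_eq ?_) h
  unfold Pool.Agent.TH977.PW.N
  congr 2
  apply filter_congr
  intro m _
  unfold Pool.Agent.Y677.RSZ.Outside Pool.Agent.Y677.RSZ.InProg InP
  simp only [Set.mem_setOf_eq, Nat.lt_succ_iff, Order.lt_add_one_iff]

open Classical in
/-- **Narrow progressions between consecutive powers.** -/
theorem narPow (H : Finset ℕ) (hH : H.Nonempty) (hadm : ∀ p : ℕ, p.Prime → ∃ m : ℕ, ∀ h ∈ H, ¬ p ∣ m + h)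
    (a : ℕ) (ha : 2 ≤ a) (r : ℕ) (hr : 2 ≤ r) (l : ℕ) (hl : 2 ≤ l) (ε : ℝ) (hε : 0 < ε) :
    ∃ B : ℕ, ∀ᶠ n : ℕ in atTop, ∀ A : Set ℕ, (∀ m ∈ A, Rg H r m) →
        (((Ioo (n ^ a) ((n + 1) ^ a)).filter (fun m : ℕ =>
          m ∈ A ∧ ¬ InP A l (Real.log n ^ B) (n ^ a) ((n + 1) ^ a) m)).card : ℝ) ≤
        ε * (n ^ (a - 1) / Real.log n ^ H.card) := by
  obtain ⟨B, hB⟩ := narH H hH hadm (1 / 2) (by norm_num) r hr l hl (ε / 2 ^ a) (by positivity)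
  refine ⟨2 * B, ?_⟩
  have h3 := (tendsto_pow_nat a (by omega)).eventually hB
  have hlog : Tendsto (fun n : ℕ => Real.log (n : ℝ)) atTop atTop :=
    Real.tendsto_log_atTop.comp tendsto_natCast_atTop_atTop
  filter_upwards [h3, eventually_ge_atTop (2 ^ a), hlog.eventually_ge_atTop (a : ℝ)] with n h4 hn hna
  intro A hA
  have h2a : 1 ≤ 2 ^ a := Nat.one_le_two_pow
  have hn1 : 1 ≤ n := h2a.trans hn
  obtain ⟨b1, b2, b3⟩ := between a n ha hn1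
  obtain ⟨Y, hY⟩ : ∃ Y, Y = (n + 1) ^ a - 1 - n ^ a := ⟨_, rfl⟩
  rw [← hY] at b1 b2 b3
  have hYn : Y ≤ n ^ a := by
    refine b3.trans ?_
    calc 2 ^ a * n ^ (a - 1) ≤ n * n ^ (a - 1) := Nat.mul_le_mul_right _ hn
      _ = n ^ a := by rw [← pow_succ']; congr 1; omega
  have hθ : ((n ^ a : ℕ) : ℝ) ^ (1 / 2 : ℝ) ≤ (Y : ℝ) := by
    have e1 : (n : ℝ) ^ (a - 1) ≤ Y := by exact_mod_cast b2
    refine le_trans ?_ e1
    have hn0 : (1 : ℝ) ≤ n := by exact_mod_cast hn1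
    push_cast
    rw [← Real.rpow_natCast, ← Real.rpow_mul (by linarith), ← Real.rpow_natCast]
    apply Real.rpow_le_rpow_of_exponent_le hn0
    have e2 : ((a - 1 : ℕ) : ℝ) = (a : ℝ) - 1 := by
      rw [Nat.cast_sub (by omega)]
      simp
    rw [e2]
    have e3 : (2 : ℝ) ≤ a := by exact_mod_cast ha
    linarith
  have h5 := h4 Y hθ hYn A hA
  have e6 : Ioo (n ^ a) ((n + 1) ^ a) = Ioc (n ^ a) (n ^ a + Y) := by
    ext m
    rw [mem_Ioo, mem_Ioc, b1]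
    have : 1 ≤ (n + 1) ^ a := Nat.one_le_pow _ _ (by omega)
    omega
  have e7 : n ^ a + Y + 1 = (n + 1) ^ a := by
    rw [b1]
    have : 1 ≤ (n + 1) ^ a := Nat.one_le_pow _ _ (by omega)
    omega
  rw [e7] at h5
  rw [e6]
  have hn0 : (1 : ℝ) ≤ n := by exact_mod_cast hn1
  have hlogn : (2 : ℝ) ≤ Real.log n := le_trans (by exact_mod_cast ha) hna
  have elog : Real.log ((n ^ a : ℕ) : ℝ) = a * Real.log n := by
    push_cast
    rw [Real.log_pow]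
  have hle : Real.log ((n ^ a : ℕ) : ℝ) ^ B ≤ Real.log n ^ (2 * B) := by
    rw [elog, pow_mul]
    apply pow_le_pow_left₀ (by positivity)
    rw [pow_two]
    exact mul_le_mul_of_nonneg_right hna (by linarith)
  have hge : Real.log n ^ H.card ≤ Real.log ((n ^ a : ℕ) : ℝ) ^ H.card := by
    rw [elog]
    apply pow_le_pow_left₀ (by linarith)
    have : (1 : ℝ) ≤ a := by exact_mod_cast (by omega : 1 ≤ a)
    nlinarith
  have hmono : (((Ioc (n ^ a) (n ^ a + Y)).filter (fun m : ℕ =>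
      m ∈ A ∧ ¬ InP A l (Real.log n ^ (2 * B)) (n ^ a) ((n + 1) ^ a) m)).card : ℝ) ≤
      (((Ioc (n ^ a) (n ^ a + Y)).filter (fun m : ℕ =>
      m ∈ A ∧ ¬ InP A l (Real.log ((n ^ a : ℕ) : ℝ) ^ B) (n ^ a) ((n + 1) ^ a) m)).card : ℝ) := by
    have : ((Ioc (n ^ a) (n ^ a + Y)).filter (fun m : ℕ =>
      m ∈ A ∧ ¬ InP A l (Real.log n ^ (2 * B)) (n ^ a) ((n + 1) ^ a) m)) ⊆
      ((Ioc (n ^ a) (n ^ a + Y)).filter (fun m : ℕ =>
      m ∈ A ∧ ¬ InP A l (Real.log ((n ^ a : ℕ) : ℝ) ^ B) (n ^ a) ((n + 1) ^ a) m)) := by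
      intro m hm
      rw [mem_filter] at hm ⊢
      refine ⟨hm.1, hm.2.1, fun h6 => hm.2.2 ?_⟩
      obtain ⟨u, d, hd1, hd2, h7, h8⟩ := h6
      exact ⟨u, d, hd1, hd2.trans hle, h7, h8⟩
    exact_mod_cast Finset.card_le_card this
  refine hmono.trans (h5.trans ?_)
  have e8 : (Y : ℝ) ≤ 2 ^ a * (n : ℝ) ^ (a - 1) := by exact_mod_cast b3
  have hpos : (0 : ℝ) < Real.log n ^ H.card := by positivity
  calc ε / 2 ^ a * (Y / Real.log ((n ^ a : ℕ) : ℝ) ^ H.card)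
      ≤ ε / 2 ^ a * ((2 ^ a * (n : ℝ) ^ (a - 1)) / Real.log n ^ H.card) := by
        gcongr
    _ = ε * (n ^ (a - 1) / Real.log n ^ H.card) := by
        field_simp

end Pool.Agent.R490.Tu
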