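import Pool.Agent.R490.PtGap

set_option autoImplicit false

/-!
# The pattern of twin primes modulo 6
-/

namespace Pool.Agent.R490.Tw

open Pool.Agent.Y879.PR

/-- the shifts of twin primes -/
def tw : Fin 2 → ℕ := ![0, 2]

lemma sq6 : Squarefree 6 := by
  rw [Nat.squarefree_iff_minSqFac]
  decide +kernel

lemma pr6' (p : ℕ) (hp : p.Prime) (h : p ≤ 2) : p ∣ 6 := by
  have := hp.two_le
  have h3 : p = 2 := by omega
  rw [h3]
  norm_num

lemma red6 (m h p : ℕ) (hp : p ∣ 6) (H : ¬ p ∣ m + h) : ¬ p ∣ m % 6 + h := by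
  intro h1
  apply H
  have h2 : m = 6 * (m / 6) + m % 6 := (Nat.div_add_mod m 6).symm
  rw [h2, add_assoc]
  exact dvd_add (Dvd.dvd.mul_right hp _) h1

lemma dif6 (p : ℕ) (hp : p.Prime) (h : ¬ p ∣ 6) (d : ℤ) (hd : d ∣ 216) : ¬ (p : ℤ) ∣ d := by
  intro h1
  have h2 : (p : ℤ) ∣ ((6 ^ 3 : ℕ) : ℤ) := by
    norm_num
    exact h1.trans hd
  have h3 : p ∣ 6 ^ 3 := by exact_mod_cast h2
  exact h (hp.dvd_of_dvd_pow h3)

lemma pat_tw : Pat2 6 tw {5} where
  tup := by
    intro c hc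
    rw [Finset.mem_singleton] at hc
    subst hc
    exact ⟨sq6, by decide, fun p hp h => pr6' p hp h, by decide, by decide, by norm_num⟩
  one := by decide
  lt := by decide
  cls := by
    intro m hm
    have a1 := red6 m 0 2 (by norm_num) (hm 2 Nat.prime_two (by norm_num) 0)
    have a2 := red6 m 0 3 (by norm_num) (hm 3 Nat.prime_three (by norm_num) 0)
    have a3 := red6 m 2 3 (by norm_num) (hm 3 Nat.prime_three (by norm_num) 1)
    have key : ∀ s ∈ Finset.range 6, (¬ 2 ∣ s + 0 ∧ ¬ 3 ∣ s + 0 ∧ ¬ 3 ∣ s + 2) → s ∈ ({5} : Finset ℕ) := by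
      decide
    exact key _ (Finset.mem_range.2 (Nat.mod_lt _ (by norm_num))) ⟨a1, a2, a3⟩
  dif := by
    intro p hp hM i j hij
    apply dif6 p hp hM
    revert i j
    decide
  zero := ⟨0, rfl⟩
  pos := by norm_num

lemma pr6 (p : ℕ) (hp : p.Prime) : p ∣ 6 ↔ p ≤ 3 := by
  constructor
  · intro h
    have h1 : p ∣ 2 * 3 := h
    rcases (Nat.Prime.dvd_mul hp).1 h1 with h2 | h2
    · exact (Nat.le_of_dvd (by norm_num) h2).trans (by norm_num)
    · exact Nat.le_of_dvd (by norm_num) h2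
  · intro h
    have := hp.two_le
    interval_cases p
    · norm_num
    · norm_num

lemma mem_tw (m : ℕ) : m ∈ ({0, 2} : Finset ℕ) ↔ ∃ i, tw i = m := by
  simp only [Finset.mem_insert, Finset.mem_singleton, Fin.exists_fin_succ, Fin.exists_fin_zero, tw]
  simp [eq_comm]

end Pool.Agent.R490.Tw
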