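import Pool.Agent.R490.Prog

set_option autoImplicit false

/-!
# Admissible sets of forms `a x + b`, `1 ≤ b < a`
-/

namespace Pool.Agent.R490.Uk

open Finset Filter
open Pool.Agent.R490.Sg (D1 cnt RightOrder ConstantDensity badScales Irregular)

/-- admissible sets -/
def Adm (H : Finset (ℕ × ℕ)) : Prop :=
  (∀ f ∈ H, 1 ≤ f.2 ∧ f.2 < f.1) ∧ ∀ p : ℕ, p.Prime → ∃ n : ℤ, ∀ f ∈ H, ¬ (p : ℤ) ∣ (f.1 : ℤ) * n + f.2

lemma adm_nat (H : Finset (ℕ × ℕ)) (hA : Adm H) (p : ℕ) (hp : p.Prime) :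
    ∃ m : ℕ, ∀ l ∈ H, ¬ p ∣ l.1 * m + l.2 := by
  obtain ⟨n, hn⟩ := hA.2 p hp
  have hp0 : (p : ℤ) ≠ 0 := by exact_mod_cast hp.ne_zero
  have h1 : ((n % p).toNat : ℤ) = n % p := Int.toNat_of_nonneg (Int.emod_nonneg _ hp0)
  refine ⟨(n % p).toNat, fun l hl hd => hn l hl ?_⟩
  have h2 : (p : ℤ) ∣ (l.1 : ℤ) * (n % p) + l.2 := by
    rw [← h1]
    exact_mod_cast hd
  have h3 : (l.1 : ℤ) * n + l.2 = (l.1 : ℤ) * (n % p) + l.2 + p * (l.1 * (n / p)) := by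
    have := Int.emod_add_mul_ediv n p
    calc (l.1 : ℤ) * n + l.2 = (l.1 : ℤ) * (n % p + p * (n / p)) + l.2 := by rw [this]
      _ = _ := by ring
  rw [h3]
  exact dvd_add h2 (dvd_mul_right _ _)

lemma good (N : ℕ) (H : Finset (ℕ × ℕ)) (hA : Adm H) (hN : ∀ f ∈ H, f.1 ≤ N) : Li.Good N H where
  one := fun l hl => by have := hA.1 l hl; omega
  cop := fun l hl => by
    rw [Nat.coprime_iff_gcd_eq_one]
    by_contra hcon
    obtain ⟨p, hp, hd⟩ := Nat.exists_prime_and_dvd hcon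
    obtain ⟨m, hm⟩ := adm_nat H hA p hp
    exact hm l hl (dvd_add (Dvd.dvd.mul_right (hd.trans (Nat.gcd_dvd_left _ _)) _) (hd.trans (Nat.gcd_dvd_right _ _)))
  bda := hN
  bdb := fun l hl => by have := hA.1 l hl; have := hN l hl; omega
  adm := adm_nat H hA

lemma noT (H : Finset (ℕ × ℕ)) (hA : Adm H) : Li.NoT H := by
  intro l hl l' hl' t ht h1 h2
  have h3 := (hA.1 l hl).2
  have h4 : l'.1 * 1 ≤ l'.1 * t := Nat.mul_le_mul_left _ ht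
  omega

end Pool.Agent.R490.Uk
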