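import Pool.Agent.TH464.PO.Law
import Pool.Agent.TH464.PO.Poly

set_option autoImplicit false

/-!
# The Poisson law for the rough values of `x ^ 2 + x + A`, uniformly in `A` and in the position
-/

namespace Pool.Agent.R490.UA

open Finset Filter
open Pool.Agent.W123.RP Pool.Agent.H373R2.T7 Pool.Agent.W123.RU
open Pool.Agent.TH464.PO Pool.Agent.TH464.PW

/-- the conditions, shifted by `s` -/
def QA (A s p m : ℕ) : Prop := p ∣ (m + s) ^ 2 + (m + s) + A

lemma QA_zmod (A s p m : ℕ) : QA A s p m ↔ (((m : ZMod p) + s) ^ 2 + ((m : ZMod p) + s) + A : ZMod p) = 0 := by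
  unfold QA
  rw [← ZMod.natCast_eq_zero_iff]
  push_cast
  rfl

lemma QA_per (A s p m : ℕ) : QA A s p m ↔ QA A s p (m % p) := by
  rw [QA_zmod, QA_zmod, ZMod.natCast_mod]

open Classical in
lemma QA_few (A s p : ℕ) (hp : p.Prime) : nuB (QA A s) p ≤ 2 := by
  haveI := Fact.mk hp
  unfold nuB
  obtain ⟨P, hP⟩ : ∃ P : Polynomial (ZMod p), P = Polynomial.C 1 * Polynomial.X ^ 2 +
    Polynomial.C 1 * Polynomial.X + Polynomial.C (A : ZMod p) := ⟨_, rfl⟩
  have hdeg : P.natDegree = 2 := by rw [hP]; exact Polynomial.natDegree_quadratic one_ne_zero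
  have hP0 : P ≠ 0 := by
    intro h
    rw [h] at hdeg
    simp at hdeg
  have h1 : ((range p).filter (fun r => QA A s p r)).card ≤ P.roots.toFinset.card := by
    apply Finset.card_le_card_of_injOn (fun r : ℕ => ((r : ZMod p) + s))
    · intro r hr
      rw [mem_coe, mem_filter, QA_zmod] at hr
      rw [mem_coe, Multiset.mem_toFinset, Polynomial.mem_roots hP0, Polynomial.IsRoot, hP]
      simpa using hr.2
    · intro r hr r' hr' h
      rw [mem_coe, mem_filter, mem_range] at hr hr'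
      have h2 : (r : ZMod p) = r' := add_right_cancel h
      rw [ZMod.natCast_eq_natCast_iff'] at h2
      rwa [Nat.mod_eq_of_lt hr.1, Nat.mod_eq_of_lt hr'.1] at h2
  refine h1.trans ((Multiset.toFinset_card_le _).trans ((Polynomial.card_roots' P).trans hdeg.le))

lemma QA_perB (A s : ℕ) : PerB (QA A s) 2 where
  per := fun p n => QA_per A s p n
  few := fun p hp => QA_few A s p hp

lemma QA_adm (A s : ℕ) (hA : Odd A) (p : ℕ) (hp : p.Prime) : nuB (QA A s) p < p := by
  classical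
  rcases hp.two_le.lt_or_eq with h | h
  · exact lt_of_le_of_lt (QA_few A s p hp) h
  · subst h
    have : nuB (QA A s) 2 = 0 := by
      unfold nuB
      rw [card_eq_zero, filter_eq_empty_iff]
      intro m _ hm
      unfold QA at hm
      have h1 : Even ((m + s) ^ 2 + (m + s)) := by
        have := Nat.even_mul_succ_self (m + s)
        have e : (m + s) ^ 2 + (m + s) = (m + s) * (m + s + 1) := by ring
        rw [e]
        exact this
      have h2 : Odd ((m + s) ^ 2 + (m + s) + A) := h1.add_odd hA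
      rw [← even_iff_two_dvd] at hm
      exact (Nat.not_even_iff_odd.2 h2) hm
    omega

lemma QA_coll (A s p t : ℕ) (hp : p.Prime) (ht1 : 1 ≤ t) (htp : t < p) (h : CoG (QA A s) p t) :
    (p : ℤ) ∣ (t : ℤ) ^ 2 + 4 * A - 1 := by
  obtain ⟨m, h1, h2⟩ := h
  unfold QA at h1 h2
  have h1' : (p : ℤ) ∣ ((m : ℤ) + s) ^ 2 + (m + s) + A := by exact_mod_cast h1
  have h2' : (p : ℤ) ∣ ((m : ℤ) + t + s) ^ 2 + (m + t + s) + A := by exact_mod_cast h2
  have h3 : (p : ℤ) ∣ (t : ℤ) * (2 * (m + s) + 1 + t) := by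
    have := dvd_sub h2' h1'
    have e : ((m : ℤ) + t + s) ^ 2 + (m + t + s) + A - (((m : ℤ) + s) ^ 2 + (m + s) + A) =
      (t : ℤ) * (2 * (m + s) + 1 + t) := by ring
    rwa [e] at this
  have hpp : Prime (p : ℤ) := Nat.prime_iff_prime_int.1 hp
  rcases hpp.dvd_or_dvd h3 with h4 | h4
  · exfalso
    have h5 : p ∣ t := by exact_mod_cast h4
    exact absurd (Nat.le_of_dvd ht1 h5) (by omega)
  · have e : (t : ℤ) ^ 2 + 4 * A - 1 = 4 * (((m : ℤ) + s) ^ 2 + (m + s) + A) -
      (2 * (m + s) + 1 + t) * (2 * (m + s) + 1 - t) := by ring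
    rw [e]
    exact dvd_sub (dvd_mul_of_dvd_right h1' 4) (dvd_mul_of_dvd_left h4 _)

open Classical in
lemma QA_large (A s y T : ℕ) (hA : 1 ≤ A) (hT : 2 ≤ T) (η : ℝ)
    (h : Real.log ((T : ℝ) ^ 2 + 4 * A) ≤ η * T * Real.log T) (t : ℕ) (ht : t ∈ Icc 1 T) :
    ((((pz y).filter (fun p : ℕ => T < p ∧ CoG (QA A s) p t)).card : ℕ) : ℝ) ≤ η * T := by
  rw [mem_Icc] at ht
  obtain ⟨F, hF⟩ : ∃ F, F = (pz y).filter (fun p : ℕ => T < p ∧ CoG (QA A s) p t) := ⟨_, rfl⟩
  rw [← hF]
  obtain ⟨z, hz⟩ : ∃ z : ℕ, z = t ^ 2 + 4 * A - 1 := ⟨_, rfl⟩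
  have hzpos : z ≠ 0 := by
    have : 0 ≤ t ^ 2 := Nat.zero_le _
    omega
  have hzz : ((z : ℕ) : ℤ) = (t : ℤ) ^ 2 + 4 * A - 1 := by
    rw [hz, Nat.cast_sub (by nlinarith [Nat.zero_le (t ^ 2)])]
    push_cast
    ring
  have hpow := pow_card_le F z hzpos (fun p hp => by
    rw [hF, mem_filter] at hp
    obtain ⟨hp1, hp2, hp3⟩ := hp
    have hpp := (mem_pz.1 hp1).2
    refine ⟨hpp, ?_⟩
    have := QA_coll A s p t hpp ht.1 (by omega) hp3
    rw [← hzz] at this
    exact_mod_cast this) (T : ℝ) (Nat.cast_nonneg _) (fun p hp => by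
      rw [hF, mem_filter] at hp
      exact_mod_cast hp.2.1.le)
  have hTr : (2 : ℝ) ≤ T := by exact_mod_cast hT
  have hlT : 0 < Real.log T := Real.log_pos (by linarith)
  have h1 : (z : ℝ) ≤ (T : ℝ) ^ 2 + 4 * A := by
    have : z ≤ T ^ 2 + 4 * A := by
      have : t ^ 2 ≤ T ^ 2 := Nat.pow_le_pow_left ht.2 2
      omega
    exact_mod_cast this
  have hTF : (0 : ℝ) < (T : ℝ) ^ F.card := by positivity
  have h2 : (F.card : ℝ) * Real.log T ≤ η * T * Real.log T := by
    rw [← Real.log_pow]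
    exact (Real.log_le_log hTF (hpow.trans h1)).trans h
  exact le_of_mul_le_mul_right h2 hlT

open Classical in
/-- the number of the `m` in `(n, n + T]` for which `m ^ 2 + m + A` has no prime factor `≤ y` -/
noncomputable def W (A y T n : ℕ) : ℕ :=
  ((Ioc n (n + T)).filter (fun m => ∀ p : ℕ, p.Prime → p ≤ y → ¬ p ∣ m ^ 2 + m + A)).card

open Classical in
/-- the density -/
noncomputable def V (A y : ℕ) : ℝ := ∏ p ∈ (Finset.range (y + 1)).filter Nat.Prime,
    (1 - (((Finset.range p).filter (fun m : ℕ => p ∣ m ^ 2 + m + A)).card : ℝ) / p)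

open Classical in
lemma sf_iff (A s y m : ℕ) : Sf (QA A s) y m ↔
    ∀ p : ℕ, p.Prime → p ≤ y → ¬ p ∣ (m + s) ^ 2 + (m + s) + A := by
  unfold Sf QA
  constructor
  · intro h p hp hpy
    exact h p (mem_pz.2 ⟨hpy, hp⟩)
  · intro h p hp
    exact h p (mem_pz.1 hp).2 (mem_pz.1 hp).1

open Classical in
lemma Nw_W (A s y T n : ℕ) : Nw (QA A s) y T n = W A y T (n + s) := by
  unfold Nw W
  apply Finset.card_bij (fun h _ => n + s + h)
  · intro h hh
    rw [mem_filter, mem_Icc, sf_iff] at hh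
    rw [mem_filter, mem_Ioc]
    refine ⟨by omega, ?_⟩
    rw [show n + s + h = n + h + s by ring]
    exact hh.2
  · intro a _ b _ hab
    omega
  · intro m hm
    rw [mem_filter, mem_Ioc] at hm
    refine ⟨m - (n + s), ?_, by omega⟩
    rw [mem_filter, mem_Icc, sf_iff]
    refine ⟨by omega, ?_⟩
    rw [show n + (m - (n + s)) + s = m by omega]
    exact hm.2

open Classical in
lemma nuB_shift (A s p : ℕ) (hp : p.Prime) : nuB (QA A s) p = nuB (QA A 0) p := by
  have hp0 : 0 < p := hp.pos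
  unfold nuB
  apply Finset.card_bij (fun r _ => (r + s) % p)
  · intro r hr
    rw [mem_filter, mem_range] at hr
    rw [mem_filter, mem_range]
    refine ⟨Nat.mod_lt _ hp0, ?_⟩
    rw [← QA_per]
    unfold QA at hr ⊢
    rw [add_zero]
    exact hr.2
  · intro a ha b hb hab
    rw [mem_filter, mem_range] at ha hb
    have h1 : a + s ≡ b + s [MOD p] := hab
    have h2 := Nat.ModEq.add_right_cancel' s h1
    exact Nat.ModEq.eq_of_lt_of_lt h2 ha.1 hb.1
  · intro r hr
    rw [mem_filter, mem_range] at hr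
    have hper : (((r + (p - s % p)) % p) + s) % p = r := by
      rw [Nat.mod_add_mod]
      have h1 : s = p * (s / p) + s % p := (Nat.div_add_mod s p).symm
      have h2 : s % p < p := Nat.mod_lt _ hp0
      have h3 : r + (p - s % p) + s = r + p * (s / p + 1) := by
        rw [mul_add, mul_one]
        omega
      rw [h3, Nat.add_mul_mod_self_left, Nat.mod_eq_of_lt hr.1]
    refine ⟨(r + (p - s % p)) % p, ?_, hper⟩
    rw [mem_filter, mem_range]
    refine ⟨Nat.mod_lt _ hp0, ?_⟩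
    have h4 : QA A 0 p ((((r + (p - s % p)) % p) + s) % p) := by rw [hper]; exact hr.2
    rw [← QA_per] at h4
    unfold QA at h4 ⊢
    rwa [add_zero] at h4

open Classical in
lemma Vq_V (A s y : ℕ) : Vq (QA A s) y = V A y := by
  unfold Vq V
  apply Finset.prod_congr
  · unfold pz
    ext p
    simp only [mem_filter, mem_Icc, mem_range]
    constructor
    · rintro ⟨h1, h2⟩
      exact ⟨by omega, h2⟩
    · rintro ⟨h1, h2⟩
      exact ⟨⟨h2.one_lt.le, by omega⟩, h2⟩
  · intro p hp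
    rw [mem_filter] at hp
    rw [nuB_shift A s p hp.2]
    unfold nuB QA
    simp only [add_zero]

open Classical in
/-- **Uniform Poisson law.** -/
theorem uniform (x0 ε : ℝ) (hx0 : 0 ≤ x0) (hε : 0 < ε) :
    ∃ (K y0 T0 R : ℕ) (η : ℝ), 0 < η ∧ ∀ Y y T : ℕ, y0 ≤ y → y ^ K ≤ Y → T0 ≤ T → T ^ R ≤ Y →
      ∀ A s : ℕ, Odd A → Real.log ((T : ℝ) ^ 2 + 4 * A) ≤ η * T * Real.log T → T * V A y ≤ x0 →
      ∀ J : Finset ℕ, |(((Ioc s (s + Y)).filter (fun n => W A y T n ∈ J)).card : ℝ) -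
        Y * ∑ j ∈ J, Real.exp (-(T * V A y)) * (T * V A y) ^ j / j.factorial| ≤ ε * Y := by
  obtain ⟨K, y0, T0, R, η, hη, h⟩ := law 2 (by norm_num) x0 ε hx0 hε
  refine ⟨K, y0, max T0 2, R, η, hη, ?_⟩
  intro Y y T hy hyY hT hTY A s hA hlog hTV J
  have hT0 : T0 ≤ T := (le_max_left _ _).trans hT
  have hT2 : 2 ≤ T := (le_max_right _ _).trans hT
  have hA1 : 1 ≤ A := hA.pos
  have h1 := h Y y T hy hyY hT0 hTY (QA A s) (QA_perB A s) (fun p hp => QA_adm A s hA p hp)
    (by rw [Vq_V]; exact hTV) (fun t ht => QA_large A s y T hA1 hT2 η hlog t ht) J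
  rw [Vq_V] at h1
  have h2 : ((Icc 1 Y).filter (fun n => Nw (QA A s) y T n ∈ J)).card =
      ((Ioc s (s + Y)).filter (fun n => W A y T n ∈ J)).card := by
    apply Finset.card_bij (fun n _ => n + s)
    · intro n hn
      rw [mem_filter, mem_Icc, Nw_W] at hn
      rw [mem_filter, mem_Ioc]
      exact ⟨by omega, hn.2⟩
    · intro a _ b _ hab
      omega
    · intro m hm
      rw [mem_filter, mem_Ioc] at hm
      refine ⟨m - s, ?_, by omega⟩
      rw [mem_filter, mem_Icc, Nw_W, show m - s + s = m by omega]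
      exact ⟨by omega, hm.2⟩
  rw [h2] at h1
  exact h1

end Pool.Agent.R490.UA
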