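import Pool.Agent.TH464.PO.Law
import Pool.Agent.TH464.PO.Gen
import Pool.Agent.TH464.PO.Poly

set_option autoImplicit false

/-!
# The Poisson law for the rough values of `(q m + a) ^ 2 + 1`, uniformly in `q` and in the position
-/

namespace Pool.Agent.R490.UP

open Finset Filter
open Pool.Agent.W123.RP Pool.Agent.H373R2.T7 Pool.Agent.W123.RU
open Pool.Agent.TH464.PO Pool.Agent.TH464.PW

/-- the conditions -/
def QP (q a p m : ℕ) : Prop := p ∣ (q * m + a) ^ 2 + 1

lemma QP_zmod (q a p m : ℕ) : QP q a p m ↔ (((q : ZMod p) * m + a) ^ 2 + 1 : ZMod p) = 0 := by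
  unfold QP
  rw [← ZMod.natCast_eq_zero_iff]
  push_cast
  rfl

lemma QP_per (q a p m : ℕ) : QP q a p m ↔ QP q a p (m % p) := by
  rw [QP_zmod, QP_zmod, ZMod.natCast_mod]

lemma not_dvd_q (q a p m : ℕ) (hp : p.Prime) (hco : Nat.Coprime q (a ^ 2 + 1)) (h : QP q a p m) : ¬ p ∣ q := by
  intro hq
  unfold QP at h
  have h1 : p ∣ a ^ 2 + 1 := by
    have h2 : (q * m + a) ^ 2 + 1 = q * (m * (q * m + 2 * a)) + (a ^ 2 + 1) := by ring
    rw [h2] at h
    exact (Nat.dvd_add_right (dvd_mul_of_dvd_left hq _)).1 h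
  have h3 := Nat.dvd_gcd hq h1
  rw [hco] at h3
  exact hp.one_lt.ne' (Nat.dvd_one.1 h3)

open Classical in
lemma QP_few (q a p : ℕ) (hp : p.Prime) (hco : Nat.Coprime q (a ^ 2 + 1)) : nuB (QP q a) p ≤ 2 := by
  haveI := Fact.mk hp
  unfold nuB
  by_cases hq : p ∣ q
  · rw [card_eq_zero.2]
    · norm_num
    · rw [filter_eq_empty_iff]
      intro m _ hm
      exact not_dvd_q q a p m hp hco hm hq
  obtain ⟨P, hP⟩ : ∃ P : Polynomial (ZMod p), P = Polynomial.C 1 * Polynomial.X ^ 2 +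
    Polynomial.C 0 * Polynomial.X + Polynomial.C 1 := ⟨_, rfl⟩
  have hdeg : P.natDegree = 2 := by rw [hP]; exact Polynomial.natDegree_quadratic one_ne_zero
  have hP0 : P ≠ 0 := by
    intro h
    rw [h] at hdeg
    simp at hdeg
  have hq0 : (q : ZMod p) ≠ 0 := by
    intro h
    exact hq ((ZMod.natCast_eq_zero_iff q p).1 h)
  have h1 : ((range p).filter (fun r => QP q a p r)).card ≤ P.roots.toFinset.card := by
    apply Finset.card_le_card_of_injOn (fun r : ℕ => ((q : ZMod p) * r + a))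
    · intro r hr
      rw [mem_coe, mem_filter, QP_zmod] at hr
      rw [mem_coe, Multiset.mem_toFinset, Polynomial.mem_roots hP0, Polynomial.IsRoot, hP]
      simpa using hr.2
    · intro r hr r' hr' h
      rw [mem_coe, mem_filter, mem_range] at hr hr'
      have h2 : (q : ZMod p) * r = (q : ZMod p) * r' := add_right_cancel h
      have h3 : (r : ZMod p) = r' := mul_left_cancel₀ hq0 h2
      rw [ZMod.natCast_eq_natCast_iff'] at h3
      rwa [Nat.mod_eq_of_lt hr.1, Nat.mod_eq_of_lt hr'.1] at h3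
  refine h1.trans ((Multiset.toFinset_card_le _).trans ((Polynomial.card_roots' P).trans hdeg.le))

lemma QP_perB (q a : ℕ) (hco : Nat.Coprime q (a ^ 2 + 1)) : PerB (QP q a) 2 where
  per := fun p n => QP_per q a p n
  few := fun p hp => QP_few q a p hp hco

lemma QP_adm (q a : ℕ) (hco : Nat.Coprime q (a ^ 2 + 1)) (p : ℕ) (hp : p.Prime) : nuB (QP q a) p < p := by
  classical
  rcases hp.two_le.lt_or_eq with h | h
  · exact lt_of_le_of_lt (QP_few q a p hp hco) h
  · subst h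
    unfold nuB
    have h1 : ((range 2).filter (fun r => QP q a 2 r)) ≠ range 2 := by
      intro h
      have h0 : (0 : ℕ) ∈ (range 2).filter (fun r => QP q a 2 r) := by rw [h]; simp
      have h1 : (1 : ℕ) ∈ (range 2).filter (fun r => QP q a 2 r) := by rw [h]; simp
      rw [mem_filter] at h0 h1
      have h3 := not_dvd_q q a 2 0 hp hco h0.2
      have h4 := h0.2
      have h5 := h1.2
      unfold QP at h4 h5
      rw [← even_iff_two_dvd] at h3 h4 h5
      rw [mul_zero, zero_add] at h4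
      rw [mul_one] at h5
      simp only [Nat.even_add_one, Nat.even_pow, ne_eq, OfNat.ofNat_ne_zero, not_false_eq_true, and_true,
        Nat.even_add] at h4 h5
      tauto
    have h2 := Finset.card_lt_card (Finset.ssubset_iff_subset_ne.2 ⟨filter_subset _ _, h1⟩)
    simpa using h2

lemma QP_coll (q a p t : ℕ) (hp : p.Prime) (hco : Nat.Coprime q (a ^ 2 + 1)) (ht1 : 1 ≤ t) (htp : t < p)
    (h : CoG (QP q a) p t) : p ∣ q ^ 2 * t ^ 2 + 4 := by
  obtain ⟨m, h1, h2⟩ := h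
  have hq := not_dvd_q q a p m hp hco h1
  unfold QP at h1 h2
  have h1' : (p : ℤ) ∣ ((q : ℤ) * m + a) ^ 2 + 1 := by exact_mod_cast h1
  have h2' : (p : ℤ) ∣ ((q : ℤ) * (m + t) + a) ^ 2 + 1 := by exact_mod_cast h2
  have h3 : (p : ℤ) ∣ (q : ℤ) * (t * (2 * (q * m + a) + q * t)) := by
    have := dvd_sub h2' h1'
    have e : ((q : ℤ) * (m + t) + a) ^ 2 + 1 - (((q : ℤ) * m + a) ^ 2 + 1) =
      (q : ℤ) * (t * (2 * (q * m + a) + q * t)) := by ring
    rwa [e] at this
  have hpp : Prime (p : ℤ) := Nat.prime_iff_prime_int.1 hp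
  rcases hpp.dvd_or_dvd h3 with h4 | h4
  · exact absurd (by exact_mod_cast h4 : p ∣ q) hq
  rcases hpp.dvd_or_dvd h4 with h4 | h4
  · exfalso
    have h5 : p ∣ t := by exact_mod_cast h4
    exact absurd (Nat.le_of_dvd ht1 h5) (by omega)
  · have e : ((q : ℤ) ^ 2 * t ^ 2 + 4) = 4 * (((q : ℤ) * m + a) ^ 2 + 1) -
      (2 * (q * m + a) + q * t) * (2 * (q * m + a) - q * t) := by ring
    have h5 : (p : ℤ) ∣ (q : ℤ) ^ 2 * t ^ 2 + 4 := by
      rw [e]
      exact dvd_sub (dvd_mul_of_dvd_right h1' 4) (dvd_mul_of_dvd_left h4 _)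
    exact_mod_cast h5

open Classical in
lemma QP_large (q a y T : ℕ) (hco : Nat.Coprime q (a ^ 2 + 1)) (hT : 2 ≤ T) (η : ℝ)
    (h : Real.log ((q : ℝ) ^ 2 * T ^ 2 + 4) ≤ η * T * Real.log T) (t : ℕ) (ht : t ∈ Icc 1 T) :
    ((((pz y).filter (fun p : ℕ => T < p ∧ CoG (QP q a) p t)).card : ℕ) : ℝ) ≤ η * T := by
  rw [mem_Icc] at ht
  obtain ⟨F, hF⟩ : ∃ F, F = (pz y).filter (fun p : ℕ => T < p ∧ CoG (QP q a) p t) := ⟨_, rfl⟩
  rw [← hF]
  have hpow := pow_card_le F (q ^ 2 * t ^ 2 + 4) (by omega) (fun p hp => by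
    rw [hF, mem_filter] at hp
    obtain ⟨hp1, hp2, hp3⟩ := hp
    have hpp := (mem_pz.1 hp1).2
    exact ⟨hpp, QP_coll q a p t hpp hco ht.1 (by omega) hp3⟩) (T : ℝ) (Nat.cast_nonneg _) (fun p hp => by
      rw [hF, mem_filter] at hp
      exact_mod_cast hp.2.1.le)
  have hTr : (2 : ℝ) ≤ T := by exact_mod_cast hT
  have hlT : 0 < Real.log T := Real.log_pos (by linarith)
  have h1 : (((q ^ 2 * t ^ 2 + 4 : ℕ)) : ℝ) ≤ (q : ℝ) ^ 2 * (T : ℝ) ^ 2 + 4 := by
    have : q ^ 2 * t ^ 2 + 4 ≤ q ^ 2 * T ^ 2 + 4 := by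
      have := Nat.mul_le_mul_left (q ^ 2) (Nat.pow_le_pow_left ht.2 2)
      omega
    exact_mod_cast this
  have hTF : (0 : ℝ) < (T : ℝ) ^ F.card := by positivity
  have h2 : (F.card : ℝ) * Real.log T ≤ η * T * Real.log T := by
    rw [← Real.log_pow]
    exact (Real.log_le_log hTF (hpow.trans h1)).trans h
  exact le_of_mul_le_mul_right h2 hlT

open Classical in
/-- the number of the `m` in `(n, n + T]` for which `(q m + a) ^ 2 + 1` has no prime factor `≤ y` -/
noncomputable def W (q a y T n : ℕ) : ℕ :=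
  ((Ioc n (n + T)).filter (fun m => ∀ p : ℕ, p.Prime → p ≤ y → ¬ p ∣ (q * m + a) ^ 2 + 1)).card

open Classical in
/-- the density -/
noncomputable def V (q a y : ℕ) : ℝ := ∏ p ∈ (Finset.range (y + 1)).filter Nat.Prime,
    (1 - (((Finset.range p).filter (fun m : ℕ => p ∣ (q * m + a) ^ 2 + 1)).card : ℝ) / p)

lemma sf_iff (q a y m : ℕ) : Sf (QP q a) y m ↔
    ∀ p : ℕ, p.Prime → p ≤ y → ¬ p ∣ (q * m + a) ^ 2 + 1 := by
  unfold Sf QP
  constructor
  · intro h p hp hpy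
    exact h p (mem_pz.2 ⟨hpy, hp⟩)
  · intro h p hp
    exact h p (mem_pz.1 hp).2 (mem_pz.1 hp).1

open Classical in
lemma Wc_W (q a y T n : ℕ) : Wc (Sf (QP q a) y) n T = W q a y T n := by
  unfold Wc W
  congr 1
  apply Finset.filter_congr
  intro m _
  exact sf_iff q a y m

open Classical in
lemma Vq_V (q a y : ℕ) : Vq (QP q a) y = V q a y := by
  unfold Vq V
  apply Finset.prod_congr
  · unfold pz
    ext p
    simp only [mem_filter, mem_Icc, mem_range]
    constructor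
    · rintro ⟨h1, h2⟩
      exact ⟨by omega, h2⟩
    · rintro ⟨h1, h2⟩
      exact ⟨⟨h2.one_lt.le, by omega⟩, h2⟩
  · intro p _
    have e : nuB (QP q a) p =
        ((Finset.range p).filter (fun m : ℕ => p ∣ (q * m + a) ^ 2 + 1)).card := by
      unfold nuB QP
      congr!
    rw [e]

open Classical in
/-- **Uniform Poisson law in progressions.** -/
theorem uniform (x0 ε : ℝ) (hx0 : 0 ≤ x0) (hε : 0 < ε) :
    ∃ (K y0 T0 R : ℕ) (η : ℝ), 0 < η ∧ ∀ Y y T : ℕ, y0 ≤ y → y ^ K ≤ Y → T0 ≤ T → T ^ R ≤ Y →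
      ∀ q a s : ℕ, Nat.Coprime q (a ^ 2 + 1) → Real.log ((q : ℝ) ^ 2 * T ^ 2 + 4) ≤ η * T * Real.log T →
      T * V q a y ≤ x0 →
      ∀ J : Finset ℕ, |(((Ioc s (s + Y)).filter (fun n => W q a y T n ∈ J)).card : ℝ) -
        Y * ∑ j ∈ J, Real.exp (-(T * V q a y)) * (T * V q a y) ^ j / j.factorial| ≤ ε * Y := by
  obtain ⟨K, y0, T0, R, η, hη, h⟩ := law 2 (by norm_num) x0 ε hx0 hε
  refine ⟨K, y0, max T0 2, R, η, hη, ?_⟩
  intro Y y T hy hyY hT hTY q a s hco hlog hTV J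
  have hT0 : T0 ≤ T := (le_max_left _ _).trans hT
  have hT2 : 2 ≤ T := (le_max_right _ _).trans hT
  have hper := QP_perB q a hco
  have h1 := h Y y T hy hyY hT0 hTY (Qt (QP q a) s) (perB_Qt _ 2 hper s) (fun p hp => by
      rw [nuB_Qt _ 2 hper]
      exact QP_adm q a hco p hp)
    (by rw [Vq_Qt _ 2 hper, Vq_V]; exact hTV) (fun t ht => by
      refine le_trans ?_ (QP_large q a y T hco hT2 η hlog t ht)
      apply Nat.cast_le.2
      apply card_le_card
      intro p hp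
      rw [mem_filter] at hp ⊢
      obtain ⟨b1, b2, m, b3, b4⟩ := hp
      refine ⟨b1, b2, m + s, b3, ?_⟩
      unfold Qt at b4
      rwa [show m + s + t = m + t + s by ring]) J
  rw [Vq_Qt _ 2 hper, Vq_V] at h1
  have h2 : ((Icc 1 Y).filter (fun n => Nw (Qt (QP q a) s) y T n ∈ J)).card =
      ((Ioc s (s + Y)).filter (fun n => W q a y T n ∈ J)).card := by
    apply Finset.card_bij (fun n _ => n + s)
    · intro n hn
      rw [mem_filter, mem_Icc, Nw_Qt, Wc_W] at hn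
      rw [mem_filter, mem_Ioc]
      exact ⟨by omega, hn.2⟩
    · intro a _ b _ hab
      omega
    · intro m hm
      rw [mem_filter, mem_Ioc] at hm
      refine ⟨m - s, ?_, by omega⟩
      rw [mem_filter, mem_Icc, Nw_Qt, Wc_W, show m - s + s = m by omega]
      exact ⟨by omega, hm.2⟩
  rw [h2] at h1
  exact h1

end Pool.Agent.R490.UP
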