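import Pool.Agent.R490.Adm

set_option autoImplicit false

/-!
# Windows with the maximal number of rough integers
-/

namespace Pool.Agent.R490.Wn

open Finset Filter
open Pool.Agent.R490.Tu (Rg InP narH)

open Classical in
/-- the number of the integers in `(m, m + k]` without prime factor `≤ k` -/
noncomputable def sc (m k : ℕ) : ℕ :=
  ((Ioc m (m + k)).filter (fun n => ∀ p : ℕ, p.Prime → p ≤ k → ¬ p ∣ n)).card

open Classical in
/-- the number of the integers in `(x, x + k]` all of whose prime factors exceed `x ^ (1 / r)` -/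
noncomputable def rc (r x k : ℕ) : ℕ :=
  ((Ioc x (x + k)).filter (fun n => ∀ p : ℕ, p.Prime → p ∣ n → (x : ℝ) ^ (1 / (r : ℝ)) < (p : ℝ))).card

open Classical in
/-- the rough shifts of a window -/
noncomputable def sh (r x k : ℕ) : Finset ℕ :=
  (Ioc 0 k).filter (fun h => ∀ p : ℕ, p.Prime → p ∣ x + h → (x : ℝ) ^ (1 / (r : ℝ)) < (p : ℝ))

open Classical in
lemma sh_card (r x k : ℕ) : (sh r x k).card = rc r x k := by
  unfold sh rc
  refine Finset.card_bij (fun h _ => x + h) ?_ ?_ ?_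
  · intro h hh
    rw [mem_filter, mem_Ioc] at hh ⊢
    exact ⟨⟨by omega, by omega⟩, hh.2⟩
  · intro h _ h' _ he
    have he' : x + h = x + h' := he
    omega
  · intro n hn
    rw [mem_filter, mem_Ioc] at hn
    refine ⟨n - x, ?_, by omega⟩
    rw [mem_filter, mem_Ioc]
    refine ⟨⟨by omega, by omega⟩, ?_⟩
    rw [show x + (n - x) = n by omega]
    exact hn.2

open Classical in
lemma sh_le (r x k : ℕ) (hx : (k : ℝ) ≤ (x : ℝ) ^ (1 / (r : ℝ))) : (sh r x k).card ≤ sc x k := by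
  rw [sh_card]
  unfold rc sc
  apply Finset.card_le_card
  intro n hn
  rw [mem_filter] at hn ⊢
  refine ⟨hn.1, fun p hp hpk hd => ?_⟩
  have h1 := hn.2 p hp hd
  have h2 : (p : ℝ) ≤ k := by exact_mod_cast hpk
  linarith

lemma sh_adm (r x k : ℕ) (hx : (k : ℝ) ≤ (x : ℝ) ^ (1 / (r : ℝ))) (p : ℕ) (hp : p.Prime) :
    ∃ m : ℕ, ∀ h ∈ sh r x k, ¬ p ∣ m + h := by
  classical
  by_cases hpk : p ≤ k
  · refine ⟨x, fun h hh hd => ?_⟩
    unfold sh at hh
    rw [mem_filter] at hh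
    have h1 := hh.2 p hp hd
    have h2 : (p : ℝ) ≤ k := by exact_mod_cast hpk
    linarith
  · refine ⟨0, fun h hh hd => ?_⟩
    unfold sh at hh
    rw [mem_filter, mem_Ioc] at hh
    rw [zero_add] at hd
    have := Nat.le_of_dvd (by omega) hd
    omega

open Classical in
/-- **Narrow progressions of windows with the maximal number of rough integers.** -/
theorem narrow (k K : ℕ) (hK1 : 1 ≤ K) (hK : ∀ m, sc m k ≤ K) (θ : ℝ) (hθ : 0 < θ)
    (r : ℕ) (hr : 2 ≤ r) (l : ℕ) (hl : 2 ≤ l) (ε : ℝ) (hε : 0 < ε) :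
    ∃ B : ℕ, ∀ᶠ X : ℕ in atTop, ∀ Y : ℕ, (X : ℝ) ^ θ ≤ Y → Y ≤ X →
      ∀ A : Set ℕ, (∀ x ∈ A, K ≤ rc r x k) →
        (((Ioc X (X + Y)).filter (fun m : ℕ =>
          m ∈ A ∧ ¬ InP A l (Real.log X ^ B) X (X + Y + 1) m)).card : ℝ) ≤
        ε * (Y / Real.log X ^ K) := by
  -- the admissible patterns
  obtain ⟨F, hF⟩ : ∃ F : Finset (Finset ℕ), F = ((Ioc 0 k).powerset).filter (fun H => H.card = K ∧
    ∀ p : ℕ, p.Prime → ∃ m : ℕ, ∀ h ∈ H, ¬ p ∣ m + h) := ⟨_, rfl⟩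
  have hF' : ∀ H ∈ F, H.card = K ∧ ∀ p : ℕ, p.Prime → ∃ m : ℕ, ∀ h ∈ H, ¬ p ∣ m + h := by
    intro H hH
    rw [hF, mem_filter] at hH
    exact hH.2
  have hex : ∀ H ∈ F, ∃ B : ℕ, ∀ᶠ X : ℕ in atTop, ∀ Y : ℕ, (X : ℝ) ^ θ ≤ Y → Y ≤ X →
      ∀ A : Set ℕ, (∀ m ∈ A, Rg H r m) →
        (((Ioc X (X + Y)).filter (fun m : ℕ =>
          m ∈ A ∧ ¬ InP A l (Real.log X ^ B) X (X + Y + 1) m)).card : ℝ) ≤
        ε / (F.card + 1) * (Y / Real.log X ^ K) := by
    intro H hH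
    obtain ⟨h1, h2⟩ := hF' H hH
    have h3 := narH H (Finset.card_pos.1 (by omega)) h2 θ hθ r hr l hl (ε / (F.card + 1)) (by positivity)
    rw [h1] at h3
    exact h3
  choose! B hB using hex
  refine ⟨F.sup B, ?_⟩
  have hall := (Filter.eventually_all_finset F).2 hB
  have hr0 : (0 : ℝ) < r := by exact_mod_cast (by omega : 0 < r)
  have hpow : Tendsto (fun n : ℕ => (n : ℝ) ^ (1 / (r : ℝ))) atTop atTop :=
    (tendsto_rpow_atTop (by positivity)).comp tendsto_natCast_atTop_atTop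
  have hlog : Tendsto (fun n : ℕ => Real.log (n : ℝ)) atTop atTop :=
    Real.tendsto_log_atTop.comp tendsto_natCast_atTop_atTop
  filter_upwards [hall, hpow.eventually_ge_atTop (k : ℝ), hlog.eventually_ge_atTop 1] with X hX hXk hX1
  intro Y hXY hYX A hA
  obtain ⟨D, hD⟩ : ∃ D : ℝ, D = Real.log X ^ (F.sup B) := ⟨_, rfl⟩
  rw [← hD]
  obtain ⟨G, hG⟩ : ∃ G : Finset ℕ → Set ℕ, ∀ H x, x ∈ G H ↔ x ∈ A ∧ Rg H r x :=
    ⟨fun H => {x | x ∈ A ∧ Rg H r x}, fun _ _ => Iff.rfl⟩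
  -- cover by the patterns
  have hcov : ((Ioc X (X + Y)).filter (fun m : ℕ => m ∈ A ∧ ¬ InP A l D X (X + Y + 1) m)) ⊆
      F.biUnion (fun H => (Ioc X (X + Y)).filter (fun m : ℕ =>
        m ∈ G H ∧ ¬ InP (G H) l (Real.log X ^ B H) X (X + Y + 1) m)) := by
    intro m hm
    rw [mem_filter, mem_Ioc] at hm
    obtain ⟨⟨hm1, hm2⟩, hmA, hmn⟩ := hm
    have hmk : (k : ℝ) ≤ (m : ℝ) ^ (1 / (r : ℝ)) :=
      hXk.trans (Real.rpow_le_rpow (Nat.cast_nonneg _) (by exact_mod_cast hm1.le) (by positivity))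
    have hcard : (sh r m k).card = K := by
      apply le_antisymm
      · exact (sh_le r m k hmk).trans (hK m)
      · rw [sh_card]
        exact hA m hmA
    have hmem : sh r m k ∈ F := by
      rw [hF, mem_filter, mem_powerset]
      exact ⟨Finset.filter_subset _ _, hcard, fun p hp => sh_adm r m k hmk p hp⟩
    rw [mem_biUnion]
    refine ⟨sh r m k, hmem, ?_⟩
    rw [mem_filter, mem_Ioc]
    refine ⟨⟨hm1, hm2⟩, (hG _ _).2 ⟨hmA, ?_⟩, ?_⟩
    · intro h hh p hp hd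
      unfold sh at hh
      rw [mem_filter] at hh
      exact hh.2 p hp hd
    · intro hin
      apply hmn
      obtain ⟨u, d, hd1, hd2, h1, h2⟩ := hin
      refine ⟨u, d, hd1, hd2.trans ?_, fun i hi => ⟨((hG _ _).1 (h1 i hi).1).1, (h1 i hi).2⟩, h2⟩
      rw [hD]
      exact pow_le_pow_right₀ hX1 (Finset.le_sup hmem)
  have h1 := (Finset.card_le_card hcov).trans Finset.card_biUnion_le
  have h2 : ((((Ioc X (X + Y)).filter (fun m : ℕ => m ∈ A ∧ ¬ InP A l D X (X + Y + 1) m)).card : ℕ) : ℝ) ≤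
      ∑ H ∈ F, ((((Ioc X (X + Y)).filter (fun m : ℕ =>
        m ∈ G H ∧ ¬ InP (G H) l (Real.log X ^ B H) X (X + Y + 1) m)).card : ℕ) : ℝ) := by
    exact_mod_cast h1
  refine h2.trans ?_
  have h3 : ∑ H ∈ F, ((((Ioc X (X + Y)).filter (fun m : ℕ =>
        m ∈ G H ∧ ¬ InP (G H) l (Real.log X ^ B H) X (X + Y + 1) m)).card : ℕ) : ℝ) ≤
        ∑ _H ∈ F, ε / (F.card + 1) * (Y / Real.log X ^ K) := by
    apply Finset.sum_le_sum
    intro H hH
    exact hX H hH Y hXY hYX (G H) (fun _ hm => ((hG _ _).1 hm).2)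
  refine h3.trans ?_
  rw [Finset.sum_const, nsmul_eq_mul]
  have hpos : 0 ≤ (Y : ℝ) / Real.log X ^ K := by positivity
  have h4 : (F.card : ℝ) * (ε / (F.card + 1)) ≤ ε := by
    rw [mul_div_assoc', div_le_iff₀ (by positivity)]
    nlinarith
  calc (F.card : ℝ) * (ε / (F.card + 1) * (Y / Real.log X ^ K)) =
      ((F.card : ℝ) * (ε / (F.card + 1))) * (Y / Real.log X ^ K) := by ring
    _ ≤ ε * (Y / Real.log X ^ K) := mul_le_mul_of_nonneg_right h4 hpos

end Pool.Agent.R490.Wn
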