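import Pool.Agent.R490.Win

set_option autoImplicit false

/-!
# Windows with the maximal number of rough integers: the law of the spacings in one residue class
-/

namespace Pool.Agent.R490.Wn

open Polynomial Finset Filter
open Pool.Agent.W123.RP Pool.Agent.H373R2.T7 Pool.Agent.W123.RU Pool.Agent.W123.RU.Poly
open Pool.Agent.TH464.PW Pool.Agent.TH464.PO Pool.Agent.Y879.GL

open Classical in
/-- the number of the integers in `(x, x + k]` without prime factor `≤ y` -/
noncomputable def wc (y x k : ℕ) : ℕ :=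
  ((Ioc x (x + k)).filter (fun n => ∀ p : ℕ, p.Prime → p ≤ y → ¬ p ∣ n)).card

lemma wc_sc (x k : ℕ) : wc k x k = sc x k := rfl

open Classical in
/-- the shifts `h` in `(0, k]` with `m + h` prime to all primes `≤ k` -/
noncomputable def pt (m k : ℕ) : Finset ℕ :=
  (Ioc 0 k).filter (fun h => ∀ p : ℕ, p.Prime → p ≤ k → ¬ p ∣ m + h)

open Classical in
lemma pt_card (m k : ℕ) : (pt m k).card = sc m k := by
  unfold pt sc
  refine Finset.card_bij (fun h _ => m + h) ?_ ?_ ?_
  · intro h hh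
    rw [mem_filter, mem_Ioc] at hh ⊢
    exact ⟨⟨by omega, by omega⟩, hh.2⟩
  · intro h _ h' _ he
    have he' : m + h = m + h' := he
    omega
  · intro n hn
    rw [mem_filter, mem_Ioc] at hn
    refine ⟨n - m, ?_, by omega⟩
    rw [mem_filter, mem_Ioc]
    refine ⟨⟨by omega, by omega⟩, ?_⟩
    rw [show m + (n - m) = n by omega]
    exact hn.2

lemma dvd_prim {p k : ℕ} (hp : p.Prime) : p ∣ primorial k ↔ p ≤ k := by
  unfold primorial
  rw [Prime.dvd_finset_prod_iff hp.prime]
  constructor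
  · rintro ⟨q, hq, hd⟩
    rw [mem_filter, mem_range] at hq
    rw [(Nat.prime_dvd_prime_iff_eq hp hq.2).1 hd]
    omega
  · intro h
    exact ⟨p, by rw [mem_filter, mem_range]; exact ⟨by omega, hp⟩, dvd_rfl⟩

lemma lt_prim (k : ℕ) (hk : 3 ≤ k) : k < primorial k := by
  obtain ⟨p, hp, h1, h2⟩ := Nat.exists_prime_lt_and_le_two_mul (k / 2) (by omega)
  by_cases hp2 : p = 2
  · have h6 : 2 * 3 ∣ primorial k := by
      apply Nat.Coprime.mul_dvd_of_dvd_of_dvd (by norm_num)
      · exact (dvd_prim Nat.prime_two).2 (by omega)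
      · exact (dvd_prim Nat.prime_three).2 (by omega)
    have := Nat.le_of_dvd (primorial_pos k) h6
    omega
  · have h6 : 2 * p ∣ primorial k := by
      apply Nat.Coprime.mul_dvd_of_dvd_of_dvd
      · exact (Nat.coprime_primes Nat.prime_two hp).2 (fun h => hp2 h.symm)
      · exact (dvd_prim Nat.prime_two).2 (by omega)
      · exact (dvd_prim hp).2 (by omega)
    have := Nat.le_of_dvd (primorial_pos k) h6
    omega

/-- the enumeration of the shifts -/
noncomputable def en (m k : ℕ) : Fin (sc m k) → ℕ := fun i =>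
  (((pt m k).equivFinOfCardEq (pt_card m k)).symm i : ℕ)

lemma en_mem (m k : ℕ) (i : Fin (sc m k)) : en m k i ∈ pt m k :=
  (((pt m k).equivFinOfCardEq (pt_card m k)).symm i).2

open Classical in
lemma mem_pt (m k h : ℕ) : h ∈ pt m k ↔ (0 < h ∧ h ≤ k) ∧ ∀ p : ℕ, p.Prime → p ≤ k → ¬ p ∣ m + h := by
  unfold pt
  rw [mem_filter, mem_Ioc]

lemma en_surj (m k h : ℕ) (hh : h ∈ pt m k) : ∃ i, en m k i = h :=
  ⟨(pt m k).equivFinOfCardEq (pt_card m k) ⟨h, hh⟩, by unfold en; rw [Equiv.symm_apply_apply]⟩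

lemma mod_iff (m k p h : ℕ) (hp : p.Prime) (hpk : p ≤ k) : p ∣ m % primorial k + h ↔ p ∣ m + h := by
  have h1 : p ∣ primorial k := (dvd_prim hp).2 hpk
  have h2 : m = primorial k * (m / primorial k) + m % primorial k := (Nat.div_add_mod m _).symm
  constructor
  · intro h3
    rw [h2, add_assoc]
    exact dvd_add (Dvd.dvd.mul_right h1 _) h3
  · intro h3
    rw [h2, add_assoc] at h3
    exact (Nat.dvd_add_right (Dvd.dvd.mul_right h1 _)).1 h3

open Classical in
lemma pat_win (m k : ℕ) (hm : 1 ≤ sc m k) : Pat k (primorial k) (m % primorial k) (en m k) where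
  hM := primorial_pos k
  hc := Nat.mod_lt _ (primorial_pos k)
  hk := hm
  hkP := by
    unfold sc
    refine (Finset.card_filter_le _ _).trans ?_
    rw [Nat.card_Ioc]
    omega
  hpr := fun p hp => dvd_prim hp
  cop := by
    intro i
    rw [Nat.coprime_iff_gcd_eq_one]
    by_contra hne
    obtain ⟨p, hp, hd⟩ := Nat.exists_prime_and_dvd hne
    have h1 := hd.trans (Nat.gcd_dvd_left _ _)
    have h2 := hd.trans (Nat.gcd_dvd_right _ _)
    have hpk := (dvd_prim hp).1 h1
    rw [mod_iff m k p _ hp hpk] at h2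
    exact ((mem_pt _ _ _).1 (en_mem m k i)).2 p hp hpk h2
  inj := by
    intro i j hij
    unfold en at hij
    exact ((pt m k).equivFinOfCardEq (pt_card m k)).symm.injective (Subtype.ext hij)
  dif := by
    intro i j hij p hp hpk hd
    have h1 := (mem_pt _ _ _).1 (en_mem m k i)
    have h2 := (mem_pt _ _ _).1 (en_mem m k j)
    have hne : en m k i ≠ en m k j := by
      intro h
      apply hij
      unfold en at h
      exact ((pt m k).equivFinOfCardEq (pt_card m k)).symm.injective (Subtype.ext h)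
    have h3 : ((en m k i : ℤ) - en m k j) ≠ 0 := by
      intro h
      apply hne
      exact_mod_cast sub_eq_zero.1 h
    have h4 := Int.le_of_dvd (Int.natAbs_pos.2 h3 |> fun h => by exact_mod_cast h) ((Int.dvd_natAbs).2 hd)
    omega

/-- the windows of the class of `m` with `sc m k` rough integers -/
def IsW (m k y x : ℕ) : Prop := x % primorial k = m % primorial k ∧ sc m k ≤ wc y x k

open Classical in
lemma win_iff (m k : ℕ) (y : ℕ) (hy : k ≤ y) (n : ℕ) :
    Rg (primorial k) (m % primorial k) (en m k) y n ↔ IsW m k y n := by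
  unfold Rg IsW
  constructor
  · rintro ⟨h1, h2⟩
    refine ⟨h1, ?_⟩
    rw [← pt_card]
    unfold wc
    refine Finset.card_le_card_of_injOn (fun h => n + h) ?_ ?_
    · intro h hh
      have hh' : h ∈ pt m k := hh
      have h3 := (mem_pt _ _ _).1 hh'
      obtain ⟨i, hi⟩ := en_surj m k h hh'
      simp only [Finset.coe_filter, Set.mem_setOf_eq, mem_Ioc]
      refine ⟨⟨by omega, by omega⟩, fun p hp hpy => ?_⟩
      rw [← hi]
      exact h2 p hp hpy i
    · intro a _ b _ hab
      have : n + a = n + b := hab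
      omega
  · rintro ⟨h1, h2⟩
    refine ⟨h1, ?_⟩
    -- the rough integers of the window are the `n + h`
    have hsub : ((Ioc n (n + k)).filter (fun x => ∀ p : ℕ, p.Prime → p ≤ y → ¬ p ∣ x)) ⊆
        (pt m k).image (fun h => n + h) := by
      intro x hx
      rw [mem_filter, mem_Ioc] at hx
      rw [mem_image]
      refine ⟨x - n, ?_, by omega⟩
      rw [mem_pt]
      refine ⟨⟨by omega, by omega⟩, fun p hp hpk hd => ?_⟩
      rw [← mod_iff m k p _ hp hpk, ← h1, mod_iff n k p _ hp hpk, show n + (x - n) = x by omega] at hd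
      exact hx.2 p hp (hpk.trans hy) hd
    have hcard : ((pt m k).image (fun h => n + h)).card ≤
        ((Ioc n (n + k)).filter (fun x => ∀ p : ℕ, p.Prime → p ≤ y → ¬ p ∣ x)).card := by
      refine Finset.card_image_le.trans ?_
      rw [pt_card]
      exact h2
    have heq := Finset.eq_of_subset_of_card_le hsub hcard
    intro p hp hpy i
    have h3 : n + en m k i ∈ (pt m k).image (fun h => n + h) := mem_image_of_mem _ (en_mem m k i)
    rw [← heq, mem_filter] at h3
    exact h3.2 p hp hpy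

open Classical in
/-- **The law of the spacings of the windows.** -/
theorem gapWin (k m : ℕ) (hk : 3 ≤ k) (hm : 1 ≤ sc m k) (θ : ℝ) (hθ : 0 < θ) (l0 : ℕ) (x0 ε : ℝ) (hε : 0 < ε) :
    ∃ r0 : ℕ, ∀ r : ℕ, r0 ≤ r → ∀ᶠ X : ℕ in atTop, ∀ u Y : ℕ, m ≤ u → (X : ℝ) ^ θ ≤ Y → ∀ l T : ℕ,
      (l ≤ l0 ∨ T * VP k (primorial k) (sc m k) ⌊(X : ℝ) ^ (1 / (r : ℝ))⌋₊ ≤ x0) →
        |((((Ioc u (u + Y)).filter (fun x => IsW m k ⌊(X : ℝ) ^ (1 / (r : ℝ))⌋₊ x ∧
          ((Ico (x - T) x).filter (fun z => IsW m k ⌊(X : ℝ) ^ (1 / (r : ℝ))⌋₊ z)).card < l)).card : ℕ) : ℝ) -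
          Y * VP k (primorial k) (sc m k) ⌊(X : ℝ) ^ (1 / (r : ℝ))⌋₊ *
            ∑ j ∈ range l, Real.exp (-(T * VP k (primorial k) (sc m k) ⌊(X : ℝ) ^ (1 / (r : ℝ))⌋₊)) *
              (T * VP k (primorial k) (sc m k) ⌊(X : ℝ) ^ (1 / (r : ℝ))⌋₊) ^ j / j.factorial| ≤
          ε * (Y * VP k (primorial k) (sc m k) ⌊(X : ℝ) ^ (1 / (r : ℝ))⌋₊) := by
  obtain ⟨r0, h0⟩ := gap_pat (pat_win m k hm) (fun i => by
    have h1 := (mem_pt _ _ _).1 (en_mem m k i)
    have h2 := lt_prim k hk
    omega) θ hθ l0 x0 ε hε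
  refine ⟨max r0 1, ?_⟩
  intro r hr
  have hr1 : 1 ≤ r := (le_max_right _ _).trans hr
  have hr0 : (0 : ℝ) < r := by exact_mod_cast hr1
  have hpow : Tendsto (fun n : ℕ => (n : ℝ) ^ (1 / (r : ℝ))) atTop atTop :=
    (tendsto_rpow_atTop (by positivity)).comp tendsto_natCast_atTop_atTop
  filter_upwards [h0 r ((le_max_left _ _).trans hr), hpow.eventually_ge_atTop (k : ℝ)] with X h1 h2
  intro u Y hu hY l T hT
  obtain ⟨y, hy⟩ : ∃ y, y = ⌊(X : ℝ) ^ (1 / (r : ℝ))⌋₊ := ⟨_, rfl⟩
  rw [← hy] at h1 hT ⊢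
  have hyy : k ≤ y := by rw [hy]; exact Nat.le_floor h2
  have h3 := h1 u Y ((Nat.mod_le _ _).trans hu) hY l T hT
  have e7 : Rg (primorial k) (m % primorial k) (en m k) y = fun x => IsW m k y x := by
    funext x
    exact propext (win_iff m k y hyy x)
  unfold Pk at h3
  rw [e7] at h3
  exact h3

end Pool.Agent.R490.Wn
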